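import Pool.Agent.Q154.War.Final

/-!
# The exceptional set
-/

set_option autoImplicit false
set_option linter.unusedSectionVars false

open MeasureTheory Set Finset
open scoped Real ENNReal

namespace Pool.Agent.Q154.War

/-- the representations by integer parts -/
def RepF (k n : ℕ) (α : Fin n → ℝ) (N : ℕ) : Set (Fin n → ℕ) :=
  {x | (∀ i, 0 < x i) ∧ ⌊∑ i, ((x i : ℝ) + α i) ^ k⌋ = (N : ℤ)}

lemma finite_RepF {k n : ℕ} (hk : 1 ≤ k) {α : Fin n → ℝ} (hα : ∀ i, 0 ≤ α i) (N : ℕ) :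
    (RepF k n α N).Finite := by
  refine (finite_Rep hk hα (N : ℝ) 1).subset ?_
  intro x hx
  refine ⟨hx.1, ?_⟩
  have h := hx.2
  rw [Int.floor_eq_iff] at h
  push_cast at h
  rw [abs_lt]
  constructor <;> linarith [h.1, h.2]

lemma cnt_le_RepF {k n : ℕ} (hk : 1 ≤ k) {α : Fin n → ℝ} (hα : ∀ i, 0 ≤ α i) (N : ℕ) {u : ℝ}
    (hu : u ∈ Set.Ioo ((N : ℝ) + 1 / 4) (N + 3 / 4)) :
    cnt k n (1 / 4) α u ≤ ((RepF k n α N).ncard : ℝ≥0∞) := by
  rw [cnt_eq_ncard hk hα]
  have h : Rep k n α u (1 / 4) ⊆ RepF k n α N := by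
    intro x hx
    refine ⟨hx.1, ?_⟩
    have h2 := abs_lt.1 hx.2
    rw [Int.floor_eq_iff]
    push_cast
    constructor <;> linarith [hu.1, hu.2, h2.1, h2.2]
  exact_mod_cast Set.ncard_le_ncard h (finite_RepF hk hα N)

/-- disjoint intervals -/
lemma card_le_vol (T : Finset ℕ) {B : Set ℝ}
    (hT : ∀ N ∈ T, Set.Ioo ((N : ℝ) + 1 / 4) (N + 3 / 4) ⊆ B) :
    (T.card : ℝ≥0∞) * ENNReal.ofReal (1 / 2) ≤ volume B := by
  have h1 : volume (⋃ N ∈ T, Set.Ioo ((N : ℝ) + 1 / 4) (N + 3 / 4)) =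
      ∑ N ∈ T, volume (Set.Ioo ((N : ℝ) + 1 / 4) (N + 3 / 4)) := by
    refine measure_biUnion_finset ?_ fun N _ => measurableSet_Ioo
    intro a _ b _ hab
    rw [Function.onFun, Set.disjoint_left]
    intro x hx hx'
    apply hab
    have h2 : (a : ℝ) < b + 1 := by linarith [hx.1, hx'.2]
    have h3 : (b : ℝ) < a + 1 := by linarith [hx'.1, hx.2]
    have h4 : a < b + 1 := by exact_mod_cast h2
    have h5 : b < a + 1 := by exact_mod_cast h3
    omega
  have h2 : ∑ N ∈ T, volume (Set.Ioo ((N : ℝ) + 1 / 4) (N + 3 / 4)) =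
      (T.card : ℝ≥0∞) * ENNReal.ofReal (1 / 2) := by
    rw [← nsmul_eq_mul, ← Finset.sum_const]
    refine Finset.sum_congr rfl fun N _ => ?_
    rw [Real.volume_Ioo]
    congr 1
    ring
  rw [← h2, ← h1]
  exact measure_mono (Set.iUnion₂_subset hT)

/-- **The exceptional set.** -/
theorem almost_all {k j : ℕ} (hk : 3 ≤ k) (hj : 2 ^ j ≤ k) {ε : ℝ} (hε : 0 < ε) :
    ∃ c, 0 < c ∧ ∀ᵐ α ∂(volume : Measure (Fin (k + 1 + j) → ℝ)),
      (∀ i, α i ∈ Set.Icc (0 : ℝ) 1) → ∃ C : ℝ, ∀ X : ℝ, 1 ≤ X →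
        ({N : ℕ | (N : ℝ) ≤ X ∧ ((RepF k (k + 1 + j) α N).ncard : ℝ) <
          c * (N : ℝ) ^ (((k + 1 + j : ℕ) : ℝ) / k - 1)}.ncard : ℝ) ≤
            C * X ^ (1 - 2 ^ j / k + ε) := by
  set n := k + 1 + j with hn
  have hk1 : 1 ≤ k := by omega
  have hk0 : (0 : ℝ) < k := by exact_mod_cast hk1
  set E : ℝ := 1 - 2 ^ j / k + ε with hE
  have hjk : (2 : ℝ) ^ j ≤ k := by exact_mod_cast hj
  have hE0 : 0 < E := by
    have : (2 : ℝ) ^ j / k ≤ 1 := (div_le_one hk0).2 hjk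
    linarith
  set q : ℝ := (2 : ℝ) ^ (k * E) with hqdef
  have hq1 : 1 < q := Real.one_lt_rpow (by norm_num) (by positivity)
  have hq0 : 0 < q := by linarith
  have hqlow : 2 ^ k * (1 / (2 * (1 : ℝ))) ^ (2 ^ j) < q := by
    have e1 : (1 / (2 * (1 : ℝ))) = (2 : ℝ) ^ (-1 : ℝ) := by
      rw [Real.rpow_neg_one]
      norm_num
    rw [e1, ← Real.rpow_natCast 2 k, ← Real.rpow_mul_natCast (by norm_num),
      ← Real.rpow_add (by norm_num), hqdef]
    refine Real.rpow_lt_rpow_of_exponent_lt (by norm_num) ?_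
    have e2 : (k : ℝ) * E = k - 2 ^ j + k * ε := by
      rw [hE]
      field_simp
    rw [e2]
    push_cast
    nlinarith
  have hPr := iter_Pr hk one_pos le_rfl j q hqlow
  obtain ⟨c₁, hc₁, h1⟩ := hPr (fun _ => 1 / 4) ⟨1 / 4, by norm_num, fun i => by
    rw [one_pow, mul_one]⟩ (fun i => by norm_num)
  set A : ℝ := 2 * ((k : ℝ) + 1) * 2 ^ k with hA
  have hA0 : 0 < A := by positivity
  set e : ℝ := (n : ℝ) / k - 1 with he
  have hek : k * e = (n - k : ℕ) := by
    rw [he, Nat.cast_sub (by omega)]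
    field_simp
  have he0 : 0 < e := by
    have h2 : (1 : ℝ) ≤ ((n - k : ℕ) : ℝ) := by
      have : 1 ≤ n - k := by omega
      exact_mod_cast this
    have h3 : 0 < k * e := by rw [hek]; linarith
    exact (mul_pos_iff_of_pos_left hk0).1 h3
  have hAe : 0 < A ^ e := Real.rpow_pos_of_pos hA0 _
  set c : ℝ := c₁ * (1 / 4) / A ^ e with hc
  refine ⟨c, by positivity, ?_⟩
  rw [νn_eq, ae_restrict_iff' (MeasurableSet.univ_pi fun _ => measurableSet_Icc)] at h1
  filter_upwards [h1] with α hα hα01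
  obtain ⟨C, hC⟩ := hα (fun i _ => hα01 i)
  have hα0 : ∀ i, 0 ≤ α i := fun i => (hα01 i).1
  -- the bad integers in a window
  have hbad : ∀ i, ∀ N : ℕ, (N : ℝ) ∈ Wi k i →
      ((RepF k n α N).ncard : ℝ) < c * (N : ℝ) ^ e →
      Set.Ioo ((N : ℝ) + 1 / 4) (N + 3 / 4) ⊆
        bad k n (1 / 4) c₁ i α ∪ bad k n (1 / 4) c₁ (i + 1) α := by
    intro i N hNi hNb u hu
    have hNup : (N : ℝ) ≤ A * ((2 : ℝ) ^ i) ^ k := by
      have h2 := hNi.2.le
      have h3 : ((2 : ℝ) ^ (i + 1)) ^ k = 2 ^ k * ((2 : ℝ) ^ i) ^ k := by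
        rw [← mul_pow]
        congr 1
        ring
      rw [h3] at h2
      calc (N : ℝ) ≤ _ := h2
        _ = A * ((2 : ℝ) ^ i) ^ k := by rw [hA]; ring
    have h4 : (N : ℝ) ^ e ≤ A ^ e * ((2 : ℝ) ^ i) ^ (n - k) := by
      calc (N : ℝ) ^ e ≤ (A * ((2 : ℝ) ^ i) ^ k) ^ e :=
            Real.rpow_le_rpow (Nat.cast_nonneg N) hNup he0.le
        _ = A ^ e * (((2 : ℝ) ^ i) ^ k) ^ e := Real.mul_rpow hA0.le (by positivity)
        _ = A ^ e * ((2 : ℝ) ^ i) ^ (n - k) := by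
            congr 1
            rw [← Real.rpow_natCast ((2 : ℝ) ^ i) k, ← Real.rpow_mul (by positivity), hek,
              Real.rpow_natCast]
    have h5 : cnt k n (1 / 4) α u < ENNReal.ofReal (c₁ * (1 / 4) * ((2 : ℝ) ^ i) ^ (n - k)) := by
      refine lt_of_le_of_lt (cnt_le_RepF hk1 hα0 N hu) ?_
      rw [← ENNReal.ofReal_natCast, ENNReal.ofReal_lt_ofReal_iff (by positivity)]
      refine lt_of_lt_of_le hNb ?_
      calc c * (N : ℝ) ^ e ≤ c * (A ^ e * ((2 : ℝ) ^ i) ^ (n - k)) :=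
            mul_le_mul_of_nonneg_left h4 (by positivity)
        _ = c₁ * (1 / 4) * ((2 : ℝ) ^ i) ^ (n - k) := by
            rw [hc]
            field_simp
    rcases lt_or_ge u (2 * ((k : ℝ) + 1) * ((2 : ℝ) ^ (i + 1)) ^ k) with h2 | h2
    · left
      refine ⟨⟨?_, h2⟩, h5⟩
      linarith [hNi.1, hu.1]
    · right
      refine ⟨⟨h2, ?_⟩, lt_of_lt_of_le h5 ?_⟩
      · have h3 : u < 2 * ((k : ℝ) + 1) * ((2 : ℝ) ^ (i + 1)) ^ k + 1 := by
          linarith [hu.2, hNi.2]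
        have h4 : (1 : ℝ) ≤ ((2 : ℝ) ^ (i + 1)) ^ k := one_le_pow₀ (one_le_pow₀ (by norm_num))
        have h5 : ((2 : ℝ) ^ (i + 1 + 1)) ^ k = 2 ^ k * ((2 : ℝ) ^ (i + 1)) ^ k := by
          rw [← mul_pow]
          congr 1
          ring
        have h6 : (2 : ℝ) ≤ 2 ^ k := by
          calc (2 : ℝ) = 2 ^ 1 := by norm_num
            _ ≤ 2 ^ k := pow_le_pow_right₀ (by norm_num) hk1
        have h7 : 2 * ((2 : ℝ) ^ (i + 1)) ^ k ≤ 2 ^ k * ((2 : ℝ) ^ (i + 1)) ^ k :=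
          mul_le_mul_of_nonneg_right h6 (by positivity)
        rw [h5]
        nlinarith [mul_nonneg hk0.le (by linarith : 0 ≤ 2 ^ k * ((2 : ℝ) ^ (i + 1)) ^ k -
          2 * ((2 : ℝ) ^ (i + 1)) ^ k), mul_nonneg hk0.le (by linarith :
            0 ≤ ((2 : ℝ) ^ (i + 1)) ^ k)]
      · unfold thr
        refine ENNReal.ofReal_le_ofReal ?_
        refine mul_le_mul_of_nonneg_left ?_ (by positivity)
        exact pow_le_pow_left₀ (by positivity) (pow_le_pow_right₀ (by norm_num) (by omega)) _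
  -- the union of the bad sets
  have hvol : ∀ I : ℕ, volume (⋃ i ∈ range (I + 2), bad k n (1 / 4) c₁ i α) ≤
      ENNReal.ofReal (C * q ^ 2 / (q - 1) * q ^ I) := by
    intro I
    refine (measure_biUnion_finset_le _ _).trans ?_
    refine (Finset.sum_le_sum fun i _ => hC i).trans ?_
    rw [← Finset.mul_sum, ← ENNReal.ofReal_sum_of_nonneg fun i _ => by positivity,
      ← ENNReal.ofReal_natCast, ← ENNReal.ofReal_mul (by positivity)]
    refine ENNReal.ofReal_le_ofReal ?_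
    rw [geom_sum_eq hq1.ne']
    have h2 : (0 : ℝ) < q - 1 := by linarith
    rw [mul_div_assoc', div_mul_eq_mul_div]
    refine div_le_div_of_nonneg_right ?_ h2.le
    have h3 : (0 : ℝ) ≤ C := Nat.cast_nonneg C
    calc (C : ℝ) * (q ^ (I + 2) - 1) ≤ C * q ^ (I + 2) :=
          mul_le_mul_of_nonneg_left (by linarith) h3
      _ = C * q ^ 2 * q ^ I := by ring
  set D : ℝ := C * q ^ 2 / (q - 1) with hD
  have hD0 : 0 ≤ D := by
    have : 0 < q - 1 := by linarith
    positivity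
  refine ⟨2 * D + A + 1, fun X hX => ?_⟩
  have hX0 : 0 < X := by linarith
  have hXE : 1 ≤ X ^ E := Real.one_le_rpow hX hE0.le
  set T : Set ℕ := {N : ℕ | (N : ℝ) ≤ X ∧ ((RepF k n α N).ncard : ℝ) < c * (N : ℝ) ^ e} with hT
  have hTfin : T.Finite := by
    refine (Set.finite_Iic ⌊X⌋₊).subset ?_
    intro N hN
    exact Nat.le_floor hN.1
  set a₀ : ℝ := 2 * ((k : ℝ) + 1) with ha₀
  have ha₀A : a₀ ≤ A := by
    rw [hA]
    have : (1 : ℝ) ≤ 2 ^ k := one_le_pow₀ (by norm_num)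
    have h0 : 0 < 2 * ((k : ℝ) + 1) := by positivity
    nlinarith
  -- split off small integers
  classical
  set T' : Finset ℕ := hTfin.toFinset.filter fun N => a₀ ≤ (N : ℝ) with hT'
  have hcard : (T.ncard : ℝ) ≤ T'.card + (A + 1) := by
    have h2 : T ⊆ ↑T' ∪ ↑(Finset.range (⌊a₀⌋₊ + 1)) := by
      intro N hN
      by_cases h : a₀ ≤ (N : ℝ)
      · left
        rw [hT']
        simp only [Finset.coe_filter, Set.Finite.mem_toFinset, Set.mem_ofPred_eq]
        exact ⟨hN, h⟩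
      · right
        rw [Finset.coe_range, Set.mem_Iio]
        have : N ≤ ⌊a₀⌋₊ := Nat.le_floor (not_le.1 h).le
        omega
    have h3 : T.ncard ≤ T'.card + (⌊a₀⌋₊ + 1) := by
      rw [← Finset.coe_union] at h2
      have h4 := Set.ncard_le_ncard h2 (Finset.finite_toSet _)
      rw [Set.ncard_coe_finset] at h4
      refine h4.trans ((Finset.card_union_le _ _).trans ?_)
      rw [Finset.card_range]
    have h5 : ((⌊a₀⌋₊ : ℕ) : ℝ) ≤ a₀ := Nat.floor_le (by positivity)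
    have h6 : (T.ncard : ℝ) ≤ T'.card + (⌊a₀⌋₊ + 1) := by exact_mod_cast h3
    linarith
  have hT'card : (T'.card : ℝ) ≤ 2 * D * X ^ E := by
    rcases lt_or_ge X a₀ with hXa | hXa
    · have h2 : T' = ∅ := by
        rw [Finset.eq_empty_iff_forall_notMem]
        intro N hN
        rw [hT', Finset.mem_filter, Set.Finite.mem_toFinset] at hN
        have := hN.1.1
        linarith [hN.2]
      rw [h2]
      simp
      positivity
    · obtain ⟨I, _, hI⟩ := exists_window k hk1 (N := X) 0 (by simpa [ha₀] using hXa)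
      have hsub : ∀ N ∈ T', Set.Ioo ((N : ℝ) + 1 / 4) (N + 3 / 4) ⊆
          ⋃ i ∈ range (I + 2), bad k n (1 / 4) c₁ i α := by
        intro N hN
        rw [hT', Finset.mem_filter, Set.Finite.mem_toFinset] at hN
        obtain ⟨⟨hNX, hNb⟩, hNa⟩ := hN
        obtain ⟨i, _, hi⟩ := exists_window k hk1 (N := (N : ℝ)) 0 (by simpa [ha₀] using hNa)
        have hiI : i ≤ I := by
          by_contra hcon
          rw [not_le] at hcon
          have h2 : ((2 : ℝ) ^ (I + 1)) ^ k ≤ ((2 : ℝ) ^ i) ^ k :=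
            pow_le_pow_left₀ (by positivity) (pow_le_pow_right₀ (by norm_num) hcon) k
          have h3 : 2 * ((k : ℝ) + 1) * ((2 : ℝ) ^ (I + 1)) ^ k ≤
              2 * ((k : ℝ) + 1) * ((2 : ℝ) ^ i) ^ k := mul_le_mul_of_nonneg_left h2 (by positivity)
          linarith [hI.2, hi.1]
        refine (hbad i N hi hNb).trans ?_
        refine Set.union_subset ?_ ?_
        · exact Set.subset_biUnion_of_mem (u := fun i => bad k n (1 / 4) c₁ i α)
            (by simp; omega)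
        · exact Set.subset_biUnion_of_mem (u := fun i => bad k n (1 / 4) c₁ i α)
            (by simp; omega)
      have h2 := (card_le_vol T' hsub).trans (hvol I)
      have hDI : 0 ≤ D * q ^ I := mul_nonneg hD0 (pow_nonneg hq0.le I)
      rw [← ENNReal.ofReal_natCast, ← ENNReal.ofReal_mul (Nat.cast_nonneg _),
        ENNReal.ofReal_le_ofReal_iff hDI] at h2
      have h3 : q ^ I ≤ X ^ E := by
        have h4 : ((2 : ℝ) ^ I) ^ k ≤ X := by
          have h5 := hI.1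
          have h6 : 0 < ((2 : ℝ) ^ I) ^ k := by positivity
          nlinarith
        calc q ^ I = (((2 : ℝ) ^ I) ^ k) ^ E := by
              rw [hqdef, ← Real.rpow_mul_natCast (by norm_num), ← pow_mul,
                ← Real.rpow_natCast 2 (I * k), ← Real.rpow_mul (by norm_num)]
              congr 1
              push_cast
              ring
          _ ≤ X ^ E := Real.rpow_le_rpow (by positivity) h4 hE0.le
      have h7 : D * q ^ I ≤ D * X ^ E := mul_le_mul_of_nonneg_left h3 hD0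
      linarith
  have h8 : A + 1 ≤ (A + 1) * X ^ E := le_mul_of_one_le_right (by positivity) hXE
  calc (T.ncard : ℝ) ≤ T'.card + (A + 1) := hcard
    _ ≤ 2 * D * X ^ E + (A + 1) * X ^ E := add_le_add hT'card h8
    _ = (2 * D + A + 1) * X ^ E := by ring

end Pool.Agent.Q154.War
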