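import Pool.Agent.Q154.War.Shell

/-!
# The asymptotic formula
-/

set_option autoImplicit false
set_option linter.unusedSectionVars false

open MeasureTheory Set Finset FourierTransform
open scoped Real ENNReal

namespace Pool.Agent.Q154.War

lemma measurable_ZZ {Ω : Type*} [MeasurableSpace Ω] {μ : Measure Ω} [IsProbabilityMeasure μ]
    {ι : Type*} {F : Finset ι} {s : ι → Ω → ℝ} {w : ℝ → ℝ} (hw : Wt w)
    (hs : ∀ x, Measurable (s x)) : Measurable (ZZ μ F s w) := by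
  have h1 : Measurable (Function.uncurry fun (ω : Ω) (θ : ℝ) =>
      ‖𝓕 (fun u => (w u : ℂ)) θ‖ * ‖TT F s θ ω - TB μ F s θ‖) := by
    refine Measurable.mul ?_ ?_
    · exact ((continuous_four hw).norm.measurable).comp measurable_snd
    · exact ((measurable_TT hs).sub ((continuous_TB hs).measurable.comp measurable_snd)).norm
  exact (h1.stronglyMeasurable.integral_prod_right).measurable

/-- the size of the box -/
noncomputable def Yj (B a₁ : ℝ) (j : ℕ) : ℕ := ⌈B * a₁ ^ (j + 1)⌉₊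

lemma Yj_ge (B a₁ : ℝ) (j : ℕ) : B * a₁ ^ (j + 1) ≤ Yj B a₁ j := Nat.le_ceil _

lemma Yj_le {B a₁ : ℝ} (hB : 1 ≤ B) (ha : 1 ≤ a₁) (j : ℕ) :
    (Yj B a₁ j : ℝ) ≤ 2 * B * a₁ * a₁ ^ j := by
  have h1 : 1 ≤ a₁ ^ (j + 1) := one_le_pow₀ ha
  have h2 : 1 ≤ B * a₁ ^ (j + 1) := by nlinarith
  have h3 := (Nat.ceil_lt_add_one (by positivity : 0 ≤ B * a₁ ^ (j + 1))).le
  unfold Yj
  calc ((⌈B * a₁ ^ (j + 1)⌉₊ : ℕ) : ℝ) ≤ B * a₁ ^ (j + 1) + 1 := h3
    _ ≤ 2 * (B * a₁ ^ (j + 1)) := by linarith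
    _ = 2 * B * a₁ * a₁ ^ j := by
        rw [pow_succ]
        ring

/-- **Almost sure uniform bounds for the fluctuation.** -/
theorem ae_ZZ {k n : ℕ} (hk : 3 ≤ k) (hn : 2 * k + 1 ≤ n) {a₁ ρ κ B q : ℝ} {w : ℝ → ℝ}
    (ha : 1 < a₁) (hρ : 0 < ρ) (hκ : 0 < κ) (hB : 1 ≤ B) (hw : Wt w)
    (hq1 : a₁ ^ ((n : ℝ) / 2) < q) (hq2 : ρ * a₁ ^ ((n : ℝ) - k - sk k / 4) < q) :
    ∀ᵐ α ∂(νn n), ∃ C : ℕ, ∀ j : ℕ,
      ZZ (νn n) (boxZ n (Yj B a₁ j)) (sz k n) (fun u => w (u / (κ * ρ ^ j))) α ≤ C * q ^ j := by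
  have ha0 : 0 < a₁ := by linarith
  have hs := sk_pos hk
  have hs4 := sk_le hk
  have hk3 : (3 : ℝ) ≤ k := by exact_mod_cast hk
  have hn' : (2 * (k : ℝ) + 1) ≤ n := by exact_mod_cast hn
  have hq0 : 0 < q := lt_trans (by positivity) hq1
  set q₁ := a₁ ^ ((n : ℝ) / 2) with hq₁
  set q₂ := ρ * a₁ ^ ((n : ℝ) - k - sk k / 4) with hq₂
  have hq₁0 : 0 < q₁ := by positivity
  have hq₂0 : 0 < q₂ := by positivity
  set K₁ := ∫ θ, ‖𝓕 (fun u => (w u : ℂ)) θ‖ with hK₁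
  have hK₁0 : 0 ≤ K₁ := integral_nonneg fun θ => norm_nonneg _
  set W := ∫ u, w u with hW
  have hW0 : 0 ≤ W := integral_nonneg fun u => hw.nonneg u
  have hK2 : 0 ≤ K2 (sk k) := integral_nonneg fun θ => by positivity
  set D := 2 * B * a₁ with hD
  have hD0 : 0 < D := by positivity
  set c₁ := Gc n * (D ^ ((n : ℝ) / 2) * K₁) with hc₁
  set c₂ := Gc n * (κ * W * (D ^ ((n : ℝ) - k - sk k / 4) * K2 (sk k))) with hc₂
  have hG := Gc_nonneg n
  have hc₁0 : 0 ≤ c₁ := by positivity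
  have hc₂0 : 0 ≤ c₂ := by positivity
  have hwj : ∀ j : ℕ, Wt fun u => w (u / (κ * ρ ^ j)) := fun j => hw.scale (by positivity)
  have key := ae_bound (μ := νn n)
    (f := fun j α => ENNReal.ofReal (ZZ (νn n) (boxZ n (Yj B a₁ j)) (sz k n)
      (fun u => w (u / (κ * ρ ^ j))) α))
    (fun j => (measurable_ZZ (hwj j) (measurable_sz k n)).ennreal_ofReal)
    (b := fun j => c₁ * q₁ ^ j + c₂ * q₂ ^ j) hq0 (fun j => by positivity) ?_ ?_
  · filter_upwards [key] with α ⟨C, hC⟩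
    refine ⟨C, fun j => ?_⟩
    have h := hC j
    rw [← ENNReal.ofReal_natCast, ← ENNReal.ofReal_mul (by positivity),
      ENNReal.ofReal_le_ofReal_iff (by positivity)] at h
    exact h
  · intro j
    rw [← ofReal_integral_eq_lintegral_ofReal (integrable_ZZ (hwj j) (measurable_sz k n))
      (Filter.Eventually.of_forall fun α => ZZ_nonneg α)]
    refine ENNReal.ofReal_le_ofReal ?_
    have hη : 0 < κ * ρ ^ j := by positivity
    set Y := Yj B a₁ j with hY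
    have hYge := Yj_ge B a₁ j
    have hYle := Yj_le hB ha.le j
    have hY1 : 1 ≤ Y := by
      have h1 : (1 : ℝ) ≤ a₁ ^ (j + 1) := one_le_pow₀ ha.le
      have h2 : (1 : ℝ) ≤ Y := by
        rw [hY]
        nlinarith
      exact_mod_cast h2
    have hY0 : (0 : ℝ) < Y := by exact_mod_cast hY1
    refine (mean_ZZ_le hk hn hY1 (hwj j)).trans ?_
    rw [norm_four_scale w hη, integral_scale w hη]
    have hYD : (Y : ℝ) ≤ D * a₁ ^ j := hYle
    have h1 : (Y : ℝ) ^ ((n : ℝ) / 2) ≤ D ^ ((n : ℝ) / 2) * q₁ ^ j := by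
      calc (Y : ℝ) ^ ((n : ℝ) / 2) ≤ (D * a₁ ^ j) ^ ((n : ℝ) / 2) :=
            Real.rpow_le_rpow hY0.le hYD (by positivity)
        _ = D ^ ((n : ℝ) / 2) * q₁ ^ j := by
            rw [Real.mul_rpow hD0.le (by positivity), hq₁, ← Real.rpow_natCast a₁ j,
              ← Real.rpow_mul ha0.le, ← Real.rpow_mul_natCast ha0.le]
            congr 2
            ring
    have h2 : (Y : ℝ) ^ ((n : ℝ) - sk k / 4) * (K2 (sk k) / (Y : ℝ) ^ k) =
        (Y : ℝ) ^ ((n : ℝ) - k - sk k / 4) * K2 (sk k) := by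
      have e : (n : ℝ) - sk k / 4 = ((n : ℝ) - k - sk k / 4) + k := by ring
      rw [e, Real.rpow_add hY0, Real.rpow_natCast]
      field_simp
    have h3 : (Y : ℝ) ^ ((n : ℝ) - k - sk k / 4) ≤
        D ^ ((n : ℝ) - k - sk k / 4) * (a₁ ^ ((n : ℝ) - k - sk k / 4)) ^ j := by
      calc (Y : ℝ) ^ ((n : ℝ) - k - sk k / 4) ≤ (D * a₁ ^ j) ^ ((n : ℝ) - k - sk k / 4) :=
            Real.rpow_le_rpow hY0.le hYD (by linarith)
        _ = _ := by
            rw [Real.mul_rpow hD0.le (by positivity), ← Real.rpow_natCast a₁ j,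
              ← Real.rpow_mul ha0.le, ← Real.rpow_mul_natCast ha0.le]
            congr 2
            ring
    rw [h2, mul_add]
    refine add_le_add ?_ ?_
    · calc Gc n * ((Y : ℝ) ^ ((n : ℝ) / 2) * K₁) ≤ Gc n * ((D ^ ((n : ℝ) / 2) * q₁ ^ j) * K₁) :=
            mul_le_mul_of_nonneg_left (mul_le_mul_of_nonneg_right h1 hK₁0) hG
        _ = c₁ * q₁ ^ j := by
            rw [hc₁]
            ring
    · calc Gc n * (κ * ρ ^ j * W * ((Y : ℝ) ^ ((n : ℝ) - k - sk k / 4) * K2 (sk k))) ≤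
          Gc n * (κ * ρ ^ j * W * ((D ^ ((n : ℝ) - k - sk k / 4) *
            (a₁ ^ ((n : ℝ) - k - sk k / 4)) ^ j) * K2 (sk k))) := by
            refine mul_le_mul_of_nonneg_left ?_ hG
            refine mul_le_mul_of_nonneg_left ?_ (by positivity)
            exact mul_le_mul_of_nonneg_right h3 hK2
        _ = c₂ * q₂ ^ j := by
            rw [hc₂, hq₂, mul_pow]
            ring
  · have h1 : Summable fun j : ℕ => c₁ * (q₁ / q) ^ j :=
      (summable_geometric_of_lt_one (by positivity) ((div_lt_one hq0).2 hq1)).mul_left _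
    have h2 : Summable fun j : ℕ => c₂ * (q₂ / q) ^ j :=
      (summable_geometric_of_lt_one (by positivity) ((div_lt_one hq0).2 hq2)).mul_left _
    refine (h1.add h2).congr fun j => ?_
    rw [div_pow, div_pow]
    field_simp

/-- the lattice points in a shell -/
def Lat (k n : ℕ) (α : Fin n → ℝ) (N b : ℝ) : Set (Fin n → ℤ) :=
  {x | |∑ i, |(x i : ℝ) + α i| ^ k - N| < b}

lemma Lat_subset_box {k n Y : ℕ} {α : Fin n → ℝ} (hα : ∀ i, α i ∈ Set.Icc (0 : ℝ) 1) {N b : ℝ}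
    (hY : N + b ≤ (Y : ℝ) ^ k) : Lat k n α N b ⊆ ↑(boxZ n Y) := by
  intro x hx
  rw [Finset.mem_coe]
  unfold boxZ
  rw [Fintype.mem_piFinset]
  intro i
  have hx' : |∑ i, |(x i : ℝ) + α i| ^ k - N| < b := hx
  have h1 := (abs_lt.1 hx').2
  have h2 : |(x i : ℝ) + α i| ^ k ≤ ∑ i, |(x i : ℝ) + α i| ^ k :=
    Finset.single_le_sum (f := fun i => |(x i : ℝ) + α i| ^ k) (fun j _ => by positivity)
      (Finset.mem_univ i)
  have h4 : |(x i : ℝ) + α i| < Y := by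
    refine lt_of_pow_lt_pow_left₀ k (Nat.cast_nonneg Y) ?_
    linarith
  rw [abs_lt] at h4
  have h5 := (hα i).1
  have h6 := (hα i).2
  rw [Finset.mem_Ico]
  constructor
  · have h7 : (-(Y : ℝ)) - 1 < x i := by linarith [h4.1]
    have h8 : (-(Y : ℤ)) - 1 < x i := by exact_mod_cast h7
    omega
  · have h7 : (x i : ℝ) < Y := by linarith [h4.2]
    exact_mod_cast h7

lemma finite_Lat {k n : ℕ} (hk : 1 ≤ k) {α : Fin n → ℝ} (hα : ∀ i, α i ∈ Set.Icc (0 : ℝ) 1)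
    (N b : ℝ) : (Lat k n α N b).Finite := by
  obtain ⟨Y, hY⟩ := exists_nat_gt (max 1 (N + b))
  have h1 : N + b ≤ (Y : ℝ) ^ k := by
    have h2 : 1 ≤ (Y : ℝ) := (le_max_left 1 (N + b)).trans hY.le
    calc N + b ≤ Y := (le_max_right 1 (N + b)).trans hY.le
      _ ≤ (Y : ℝ) ^ k := le_self_pow₀ h2 (by omega)
  exact (Finset.finite_toSet _).subset (Lat_subset_box hα h1)

lemma Lat_le_rr {k n Y : ℕ} {α : Fin n → ℝ} (hα : ∀ i, α i ∈ Set.Icc (0 : ℝ) 1) {N a b η : ℝ}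
    {w : ℝ → ℝ} (hη : 0 < η) (hw : Prof a b w) (hY : N + a * η ≤ (Y : ℝ) ^ k) :
    ((Lat k n α N (a * η)).ncard : ℝ) ≤ rr (boxZ n Y) (sz k n) (fun u => w (u / η)) α N := by
  classical
  have hsub := Lat_subset_box hα hY
  set T := (boxZ n Y).filter fun x => x ∈ Lat k n α N (a * η) with hT
  have hTe : Lat k n α N (a * η) = ↑T := by
    ext x
    rw [hT, Finset.coe_filter]
    constructor
    · intro hx
      exact ⟨hsub hx, hx⟩
    · intro hx
      exact hx.2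
  rw [hTe, Set.ncard_coe_finset]
  unfold rr
  calc (T.card : ℝ) = ∑ _x ∈ T, (1 : ℝ) := by simp
    _ ≤ ∑ x ∈ T, w ((N - sz k n x α) / η) := by
        refine Finset.sum_le_sum fun x hx => ?_
        rw [hT, Finset.mem_filter] at hx
        have h1 : |∑ i, |(x i : ℝ) + α i| ^ k - N| < a * η := hx.2
        rw [hw.one]
        rw [abs_div, abs_of_pos hη, div_le_iff₀ hη, abs_sub_comm]
        exact h1.le
    _ ≤ ∑ x ∈ boxZ n Y, w ((N - sz k n x α) / η) :=
        Finset.sum_le_sum_of_subset_of_nonneg (Finset.filter_subset _ _) fun x _ _ => hw.nonneg _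

lemma rr_le_Lat {k n Y : ℕ} (hk : 1 ≤ k) {α : Fin n → ℝ} (hα : ∀ i, α i ∈ Set.Icc (0 : ℝ) 1)
    {N a b η : ℝ} {w : ℝ → ℝ} (hη : 0 < η) (hw : Prof a b w) :
    rr (boxZ n Y) (sz k n) (fun u => w (u / η)) α N ≤ ((Lat k n α N (b * η)).ncard : ℝ) := by
  classical
  unfold rr
  set T := (boxZ n Y).filter fun x => x ∈ Lat k n α N (b * η) with hT
  have h1 : ∑ x ∈ boxZ n Y, w ((N - sz k n x α) / η) ≤ ∑ x ∈ T, w ((N - sz k n x α) / η) := by
    rw [hT, Finset.sum_filter]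
    refine Finset.sum_le_sum fun x _ => ?_
    by_cases hx : x ∈ Lat k n α N (b * η)
    · rw [if_pos hx]
    · rw [if_neg hx, hw.zero]
      rw [abs_div, abs_of_pos hη, le_div_iff₀ hη, abs_sub_comm]
      exact not_lt.1 hx
  refine h1.trans ?_
  calc ∑ x ∈ T, w ((N - sz k n x α) / η) ≤ ∑ _x ∈ T, (1 : ℝ) :=
        Finset.sum_le_sum fun x _ => hw.le_one _
    _ = T.card := by simp
    _ ≤ ((Lat k n α N (b * η)).ncard : ℝ) := by
        have h2 : (↑T : Set (Fin n → ℤ)) ⊆ Lat k n α N (b * η) := by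
          intro x hx
          rw [hT, Finset.coe_filter] at hx
          exact hx.2
        have h3 := Set.ncard_le_ncard h2 (finite_Lat hk hα N (b * η))
        rw [Set.ncard_coe_finset] at h3
        exact_mod_cast h3

end Pool.Agent.Q154.War
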