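import Pool.Agent.Q154.War.Planch

/-!
# The mean square of the fluctuation of the weighted number of representations
-/

set_option autoImplicit false
set_option linter.unusedSectionVars false

open MeasureTheory Set Finset FourierTransform
open scoped Real

namespace Pool.Agent.Q154.War

/-- Lebesgue measure on `[0,1]` -/
noncomputable def ν1 : Measure ℝ := volume.restrict (Set.Icc (0 : ℝ) 1)

instance : IsProbabilityMeasure ν1 := by
  constructor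
  unfold ν1
  simp

/-- Lebesgue measure on the cube -/
noncomputable def νn (n : ℕ) : Measure (Fin n → ℝ) := Measure.pi fun _ => ν1

instance (n : ℕ) : IsProbabilityMeasure (νn n) := by
  unfold νn
  infer_instance

/-- the sum of shifted powers -/
noncomputable def sx (k n : ℕ) (x : Fin n → ℕ) (α : Fin n → ℝ) : ℝ := ∑ i, ((x i : ℝ) + α i) ^ k

/-- the box -/
def box (n P : ℕ) : Finset (Fin n → ℕ) := Fintype.piFinset fun _ => Finset.Ico P (4 * P)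

lemma measurable_sx (k n : ℕ) (x : Fin n → ℕ) : Measurable (sx k n x) := by
  unfold sx
  fun_prop

lemma ee_sum {ι : Type*} (F : Finset ι) (f : ι → ℝ) : ee (∑ i ∈ F, f i) = ∏ i ∈ F, ee (f i) := by
  classical
  induction F using Finset.induction_on with
  | empty => simp [ee_zero]
  | insert a F ha ih => rw [Finset.sum_insert ha, Finset.prod_insert ha, ee_add, ih]

lemma TT_eq (k n P : ℕ) (θ : ℝ) (α : Fin n → ℝ) :
    TT (box n P) (sx k n) θ α = ∏ i, S k P (-θ) (α i) := by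
  unfold TT S box
  rw [Finset.prod_univ_sum]
  refine Finset.sum_congr rfl fun x _ => ?_
  rw [← ee_sum]
  congr 1
  unfold sx
  rw [Finset.sum_mul, ← Finset.sum_neg_distrib]
  refine Finset.sum_congr rfl fun i _ => ?_
  ring

lemma integral_ν1 {E : Type*} [NormedAddCommGroup E] [NormedSpace ℝ E] (f : ℝ → E) :
    ∫ t, f t ∂ν1 = ∫ t in (0 : ℝ)..1, f t := by
  unfold ν1
  rw [integral_Icc_eq_integral_Ioc, intervalIntegral.integral_of_le zero_le_one]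

lemma TB_eq (k n P : ℕ) (θ : ℝ) : TB (νn n) (box n P) (sx k n) θ = Im k P (-θ) ^ n := by
  unfold TB νn
  simp only [TT_eq]
  rw [integral_fintype_prod_eq_pow (fun t => S k P (-θ) t), integral_ν1, Fintype.card_fin]
  rfl

lemma TT_sq (k n P : ℕ) (θ : ℝ) :
    ∫ α, ‖TT (box n P) (sx k n) θ α‖ ^ 2 ∂(νn n) = Am k P (-θ) ^ n := by
  unfold νn
  simp only [TT_eq, norm_prod, ← Finset.prod_pow]
  rw [integral_fintype_prod_eq_pow (fun t => ‖S k P (-θ) t‖ ^ 2), integral_ν1, Fintype.card_fin]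
  rfl

/-- the constant -/
noncomputable def Dc (k n P : ℕ) : ℝ := n * ((2 * π * 4 ^ k) ^ 2 + 3) * (3 * Kc P) ^ n

lemma Dc_nonneg (k n : ℕ) {P : ℕ} (hP : 1 ≤ P) : 0 ≤ Dc k n P := by
  have := Kc_ge hP
  unfold Dc
  positivity

lemma integral_lorentz {X : ℝ} (hX : 0 < X) : ∫ θ : ℝ, (1 + (|θ| * X) ^ 2)⁻¹ = π / X := by
  have h1 : ∀ θ : ℝ, (1 + (|θ| * X) ^ 2)⁻¹ = (fun y : ℝ => (1 + y ^ 2)⁻¹) (X * θ) := by
    intro θ
    simp only
    rw [mul_pow, sq_abs, mul_pow, mul_comm]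
  simp only [h1]
  rw [Measure.integral_comp_mul_left (fun y : ℝ => (1 + y ^ 2)⁻¹) X, integral_univ_inv_one_add_sq,
    abs_of_pos (by positivity), smul_eq_mul]
  field_simp

lemma integrable_lorentz {X : ℝ} (hX : 0 < X) : Integrable fun θ : ℝ => (1 + (|θ| * X) ^ 2)⁻¹ := by
  by_contra h
  have h1 := integral_lorentz hX
  rw [integral_undef h] at h1
  have : 0 < π / X := by positivity
  linarith

/-- **Base estimate**: the mean square of the fluctuation. -/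
theorem base_var {k n P : ℕ} {w : ℝ → ℝ} (hk : 2 ≤ k) (hP : 1 ≤ P) (hn : 4 ≤ n) (hw : Wt w) :
    ∫ α, (∫ N, (rr (box n P) (sx k n) w α N - VV (νn n) (box n P) (sx k n) w N) ^ 2) ∂(νn n) ≤
      Dc k n P * (π * (∫ u, w u) ^ 2 * (P : ℝ) ^ (2 * n - 1) / (P : ℝ) ^ k +
        (∫ u, w u) * (P : ℝ) ^ n) := by
  have hP0 : (0 : ℝ) < P := by exact_mod_cast hP
  have hX : (0 : ℝ) < (P : ℝ) ^ k := by positivity
  rw [variance_identity hw (measurable_sx k n)]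
  simp only [TB_eq, TT_sq]
  set φ : ℝ → ℝ := fun θ => ‖𝓕 (fun u => (w u : ℂ)) θ‖ with hφ
  set W := ∫ u, w u with hW
  have hW0 : 0 ≤ W := integral_nonneg fun u => hw.nonneg u
  have hD := Dc_nonneg k n hP
  have hb : ∀ θ, φ θ ^ 2 * (Am k P (-θ) ^ n - ‖Im k P (-θ) ^ n‖ ^ 2) ≤
      (Dc k n P * (W ^ 2 * (P : ℝ) ^ (2 * n - 1))) * (1 + (|θ| * (P : ℝ) ^ k) ^ 2)⁻¹ +
        (Dc k n P * (P : ℝ) ^ n) * φ θ ^ 2 := by
    intro θ
    have h1 := var_bound (k := k) hk hP hn (-θ)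
    rw [abs_neg] at h1
    have h2 : ‖Im k P (-θ) ^ n‖ ^ 2 = (‖Im k P (-θ)‖ ^ 2) ^ n := by
      rw [norm_pow, ← pow_mul, ← pow_mul, mul_comm]
    rw [h2]
    have h3 : φ θ ^ 2 * (Am k P (-θ) ^ n - (‖Im k P (-θ)‖ ^ 2) ^ n) ≤
        φ θ ^ 2 * (Dc k n P * ((P : ℝ) ^ (2 * n - 1) * (1 + (|θ| * (P : ℝ) ^ k) ^ 2)⁻¹ +
          (P : ℝ) ^ n)) := mul_le_mul_of_nonneg_left h1 (by positivity)
    refine h3.trans ?_
    have h4 : φ θ ^ 2 ≤ W ^ 2 := pow_le_pow_left₀ (norm_nonneg _) (norm_four_le hw θ) 2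
    have h5 : 0 ≤ Dc k n P * ((P : ℝ) ^ (2 * n - 1) * (1 + (|θ| * (P : ℝ) ^ k) ^ 2)⁻¹) := by
      positivity
    have h6 := mul_le_mul_of_nonneg_right h4 h5
    calc φ θ ^ 2 * (Dc k n P * ((P : ℝ) ^ (2 * n - 1) * (1 + (|θ| * (P : ℝ) ^ k) ^ 2)⁻¹ +
          (P : ℝ) ^ n)) =
        φ θ ^ 2 * (Dc k n P * ((P : ℝ) ^ (2 * n - 1) * (1 + (|θ| * (P : ℝ) ^ k) ^ 2)⁻¹)) +
          (Dc k n P * (P : ℝ) ^ n) * φ θ ^ 2 := by ring
      _ ≤ W ^ 2 * (Dc k n P * ((P : ℝ) ^ (2 * n - 1) * (1 + (|θ| * (P : ℝ) ^ k) ^ 2)⁻¹)) +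
          (Dc k n P * (P : ℝ) ^ n) * φ θ ^ 2 := by linarith
      _ = _ := by ring
  have hnn : ∀ θ, 0 ≤ φ θ ^ 2 * (Am k P (-θ) ^ n - ‖Im k P (-θ) ^ n‖ ^ 2) := by
    intro θ
    have h2 : ‖Im k P (-θ) ^ n‖ ^ 2 = (‖Im k P (-θ)‖ ^ 2) ^ n := by
      rw [norm_pow, ← pow_mul, ← pow_mul, mul_comm]
    rw [h2]
    have h3 : (‖Im k P (-θ)‖ ^ 2) ^ n ≤ Am k P (-θ) ^ n :=
      pow_le_pow_left₀ (by positivity) (norm_Im_sq_le_Am k P (-θ)) n
    have : 0 ≤ Am k P (-θ) ^ n - (‖Im k P (-θ)‖ ^ 2) ^ n := by linarith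
    positivity
  have hi1 := (integrable_lorentz hX).const_mul (Dc k n P * (W ^ 2 * (P : ℝ) ^ (2 * n - 1)))
  have hi2 : Integrable fun θ => (Dc k n P * (P : ℝ) ^ n) * φ θ ^ 2 :=
    (integrable_four_sq hw).const_mul _
  have h7 : ∫ θ, φ θ ^ 2 * (Am k P (-θ) ^ n - ‖Im k P (-θ) ^ n‖ ^ 2) ≤
      ∫ θ, ((Dc k n P * (W ^ 2 * (P : ℝ) ^ (2 * n - 1))) * (1 + (|θ| * (P : ℝ) ^ k) ^ 2)⁻¹ +
        (Dc k n P * (P : ℝ) ^ n) * φ θ ^ 2) :=
    integral_mono_of_nonneg (Filter.Eventually.of_forall hnn) (hi1.add hi2)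
      (Filter.Eventually.of_forall hb)
  refine h7.trans ?_
  rw [integral_add hi1 hi2, integral_const_mul, integral_const_mul, integral_lorentz hX]
  have h8 : ∫ θ, φ θ ^ 2 ≤ W := integral_four_sq hw
  have h9 : (Dc k n P * (P : ℝ) ^ n) * ∫ θ, φ θ ^ 2 ≤ (Dc k n P * (P : ℝ) ^ n) * W :=
    mul_le_mul_of_nonneg_left h8 (by positivity)
  refine (add_le_add le_rfl h9).trans_eq ?_
  ring

end Pool.Agent.Q154.War
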