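import Pool.Agent.Q154.War.Count

/-!
# Almost all numbers are represented with `k + 1` variables
-/

set_option autoImplicit false
set_option linter.unusedSectionVars false

open MeasureTheory Set Finset FourierTransform
open scoped Real ENNReal

namespace Pool.Agent.Q154.War

lemma two_mul_succ_le {k : ℕ} (hk : 3 ≤ k) : 2 * (k + 1) ≤ 2 ^ k := by
  induction k, hk using Nat.le_induction with
  | base => norm_num
  | succ k hk ih =>
    rw [pow_succ]
    omega

/-- the constant of the lower bound -/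
noncomputable def c1 (k : ℕ) : ℝ := 1 / ((4 * k) ^ k * (2 * k * 4 ^ (k - 1)))

lemma c1_pos {k : ℕ} (hk : 1 ≤ k) : 0 < c1 k := by
  have hk0 : (0 : ℝ) < k := by exact_mod_cast hk
  unfold c1
  positivity

lemma Kc_two (i : ℕ) : Kc (2 ^ i) ≤ 24 * (1 + i) := by
  unfold Kc
  push_cast
  rw [Real.log_mul (by norm_num) (by positivity), Real.log_pow]
  have h1 : Real.log 3 ≤ 2 := by
    have := Real.log_le_sub_one_of_pos (by norm_num : (0 : ℝ) < 3)
    linarith
  have h2 : Real.log 2 ≤ 1 := by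
    have := Real.log_le_sub_one_of_pos (by norm_num : (0 : ℝ) < 2)
    linarith
  have h3 : (i : ℝ) * Real.log 2 ≤ i := mul_le_of_le_one_right (Nat.cast_nonneg i) h2
  have h4 : (0 : ℝ) ≤ i := Nat.cast_nonneg i
  linarith

/-- the main estimate of the base case -/
lemma base_main {k i : ℕ} (hk : 3 ≤ k) (hi : 2 * k ≤ 2 ^ i) {η : ℝ} (hη : 0 < η) (hη1 : η ≤ 1) :
    ∫⁻ α, volume (bad k (k + 1) η (c1 k / 2) i α) ∂(νn (k + 1)) ≤
      ENNReal.ofReal (Dc k (k + 1) (2 ^ i) * (4 * π + 2) * ((2 : ℝ) ^ i) ^ (k - 1) /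
        ((c1 k / 2) ^ 2 * η)) := by
  obtain ⟨w, hw⟩ := exists_bump hη
  have hk1 : 1 ≤ k := by omega
  have hk0 : (0 : ℝ) < k := by exact_mod_cast hk1
  set P : ℕ := 2 ^ i with hP
  have hPr : ((P : ℕ) : ℝ) = (2 : ℝ) ^ i := by rw [hP]; push_cast; rfl
  have hP1 : 1 ≤ P := Nat.one_le_two_pow
  have hP0 : (0 : ℝ) < P := by exact_mod_cast hP1
  have hc := c1_pos hk1
  set c := c1 k / 2 with hcdef
  have hc0 : 0 < c := by positivity
  set Z : (Fin (k + 1) → ℝ) → ℝ := fun α =>
    ∫ N, (rr (box (k + 1) P) (sx k (k + 1)) w α N -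
      VV (νn (k + 1)) (box (k + 1) P) (sx k (k + 1)) w N) ^ 2 with hZ
  set W := ∫ u, w u with hW
  have hW0 : 0 ≤ W := integral_nonneg fun u => hw.nonneg u
  have hW2 : W ≤ 2 * η := hw.integral_le hη
  have hE : ∫ α, Z α ∂(νn (k + 1)) ≤
      Dc k (k + 1) P * ((4 * π + 2) * η * (P : ℝ) ^ (k + 1)) := by
    have h1 := base_var (k := k) (n := k + 1) (P := P) (by omega) hP1 (by omega) hw.toWt
    refine h1.trans ?_
    refine mul_le_mul_of_nonneg_left ?_ (Dc_nonneg k (k + 1) hP1)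
    have e1 : (P : ℝ) ^ (2 * (k + 1) - 1) = (P : ℝ) ^ (k + 1) * (P : ℝ) ^ k := by
      rw [← pow_add]
      congr 1
      omega
    have e2 : π * W ^ 2 * (P : ℝ) ^ (2 * (k + 1) - 1) / (P : ℝ) ^ k =
        π * W ^ 2 * (P : ℝ) ^ (k + 1) := by
      rw [e1]
      field_simp
    rw [e2]
    have e3 : W ^ 2 ≤ 4 * η := by
      calc W ^ 2 ≤ (2 * η) ^ 2 := pow_le_pow_left₀ hW0 hW2 2
        _ = 4 * η * η := by ring
        _ ≤ 4 * η := mul_le_of_le_one_right (by positivity) hη1
    have hpk : 0 < (P : ℝ) ^ (k + 1) := by positivity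
    have hpi := Real.pi_pos
    calc π * W ^ 2 * (P : ℝ) ^ (k + 1) + W * (P : ℝ) ^ (k + 1) ≤
        π * (4 * η) * (P : ℝ) ^ (k + 1) + (2 * η) * (P : ℝ) ^ (k + 1) := by
          refine add_le_add ?_ ?_
          · exact mul_le_mul_of_nonneg_right (mul_le_mul_of_nonneg_left e3 hpi.le) hpk.le
          · exact mul_le_mul_of_nonneg_right hW2 hpk.le
      _ = (4 * π + 2) * η * (P : ℝ) ^ (k + 1) := by ring
  have hpt : ∀ α, ENNReal.ofReal ((c * η * P) ^ 2) * volume (bad k (k + 1) η c i α) ≤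
      ENNReal.ofReal (Z α) := by
    intro α
    have h1 : ENNReal.ofReal (Z α) = ∫⁻ N, ENNReal.ofReal
        ((rr (box (k + 1) P) (sx k (k + 1)) w α N -
          VV (νn (k + 1)) (box (k + 1) P) (sx k (k + 1)) w N) ^ 2) := by
      rw [hZ]
      exact ofReal_integral_eq_lintegral_ofReal
        (integrable_sq_fluct hw.toWt (measurable_sx k (k + 1)) α)
        (Filter.Eventually.of_forall fun N => sq_nonneg _)
    rw [h1]
    have hmeas : Measurable fun N => ENNReal.ofReal
        ((rr (box (k + 1) P) (sx k (k + 1)) w α N -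
          VV (νn (k + 1)) (box (k + 1) P) (sx k (k + 1)) w N) ^ 2) := by
      have hcont : Continuous fun N => (rr (box (k + 1) P) (sx k (k + 1)) w α N -
          VV (νn (k + 1)) (box (k + 1) P) (sx k (k + 1)) w N) ^ 2 :=
        ((continuous_rr hw.toWt α).sub (continuous_VV hw.toWt (measurable_sx k (k + 1)))).pow 2
      exact hcont.measurable.ennreal_ofReal
    refine le_trans ?_ (mul_meas_ge_le_lintegral hmeas (ENNReal.ofReal ((c * η * P) ^ 2)))
    refine mul_le_mul_right (measure_mono ?_) _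
    intro N hN
    obtain ⟨hNW, hNc⟩ := hN
    have h2 := rr_le_cnt (k := k) (n := k + 1) (P := P) hP1 hw α N
    have h3 : rr (box (k + 1) P) (sx k (k + 1)) w α N < c * η * P := by
      have h4 := h2.trans_lt hNc
      unfold thr at h4
      have e : k + 1 - k = 1 := by omega
      rw [e, pow_one, ← hPr] at h4
      exact (ENNReal.ofReal_lt_ofReal_iff_of_nonneg (rr_nonneg hw.toWt α N)).1 h4
    have h5 : 2 * (c * η * P) ≤ VV (νn (k + 1)) (box (k + 1) P) (sx k (k + 1)) w N := by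
      unfold Wi at hNW
      rw [← hPr] at hNW
      have h6 := VV_lower (k := k) (m := k) (P := P) (N := N) hk1 hi hη hη1 hw hNW.1 ?_
      · refine le_trans (le_of_eq ?_) h6
        rw [hcdef]
        unfold c1
        rw [div_pow, mul_pow 4 (P : ℝ) (k - 1)]
        have e : (P : ℝ) ^ k = P * (P : ℝ) ^ (k - 1) := by
          rw [← pow_succ']
          congr 1
          omega
        rw [e]
        field_simp
      · refine hNW.2.le.trans ?_
        have e1 : (2 : ℝ) ^ (i + 1) = 2 * P := by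
          rw [hPr, pow_succ]
          ring
        rw [e1]
        have e2 : (2 * ((k : ℝ) + 1)) ≤ 2 ^ k := by
          have := two_mul_succ_le hk
          exact_mod_cast this
        calc 2 * ((k : ℝ) + 1) * (2 * (P : ℝ)) ^ k ≤ 2 ^ k * (2 * (P : ℝ)) ^ k :=
              mul_le_mul_of_nonneg_right e2 (by positivity)
          _ = (4 * (P : ℝ)) ^ k := by
              rw [← mul_pow]
              congr 1
              ring
    show ENNReal.ofReal ((c * η * P) ^ 2) ≤ ENNReal.ofReal _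
    refine ENNReal.ofReal_le_ofReal ?_
    have h7 : 0 ≤ c * η * P := by positivity
    nlinarith
  have h8 : ENNReal.ofReal ((c * η * P) ^ 2) *
      ∫⁻ α, volume (bad k (k + 1) η c i α) ∂(νn (k + 1)) ≤
      ENNReal.ofReal (Dc k (k + 1) P * ((4 * π + 2) * η * (P : ℝ) ^ (k + 1))) := by
    rw [← lintegral_const_mul _ (measurable_vol_bad k (k + 1) η c i)]
    refine (lintegral_mono hpt).trans ?_
    rw [← ofReal_integral_eq_lintegral_ofReal
      (integrable_fluct hw.toWt (measurable_sx k (k + 1)))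
      (Filter.Eventually.of_forall fun α => integral_nonneg fun N => sq_nonneg _)]
    exact ENNReal.ofReal_le_ofReal hE
  have h9 : 0 < (c * η * P) ^ 2 := by positivity
  have h10 : ∫⁻ α, volume (bad k (k + 1) η c i α) ∂(νn (k + 1)) ≤
      ENNReal.ofReal (Dc k (k + 1) P * ((4 * π + 2) * η * (P : ℝ) ^ (k + 1))) /
        ENNReal.ofReal ((c * η * P) ^ 2) := by
    rw [ENNReal.le_div_iff_mul_le (Or.inl (ENNReal.ofReal_pos.2 h9).ne') (Or.inl ENNReal.ofReal_ne_top),
      mul_comm]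
    exact h8
  rw [← ENNReal.ofReal_div_of_pos h9] at h10
  refine h10.trans (ENNReal.ofReal_le_ofReal (le_of_eq ?_))
  rw [← hPr]
  have e : (P : ℝ) ^ (k + 1) = (P : ℝ) ^ (k - 1) * (P : ℝ) ^ 2 := by
    rw [← pow_add]
    congr 1
    omega
  rw [e]
  field_simp

/-- **Base case.** -/
theorem base_Pr {k : ℕ} (hk : 3 ≤ k) {ρ q : ℝ} (hρ : 0 < ρ) (hρ1 : ρ ≤ 1)
    (hq : 2 ^ (k - 1) / ρ < q) : Pr k (k + 1) ρ q := by
  intro η ⟨a, ha, hη⟩ hη1
  have hk1 : 1 ≤ k := by omega
  have hk0 : (0 : ℝ) < k := by exact_mod_cast hk1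
  have hc := c1_pos hk1
  have hq0 : 0 < q := lt_trans (by positivity) hq
  set r : ℝ := 2 ^ (k - 1) / ρ with hr
  have hr1 : 1 ≤ r := by
    rw [hr, le_div_iff₀ hρ, one_mul]
    exact hρ1.trans (one_le_pow₀ (by norm_num))
  have hpi := Real.pi_pos
  set C' : ℝ := ((k + 1 : ℕ) : ℝ) * ((2 * π * 4 ^ k) ^ 2 + 3) * 72 ^ (k + 1) * (4 * π + 2) /
    ((c1 k / 2) ^ 2 * a) + 2 * ((k : ℝ) + 1) * (4 * k) ^ k with hC'
  refine ⟨c1 k / 2, by positivity, ?_⟩
  refine ae_bound (f := fun i α => volume (bad k (k + 1) (η i) (c1 k / 2) i α))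
    (fun i => measurable_vol_bad k (k + 1) (η i) (c1 k / 2) i)
    (b := fun i => C' * ((1 + (i : ℝ)) ^ (k + 1) * r ^ i)) hq0 (fun i => by positivity) ?_ ?_
  · intro i
    have hηi : 0 < η i := lt_of_lt_of_le (by positivity) (hη i)
    have hfac : 1 ≤ (1 + (i : ℝ)) ^ (k + 1) * r ^ i := by
      have h1 : (1 : ℝ) ≤ (1 + (i : ℝ)) ^ (k + 1) :=
        one_le_pow₀ (by linarith [Nat.cast_nonneg (α := ℝ) i])
      have h2 : (1 : ℝ) ≤ r ^ i := one_le_pow₀ hr1
      nlinarith
    rcases le_or_gt (2 * k) (2 ^ i) with hi | hi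
    · refine (base_main hk hi hηi (hη1 i)).trans (ENNReal.ofReal_le_ofReal ?_)
      have h1 : Dc k (k + 1) (2 ^ i) ≤
          ((k + 1 : ℕ) : ℝ) * ((2 * π * 4 ^ k) ^ 2 + 3) * (72 ^ (k + 1) * (1 + (i : ℝ)) ^ (k + 1)) := by
        unfold Dc
        refine mul_le_mul_of_nonneg_left ?_ (by positivity)
        rw [← mul_pow]
        have := Kc_two i
        have h18 := Kc_ge (P := 2 ^ i) Nat.one_le_two_pow
        refine pow_le_pow_left₀ (by linarith) ?_ _
        linarith
      have h2 : ((2 : ℝ) ^ i) ^ (k - 1) = r ^ i * ρ ^ i := by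
        rw [← mul_pow, hr, div_mul_cancel₀ _ hρ.ne', ← pow_mul, ← pow_mul, mul_comm]
      rw [h2]
      have hρi : 0 < ρ ^ i := by positivity
      calc Dc k (k + 1) (2 ^ i) * (4 * π + 2) * (r ^ i * ρ ^ i) / ((c1 k / 2) ^ 2 * η i) ≤
          Dc k (k + 1) (2 ^ i) * (4 * π + 2) * (r ^ i * ρ ^ i) / ((c1 k / 2) ^ 2 * (a * ρ ^ i)) := by
            have hD := Dc_nonneg k (k + 1) (P := 2 ^ i) Nat.one_le_two_pow
            refine div_le_div_of_nonneg_left (by positivity) (by positivity) ?_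
            exact mul_le_mul_of_nonneg_left (hη i) (by positivity)
        _ = Dc k (k + 1) (2 ^ i) * ((4 * π + 2) * r ^ i / ((c1 k / 2) ^ 2 * a)) := by
            field_simp
        _ ≤ (((k + 1 : ℕ) : ℝ) * ((2 * π * 4 ^ k) ^ 2 + 3) *
            (72 ^ (k + 1) * (1 + (i : ℝ)) ^ (k + 1))) * ((4 * π + 2) * r ^ i / ((c1 k / 2) ^ 2 * a)) :=
            mul_le_mul_of_nonneg_right h1 (by positivity)
        _ = (((k + 1 : ℕ) : ℝ) * ((2 * π * 4 ^ k) ^ 2 + 3) * 72 ^ (k + 1) * (4 * π + 2) /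
            ((c1 k / 2) ^ 2 * a)) * ((1 + (i : ℝ)) ^ (k + 1) * r ^ i) := by
            field_simp
        _ ≤ C' * ((1 + (i : ℝ)) ^ (k + 1) * r ^ i) := by
            refine mul_le_mul_of_nonneg_right ?_ (by positivity)
            rw [hC']
            have : 0 ≤ 2 * ((k : ℝ) + 1) * (4 * k) ^ k := by positivity
            linarith
    · have h1 : ∀ α, volume (bad k (k + 1) (η i) (c1 k / 2) i α) ≤
          ENNReal.ofReal (2 * ((k : ℝ) + 1) * (4 * k) ^ k) := by
        intro α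
        have h2 : bad k (k + 1) (η i) (c1 k / 2) i α ⊆ Wi k i := fun N hN => hN.1
        refine (measure_mono h2).trans ?_
        unfold Wi
        rw [Real.volume_Ico]
        refine ENNReal.ofReal_le_ofReal ?_
        have h3 : (2 : ℝ) ^ (i + 1) ≤ 4 * k := by
          have h4 : (2 : ℝ) ^ i < 2 * k := by exact_mod_cast hi
          rw [pow_succ]
          linarith
        have h5 : ((2 : ℝ) ^ (i + 1)) ^ k ≤ (4 * (k : ℝ)) ^ k :=
          pow_le_pow_left₀ (by positivity) h3 k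
        have h6 : 0 ≤ 2 * ((k : ℝ) + 1) * ((2 : ℝ) ^ i) ^ k := by positivity
        have h7 : 2 * ((k : ℝ) + 1) * ((2 : ℝ) ^ (i + 1)) ^ k ≤ 2 * ((k : ℝ) + 1) * (4 * (k : ℝ)) ^ k :=
          mul_le_mul_of_nonneg_left h5 (by positivity)
        linarith
      refine (lintegral_mono h1).trans ?_
      rw [lintegral_const, measure_univ, mul_one]
      refine ENNReal.ofReal_le_ofReal ?_
      calc 2 * ((k : ℝ) + 1) * (4 * (k : ℝ)) ^ k ≤ C' := by
            rw [hC']
            have : 0 ≤ ((k + 1 : ℕ) : ℝ) * ((2 * π * 4 ^ k) ^ 2 + 3) * 72 ^ (k + 1) * (4 * π + 2) /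
              ((c1 k / 2) ^ 2 * a) := by positivity
            linarith
        _ ≤ C' * ((1 + (i : ℝ)) ^ (k + 1) * r ^ i) := le_mul_of_one_le_right (by positivity) hfac
  · have hrq : r / q < 1 := (div_lt_one hq0).2 hq
    have h1 := summable_pow_mul_geometric_of_norm_lt_one (R := ℝ) (k + 1)
      (r := r / q) (by rw [Real.norm_eq_abs, abs_of_pos (by positivity)]; exact hrq)
    have h2 := ((summable_nat_add_iff 1).2 h1).mul_left (C' * (r / q)⁻¹)
    refine h2.congr fun i => ?_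
    push_cast
    rw [pow_succ (r / q) i, div_pow]
    field_simp
    ring

end Pool.Agent.Q154.War
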