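import Pool.Agent.Q154.War.Mean

/-!
# Pointwise bounds for the variance of the product
-/

set_option autoImplicit false

open MeasureTheory Set Finset
open scoped Real

namespace Pool.Agent.Q154.War

lemma Am_nonneg (k P : ℕ) (θ : ℝ) : 0 ≤ Am k P θ := by
  unfold Am
  exact intervalIntegral.integral_nonneg zero_le_one fun t _ => by positivity

lemma norm_Im_sq_le_Am (k P : ℕ) (θ : ℝ) : ‖Im k P θ‖ ^ 2 ≤ Am k P θ := by
  have h := Am_sub k P θ
  have h2 : 0 ≤ ∫ t in (0 : ℝ)..1, ‖S k P θ t - Im k P θ‖ ^ 2 :=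
    intervalIntegral.integral_nonneg zero_le_one fun t _ => by positivity
  linarith

lemma Am_le_sq (k P : ℕ) (θ : ℝ) : Am k P θ ≤ 9 * (P : ℝ) ^ 2 := by
  unfold Am
  have h1 : ∫ t in (0 : ℝ)..1, ‖S k P θ t‖ ^ 2 ≤ ∫ _t in (0 : ℝ)..1, 9 * (P : ℝ) ^ 2 := by
    refine intervalIntegral.integral_mono_on zero_le_one ?_ ?_ ?_
    · exact ((continuous_S_right k P θ).norm.pow 2).intervalIntegrable _ _
    · exact continuous_const.intervalIntegrable _ _
    · intro t _
      have h := norm_S_le k P θ t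
      have h0 : 0 ≤ ‖S k P θ t‖ := norm_nonneg _
      calc ‖S k P θ t‖ ^ 2 ≤ (3 * (P : ℝ)) ^ 2 := pow_le_pow_left₀ h0 h 2
        _ = 9 * (P : ℝ) ^ 2 := by ring
  simpa using h1

lemma Am_sub_le (k P : ℕ) (θ : ℝ) :
    Am k P θ - ‖Im k P θ‖ ^ 2 ≤ (2 * π * 4 ^ k) ^ 2 * (|θ| * (P : ℝ) ^ k) ^ 2 := by
  rw [Am_sub]
  have h1 : ∫ t in (0 : ℝ)..1, ‖S k P θ t - Im k P θ‖ ^ 2 ≤
      ∫ _t in (0 : ℝ)..1, (2 * π * |θ| * (4 * P) ^ k) ^ 2 := by
    refine intervalIntegral.integral_mono_on zero_le_one ?_ ?_ ?_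
    · exact (((continuous_S_right k P θ).sub continuous_const).norm.pow 2).intervalIntegrable _ _
    · exact continuous_const.intervalIntegrable _ _
    · intro t ht
      exact pow_le_pow_left₀ (norm_nonneg _) (norm_S_sub_Im θ ht) 2
  refine h1.trans_eq ?_
  simp only [intervalIntegral.integral_const, sub_zero, one_smul]
  rw [mul_pow 4 (P : ℝ) k]
  ring

/-- the constant with the logarithm -/
noncomputable def Kc (P : ℕ) : ℝ := 18 + 2 * (1 + Real.log (3 * P))

lemma Kc_ge {P : ℕ} (hP : 1 ≤ P) : 18 ≤ Kc P := by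
  unfold Kc
  have hP' : (1 : ℝ) ≤ P := by exact_mod_cast hP
  have := Real.log_nonneg (by linarith : (1 : ℝ) ≤ 3 * P)
  linarith

lemma Am_le {k P : ℕ} (hk : 2 ≤ k) (hP : 1 ≤ P) (θ : ℝ) :
    Am k P θ ≤ Kc P * (P + (P : ℝ) ^ 2 / (1 + |θ| * (P : ℝ) ^ k)) := by
  have hP' : (1 : ℝ) ≤ P := by exact_mod_cast hP
  have hP0 : (0 : ℝ) < P := by linarith
  have hlog := Real.log_nonneg (by linarith : (1 : ℝ) ≤ 3 * P)
  set u := |θ| * (P : ℝ) ^ k with hu
  have hu0 : 0 ≤ u := by positivity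
  rcases le_or_gt u 1 with h | h
  · have h1 := Am_le_sq k P θ
    have h2 : 9 * (P : ℝ) ^ 2 ≤ 18 * ((P : ℝ) ^ 2 / (1 + u)) := by
      rw [mul_div_assoc', le_div_iff₀ (by linarith)]
      nlinarith [sq_nonneg (P : ℝ)]
    have h3 : 18 * ((P : ℝ) ^ 2 / (1 + u)) ≤ Kc P * ((P : ℝ) ^ 2 / (1 + u)) :=
      mul_le_mul_of_nonneg_right (Kc_ge hP) (by positivity)
    have h4 : 0 ≤ Kc P * (P : ℝ) := by
      have := Kc_ge hP
      positivity
    rw [mul_add]
    linarith
  · have hθ : θ ≠ 0 := by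
      rintro rfl
      simp at hu
      linarith
    have h1 := mean_sq hk hP hθ
    have hθ' : 0 < |θ| := abs_pos.2 hθ
    have h2 : (1 + Real.log (3 * P)) / (|θ| * (P : ℝ) ^ (k - 2)) =
        (1 + Real.log (3 * P)) * ((P : ℝ) ^ 2 / u) := by
      have e : (P : ℝ) ^ k = (P : ℝ) ^ (k - 2) * (P : ℝ) ^ 2 := by
        rw [← pow_add]
        congr 1
        omega
      rw [hu, e]
      field_simp
    have h3 : (P : ℝ) ^ 2 / u ≤ 2 * ((P : ℝ) ^ 2 / (1 + u)) := by
      rw [mul_div_assoc', div_le_div_iff₀ (by linarith) (by linarith)]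
      nlinarith [sq_nonneg (P : ℝ), mul_nonneg (sq_nonneg (P : ℝ)) (by linarith : 0 ≤ u - 1)]
    have h4 : (1 + Real.log (3 * P)) * ((P : ℝ) ^ 2 / u) ≤
        (1 + Real.log (3 * P)) * (2 * ((P : ℝ) ^ 2 / (1 + u))) :=
      mul_le_mul_of_nonneg_left h3 (by linarith)
    have h5 : 3 * (P : ℝ) ≤ Kc P * P := by
      have := Kc_ge hP
      nlinarith
    have h6 : (1 + Real.log (3 * P)) * (2 * ((P : ℝ) ^ 2 / (1 + u))) ≤
        Kc P * ((P : ℝ) ^ 2 / (1 + u)) := by
      unfold Kc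
      have : 0 ≤ (P : ℝ) ^ 2 / (1 + u) := by positivity
      nlinarith
    rw [mul_add]
    unfold Am
    linarith [h1, h2, h4, h5, h6]

lemma pow_sub_pow_le' {A B : ℝ} (hB : 0 ≤ B) (hAB : B ≤ A) (n : ℕ) :
    A ^ n - B ^ n ≤ n * (A - B) * A ^ (n - 1) := by
  induction n with
  | zero => simp
  | succ n ih =>
    rcases Nat.eq_zero_or_pos n with hn | hn
    · subst hn
      simp
    · obtain ⟨l, rfl⟩ : ∃ l, n = l + 1 := ⟨n - 1, by omega⟩
      simp only [Nat.add_sub_cancel] at ih ⊢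
      have hA : 0 ≤ A := hB.trans hAB
      have h1 : B ^ (l + 1) ≤ A ^ (l + 1) := pow_le_pow_left₀ hB hAB _
      have h2 : A ^ (l + 1 + 1) - B ^ (l + 1 + 1) =
          A * (A ^ (l + 1) - B ^ (l + 1)) + (A - B) * B ^ (l + 1) := by ring
      rw [h2]
      have h3 : A * (A ^ (l + 1) - B ^ (l + 1)) ≤ A * (((l + 1 : ℕ) : ℝ) * (A - B) * A ^ l) :=
        mul_le_mul_of_nonneg_left ih hA
      have h4 : (A - B) * B ^ (l + 1) ≤ (A - B) * A ^ (l + 1) :=
        mul_le_mul_of_nonneg_left h1 (by linarith)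
      refine (add_le_add h3 h4).trans_eq ?_
      push_cast
      ring

/-- the numerical inequality -/
lemma num_bound {A B u P K C : ℝ} {n : ℕ} (hB : 0 ≤ B) (hAB : B ≤ A) (hu : 0 ≤ u) (hP : 1 ≤ P)
    (hK : 1 ≤ K) (hC : 0 ≤ C) (hn : 4 ≤ n) (h1 : A ≤ K * (P + P ^ 2 / (1 + u)))
    (h2 : A - B ≤ C * u ^ 2) :
    A ^ n - B ^ n ≤ n * (C + 3) * (3 * K) ^ n * (P ^ (2 * n - 1) * (1 + u ^ 2)⁻¹ + P ^ n) := by
  have hA : 0 ≤ A := hB.trans hAB
  have hn1 : (1 : ℝ) ≤ n := by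
    have : 1 ≤ n := by omega
    exact_mod_cast this
  have hu1 : 0 < 1 + u := by linarith
  have hP0 : 0 < P := by linarith
  have hK0 : 0 < K := by linarith
  have hpos1 : 0 ≤ P ^ (2 * n - 1) * (1 + u ^ 2)⁻¹ := by positivity
  rcases le_or_gt u P with h | h
  · -- main range
    have e1 : A ≤ 3 * K * P ^ 2 / (1 + u) := by
      refine h1.trans ?_
      have e2 : P ≤ 2 * (P ^ 2 / (1 + u)) := by
        rw [mul_div_assoc', le_div_iff₀ hu1]
        nlinarith
      calc K * (P + P ^ 2 / (1 + u)) ≤ K * (2 * (P ^ 2 / (1 + u)) + P ^ 2 / (1 + u)) :=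
            mul_le_mul_of_nonneg_left (by linarith) hK0.le
        _ = 3 * K * P ^ 2 / (1 + u) := by ring
    have e2 : A - B ≤ (C + 3) * K * P * (1 + u) := by
      rcases le_or_gt (u ^ 2) P with h' | h'
      · calc A - B ≤ C * u ^ 2 := h2
          _ ≤ C * P := mul_le_mul_of_nonneg_left h' hC
          _ ≤ (C + 3) * P := by nlinarith
          _ ≤ (C + 3) * P * (K * (1 + u)) := by
              refine le_mul_of_one_le_right (by positivity) ?_
              nlinarith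
          _ = (C + 3) * K * P * (1 + u) := by ring
      · calc A - B ≤ A := by linarith
          _ ≤ 3 * K * P ^ 2 / (1 + u) := e1
          _ ≤ 3 * K * P * (1 + u) := by
              rw [div_le_iff₀ hu1]
              have e3 : P ≤ (1 + u) * (1 + u) := by nlinarith
              have e4 : 0 ≤ 3 * K * P := by positivity
              calc 3 * K * P ^ 2 = 3 * K * P * P := by ring
                _ ≤ 3 * K * P * ((1 + u) * (1 + u)) := mul_le_mul_of_nonneg_left e3 e4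
                _ = 3 * K * P * (1 + u) * (1 + u) := by ring
          _ ≤ (C + 3) * K * P * (1 + u) := by
              have : 0 ≤ K * P * (1 + u) := by positivity
              nlinarith
    have e3 : A ^ (n - 1) ≤ (3 * K * P ^ 2 / (1 + u)) ^ (n - 1) := pow_le_pow_left₀ hA e1 _
    have hABn : 0 ≤ A - B := by linarith
    obtain ⟨l, rfl⟩ : ∃ l, n = l + 4 := ⟨n - 4, by omega⟩
    have hsub : l + 4 - 1 = l + 3 := by omega
    have hsub2 : 2 * (l + 4) - 1 = 2 * l + 7 := by omega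
    rw [hsub] at e3
    rw [hsub2]
    have e4 : (A - B) * A ^ (l + 3) ≤
        ((C + 3) * K * P * (1 + u)) * (3 * K * P ^ 2 / (1 + u)) ^ (l + 3) :=
      mul_le_mul e2 e3 (by positivity) (by positivity)
    have e5 : ((C + 3) * K * P * (1 + u)) * (3 * K * P ^ 2 / (1 + u)) ^ (l + 3) =
        (C + 3) * K * (3 * K) ^ (l + 3) * P ^ (2 * l + 7) * ((1 + u) ^ (l + 2))⁻¹ := by
      rw [div_pow, mul_pow (3 * K) (P ^ 2)]
      field_simp
      ring
    have e6 : ((1 + u) ^ (l + 2))⁻¹ ≤ (1 + u ^ 2)⁻¹ := by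
      apply inv_anti₀ (by positivity)
      calc 1 + u ^ 2 ≤ (1 + u) ^ 2 := by nlinarith
        _ ≤ (1 + u) ^ (l + 2) := pow_le_pow_right₀ (by linarith) (by omega)
    have e7 := pow_sub_pow_le' hB hAB (l + 4)
    rw [hsub] at e7
    calc A ^ (l + 4) - B ^ (l + 4) ≤ ((l + 4 : ℕ) : ℝ) * (A - B) * A ^ (l + 3) := e7
      _ = ((l + 4 : ℕ) : ℝ) * ((A - B) * A ^ (l + 3)) := by ring
      _ ≤ ((l + 4 : ℕ) : ℝ) * ((C + 3) * K * (3 * K) ^ (l + 3) * P ^ (2 * l + 7) *
            ((1 + u) ^ (l + 2))⁻¹) := by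
          rw [← e5]
          exact mul_le_mul_of_nonneg_left e4 (by positivity)
      _ ≤ ((l + 4 : ℕ) : ℝ) * ((C + 3) * (3 * K) * (3 * K) ^ (l + 3) * P ^ (2 * l + 7) *
            (1 + u ^ 2)⁻¹) := by
          refine mul_le_mul_of_nonneg_left ?_ (by positivity)
          refine mul_le_mul ?_ e6 (by positivity) (by positivity)
          refine mul_le_mul_of_nonneg_right ?_ (by positivity)
          refine mul_le_mul_of_nonneg_right ?_ (by positivity)
          refine mul_le_mul_of_nonneg_left ?_ (by positivity)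
          linarith
      _ = ((l + 4 : ℕ) : ℝ) * (C + 3) * (3 * K) ^ (l + 4) *
            (P ^ (2 * l + 7) * (1 + u ^ 2)⁻¹) := by ring
      _ ≤ _ := by
          refine mul_le_mul_of_nonneg_left ?_ (by positivity)
          have : 0 ≤ P ^ (l + 4) := by positivity
          linarith
  · have e1 : A ≤ 3 * K * P := by
      refine h1.trans ?_
      have e2 : P ^ 2 / (1 + u) ≤ P := by
        rw [div_le_iff₀ hu1]
        nlinarith
      nlinarith
    calc A ^ n - B ^ n ≤ A ^ n := by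
          have : 0 ≤ B ^ n := by positivity
          linarith
      _ ≤ (3 * K * P) ^ n := pow_le_pow_left₀ hA e1 _
      _ = (3 * K) ^ n * P ^ n := mul_pow _ _ _
      _ ≤ (3 * K) ^ n * (P ^ (2 * n - 1) * (1 + u ^ 2)⁻¹ + P ^ n) := by
          refine mul_le_mul_of_nonneg_left ?_ (by positivity)
          linarith
      _ ≤ n * (C + 3) * ((3 * K) ^ n * (P ^ (2 * n - 1) * (1 + u ^ 2)⁻¹ + P ^ n)) := by
          refine le_mul_of_one_le_left (by positivity) ?_
          nlinarith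
      _ = _ := by ring

/-- the bound for the variance of the product, at frequency `θ` -/
theorem var_bound {k P n : ℕ} (hk : 2 ≤ k) (hP : 1 ≤ P) (hn : 4 ≤ n) (θ : ℝ) :
    Am k P θ ^ n - (‖Im k P θ‖ ^ 2) ^ n ≤
      n * ((2 * π * 4 ^ k) ^ 2 + 3) * (3 * Kc P) ^ n *
        ((P : ℝ) ^ (2 * n - 1) * (1 + (|θ| * (P : ℝ) ^ k) ^ 2)⁻¹ + (P : ℝ) ^ n) := by
  refine num_bound (by positivity) (norm_Im_sq_le_Am k P θ) (by positivity)
    (by exact_mod_cast hP) ?_ (by positivity) hn (Am_le hk hP θ) (Am_sub_le k P θ)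
  have := Kc_ge hP
  linarith

end Pool.Agent.Q154.War
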