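import Pool.Agent.Q154.War.Low

/-!
# The number of representations and the sets of bad numbers
-/

set_option autoImplicit false
set_option linter.unusedSectionVars false

open MeasureTheory Set Finset FourierTransform
open scoped Real ENNReal

namespace Pool.Agent.Q154.War

open Classical in
/-- the number of representations, in `[0, ∞]` -/
noncomputable def cnt (k n : ℕ) (η : ℝ) (α : Fin n → ℝ) (N : ℝ) : ℝ≥0∞ :=
  ∑' x : Fin n → ℕ, if (∀ i, 0 < x i) ∧ |sx k n x α - N| < η then 1 else 0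

open Classical in
lemma measurable_cnt (k n : ℕ) (η : ℝ) :
    Measurable fun p : (Fin n → ℝ) × ℝ => cnt k n η p.1 p.2 := by
  unfold cnt
  refine Measurable.tsum fun x => ?_
  refine Measurable.ite ?_ measurable_const measurable_const
  have h1 : MeasurableSet {p : (Fin n → ℝ) × ℝ | |sx k n x p.1 - p.2| < η} := by
    refine measurableSet_lt ?_ measurable_const
    exact (((measurable_sx k n x).comp measurable_fst).sub measurable_snd).abs
  exact (MeasurableSet.const _).inter h1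

open Classical in
/-- recursion for the number of representations -/
lemma cnt_cons (k m : ℕ) (η : ℝ) (t : ℝ) (α : Fin m → ℝ) (N : ℝ) :
    cnt k (m + 1) η (Fin.cons t α) N =
      ∑' x0 : ℕ, if 0 < x0 then cnt k m η α (N - ((x0 : ℝ) + t) ^ k) else 0 := by
  unfold cnt
  rw [← (Fin.consEquiv fun _ : Fin (m + 1) => ℕ).tsum_eq, ENNReal.tsum_prod']
  refine tsum_congr fun x0 => ?_
  by_cases h0 : 0 < x0
  · rw [if_pos h0]
    refine tsum_congr fun x => ?_
    have e1 : (∀ i, 0 < (Fin.consEquiv fun _ : Fin (m + 1) => ℕ) (x0, x) i) ↔ ∀ i, 0 < x i := by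
      constructor
      · intro h i
        exact h i.succ
      · intro h i
        refine Fin.cases ?_ (fun j => ?_) i
        · exact h0
        · exact h j
    have e2 : sx k (m + 1) ((Fin.consEquiv fun _ : Fin (m + 1) => ℕ) (x0, x)) (Fin.cons t α) - N =
        sx k m x α - (N - ((x0 : ℝ) + t) ^ k) := by
      have := sx_cons k m x0 x t α
      have e3 : (Fin.consEquiv fun _ : Fin (m + 1) => ℕ) (x0, x) = Fin.cons x0 x := rfl
      rw [e3, this]
      ring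
    have e4 : ((∀ i, 0 < (Fin.consEquiv fun _ : Fin (m + 1) => ℕ) (x0, x) i) ∧
        |sx k (m + 1) ((Fin.consEquiv fun _ : Fin (m + 1) => ℕ) (x0, x)) (Fin.cons t α) - N| < η) ↔
        ((∀ i, 0 < x i) ∧ |sx k m x α - (N - ((x0 : ℝ) + t) ^ k)| < η) := by
      rw [e2]
      exact and_congr_left' e1
    exact if_congr e4 rfl rfl
  · rw [if_neg h0, ENNReal.tsum_eq_zero]
    intro x
    rw [if_neg]
    intro h
    exact h0 (h.1 0)

lemma sum_le_cnt {k m : ℕ} {η t : ℝ} {α : Fin m → ℝ} {N : ℝ} (F : Finset ℕ) (hF : ∀ x ∈ F, 0 < x) :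
    ∑ x ∈ F, cnt k m η α (N - ((x : ℝ) + t) ^ k) ≤ cnt k (m + 1) η (Fin.cons t α) N := by
  classical
  rw [cnt_cons]
  refine le_trans ?_ (ENNReal.sum_le_tsum F)
  refine Finset.sum_le_sum fun x hx => ?_
  rw [if_pos (hF x hx)]

lemma rr_le_cnt {k n P : ℕ} (hP : 1 ≤ P) {η : ℝ} {w : ℝ → ℝ} (hw : Bump η w) (α : Fin n → ℝ)
    (N : ℝ) : ENNReal.ofReal (rr (box n P) (sx k n) w α N) ≤ cnt k n η α N := by
  classical
  unfold rr cnt
  rw [ENNReal.ofReal_sum_of_nonneg fun x _ => hw.nonneg _]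
  refine le_trans ?_ (ENNReal.sum_le_tsum (box n P))
  refine Finset.sum_le_sum fun x hx => ?_
  unfold box at hx
  rw [Fintype.mem_piFinset] at hx
  by_cases h : |sx k n x α - N| < η
  · rw [if_pos]
    · rw [← ENNReal.ofReal_one]
      exact ENNReal.ofReal_le_ofReal (hw.le_one _)
    · refine ⟨fun i => ?_, h⟩
      have := hx i
      rw [Finset.mem_Ico] at this
      omega
  · rw [hw.zero]
    · simp
    · rw [abs_sub_comm]
      exact not_lt.1 h

/-- the threshold -/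
noncomputable def thr (k n : ℕ) (c η : ℝ) (i : ℕ) : ℝ≥0∞ :=
  ENNReal.ofReal (c * η * ((2 : ℝ) ^ i) ^ (n - k))

/-- the dyadic windows -/
def Wi (k i : ℕ) : Set ℝ :=
  Set.Ico (2 * ((k : ℝ) + 1) * ((2 : ℝ) ^ i) ^ k) (2 * ((k : ℝ) + 1) * ((2 : ℝ) ^ (i + 1)) ^ k)

/-- the bad numbers -/
def bad (k n : ℕ) (η c : ℝ) (i : ℕ) (α : Fin n → ℝ) : Set ℝ :=
  {N | N ∈ Wi k i ∧ cnt k n η α N < thr k n c η i}

lemma measurableSet_Wi (k i : ℕ) : MeasurableSet (Wi k i) := measurableSet_Ico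

lemma measurableSet_bad2 (k n : ℕ) (η c : ℝ) (i : ℕ) :
    MeasurableSet {p : (Fin n → ℝ) × ℝ | p.2 ∈ bad k n η c i p.1} := by
  have h1 : MeasurableSet {p : (Fin n → ℝ) × ℝ | p.2 ∈ Wi k i} :=
    measurable_snd (measurableSet_Wi k i)
  have h2 : MeasurableSet {p : (Fin n → ℝ) × ℝ | cnt k n η p.1 p.2 < thr k n c η i} :=
    measurableSet_lt (measurable_cnt k n η) measurable_const
  exact h1.inter h2

lemma measurableSet_bad (k n : ℕ) (η c : ℝ) (i : ℕ) (α : Fin n → ℝ) :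
    MeasurableSet (bad k n η c i α) := by
  have h := measurableSet_bad2 k n η c i
  have h2 : Measurable fun N : ℝ => (α, N) := by fun_prop
  exact h2 h

lemma measurable_vol_bad (k n : ℕ) (η c : ℝ) (i : ℕ) :
    Measurable fun α : Fin n → ℝ => volume (bad k n η c i α) :=
  measurable_measure_prodMk_left (measurableSet_bad2 k n η c i)

/-- the almost sure bound for the bad sets -/
def Pr (k n : ℕ) (ρ q : ℝ) : Prop :=
  ∀ η : ℕ → ℝ, (∃ a, 0 < a ∧ ∀ i, a * ρ ^ i ≤ η i) → (∀ i, η i ≤ 1) →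
    ∃ c, 0 < c ∧ ∀ᵐ α ∂(νn n), ∃ C : ℕ, ∀ i, volume (bad k n (η i) c i α) ≤
      C * ENNReal.ofReal (q ^ i)

lemma measurableSet_event (k n : ℕ) (η : ℕ → ℝ) (c q : ℝ) :
    MeasurableSet {α : Fin n → ℝ | ∃ C : ℕ, ∀ i, volume (bad k n (η i) c i α) ≤
      C * ENNReal.ofReal (q ^ i)} := by
  rw [Set.ofPred_exists]
  refine MeasurableSet.iUnion fun C => ?_
  rw [Set.ofPred_forall]
  refine MeasurableSet.iInter fun i => ?_
  exact measurableSet_le (measurable_vol_bad k n (η i) c i) measurable_const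

/-- Borel–Cantelli with geometric weights -/
lemma ae_bound {Ω : Type*} [MeasurableSpace Ω] {μ : Measure Ω} {f : ℕ → Ω → ℝ≥0∞}
    (hf : ∀ i, Measurable (f i)) {b : ℕ → ℝ} {q : ℝ} (hq : 0 < q) (hb0 : ∀ i, 0 ≤ b i)
    (hb : ∀ i, ∫⁻ ω, f i ω ∂μ ≤ ENNReal.ofReal (b i)) (hs : Summable fun i => b i / q ^ i) :
    ∀ᵐ ω ∂μ, ∃ C : ℕ, ∀ i, f i ω ≤ C * ENNReal.ofReal (q ^ i) := by
  have h1 : ∫⁻ ω, ∑' i, f i ω * ENNReal.ofReal ((q ^ i)⁻¹) ∂μ ≠ ∞ := by
    rw [lintegral_tsum fun i => ((hf i).mul_const _).aemeasurable]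
    have h2 : ∀ i, ∫⁻ ω, f i ω * ENNReal.ofReal ((q ^ i)⁻¹) ∂μ ≤ ENNReal.ofReal (b i / q ^ i) := by
      intro i
      rw [lintegral_mul_const _ (hf i), div_eq_mul_inv, ENNReal.ofReal_mul (hb0 i)]
      exact mul_le_mul_left (hb i) _
    refine ne_top_of_le_ne_top ?_ (ENNReal.tsum_le_tsum h2)
    exact hs.tsum_ofReal_ne_top
  have h3 : Measurable fun ω => ∑' i, f i ω * ENNReal.ofReal ((q ^ i)⁻¹) :=
    Measurable.tsum fun i => (hf i).mul_const _
  filter_upwards [ae_lt_top h3 h1] with ω hω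
  obtain ⟨C, hC⟩ := ENNReal.exists_nat_gt hω.ne
  refine ⟨C, fun i => ?_⟩
  have h4 : f i ω * ENNReal.ofReal ((q ^ i)⁻¹) ≤ C :=
    (ENNReal.le_tsum i).trans hC.le
  have h5 : ENNReal.ofReal ((q ^ i)⁻¹) * ENNReal.ofReal (q ^ i) = 1 := by
    rw [← ENNReal.ofReal_mul (by positivity), inv_mul_cancel₀ (by positivity), ENNReal.ofReal_one]
  calc f i ω = f i ω * ENNReal.ofReal ((q ^ i)⁻¹) * ENNReal.ofReal (q ^ i) := by
        rw [mul_assoc, h5, mul_one]
    _ ≤ C * ENNReal.ofReal (q ^ i) := mul_le_mul_left h4 _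

end Pool.Agent.Q154.War
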