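import Pool.Agent.Q154.War.DiscDil

/-!
# From almost all integers to all large integers
-/

set_option autoImplicit false
set_option linter.unusedSectionVars false

open MeasureTheory Set Finset
open scoped Real ENNReal

namespace Pool.Agent.Q154.War

lemma Few.mono {A : Set ℕ} {q q' : ℝ} (hq : 0 ≤ q) (hqq : q ≤ q') (h : Few A q) : Few A q' := by
  obtain ⟨C, hC⟩ := h
  refine ⟨C, fun i => (hC i).trans ?_⟩
  exact mul_le_mul_right (ENNReal.ofReal_le_ofReal (pow_le_pow_left₀ hq hqq i)) _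

lemma Few.real {A : Set ℕ} {q : ℝ} (hq : 0 ≤ q) (h : Few A q) :
    ∃ C : ℕ, ∀ i, ((exc A i).card : ℝ) ≤ C * q ^ i := by
  obtain ⟨C, hC⟩ := h
  refine ⟨C, fun i => ?_⟩
  have h1 := hC i
  rw [← ENNReal.ofReal_natCast, ← ENNReal.ofReal_natCast C, ← ENNReal.ofReal_mul (by positivity),
    ENNReal.ofReal_le_ofReal_iff (by positivity)] at h1
  exact h1

lemma exists_win {N : ℕ} (hN : 1 ≤ N) : 2 ^ (Nat.log 2 N) ≤ N ∧ N < 2 ^ (Nat.log 2 N + 1) :=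
  ⟨Nat.pow_log_le_self 2 (by omega), Nat.lt_pow_succ_log_self (by norm_num) N⟩

/-- fewer than one exception -/
lemma Few.all {A : Set ℕ} {q : ℝ} (hq : 0 < q) (hq1 : q < 1) (h : Few A q) :
    ∃ N₀ : ℕ, ∀ N ≥ N₀, N ∈ A := by
  obtain ⟨C, hC⟩ := h.real hq.le
  have hlim := (tendsto_pow_atTop_nhds_zero_of_lt_one hq.le hq1).const_mul (C : ℝ)
  rw [mul_zero] at hlim
  obtain ⟨i₀, hi₀⟩ := (hlim.eventually (gt_mem_nhds (zero_lt_one (α := ℝ)))).exists_forall_of_atTop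
  refine ⟨2 ^ i₀, fun N hN => ?_⟩
  by_contra hcon
  have hN1 : 1 ≤ N := Nat.one_le_two_pow.trans hN
  obtain ⟨h1, h2⟩ := exists_win hN1
  set i := Nat.log 2 N with hi
  have hmem : N ∈ exc A i := mem_exc.2 ⟨⟨h1, h2⟩, hcon⟩
  have hcard : 1 ≤ (exc A i).card := Finset.card_pos.2 ⟨N, hmem⟩
  have hii : i₀ ≤ i := by
    by_contra hlt
    have h3 : 2 ^ (i + 1) ≤ 2 ^ i₀ := Nat.pow_le_pow_right (by norm_num) (by omega)
    omega
  have h3 := hi₀ i hii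
  have h4 := hC i
  have h5 : (1 : ℝ) ≤ (exc A i).card := by exact_mod_cast hcard
  linarith

/-- counting the exceptions -/
lemma Few.count {A : Set ℕ} {e : ℝ} (he : 0 < e) (h : Few A ((2 : ℝ) ^ e)) :
    ∃ C : ℝ, ∀ X : ℕ, 1 ≤ X → ({n : ℕ | n ≤ X ∧ n ∉ A}.ncard : ℝ) ≤ C * (X : ℝ) ^ e := by
  classical
  have h2e : 1 < (2 : ℝ) ^ e := Real.one_lt_rpow (by norm_num) he
  obtain ⟨C, hC⟩ := h.real (by linarith)
  refine ⟨1 + C * (2 ^ e / (2 ^ e - 1)), fun X hX => ?_⟩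
  obtain ⟨h1, h2⟩ := exists_win hX
  set L := Nat.log 2 X with hL
  have hsub : {n : ℕ | n ≤ X ∧ n ∉ A} ⊆
      (((Finset.range (L + 1)).biUnion (exc A) ∪ {0} : Finset ℕ) : Set ℕ) := by
    rintro n ⟨hn, hnA⟩
    rw [Finset.mem_coe, Finset.mem_union, Finset.mem_biUnion]
    rcases Nat.eq_zero_or_pos n with h0 | h0
    · right
      rw [h0]
      simp
    · left
      obtain ⟨h3, h4⟩ := exists_win h0
      refine ⟨Nat.log 2 n, ?_, mem_exc.2 ⟨⟨h3, h4⟩, hnA⟩⟩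
      rw [Finset.mem_range, hL]
      have := Nat.log_mono_right (b := 2) hn
      omega
  have h3 : {n : ℕ | n ≤ X ∧ n ∉ A}.ncard ≤
      ((Finset.range (L + 1)).biUnion (exc A) ∪ {0} : Finset ℕ).card := by
    rw [← Set.ncard_coe_finset]
    exact Set.ncard_le_ncard hsub (Finset.finite_toSet _)
  have h4 : ((Finset.range (L + 1)).biUnion (exc A) ∪ {0} : Finset ℕ).card ≤
      (∑ i ∈ Finset.range (L + 1), (exc A i).card) + 1 := by
    refine (Finset.card_union_le _ _).trans ?_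
    rw [Finset.card_singleton]
    have := Finset.card_biUnion_le (s := Finset.range (L + 1)) (t := exc A)
    omega
  have h5 : ({n : ℕ | n ≤ X ∧ n ∉ A}.ncard : ℝ) ≤
      (∑ i ∈ Finset.range (L + 1), ((exc A i).card : ℝ)) + 1 := by
    exact_mod_cast h3.trans h4
  have h6 : ∑ i ∈ Finset.range (L + 1), ((exc A i).card : ℝ) ≤
      ∑ i ∈ Finset.range (L + 1), C * ((2 : ℝ) ^ e) ^ i :=
    Finset.sum_le_sum fun i _ => hC i
  rw [← Finset.mul_sum, geom_sum_eq h2e.ne'] at h6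
  have hX1 : (1 : ℝ) ≤ X := by exact_mod_cast hX
  have hXe : 1 ≤ (X : ℝ) ^ e := Real.one_le_rpow hX1 he.le
  have h7 : ((2 : ℝ) ^ e) ^ (L + 1) ≤ 2 ^ e * (X : ℝ) ^ e := by
    rw [pow_succ', ← Real.rpow_mul_natCast (by norm_num), mul_comm e, Real.rpow_natCast_mul
      (by norm_num)]
    refine mul_le_mul_of_nonneg_left ?_ (by positivity)
    refine Real.rpow_le_rpow (by positivity) ?_ he.le
    exact_mod_cast h1
  have h8 : C * ((((2 : ℝ) ^ e) ^ (L + 1) - 1) / ((2 : ℝ) ^ e - 1)) ≤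
      C * (2 ^ e / (2 ^ e - 1)) * (X : ℝ) ^ e := by
    rw [mul_assoc]
    refine mul_le_mul_of_nonneg_left ?_ (Nat.cast_nonneg C)
    rw [div_mul_eq_mul_div]
    refine div_le_div_of_nonneg_right ?_ (by linarith)
    linarith
  nlinarith

/-- from counting to windows -/
lemma few_of_count {A : Set ℕ} {e C : ℝ}
    (h : ∀ X : ℕ, 1 ≤ X → ({n : ℕ | n ≤ X ∧ n ∉ A}.ncard : ℝ) ≤ C * (X : ℝ) ^ e) :
    Few A ((2 : ℝ) ^ e) := by
  have h2e : 0 < (2 : ℝ) ^ e := Real.rpow_pos_of_pos (by norm_num) _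
  have hC0 : 0 ≤ C := by
    have h1 := h 1 le_rfl
    rw [Nat.cast_one, Real.one_rpow, mul_one] at h1
    exact (Nat.cast_nonneg _).trans h1
  refine ⟨⌈C * 2 ^ e⌉₊, fun i => ?_⟩
  have h1 := h (2 ^ (i + 1)) Nat.one_le_two_pow
  have h2 : (exc A i).card ≤ {n : ℕ | n ≤ 2 ^ (i + 1) ∧ n ∉ A}.ncard := by
    rw [← Set.ncard_coe_finset]
    refine Set.ncard_le_ncard ?_ ?_
    · intro n hn
      rw [Finset.mem_coe, mem_exc] at hn
      exact ⟨hn.1.2.le, hn.2⟩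
    · exact (Set.finite_Iic (2 ^ (i + 1))).subset fun n hn => hn.1
  have h3 : ((exc A i).card : ℝ) ≤ ⌈C * 2 ^ e⌉₊ * ((2 : ℝ) ^ e) ^ i := by
    have h4 : ((exc A i).card : ℝ) ≤ ({n : ℕ | n ≤ 2 ^ (i + 1) ∧ n ∉ A}.ncard : ℝ) := by
      exact_mod_cast h2
    refine h4.trans (h1.trans ?_)
    push_cast
    rw [← Real.rpow_natCast_mul (by norm_num), mul_comm (((i + 1 : ℕ) : ℝ)) e,
      Real.rpow_mul_natCast (by norm_num), pow_succ', ← mul_assoc]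
    exact mul_le_mul_of_nonneg_right (Nat.le_ceil _) (by positivity)
  rw [← ENNReal.ofReal_natCast, ← ENNReal.ofReal_natCast ⌈C * 2 ^ e⌉₊,
    ← ENNReal.ofReal_mul (by positivity)]
  exact ENNReal.ofReal_le_ofReal h3

/-- all positive parameters -/
lemma ae_pos {J : ℕ} {Q : (Fin J → ℝ) → Prop}
    (h : ∀ l u : ℝ, 0 < l → l ≤ u →
      ∀ᵐ β ∂(Measure.pi fun _ : Fin J => volume.restrict (Set.Icc l u)), Q β) :
    ∀ᵐ β : Fin J → ℝ, (∀ i, 0 < β i) → Q β := by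
  have h1 : ∀ m : ℕ, ∀ᵐ β : Fin J → ℝ,
      β ∈ (Set.pi univ fun _ => Set.Icc (1 / ((m : ℝ) + 1)) ((m : ℝ) + 1)) → Q β := by
    intro m
    have h2 := h (1 / ((m : ℝ) + 1)) ((m : ℝ) + 1) (by positivity) (by
      rw [div_le_iff₀ (by positivity)]
      have : (0 : ℝ) ≤ m := Nat.cast_nonneg m
      nlinarith)
    rw [← Measure.restrict_pi_pi, ← volume_pi] at h2
    exact (ae_restrict_iff' (MeasurableSet.univ_pi fun _ => measurableSet_Icc)).1 h2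
  filter_upwards [ae_all_iff.2 h1] with β hβ hpos
  obtain ⟨m, hm⟩ : ∃ m : ℕ, ∀ i, 1 / ((m : ℝ) + 1) ≤ β i ∧ β i ≤ (m : ℝ) + 1 := by
    have h3 : ∀ i, ∃ m : ℕ, 1 / ((m : ℝ) + 1) ≤ β i ∧ β i ≤ (m : ℝ) + 1 := by
      intro i
      obtain ⟨m₁, hm₁⟩ := exists_nat_one_div_lt (hpos i)
      obtain ⟨m₂, hm₂⟩ := exists_nat_ge (β i)
      refine ⟨max m₁ m₂, ?_, ?_⟩
      · refine le_trans ?_ hm₁.le
        refine one_div_le_one_div_of_le (by positivity) ?_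
        have : (m₁ : ℝ) ≤ ((max m₁ m₂ : ℕ) : ℝ) := by exact_mod_cast le_max_left m₁ m₂
        linarith
      · have : (m₂ : ℝ) ≤ ((max m₁ m₂ : ℕ) : ℝ) := by exact_mod_cast le_max_right m₁ m₂
        linarith
    choose f hf using h3
    refine ⟨Finset.univ.sup f, fun i => ?_⟩
    have h4 : (f i : ℝ) ≤ ((Finset.univ.sup f : ℕ) : ℝ) := by
      exact_mod_cast Finset.le_sup (f := f) (Finset.mem_univ i)
    refine ⟨?_, ?_⟩
    · refine le_trans ?_ (hf i).1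
      refine one_div_le_one_div_of_le (by positivity) ?_
      linarith
    · have := (hf i).2
      linarith
  exact hβ m fun i _ => hm i

/-- **From almost all to all.** -/
theorem almost_to_all {A : Set ℕ} {δ : ℝ} (hA : Few A ((2 : ℝ) ^ (1 - δ))) {J : ℕ}
    (B : Fin J → Set ℕ) (hB : ∀ i, Slow (B i)) :
    ∀ᵐ β : Fin J → ℝ, (∀ i, 0 < β i) →
      (1 < 2 ^ J * δ → ∃ N₀ : ℕ, ∀ N ≥ N₀, N ∈ SS A B β) ∧
      ∀ ε : ℝ, 0 < ε → ∃ C : ℝ, ∀ X : ℕ, 1 ≤ X →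
        ({n : ℕ | n ≤ X ∧ n ∉ SS A B β}.ncard : ℝ) ≤
          C * (X : ℝ) ^ (max 0 (1 - 2 ^ J * δ) + ε) := by
  have hq₀ : 0 < (2 : ℝ) ^ (1 - δ) := Real.rpow_pos_of_pos (by norm_num) _
  have hexp : 2 * ((2 : ℝ) ^ (1 - δ) / 2) ^ (2 ^ J) = (2 : ℝ) ^ (1 - 2 ^ J * δ) := by
    have e1 : (2 : ℝ) ^ (1 - δ) / 2 = (2 : ℝ) ^ (-δ) := by
      rw [sub_eq_add_neg, Real.rpow_add (by norm_num), Real.rpow_one]
      field_simp
    rw [e1, ← Real.rpow_mul_natCast (by norm_num), sub_eq_add_neg (1 : ℝ),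
      Real.rpow_add (by norm_num), Real.rpow_one]
    congr 2
    push_cast
    ring
  refine ae_pos (J := J) fun l u hl hlu => ?_
  have hjoint := joint hq₀ hA hl hlu J B hB
  rw [hexp] at hjoint
  have hall : ∀ᵐ β ∂(Measure.pi fun _ : Fin J => volume.restrict (Set.Icc l u)),
      1 < 2 ^ J * δ → ∃ N₀ : ℕ, ∀ N ≥ N₀, N ∈ SS A B β := by
    by_cases hJ : 1 < 2 ^ J * δ
    · have h1 : (2 : ℝ) ^ (1 - 2 ^ J * δ) < 1 :=
        Real.rpow_lt_one_of_one_lt_of_neg (by norm_num) (by linarith)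
      obtain ⟨q, hq1, hq2⟩ := exists_between h1
      have hq0 : 0 < q := lt_trans (Real.rpow_pos_of_pos (by norm_num) _) hq1
      filter_upwards [hjoint q hq1] with β hβ _
      exact hβ.all hq0 hq2
    · exact Filter.Eventually.of_forall fun β h => absurd h hJ
  have hcount : ∀ m : ℕ, ∀ᵐ β ∂(Measure.pi fun _ : Fin J => volume.restrict (Set.Icc l u)),
      ∃ C : ℝ, ∀ X : ℕ, 1 ≤ X → ({n : ℕ | n ≤ X ∧ n ∉ SS A B β}.ncard : ℝ) ≤
          C * (X : ℝ) ^ (max 0 (1 - 2 ^ J * δ) + 1 / ((m : ℝ) + 1)) := by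
    intro m
    have hm : 0 < 1 / ((m : ℝ) + 1) := by positivity
    have h1 : (2 : ℝ) ^ (1 - 2 ^ J * δ) <
        (2 : ℝ) ^ (max 0 (1 - 2 ^ J * δ) + 1 / ((m : ℝ) + 1)) := by
      refine Real.rpow_lt_rpow_of_exponent_lt (by norm_num) ?_
      have := le_max_right 0 (1 - 2 ^ J * δ)
      linarith
    filter_upwards [hjoint _ h1] with β hβ
    refine hβ.count ?_
    have := le_max_left 0 (1 - 2 ^ J * δ)
    linarith
  filter_upwards [hall, ae_all_iff.2 hcount] with β h1 h2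
  refine ⟨h1, fun ε hε => ?_⟩
  obtain ⟨m, hm⟩ := exists_nat_one_div_lt hε
  obtain ⟨C, hC⟩ := h2 m
  refine ⟨|C|, fun X hX => (hC X hX).trans ?_⟩
  have hX1 : (1 : ℝ) ≤ X := by exact_mod_cast hX
  have h3 : (X : ℝ) ^ (max 0 (1 - 2 ^ J * δ) + 1 / ((m : ℝ) + 1)) ≤
      (X : ℝ) ^ (max 0 (1 - 2 ^ J * δ) + ε) :=
    Real.rpow_le_rpow_of_exponent_le hX1 (by linarith)
  exact mul_le_mul (le_abs_self C) h3 (by positivity) (abs_nonneg C)

end Pool.Agent.Q154.War
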