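import Pool.Agent.Q154.War.MixBase

/-!
# A thin set of integers plus a few shifted powers: almost all numbers
-/

set_option autoImplicit false
set_option linter.unusedSectionVars false

open MeasureTheory Set Finset FourierTransform
open scoped Real ENNReal

namespace Pool.Agent.Q154.War

/-- representable up to `η` -/
def Good (𝒜 : Set ℕ) (k n : ℕ) (η : ℝ) (α : Fin n → ℝ) (N : ℝ) : Prop :=
  ∃ a ∈ 𝒜, ∃ x : Fin n → ℕ, (∀ i, 0 < x i) ∧ |(a : ℝ) + sx k n x α - N| < η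

/-- the bad numbers of the `i`-th window -/
def bd (𝒜 : Set ℕ) (k n : ℕ) (η : ℝ) (i : ℕ) (α : Fin n → ℝ) : Set ℝ :=
  {N | N ∈ Wi k i ∧ ¬ Good 𝒜 k n η α N}

lemma measurableSet_good2 (𝒜 : Set ℕ) (k n : ℕ) (η : ℝ) :
    MeasurableSet {p : (Fin n → ℝ) × ℝ | Good 𝒜 k n η p.1 p.2} := by
  have e : {p : (Fin n → ℝ) × ℝ | Good 𝒜 k n η p.1 p.2} =
      ⋃ (a : ℕ) (x : Fin n → ℕ), {p : (Fin n → ℝ) × ℝ | (a ∈ 𝒜 ∧ ∀ i, 0 < x i) ∧
        |(a : ℝ) + sx k n x p.1 - p.2| < η} := by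
    ext p
    simp only [Set.mem_iUnion]
    constructor
    · rintro ⟨a, ha, x, hx, h⟩
      exact ⟨a, x, ⟨ha, hx⟩, h⟩
    · rintro ⟨a, x, ⟨ha, hx⟩, h⟩
      exact ⟨a, ha, x, hx, h⟩
  rw [e]
  refine MeasurableSet.iUnion fun a => MeasurableSet.iUnion fun x => ?_
  have h1 : MeasurableSet {p : (Fin n → ℝ) × ℝ | |(a : ℝ) + sx k n x p.1 - p.2| < η} := by
    refine measurableSet_lt ?_ measurable_const
    exact ((((measurable_sx k n x).comp measurable_fst).const_add _).sub measurable_snd).abs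
  exact (MeasurableSet.const _).inter h1

lemma measurableSet_bd2 (𝒜 : Set ℕ) (k n : ℕ) (η : ℝ) (i : ℕ) :
    MeasurableSet {p : (Fin n → ℝ) × ℝ | p.2 ∈ bd 𝒜 k n η i p.1} := by
  have h1 : MeasurableSet {p : (Fin n → ℝ) × ℝ | p.2 ∈ Wi k i} :=
    measurable_snd (measurableSet_Wi k i)
  exact h1.inter (measurableSet_good2 𝒜 k n η).compl

lemma measurableSet_bd (𝒜 : Set ℕ) (k n : ℕ) (η : ℝ) (i : ℕ) (α : Fin n → ℝ) :
    MeasurableSet (bd 𝒜 k n η i α) := by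
  have h := measurableSet_bd2 𝒜 k n η i
  have h2 : Measurable fun N : ℝ => (α, N) := by fun_prop
  exact h2 h

lemma measurable_vol_bd (𝒜 : Set ℕ) (k n : ℕ) (η : ℝ) (i : ℕ) :
    Measurable fun α : Fin n → ℝ => volume (bd 𝒜 k n η i α) :=
  measurable_measure_prodMk_left (measurableSet_bd2 𝒜 k n η i)

/-- the almost sure bound for the bad sets -/
def PrM (𝒜 : Set ℕ) (k n : ℕ) (ρ q : ℝ) : Prop :=
  ∀ η : ℕ → ℝ, (∃ a, 0 < a ∧ ∀ i, a * ρ ^ i ≤ η i) → (∀ i, η i ≤ 1 / 2) →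
    ∀ᵐ α ∂(νn n), ∃ C : ℕ, ∀ i, volume (bd 𝒜 k n (η i) i α) ≤ C * ENNReal.ofReal (q ^ i)

lemma measurableSet_eventM (𝒜 : Set ℕ) (k n : ℕ) (η : ℕ → ℝ) (q : ℝ) :
    MeasurableSet {α : Fin n → ℝ | ∃ C : ℕ, ∀ i, volume (bd 𝒜 k n (η i) i α) ≤
      C * ENNReal.ofReal (q ^ i)} := by
  rw [Set.ofPred_exists]
  refine MeasurableSet.iUnion fun C => ?_
  rw [Set.ofPred_forall]
  refine MeasurableSet.iInter fun i => ?_
  exact measurableSet_le (measurable_vol_bd 𝒜 k n (η i) i) measurable_const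

lemma vol_bd_le (𝒜 : Set ℕ) (k n : ℕ) (η : ℝ) (i : ℕ) (α : Fin n → ℝ) :
    volume (bd 𝒜 k n η i α) ≤ ENNReal.ofReal (2 * ((k : ℝ) + 1) * ((2 : ℝ) ^ (i + 1)) ^ k) := by
  have h2 : bd 𝒜 k n η i α ⊆ Wi k i := fun N hN => hN.1
  refine (measure_mono h2).trans ?_
  unfold Wi
  rw [Real.volume_Ico]
  refine ENNReal.ofReal_le_ofReal ?_
  have h6 : 0 ≤ 2 * ((k : ℝ) + 1) * ((2 : ℝ) ^ i) ^ k := by positivity
  linarith

/-- the constant of the lower bound -/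
noncomputable def c2 (k m : ℕ) : ℝ := 1 / ((4 * k) ^ (m - 1) * (2 * k * 4 ^ (k - 1)))

lemma c2_pos {k m : ℕ} (hk : 1 ≤ k) : 0 < c2 k m := by
  have hk0 : (0 : ℝ) < k := by exact_mod_cast hk
  unfold c2
  positivity

open Classical in
/-- the elements of the set up to `P^k` -/
noncomputable def cutA (𝒜 : Set ℕ) (k P : ℕ) : Finset ℕ :=
  (Finset.range (P ^ k + 1)).filter fun a => a ∈ 𝒜

lemma rr_eq_zero {𝒜 : Set ℕ} {k m P : ℕ} (hP : 1 ≤ P) {η N : ℝ} {w : ℝ → ℝ} (hw : Bump η w)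
    {α : Fin m → ℝ} (hN : ¬ Good 𝒜 k m η α N) :
    rr (cutA 𝒜 k P ×ˢ box m P) (sm k m) w α N = 0 := by
  classical
  unfold rr
  refine Finset.sum_eq_zero fun x hx => ?_
  refine hw.zero _ ?_
  by_contra hcon
  rw [not_le] at hcon
  apply hN
  rw [Finset.mem_product] at hx
  obtain ⟨hx1, hx2⟩ := hx
  unfold cutA at hx1
  rw [Finset.mem_filter] at hx1
  refine ⟨x.1, hx1.2, x.2, fun i => ?_, ?_⟩
  · unfold box at hx2
    rw [Fintype.mem_piFinset] at hx2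
    have := hx2 i
    rw [Finset.mem_Ico] at this
    omega
  · rw [abs_sub_comm]
    exact hcon

/-- lower bound for the main term -/
lemma VV_mix_lower {𝒜 : Set ℕ} {k m i : ℕ} (hk : 3 ≤ k) (hm1 : 1 ≤ m) (hmk : m ≤ k)
    (hi : 2 * k ≤ 2 ^ i) {η N : ℝ} (hη : 0 < η) (hη1 : η ≤ 1) {w : ℝ → ℝ} (hw : Bump η w)
    (hN : N ∈ Wi k i) :
    ((cutA 𝒜 k (2 ^ i)).card : ℝ) * (c2 k m * η / ((2 : ℝ) ^ i) ^ (k - m)) ≤
      VV (νn m) (cutA 𝒜 k (2 ^ i) ×ˢ box m (2 ^ i)) (sm k m) w N := by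
  classical
  have hk1 : 1 ≤ k := by omega
  have hk0 : (0 : ℝ) < k := by exact_mod_cast hk1
  set P : ℕ := 2 ^ i with hP
  have hPr : ((P : ℕ) : ℝ) = (2 : ℝ) ^ i := by rw [hP]; push_cast; rfl
  have hP1 : 1 ≤ P := Nat.one_le_two_pow
  have hP0 : (0 : ℝ) < P := by exact_mod_cast hP1
  rw [VV_mix _ _ _ _ hw.toWt, ← nsmul_eq_mul, ← Finset.sum_const]
  refine Finset.sum_le_sum fun a ha => ?_
  unfold cutA at ha
  rw [Finset.mem_filter, Finset.mem_range] at ha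
  have ha1 : a ≤ P ^ k := by omega
  have ha2 : (a : ℝ) ≤ (P : ℝ) ^ k := by exact_mod_cast ha1
  have ha0 : (0 : ℝ) ≤ a := Nat.cast_nonneg a
  obtain ⟨l, rfl⟩ : ∃ l, m = l + 1 := ⟨m - 1, by omega⟩
  unfold Wi at hN
  rw [← hPr] at hN ⊢
  have hlk : (l : ℝ) + 1 ≤ k := by exact_mod_cast hmk
  have hPk : 0 < (P : ℝ) ^ k := by positivity
  have h6 := VV_lower (k := k) (m := l) (P := P) (N := N - a) hk1 hi hη hη1 hw ?_ ?_
  · refine le_trans (le_of_eq ?_) h6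
    unfold c2
    rw [Nat.add_sub_cancel, div_pow, mul_pow 4 (P : ℝ) (k - 1)]
    have e : (P : ℝ) ^ (k - 1) = (P : ℝ) ^ l * (P : ℝ) ^ (k - (l + 1)) := by
      rw [← pow_add]
      congr 1
      omega
    rw [e]
    field_simp
  · have := hN.1
    nlinarith
  · have h7 : N - a ≤ N := by linarith
    refine h7.trans (hN.2.le.trans ?_)
    have e1 : (2 : ℝ) ^ (i + 1) = 2 * P := by
      rw [hPr, pow_succ]
      ring
    rw [e1]
    have e2 : (2 * ((k : ℝ) + 1)) ≤ 2 ^ k := by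
      have := two_mul_succ_le hk
      exact_mod_cast this
    calc 2 * ((k : ℝ) + 1) * (2 * (P : ℝ)) ^ k ≤ 2 ^ k * (2 * (P : ℝ)) ^ k :=
          mul_le_mul_of_nonneg_right e2 (by positivity)
      _ = (4 * (P : ℝ)) ^ k := by
          rw [← mul_pow]
          congr 1
          ring

/-- the mean measure of the bad set -/
lemma mix_main {𝒜 : Set ℕ} {k m i : ℕ} (hm : 4 ≤ m) (hmk : m ≤ k) (hi : 2 * k ≤ 2 ^ i) {c η : ℝ}
    (hc : 0 < c) (hη : 0 < η) (hη1 : η ≤ 1 / 2)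
    (hA : c * ((2 : ℝ) ^ i) ^ (k + 1 - m) ≤ (cutA 𝒜 k (2 ^ i)).card) :
    ∫⁻ α, volume (bd 𝒜 k m η i α) ∂(νn m) ≤
      ENNReal.ofReal (Dc k m (2 ^ i) * (4 * π + 2 / c) * ((2 : ℝ) ^ i) ^ (k - 1) /
        (c2 k m ^ 2 * η)) := by
  obtain ⟨w, hw⟩ := exists_bump hη
  have hk : 3 ≤ k := by omega
  have hk1 : 1 ≤ k := by omega
  have hk0 : (0 : ℝ) < k := by exact_mod_cast hk1
  set P : ℕ := 2 ^ i with hP
  have hPr : ((P : ℕ) : ℝ) = (2 : ℝ) ^ i := by rw [hP]; push_cast; rfl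
  have hP1 : 1 ≤ P := Nat.one_le_two_pow
  have hP0 : (0 : ℝ) < P := by exact_mod_cast hP1
  have hc2 := c2_pos (m := m) hk1
  rw [← hPr] at hA ⊢
  set A := cutA 𝒜 k P with hAdef
  set M : ℝ := ((A.card : ℕ) : ℝ) with hM
  have hM0 : 0 < M := lt_of_lt_of_le (by positivity) hA
  set Z : (Fin m → ℝ) → ℝ := fun α =>
    ∫ N, (rr (A ×ˢ box m P) (sm k m) w α N - VV (νn m) (A ×ˢ box m P) (sm k m) w N) ^ 2 with hZ
  set W := ∫ u, w u with hW
  have hW0 : 0 ≤ W := integral_nonneg fun u => hw.nonneg u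
  have hW2 : W ≤ 2 * η := hw.integral_le hη
  have hD := Dc_nonneg k m hP1
  have hpi := Real.pi_pos
  have hE : ∫ α, Z α ∂(νn m) ≤ Dc k m P * ((4 * π * η ^ 2 * M ^ 2 * (P : ℝ) ^ (2 * m - 1) /
      (P : ℝ) ^ k) + 2 * η * M * (P : ℝ) ^ m) := by
    refine (mix_var (by omega) hP1 hm hη1 hw).trans ?_
    refine mul_le_mul_of_nonneg_left ?_ hD
    refine add_le_add ?_ ?_
    · have h1 : W ^ 2 ≤ (2 * η) ^ 2 := pow_le_pow_left₀ hW0 hW2 2
      have h2 : π * W ^ 2 ≤ 4 * π * η ^ 2 := by nlinarith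
      have h3 : π * W ^ 2 * M ^ 2 * (P : ℝ) ^ (2 * m - 1) ≤
          4 * π * η ^ 2 * M ^ 2 * (P : ℝ) ^ (2 * m - 1) :=
        mul_le_mul_of_nonneg_right (mul_le_mul_of_nonneg_right h2 (by positivity)) (by positivity)
      exact div_le_div_of_nonneg_right h3 (by positivity)
    · refine mul_le_mul_of_nonneg_right ?_ (by positivity)
      exact mul_le_mul_of_nonneg_right hW2 hM0.le
  set v : ℝ := M * (c2 k m * η / (P : ℝ) ^ (k - m)) with hv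
  have hv0 : 0 < v := by positivity
  have hpt : ∀ α, ENNReal.ofReal (v ^ 2) * volume (bd 𝒜 k m η i α) ≤ ENNReal.ofReal (Z α) := by
    intro α
    have h1 : ENNReal.ofReal (Z α) = ∫⁻ N, ENNReal.ofReal
        ((rr (A ×ˢ box m P) (sm k m) w α N -
          VV (νn m) (A ×ˢ box m P) (sm k m) w N) ^ 2) := by
      rw [hZ]
      exact ofReal_integral_eq_lintegral_ofReal
        (integrable_sq_fluct hw.toWt (measurable_sm k m) α)
        (Filter.Eventually.of_forall fun N => sq_nonneg _)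
    rw [h1]
    have hmeas : Measurable fun N => ENNReal.ofReal
        ((rr (A ×ˢ box m P) (sm k m) w α N -
          VV (νn m) (A ×ˢ box m P) (sm k m) w N) ^ 2) := by
      have hcont : Continuous fun N => (rr (A ×ˢ box m P) (sm k m) w α N -
          VV (νn m) (A ×ˢ box m P) (sm k m) w N) ^ 2 :=
        ((continuous_rr hw.toWt α).sub (continuous_VV hw.toWt (measurable_sm k m))).pow 2
      exact hcont.measurable.ennreal_ofReal
    refine le_trans ?_ (mul_meas_ge_le_lintegral hmeas (ENNReal.ofReal (v ^ 2)))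
    refine mul_le_mul_right (measure_mono ?_) _
    intro N hN
    obtain ⟨hNW, hNc⟩ := hN
    have h2 := rr_eq_zero (P := P) hP1 hw hNc
    have h3 := VV_mix_lower (𝒜 := 𝒜) hk (by omega) hmk hi hη (by linarith) hw hNW
    rw [← hPr] at h3
    show ENNReal.ofReal (v ^ 2) ≤ ENNReal.ofReal _
    refine ENNReal.ofReal_le_ofReal ?_
    rw [h2, zero_sub, neg_sq]
    exact pow_le_pow_left₀ hv0.le h3 2
  have h8 : ENNReal.ofReal (v ^ 2) * ∫⁻ α, volume (bd 𝒜 k m η i α) ∂(νn m) ≤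
      ENNReal.ofReal (Dc k m P * ((4 * π * η ^ 2 * M ^ 2 * (P : ℝ) ^ (2 * m - 1) /
      (P : ℝ) ^ k) + 2 * η * M * (P : ℝ) ^ m)) := by
    rw [← lintegral_const_mul _ (measurable_vol_bd 𝒜 k m η i)]
    refine (lintegral_mono hpt).trans ?_
    rw [← ofReal_integral_eq_lintegral_ofReal
      (integrable_fluct hw.toWt (measurable_sm k m))
      (Filter.Eventually.of_forall fun α => integral_nonneg fun N => sq_nonneg _)]
    exact ENNReal.ofReal_le_ofReal hE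
  have h9 : 0 < v ^ 2 := by positivity
  have h10 : ∫⁻ α, volume (bd 𝒜 k m η i α) ∂(νn m) ≤
      ENNReal.ofReal (Dc k m P * ((4 * π * η ^ 2 * M ^ 2 * (P : ℝ) ^ (2 * m - 1) /
      (P : ℝ) ^ k) + 2 * η * M * (P : ℝ) ^ m)) / ENNReal.ofReal (v ^ 2) := by
    rw [ENNReal.le_div_iff_mul_le (Or.inl (ENNReal.ofReal_pos.2 h9).ne')
      (Or.inl ENNReal.ofReal_ne_top), mul_comm]
    exact h8
  rw [← ENNReal.ofReal_div_of_pos h9] at h10
  refine h10.trans (ENNReal.ofReal_le_ofReal ?_)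
  rw [div_le_div_iff₀ h9 (by positivity)]
  have e1 : (P : ℝ) ^ (2 * m - 1) / (P : ℝ) ^ k * ((P : ℝ) ^ (k - m)) ^ 2 = (P : ℝ) ^ (k - 1) := by
    rw [div_mul_eq_mul_div, div_eq_iff (by positivity), ← pow_mul, ← pow_add, ← pow_add]
    congr 1
    omega
  have e2 : (P : ℝ) ^ m * ((P : ℝ) ^ (k - m)) ^ 2 = (P : ℝ) ^ (k - 1) * (P : ℝ) ^ (k + 1 - m) := by
    rw [← pow_mul, ← pow_add, ← pow_add]
    congr 1
    omega
  have hvP : v * (P : ℝ) ^ (k - m) = M * c2 k m * η := by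
    rw [hv]
    field_simp
  have hPp : 0 < ((P : ℝ) ^ (k - m)) ^ 2 := by positivity
  -- multiply by `(P^(k-m))^2`
  refine le_of_mul_le_mul_right ?_ hPp
  have l1 : Dc k m P * ((4 * π * η ^ 2 * M ^ 2 * (P : ℝ) ^ (2 * m - 1) / (P : ℝ) ^ k) +
      2 * η * M * (P : ℝ) ^ m) * (c2 k m ^ 2 * η) * ((P : ℝ) ^ (k - m)) ^ 2 =
      Dc k m P * c2 k m ^ 2 * η * (4 * π * η ^ 2 * M ^ 2 * (P : ℝ) ^ (k - 1) +
        2 * η * M * ((P : ℝ) ^ (k - 1) * (P : ℝ) ^ (k + 1 - m))) := by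
    rw [← e2, ← e1]
    ring
  have l2 : Dc k m P * (4 * π + 2 / c) * (P : ℝ) ^ (k - 1) * v ^ 2 * ((P : ℝ) ^ (k - m)) ^ 2 =
      Dc k m P * (4 * π + 2 / c) * (P : ℝ) ^ (k - 1) * (M * c2 k m * η) ^ 2 := by
    rw [← hvP]
    ring
  rw [l1, l2]
  have l3 : 2 * η * M * ((P : ℝ) ^ (k - 1) * (P : ℝ) ^ (k + 1 - m)) ≤
      2 / c * η * M ^ 2 * (P : ℝ) ^ (k - 1) := by
    have h11 : (P : ℝ) ^ (k + 1 - m) ≤ M / c := by
      rw [le_div_iff₀ hc]
      linarith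
    calc 2 * η * M * ((P : ℝ) ^ (k - 1) * (P : ℝ) ^ (k + 1 - m)) ≤
        2 * η * M * ((P : ℝ) ^ (k - 1) * (M / c)) := by
          refine mul_le_mul_of_nonneg_left ?_ (by positivity)
          exact mul_le_mul_of_nonneg_left h11 (by positivity)
      _ = 2 / c * η * M ^ 2 * (P : ℝ) ^ (k - 1) := by ring
  have l4 : 4 * π * η ^ 2 * M ^ 2 * (P : ℝ) ^ (k - 1) ≤ 4 * π * η * M ^ 2 * (P : ℝ) ^ (k - 1) := by
    have h12 : η ^ 2 ≤ η := by nlinarith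
    have h13 : 0 ≤ 4 * π * (M ^ 2 * (P : ℝ) ^ (k - 1)) := by positivity
    nlinarith [mul_le_mul_of_nonneg_left h12 h13]
  calc Dc k m P * c2 k m ^ 2 * η * (4 * π * η ^ 2 * M ^ 2 * (P : ℝ) ^ (k - 1) +
        2 * η * M * ((P : ℝ) ^ (k - 1) * (P : ℝ) ^ (k + 1 - m))) ≤
      Dc k m P * c2 k m ^ 2 * η * (4 * π * η * M ^ 2 * (P : ℝ) ^ (k - 1) +
        2 / c * η * M ^ 2 * (P : ℝ) ^ (k - 1)) := by
        refine mul_le_mul_of_nonneg_left (add_le_add l4 l3) (by positivity)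
    _ = Dc k m P * (4 * π + 2 / c) * (P : ℝ) ^ (k - 1) * (M * c2 k m * η) ^ 2 := by ring

end Pool.Agent.Q154.War
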