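import Pool.Agent.Q154.War.Vt
import Pool.Agent.Q154.War.MixCase
import Pool.Agent.Q154.War.DiscFin

/-!
# A dense set of integers plus the integer part of one shifted power
-/

set_option autoImplicit false
set_option linter.unusedSectionVars false

open MeasureTheory Set Finset FourierTransform
open scoped Real ENNReal

namespace Pool.Agent.Q154.War

/-- integer parts of shifted powers -/
noncomputable def shf (k : ℕ) : Fml where
  dom := {x | 0 < x}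
  fn := fun t x => ⌊((x : ℝ) + t) ^ k⌋₊
  meas := fun x => Nat.measurable_floor.comp ((measurable_id.const_add (x : ℝ)).pow_const k)

open Classical in
/-- the elements of the set up to `M` -/
noncomputable def cutB (A : Set ℕ) (M : ℕ) : Finset ℕ :=
  (Finset.range (M + 1)).filter fun a => a ∈ A

lemma mem_cutB {A : Set ℕ} {M a : ℕ} : a ∈ cutB A M ↔ a ≤ M ∧ a ∈ A := by
  classical
  unfold cutB
  rw [Finset.mem_filter, Finset.mem_range, Nat.lt_succ_iff]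

lemma exists_root {k : ℕ} (hk : 1 ≤ k) (M : ℕ) : ∃ P : ℕ, P ^ k ≤ M ∧ M < (P + 1) ^ k := by
  classical
  set P := Nat.findGreatest (fun p => p ^ k ≤ M) M with hP
  have h0 : (0 : ℕ) ^ k ≤ M := by
    rw [zero_pow (by omega)]
    exact Nat.zero_le _
  refine ⟨P, Nat.findGreatest_spec (P := fun p => p ^ k ≤ M) (Nat.zero_le M) h0, ?_⟩
  rcases Nat.lt_or_ge M (P + 1) with h | h
  · exact h.trans_le (Nat.le_self_pow (by omega) _)
  · have := Nat.findGreatest_is_greatest (P := fun p => p ^ k ≤ M) (Nat.lt_succ_self P) h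
    exact not_le.1 this

/-- no representation near an exceptional integer -/
lemma rr_exc {A : Set ℕ} {k P M N : ℕ} (hP : 0 < P) (hM : M ≤ N) {w : ℝ → ℝ}
    (hw : Bump (1 / 4) w) {α : Fin 1 → ℝ} (hα : 0 ≤ α 0) (hN : N ∉ addF A (shf k) (α 0)) {u : ℝ}
    (hu : u ∈ Set.Ioo ((N : ℝ) + 1 / 4) ((N : ℝ) + 3 / 4)) :
    rr (cutB A M ×ˢ box 1 P) (sm k 1) w α u = 0 := by
  classical
  unfold rr
  refine Finset.sum_eq_zero fun x hx => ?_
  refine hw.zero _ ?_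
  by_contra hcon
  rw [not_le] at hcon
  apply hN
  rw [Finset.mem_product] at hx
  obtain ⟨hx1, hx2⟩ := hx
  rw [mem_cutB] at hx1
  unfold box at hx2
  rw [Fintype.mem_piFinset] at hx2
  have h0 := hx2 0
  rw [Finset.mem_Ico] at h0
  refine ⟨x.1, hx1.2, x.2 0, show 0 < x.2 0 by omega, ?_⟩
  have hs : sm k 1 x α = (x.1 : ℝ) + ((x.2 0 : ℝ) + α 0) ^ k := by
    unfold sm sx
    simp
  rw [hs, abs_lt] at hcon
  have h1 : ((x.2 0 : ℝ) + α 0) ^ k < ((N - x.1 : ℕ) : ℝ) + 1 := by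
    rw [Nat.cast_sub (by omega)]
    linarith [hcon.1, hu.2]
  have h2 : ((N - x.1 : ℕ) : ℝ) ≤ ((x.2 0 : ℝ) + α 0) ^ k := by
    rw [Nat.cast_sub (by omega)]
    linarith [hcon.2, hu.1]
  show N = x.1 + ⌊((x.2 0 : ℝ) + α 0) ^ k⌋₊
  have h3 : ⌊((x.2 0 : ℝ) + α 0) ^ k⌋₊ = N - x.1 :=
    (Nat.floor_eq_iff (by positivity)).2 ⟨h2, h1⟩
  omega

/-- the mean number of exceptions in a window -/
lemma dense_main {A : Set ℕ} {k j P : ℕ} (hk : 2 ≤ k) (hP : 2 * k ≤ P) (hP1 : P ^ k ≤ 2 ^ j)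
    (hP2 : 2 ^ j < (P + 1) ^ k) (hA : 0 < (cutB A (2 ^ (j + 1))).card) :
    ∫⁻ α, ((exc (addF A (shf k) (α 0)) (j + 2)).card : ℝ≥0∞) ∂(νn 1) ≤
      ENNReal.ofReal (Vc k P * (64 * k ^ 2 * ((4 * P : ℝ) ^ (k - 1)) ^ 2) /
        (cutB A (2 ^ (j + 1))).card) := by
  classical
  obtain ⟨w, hw⟩ := exists_bump (by norm_num : (0 : ℝ) < 1 / 4)
  have hk1 : 1 ≤ k := by omega
  have hk0 : (0 : ℝ) < k := by exact_mod_cast hk1
  have hPone : 1 ≤ P := by omega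
  have hP0 : (0 : ℝ) < P := by exact_mod_cast hPone
  set F := cutB A (2 ^ (j + 1)) with hF
  set M : ℝ := ((F.card : ℕ) : ℝ) with hM
  have hM0 : 0 < M := by
    rw [hM]
    exact_mod_cast hA
  have hMne : M ≠ 0 := hM0.ne'
  set Z : (Fin 1 → ℝ) → ℝ := fun α =>
    ∫ N, (rr (F ×ˢ box 1 P) (sm k 1) w α N - VV (νn 1) (F ×ˢ box 1 P) (sm k 1) w N) ^ 2 with hZ
  set W := ∫ u, w u with hW
  have hW0 : 0 ≤ W := integral_nonneg fun u => hw.nonneg u
  have hW2 : W ≤ 2 * (1 / 4) := hw.integral_le (by norm_num)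
  have hV := Vc_ge (k := k) hPone
  have hE : ∫ α, Z α ∂(νn 1) ≤ Vc k P * (1 / 2 * M) := by
    refine (one_var hk hPone (by norm_num) hw).trans ?_
    refine mul_le_mul_of_nonneg_left ?_ (by linarith)
    exact mul_le_mul_of_nonneg_right (by linarith) hM0.le
  set d : ℝ := 1 / 4 / (2 * k * (4 * P : ℝ) ^ (k - 1)) with hd
  have hd0 : 0 < d := by positivity
  -- the main term
  have hmain : ∀ u : ℝ, (2 : ℝ) ^ (j + 2) ≤ u → u ≤ (2 : ℝ) ^ (j + 3) →
      M * d ≤ VV (νn 1) (F ×ˢ box 1 P) (sm k 1) w u := by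
    intro u hu1 hu2
    rw [VV_mix _ _ _ _ hw.toWt, hM, ← nsmul_eq_mul, ← Finset.sum_const]
    refine Finset.sum_le_sum fun a ha => ?_
    rw [hF, mem_cutB] at ha
    have ha2 : (a : ℝ) ≤ 2 ^ (j + 1) := by exact_mod_cast ha.1
    have ha0 : (0 : ℝ) ≤ a := Nat.cast_nonneg a
    have hPk : (P : ℝ) ^ k ≤ 2 ^ j := by exact_mod_cast hP1
    have h6 := VV_lower (k := k) (m := 0) (P := P) (N := u - a) hk1 hP
      (by norm_num : (0 : ℝ) < 1 / 4) (by norm_num) hw ?_ ?_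
    · rw [pow_zero, one_mul] at h6
      exact h6
    · push_cast
      have e1 : (2 : ℝ) ^ (j + 2) = 4 * 2 ^ j := by ring
      have e2 : (2 : ℝ) ^ (j + 1) = 2 * 2 ^ j := by ring
      rw [e1] at hu1
      rw [e2] at ha2
      linarith
    · have h7 : u - a ≤ (2 : ℝ) ^ (j + 3) := by linarith
      refine h7.trans ?_
      have h8 : (2 : ℝ) ^ j ≤ ((P : ℝ) + 1) ^ k := by exact_mod_cast hP2.le
      have h9 : (3 * ((P : ℝ) + 1)) ^ k ≤ (4 * P : ℝ) ^ k := by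
        refine pow_le_pow_left₀ (by positivity) ?_ k
        have : (4 : ℝ) ≤ P := by
          have : 4 ≤ P := by omega
          exact_mod_cast this
        linarith
      have h10 : (9 : ℝ) ≤ 3 ^ k := by
        calc (9 : ℝ) = 3 ^ 2 := by norm_num
          _ ≤ 3 ^ k := pow_le_pow_right₀ (by norm_num) hk
      rw [mul_pow] at h9
      have e1 : (2 : ℝ) ^ (j + 3) = 8 * 2 ^ j := by ring
      rw [e1]
      have h11 : 0 < (2 : ℝ) ^ j := by positivity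
      nlinarith
  have hpt : ∀ᵐ α ∂(νn 1), ENNReal.ofReal ((M * d) ^ 2 / 2) *
      ((exc (addF A (shf k) (α 0)) (j + 2)).card : ℝ≥0∞) ≤ ENNReal.ofReal (Z α) := by
    filter_upwards [ae_νn 1] with α hα
    have h1 : ENNReal.ofReal (Z α) = ∫⁻ N, ENNReal.ofReal
        ((rr (F ×ˢ box 1 P) (sm k 1) w α N - VV (νn 1) (F ×ˢ box 1 P) (sm k 1) w N) ^ 2) := by
      rw [hZ]
      exact ofReal_integral_eq_lintegral_ofReal
        (integrable_sq_fluct hw.toWt (measurable_sm k 1) α)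
        (Filter.Eventually.of_forall fun N => sq_nonneg _)
    rw [h1]
    set I : ℕ → Set ℝ := fun N => Set.Ioo ((N : ℝ) + 1 / 4) ((N : ℝ) + 3 / 4) with hI
    set X := exc (addF A (shf k) (α 0)) (j + 2) with hX
    have hdisj : Set.PairwiseDisjoint (↑X : Set ℕ) I := by
      intro N _ N' _ hne
      rw [Function.onFun, Set.disjoint_left]
      intro u hu hu'
      rw [hI] at hu hu'
      simp only [Set.mem_Ioo] at hu hu'
      apply hne
      have h3 : (N : ℝ) < N' + 1 := by linarith [hu.1, hu'.2]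
      have h4 : (N' : ℝ) < N + 1 := by linarith [hu.2, hu'.1]
      have h5 : N < N' + 1 := by exact_mod_cast h3
      have h6 : N' < N + 1 := by exact_mod_cast h4
      omega
    refine le_trans ?_ (setLIntegral_le_lintegral (⋃ N ∈ X, I N) _)
    rw [lintegral_biUnion_finset hdisj (fun N _ => measurableSet_Ioo)]
    have hone : ∀ N ∈ X, ENNReal.ofReal ((M * d) ^ 2 / 2) ≤ ∫⁻ u in I N, ENNReal.ofReal
        ((rr (F ×ˢ box 1 P) (sm k 1) w α u - VV (νn 1) (F ×ˢ box 1 P) (sm k 1) w u) ^ 2) := by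
      intro N hN
      rw [hX, mem_exc] at hN
      have h5 : ∫⁻ _u in I N, ENNReal.ofReal ((M * d) ^ 2) = ENNReal.ofReal ((M * d) ^ 2 / 2) := by
        rw [setLIntegral_const, hI, Real.volume_Ioo, ← ENNReal.ofReal_mul (by positivity)]
        congr 1
        ring
      rw [← h5]
      refine setLIntegral_mono' measurableSet_Ioo fun u hu => ?_
      refine ENNReal.ofReal_le_ofReal ?_
      have hM1 : 2 ^ (j + 1) ≤ N := by
        have : 2 ^ (j + 1) ≤ 2 ^ (j + 2) := Nat.pow_le_pow_right (by norm_num) (by omega)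
        omega
      rw [hF, rr_exc hPone hM1 hw (hα 0).1 hN.2 hu, ← hF, zero_sub, neg_sq]
      refine pow_le_pow_left₀ (by positivity) (hmain u ?_ ?_) 2
      · have h6 : (2 : ℝ) ^ (j + 2) ≤ N := by exact_mod_cast hN.1.1
        linarith [hu.1]
      · have h6 : (N : ℝ) + 1 ≤ (2 : ℝ) ^ (j + 3) := by exact_mod_cast hN.1.2
        linarith [hu.2]
    calc ENNReal.ofReal ((M * d) ^ 2 / 2) * (X.card : ℝ≥0∞) =
        ∑ _N ∈ X, ENNReal.ofReal ((M * d) ^ 2 / 2) := by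
          rw [Finset.sum_const, nsmul_eq_mul, mul_comm]
      _ ≤ _ := Finset.sum_le_sum hone
  have hmeas : Measurable fun α : Fin 1 → ℝ =>
      ((exc (addF A (shf k) (α 0)) (j + 2)).card : ℝ≥0∞) :=
    measurable_card_exc (fun N => measurable_mem_addF (A := fun _ => A)
      (fun _ => MeasurableSet.const _) (shf k) (measurable_pi_apply 0) N) (j + 2)
  have h8 : ENNReal.ofReal ((M * d) ^ 2 / 2) *
      ∫⁻ α, ((exc (addF A (shf k) (α 0)) (j + 2)).card : ℝ≥0∞) ∂(νn 1) ≤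
      ENNReal.ofReal (Vc k P * (1 / 2 * M)) := by
    rw [← lintegral_const_mul _ hmeas]
    refine (lintegral_mono_ae hpt).trans ?_
    rw [← ofReal_integral_eq_lintegral_ofReal
      (integrable_fluct hw.toWt (measurable_sm k 1))
      (Filter.Eventually.of_forall fun α => integral_nonneg fun N => sq_nonneg _)]
    exact ENNReal.ofReal_le_ofReal hE
  have h9 : 0 < (M * d) ^ 2 / 2 := by positivity
  have h10 : ∫⁻ α, ((exc (addF A (shf k) (α 0)) (j + 2)).card : ℝ≥0∞) ∂(νn 1) ≤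
      ENNReal.ofReal (Vc k P * (1 / 2 * M)) / ENNReal.ofReal ((M * d) ^ 2 / 2) := by
    rw [ENNReal.le_div_iff_mul_le (Or.inl (ENNReal.ofReal_pos.2 h9).ne')
      (Or.inl ENNReal.ofReal_ne_top), mul_comm]
    exact h8
  rw [← ENNReal.ofReal_div_of_pos h9] at h10
  refine h10.trans (ENNReal.ofReal_le_ofReal (le_of_eq ?_))
  rw [hd]
  field_simp
  norm_num

lemma Kc_le_pow {P i : ℕ} (hP : 1 ≤ P) (h : P ≤ 2 ^ i) : Kc P ≤ 24 * (1 + i) := by
  refine le_trans ?_ (Kc_two i)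
  unfold Kc
  have hP' : (0 : ℝ) < P := by exact_mod_cast hP
  have h1 : (P : ℝ) ≤ ((2 ^ i : ℕ) : ℝ) := by exact_mod_cast h
  have := Real.log_le_log (by positivity : 0 < 3 * (P : ℝ)) (by linarith : 3 * (P : ℝ) ≤
    3 * ((2 ^ i : ℕ) : ℝ))
  linarith

/-- the constant -/
noncomputable def Dk (k : ℕ) (c τ : ℝ) : ℝ :=
  24 * ((1 + 2 * k * 4 ^ (k - 1)) * (64 * k ^ 2 * (4 ^ (k - 1)) ^ 2)) /
    (c * (2 : ℝ) ^ (1 - τ)) / ((2 : ℝ) ^ (1 - 1 / (k : ℝ) + τ)) ^ 2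

lemma Dk_nonneg (k : ℕ) {c : ℝ} (τ : ℝ) (hc : 0 < c) : 0 ≤ Dk k c τ := by
  unfold Dk
  positivity

lemma dense_window {A : Set ℕ} {k j : ℕ} (hk : 2 ≤ k) {c τ : ℝ} (hc : 0 < c)
    (hj : (2 * k) ^ k ≤ j)
    (hA : c * (2 : ℝ) ^ ((1 - τ) * ((j + 1 : ℕ) : ℝ)) ≤ (cutB A (2 ^ (j + 1))).card) :
    ∫⁻ α, ((exc (addF A (shf k) (α 0)) (j + 2)).card : ℝ≥0∞) ∂(νn 1) ≤
      ENNReal.ofReal (Dk k c τ * ((1 + (j : ℝ)) *
        ((2 : ℝ) ^ (1 - 1 / (k : ℝ) + τ)) ^ (j + 2))) := by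
  have hk1 : 1 ≤ k := by omega
  have hk0 : (0 : ℝ) < k := by exact_mod_cast hk1
  obtain ⟨s, hs⟩ : ∃ s : ℝ, s = (2 : ℝ) ^ (1 - 1 / (k : ℝ) + τ) := ⟨_, rfl⟩
  have hs0 : 0 < s := by
    rw [hs]
    exact Real.rpow_pos_of_pos (by norm_num) _
  obtain ⟨P, hP1, hP2⟩ := exists_root hk1 (2 ^ j)
  have hP : 2 * k ≤ P := by
    by_contra hlt
    have h2 : (P + 1) ^ k ≤ (2 * k) ^ k := Nat.pow_le_pow_left (by omega) k
    have h4 : j < 2 ^ j := Nat.lt_two_pow_self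
    omega
  have hPone : 1 ≤ P := by omega
  have hP0 : (0 : ℝ) < P := by exact_mod_cast hPone
  have hc2 : 0 < c * (2 : ℝ) ^ ((1 - τ) * ((j + 1 : ℕ) : ℝ)) :=
    mul_pos hc (Real.rpow_pos_of_pos (by norm_num) _)
  have hApos : (0 : ℝ) < (cutB A (2 ^ (j + 1))).card := lt_of_lt_of_le hc2 hA
  refine (dense_main hk hP hP1 hP2 (by exact_mod_cast hApos)).trans
    (ENNReal.ofReal_le_ofReal ?_)
  have hPj : P ≤ 2 ^ j := (Nat.le_self_pow (by omega) P).trans hP1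
  have hKc : Kc P ≤ 24 * (1 + j) := Kc_le_pow hPone hPj
  have hKc0 : 0 ≤ Kc P := by linarith [Kc_ge hPone]
  -- the power of `P`
  have hPr : (P : ℝ) ≤ (2 : ℝ) ^ ((j : ℝ) / k) := by
    refine le_of_pow_le_pow_left₀ (by omega : k ≠ 0) (by positivity) ?_
    rw [← Real.rpow_mul_natCast (by norm_num), div_mul_cancel₀ _ hk0.ne', Real.rpow_natCast]
    exact_mod_cast hP1
  have hPpow : (P : ℝ) ^ (2 * k - 1) ≤ (2 : ℝ) ^ ((2 - 1 / (k : ℝ)) * j) := by
    have h5 := pow_le_pow_left₀ hP0.le hPr (2 * k - 1)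
    refine h5.trans (le_of_eq ?_)
    rw [← Real.rpow_mul_natCast (by norm_num), Nat.cast_sub (by omega)]
    congr 1
    push_cast
    field_simp
  obtain ⟨E, hE⟩ : ∃ E : ℝ, E = (1 + 2 * k * 4 ^ (k - 1)) * (64 * k ^ 2 * (4 ^ (k - 1)) ^ 2) :=
    ⟨_, rfl⟩
  have hE0 : 0 ≤ E := by
    rw [hE]
    positivity
  have e1 : Vc k P * (64 * k ^ 2 * ((4 * P : ℝ) ^ (k - 1)) ^ 2) =
      Kc P * E * (P : ℝ) ^ (2 * k - 1) := by
    have e2 : (P : ℝ) ^ (2 * k - 1) = P * ((P : ℝ) ^ (k - 1)) ^ 2 := by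
      rw [← pow_mul, ← pow_succ']
      congr 1
      omega
    unfold Vc
    rw [e2, mul_pow 4 (P : ℝ) (k - 1), hE]
    ring
  rw [e1]
  have h6 : Kc P * E * (P : ℝ) ^ (2 * k - 1) ≤
      24 * (1 + j) * E * (2 : ℝ) ^ ((2 - 1 / (k : ℝ)) * j) := by
    refine mul_le_mul ?_ hPpow (by positivity) (by positivity)
    exact mul_le_mul_of_nonneg_right hKc hE0
  have h7 : Kc P * E * (P : ℝ) ^ (2 * k - 1) / ((cutB A (2 ^ (j + 1))).card : ℝ) ≤
      24 * (1 + j) * E * (2 : ℝ) ^ ((2 - 1 / (k : ℝ)) * j) /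
        (c * (2 : ℝ) ^ ((1 - τ) * ((j + 1 : ℕ) : ℝ))) :=
    div_le_div₀ (by positivity) h6 hc2 hA
  refine h7.trans (le_of_eq ?_)
  have e3 : (2 : ℝ) ^ ((1 - τ) * ((j + 1 : ℕ) : ℝ)) =
      (2 : ℝ) ^ (1 - τ) * (2 : ℝ) ^ ((1 - τ) * j) := by
    rw [← Real.rpow_add (by norm_num)]
    congr 1
    push_cast
    ring
  have e4 : (2 : ℝ) ^ ((2 - 1 / (k : ℝ)) * j) = s ^ j * (2 : ℝ) ^ ((1 - τ) * j) := by
    rw [hs, ← Real.rpow_mul_natCast (by norm_num), ← Real.rpow_add (by norm_num)]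
    congr 1
    ring
  have h9 : 0 < (2 : ℝ) ^ ((1 - τ) * (j : ℝ)) := Real.rpow_pos_of_pos (by norm_num) _
  have h10 : 0 < (2 : ℝ) ^ (1 - τ) := Real.rpow_pos_of_pos (by norm_num) _
  unfold Dk
  rw [← hE, ← hs, e3, e4, pow_add s j 2]
  field_simp

end Pool.Agent.Q154.War
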