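import Pool.Agent.Q154.War.Dense

/-!
# A dense set of integers plus the integer part of one shifted power, all windows
-/

set_option autoImplicit false
set_option linter.unusedSectionVars false

open MeasureTheory Set Finset
open scoped Real ENNReal

namespace Pool.Agent.Q154.War

/-- **One generic shifted power: few exceptions.** -/
theorem dense_few {A : Set ℕ} {k : ℕ} (hk : 2 ≤ k) {c τ : ℝ} (hc : 0 < c) {i₀ : ℕ}
    (hA : ∀ i ≥ i₀, c * (2 : ℝ) ^ ((1 - τ) * i) ≤ (cutB A (2 ^ i)).card) {q : ℝ}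
    (hq : (2 : ℝ) ^ (1 - 1 / (k : ℝ) + τ) < q) :
    ∀ᵐ t ∂ν1, Few (addF A (shf k) t) q := by
  classical
  obtain ⟨s, hs⟩ : ∃ s : ℝ, s = (2 : ℝ) ^ (1 - 1 / (k : ℝ) + τ) := ⟨_, rfl⟩
  have hs0 : 0 < s := by
    rw [hs]
    exact Real.rpow_pos_of_pos (by norm_num) _
  rw [← hs] at hq
  have hq0 : 0 < q := hs0.trans hq
  obtain ⟨j₀, hj₁, hj₂⟩ : ∃ j₀ : ℕ, i₀ ≤ j₀ ∧ (2 * k) ^ k ≤ j₀ :=
    ⟨max i₀ ((2 * k) ^ k), le_max_left _ _, le_max_right _ _⟩
  obtain ⟨B₀, hB₀⟩ : ∃ B₀ : ℝ, ∀ i ∈ range (j₀ + 2), (2 : ℝ) ^ i / s ^ i ≤ B₀ :=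
    ⟨∑ i ∈ range (j₀ + 2), (2 : ℝ) ^ i / s ^ i, fun i hi =>
      Finset.single_le_sum (f := fun i => (2 : ℝ) ^ i / s ^ i) (fun j _ => by positivity) hi⟩
  have hB₀0 : 0 ≤ B₀ := by
    have := hB₀ 0 (by simp)
    simp at this
    linarith
  have hD0 := Dk_nonneg k τ hc
  have hmeas : ∀ i, Measurable fun α : Fin 1 → ℝ =>
      ((exc (addF A (shf k) (α 0)) i).card : ℝ≥0∞) := fun i =>
    measurable_card_exc (fun N => measurable_mem_addF (A := fun _ => A)
      (fun _ => MeasurableSet.const _) (shf k) (measurable_pi_apply 0) N) i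
  have hb : ∀ i : ℕ, 0 ≤ (B₀ + Dk k c τ) * ((1 + (i : ℝ)) * s ^ i) := fun i =>
    mul_nonneg (by linarith) (by positivity)
  have hae : ∀ᵐ α ∂(νn 1), Few (addF A (shf k) (α 0)) q := by
    unfold Few
    refine ae_bound (μ := νn 1)
      (f := fun (i : ℕ) (α : Fin 1 → ℝ) => ((exc (addF A (shf k) (α 0)) i).card : ℝ≥0∞)) hmeas
      (b := fun i => (B₀ + Dk k c τ) * ((1 + (i : ℝ)) * s ^ i)) hq0 hb ?_ ?_
    · intro i
      have hi0 : (0 : ℝ) ≤ i := Nat.cast_nonneg i
      rcases lt_or_ge i (j₀ + 2) with hi | hi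
      · have h1 : ∀ α : Fin 1 → ℝ, ((exc (addF A (shf k) (α 0)) i).card : ℝ≥0∞) ≤
            ENNReal.ofReal (2 ^ i) := by
          intro α
          have h2 : ((exc (addF A (shf k) (α 0)) i).card : ℝ≥0∞) ≤ ((2 ^ i : ℕ) : ℝ≥0∞) := by
            exact_mod_cast card_exc_le _ i
          refine h2.trans (le_of_eq ?_)
          rw [← ENNReal.ofReal_natCast]
          push_cast
          rfl
        refine (lintegral_mono h1).trans ?_
        rw [lintegral_const, measure_univ, mul_one]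
        refine ENNReal.ofReal_le_ofReal ?_
        have h3 := hB₀ i (Finset.mem_range.2 hi)
        have h4 : (2 : ℝ) ^ i = 2 ^ i / s ^ i * s ^ i := by
          field_simp
        have h5 : s ^ i ≤ (1 + (i : ℝ)) * s ^ i :=
          le_mul_of_one_le_left (by positivity) (by linarith)
        calc (2 : ℝ) ^ i = 2 ^ i / s ^ i * s ^ i := h4
          _ ≤ (B₀ + Dk k c τ) * s ^ i := mul_le_mul_of_nonneg_right (by linarith) (by positivity)
          _ ≤ (B₀ + Dk k c τ) * ((1 + (i : ℝ)) * s ^ i) :=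
              mul_le_mul_of_nonneg_left h5 (by linarith)
      · obtain ⟨j, rfl⟩ : ∃ j, i = j + 2 := ⟨i - 2, by omega⟩
        have hAj := hA (j + 1) (by omega)
        refine (dense_window hk hc (by omega) hAj).trans (ENNReal.ofReal_le_ofReal ?_)
        rw [← hs]
        have h11 : (1 + (j : ℝ)) * s ^ (j + 2) ≤ (1 + ((j + 2 : ℕ) : ℝ)) * s ^ (j + 2) := by
          refine mul_le_mul_of_nonneg_right ?_ (by positivity)
          push_cast
          linarith
        exact mul_le_mul (by linarith) h11 (by positivity) (by linarith)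
    · have hrq : s / q < 1 := (div_lt_one hq0).2 hq
      have h1 := summable_pow_mul_geometric_of_norm_lt_one (R := ℝ) 1
        (r := s / q) (by rw [Real.norm_eq_abs, abs_of_pos (by positivity)]; exact hrq)
      have h2 := summable_geometric_of_lt_one (by positivity) hrq
      have h3 := (h2.add h1).mul_left (B₀ + Dk k c τ)
      refine h3.congr fun i => ?_
      rw [div_pow, pow_one]
      ring
  have hev : MeasurePreserving (fun α : Fin 1 → ℝ => α 0) (νn 1) ν1 :=
    measurePreserving_eval (fun _ : Fin 1 => ν1) 0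
  rw [← hev.map_eq]
  refine (ae_map_iff hev.measurable.aemeasurable ?_).2 hae
  exact measurableSet_Few (fun N => measurable_mem_addF (A := fun _ => A)
      (fun _ => MeasurableSet.const _) (shf k) measurable_id N) q

end Pool.Agent.Q154.War
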