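import Pool.Agent.Q154.War.SupBound

/-!
# Second differences of the weighted number of representations
-/

set_option autoImplicit false
set_option linter.unusedSectionVars false

open MeasureTheory Set Finset FourierTransform
open scoped Real

namespace Pool.Agent.Q154.War

/-- the majorant of `1 - cos (2 π y θ)` for `|y| ≤ L` -/
noncomputable def mL (L θ : ℝ) : ℝ := min 2 (20 * (L * θ) ^ 2)

lemma mL_nonneg (L θ : ℝ) : 0 ≤ mL L θ := le_min (by norm_num) (by positivity)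

lemma mL_le_two (L θ : ℝ) : mL L θ ≤ 2 := min_le_left _ _

lemma mL_le_sq (L θ : ℝ) : mL L θ ≤ 20 * (L * θ) ^ 2 := min_le_right _ _

lemma continuous_mL (L : ℝ) : Continuous (mL L) := by
  unfold mL
  fun_prop

lemma norm_one_sub_cos {L y θ : ℝ} (hy : |y| ≤ L) :
    ‖(1 : ℂ) - (ee (θ * y) + ee (-(θ * y))) / 2‖ ≤ mL L θ := by
  have h1 : (ee (θ * y) + ee (-(θ * y))) / 2 = ((Real.cos (2 * π * (θ * y)) : ℝ) : ℂ) := by
    unfold ee
    rw [Complex.ofReal_cos, Complex.cos]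
    congr 2
    · congr 1
      push_cast
      ring
  have h2 : (1 : ℂ) - (ee (θ * y) + ee (-(θ * y))) / 2 =
      ((1 - Real.cos (2 * π * (θ * y)) : ℝ) : ℂ) := by
    rw [h1]
    push_cast
    ring
  have h3 := Real.cos_le_one (2 * π * (θ * y))
  have h4 := Real.neg_one_le_cos (2 * π * (θ * y))
  rw [h2, Complex.norm_real, Real.norm_eq_abs, abs_of_nonneg (by linarith)]
  refine le_min (by linarith) ?_
  have h5 := Real.one_sub_sq_div_two_le_cos (x := 2 * π * (θ * y))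
  have h6 : (θ * y) ^ 2 ≤ (L * θ) ^ 2 := by
    rw [mul_pow, mul_pow, mul_comm]
    refine mul_le_mul_of_nonneg_right ?_ (sq_nonneg θ)
    rw [← sq_abs y]
    exact pow_le_pow_left₀ (abs_nonneg y) hy 2
  have h7 : π ^ 2 ≤ 10 := by
    have h8 := Real.pi_lt_d2
    have h9 := Real.pi_pos
    nlinarith
  have h8 : (2 * π * (θ * y)) ^ 2 / 2 = 2 * π ^ 2 * (θ * y) ^ 2 := by ring
  have h9 : 2 * π ^ 2 * (θ * y) ^ 2 ≤ 20 * (L * θ) ^ 2 := by
    have h10 : 2 * π ^ 2 * (θ * y) ^ 2 ≤ 20 * (θ * y) ^ 2 :=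
      mul_le_mul_of_nonneg_right (by linarith) (sq_nonneg _)
    linarith
  linarith

section General

variable {Ω : Type*} [MeasurableSpace Ω] {μ : Measure Ω} [IsProbabilityMeasure μ] {ι : Type*}
  {F : Finset ι} {s : ι → Ω → ℝ} {w : ℝ → ℝ}

/-- the majorant of the second differences -/
noncomputable def ZL (F : Finset ι) (s : ι → Ω → ℝ) (w : ℝ → ℝ) (L : ℝ) (ω : Ω) : ℝ :=
  ∫ θ, ‖𝓕 (fun u => (w u : ℂ)) θ‖ * mL L θ * ‖TT F s θ ω‖

lemma integrable_four_rr (hw : Wt w) (ω : Ω) :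
    Integrable (𝓕 fun N => (rr F s w ω N : ℂ)) := by
  have e : (𝓕 fun N => (rr F s w ω N : ℂ)) =
      fun θ => 𝓕 (fun u => (w u : ℂ)) θ * TT F s θ ω := by
    ext θ
    exact fourier_rr hw ω θ
  rw [e]
  refine hw.four.mul_bdd (c := F.card) ?_ ?_
  · exact (continuous_TT ω).aestronglyMeasurable
  · exact Filter.Eventually.of_forall fun θ => norm_TT_le θ ω

lemma rr_inversion (hw : Wt w) (ω : Ω) (N : ℝ) :
    (rr F s w ω N : ℂ) = ∫ θ, ee (θ * N) * 𝓕 (fun N => (rr F s w ω N : ℂ)) θ := by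
  have hc : Continuous fun N => (rr F s w ω N : ℂ) :=
    Complex.continuous_ofReal.comp (continuous_rr hw ω)
  have hi : Integrable fun N => (rr F s w ω N : ℂ) :=
    (integrable_rr_right (F := F) (s := s) hw ω).ofReal
  have hinv := congrFun (hc.fourierInv_fourier_eq hi (integrable_four_rr hw ω)) N
  rw [← hinv, Real.fourierInv_eq]
  refine integral_congr_ae (Filter.Eventually.of_forall fun θ => ?_)
  simp only
  rw [Circle.smul_def, smul_eq_mul]
  congr 1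
  unfold ee
  rw [Real.fourierChar_apply]
  congr 1
  simp [mul_comm]

lemma second_diff (hw : Wt w) (ω : Ω) {N y L : ℝ} (hy : |y| ≤ L) :
    |rr F s w ω N - (rr F s w ω (N - y) + rr F s w ω (N + y)) / 2| ≤ ZL F s w L ω := by
  set G := 𝓕 (fun N => (rr F s w ω N : ℂ)) with hG
  have hGi : Integrable G := integrable_four_rr hw ω
  have hint : ∀ M : ℝ, Integrable fun θ => ee (θ * M) * G θ := by
    intro M
    refine hGi.bdd_mul (c := 1) ?_ ?_
    · exact (continuous_ee.comp (by fun_prop)).aestronglyMeasurable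
    · exact Filter.Eventually.of_forall fun N => (norm_ee _).le
  have hsum : Integrable fun θ => (ee (θ * (N - y)) * G θ + ee (θ * (N + y)) * G θ) / 2 :=
    ((hint _).add (hint _)).div_const 2
  have h1 : ((rr F s w ω N - (rr F s w ω (N - y) + rr F s w ω (N + y)) / 2 : ℝ) : ℂ) =
      ∫ θ, ee (θ * N) * (1 - (ee (θ * y) + ee (-(θ * y))) / 2) * G θ := by
    push_cast
    rw [rr_inversion hw ω N, rr_inversion hw ω (N - y), rr_inversion hw ω (N + y), ← hG,
      ← integral_add (hint _) (hint _), ← integral_div, ← integral_sub (hint _) hsum]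
    refine integral_congr_ae (Filter.Eventually.of_forall fun θ => ?_)
    simp only
    have e1 : ee (θ * (N - y)) = ee (θ * N) * ee (-(θ * y)) := by
      rw [← ee_add]
      congr 1
      ring
    have e2 : ee (θ * (N + y)) = ee (θ * N) * ee (θ * y) := by
      rw [← ee_add]
      congr 1
      ring
    rw [e1, e2]
    ring
  rw [← Real.norm_eq_abs, ← Complex.norm_real, h1]
  refine (norm_integral_le_integral_norm _).trans ?_
  unfold ZL
  refine integral_mono_of_nonneg (Filter.Eventually.of_forall fun θ => norm_nonneg _) ?_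
    (Filter.Eventually.of_forall fun θ => ?_)
  · have h2 := hw.four.norm.mul_bdd (c := 2 * F.card) (g := fun θ => mL L θ * ‖TT F s θ ω‖)
      ((continuous_mL L).mul (continuous_TT ω).norm).aestronglyMeasurable
      (Filter.Eventually.of_forall fun θ => by
        rw [Real.norm_eq_abs, abs_of_nonneg (mul_nonneg (mL_nonneg L θ) (norm_nonneg _))]
        exact mul_le_mul (mL_le_two L θ) (norm_TT_le θ ω) (norm_nonneg _) (by norm_num))
    refine h2.congr (Filter.Eventually.of_forall fun θ => ?_)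
    simp only
    ring
  · simp only
    rw [norm_mul, norm_mul, norm_ee, one_mul, hG, fourier_rr hw ω θ, norm_mul]
    have h3 := norm_one_sub_cos (θ := θ) hy
    have h4 : 0 ≤ ‖𝓕 (fun u => (w u : ℂ)) θ‖ * ‖TT F s θ ω‖ := by positivity
    calc ‖(1 : ℂ) - (ee (θ * y) + ee (-(θ * y))) / 2‖ *
          (‖𝓕 (fun u => (w u : ℂ)) θ‖ * ‖TT F s θ ω‖) ≤
        mL L θ * (‖𝓕 (fun u => (w u : ℂ)) θ‖ * ‖TT F s θ ω‖) := mul_le_mul_of_nonneg_right h3 h4
      _ = _ := by ring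

lemma ZL_nonneg (L : ℝ) (ω : Ω) : 0 ≤ ZL F s w L ω := by
  unfold ZL
  refine integral_nonneg fun θ => ?_
  have := mL_nonneg L θ
  positivity

/-- the auxiliary quadratic functional -/
noncomputable def BQ (F : Finset ι) (s : ι → Ω → ℝ) (w : ℝ → ℝ) (L : ℝ) (g : ℝ → ℝ) (ω : Ω) : ℝ :=
  ∫ θ, ‖𝓕 (fun u => (w u : ℂ)) θ‖ * mL L θ * (‖TT F s θ ω‖ ^ 2 / g θ)

lemma BQ_nonneg {L : ℝ} {g : ℝ → ℝ} (hg1 : ∀ θ, 1 ≤ g θ) (ω : Ω) : 0 ≤ BQ F s w L g ω := by
  unfold BQ
  refine integral_nonneg fun θ => ?_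
  have h1 := mL_nonneg L θ
  have h2 : 0 < g θ := lt_of_lt_of_le one_pos (hg1 θ)
  positivity

lemma integrable_BQ_kern (hw : Wt w) (hs : ∀ x, Measurable (s x)) {L : ℝ} {g : ℝ → ℝ}
    (hg : Continuous g) (hg1 : ∀ θ, 1 ≤ g θ) :
    Integrable (Function.uncurry fun (ω : Ω) (θ : ℝ) =>
      ‖𝓕 (fun u => (w u : ℂ)) θ‖ * mL L θ * (‖TT F s θ ω‖ ^ 2 / g θ)) (μ.prod volume) := by
  have h1 : Integrable (fun p : Ω × ℝ => ‖𝓕 (fun u => (w u : ℂ)) p.2‖) (μ.prod volume) :=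
    hw.four.norm.comp_snd μ
  have h2 := h1.mul_bdd (c := 2 * (F.card : ℝ) ^ 2)
    (g := fun p : Ω × ℝ => mL L p.2 * (‖TT F s p.2 p.1‖ ^ 2 / g p.2)) ?_ ?_
  · refine h2.congr (Filter.Eventually.of_forall fun p => ?_)
    simp only [Function.uncurry]
    ring
  · refine Measurable.aestronglyMeasurable ?_
    exact ((continuous_mL L).measurable.comp measurable_snd).mul
      ((((measurable_TT hs).norm).pow_const 2).div (hg.measurable.comp measurable_snd))
  · refine Filter.Eventually.of_forall fun p => ?_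
    have h3 : 0 < g p.2 := lt_of_lt_of_le one_pos (hg1 p.2)
    have h4 := mL_nonneg L p.2
    rw [Real.norm_eq_abs, abs_of_nonneg (by positivity)]
    have h5 : ‖TT F s p.2 p.1‖ ^ 2 / g p.2 ≤ (F.card : ℝ) ^ 2 := by
      rw [div_le_iff₀ h3]
      have h6 : ‖TT F s p.2 p.1‖ ^ 2 ≤ (F.card : ℝ) ^ 2 :=
        pow_le_pow_left₀ (norm_nonneg _) (norm_TT_le _ _) 2
      exact h6.trans (le_mul_of_one_le_right (by positivity) (hg1 p.2))
    exact mul_le_mul (mL_le_two L p.2) h5 (by positivity) (by norm_num)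

lemma integrable_mg (hw : Wt w) {L B : ℝ} {g : ℝ → ℝ} (hg : Continuous g) (hg1 : ∀ θ, 1 ≤ g θ)
    (hgB : ∀ θ, g θ ≤ B) : Integrable fun θ => ‖𝓕 (fun u => (w u : ℂ)) θ‖ * mL L θ * g θ := by
  have h2 := hw.four.norm.mul_bdd (c := 2 * B) (g := fun θ => mL L θ * g θ)
    ((continuous_mL L).mul hg).aestronglyMeasurable
    (Filter.Eventually.of_forall fun θ => by
      have h3 : 0 < g θ := lt_of_lt_of_le one_pos (hg1 θ)
      have h4 := mL_nonneg L θ
      rw [Real.norm_eq_abs, abs_of_nonneg (by positivity)]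
      exact mul_le_mul (mL_le_two L θ) (hgB θ) h3.le (by norm_num))
  refine h2.congr (Filter.Eventually.of_forall fun θ => ?_)
  simp only
  ring

lemma integral_BQ (hw : Wt w) (hs : ∀ x, Measurable (s x)) {L A B : ℝ} {g : ℝ → ℝ}
    (hg : Continuous g) (hg1 : ∀ θ, 1 ≤ g θ) (hgB : ∀ θ, g θ ≤ B)
    (hTT : ∀ θ, ∫ ω, ‖TT F s θ ω‖ ^ 2 ∂μ ≤ g θ ^ 2)
    (hA : ∫ θ, ‖𝓕 (fun u => (w u : ℂ)) θ‖ * mL L θ * g θ ≤ A) :
    ∫ ω, BQ F s w L g ω ∂μ ≤ A := by
  unfold BQ
  rw [integral_integral_swap (integrable_BQ_kern hw hs hg hg1)]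
  refine le_trans ?_ hA
  refine integral_mono_of_nonneg ?_ (integrable_mg hw hg hg1 hgB) ?_
  · refine Filter.Eventually.of_forall fun θ => integral_nonneg fun ω => ?_
    have h3 : 0 < g θ := lt_of_lt_of_le one_pos (hg1 θ)
    have h4 := mL_nonneg L θ
    positivity
  · refine Filter.Eventually.of_forall fun θ => ?_
    simp only
    rw [integral_const_mul, integral_div]
    have h3 : 0 < g θ := lt_of_lt_of_le one_pos (hg1 θ)
    have h4 := mL_nonneg L θ
    refine mul_le_mul_of_nonneg_left ?_ (by positivity)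
    rw [div_le_iff₀ h3, ← sq]
    exact hTT θ

lemma ZL_le (hw : Wt w) {L B lam A : ℝ} {g : ℝ → ℝ} (ω : Ω)
    (hg : Continuous g) (hg1 : ∀ θ, 1 ≤ g θ) (hgB : ∀ θ, g θ ≤ B) (hlam : 0 < lam)
    (hA : ∫ θ, ‖𝓕 (fun u => (w u : ℂ)) θ‖ * mL L θ * g θ ≤ A) :
    ZL F s w L ω ≤ (lam * A + BQ F s w L g ω / lam) / 2 := by
  have hi1 := integrable_mg (L := L) hw hg hg1 hgB
  have hi2 : Integrable fun θ =>
      ‖𝓕 (fun u => (w u : ℂ)) θ‖ * mL L θ * (‖TT F s θ ω‖ ^ 2 / g θ) := by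
    have h2 := hw.four.norm.mul_bdd (c := 2 * (F.card : ℝ) ^ 2)
      (g := fun θ => mL L θ * (‖TT F s θ ω‖ ^ 2 / g θ)) ?_ ?_
    · refine h2.congr (Filter.Eventually.of_forall fun p => ?_)
      simp only
      ring
    · refine Measurable.aestronglyMeasurable ?_
      exact ((continuous_mL L).measurable).mul
        ((((continuous_TT ω).measurable.norm).pow_const 2).div hg.measurable)
    · refine Filter.Eventually.of_forall fun θ => ?_
      have h3 : 0 < g θ := lt_of_lt_of_le one_pos (hg1 θ)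
      have h4 := mL_nonneg L θ
      rw [Real.norm_eq_abs, abs_of_nonneg (by positivity)]
      have h5 : ‖TT F s θ ω‖ ^ 2 / g θ ≤ (F.card : ℝ) ^ 2 := by
        rw [div_le_iff₀ h3]
        have h6 : ‖TT F s θ ω‖ ^ 2 ≤ (F.card : ℝ) ^ 2 :=
          pow_le_pow_left₀ (norm_nonneg _) (norm_TT_le _ _) 2
        exact h6.trans (le_mul_of_one_le_right (by positivity) (hg1 θ))
      exact mul_le_mul (mL_le_two L θ) h5 (by positivity) (by norm_num)
  have hpt : ∀ θ, ‖𝓕 (fun u => (w u : ℂ)) θ‖ * mL L θ * ‖TT F s θ ω‖ ≤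
      (lam / 2) * (‖𝓕 (fun u => (w u : ℂ)) θ‖ * mL L θ * g θ) +
        (1 / (2 * lam)) * (‖𝓕 (fun u => (w u : ℂ)) θ‖ * mL L θ * (‖TT F s θ ω‖ ^ 2 / g θ)) := by
    intro θ
    have h3 : 0 < g θ := lt_of_lt_of_le one_pos (hg1 θ)
    have h4 := mL_nonneg L θ
    set ρ := ‖𝓕 (fun u => (w u : ℂ)) θ‖ * mL L θ with hρ
    have hρ0 : 0 ≤ ρ := by positivity
    set t := ‖TT F s θ ω‖ with ht
    have h5 : t ≤ lam / 2 * g θ + 1 / (2 * lam) * (t ^ 2 / g θ) := by
      have h6 : lam / 2 * g θ + 1 / (2 * lam) * (t ^ 2 / g θ) - t =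
          (lam * g θ - t) ^ 2 / (2 * lam * g θ) := by
        field_simp
        ring
      have h7 : 0 ≤ (lam * g θ - t) ^ 2 / (2 * lam * g θ) := by positivity
      linarith
    calc ρ * t ≤ ρ * (lam / 2 * g θ + 1 / (2 * lam) * (t ^ 2 / g θ)) :=
          mul_le_mul_of_nonneg_left h5 hρ0
      _ = _ := by ring
  have h8 : ZL F s w L ω ≤ ∫ θ, ((lam / 2) * (‖𝓕 (fun u => (w u : ℂ)) θ‖ * mL L θ * g θ) +
        (1 / (2 * lam)) * (‖𝓕 (fun u => (w u : ℂ)) θ‖ * mL L θ * (‖TT F s θ ω‖ ^ 2 / g θ))) := by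
    unfold ZL
    refine integral_mono_of_nonneg ?_ ((hi1.const_mul _).add (hi2.const_mul _))
      (Filter.Eventually.of_forall hpt)
    refine Filter.Eventually.of_forall fun θ => ?_
    have h4 := mL_nonneg L θ
    simp only [Pi.zero_apply]
    positivity
  rw [integral_add (hi1.const_mul _) (hi2.const_mul _), integral_const_mul, integral_const_mul] at h8
  have h9 : ∫ θ, ‖𝓕 (fun u => (w u : ℂ)) θ‖ * mL L θ * (‖TT F s θ ω‖ ^ 2 / g θ) =
      BQ F s w L g ω := rfl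
  rw [h9] at h8
  refine h8.trans ?_
  have h10 : lam / 2 * ∫ θ, ‖𝓕 (fun u => (w u : ℂ)) θ‖ * mL L θ * g θ ≤ lam / 2 * A :=
    mul_le_mul_of_nonneg_left hA (by positivity)
  have h11 : (lam * A + BQ F s w L g ω / lam) / 2 = lam / 2 * A + 1 / (2 * lam) * BQ F s w L g ω := by
    field_simp
  rw [h11]
  linarith

/-- **The tail bound.** -/
theorem tail (hw : Wt w) (hs : ∀ x, Measurable (s x)) {L A B T : ℝ} {g : ℝ → ℝ}
    (hg : Continuous g) (hg1 : ∀ θ, 1 ≤ g θ) (hgB : ∀ θ, g θ ≤ B)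
    (hTT : ∀ θ, ∫ ω, ‖TT F s θ ω‖ ^ 2 ∂μ ≤ g θ ^ 2) (hA0 : 0 < A) (hT : 0 < T)
    (hA : ∫ θ, ‖𝓕 (fun u => (w u : ℂ)) θ‖ * mL L θ * g θ ≤ A) :
    μ.real {ω | T ≤ ZL F s w L ω} ≤ A ^ 2 / T ^ 2 := by
  have h1 : {ω | T ≤ ZL F s w L ω} ⊆ {ω | T ^ 2 / A ≤ BQ F s w L g ω} := by
    intro ω hω
    have h2 := ZL_le (s := s) (F := F) (lam := T / A) hw ω hg hg1 hgB (by positivity) hA
    have h3 : T ≤ (T / A * A + BQ F s w L g ω / (T / A)) / 2 := le_trans hω h2
    have h4 : T / A * A = T := by field_simp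
    rw [h4] at h3
    have h5 : T ≤ BQ F s w L g ω / (T / A) := by linarith
    rw [le_div_iff₀ (by positivity)] at h5
    show T ^ 2 / A ≤ BQ F s w L g ω
    refine le_trans (le_of_eq ?_) h5
    ring
  have h2 : μ.real {ω | T ≤ ZL F s w L ω} ≤ μ.real {ω | T ^ 2 / A ≤ BQ F s w L g ω} :=
    measureReal_mono h1
  have h3 : T ^ 2 / A * μ.real {ω | T ^ 2 / A ≤ BQ F s w L g ω} ≤ ∫ ω, BQ F s w L g ω ∂μ := by
    refine mul_meas_ge_le_integral_of_nonneg (Filter.Eventually.of_forall fun ω => BQ_nonneg hg1 ω)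
      ?_ _
    exact (integrable_BQ_kern (μ := μ) hw hs hg hg1).integral_prod_left
  have h4 := integral_BQ (μ := μ) hw hs hg hg1 hgB hTT hA
  have h5 : T ^ 2 / A * μ.real {ω | T ^ 2 / A ≤ BQ F s w L g ω} ≤ A := h3.trans h4
  have h6 : μ.real {ω | T ^ 2 / A ≤ BQ F s w L g ω} ≤ A ^ 2 / T ^ 2 := by
    rw [le_div_iff₀ (by positivity)]
    have h7 : 0 ≤ μ.real {ω | T ^ 2 / A ≤ BQ F s w L g ω} := measureReal_nonneg
    have h8 : T ^ 2 / A * μ.real {ω | T ^ 2 / A ≤ BQ F s w L g ω} * A ≤ A * A :=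
      mul_le_mul_of_nonneg_right h5 hA0.le
    have h9 : T ^ 2 / A * μ.real {ω | T ^ 2 / A ≤ BQ F s w L g ω} * A =
        μ.real {ω | T ^ 2 / A ≤ BQ F s w L g ω} * T ^ 2 := by
      field_simp
    rw [h9] at h8
    rw [sq A]
    exact h8
  exact h2.trans h6

end General

end Pool.Agent.Q154.War
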