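import Pool.Agent.Q154.War.Base

/-!
# Lower bound for the main term
-/

set_option autoImplicit false
set_option linter.unusedSectionVars false

open MeasureTheory Set Finset FourierTransform
open scoped Real

namespace Pool.Agent.Q154.War

/-- splitting off the first variable -/
lemma mp_cons (m : ℕ) : MeasurePreserving
    (fun p : ℝ × (Fin m → ℝ) => (Fin.cons p.1 p.2 : Fin (m + 1) → ℝ))
    (ν1.prod (νn m)) (νn (m + 1)) := by
  have h := (measurePreserving_piFinSuccAbove (fun _ : Fin (m + 1) => ν1) 0).symm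
  have e : (fun p : ℝ × (Fin m → ℝ) => (Fin.cons p.1 p.2 : Fin (m + 1) → ℝ)) =
      ⇑(MeasurableEquiv.piFinSuccAbove (fun _ : Fin (m + 1) => ℝ) 0).symm := by
    funext p
    exact (Fin.insertNth_zero' p.1 p.2).symm
  rw [e]
  exact h

lemma me_cons (m : ℕ) : MeasurableEmbedding
    (fun p : ℝ × (Fin m → ℝ) => (Fin.cons p.1 p.2 : Fin (m + 1) → ℝ)) := by
  have e : (fun p : ℝ × (Fin m → ℝ) => (Fin.cons p.1 p.2 : Fin (m + 1) → ℝ)) =
      ⇑(MeasurableEquiv.piFinSuccAbove (fun _ : Fin (m + 1) => ℝ) 0).symm := by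
    funext p
    exact (Fin.insertNth_zero' p.1 p.2).symm
  rw [e]
  exact MeasurableEquiv.measurableEmbedding _

lemma integral_cons {m : ℕ} {f : (Fin (m + 1) → ℝ) → ℝ} (hf : Integrable f (νn (m + 1))) :
    ∫ α, f α ∂(νn (m + 1)) = ∫ α, (∫ t, f (Fin.cons t α) ∂ν1) ∂(νn m) := by
  have h1 := (mp_cons m).integral_comp (me_cons m) f
  rw [← h1]
  have h2 : Integrable (fun p : ℝ × (Fin m → ℝ) => f (Fin.cons p.1 p.2)) (ν1.prod (νn m)) :=
    (mp_cons m).integrable_comp_of_integrable hf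
  rw [integral_prod_symm _ h2]

lemma sx_cons (k m : ℕ) (x0 : ℕ) (x : Fin m → ℕ) (t : ℝ) (α : Fin m → ℝ) :
    sx k (m + 1) (Fin.cons x0 x) (Fin.cons t α) = ((x0 : ℝ) + t) ^ k + sx k m x α := by
  unfold sx
  rw [Fin.sum_univ_succ]
  simp

lemma sum_box {E : Type*} [AddCommMonoid E] (m P : ℕ) (f : (Fin (m + 1) → ℕ) → E) :
    ∑ x ∈ box (m + 1) P, f x =
      ∑ x ∈ box m P, ∑ x0 ∈ Finset.Ico P (4 * P), f (Fin.cons x0 x) := by
  rw [← Finset.sum_product_right' (Finset.Ico P (4 * P)) (box m P)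
    (fun x0 x => f (Fin.cons x0 x))]
  symm
  refine Finset.sum_equiv (Fin.consEquiv fun _ => ℕ) ?_ ?_
  · intro p
    rw [Finset.mem_product]
    unfold box
    rw [Fintype.mem_piFinset, Fintype.mem_piFinset]
    constructor
    · intro h i
      refine Fin.cases ?_ (fun j => ?_) i
      · exact h.1
      · exact h.2 j
    · intro h
      exact ⟨h 0, fun j => h j.succ⟩
  · intro p _
    rfl

/-- the bump -/
structure Bump (η : ℝ) (w : ℝ → ℝ) : Prop extends Wt w where
  one : ∀ u, |u| ≤ η / 2 → w u = 1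
  zero : ∀ u, η ≤ |u| → w u = 0

lemma exists_bump {η : ℝ} (hη : 0 < η) : ∃ w, Bump η w := by
  let f : ContDiffBump (0 : ℝ) := ⟨η / 2, η, by positivity, by linarith⟩
  have hcd : ContDiff ℝ (⊤ : ℕ∞) fun u => ((f u : ℝ) : ℂ) :=
    Complex.ofRealCLM.contDiff.comp f.contDiff
  have hcs : HasCompactSupport fun u => ((f u : ℝ) : ℂ) := by
    have := f.hasCompactSupport
    exact this.comp_left (g := fun r : ℝ => (r : ℂ)) Complex.ofReal_zero
  have hfour : Integrable (𝓕 fun u => ((f u : ℝ) : ℂ)) := by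
    have h1 := (𝓕 (hcs.toSchwartzMap hcd)).integrable (μ := volume)
    rw [SchwartzMap.fourier_coe] at h1
    exact h1
  refine ⟨fun u => f u, ⟨f.continuous, f.hasCompactSupport, fun u => f.nonneg, fun u => f.le_one,
    hfour⟩, ?_, ?_⟩
  · intro u hu
    refine f.one_of_mem_closedBall ?_
    rw [mem_closedBall_zero_iff, Real.norm_eq_abs]
    exact hu
  · intro u hu
    refine f.zero_of_le_dist ?_
    rw [dist_zero_right, Real.norm_eq_abs]
    exact hu

lemma Bump.integral_le {η : ℝ} {w : ℝ → ℝ} (hη : 0 < η) (hw : Bump η w) : ∫ u, w u ≤ 2 * η := by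
  have h1 : ∀ u, w u ≤ (Set.Icc (-η) η).indicator (fun _ => (1 : ℝ)) u := by
    intro u
    by_cases hu : u ∈ Set.Icc (-η) η
    · rw [Set.indicator_of_mem hu]
      exact hw.le_one u
    · rw [Set.indicator_of_notMem hu]
      refine (hw.zero u ?_).le
      by_contra h
      rw [not_le, abs_lt] at h
      exact hu ⟨h.1.le, h.2.le⟩
  have h2 : Integrable ((Set.Icc (-η) η).indicator (fun _ => (1 : ℝ))) := by
    rw [integrable_indicator_iff measurableSet_Icc]
    exact integrableOn_const (by simp)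
  refine (integral_mono hw.int h2 h1).trans_eq ?_
  rw [integral_indicator measurableSet_Icc]
  simp
  rw [max_eq_left (by linarith)]
  ring

/-- the one-dimensional lower bound -/
lemma one_dim {k P : ℕ} {η M : ℝ} {w : ℝ → ℝ} (hk : 1 ≤ k) (hP : 1 ≤ P) (hη : 0 < η)
    (hη1 : η ≤ 1) (hw : Bump η w) (hM1 : 2 * (P : ℝ) ^ k ≤ M) (hM2 : M ≤ (4 * P : ℝ) ^ k) :
    η / (2 * k * (4 * P : ℝ) ^ (k - 1)) ≤ ∫ y in (P : ℝ)..(4 * P), w (M - y ^ k) := by
  have hP1 : (1 : ℝ) ≤ P := by exact_mod_cast hP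
  have hP0 : (0 : ℝ) < P := by linarith
  have hk1 : (1 : ℝ) ≤ k := by exact_mod_cast hk
  have hPk : (1 : ℝ) ≤ (P : ℝ) ^ k := one_le_pow₀ hP1
  have hM0 : 0 ≤ M := by linarith
  set y1 : ℝ := M ^ ((k : ℝ)⁻¹) with hy1
  have hy1k : y1 ^ k = M := Real.rpow_inv_natCast_pow hM0 (by omega)
  have hy10 : 0 ≤ y1 := Real.rpow_nonneg hM0 _
  set δ := η / (2 * k * (4 * P : ℝ) ^ (k - 1)) with hδ
  have h4 : (1 : ℝ) ≤ (4 * P : ℝ) ^ (k - 1) := one_le_pow₀ (by linarith)
  have hδ0 : 0 < δ := by positivity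
  have hδ1 : δ ≤ 1 / 2 := by
    rw [hδ, div_le_div_iff₀ (by positivity) (by norm_num)]
    nlinarith
  have hy1P : (P : ℝ) ≤ y1 := by
    refine le_of_pow_le_pow_left₀ (by omega : k ≠ 0) hy10 ?_
    rw [hy1k]
    linarith
  have hy14 : y1 ≤ 4 * P := by
    refine le_of_pow_le_pow_left₀ (by omega : k ≠ 0) (by positivity) ?_
    rw [hy1k]
    exact hM2
  have hdiff : ∀ y, y1 - δ ≤ y → y ≤ y1 → 0 ≤ y → y1 ^ k - y ^ k ≤ η / 2 := by
    intro y h1 h2 h3
    have h5 := pow_sub_pow_le' h3 h2 k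
    refine h5.trans ?_
    have h6 : y1 ^ (k - 1) ≤ (4 * P : ℝ) ^ (k - 1) := pow_le_pow_left₀ hy10 hy14 _
    calc k * (y1 - y) * y1 ^ (k - 1) ≤ k * δ * (4 * P : ℝ) ^ (k - 1) := by
          refine mul_le_mul ?_ h6 (by positivity) (by positivity)
          exact mul_le_mul_of_nonneg_left (by linarith) (by positivity)
      _ = η / 2 := by
          rw [hδ]
          field_simp
  have ha : (P : ℝ) ≤ y1 - δ := by
    refine le_of_pow_le_pow_left₀ (by omega : k ≠ 0) (by linarith) ?_
    have h5 := hdiff (y1 - δ) le_rfl (by linarith) (by linarith)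
    rw [hy1k] at h5
    linarith
  have hint : ∀ a b : ℝ, IntervalIntegrable (fun y => w (M - y ^ k)) volume a b := by
    intro a b
    exact (hw.cont.comp (by fun_prop)).intervalIntegrable _ _
  calc δ = ∫ _y in (y1 - δ)..y1, (1 : ℝ) := by simp
    _ ≤ ∫ y in (y1 - δ)..y1, w (M - y ^ k) := by
        refine intervalIntegral.integral_mono_on (by linarith) (by simp) (hint _ _) ?_
        intro y hy
        rw [hw.one]
        have h5 := hdiff y hy.1 hy.2 (by linarith [hy.1])
        have h6 : y ^ k ≤ y1 ^ k := pow_le_pow_left₀ (by linarith [hy.1]) hy.2 _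
        rw [hy1k] at h5 h6
        rw [abs_of_nonneg (by linarith)]
        linarith
    _ ≤ ∫ y in (P : ℝ)..(4 * P), w (M - y ^ k) := by
        refine intervalIntegral.integral_mono_interval ha (by linarith) hy14 ?_ (hint _ _)
        exact Filter.Eventually.of_forall fun y => hw.nonneg _

lemma νn_eq (n : ℕ) : νn n =
    (volume : Measure (Fin n → ℝ)).restrict (Set.pi univ fun _ => Set.Icc (0 : ℝ) 1) := by
  unfold νn ν1
  rw [volume_pi, Measure.restrict_pi_pi]

lemma ae_νn (n : ℕ) : ∀ᵐ α ∂(νn n), ∀ i, α i ∈ Set.Icc (0 : ℝ) 1 := by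
  rw [νn_eq]
  have h := ae_restrict_mem (μ := (volume : Measure (Fin n → ℝ)))
    (s := Set.pi univ fun _ => Set.Icc (0 : ℝ) 1)
    (MeasurableSet.univ_pi fun _ => measurableSet_Icc)
  filter_upwards [h] with α hα i
  exact hα i (mem_univ i)

lemma sum_unit_Ico {f : ℝ → ℝ} (hf : Continuous f) (P : ℕ) :
    ∑ x ∈ Finset.Ico P (4 * P), ∫ t in (0 : ℝ)..1, f (x + t) = ∫ y in (P : ℝ)..(4 * P), f y := by
  rw [Finset.sum_Ico_eq_sum_range]
  have e : 4 * P - P = 3 * P := by omega
  rw [e]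
  have h := sum_unit hf (P : ℝ) (3 * P)
  have e2 : (P : ℝ) + ((3 * P : ℕ) : ℝ) = 4 * P := by
    push_cast
    ring
  rw [e2] at h
  rw [← h]
  refine Finset.sum_congr rfl fun i _ => ?_
  push_cast
  rfl

/-- the `t`-average of the weighted number of representations -/
lemma inner_avg {k m P : ℕ} {w : ℝ → ℝ} (hw : Wt w) (N : ℝ) (α : Fin m → ℝ) :
    ∫ t, rr (box (m + 1) P) (sx k (m + 1)) w (Fin.cons t α) N ∂ν1 =
      ∑ x ∈ box m P, ∫ y in (P : ℝ)..(4 * P), w ((N - sx k m x α) - y ^ k) := by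
  rw [integral_ν1]
  unfold rr
  simp only [sum_box, sx_cons]
  have hc : ∀ (x : Fin m → ℕ), Continuous fun y : ℝ => w ((N - sx k m x α) - y ^ k) :=
    fun x => hw.cont.comp (by fun_prop)
  rw [intervalIntegral.integral_finsetSum]
  · refine Finset.sum_congr rfl fun x _ => ?_
    rw [intervalIntegral.integral_finsetSum]
    · rw [← sum_unit_Ico (hc x)]
      refine Finset.sum_congr rfl fun x0 _ => ?_
      refine intervalIntegral.integral_congr fun t _ => ?_
      congr 1
      ring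
    · intro x0 _
      exact (hw.cont.comp (by fun_prop)).intervalIntegrable _ _
  · intro x _
    refine (continuous_finsetSum _ fun x0 _ => ?_).intervalIntegrable _ _
    exact hw.cont.comp (by fun_prop)

lemma pow_half {k : ℕ} (hk : 1 ≤ k) : (1 + 1 / (2 * (k : ℝ))) ^ k ≤ 2 := by
  have hk0 : (0 : ℝ) < k := by exact_mod_cast hk
  have h1 : 1 + 1 / (2 * (k : ℝ)) ≤ Real.exp (1 / (2 * k)) := by
    have := Real.add_one_le_exp (1 / (2 * (k : ℝ)))
    linarith
  have h2 : (1 + 1 / (2 * (k : ℝ))) ^ k ≤ Real.exp (1 / (2 * k)) ^ k :=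
    pow_le_pow_left₀ (by positivity) h1 k
  refine h2.trans ?_
  rw [← Real.exp_nat_mul]
  have e : (k : ℝ) * (1 / (2 * k)) = 1 / 2 := by field_simp
  rw [e]
  have h3 : Real.exp (1 / 2) ^ 2 = Real.exp 1 := by
    rw [← Real.exp_nat_mul]
    congr 1
    norm_num
  have h4 := Real.exp_one_lt_d9
  refine le_of_pow_le_pow_left₀ (two_ne_zero) (by norm_num) ?_
  rw [h3]
  linarith

/-- **Lower bound for the main term.** -/
theorem VV_lower {k m P : ℕ} {η N : ℝ} {w : ℝ → ℝ} (hk : 1 ≤ k) (hP : 2 * k ≤ P) (hη : 0 < η)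
    (hη1 : η ≤ 1) (hw : Bump η w) (hN1 : 2 * ((m : ℝ) + 1) * (P : ℝ) ^ k ≤ N)
    (hN2 : N ≤ (4 * P : ℝ) ^ k) :
    ((P : ℝ) / (4 * k)) ^ m * (η / (2 * k * (4 * P : ℝ) ^ (k - 1))) ≤
      VV (νn (m + 1)) (box (m + 1) P) (sx k (m + 1)) w N := by
  have hP1 : 1 ≤ P := by omega
  have hPr : (1 : ℝ) ≤ P := by exact_mod_cast hP1
  have hk0 : (0 : ℝ) < k := by exact_mod_cast hk
  unfold VV
  rw [integral_cons (integrable_rr_left hw.toWt (measurable_sx k (m + 1)) N)]
  simp only [inner_avg hw.toWt]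
  set δ := η / (2 * k * (4 * P : ℝ) ^ (k - 1)) with hδ
  have hδ0 : 0 ≤ δ := by positivity
  set Q := P / (2 * k) with hQ
  have hQ1 : 1 ≤ Q := (Nat.one_le_div_iff (by omega)).2 hP
  have hQP : (Q : ℝ) ≤ P / (2 * k) := by
    have h := Nat.cast_div_le (m := P) (n := 2 * k) (α := ℝ)
    push_cast at h
    exact h
  have hQ2 : (P : ℝ) / (4 * k) ≤ Q := by
    have h1 : P < 2 * k * (Q + 1) := by
      have := Nat.lt_mul_div_succ P (by omega : 0 < 2 * k)
      simpa [hQ] using this
    have h2 : P ≤ 4 * k * Q := by nlinarith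
    rw [div_le_iff₀ (by positivity)]
    have h3 : (P : ℝ) ≤ 4 * k * Q := by exact_mod_cast h2
    linarith
  set small : Finset (Fin m → ℕ) := Fintype.piFinset fun _ => Finset.Ico P (P + Q) with hsmall
  have hsub : small ⊆ box m P := by
    intro x hx
    rw [hsmall, Fintype.mem_piFinset] at hx
    unfold box
    rw [Fintype.mem_piFinset]
    intro i
    have h1 := hx i
    rw [Finset.mem_Ico] at h1 ⊢
    have h2 : Q ≤ P := Nat.div_le_self _ _
    omega
  have hcard : (small.card : ℝ) = (Q : ℝ) ^ m := by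
    rw [hsmall, Fintype.card_piFinset]
    simp
  have hHnn : ∀ M : ℝ, 0 ≤ ∫ y in (P : ℝ)..(4 * P), w (M - y ^ k) := by
    intro M
    refine intervalIntegral.integral_nonneg (by linarith) fun y _ => hw.nonneg _
  have hkey : ∀ᵐ α ∂(νn m), (P / (4 * k) : ℝ) ^ m * δ ≤
      ∑ x ∈ box m P, ∫ y in (P : ℝ)..(4 * P), w ((N - sx k m x α) - y ^ k) := by
    filter_upwards [ae_νn m] with α hα
    calc (P / (4 * k) : ℝ) ^ m * δ ≤ (Q : ℝ) ^ m * δ := by
          refine mul_le_mul_of_nonneg_right ?_ hδ0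
          exact pow_le_pow_left₀ (by positivity) hQ2 m
      _ = ∑ _x ∈ small, δ := by
          rw [Finset.sum_const, nsmul_eq_mul, hcard]
      _ ≤ ∑ x ∈ small, ∫ y in (P : ℝ)..(4 * P), w ((N - sx k m x α) - y ^ k) := by
          refine Finset.sum_le_sum fun x hx => ?_
          have hs0 : 0 ≤ sx k m x α := by
            unfold sx
            refine Finset.sum_nonneg fun i _ => ?_
            have := (hα i).1
            positivity
          have hs1 : sx k m x α ≤ m * (2 * (P : ℝ) ^ k) := by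
            unfold sx
            calc ∑ i, ((x i : ℝ) + α i) ^ k ≤ ∑ _i : Fin m, 2 * (P : ℝ) ^ k := by
                  refine Finset.sum_le_sum fun i _ => ?_
                  have h1 : (x i : ℝ) + α i ≤ P * (1 + 1 / (2 * k)) := by
                    have h2 := (hα i).2
                    rw [hsmall, Fintype.mem_piFinset] at hx
                    have h3 := hx i
                    rw [Finset.mem_Ico] at h3
                    have h4 : x i + 1 ≤ P + Q := h3.2
                    have h5 : (x i : ℝ) + 1 ≤ P + Q := by exact_mod_cast h4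
                    have h6 : (P : ℝ) * (1 + 1 / (2 * k)) = P + P / (2 * k) := by ring
                    rw [h6]
                    linarith
                  calc ((x i : ℝ) + α i) ^ k ≤ (P * (1 + 1 / (2 * k))) ^ k := by
                        have := (hα i).1
                        exact pow_le_pow_left₀ (by positivity) h1 k
                    _ = (P : ℝ) ^ k * (1 + 1 / (2 * k)) ^ k := mul_pow _ _ _
                    _ ≤ (P : ℝ) ^ k * 2 :=
                        mul_le_mul_of_nonneg_left (pow_half hk) (by positivity)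
                    _ = 2 * (P : ℝ) ^ k := by ring
              _ = m * (2 * (P : ℝ) ^ k) := by simp
          refine one_dim hk hP1 hη hη1 hw ?_ ?_
          · nlinarith
          · linarith
      _ ≤ _ := Finset.sum_le_sum_of_subset_of_nonneg hsub fun x _ _ => hHnn _
  have hconst : ∫ _α : Fin m → ℝ, (P / (4 * k) : ℝ) ^ m * δ ∂(νn m) = (P / (4 * k) : ℝ) ^ m * δ := by
    simp
  rw [← hconst]
  refine integral_mono_ae (integrable_const _) ?_ hkey
  have h1 := (mp_cons m).integrable_comp_of_integrable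
    (integrable_rr_left (F := box (m + 1) P) hw.toWt (measurable_sx k (m + 1)) N)
  have h2 := h1.integral_prod_right
  simp only [Function.comp_def, inner_avg hw.toWt] at h2
  exact h2

end Pool.Agent.Q154.War
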