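import Pool.Agent.Q154.War.DimA
import Pool.Agent.Q154.War.Low

/-!
# The exceptional set of shifts: the integral of the majorant and the deterministic bound
-/

set_option autoImplicit false
set_option linter.unusedSectionVars false

open MeasureTheory Set Finset FourierTransform
open scoped Real

namespace Pool.Agent.Q154.War

/-- bumps of any width with transforms bounded in `L^1` -/
lemma exists_bumps : ∃ C0 : ℝ, 0 < C0 ∧ ∀ η : ℝ, 0 < η →
    ∃ w, Bump η w ∧ ∫ θ, ‖𝓕 (fun u => (w u : ℂ)) θ‖ ≤ C0 := by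
  obtain ⟨w1, h1⟩ := exists_bump (η := 1) one_pos
  have hnn : 0 ≤ ∫ θ, ‖𝓕 (fun u => (w1 u : ℂ)) θ‖ := integral_nonneg fun θ => norm_nonneg _
  refine ⟨(∫ θ, ‖𝓕 (fun u => (w1 u : ℂ)) θ‖) + 1, by linarith, ?_⟩
  intro η hη
  have habs : ∀ u : ℝ, |u / η| = |u| / η := fun u => by rw [abs_div, abs_of_pos hη]
  have hfour : ∀ θ, 𝓕 (fun u => ((w1 (u / η) : ℝ) : ℂ)) θ =
      η * 𝓕 (fun u => (w1 u : ℂ)) (η * θ) := by
    intro θ
    rw [fourier_ee, fourier_ee]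
    have h2 := Measure.integral_comp_div (fun v : ℝ => ee (-(v * (η * θ))) * (w1 v : ℂ)) η
    rw [abs_of_pos hη] at h2
    have h3 : ∀ v : ℝ, ee (-(v / η * (η * θ))) * (w1 (v / η) : ℂ) =
        ee (-(v * θ)) * ((w1 (v / η) : ℝ) : ℂ) := by
      intro v
      congr 2
      field_simp
    simp only [h3] at h2
    rw [h2, Complex.real_smul]
  have hzero : ∀ u : ℝ, η ≤ |u| → w1 (u / η) = 0 := by
    intro u hu
    refine h1.zero _ ?_
    rw [habs, le_div_iff₀ hη, one_mul]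
    exact hu
  have heq : (𝓕 fun u => ((w1 (u / η) : ℝ) : ℂ)) =
      fun θ => η * 𝓕 (fun u => (w1 u : ℂ)) (η * θ) := by
    funext θ
    exact hfour θ
  refine ⟨fun u => w1 (u / η), ⟨⟨?_, ?_, ?_, ?_, ?_⟩, ?_, hzero⟩, ?_⟩
  · exact h1.cont.comp (by fun_prop)
  · refine HasCompactSupport.intro (isCompact_Icc (a := -η) (b := η)) fun u hu => hzero u ?_
    by_contra hcon
    rw [not_le, abs_lt] at hcon
    exact hu ⟨hcon.1.le, hcon.2.le⟩
  · exact fun u => h1.nonneg _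
  · exact fun u => h1.le_one _
  · rw [heq]
    exact (h1.four.comp_mul_left' hη.ne').const_mul _
  · intro u hu
    refine h1.one _ ?_
    rw [habs, div_le_iff₀ hη]
    linarith
  · simp only [hfour, norm_mul, Complex.norm_real, Real.norm_eq_abs, abs_of_pos hη]
    rw [integral_const_mul, Measure.integral_comp_mul_left
      (fun y : ℝ => ‖𝓕 (fun u => (w1 u : ℂ)) y‖) η, abs_of_pos (by positivity), smul_eq_mul,
      ← mul_assoc, mul_inv_cancel₀ hη.ne', one_mul]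
    linarith

/-- the majorant of the square root of the mean square -/
noncomputable def gB (k n P : ℕ) (θ : ℝ) : ℝ :=
  √((2 * Kc P) ^ n) * (√((P : ℝ) ^ n) + (P : ℝ) ^ n / √((1 + |θ| * (P : ℝ) ^ k) ^ n))

lemma base_ge_one (k P : ℕ) (θ : ℝ) : 1 ≤ 1 + |θ| * (P : ℝ) ^ k := by
  have : 0 ≤ |θ| * (P : ℝ) ^ k := by positivity
  linarith

lemma sqrt_base_ge (k n P : ℕ) (θ : ℝ) : 1 ≤ √((1 + |θ| * (P : ℝ) ^ k) ^ n) := by
  rw [Real.one_le_sqrt]
  exact one_le_pow₀ (base_ge_one k P θ)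

lemma continuous_gB (k n P : ℕ) : Continuous (gB k n P) := by
  unfold gB
  refine continuous_const.mul (continuous_const.add (continuous_const.div ?_ ?_))
  · fun_prop
  · intro θ
    have := sqrt_base_ge k n P θ
    positivity

lemma one_le_gB {k n P : ℕ} (hP : 1 ≤ P) (θ : ℝ) : 1 ≤ gB k n P θ := by
  have hP' : (1 : ℝ) ≤ P := by exact_mod_cast hP
  have hK := Kc_ge hP
  have h1 : 1 ≤ √((2 * Kc P) ^ n) := by
    rw [Real.one_le_sqrt]
    exact one_le_pow₀ (by linarith)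
  have h2 : 1 ≤ √((P : ℝ) ^ n) := by
    rw [Real.one_le_sqrt]
    exact one_le_pow₀ hP'
  have h3 : 0 ≤ (P : ℝ) ^ n / √((1 + |θ| * (P : ℝ) ^ k) ^ n) := by positivity
  unfold gB
  nlinarith

lemma gB_le {k n P : ℕ} (θ : ℝ) :
    gB k n P θ ≤ √((2 * Kc P) ^ n) * (√((P : ℝ) ^ n) + (P : ℝ) ^ n) := by
  unfold gB
  refine mul_le_mul_of_nonneg_left ?_ (Real.sqrt_nonneg _)
  refine add_le_add le_rfl ?_
  exact div_le_self (by positivity) (sqrt_base_ge k n P θ)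

lemma Am_pow_le {k n P : ℕ} (hk : 2 ≤ k) (hP : 1 ≤ P) (θ : ℝ) :
    Am k P θ ^ n ≤ gB k n P θ ^ 2 := by
  have hP0 : (0 : ℝ) < P := by exact_mod_cast hP
  have hK := Kc_ge hP
  have hu := base_ge_one k P θ
  set u1 := 1 + |θ| * (P : ℝ) ^ k with hu1
  have h1 : Am k P θ ≤ Kc P * (P + (P : ℝ) ^ 2 / u1) := Am_le hk hP θ
  have h2 : Am k P θ ^ n ≤ (Kc P * (P + (P : ℝ) ^ 2 / u1)) ^ n :=
    pow_le_pow_left₀ (Am_nonneg k P θ) h1 n
  refine h2.trans ?_
  have h3 : ((P : ℝ) + (P : ℝ) ^ 2 / u1) ^ n ≤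
      2 ^ n * ((P : ℝ) ^ n + ((P : ℝ) ^ 2 / u1) ^ n) := by
    have h4 := add_pow_le (a := (P : ℝ)) (b := (P : ℝ) ^ 2 / u1) (by positivity) (by positivity) n
    refine h4.trans (mul_le_mul_of_nonneg_right ?_ (by positivity))
    exact pow_le_pow_right₀ (by norm_num) (Nat.sub_le n 1)
  rw [mul_pow]
  have h5 : Kc P ^ n * ((P : ℝ) + (P : ℝ) ^ 2 / u1) ^ n ≤
      (2 * Kc P) ^ n * ((P : ℝ) ^ n + ((P : ℝ) ^ 2 / u1) ^ n) := by
    calc Kc P ^ n * ((P : ℝ) + (P : ℝ) ^ 2 / u1) ^ n ≤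
        Kc P ^ n * (2 ^ n * ((P : ℝ) ^ n + ((P : ℝ) ^ 2 / u1) ^ n)) :=
          mul_le_mul_of_nonneg_left h3 (by positivity)
      _ = _ := by
          rw [mul_pow]
          ring
  refine h5.trans ?_
  unfold gB
  rw [mul_pow (√((2 * Kc P) ^ n)), Real.sq_sqrt (by positivity), ← hu1]
  refine mul_le_mul_of_nonneg_left ?_ (by positivity)
  have h6 : √((P : ℝ) ^ n) ^ 2 = (P : ℝ) ^ n := Real.sq_sqrt (by positivity)
  have h7 : √(u1 ^ n) ^ 2 = u1 ^ n := Real.sq_sqrt (by positivity)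
  have h8 : ((P : ℝ) ^ 2 / u1) ^ n = ((P : ℝ) ^ n / √(u1 ^ n)) ^ 2 := by
    rw [div_pow, div_pow, h7, ← pow_mul, ← pow_mul, mul_comm 2 n]
  rw [h8]
  have h9 : 0 ≤ √((P : ℝ) ^ n) := Real.sqrt_nonneg _
  have h10 : 0 ≤ (P : ℝ) ^ n / √(u1 ^ n) := by positivity
  nlinarith [mul_nonneg h9 h10]

lemma sq_div_le {n : ℕ} (hn : 7 ≤ n) {u : ℝ} (hu : 0 ≤ u) :
    u ^ 2 / √((1 + u) ^ n) ≤ (1 + u) ^ (-(1 + (1 / 2 : ℝ))) := by
  have h1 : 0 < 1 + u := by linarith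
  have h2 : √((1 + u) ^ 7) ≤ √((1 + u) ^ n) :=
    Real.sqrt_le_sqrt (pow_le_pow_right₀ (by linarith) hn)
  have h3 : √((1 + u) ^ 7) = (1 + u) ^ (7 / 2 : ℝ) := by
    rw [Real.sqrt_eq_rpow, ← Real.rpow_natCast, ← Real.rpow_mul h1.le]
    norm_num
  have h4 : 0 < √((1 + u) ^ n) := by positivity
  rw [div_le_iff₀ h4]
  have h5 : (1 + u) ^ (-(1 + (1 / 2 : ℝ))) * (1 + u) ^ (7 / 2 : ℝ) = (1 + u) ^ 2 := by
    rw [← Real.rpow_add h1]
    norm_num
  calc u ^ 2 ≤ (1 + u) ^ 2 := pow_le_pow_left₀ hu (by linarith) 2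
    _ = (1 + u) ^ (-(1 + (1 / 2 : ℝ))) * (1 + u) ^ (7 / 2 : ℝ) := h5.symm
    _ ≤ (1 + u) ^ (-(1 + (1 / 2 : ℝ))) * √((1 + u) ^ n) := by
        rw [← h3]
        exact mul_le_mul_of_nonneg_left h2 (Real.rpow_nonneg h1.le _)

/-- the length of the intervals -/
noncomputable def Ll (k P : ℕ) : ℝ := 2 * k * (4 * (P : ℝ)) ^ (k - 1)

/-- its constant -/
noncomputable def ll (k : ℕ) : ℝ := 2 * k * 4 ^ (k - 1)

lemma Ll_eq (k P : ℕ) : Ll k P = ll k * (P : ℝ) ^ (k - 1) := by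
  unfold Ll ll
  rw [mul_pow]
  ring

lemma mL_Ll {k P : ℕ} (hk : 1 ≤ k) (hP : 1 ≤ P) (θ : ℝ) :
    mL (Ll k P) θ ≤ 20 * ll k ^ 2 / (P : ℝ) ^ 2 * (|θ| * (P : ℝ) ^ k) ^ 2 := by
  have hP0 : (0 : ℝ) < P := by exact_mod_cast hP
  refine (mL_le_sq _ _).trans (le_of_eq ?_)
  rw [Ll_eq, mul_pow |θ|, sq_abs]
  obtain ⟨l, rfl⟩ : ∃ l, k = l + 1 := ⟨k - 1, by omega⟩
  rw [Nat.add_sub_cancel]
  field_simp
  ring

/-- the bound for the integral of the majorant -/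
noncomputable def AA (k n P : ℕ) (C0 η : ℝ) : ℝ :=
  √((2 * Kc P) ^ n) * (2 * √((P : ℝ) ^ n) * C0 +
    2 * η * ((P : ℝ) ^ n * (20 * ll k ^ 2 / (P : ℝ) ^ 2) * (K2 (1 / 2) / (P : ℝ) ^ k)))

lemma K2_nonneg (s : ℝ) : 0 ≤ K2 s := by
  unfold K2
  exact integral_nonneg fun θ => by positivity

lemma int_mg_le {k n P : ℕ} {C0 η : ℝ} {w : ℝ → ℝ} (hk : 2 ≤ k) (hn : 7 ≤ n) (hP : 1 ≤ P)
    (hη : 0 < η) (hw : Bump η w) (hC0 : ∫ θ, ‖𝓕 (fun u => (w u : ℂ)) θ‖ ≤ C0) :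
    ∫ θ, ‖𝓕 (fun u => (w u : ℂ)) θ‖ * mL (Ll k P) θ * gB k n P θ ≤ AA k n P C0 η := by
  have hP0 : (0 : ℝ) < P := by exact_mod_cast hP
  have hX : (0 : ℝ) < (P : ℝ) ^ k := by positivity
  set W := ∫ u, w u with hW
  have hW0 : 0 ≤ W := integral_nonneg fun u => hw.nonneg u
  have hWη : W ≤ 2 * η := hw.integral_le hη
  set φ : ℝ → ℝ := fun θ => ‖𝓕 (fun u => (w u : ℂ)) θ‖ with hφ
  set κ := √((2 * Kc P) ^ n) with hκ
  have hκ0 : 0 ≤ κ := Real.sqrt_nonneg _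
  have hb : ∀ θ, φ θ * mL (Ll k P) θ * gB k n P θ ≤ κ * (2 * √((P : ℝ) ^ n)) * φ θ +
      κ * (W * ((P : ℝ) ^ n * (20 * ll k ^ 2 / (P : ℝ) ^ 2))) *
        (1 + |θ| * (P : ℝ) ^ k) ^ (-(1 + (1 / 2 : ℝ))) := by
    intro θ
    have h1 := mL_nonneg (Ll k P) θ
    have h2 := mL_le_two (Ll k P) θ
    have h3 := mL_Ll (k := k) (by omega) hP θ
    have hu : 0 ≤ |θ| * (P : ℝ) ^ k := by positivity
    have h4 := sq_div_le hn hu
    have h5 : 0 < √((1 + |θ| * (P : ℝ) ^ k) ^ n) := by positivity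
    have h6 : φ θ ≤ W := norm_four_le hw.toWt θ
    have h7 : 0 ≤ φ θ := norm_nonneg _
    have e1 : φ θ * mL (Ll k P) θ * √((P : ℝ) ^ n) ≤ 2 * √((P : ℝ) ^ n) * φ θ := by
      have := mul_le_mul_of_nonneg_left h2 h7
      have h8 : 0 ≤ √((P : ℝ) ^ n) := Real.sqrt_nonneg _
      nlinarith
    have e2 : mL (Ll k P) θ * ((P : ℝ) ^ n / √((1 + |θ| * (P : ℝ) ^ k) ^ n)) ≤
        (P : ℝ) ^ n * (20 * ll k ^ 2 / (P : ℝ) ^ 2) *
          (1 + |θ| * (P : ℝ) ^ k) ^ (-(1 + (1 / 2 : ℝ))) := by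
      calc mL (Ll k P) θ * ((P : ℝ) ^ n / √((1 + |θ| * (P : ℝ) ^ k) ^ n)) ≤
          (20 * ll k ^ 2 / (P : ℝ) ^ 2 * (|θ| * (P : ℝ) ^ k) ^ 2) *
            ((P : ℝ) ^ n / √((1 + |θ| * (P : ℝ) ^ k) ^ n)) :=
            mul_le_mul_of_nonneg_right h3 (by positivity)
        _ = (P : ℝ) ^ n * (20 * ll k ^ 2 / (P : ℝ) ^ 2) *
            ((|θ| * (P : ℝ) ^ k) ^ 2 / √((1 + |θ| * (P : ℝ) ^ k) ^ n)) := by ring
        _ ≤ _ := mul_le_mul_of_nonneg_left h4 (by positivity)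
    have e3 : φ θ * (mL (Ll k P) θ * ((P : ℝ) ^ n / √((1 + |θ| * (P : ℝ) ^ k) ^ n))) ≤
        W * ((P : ℝ) ^ n * (20 * ll k ^ 2 / (P : ℝ) ^ 2) *
          (1 + |θ| * (P : ℝ) ^ k) ^ (-(1 + (1 / 2 : ℝ)))) := by
      refine mul_le_mul h6 e2 ?_ hW0
      positivity
    have e4 : φ θ * mL (Ll k P) θ * gB k n P θ = κ * (φ θ * mL (Ll k P) θ * √((P : ℝ) ^ n) +
        φ θ * (mL (Ll k P) θ * ((P : ℝ) ^ n / √((1 + |θ| * (P : ℝ) ^ k) ^ n)))) := by
      unfold gB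
      rw [← hκ]
      ring
    rw [e4]
    refine (mul_le_mul_of_nonneg_left (add_le_add e1 e3) hκ0).trans (le_of_eq ?_)
    ring
  have hi1 : Integrable fun θ => κ * (2 * √((P : ℝ) ^ n)) * φ θ := hw.four.norm.const_mul _
  have hi2 := (integrable_scaled (s := 1 / 2) (by norm_num) hX).const_mul
    (κ * (W * ((P : ℝ) ^ n * (20 * ll k ^ 2 / (P : ℝ) ^ 2))))
  have h7 : ∫ θ, φ θ * mL (Ll k P) θ * gB k n P θ ≤
      ∫ θ, (κ * (2 * √((P : ℝ) ^ n)) * φ θ +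
      κ * (W * ((P : ℝ) ^ n * (20 * ll k ^ 2 / (P : ℝ) ^ 2))) *
        (1 + |θ| * (P : ℝ) ^ k) ^ (-(1 + (1 / 2 : ℝ)))) := by
    refine integral_mono_of_nonneg (Filter.Eventually.of_forall fun θ => ?_) (hi1.add hi2)
      (Filter.Eventually.of_forall hb)
    have h1 := mL_nonneg (Ll k P) θ
    have h2 := one_le_gB (k := k) (n := n) hP θ
    have h3 : 0 ≤ φ θ := norm_nonneg _
    simp only [Pi.zero_apply]
    exact mul_nonneg (mul_nonneg h3 h1) (by linarith)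
  refine h7.trans ?_
  rw [integral_add hi1 hi2, integral_const_mul, integral_const_mul, integral_scaled hX]
  unfold AA
  rw [← hκ]
  have e5 : κ * (2 * √((P : ℝ) ^ n)) * ∫ θ, φ θ ≤ κ * (2 * √((P : ℝ) ^ n)) * C0 :=
    mul_le_mul_of_nonneg_left hC0 (by positivity)
  have e6 : κ * (W * ((P : ℝ) ^ n * (20 * ll k ^ 2 / (P : ℝ) ^ 2))) * (K2 (1 / 2) / (P : ℝ) ^ k) ≤
      κ * (2 * η * ((P : ℝ) ^ n * (20 * ll k ^ 2 / (P : ℝ) ^ 2))) *
        (K2 (1 / 2) / (P : ℝ) ^ k) := by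
    have hK := K2_nonneg (1 / 2)
    refine mul_le_mul_of_nonneg_right ?_ (by positivity)
    refine mul_le_mul_of_nonneg_left ?_ hκ0
    exact mul_le_mul_of_nonneg_right hWη (by positivity)
  refine (add_le_add e5 e6).trans (le_of_eq ?_)
  ring

/-- the last variable: consecutive powers are close to each other -/
lemma exists_last {k P : ℕ} (hk : 1 ≤ k) (hP : 2 * k ≤ P) {t M : ℝ} (ht0 : 0 ≤ t) (ht1 : t ≤ 1)
    (hM1 : 2 * (P : ℝ) ^ k ≤ M) (hM2 : M < (4 * P : ℝ) ^ k) :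
    ∃ x0 ∈ Finset.Ico P (4 * P), |((x0 : ℝ) + t) ^ k - M| ≤ k * (4 * (P : ℝ)) ^ (k - 1) := by
  have hP1 : 1 ≤ P := by omega
  have hPr : (1 : ℝ) ≤ P := by exact_mod_cast hP1
  have hP0 : (0 : ℝ) < P := by linarith
  have hk0 : (0 : ℝ) < k := by exact_mod_cast hk
  have hM0 : 0 ≤ M := le_trans (by positivity) hM1
  set y1 : ℝ := M ^ ((k : ℝ)⁻¹) with hy1
  have hy1k : y1 ^ k = M := Real.rpow_inv_natCast_pow hM0 (by omega)
  have hy10 : 0 ≤ y1 := Real.rpow_nonneg hM0 _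
  have hy14 : y1 < 4 * P := by
    by_contra hcon
    push Not at hcon
    have := pow_le_pow_left₀ (by positivity) hcon k
    rw [hy1k] at this
    linarith
  have hy1P : (P : ℝ) + 1 ≤ y1 := by
    refine le_of_pow_le_pow_left₀ (by omega : k ≠ 0) hy10 ?_
    rw [hy1k]
    refine le_trans ?_ hM1
    have h1 : (P : ℝ) + 1 ≤ P * (1 + 1 / (2 * k)) := by
      have h2 : (2 * k : ℝ) ≤ P := by exact_mod_cast hP
      have h3 : 1 ≤ (P : ℝ) / (2 * k) := by
        rw [le_div_iff₀ (by positivity)]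
        linarith
      have h4 : (P : ℝ) * (1 + 1 / (2 * k)) = P + P / (2 * k) := by ring
      rw [h4]
      linarith
    calc ((P : ℝ) + 1) ^ k ≤ (P * (1 + 1 / (2 * k))) ^ k := pow_le_pow_left₀ (by positivity) h1 k
      _ = (P : ℝ) ^ k * (1 + 1 / (2 * k)) ^ k := mul_pow _ _ _
      _ ≤ (P : ℝ) ^ k * 2 := mul_le_mul_of_nonneg_left (pow_half hk) (by positivity)
      _ = 2 * (P : ℝ) ^ k := by ring
  have hyt : (P : ℝ) ≤ y1 - t := by linarith
  refine ⟨⌊y1 - t⌋₊, ?_, ?_⟩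
  · rw [Finset.mem_Ico]
    constructor
    · exact Nat.le_floor hyt
    · rw [Nat.floor_lt (by linarith)]
      push_cast
      linarith
  · have h1 : ((⌊y1 - t⌋₊ : ℕ) : ℝ) ≤ y1 - t := Nat.floor_le (by linarith)
    have h2 : y1 - t < (⌊y1 - t⌋₊ : ℕ) + 1 := Nat.lt_floor_add_one _
    set x0 : ℝ := ((⌊y1 - t⌋₊ : ℕ) : ℝ) with hx0
    have hx00 : 0 ≤ x0 := Nat.cast_nonneg _
    have h3 : x0 + t ≤ y1 := by linarith
    have h4 := pow_sub_pow_le' (by linarith : 0 ≤ x0 + t) h3 k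
    have h5 : (x0 + t) ^ k ≤ y1 ^ k := pow_le_pow_left₀ (by linarith) h3 k
    rw [← hy1k, abs_sub_comm, abs_of_nonneg (by linarith)]
    refine h4.trans ?_
    have h6 : y1 ^ (k - 1) ≤ (4 * (P : ℝ)) ^ (k - 1) := pow_le_pow_left₀ hy10 hy14.le _
    calc k * (y1 - (x0 + t)) * y1 ^ (k - 1) ≤ k * 1 * (4 * (P : ℝ)) ^ (k - 1) := by
          refine mul_le_mul ?_ h6 (by positivity) (by positivity)
          exact mul_le_mul_of_nonneg_left (by linarith) hk0.le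
      _ = k * (4 * (P : ℝ)) ^ (k - 1) := by ring

lemma int_bump_ge {η : ℝ} {w : ℝ → ℝ} (hη : 0 < η) (hw : Bump η w) {a b s : ℝ}
    (ha : a ≤ s - η / 2) (hb : s + η / 2 ≤ b) : η ≤ ∫ y in a..b, w (y - s) := by
  have hint : ∀ a b : ℝ, IntervalIntegrable (fun y => w (y - s)) volume a b := fun a b =>
    (hw.cont.comp (by fun_prop)).intervalIntegrable _ _
  calc η = ∫ _y in (s - η / 2)..(s + η / 2), (1 : ℝ) := by simp
    _ ≤ ∫ y in (s - η / 2)..(s + η / 2), w (y - s) := by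
        refine intervalIntegral.integral_mono_on (by linarith) (by simp) (hint _ _) ?_
        intro y hy
        rw [hw.one]
        rw [abs_le]
        constructor <;> linarith [hy.1, hy.2]
    _ ≤ ∫ y in a..b, w (y - s) := by
        refine intervalIntegral.integral_mono_interval ha (by linarith) hb ?_ (hint _ _)
        exact Filter.Eventually.of_forall fun y => hw.nonneg _

/-- **The deterministic lower bound.** -/
theorem det_lower {k m P : ℕ} {η N : ℝ} {w : ℝ → ℝ} (hk : 1 ≤ k) (hP : 2 * k ≤ P) (hη : 0 < η)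
    (hη1 : η ≤ 1) (hw : Bump η w) (hN1 : 2 * ((m : ℝ) + 1) * (P : ℝ) ^ k ≤ N)
    (hN2 : N < (4 * P : ℝ) ^ k) {α : Fin (m + 1) → ℝ} (hα : ∀ i, α i ∈ Set.Icc (0 : ℝ) 1) :
    ((P : ℝ) / (4 * k)) ^ m * η ≤
      ∫ y in (N - Ll k P)..(N + Ll k P), rr (box (m + 1) P) (sx k (m + 1)) w α y := by
  classical
  have hP1 : 1 ≤ P := by omega
  have hPr : (1 : ℝ) ≤ P := by exact_mod_cast hP1
  have hk0 : (0 : ℝ) < k := by exact_mod_cast hk
  have hk1 : (1 : ℝ) ≤ k := by exact_mod_cast hk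
  set Q := P / (2 * k) with hQ
  have hQP : (Q : ℝ) ≤ P / (2 * k) := by
    have h := Nat.cast_div_le (m := P) (n := 2 * k) (α := ℝ)
    push_cast at h
    exact h
  have hQ1 : 1 ≤ Q := (Nat.one_le_div_iff (by omega)).2 hP
  have hQ2 : (P : ℝ) / (4 * k) ≤ Q := by
    have h1 : P < 2 * k * (Q + 1) := by
      have := Nat.lt_mul_div_succ P (by omega : 0 < 2 * k)
      simpa [hQ] using this
    have h2 : P ≤ 4 * k * Q := by nlinarith
    rw [div_le_iff₀ (by positivity)]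
    have h3 : (P : ℝ) ≤ 4 * k * Q := by exact_mod_cast h2
    linarith
  obtain ⟨t, β, rfl⟩ : ∃ (t : ℝ) (β : Fin m → ℝ), α = Fin.cons t β :=
    ⟨α 0, Fin.tail α, (Fin.cons_self_tail α).symm⟩
  have ht := hα 0
  rw [Fin.cons_zero] at ht
  have hβ : ∀ i, β i ∈ Set.Icc (0 : ℝ) 1 := by
    intro i
    have := hα i.succ
    rwa [Fin.cons_succ] at this
  set small : Finset (Fin m → ℕ) := Fintype.piFinset fun _ => Finset.Ico P (P + Q) with hsmall
  have hsub : small ⊆ box m P := by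
    intro x hx
    rw [hsmall, Fintype.mem_piFinset] at hx
    unfold box
    rw [Fintype.mem_piFinset]
    intro i
    have h1 := hx i
    rw [Finset.mem_Ico] at h1 ⊢
    have h2 : Q ≤ P := Nat.div_le_self _ _
    omega
  have hcard : (small.card : ℝ) = (Q : ℝ) ^ m := by
    rw [hsmall, Fintype.card_piFinset]
    simp
  have hL0 : 0 ≤ Ll k P := by
    unfold Ll
    positivity
  have hLbig : k * (4 * (P : ℝ)) ^ (k - 1) + η / 2 ≤ Ll k P := by
    unfold Ll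
    have h4 : (1 : ℝ) ≤ (4 * (P : ℝ)) ^ (k - 1) := one_le_pow₀ (by linarith)
    nlinarith
  have hint : ∀ (x0 : ℕ) (x : Fin m → ℕ), IntervalIntegrable
      (fun y => w (y - sx k (m + 1) (Fin.cons x0 x) (Fin.cons t β))) volume
        (N - Ll k P) (N + Ll k P) := fun x0 x =>
    (hw.cont.comp (by fun_prop)).intervalIntegrable _ _
  have hterm : ∀ x ∈ small, η ≤ ∑ x0 ∈ Finset.Ico P (4 * P),
      ∫ y in (N - Ll k P)..(N + Ll k P),
        w (y - sx k (m + 1) (Fin.cons x0 x) (Fin.cons t β)) := by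
    intro x hx
    have hs0 : 0 ≤ sx k m x β := by
      unfold sx
      refine Finset.sum_nonneg fun i _ => ?_
      have := (hβ i).1
      positivity
    have hs1 : sx k m x β ≤ m * (2 * (P : ℝ) ^ k) := by
      unfold sx
      calc ∑ i, ((x i : ℝ) + β i) ^ k ≤ ∑ _i : Fin m, 2 * (P : ℝ) ^ k := by
            refine Finset.sum_le_sum fun i _ => ?_
            have h1 : (x i : ℝ) + β i ≤ P * (1 + 1 / (2 * k)) := by
              have h2 := (hβ i).2
              rw [hsmall, Fintype.mem_piFinset] at hx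
              have h3 := hx i
              rw [Finset.mem_Ico] at h3
              have h4 : x i + 1 ≤ P + Q := h3.2
              have h5 : (x i : ℝ) + 1 ≤ P + Q := by exact_mod_cast h4
              have h6 : (P : ℝ) * (1 + 1 / (2 * k)) = P + P / (2 * k) := by ring
              rw [h6]
              linarith
            calc ((x i : ℝ) + β i) ^ k ≤ (P * (1 + 1 / (2 * k))) ^ k := by
                  have := (hβ i).1
                  exact pow_le_pow_left₀ (by positivity) h1 k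
              _ = (P : ℝ) ^ k * (1 + 1 / (2 * k)) ^ k := mul_pow _ _ _
              _ ≤ (P : ℝ) ^ k * 2 :=
                  mul_le_mul_of_nonneg_left (pow_half hk) (by positivity)
              _ = 2 * (P : ℝ) ^ k := by ring
        _ = m * (2 * (P : ℝ) ^ k) := by simp
    obtain ⟨x0, hx0, hclose⟩ := exists_last (t := t) (M := N - sx k m x β) hk hP ht.1 ht.2
      (by nlinarith) (by linarith)
    have hnn : ∀ x0 ∈ Finset.Ico P (4 * P), 0 ≤ ∫ y in (N - Ll k P)..(N + Ll k P),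
        w (y - sx k (m + 1) (Fin.cons x0 x) (Fin.cons t β)) := fun x0 _ =>
      intervalIntegral.integral_nonneg (by linarith) fun y _ => hw.nonneg _
    refine le_trans ?_ (Finset.single_le_sum hnn hx0)
    rw [sx_cons]
    rw [abs_le] at hclose
    refine int_bump_ge hη hw ?_ ?_
    · linarith [hclose.1, hclose.2]
    · linarith [hclose.1, hclose.2]
  have hrr : ∫ y in (N - Ll k P)..(N + Ll k P),
      rr (box (m + 1) P) (sx k (m + 1)) w (Fin.cons t β) y =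
      ∑ x ∈ box m P, ∑ x0 ∈ Finset.Ico P (4 * P), ∫ y in (N - Ll k P)..(N + Ll k P),
        w (y - sx k (m + 1) (Fin.cons x0 x) (Fin.cons t β)) := by
    unfold rr
    simp only [sum_box]
    rw [intervalIntegral.integral_finsetSum]
    · refine Finset.sum_congr rfl fun x _ => ?_
      rw [intervalIntegral.integral_finsetSum]
      intro x0 _
      exact hint x0 x
    · intro x _
      refine (continuous_finsetSum _ fun x0 _ => ?_).intervalIntegrable _ _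
      exact hw.cont.comp (by fun_prop)
  rw [hrr]
  calc ((P : ℝ) / (4 * k)) ^ m * η ≤ (Q : ℝ) ^ m * η := by
        refine mul_le_mul_of_nonneg_right ?_ hη.le
        exact pow_le_pow_left₀ (by positivity) hQ2 m
    _ = ∑ _x ∈ small, η := by
        rw [Finset.sum_const, nsmul_eq_mul, hcard]
    _ ≤ ∑ x ∈ small, ∑ x0 ∈ Finset.Ico P (4 * P), ∫ y in (N - Ll k P)..(N + Ll k P),
          w (y - sx k (m + 1) (Fin.cons x0 x) (Fin.cons t β)) := Finset.sum_le_sum hterm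
    _ ≤ _ := by
        refine Finset.sum_le_sum_of_subset_of_nonneg hsub fun x _ _ => ?_
        refine Finset.sum_nonneg fun x0 _ => ?_
        exact intervalIntegral.integral_nonneg (by linarith) fun y _ => hw.nonneg _

/-- the threshold -/
noncomputable def Tt (k m P : ℕ) (η : ℝ) : ℝ := ((P : ℝ) / (4 * k)) ^ m * η / (8 * Ll k P)

lemma ZL_ge {k m P : ℕ} {η N : ℝ} {w : ℝ → ℝ} (hk : 1 ≤ k) (hP : 2 * k ≤ P) (hη : 0 < η)
    (hη1 : η ≤ 1) (hw : Bump η w) (hN1 : 2 * ((m : ℝ) + 1) * (P : ℝ) ^ k ≤ N)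
    (hN2 : N < (4 * P : ℝ) ^ k) {α : Fin (m + 1) → ℝ} (hα : ∀ i, α i ∈ Set.Icc (0 : ℝ) 1)
    (hlt : rr (box (m + 1) P) (sx k (m + 1)) w α N < Tt k m P η) :
    Tt k m P η ≤ ZL (box (m + 1) P) (sx k (m + 1)) w (Ll k P) α := by
  have hP1 : 1 ≤ P := by omega
  have hPr : (1 : ℝ) ≤ P := by exact_mod_cast hP1
  have hk0 : (0 : ℝ) < k := by exact_mod_cast hk
  have hL0 : 0 < Ll k P := by
    unfold Ll
    positivity
  have h1 := det_lower hk hP hη hη1 hw hN1 hN2 hα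
  set Z := ZL (box (m + 1) P) (sx k (m + 1)) w (Ll k P) α with hZ
  set T := Tt k m P η with hT
  have h2 : ∀ y ∈ Set.Icc (N - Ll k P) (N + Ll k P),
      rr (box (m + 1) P) (sx k (m + 1)) w α y ≤ 2 * (T + Z) := by
    intro y hy
    have h3 : |y - N| ≤ Ll k P := by
      rw [abs_le]
      constructor <;> linarith [hy.1, hy.2]
    have h4 := second_diff (F := box (m + 1) P) (s := sx k (m + 1)) hw.toWt α (N := N) h3
    have h5 : N + (y - N) = y := by ring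
    rw [h5, abs_le] at h4
    have h6 := rr_nonneg (F := box (m + 1) P) (s := sx k (m + 1)) hw.toWt α (N - (y - N))
    linarith [h4.1]
  have h3 : ∫ y in (N - Ll k P)..(N + Ll k P), rr (box (m + 1) P) (sx k (m + 1)) w α y ≤
      ∫ _y in (N - Ll k P)..(N + Ll k P), 2 * (T + Z) := by
    refine intervalIntegral.integral_mono_on (by linarith) ?_ (by simp) h2
    exact (continuous_rr hw.toWt α).intervalIntegrable _ _
  rw [intervalIntegral.integral_const, smul_eq_mul] at h3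
  have h4 : ((P : ℝ) / (4 * k)) ^ m * η = 8 * Ll k P * T := by
    rw [hT]
    unfold Tt
    field_simp
  have h5 : 8 * Ll k P * T ≤ 4 * Ll k P * (T + Z) := by
    rw [← h4]
    refine h1.trans (h3.trans (le_of_eq ?_))
    ring
  have h6 : 0 ≤ 4 * Ll k P * (Z - T) := by linarith
  by_contra hcon
  push Not at hcon
  have h7 : 4 * Ll k P * (Z - T) < 0 := mul_neg_of_pos_of_neg (by positivity) (by linarith)
  linarith

end Pool.Agent.Q154.War
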