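import Pool.Agent.Q154.War.DimB

/-!
# The exceptional set of shifts: the measure of the bad set of a window, and cells
-/

set_option autoImplicit false
set_option linter.unusedSectionVars false

open MeasureTheory Set Finset FourierTransform
open scoped Real

namespace Pool.Agent.Q154.War

/-- the bad shifts of a window, for the weight `w` -/
def DP (k m P : ℕ) (η : ℝ) (w : ℝ → ℝ) : Set (Fin (m + 1) → ℝ) :=
  {α | (∀ i, α i ∈ Set.Icc (0 : ℝ) 1) ∧ ∃ N : ℝ, 2 * ((m : ℝ) + 1) * (P : ℝ) ^ k ≤ N ∧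
    N < (4 * P : ℝ) ^ k ∧ rr (box (m + 1) P) (sx k (m + 1)) w α N < Tt k m P η}

/-- the constant in the bound for the measure -/
noncomputable def Cw (k m : ℕ) (C0 : ℝ) : ℝ :=
  (4 * (k : ℝ)) ^ (2 * m) * (64 * ll k ^ 2) * (8 * C0 ^ 2 + 3200 * (ll k ^ 4 * K2 (1 / 2) ^ 2))

lemma ll_pos {k : ℕ} (hk : 1 ≤ k) : 0 < ll k := by
  have : (0 : ℝ) < k := by exact_mod_cast hk
  unfold ll
  positivity

lemma Tt_pos {k m P : ℕ} {η : ℝ} (hk : 1 ≤ k) (hP : 1 ≤ P) (hη : 0 < η) : 0 < Tt k m P η := by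
  have h1 : (0 : ℝ) < k := by exact_mod_cast hk
  have h2 : (0 : ℝ) < P := by exact_mod_cast hP
  have h3 := ll_pos hk
  unfold Tt
  rw [Ll_eq]
  positivity

lemma AA_sq_le {k m P : ℕ} {C0 η : ℝ} (hk : 1 ≤ k) (hP : 1 ≤ P) (hη : 0 < η) :
    AA k (m + 1) P C0 η ^ 2 / Tt k m P η ^ 2 ≤ Cw k m C0 * (2 * Kc P) ^ (m + 1) *
      ((P : ℝ) ^ (2 * k) / (η ^ 2 * (P : ℝ) ^ (m + 1)) + 1 / (P : ℝ) ^ 4) := by
  have hk0 : (0 : ℝ) < k := by exact_mod_cast hk
  have hp : (0 : ℝ) < P := by exact_mod_cast hP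
  have hl := ll_pos hk
  have hK := Kc_ge hP
  have hT := Tt_pos (m := m) hk hP hη
  rw [div_le_iff₀ (by positivity)]
  set X := (2 * Kc P) ^ (m + 1) with hX
  have hX0 : 0 < X := by positivity
  set a : ℝ := (P : ℝ) ^ (m + 1) with ha
  have ha0 : 0 < a := by positivity
  set b : ℝ := η ^ 2 * (a ^ 2 / ((P : ℝ) ^ 4 * (P : ℝ) ^ (2 * k))) with hb
  have hb0 : 0 < b := by positivity
  have h1 : AA k (m + 1) P C0 η ^ 2 ≤
      X * (8 * C0 ^ 2 * a + 3200 * (ll k ^ 4 * K2 (1 / 2) ^ 2) * b) := by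
    unfold AA
    rw [mul_pow (√X), Real.sq_sqrt hX0.le]
    refine mul_le_mul_of_nonneg_left ?_ hX0.le
    have h2 : √a ^ 2 = a := Real.sq_sqrt ha0.le
    have h3 : ∀ u v : ℝ, (u + v) ^ 2 ≤ 2 * u ^ 2 + 2 * v ^ 2 := fun u v => by
      nlinarith [sq_nonneg (u - v)]
    refine (h3 _ _).trans (le_of_eq ?_)
    have e1 : 2 * (2 * √a * C0) ^ 2 = 8 * C0 ^ 2 * √a ^ 2 := by ring
    have e2 : 2 * (2 * η * (a * (20 * ll k ^ 2 / (P : ℝ) ^ 2) * (K2 (1 / 2) / (P : ℝ) ^ k))) ^ 2 =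
        3200 * (ll k ^ 4 * K2 (1 / 2) ^ 2) * b := by
      rw [hb]
      field_simp
      ring
    rw [e1, e2, h2]
  have h4 : Cw k m C0 * X * ((P : ℝ) ^ (2 * k) / (η ^ 2 * a) + 1 / (P : ℝ) ^ 4) * Tt k m P η ^ 2 =
      X * ((8 * C0 ^ 2 + 3200 * (ll k ^ 4 * K2 (1 / 2) ^ 2)) * (a + b)) := by
    obtain ⟨l, rfl⟩ : ∃ l, k = l + 1 := ⟨k - 1, by omega⟩
    have hq : 0 < (4 * ((l + 1 : ℕ) : ℝ)) ^ m := by positivity
    have e : (4 * ((l + 1 : ℕ) : ℝ)) ^ (2 * m) = ((4 * ((l + 1 : ℕ) : ℝ)) ^ m) ^ 2 := by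
      rw [← pow_mul, mul_comm m 2]
    rw [hb]
    unfold Cw Tt
    rw [Ll_eq, Nat.add_sub_cancel, ha, div_pow (P : ℝ) (4 * ((l + 1 : ℕ) : ℝ)) m, e]
    generalize (4 * ((l + 1 : ℕ) : ℝ)) ^ m = q at hq ⊢
    field_simp
    ring
  rw [h4]
  refine h1.trans (mul_le_mul_of_nonneg_left ?_ hX0.le)
  have hA : 0 ≤ 8 * C0 ^ 2 := by positivity
  have hB : 0 ≤ 3200 * (ll k ^ 4 * K2 (1 / 2) ^ 2) := by positivity
  have e1 := mul_nonneg hA hb0.le
  have e2 := mul_nonneg hB ha0.le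
  nlinarith

/-- **The measure of the bad set of a window.** -/
theorem win_tail {k m P : ℕ} {C0 η : ℝ} {w : ℝ → ℝ} (hk : 3 ≤ k) (hm : 2 * k ≤ m)
    (hP : 2 * k ≤ P) (hη : 0 < η) (hη1 : η ≤ 1) (hw : Bump η w) (hC : 0 < C0)
    (hC0 : ∫ θ, ‖𝓕 (fun u => (w u : ℂ)) θ‖ ≤ C0) :
    (νn (m + 1)).real (DP k m P η w) ≤ Cw k m C0 * (2 * Kc P) ^ (m + 1) *
      ((P : ℝ) ^ (2 * k) / (η ^ 2 * (P : ℝ) ^ (m + 1)) + 1 / (P : ℝ) ^ 4) := by
  have hP1 : 1 ≤ P := by omega
  have hp : (0 : ℝ) < P := by exact_mod_cast hP1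
  have hK := Kc_ge hP1
  have hT := Tt_pos (k := k) (m := m) (by omega) hP1 hη
  have h1 : DP k m P η w ⊆ {α | Tt k m P η ≤ ZL (box (m + 1) P) (sx k (m + 1)) w (Ll k P) α} := by
    rintro α ⟨hα, N, hN1, hN2, hlt⟩
    exact ZL_ge (by omega) hP hη hη1 hw hN1 hN2 hα hlt
  have hA0 : 0 < AA k (m + 1) P C0 η := by
    have h2 := K2_nonneg (1 / 2)
    have h3 := ll_pos (k := k) (by omega)
    unfold AA
    positivity
  have h2 : (νn (m + 1)).real {α | Tt k m P η ≤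
      ZL (box (m + 1) P) (sx k (m + 1)) w (Ll k P) α} ≤
      AA k (m + 1) P C0 η ^ 2 / Tt k m P η ^ 2 := by
    refine tail (μ := νn (m + 1)) hw.toWt (measurable_sx k (m + 1))
      (continuous_gB k (m + 1) P) (one_le_gB hP1) (fun θ => gB_le θ) ?_ hA0 hT
      (int_mg_le (by omega) (by omega) hP1 hη hw hC0)
    intro θ
    rw [TT_sq]
    have h3 := Am_pow_le (k := k) (n := m + 1) (by omega) hP1 (-θ)
    have h4 : gB k (m + 1) P (-θ) = gB k (m + 1) P θ := by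
      unfold gB
      rw [abs_neg]
    rw [h4] at h3
    exact h3
  exact (measureReal_mono h1).trans (h2.trans (AA_sq_le (by omega) hP1 hη))

/-! ### cells -/

/-- the half-open cell of side `1/M` with the index `i` -/
def cell (n M : ℕ) (i : Fin n → ℕ) : Set (Fin n → ℝ) :=
  Set.pi univ fun l => Set.Ico ((i l : ℝ) / M) (((i l : ℝ) + 1) / M)

lemma measurableSet_cell (n M : ℕ) (i : Fin n → ℕ) : MeasurableSet (cell n M i) :=
  MeasurableSet.univ_pi fun _ => measurableSet_Ico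

lemma ν1_Ico {a b : ℝ} (ha : 0 ≤ a) (hb : b ≤ 1) : ν1 (Set.Ico a b) = ENNReal.ofReal (b - a) := by
  unfold ν1
  rw [Measure.restrict_apply measurableSet_Ico]
  have : Set.Ico a b ∩ Set.Icc (0 : ℝ) 1 = Set.Ico a b := by
    refine Set.inter_eq_left.2 fun x hx => ?_
    exact ⟨ha.trans hx.1, hx.2.le.trans hb⟩
  rw [this, Real.volume_Ico]

lemma νn_cell {n M : ℕ} (hM : 0 < M) {i : Fin n → ℕ} (hi : ∀ l, i l < M) :
    νn n (cell n M i) = ENNReal.ofReal ((1 / (M : ℝ)) ^ n) := by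
  have hM0 : (0 : ℝ) < M := by exact_mod_cast hM
  unfold νn cell
  rw [Measure.pi_pi]
  have h1 : ∀ l, ν1 (Set.Ico ((i l : ℝ) / M) (((i l : ℝ) + 1) / M)) = ENNReal.ofReal (1 / M) := by
    intro l
    rw [ν1_Ico]
    · congr 1
      field_simp
      ring
    · positivity
    · rw [div_le_one hM0]
      exact_mod_cast hi l
  simp only [h1]
  rw [Finset.prod_const, Finset.card_univ, Fintype.card_fin, ENNReal.ofReal_pow (by positivity)]

lemma cell_disjoint {n M : ℕ} (hM : 0 < M) {i j : Fin n → ℕ} (hij : i ≠ j) :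
    Disjoint (cell n M i) (cell n M j) := by
  have hM0 : (0 : ℝ) < M := by exact_mod_cast hM
  rw [Set.disjoint_left]
  intro x hx hy
  apply hij
  funext l
  have h1 := hx l (mem_univ l)
  have h2 := hy l (mem_univ l)
  have e1 : (i l : ℝ) ≤ x l * M := (div_le_iff₀ hM0).1 h1.1
  have e2 : x l * M < (i l : ℝ) + 1 := (lt_div_iff₀ hM0).1 h1.2
  have e3 : (j l : ℝ) ≤ x l * M := (div_le_iff₀ hM0).1 h2.1
  have e4 : x l * M < (j l : ℝ) + 1 := (lt_div_iff₀ hM0).1 h2.2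
  have e5 : (i l : ℝ) < j l + 1 := by linarith
  have e6 : (j l : ℝ) < i l + 1 := by linarith
  have e7 : i l < j l + 1 := by exact_mod_cast e5
  have e8 : j l < i l + 1 := by exact_mod_cast e6
  omega

/-- the number of the cells contained in a set -/
lemma card_cells_le {n M : ℕ} (hM : 0 < M) (G : Finset (Fin n → ℕ)) (hG : ∀ i ∈ G, ∀ l, i l < M)
    {D : Set (Fin n → ℝ)} (hD : ∀ i ∈ G, cell n M i ⊆ D) :
    (G.card : ℝ) ≤ (M : ℝ) ^ n * (νn n).real D := by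
  have hM0 : (0 : ℝ) < M := by exact_mod_cast hM
  have h1 : νn n (⋃ i ∈ G, cell n M i) = ∑ i ∈ G, νn n (cell n M i) := by
    refine measure_biUnion_finset ?_ fun i _ => measurableSet_cell n M i
    intro i _ j _ hij
    exact cell_disjoint hM hij
  have h2 : ∑ i ∈ G, νn n (cell n M i) = G.card * ENNReal.ofReal ((1 / (M : ℝ)) ^ n) := by
    rw [Finset.sum_congr rfl fun i hi => νn_cell hM (hG i hi), Finset.sum_const, nsmul_eq_mul]
  have h3 : (νn n).real (⋃ i ∈ G, cell n M i) = G.card * (1 / (M : ℝ)) ^ n := by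
    rw [measureReal_def, h1, h2, ENNReal.toReal_mul, ENNReal.toReal_natCast,
      ENNReal.toReal_ofReal (by positivity)]
  have h4 : (νn n).real (⋃ i ∈ G, cell n M i) ≤ (νn n).real D := by
    refine measureReal_mono ?_
    exact Set.iUnion₂_subset hD
  rw [h3] at h4
  have h5 : (M : ℝ) ^ n * (G.card * (1 / (M : ℝ)) ^ n) ≤ (M : ℝ) ^ n * (νn n).real D :=
    mul_le_mul_of_nonneg_left h4 (by positivity)
  have h6 : (M : ℝ) ^ n * (G.card * (1 / (M : ℝ)) ^ n) = G.card := by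
    rw [one_div, inv_pow]
    field_simp
  rw [h6] at h5
  exact h5

/-- variation of the form in a cell -/
lemma sx_close {k n P : ℕ} {δ : ℝ} (hP : 1 ≤ P) {x : Fin n → ℕ} (hx : x ∈ box n P)
    {α β : Fin n → ℝ} (hα : ∀ i, α i ∈ Set.Icc (0 : ℝ) 1) (hβ : ∀ i, β i ∈ Set.Icc (0 : ℝ) 1)
    (h : ∀ i, |α i - β i| ≤ δ) :
    |sx k n x α - sx k n x β| ≤ n * (k * (4 * (P : ℝ)) ^ (k - 1)) * δ := by
  have hp : (1 : ℝ) ≤ P := by exact_mod_cast hP
  unfold sx
  rw [← Finset.sum_sub_distrib]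
  refine (Finset.abs_sum_le_sum_abs _ _).trans ?_
  have hterm : ∀ i ∈ (Finset.univ : Finset (Fin n)),
      |((x i : ℝ) + α i) ^ k - ((x i : ℝ) + β i) ^ k| ≤ (k * (4 * (P : ℝ)) ^ (k - 1)) * δ := by
    intro i _
    unfold box at hx
    rw [Fintype.mem_piFinset] at hx
    have h1 := hx i
    rw [Finset.mem_Ico] at h1
    have h2 : (x i : ℝ) + 1 ≤ 4 * P := by exact_mod_cast h1.2
    have hx0 : (0 : ℝ) ≤ x i := Nat.cast_nonneg _
    have key : ∀ a b : ℝ, a ∈ Set.Icc (0 : ℝ) 1 → b ∈ Set.Icc (0 : ℝ) 1 → b ≤ a → |a - b| ≤ δ →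
        |((x i : ℝ) + a) ^ k - ((x i : ℝ) + b) ^ k| ≤ (k * (4 * (P : ℝ)) ^ (k - 1)) * δ := by
      intro a b ha hb hab hd
      have h3 := pow_sub_pow_le' (A := (x i : ℝ) + a) (B := (x i : ℝ) + b) (by linarith [hb.1])
        (by linarith) k
      have h4 : ((x i : ℝ) + b) ^ k ≤ ((x i : ℝ) + a) ^ k :=
        pow_le_pow_left₀ (by linarith [hb.1]) (by linarith) k
      rw [abs_of_nonneg (by linarith)]
      refine h3.trans ?_
      have h5 : ((x i : ℝ) + a) ^ (k - 1) ≤ (4 * (P : ℝ)) ^ (k - 1) :=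
        pow_le_pow_left₀ (by linarith [ha.1]) (by linarith [ha.2]) _
      have h6 : (x i : ℝ) + a - (x i + b) ≤ δ := by
        have := le_abs_self (a - b)
        linarith
      have h7 : 0 ≤ (x i : ℝ) + a - (x i + b) := by linarith
      calc k * ((x i : ℝ) + a - (x i + b)) * ((x i : ℝ) + a) ^ (k - 1) ≤
          k * δ * (4 * (P : ℝ)) ^ (k - 1) := by
            refine mul_le_mul (mul_le_mul_of_nonneg_left h6 (Nat.cast_nonneg k)) h5 ?_ ?_
            · exact pow_nonneg (by linarith [ha.1]) _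
            · exact mul_nonneg (Nat.cast_nonneg k) (h7.trans h6)
        _ = _ := by ring
    rcases le_total (β i) (α i) with hle | hle
    · exact key _ _ (hα i) (hβ i) hle (h i)
    · rw [abs_sub_comm]
      refine key _ _ (hβ i) (hα i) hle ?_
      rw [abs_sub_comm]
      exact h i
  refine (Finset.sum_le_sum hterm).trans (le_of_eq ?_)
  rw [Finset.sum_const, Finset.card_univ, Fintype.card_fin, nsmul_eq_mul]
  ring

open Classical in
/-- the solutions in a window -/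
noncomputable def sol (k n P : ℕ) (r : ℝ) (α : Fin n → ℝ) (N : ℝ) : Finset (Fin n → ℕ) :=
  (box n P).filter fun x => |sx k n x α - N| < r

/-- the bad shifts of a window -/
def Bad (k m P : ℕ) (η : ℝ) : Set (Fin (m + 1) → ℝ) :=
  {α | (∀ i, α i ∈ Set.Ico (0 : ℝ) 1) ∧ ∃ N : ℝ, 2 * ((m : ℝ) + 1) * (P : ℝ) ^ k ≤ N ∧
    N < (4 * P : ℝ) ^ k ∧ ((sol k (m + 1) P (2 * η) α N).card : ℝ) < Tt k m P η}

/-- the number of the cells in each direction -/
noncomputable def MM (k m P : ℕ) (η : ℝ) : ℕ :=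
  ⌈((m : ℝ) + 1) * (k * (4 * (P : ℝ)) ^ (k - 1)) / η⌉₊

lemma MM_pos {k m P : ℕ} {η : ℝ} (hk : 1 ≤ k) (hP : 1 ≤ P) (hη : 0 < η) : 0 < MM k m P η := by
  have h1 : (0 : ℝ) < k := by exact_mod_cast hk
  have h2 : (0 : ℝ) < P := by exact_mod_cast hP
  unfold MM
  rw [Nat.ceil_pos]
  positivity

/-- the cell of a bad shift consists of bad shifts -/
lemma cell_sub_DP {k m P : ℕ} {η : ℝ} {w : ℝ → ℝ} (hk : 1 ≤ k) (hP : 1 ≤ P) (hη : 0 < η)
    (hw : Bump η w) {i : Fin (m + 1) → ℕ} (hi : ∀ l, i l < MM k m P η)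
    {α : Fin (m + 1) → ℝ} (hα : α ∈ Bad k m P η) (hαi : α ∈ cell (m + 1) (MM k m P η) i) :
    cell (m + 1) (MM k m P η) i ⊆ DP k m P η w := by
  classical
  intro β hβ
  obtain ⟨hα1, N, hN1, hN2, hlt⟩ := hα
  have hM := MM_pos (m := m) hk hP hη
  set M := MM k m P η with hMdef
  have hM0 : (0 : ℝ) < M := by exact_mod_cast hM
  have hβ1 : ∀ l, β l ∈ Set.Icc (0 : ℝ) 1 := by
    intro l
    have h1 := hβ l (mem_univ l)
    constructor
    · refine le_trans ?_ h1.1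
      positivity
    · refine h1.2.le.trans ?_
      rw [div_le_one hM0]
      exact_mod_cast hi l
  refine ⟨hβ1, N, hN1, hN2, lt_of_le_of_lt ?_ hlt⟩
  have hclose : ∀ l, |α l - β l| ≤ 1 / M := by
    intro l
    have h1 := hβ l (mem_univ l)
    have h2 := hαi l (mem_univ l)
    have h3 : ((i l : ℝ) + 1) / M = i l / M + 1 / M := by ring
    rw [abs_le]
    constructor <;> linarith [h1.1, h1.2, h2.1, h2.2]
  have hsx : ∀ x ∈ box (m + 1) P, |sx k (m + 1) x α - sx k (m + 1) x β| ≤ η := by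
    intro x hx
    refine (sx_close hP hx (fun l => ⟨(hα1 l).1, (hα1 l).2.le⟩) hβ1 hclose).trans ?_
    have h1 : ((m : ℝ) + 1) * (k * (4 * (P : ℝ)) ^ (k - 1)) / η ≤ M := Nat.le_ceil _
    rw [div_le_iff₀ hη] at h1
    push_cast
    rw [mul_one_div, div_le_iff₀ hM0]
    linarith
  unfold rr
  calc ∑ x ∈ box (m + 1) P, w (N - sx k (m + 1) x β) ≤
      ∑ x ∈ box (m + 1) P, (if |sx k (m + 1) x α - N| < 2 * η then (1 : ℝ) else 0) := by
        refine Finset.sum_le_sum fun x hx => ?_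
        split_ifs with h
        · exact hw.le_one _
        · refine (hw.zero _ ?_).le
          have h1 := hsx x hx
          by_contra hcon
          apply h
          rw [not_le] at hcon
          have h2 : sx k (m + 1) x α - N =
              (sx k (m + 1) x α - sx k (m + 1) x β) + -(N - sx k (m + 1) x β) := by ring
          rw [h2]
          refine lt_of_le_of_lt (abs_add_le _ _) ?_
          rw [abs_neg]
          linarith
    _ = ((sol k (m + 1) P (2 * η) α N).card : ℝ) := by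
        unfold sol
        rw [Finset.sum_boole]

open Classical in
/-- the cells which meet the bad set -/
noncomputable def GG (k m P : ℕ) (η : ℝ) : Finset (Fin (m + 1) → ℕ) :=
  (Fintype.piFinset fun _ : Fin (m + 1) => Finset.range (MM k m P η)).filter fun i =>
    (cell (m + 1) (MM k m P η) i ∩ Bad k m P η).Nonempty

lemma card_GG_le {k m P : ℕ} {η : ℝ} {w : ℝ → ℝ} (hk : 1 ≤ k) (hP : 1 ≤ P) (hη : 0 < η)
    (hw : Bump η w) : ((GG k m P η).card : ℝ) ≤
      (MM k m P η : ℝ) ^ (m + 1) * (νn (m + 1)).real (DP k m P η w) := by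
  classical
  refine card_cells_le (MM_pos hk hP hη) _ ?_ ?_
  · intro i hi l
    unfold GG at hi
    rw [Finset.mem_filter, Fintype.mem_piFinset] at hi
    exact Finset.mem_range.1 (hi.1 l)
  · intro i hi
    unfold GG at hi
    rw [Finset.mem_filter, Fintype.mem_piFinset] at hi
    obtain ⟨α, hα1, hα2⟩ := hi.2
    exact cell_sub_DP hk hP hη hw (fun l => Finset.mem_range.1 (hi.1 l)) hα2 hα1

open Classical in
/-- the corners of these cells -/
noncomputable def Pt (k m P : ℕ) (η : ℝ) : Finset (Fin (m + 1) → ℝ) :=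
  (GG k m P η).image fun i l => (i l : ℝ) / (MM k m P η : ℝ)

lemma card_Pt_le (k m P : ℕ) (η : ℝ) : (Pt k m P η).card ≤ (GG k m P η).card :=
  Finset.card_image_le

lemma near_Pt {k m P : ℕ} {η : ℝ} (hk : 1 ≤ k) (hP : 1 ≤ P) (hη : 0 < η)
    {α : Fin (m + 1) → ℝ} (hα : α ∈ Bad k m P η) :
    ∃ p ∈ Pt k m P η, dist p α ≤ 1 / (MM k m P η : ℝ) := by
  classical
  have hM := MM_pos (m := m) hk hP hη
  set M := MM k m P η with hMdef
  have hM0 : (0 : ℝ) < M := by exact_mod_cast hM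
  set i : Fin (m + 1) → ℕ := fun l => ⌊α l * M⌋₊ with hi
  have hfl : ∀ l, (i l : ℝ) ≤ α l * M ∧ α l * M < (i l : ℝ) + 1 := by
    intro l
    have h0 : 0 ≤ α l * M := mul_nonneg (hα.1 l).1 hM0.le
    exact ⟨Nat.floor_le h0, Nat.lt_floor_add_one _⟩
  have hcell : α ∈ cell (m + 1) M i := by
    intro l _
    exact ⟨(div_le_iff₀ hM0).2 (hfl l).1, (lt_div_iff₀ hM0).2 (hfl l).2⟩
  have hlt : ∀ l, i l < M := by
    intro l
    have h1 : (i l : ℝ) < M := by
      refine lt_of_le_of_lt (hfl l).1 ?_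
      have := (hα.1 l).2
      nlinarith
    exact_mod_cast h1
  refine ⟨fun l => (i l : ℝ) / M, ?_, ?_⟩
  · unfold Pt
    rw [Finset.mem_image]
    refine ⟨i, ?_, rfl⟩
    unfold GG
    rw [Finset.mem_filter, Fintype.mem_piFinset]
    exact ⟨fun l => Finset.mem_range.2 (hlt l), ⟨α, hcell, hα⟩⟩
  · rw [dist_pi_le_iff (by positivity)]
    intro l
    rw [Real.dist_eq]
    have h1 := hcell l (mem_univ l)
    have h3 : ((i l : ℝ) + 1) / M = i l / M + 1 / M := by ring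
    rw [abs_le]
    constructor
    · linarith [h1.2]
    · have : 0 < 1 / (M : ℝ) := by positivity
      linarith [h1.1]

end Pool.Agent.Q154.War
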