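import Pool.Agent.Q154.War.DimC
import Pool.Agent.Q138.PS.VU

/-!
# The exceptional set of shifts: windows, summation and the dimension of the limsup set
-/

set_option autoImplicit false
set_option linter.unusedSectionVars false

open MeasureTheory Set Finset Filter
open scoped Real Topology

namespace Pool.Agent.Q154.War

/-- the geometric sequence of the windows -/
noncomputable def Pj (j : ℕ) : ℕ := ⌈(5 / 4 : ℝ) ^ j⌉₊

lemma Pj_ge (j : ℕ) : (5 / 4 : ℝ) ^ j ≤ Pj j := Nat.le_ceil _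

lemma Pj_lt (j : ℕ) : (Pj j : ℝ) < (5 / 4 : ℝ) ^ j + 1 := Nat.ceil_lt_add_one (by positivity)

lemma one_le_Pj (j : ℕ) : 1 ≤ Pj j := by
  have h : (1 : ℝ) ≤ Pj j := (one_le_pow₀ (by norm_num)).trans (Pj_ge j)
  exact_mod_cast h

lemma Pj_mono : Monotone Pj := by
  intro i j hij
  unfold Pj
  exact Nat.ceil_mono (pow_le_pow_right₀ (by norm_num) hij)

lemma Pj_tendsto : Tendsto Pj atTop atTop := by
  have h1 : Tendsto (fun j : ℕ => (5 / 4 : ℝ) ^ j) atTop atTop :=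
    tendsto_pow_atTop_atTop_of_one_lt (by norm_num)
  exact tendsto_natCast_atTop_iff.1 (tendsto_atTop_mono Pj_ge h1)

lemma big_pow {j : ℕ} (hj : 12 ≤ j) : (12 : ℝ) ≤ (5 / 4 : ℝ) ^ j := by
  calc (12 : ℝ) ≤ (5 / 4 : ℝ) ^ 12 := by norm_num
    _ ≤ (5 / 4 : ℝ) ^ j := pow_le_pow_right₀ (by norm_num) hj

lemma Pj_succ_le {j : ℕ} (hj : 12 ≤ j) : 3 * (Pj (j + 1) : ℝ) ≤ 4 * Pj j := by
  have h1 := Pj_lt (j + 1)
  have h2 := Pj_ge j
  have h3 := big_pow hj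
  rw [pow_succ] at h1
  linarith

/-- the windows cover all large numbers -/
lemma windows {k m : ℕ} (hk : 1 ≤ k) (hm : 2 * (m + 1) ≤ 3 ^ k) (J : ℕ) :
    ∃ N₀ : ℝ, 1 ≤ N₀ ∧ ∀ N : ℝ, N₀ ≤ N → ∃ j, J ≤ j ∧
      2 * ((m : ℝ) + 1) * (Pj j : ℝ) ^ k ≤ N ∧ N < (4 * (Pj j : ℝ)) ^ k := by
  classical
  set J' := max J 12 with hJ'
  have hP0 : ∀ j, (1 : ℝ) ≤ Pj j := fun j => by exact_mod_cast one_le_Pj j
  refine ⟨(4 * (Pj J' : ℝ)) ^ k, one_le_pow₀ (by linarith [hP0 J']), ?_⟩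
  intro N hN
  have hex : ∃ j, N < (4 * (Pj j : ℝ)) ^ k := by
    obtain ⟨j, hj⟩ := (Pj_tendsto.eventually_gt_atTop ⌈N⌉₊).exists
    refine ⟨j, ?_⟩
    have h1 : N ≤ ⌈N⌉₊ := Nat.le_ceil N
    have h2 : (⌈N⌉₊ : ℝ) < Pj j := by exact_mod_cast hj
    have h3 : (Pj j : ℝ) ≤ (4 * (Pj j : ℝ)) ^ k := by
      calc (Pj j : ℝ) ≤ 4 * (Pj j : ℝ) := by linarith [hP0 j]
        _ ≤ (4 * (Pj j : ℝ)) ^ k := le_self_pow₀ (by linarith [hP0 j]) (by omega)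
    linarith
  have hj := Nat.find_spec hex
  set j := Nat.find hex with hjdef
  have hjJ : J' < j := by
    by_contra hcon
    push Not at hcon
    have h1 : (4 * (Pj j : ℝ)) ^ k ≤ (4 * (Pj J' : ℝ)) ^ k := by
      refine pow_le_pow_left₀ (by positivity) ?_ k
      have h2 : (Pj j : ℝ) ≤ Pj J' := by exact_mod_cast Pj_mono hcon
      linarith
    linarith
  refine ⟨j, le_trans (le_max_left _ _) hjJ.le, ?_, hj⟩
  obtain ⟨i, hi⟩ : ∃ i, j = i + 1 := ⟨j - 1, by omega⟩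
  have h1 : ¬ N < (4 * (Pj i : ℝ)) ^ k := Nat.find_min hex (by omega)
  have h12 : 12 ≤ i := by
    have : 12 ≤ J' := le_max_right _ _
    omega
  have h2 := Pj_succ_le h12
  rw [hi]
  calc 2 * ((m : ℝ) + 1) * (Pj (i + 1) : ℝ) ^ k ≤ 3 ^ k * (Pj (i + 1) : ℝ) ^ k := by
        refine mul_le_mul_of_nonneg_right ?_ (by positivity)
        exact_mod_cast hm
    _ = (3 * (Pj (i + 1) : ℝ)) ^ k := (mul_pow _ _ _).symm
    _ ≤ (4 * (Pj i : ℝ)) ^ k := pow_le_pow_left₀ (by positivity) h2 k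
    _ ≤ N := not_lt.1 h1

/-- the widths of the bumps -/
noncomputable def eta (k : ℕ) (τ c : ℝ) (P : ℕ) : ℝ := c * (4 * (P : ℝ)) ^ (-((k : ℝ) * τ)) / 2

lemma eta_pos {k P : ℕ} {τ c : ℝ} (hc : 0 < c) (hP : 1 ≤ P) : 0 < eta k τ c P := by
  have hp : (0 : ℝ) < P := by exact_mod_cast hP
  unfold eta
  have := Real.rpow_pos_of_pos (by positivity : 0 < 4 * (P : ℝ)) (-((k : ℝ) * τ))
  positivity

lemma eta_le {k P : ℕ} {τ c : ℝ} (hc : 0 < c) (hc1 : c ≤ 1) (hτ : 0 ≤ τ) (hP : 1 ≤ P) :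
    eta k τ c P ≤ 1 := by
  have hp : (1 : ℝ) ≤ P := by exact_mod_cast hP
  have h1 : (4 * (P : ℝ)) ^ (-((k : ℝ) * τ)) ≤ 1 := by
    refine Real.rpow_le_one_of_one_le_of_nonpos (by linarith) ?_
    have : 0 ≤ (k : ℝ) * τ := by positivity
    linarith
  have h2 := Real.rpow_pos_of_pos (by positivity : 0 < 4 * (P : ℝ)) (-((k : ℝ) * τ))
  unfold eta
  nlinarith

lemma Kc_le {ε : ℝ} (hε : 0 < ε) : ∃ C : ℝ, 0 < C ∧ ∀ P : ℕ, 1 ≤ P →
    Kc P ≤ C * (P : ℝ) ^ ε := by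
  refine ⟨20 + 2 * (3 ^ ε / ε), by positivity, ?_⟩
  intro P hP
  have hp : (1 : ℝ) ≤ P := by exact_mod_cast hP
  have h1 := Real.log_le_rpow_div (x := 3 * (P : ℝ)) (by linarith) hε
  rw [Real.mul_rpow (by norm_num) (by linarith)] at h1
  have h2 : 1 ≤ (P : ℝ) ^ ε := Real.one_le_rpow hp hε.le
  unfold Kc
  have h3 : (3 : ℝ) ^ ε * (P : ℝ) ^ ε / ε = 3 ^ ε / ε * (P : ℝ) ^ ε := by ring
  rw [h3] at h1
  nlinarith

/-- the exponent `μ` -/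
noncomputable def mu (k n : ℕ) (τ : ℝ) : ℝ := min 4 ((n : ℝ) - 2 * k * (1 + τ))

/-- the exponent of the mesh -/
noncomputable def aa (k : ℕ) (τ : ℝ) : ℝ := (k : ℝ) - 1 + k * τ

lemma MM_le {k m P : ℕ} {τ c : ℝ} (hk : 1 ≤ k) (hP : 1 ≤ P) (hc : 0 < c) (hc1 : c ≤ 1)
    (hτ : 0 ≤ τ) :
    (MM k m P (eta k τ c P) : ℝ) ≤ (4 * (((m : ℝ) + 1) * k) / c) * (4 * (P : ℝ)) ^ (aa k τ) := by
  have hk1 : (1 : ℝ) ≤ k := by exact_mod_cast hk
  have hp : (1 : ℝ) ≤ P := by exact_mod_cast hP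
  have h4p : 0 < 4 * (P : ℝ) := by linarith
  have hη := eta_pos (k := k) (τ := τ) hc hP
  have hη1 := eta_le (k := k) hc hc1 hτ hP
  set q := ((m : ℝ) + 1) * (k * (4 * (P : ℝ)) ^ (k - 1)) / eta k τ c P with hq
  have h1 : (MM k m P (eta k τ c P) : ℝ) < q + 1 := Nat.ceil_lt_add_one (by positivity)
  have h2 : 1 ≤ q := by
    rw [hq, le_div_iff₀ hη, one_mul]
    refine hη1.trans ?_
    have h3 : (1 : ℝ) ≤ (4 * (P : ℝ)) ^ (k - 1) := one_le_pow₀ (by linarith)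
    have h4 : (1 : ℝ) ≤ (m : ℝ) + 1 := by
      have : (0 : ℝ) ≤ m := Nat.cast_nonneg m
      linarith
    have h5 : (1 : ℝ) ≤ k * (4 * (P : ℝ)) ^ (k - 1) := by nlinarith
    nlinarith
  refine (h1.le.trans (by linarith : q + 1 ≤ 2 * q)).trans (le_of_eq ?_)
  rw [hq]
  unfold eta aa
  have h6 : (4 * (P : ℝ)) ^ ((k : ℝ) - 1 + k * τ) =
      (4 * (P : ℝ)) ^ (k - 1) * (4 * (P : ℝ)) ^ ((k : ℝ) * τ) := by
    rw [Real.rpow_add h4p, ← Real.rpow_natCast _ (k - 1), Nat.cast_sub hk, Nat.cast_one]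
  rw [h6, Real.rpow_neg h4p.le]
  have h7 : 0 < (4 * (P : ℝ)) ^ ((k : ℝ) * τ) := Real.rpow_pos_of_pos h4p _
  field_simp
  norm_num

lemma measure_factor_le {k m P : ℕ} {τ c : ℝ} (hP : 1 ≤ P) (hc : 0 < c) :
    (P : ℝ) ^ (2 * k) / (eta k τ c P ^ 2 * (P : ℝ) ^ (m + 1)) + 1 / (P : ℝ) ^ 4 ≤
      (4 / c ^ 2 * 4 ^ (2 * ((k : ℝ) * τ)) + 1) * (P : ℝ) ^ (-(mu k (m + 1) τ)) := by
  have hp : (1 : ℝ) ≤ P := by exact_mod_cast hP
  have hp0 : (0 : ℝ) < P := by linarith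
  have h4p : 0 < 4 * (P : ℝ) := by linarith
  have e1 : (P : ℝ) ^ (2 * k) / (eta k τ c P ^ 2 * (P : ℝ) ^ (m + 1)) =
      4 / c ^ 2 * 4 ^ (2 * ((k : ℝ) * τ)) *
        (P : ℝ) ^ (-(((m + 1 : ℕ) : ℝ) - 2 * k * (1 + τ))) := by
    have h1 : eta k τ c P ^ 2 = c ^ 2 / 4 * ((4 : ℝ) ^ (2 * ((k : ℝ) * τ)) *
        (P : ℝ) ^ (2 * ((k : ℝ) * τ)))⁻¹ := by
      unfold eta
      rw [← Real.mul_rpow (by norm_num) hp0.le, ← Real.rpow_neg h4p.le, div_pow, mul_pow,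
        ← Real.rpow_natCast ((4 * (P : ℝ)) ^ (-((k : ℝ) * τ))) 2, ← Real.rpow_mul h4p.le]
      have h2 : -((k : ℝ) * τ) * ((2 : ℕ) : ℝ) = -(2 * ((k : ℝ) * τ)) := by
        push_cast
        ring
      rw [h2]
      ring
    have h3 : (P : ℝ) ^ (-(((m + 1 : ℕ) : ℝ) - 2 * k * (1 + τ))) =
        (P : ℝ) ^ (2 * k) * (P : ℝ) ^ (2 * ((k : ℝ) * τ)) / (P : ℝ) ^ (m + 1) := by
      rw [← Real.rpow_natCast (P : ℝ) (2 * k), ← Real.rpow_natCast (P : ℝ) (m + 1),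
        ← Real.rpow_add hp0, ← Real.rpow_sub hp0]
      congr 1
      push_cast
      ring
    rw [h1, h3]
    have h4 : 0 < (4 : ℝ) ^ (2 * ((k : ℝ) * τ)) := Real.rpow_pos_of_pos (by norm_num) _
    have h5 : 0 < (P : ℝ) ^ (2 * ((k : ℝ) * τ)) := Real.rpow_pos_of_pos hp0 _
    field_simp
  have e2 : (P : ℝ) ^ (-(((m + 1 : ℕ) : ℝ) - 2 * k * (1 + τ))) ≤
      (P : ℝ) ^ (-(mu k (m + 1) τ)) := by
    refine Real.rpow_le_rpow_of_exponent_le hp ?_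
    have : mu k (m + 1) τ ≤ ((m + 1 : ℕ) : ℝ) - 2 * k * (1 + τ) := min_le_right _ _
    linarith
  have e3 : 1 / (P : ℝ) ^ 4 ≤ (P : ℝ) ^ (-(mu k (m + 1) τ)) := by
    have h1 : 1 / (P : ℝ) ^ 4 = (P : ℝ) ^ (-(4 : ℝ)) := by
      rw [Real.rpow_neg hp0.le, one_div]
      congr 1
      rw [← Real.rpow_natCast]
      norm_num
    rw [h1]
    refine Real.rpow_le_rpow_of_exponent_le hp ?_
    have : mu k (m + 1) τ ≤ 4 := min_le_left _ _
    linarith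
  rw [e1]
  have h4 : 0 < (4 : ℝ) ^ (2 * ((k : ℝ) * τ)) := Real.rpow_pos_of_pos (by norm_num) _
  have h5 : 0 ≤ 4 / c ^ 2 * 4 ^ (2 * ((k : ℝ) * τ)) := by positivity
  have h6 := mul_le_mul_of_nonneg_left e2 h5
  linarith

/-- the number of the cells of a window -/
lemma card_le {k m : ℕ} {τ c d : ℝ} (hk : 3 ≤ k) (hm : 2 * k ≤ m) (hc : 0 < c) (hc1 : c ≤ 1)
    (hτ : 0 ≤ τ) (hd : d ≤ (m : ℝ) + 1)
    (hδ : 0 < mu k (m + 1) τ - aa k τ * ((m : ℝ) + 1 - d)) :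
    ∃ C : ℝ, 0 ≤ C ∧ ∀ P : ℕ, 2 * k ≤ P →
      ((Pt k m P (eta k τ c P)).card : ℝ) * (1 / (MM k m P (eta k τ c P) : ℝ)) ^ d ≤
        C * (P : ℝ) ^ (-((mu k (m + 1) τ - aa k τ * ((m : ℝ) + 1 - d)) / 2)) := by
  obtain ⟨C0, hC0, hbump⟩ := exists_bumps
  set δ := mu k (m + 1) τ - aa k τ * ((m : ℝ) + 1 - d) with hδdef
  set e := (m : ℝ) + 1 - d with he
  have he0 : 0 ≤ e := by linarith
  obtain ⟨CK, hCK, hKc⟩ := Kc_le (ε := δ / (2 * ((m : ℝ) + 1))) (by positivity)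
  have hk0 : (0 : ℝ) < k := by
    have : 0 < k := by omega
    exact_mod_cast this
  set A1 := 4 * (((m : ℝ) + 1) * k) / c with hA1
  have hA10 : 0 < A1 := by positivity
  set B1 := 4 / c ^ 2 * 4 ^ (2 * ((k : ℝ) * τ)) + 1 with hB1
  have hB10 : 0 < B1 := by positivity
  have hCw : 0 ≤ Cw k m C0 := by
    have h3 := ll_pos (k := k) (by omega)
    unfold Cw
    positivity
  have haa : 0 ≤ aa k τ := by
    have h1 : (1 : ℝ) ≤ k := by
      have : 1 ≤ k := by omega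
      exact_mod_cast this
    have h2 : 0 ≤ (k : ℝ) * τ := by positivity
    unfold aa
    linarith
  refine ⟨(A1 * 4 ^ (aa k τ)) ^ e * (Cw k m C0 * ((2 * CK) ^ (m + 1) * B1)), by positivity, ?_⟩
  intro P hP
  have hP1 : 1 ≤ P := by omega
  have hp : (1 : ℝ) ≤ P := by exact_mod_cast hP1
  have hp0 : (0 : ℝ) < P := by linarith
  have h4p : 0 < 4 * (P : ℝ) := by linarith
  have hη := eta_pos (k := k) (τ := τ) hc hP1
  have hη1 := eta_le (k := k) hc hc1 hτ hP1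
  obtain ⟨w, hw, hwC⟩ := hbump (eta k τ c P) hη
  have hM := MM_pos (k := k) (m := m) (by omega) hP1 hη
  have hMle := MM_le (k := k) (m := m) (by omega) hP1 hc hc1 hτ
  set M := MM k m P (eta k τ c P) with hMdef
  have hM0 : (0 : ℝ) < M := by exact_mod_cast hM
  have h1 : ((Pt k m P (eta k τ c P)).card : ℝ) ≤
      (M : ℝ) ^ (m + 1) * (νn (m + 1)).real (DP k m P (eta k τ c P) w) := by
    refine le_trans ?_ (card_GG_le (by omega) hP1 hη hw)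
    exact_mod_cast card_Pt_le k m P (eta k τ c P)
  have h2 := win_tail (k := k) (m := m) hk hm hP hη hη1 hw hC0 hwC
  have h3 := measure_factor_le (k := k) (m := m) (τ := τ) hP1 hc
  have h4 : (2 * Kc P) ^ (m + 1) ≤ (2 * CK) ^ (m + 1) * (P : ℝ) ^ (δ / 2) := by
    have h5 : 2 * Kc P ≤ 2 * CK * (P : ℝ) ^ (δ / (2 * ((m : ℝ) + 1))) := by
      have := hKc P hP1
      linarith
    have h6 := Kc_ge hP1
    refine (pow_le_pow_left₀ (by linarith) h5 (m + 1)).trans (le_of_eq ?_)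
    rw [mul_pow]
    congr 1
    rw [← Real.rpow_natCast (_ : ℝ) (m + 1), ← Real.rpow_mul hp0.le]
    congr 1
    push_cast
    field_simp
  have h7 : (νn (m + 1)).real (DP k m P (eta k τ c P) w) ≤
      Cw k m C0 * ((2 * CK) ^ (m + 1) * B1) * (P : ℝ) ^ (δ / 2 - mu k (m + 1) τ) := by
    refine h2.trans ?_
    have h8 : 0 ≤ (P : ℝ) ^ (2 * k) / (eta k τ c P ^ 2 * (P : ℝ) ^ (m + 1)) +
        1 / (P : ℝ) ^ 4 := by positivity
    calc Cw k m C0 * (2 * Kc P) ^ (m + 1) *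
          ((P : ℝ) ^ (2 * k) / (eta k τ c P ^ 2 * (P : ℝ) ^ (m + 1)) + 1 / (P : ℝ) ^ 4) ≤
        Cw k m C0 * ((2 * CK) ^ (m + 1) * (P : ℝ) ^ (δ / 2)) *
          (B1 * (P : ℝ) ^ (-(mu k (m + 1) τ))) := by
          refine mul_le_mul ?_ h3 h8 (by positivity)
          exact mul_le_mul_of_nonneg_left h4 hCw
      _ = _ := by
          rw [sub_eq_add_neg, Real.rpow_add hp0]
          ring
  have h9 : (M : ℝ) ^ (m + 1) * (1 / (M : ℝ)) ^ d = (M : ℝ) ^ e := by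
    rw [one_div, Real.inv_rpow hM0.le, ← Real.rpow_neg hM0.le, ← Real.rpow_natCast (M : ℝ) (m + 1),
      ← Real.rpow_add hM0]
    congr 1
    rw [he]
    push_cast
    ring
  have h10 : (M : ℝ) ^ e ≤ (A1 * 4 ^ (aa k τ)) ^ e * (P : ℝ) ^ (aa k τ * e) := by
    have h11 : (M : ℝ) ≤ (A1 * 4 ^ (aa k τ)) * (P : ℝ) ^ (aa k τ) := by
      refine hMle.trans (le_of_eq ?_)
      rw [Real.mul_rpow (by norm_num) hp0.le]
      ring
    refine (Real.rpow_le_rpow hM0.le h11 he0).trans (le_of_eq ?_)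
    rw [Real.mul_rpow (by positivity) (by positivity), ← Real.rpow_mul hp0.le]
  have h12 : 0 ≤ (1 / (M : ℝ)) ^ d := by positivity
  calc ((Pt k m P (eta k τ c P)).card : ℝ) * (1 / (M : ℝ)) ^ d ≤
      ((M : ℝ) ^ (m + 1) * (νn (m + 1)).real (DP k m P (eta k τ c P) w)) * (1 / (M : ℝ)) ^ d :=
        mul_le_mul_of_nonneg_right h1 h12
    _ = (M : ℝ) ^ e * (νn (m + 1)).real (DP k m P (eta k τ c P) w) := by
        rw [← h9]
        ring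
    _ ≤ ((A1 * 4 ^ (aa k τ)) ^ e * (P : ℝ) ^ (aa k τ * e)) *
        (Cw k m C0 * ((2 * CK) ^ (m + 1) * B1) * (P : ℝ) ^ (δ / 2 - mu k (m + 1) τ)) := by
        refine mul_le_mul h10 h7 measureReal_nonneg (by positivity)
    _ = (A1 * 4 ^ (aa k τ)) ^ e * (Cw k m C0 * ((2 * CK) ^ (m + 1) * B1)) *
        (P : ℝ) ^ (-(δ / 2)) := by
        have h13 : (P : ℝ) ^ (-(δ / 2)) =
            (P : ℝ) ^ (aa k τ * e) * (P : ℝ) ^ (δ / 2 - mu k (m + 1) τ) := by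
          rw [← Real.rpow_add hp0]
          congr 1
          rw [hδdef]
          ring
        rw [h13]
        ring

/-- the exceptional shifts of the unit cube -/
def Exc (k m : ℕ) (τ c : ℝ) : Set (Fin (m + 1) → ℝ) :=
  {β | ∃ᶠ j in atTop, β ∈ Bad k m (Pj j) (eta k τ c (Pj j))}

/-- **The dimension of the exceptional set in the unit cube.** -/
theorem dim_Exc {k m : ℕ} {τ c d : ℝ} (hk : 3 ≤ k) (hm : 2 * k ≤ m) (hc : 0 < c) (hc1 : c ≤ 1)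
    (hτ : 0 ≤ τ) (hd0 : 0 ≤ d) (hd : d ≤ (m : ℝ) + 1)
    (hδ : 0 < mu k (m + 1) τ - aa k τ * ((m : ℝ) + 1 - d)) :
    dimH (Exc k m τ c) ≤ ENNReal.ofReal d := by
  obtain ⟨C, hC, hcard⟩ := card_le hk hm hc hc1 hτ hd hδ
  set δ := mu k (m + 1) τ - aa k τ * ((m : ℝ) + 1 - d) with hδdef
  have hη : ∀ j, 0 < eta k τ c (Pj j) := fun j => eta_pos hc (one_le_Pj j)
  have hη1 : ∀ j, eta k τ c (Pj j) ≤ 1 := fun j => eta_le hc hc1 hτ (one_le_Pj j)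
  have hM : ∀ j, 0 < MM k m (Pj j) (eta k τ c (Pj j)) := fun j =>
    MM_pos (by omega) (one_le_Pj j) (hη j)
  have hMP : ∀ j, (Pj j : ℝ) ≤ MM k m (Pj j) (eta k τ c (Pj j)) := by
    intro j
    refine le_trans ?_ (Nat.le_ceil _)
    rw [le_div_iff₀ (hη j)]
    have hp : (1 : ℝ) ≤ Pj j := by exact_mod_cast one_le_Pj j
    have h1 : (Pj j : ℝ) ≤ (4 * (Pj j : ℝ)) ^ (k - 1) := by
      calc (Pj j : ℝ) ≤ 4 * (Pj j : ℝ) := by linarith
        _ ≤ (4 * (Pj j : ℝ)) ^ (k - 1) := le_self_pow₀ (by linarith) (by omega)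
    have hk1 : (1 : ℝ) ≤ k := by
      have : 1 ≤ k := by omega
      exact_mod_cast this
    have h2 : (1 : ℝ) ≤ (m : ℝ) + 1 := by
      have : (0 : ℝ) ≤ m := Nat.cast_nonneg m
      linarith
    have h3 : (Pj j : ℝ) ≤ k * (4 * (Pj j : ℝ)) ^ (k - 1) := by nlinarith
    have h4 : (Pj j : ℝ) * eta k τ c (Pj j) ≤ Pj j := mul_le_of_le_one_right (by linarith) (hη1 j)
    nlinarith
  have hr0 : ∀ j, 0 ≤ 1 / (MM k m (Pj j) (eta k τ c (Pj j)) : ℝ) := fun j => by positivity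
  have hr : Tendsto (fun j => 1 / (MM k m (Pj j) (eta k τ c (Pj j)) : ℝ)) atTop (𝓝 0) := by
    have h1 : Tendsto (fun j => ((Pj j : ℕ) : ℝ)) atTop atTop :=
      tendsto_natCast_atTop_atTop.comp Pj_tendsto
    have h2 := tendsto_atTop_mono hMP h1
    simp only [one_div]
    exact h2.inv_tendsto_atTop
  have hsum : Summable fun j => ((Pt k m (Pj j) (eta k τ c (Pj j))).card : ℝ) *
      (1 / (MM k m (Pj j) (eta k τ c (Pj j)) : ℝ)) ^ d := by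
    have hgeo : Summable fun j : ℕ => C * ((5 / 4 : ℝ) ^ (-(δ / 2))) ^ j := by
      refine (summable_geometric_of_lt_one (by positivity) ?_).mul_left C
      exact Real.rpow_lt_one_of_one_lt_of_neg (by norm_num) (by linarith)
    refine Summable.of_norm_bounded_eventually_nat hgeo ?_
    filter_upwards [Pj_tendsto.eventually_ge_atTop (2 * k)] with j hj
    have hnn : 0 ≤ ((Pt k m (Pj j) (eta k τ c (Pj j))).card : ℝ) *
      (1 / (MM k m (Pj j) (eta k τ c (Pj j)) : ℝ)) ^ d :=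
      mul_nonneg (Nat.cast_nonneg _) (Real.rpow_nonneg (hr0 j) d)
    rw [Real.norm_eq_abs, abs_of_nonneg hnn]
    refine (hcard (Pj j) hj).trans (mul_le_mul_of_nonneg_left ?_ hC)
    have h1 : (Pj j : ℝ) ^ (-(δ / 2)) ≤ ((5 / 4 : ℝ) ^ j) ^ (-(δ / 2)) :=
      Real.rpow_le_rpow_of_nonpos (by positivity) (Pj_ge j) (by linarith)
    refine h1.trans (le_of_eq ?_)
    rw [← Real.rpow_natCast (5 / 4 : ℝ) j, ← Real.rpow_mul (by norm_num),
      ← Real.rpow_natCast ((5 / 4 : ℝ) ^ (-(δ / 2))) j, ← Real.rpow_mul (by norm_num), mul_comm]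
  have hmain := Pool.Agent.Q138.PS.dimH_limsup (fun j => Pt k m (Pj j) (eta k τ c (Pj j)))
    (fun j => 1 / (MM k m (Pj j) (eta k τ c (Pj j)) : ℝ)) hr0 hr d hd0 hsum
  refine (dimH_mono ?_).trans hmain
  intro β hβ
  refine Filter.Frequently.mono hβ fun j hj => ?_
  exact near_Pt (by omega) (one_le_Pj j) (hη j) hj

end Pool.Agent.Q154.War
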