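import Pool.Agent.Q154.War.DimD

/-!
# The exceptional set of shifts: all shifts, all constants
-/

set_option autoImplicit false
set_option linter.unusedSectionVars false

open MeasureTheory Set Finset Filter
open scoped Real Topology NNReal

namespace Pool.Agent.Q154.War

/-- every large real number has the expected number of representations -/
def Good (k m : ℕ) (τ κ c : ℝ) (α : Fin (m + 1) → ℝ) : Prop :=
  ∃ N₀ : ℝ, ∀ N : ℝ, N₀ ≤ N → ∃ S : Finset (Fin (m + 1) → ℕ),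
    κ * c * N ^ (((m : ℝ) + 1) / k - 1 - τ) ≤ (S.card : ℝ) ∧
    ∀ x ∈ S, (∀ i, 0 < x i) ∧ |∑ i, ((x i : ℝ) + α i) ^ k - N| < c * N ^ (-τ)

/-- the constant -/
noncomputable def κ0 (k m : ℕ) (τ : ℝ) : ℝ :=
  ((4 : ℝ) ^ k) ^ (-τ) / ((4 : ℝ) ^ (m + 1 - k) * (4 * (k : ℝ)) ^ m * (16 * ll k))

lemma κ0_pos {k m : ℕ} {τ : ℝ} (hk : 1 ≤ k) : 0 < κ0 k m τ := by
  have h1 := ll_pos hk
  have h2 : (0 : ℝ) < k := by exact_mod_cast hk
  unfold κ0
  have h3 : 0 < ((4 : ℝ) ^ k) ^ (-τ) := Real.rpow_pos_of_pos (by positivity) _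
  positivity

lemma pow_rpow_neg {x τ : ℝ} (hx : 0 < x) (k : ℕ) : x ^ (-((k : ℝ) * τ)) = (x ^ k) ^ (-τ) := by
  rw [← Real.rpow_natCast x k, ← Real.rpow_mul hx.le]
  congr 1
  ring

lemma Tt_lower {k m P : ℕ} {τ c N : ℝ} (hk : 1 ≤ k) (hm : k ≤ m + 1) (hP : 1 ≤ P) (hc : 0 < c)
    (hτ : 0 ≤ τ) (hN0 : 0 < N) (hN1 : 2 * ((m : ℝ) + 1) * (P : ℝ) ^ k ≤ N)
    (hN2 : N < (4 * (P : ℝ)) ^ k) :
    κ0 k m τ * c * N ^ (((m : ℝ) + 1) / k - 1 - τ) ≤ Tt k m P (eta k τ c P) := by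
  have hk0 : (0 : ℝ) < k := by exact_mod_cast hk
  have hp : (0 : ℝ) < P := by exact_mod_cast hP
  have h4p : 0 < 4 * (P : ℝ) := by positivity
  have hl := ll_pos hk
  have hPk : (0 : ℝ) < (P : ℝ) ^ k := by positivity
  have h1 : ((4 : ℝ) ^ k) ^ (-τ) * N ^ (-τ) ≤ (4 * (P : ℝ)) ^ (-((k : ℝ) * τ)) := by
    rw [pow_rpow_neg h4p, ← Real.mul_rpow (by positivity) hN0.le]
    refine Real.rpow_le_rpow_of_nonpos (by positivity) ?_ (by linarith)
    rw [mul_pow]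
    refine mul_le_mul_of_nonneg_left ?_ (by positivity)
    have hm0 : (0 : ℝ) ≤ m := Nat.cast_nonneg m
    nlinarith [mul_nonneg hm0 hPk.le]
  have h2 : N ^ (((m : ℝ) + 1) / k - 1) ≤ (4 * (P : ℝ)) ^ (m + 1 - k) := by
    have h3 : (4 * (P : ℝ)) ^ (m + 1 - k) = ((4 * (P : ℝ)) ^ k) ^ (((m : ℝ) + 1) / k - 1) := by
      rw [← Real.rpow_natCast _ k, ← Real.rpow_mul h4p.le, ← Real.rpow_natCast _ (m + 1 - k),
        Nat.cast_sub hm]
      congr 1
      push_cast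
      field_simp
    rw [h3]
    refine Real.rpow_le_rpow hN0.le hN2.le ?_
    rw [sub_nonneg, le_div_iff₀ hk0, one_mul]
    exact_mod_cast hm
  have h4 : N ^ (((m : ℝ) + 1) / k - 1 - τ) = N ^ (((m : ℝ) + 1) / k - 1) * N ^ (-τ) := by
    rw [← Real.rpow_add hN0]
    congr 1
  have h5 : Tt k m P (eta k τ c P) = c * (4 * (P : ℝ)) ^ (-((k : ℝ) * τ)) *
      (4 * (P : ℝ)) ^ (m + 1 - k) /
        ((4 : ℝ) ^ (m + 1 - k) * (4 * (k : ℝ)) ^ m * (16 * ll k)) := by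
    have h6 : (P : ℝ) ^ m = (P : ℝ) ^ (m + 1 - k) * (P : ℝ) ^ (k - 1) := by
      rw [← pow_add]
      congr 1
      omega
    unfold Tt eta
    rw [Ll_eq, div_pow (P : ℝ) (4 * (k : ℝ)) m, h6, mul_pow 4 (P : ℝ) (m + 1 - k)]
    generalize (4 * (P : ℝ)) ^ (-((k : ℝ) * τ)) = y
    generalize (4 * (k : ℝ)) ^ m = q
    field_simp
    ring
  rw [h4, h5]
  unfold κ0
  have h7 : 0 ≤ N ^ (-τ) := Real.rpow_nonneg hN0.le _
  have h8 : 0 ≤ N ^ (((m : ℝ) + 1) / k - 1) := Real.rpow_nonneg hN0.le _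
  have h9 : 0 ≤ ((4 : ℝ) ^ k) ^ (-τ) := by positivity
  have h10 : (((4 : ℝ) ^ k) ^ (-τ) * N ^ (-τ)) * N ^ (((m : ℝ) + 1) / k - 1) ≤
      (4 * (P : ℝ)) ^ (-((k : ℝ) * τ)) * (4 * (P : ℝ)) ^ (m + 1 - k) :=
    mul_le_mul h1 h2 h8 (by positivity)
  set Q := (4 : ℝ) ^ (m + 1 - k) * (4 * (k : ℝ)) ^ m * (16 * ll k) with hQ
  have hQ0 : 0 < Q := by positivity
  calc ((4 : ℝ) ^ k) ^ (-τ) / Q * c * (N ^ (((m : ℝ) + 1) / k - 1) * N ^ (-τ)) =
      c * ((((4 : ℝ) ^ k) ^ (-τ) * N ^ (-τ)) * N ^ (((m : ℝ) + 1) / k - 1)) / Q := by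
        field_simp
    _ ≤ c * ((4 * (P : ℝ)) ^ (-((k : ℝ) * τ)) * (4 * (P : ℝ)) ^ (m + 1 - k)) / Q := by
        refine div_le_div_of_nonneg_right ?_ hQ0.le
        exact mul_le_mul_of_nonneg_left h10 hc.le
    _ = _ := by ring

/-- shifts with a fractional part outside the limsup set are good -/
theorem good_of {k m : ℕ} {τ c : ℝ} (hk : 1 ≤ k) (hm : k ≤ m + 1) (hm2 : 2 * (m + 1) ≤ 3 ^ k)
    (hc : 0 < c) (hτ : 0 ≤ τ) {α : Fin (m + 1) → ℝ}
    (hα : (fun i => Int.fract (α i)) ∉ Exc k m τ c) : Good k m τ (κ0 k m τ) c α := by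
  classical
  set β : Fin (m + 1) → ℝ := fun i => Int.fract (α i) with hβ
  have h1 : ∀ᶠ j in atTop, β ∉ Bad k m (Pj j) (eta k τ c (Pj j)) := by
    have : ¬ ∃ᶠ j in atTop, β ∈ Bad k m (Pj j) (eta k τ c (Pj j)) := hα
    rwa [Filter.not_frequently] at this
  have h2 : ∀ᶠ j in atTop, ∀ i, ⌊α i⌋ < (Pj j : ℤ) := by
    rw [Filter.eventually_all]
    intro i
    filter_upwards [Pj_tendsto.eventually_gt_atTop ⌊α i⌋.toNat] with j hj
    have h3 := Int.self_le_toNat ⌊α i⌋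
    have h4 : ((⌊α i⌋.toNat : ℕ) : ℤ) < (Pj j : ℤ) := by exact_mod_cast hj
    linarith
  obtain ⟨J, hJ⟩ := Filter.eventually_atTop.1 (h1.and h2)
  obtain ⟨N₀, hN01, hwin⟩ := windows hk hm2 J
  refine ⟨N₀, fun N hN => ?_⟩
  have hN0 : 0 < N := by linarith
  obtain ⟨j, hjJ, hN1, hN2⟩ := hwin N hN
  obtain ⟨hb, hz⟩ := hJ j hjJ
  have hP := one_le_Pj j
  have hp : (0 : ℝ) < Pj j := by exact_mod_cast hP
  have h4p : 0 < 4 * (Pj j : ℝ) := by positivity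
  have hcard : Tt k m (Pj j) (eta k τ c (Pj j)) ≤
      ((sol k (m + 1) (Pj j) (2 * eta k τ c (Pj j)) β N).card : ℝ) := by
    by_contra hcon
    push Not at hcon
    exact hb ⟨fun i => ⟨Int.fract_nonneg _, Int.fract_lt_one _⟩, N, hN1, hN2, hcon⟩
  have hbox : ∀ x ∈ sol k (m + 1) (Pj j) (2 * eta k τ c (Pj j)) β N, ∀ i,
      (Pj j : ℤ) ≤ (x i : ℤ) := by
    intro x hx i
    unfold sol box at hx
    rw [Finset.mem_filter, Fintype.mem_piFinset] at hx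
    have h3 := hx.1 i
    rw [Finset.mem_Ico] at h3
    exact_mod_cast h3.1
  refine ⟨(sol k (m + 1) (Pj j) (2 * eta k τ c (Pj j)) β N).image
    (fun x i => ((x i : ℤ) - ⌊α i⌋).toNat), ?_, ?_⟩
  · rw [Finset.card_image_of_injOn]
    · exact (Tt_lower hk hm hP hc hτ hN0 hN1 hN2).trans hcard
    · intro x hx y hy hxy
      funext i
      have e := congrFun hxy i
      simp only at e
      have h3 := hbox x hx i
      have h4 := hbox y hy i
      have h5 := hz i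
      omega
  · intro y hy
    rw [Finset.mem_image] at hy
    obtain ⟨x, hx, rfl⟩ := hy
    have hpos : ∀ i, 0 < (x i : ℤ) - ⌊α i⌋ := by
      intro i
      have h3 := hbox x hx i
      have h5 := hz i
      linarith
    refine ⟨fun i => ?_, ?_⟩
    · have := hpos i
      show 0 < ((x i : ℤ) - ⌊α i⌋).toNat
      omega
    · have h6 : ∑ i, (((((x i : ℤ) - ⌊α i⌋).toNat : ℕ) : ℝ) + α i) ^ k = sx k (m + 1) x β := by
        unfold sx
        refine Finset.sum_congr rfl fun i _ => ?_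
        congr 1
        have h7 : (((((x i : ℤ) - ⌊α i⌋).toNat : ℕ) : ℤ) : ℝ) = ((x i : ℤ) : ℝ) - ⌊α i⌋ := by
          rw [Int.toNat_of_nonneg (hpos i).le]
          push_cast
          ring
        have h8 : ((((x i : ℤ) - ⌊α i⌋).toNat : ℕ) : ℝ) = (x i : ℝ) - ⌊α i⌋ := by
          exact_mod_cast h7
        rw [h8, hβ]
        have h9 := Int.floor_add_fract (α i)
        simp only
        linarith
      rw [h6]
      unfold sol at hx
      rw [Finset.mem_filter] at hx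
      refine lt_of_lt_of_le hx.2 ?_
      unfold eta
      have h10 : (4 * (Pj j : ℝ)) ^ (-((k : ℝ) * τ)) ≤ N ^ (-τ) := by
        rw [pow_rpow_neg h4p]
        exact Real.rpow_le_rpow_of_nonpos hN0 hN2.le (by linarith)
      have h11 := mul_le_mul_of_nonneg_left h10 hc.le
      linarith

/-- translation to the unit cube -/
theorem dim_notGood {k m : ℕ} {τ c d : ℝ} (hk : 3 ≤ k) (hm : 2 * k ≤ m)
    (hm2 : 2 * (m + 1) ≤ 3 ^ k) (hc : 0 < c) (hc1 : c ≤ 1)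
    (hτ : 0 ≤ τ) (hd0 : 0 ≤ d) (hd : d ≤ (m : ℝ) + 1)
    (hδ : 0 < mu k (m + 1) τ - aa k τ * ((m : ℝ) + 1 - d)) :
    dimH {α : Fin (m + 1) → ℝ | ¬ Good k m τ (κ0 k m τ) c α} ≤ ENNReal.ofReal d := by
  have h1 : {α : Fin (m + 1) → ℝ | ¬ Good k m τ (κ0 k m τ) c α} ⊆
      ⋃ z : Fin (m + 1) → ℤ,
        (IsometryEquiv.addRight (fun i => ((z i : ℤ) : ℝ))) '' Exc k m τ c := by
    intro α hα
    rw [Set.mem_iUnion]
    refine ⟨fun i => ⌊α i⌋, fun i => Int.fract (α i), ?_, ?_⟩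
    · by_contra hcon
      exact hα (good_of (by omega) (by omega) hm2 hc hτ hcon)
    · funext i
      rw [IsometryEquiv.addRight_apply, Pi.add_apply, add_comm]
      exact Int.floor_add_fract (α i)
  refine (dimH_mono h1).trans ?_
  rw [dimH_iUnion]
  refine iSup_le fun z => ?_
  rw [(IsometryEquiv.addRight (fun i => ((z i : ℤ) : ℝ))).isometry.dimH_image]
  exact dim_Exc hk hm hc hc1 hτ hd0 hd hδ

/-- from the constants `1/(M+1)` to all constants -/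
lemma good_all {k m : ℕ} {τ κ : ℝ} (hκ : 0 ≤ κ) {α : Fin (m + 1) → ℝ}
    (h : ∀ M : ℕ, Good k m τ κ (1 / ((M : ℝ) + 1)) α) {c : ℝ} (hc : 0 < c) (hc1 : c ≤ 1) :
    Good k m τ (κ / 2) c α := by
  set M := ⌊1 / c⌋₊ with hM
  have h1 : (M : ℝ) ≤ 1 / c := Nat.floor_le (by positivity)
  have h2 : 1 / c < (M : ℝ) + 1 := Nat.lt_floor_add_one _
  have h3 : (0 : ℝ) < (M : ℝ) + 1 := by positivity
  have h4 : 1 / ((M : ℝ) + 1) ≤ c := by
    rw [div_le_iff₀ h3]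
    rw [div_lt_iff₀ hc] at h2
    linarith
  have h5 : c / 2 ≤ 1 / ((M : ℝ) + 1) := by
    rw [le_div_iff₀ h3]
    rw [le_div_iff₀ hc] at h1
    nlinarith
  obtain ⟨N₀, hN₀⟩ := h M
  refine ⟨max N₀ 1, fun N hN => ?_⟩
  have hN1 : N₀ ≤ N := (le_max_left _ _).trans hN
  have hN2 : 1 ≤ N := (le_max_right _ _).trans hN
  have hN0 : 0 < N := by linarith
  obtain ⟨S, hS1, hS2⟩ := hN₀ N hN1
  refine ⟨S, ?_, fun x hx => ?_⟩
  · refine le_trans ?_ hS1
    refine mul_le_mul_of_nonneg_right ?_ (Real.rpow_nonneg hN0.le _)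
    have := mul_le_mul_of_nonneg_left h5 hκ
    linarith
  · obtain ⟨h6, h7⟩ := hS2 x hx
    refine ⟨h6, h7.trans_le ?_⟩
    exact mul_le_mul_of_nonneg_right h4 (Real.rpow_nonneg hN0.le _)

/-- **The dimension of the exceptional set of shifts.** -/
theorem dim_main {k m : ℕ} {τ : ℝ} (hk : 3 ≤ k) (hm : 2 * k ≤ m) (hm2 : 2 * (m + 1) ≤ 3 ^ k)
    (hτ : 0 ≤ τ) (hτ2 : 2 * k * (1 + τ) < (m : ℝ) + 1) :
    dimH {α : Fin (m + 1) → ℝ | ¬ ∀ c : ℝ, 0 < c → c ≤ 1 → Good k m τ (κ0 k m τ / 2) c α} ≤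
      ENNReal.ofReal ((m : ℝ) + 1 - mu k (m + 1) τ / aa k τ) := by
  have hk3 : (3 : ℝ) ≤ k := by exact_mod_cast hk
  have hm6 : (6 : ℝ) ≤ m := by
    have : 6 ≤ m := by omega
    exact_mod_cast this
  have haa : 2 ≤ aa k τ := by
    have h2 : 0 ≤ (k : ℝ) * τ := by positivity
    unfold aa
    linarith
  have hmu : 0 < mu k (m + 1) τ := by
    unfold mu
    refine lt_min (by norm_num) ?_
    push_cast
    linarith
  have hmu4 : mu k (m + 1) τ ≤ 4 := min_le_left _ _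
  have hq0 : 0 < mu k (m + 1) τ / aa k τ := by positivity
  have hq2 : mu k (m + 1) τ / aa k τ ≤ 2 := by
    rw [div_le_iff₀ (by linarith)]
    linarith
  set d0 := (m : ℝ) + 1 - mu k (m + 1) τ / aa k τ with hd0
  have hd00 : 0 ≤ d0 := by linarith
  refine ENNReal.le_of_forall_pos_le_add fun ε hε _ => ?_
  have hε' : (0 : ℝ) < ε := by exact_mod_cast hε
  set d := min (d0 + ε) ((m : ℝ) + 1) with hd
  have hd1 : d ≤ (m : ℝ) + 1 := min_le_right _ _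
  have hd2 : d ≤ d0 + ε := min_le_left _ _
  have hd3 : d0 < d := lt_min (by linarith) (by linarith)
  have hδ : 0 < mu k (m + 1) τ - aa k τ * ((m : ℝ) + 1 - d) := by
    have h1 : (m : ℝ) + 1 - d < mu k (m + 1) τ / aa k τ := by linarith
    rw [lt_div_iff₀ (by linarith)] at h1
    linarith
  have h2 : {α : Fin (m + 1) → ℝ | ¬ ∀ c : ℝ, 0 < c → c ≤ 1 → Good k m τ (κ0 k m τ / 2) c α} ⊆
      ⋃ M : ℕ, {α : Fin (m + 1) → ℝ | ¬ Good k m τ (κ0 k m τ) (1 / ((M : ℝ) + 1)) α} := by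
    intro α hα
    rw [Set.mem_iUnion]
    by_contra hcon
    push Not at hcon
    apply hα
    intro c hc hc1
    refine good_all (κ0_pos (by omega)).le (fun M => ?_) hc hc1
    have := hcon M
    simpa only [Set.mem_ofPred_eq, not_not] using this
  refine (dimH_mono h2).trans ?_
  rw [dimH_iUnion]
  refine iSup_le fun M => ?_
  have h3 : dimH {α : Fin (m + 1) → ℝ | ¬ Good k m τ (κ0 k m τ) (1 / ((M : ℝ) + 1)) α} ≤
      ENNReal.ofReal d := by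
    refine dim_notGood hk hm hm2 (by positivity) ?_ hτ (by linarith) hd1 hδ
    rw [div_le_one (by positivity)]
    have : (0 : ℝ) ≤ M := Nat.cast_nonneg M
    linarith
  refine h3.trans ((ENNReal.ofReal_le_ofReal hd2).trans ?_)
  rw [ENNReal.ofReal_add hd00 hε'.le, ENNReal.ofReal_coe_nnreal]

end Pool.Agent.Q154.War
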