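import Pool.Agent.Q154.War.DimC

/-!
# Smoothing at a second scale
-/

set_option autoImplicit false
set_option linter.unusedSectionVars false

open MeasureTheory Set Finset FourierTransform
open scoped Real

namespace Pool.Agent.Q154.War

/-- the transform of the uniform distribution on `[-1/2, 1/2]` -/
noncomputable def t1 (x : ℝ) : ℂ := ∫ y, ee (-(x * (y - 1 / 2))) ∂ν1

lemma t1_eq (x : ℝ) : t1 x = ∫ y in (0 : ℝ)..1, ee (-(x * (y - 1 / 2))) := integral_ν1 _

lemma t1_neg (x : ℝ) : t1 (-x) = t1 x := by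
  rw [t1_eq, t1_eq]
  have h := intervalIntegral.integral_comp_sub_left (a := 0) (b := 1)
    (fun y : ℝ => ee (-(x * (y - 1 / 2)))) 1
  rw [sub_self, sub_zero] at h
  rw [← h]
  refine intervalIntegral.integral_congr fun y _ => ?_
  congr 1
  ring

lemma norm_t1_le (x : ℝ) : ‖t1 x‖ ≤ 1 := by
  unfold t1
  refine (norm_integral_le_of_norm_le_const (C := 1)
    (Filter.Eventually.of_forall fun y => (norm_ee _).le)).trans_eq ?_
  simp

lemma norm_t1_mul_of_neg {x : ℝ} (hx : x < 0) : |x| * ‖t1 x‖ ≤ 1 := by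
  have h := osc (f := fun y => -(x * (y - 1 / 2))) (f' := fun _ => -x) (f'' := fun _ => 0)
    (a := 0) (b := 1) (m := -x) zero_le_one (by linarith)
    (fun y => by
      have h1 : HasDerivAt (fun y : ℝ => y - 1 / 2) 1 y := (hasDerivAt_id y).sub_const _
      have h2 : HasDerivAt (fun y : ℝ => -(x * (y - 1 / 2))) (-(x * 1)) y := (h1.const_mul x).neg
      rw [mul_one] at h2
      exact h2)
    (fun y => hasDerivAt_const y _) continuous_const (fun y _ => le_rfl) (fun y _ => le_rfl)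
  rw [← t1_eq] at h
  rw [abs_of_neg hx]
  have h2 : (-x) * ‖t1 x‖ ≤ (-x) * (1 / (π * (-x))) := mul_le_mul_of_nonneg_left h (by linarith)
  refine h2.trans ?_
  have h3 : (-x) * (1 / (π * (-x))) = 1 / π := by
    have h4 : x ≠ 0 := hx.ne
    field_simp
  rw [h3, div_le_one Real.pi_pos]
  linarith [Real.pi_gt_three]

lemma norm_t1_mul (x : ℝ) : |x| * ‖t1 x‖ ≤ 1 := by
  rcases lt_trichotomy x 0 with h | h | h
  · exact norm_t1_mul_of_neg h
  · rw [h]
    simp
  · have h1 := norm_t1_mul_of_neg (x := -x) (by linarith)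
    rwa [abs_neg, t1_neg] at h1

lemma norm_t1_sq_le (x : ℝ) : ‖t1 x‖ ^ 2 ≤ 4 * (1 + |x|) ^ (-(1 + (1 : ℝ))) := by
  have h1 := norm_t1_le x
  have h2 := norm_t1_mul x
  have h0 : 0 ≤ ‖t1 x‖ := norm_nonneg _
  have h3 : (1 + |x|) * ‖t1 x‖ ≤ 2 := by linarith
  have h4 : 0 < 1 + |x| := by
    have := abs_nonneg x
    linarith
  have h5 : (1 + |x|) ^ (-(1 + (1 : ℝ))) = ((1 + |x|) ^ 2)⁻¹ := by
    rw [Real.rpow_neg h4.le]
    congr 1
    rw [← Real.rpow_natCast]
    norm_num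
  rw [h5, ← div_eq_mul_inv, le_div_iff₀ (by positivity)]
  have h6 : ((1 + |x|) * ‖t1 x‖) ^ 2 ≤ 2 ^ 2 := pow_le_pow_left₀ (by positivity) h3 2
  nlinarith

lemma norm_one_sub_t1 (x : ℝ) : ‖1 - t1 x‖ ≤ mL (1 / 2) x := by
  have hc : ∀ c : ℝ, IntervalIntegrable (fun y : ℝ => ee (c * (x * (y - 1 / 2)))) volume 0 1 :=
    fun c => (continuous_ee.comp (by fun_prop)).intervalIntegrable _ _
  have hc1 : IntervalIntegrable (fun y : ℝ => ee (x * (y - 1 / 2))) volume 0 1 := by
    have := hc 1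
    simpa using this
  have hc2 : IntervalIntegrable (fun y : ℝ => ee (-(x * (y - 1 / 2)))) volume 0 1 := by
    have := hc (-1)
    simpa using this
  have h1 : t1 x = ∫ y in (0 : ℝ)..1, ee (x * (y - 1 / 2)) := by
    rw [← t1_neg, t1_eq]
    refine intervalIntegral.integral_congr fun y _ => ?_
    congr 1
    ring
  have h2 : 1 - t1 x = ∫ y in (0 : ℝ)..1,
      ((1 : ℂ) - (ee (x * (y - 1 / 2)) + ee (-(x * (y - 1 / 2)))) / 2) := by
    rw [intervalIntegral.integral_sub (by simp) ((hc1.add hc2).div_const 2),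
      intervalIntegral.integral_div, intervalIntegral.integral_add hc1 hc2, ← h1, ← t1_eq]
    simp
  rw [h2]
  have h3 := intervalIntegral.norm_integral_le_of_norm_le_const (a := 0) (b := 1)
    (f := fun y : ℝ => (1 : ℂ) - (ee (x * (y - 1 / 2)) + ee (-(x * (y - 1 / 2)))) / 2)
    (C := mL (1 / 2) x) (fun y hy => ?_)
  · simpa using h3
  · rw [uIoc_of_le zero_le_one] at hy
    refine norm_one_sub_cos ?_
    rw [abs_le]
    constructor <;> linarith [hy.1, hy.2]

lemma norm_one_sub_t1_sq (x : ℝ) : ‖1 - t1 x ^ 2‖ ≤ 2 * mL (1 / 2) x := by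
  have h1 : 1 - t1 x ^ 2 = (1 - t1 x) * (1 + t1 x) := by ring
  rw [h1, norm_mul]
  have h2 := norm_one_sub_t1 x
  have h3 : ‖1 + t1 x‖ ≤ 2 := by
    refine (norm_add_le _ _).trans ?_
    have := norm_t1_le x
    simp only [norm_one]
    linarith
  have h4 := mL_nonneg (1 / 2) x
  calc ‖1 - t1 x‖ * ‖1 + t1 x‖ ≤ mL (1 / 2) x * 2 := mul_le_mul h2 h3 (norm_nonneg _) h4
    _ = _ := by ring

/-! ### the smoothed weight -/

/-- the uniform measure on the square -/
noncomputable def ν2 : Measure (ℝ × ℝ) := ν1.prod ν1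

instance : IsProbabilityMeasure ν2 := by
  unfold ν2
  infer_instance

/-- the translations -/
noncomputable def sm (W : ℝ) (_ : Unit) (p : ℝ × ℝ) : ℝ := W * (p.1 + p.2 - 1)

lemma measurable_sm (W : ℝ) (u : Unit) : Measurable (sm W u) := by
  unfold sm
  fun_prop

lemma ae_ν2 : ∀ᵐ p ∂ν2, |p.1 + p.2 - 1| ≤ 1 := by
  unfold ν2 ν1
  rw [Measure.prod_restrict]
  have h := ae_restrict_mem (μ := (volume : Measure ℝ).prod (volume : Measure ℝ))
    (s := Set.Icc (0 : ℝ) 1 ×ˢ Set.Icc (0 : ℝ) 1) (measurableSet_Icc.prod measurableSet_Icc)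
  filter_upwards [h] with p hp
  rw [abs_le]
  constructor <;> linarith [hp.1.1, hp.1.2, hp.2.1, hp.2.2]

lemma TB_sm (W θ : ℝ) : TB ν2 {()} (sm W) θ = t1 (W * θ) ^ 2 := by
  unfold TB TT ν2
  simp only [Finset.sum_singleton]
  have h1 : ∀ p : ℝ × ℝ, ee (-(sm W () p * θ)) =
      ee (-(W * θ * (p.1 - 1 / 2))) * ee (-(W * θ * (p.2 - 1 / 2))) := by
    intro p
    rw [← ee_add]
    congr 1
    unfold sm
    ring
  simp only [h1]
  rw [integral_prod_mul (fun y : ℝ => ee (-(W * θ * (y - 1 / 2))))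
    (fun y : ℝ => ee (-(W * θ * (y - 1 / 2)))), sq]
  rfl

/-- the smoothed weight -/
noncomputable def wk (W : ℝ) (w : ℝ → ℝ) : ℝ → ℝ := VV ν2 {()} (sm W) w

lemma wk_eq (W : ℝ) (w : ℝ → ℝ) (N : ℝ) : wk W w N = ∫ p, w (N - sm W () p) ∂ν2 := by
  unfold wk VV rr
  simp only [Finset.sum_singleton]

lemma fourier_wk {w : ℝ → ℝ} (hw : Wt w) (W θ : ℝ) :
    𝓕 (fun u => (wk W w u : ℂ)) θ = 𝓕 (fun u => (w u : ℂ)) θ * t1 (W * θ) ^ 2 := by
  unfold wk
  rw [fourier_VV hw (measurable_sm W) θ, TB_sm]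

lemma continuous_t1 : Continuous t1 := by
  unfold t1
  refine continuous_of_dominated (bound := fun _ => (1 : ℝ)) ?_ ?_ (integrable_const _) ?_
  · intro x
    exact (continuous_ee.comp (by fun_prop)).aestronglyMeasurable
  · intro x
    exact Filter.Eventually.of_forall fun y => (norm_ee _).le
  · exact Filter.Eventually.of_forall fun y => continuous_ee.comp (by fun_prop)

lemma wk_zero {η W : ℝ} {w : ℝ → ℝ} (hW : 0 ≤ W) (hz : ∀ u, η ≤ |u| → w u = 0) {N : ℝ}
    (hN : η + W ≤ |N|) : wk W w N = 0 := by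
  rw [wk_eq]
  refine integral_eq_zero_of_ae ?_
  filter_upwards [ae_ν2] with p hp
  refine hz _ ?_
  have h1 : |sm W () p| ≤ W := by
    unfold sm
    rw [abs_mul, abs_of_nonneg hW]
    exact mul_le_of_le_one_right hW hp
  have h2 := abs_sub_abs_le_abs_sub N (sm W () p)
  linarith

lemma wt_wk {η W : ℝ} {w : ℝ → ℝ} (hw : Wt w) (hW : 0 ≤ W) (hz : ∀ u, η ≤ |u| → w u = 0) :
    Wt (wk W w) := by
  refine ⟨continuous_VV hw (measurable_sm W), ?_, ?_, ?_, ?_⟩
  · refine HasCompactSupport.intro (isCompact_Icc (a := -(η + W)) (b := η + W)) fun u hu => ?_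
    refine wk_zero hW hz ?_
    by_contra hcon
    rw [not_le, abs_lt] at hcon
    exact hu ⟨hcon.1.le, hcon.2.le⟩
  · intro u
    rw [wk_eq]
    exact integral_nonneg fun p => hw.nonneg _
  · intro u
    rw [wk_eq]
    have h1 : ∫ p, w (u - sm W () p) ∂ν2 ≤ ∫ _p, (1 : ℝ) ∂ν2 := by
      refine integral_mono_of_nonneg (Filter.Eventually.of_forall fun p => hw.nonneg _)
        (integrable_const _) (Filter.Eventually.of_forall fun p => hw.le_one _)
    simpa using h1
  · have e : (𝓕 fun u => (wk W w u : ℂ)) =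
        fun θ => 𝓕 (fun u => (w u : ℂ)) θ * t1 (W * θ) ^ 2 := by
      ext θ
      exact fourier_wk hw W θ
    rw [e]
    refine hw.four.mul_bdd (c := 1) ?_ ?_
    · exact ((continuous_t1.comp (by fun_prop)).pow 2).aestronglyMeasurable
    · refine Filter.Eventually.of_forall fun θ => ?_
      rw [norm_pow]
      exact pow_le_one₀ (norm_nonneg _) (norm_t1_le _)

lemma norm_four_wk_le {η W : ℝ} {w : ℝ → ℝ} (hη : 0 < η) (hw : Bump η w) (θ : ℝ) :
    ‖𝓕 (fun u => (wk W w u : ℂ)) θ‖ ≤ 2 * η := by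
  rw [fourier_wk hw.toWt, norm_mul, norm_pow]
  have h1 : ‖t1 (W * θ)‖ ^ 2 ≤ 1 := pow_le_one₀ (norm_nonneg _) (norm_t1_le _)
  have h2 := (norm_four_le hw.toWt θ).trans (hw.integral_le hη)
  calc ‖𝓕 (fun u => (w u : ℂ)) θ‖ * ‖t1 (W * θ)‖ ^ 2 ≤ 2 * η * 1 :=
        mul_le_mul h2 h1 (by positivity) (by positivity)
    _ = 2 * η := mul_one _

lemma int_four_wk {η W : ℝ} {w : ℝ → ℝ} (hη : 0 < η) (hW : 0 < W) (hw : Bump η w) :
    ∫ θ, ‖𝓕 (fun u => (wk W w u : ℂ)) θ‖ ≤ 8 * η * (K2 1 / W) := by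
  have h1 : ∀ θ, ‖𝓕 (fun u => (wk W w u : ℂ)) θ‖ ≤
      8 * η * (1 + |θ| * W) ^ (-(1 + (1 : ℝ))) := by
    intro θ
    rw [fourier_wk hw.toWt, norm_mul, norm_pow]
    have h2 := (norm_four_le hw.toWt θ).trans (hw.integral_le hη)
    have h3 := norm_t1_sq_le (W * θ)
    have h4 : |W * θ| = |θ| * W := by rw [abs_mul, abs_of_pos hW, mul_comm]
    rw [h4] at h3
    calc ‖𝓕 (fun u => (w u : ℂ)) θ‖ * ‖t1 (W * θ)‖ ^ 2 ≤
        (2 * η) * (4 * (1 + |θ| * W) ^ (-(1 + (1 : ℝ)))) :=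
          mul_le_mul h2 h3 (by positivity) (by positivity)
      _ = _ := by ring
  refine (integral_mono_of_nonneg (Filter.Eventually.of_forall fun θ => norm_nonneg _)
    ((integrable_scaled (s := 1) one_pos hW).const_mul (8 * η))
    (Filter.Eventually.of_forall h1)).trans_eq ?_
  rw [integral_const_mul, integral_scaled hW]

lemma int_wk_ge {η W : ℝ} {w : ℝ → ℝ} (hη : 0 < η) (hW : 0 ≤ W) (hw : Bump η w) {a b s : ℝ}
    (ha : a ≤ s - (η / 2 + W)) (hb : s + (η / 2 + W) ≤ b) :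
    η ≤ ∫ y in a..b, wk W w (y - s) := by
  have hab : a ≤ b := by linarith
  rw [intervalIntegral.integral_of_le hab]
  simp only [wk_eq]
  have hmeas : Measurable (Function.uncurry fun (y : ℝ) (p : ℝ × ℝ) => w (y - s - sm W () p)) := by
    refine hw.cont.measurable.comp ?_
    exact (measurable_fst.sub_const s).sub ((measurable_sm W ()).comp measurable_snd)
  have hint : Integrable (Function.uncurry fun (y : ℝ) (p : ℝ × ℝ) => w (y - s - sm W () p))
      ((volume.restrict (Set.Ioc a b)).prod ν2) := by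
    refine Integrable.of_bound hmeas.aestronglyMeasurable 1 ?_
    refine Filter.Eventually.of_forall fun q => ?_
    rw [Real.norm_eq_abs, abs_of_nonneg]
    · exact hw.le_one _
    · exact hw.nonneg _
  rw [integral_integral_swap hint]
  have hc : ∫ _p : ℝ × ℝ, η ∂ν2 = η := by simp
  rw [← hc]
  refine integral_mono_ae (integrable_const _) hint.integral_prod_right ?_
  filter_upwards [ae_ν2] with p hp
  have h1 : |sm W () p| ≤ W := by
    unfold sm
    rw [abs_mul, abs_of_nonneg hW]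
    exact mul_le_of_le_one_right hW hp
  rw [abs_le] at h1
  have h2 := int_bump_ge hη hw (a := a) (b := b) (s := s + sm W () p) (by linarith) (by linarith)
  rw [intervalIntegral.integral_of_le hab] at h2
  simp only [sub_sub]
  exact h2

end Pool.Agent.Q154.War
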