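import Pool.Agent.Q154.War.DimF

/-!
# Smoothing at a second scale: the lower bound and the mean square of the difference
-/

set_option autoImplicit false
set_option linter.unusedSectionVars false

open MeasureTheory Set Finset FourierTransform
open scoped Real

namespace Pool.Agent.Q154.War

/-- **The deterministic lower bound**, general weight. -/
theorem det_lower_gen {k m P : ℕ} {η D N : ℝ} {w : ℝ → ℝ} (hk : 1 ≤ k) (hP : 2 * k ≤ P)
    (hη : 0 < η) (hD : D ≤ k * (4 * (P : ℝ)) ^ (k - 1)) (hwc : Continuous w)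
    (hw0 : ∀ u, 0 ≤ w u)
    (hwi : ∀ a b s : ℝ, a ≤ s - D → s + D ≤ b → η ≤ ∫ y in a..b, w (y - s))
    (hN1 : 2 * ((m : ℝ) + 1) * (P : ℝ) ^ k ≤ N)
    (hN2 : N < (4 * P : ℝ) ^ k) {α : Fin (m + 1) → ℝ} (hα : ∀ i, α i ∈ Set.Icc (0 : ℝ) 1) :
    ((P : ℝ) / (4 * k)) ^ m * η ≤
      ∫ y in (N - Ll k P)..(N + Ll k P), rr (box (m + 1) P) (sx k (m + 1)) w α y := by
  classical
  have hP1 : 1 ≤ P := by omega
  have hPr : (1 : ℝ) ≤ P := by exact_mod_cast hP1
  have hk0 : (0 : ℝ) < k := by exact_mod_cast hk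
  have hk1 : (1 : ℝ) ≤ k := by exact_mod_cast hk
  set Q := P / (2 * k) with hQ
  have hQP : (Q : ℝ) ≤ P / (2 * k) := by
    have h := Nat.cast_div_le (m := P) (n := 2 * k) (α := ℝ)
    push_cast at h
    exact h
  have hQ1 : 1 ≤ Q := (Nat.one_le_div_iff (by omega)).2 hP
  have hQ2 : (P : ℝ) / (4 * k) ≤ Q := by
    have h1 : P < 2 * k * (Q + 1) := by
      have := Nat.lt_mul_div_succ P (by omega : 0 < 2 * k)
      simpa [hQ] using this
    have h2 : P ≤ 4 * k * Q := by nlinarith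
    rw [div_le_iff₀ (by positivity)]
    have h3 : (P : ℝ) ≤ 4 * k * Q := by exact_mod_cast h2
    linarith
  obtain ⟨t, β, rfl⟩ : ∃ (t : ℝ) (β : Fin m → ℝ), α = Fin.cons t β :=
    ⟨α 0, Fin.tail α, (Fin.cons_self_tail α).symm⟩
  have ht := hα 0
  rw [Fin.cons_zero] at ht
  have hβ : ∀ i, β i ∈ Set.Icc (0 : ℝ) 1 := by
    intro i
    have := hα i.succ
    rwa [Fin.cons_succ] at this
  set small : Finset (Fin m → ℕ) := Fintype.piFinset fun _ => Finset.Ico P (P + Q) with hsmall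
  have hsub : small ⊆ box m P := by
    intro x hx
    rw [hsmall, Fintype.mem_piFinset] at hx
    unfold box
    rw [Fintype.mem_piFinset]
    intro i
    have h1 := hx i
    rw [Finset.mem_Ico] at h1 ⊢
    have h2 : Q ≤ P := Nat.div_le_self _ _
    omega
  have hcard : (small.card : ℝ) = (Q : ℝ) ^ m := by
    rw [hsmall, Fintype.card_piFinset]
    simp
  have hL0 : 0 ≤ Ll k P := by
    unfold Ll
    positivity
  have hLbig : k * (4 * (P : ℝ)) ^ (k - 1) + D ≤ Ll k P := by
    unfold Ll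
    linarith
  have hint : ∀ (x0 : ℕ) (x : Fin m → ℕ), IntervalIntegrable
      (fun y => w (y - sx k (m + 1) (Fin.cons x0 x) (Fin.cons t β))) volume
        (N - Ll k P) (N + Ll k P) := fun x0 x =>
    (hwc.comp (by fun_prop)).intervalIntegrable _ _
  have hterm : ∀ x ∈ small, η ≤ ∑ x0 ∈ Finset.Ico P (4 * P),
      ∫ y in (N - Ll k P)..(N + Ll k P),
        w (y - sx k (m + 1) (Fin.cons x0 x) (Fin.cons t β)) := by
    intro x hx
    have hs0 : 0 ≤ sx k m x β := by
      unfold sx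
      refine Finset.sum_nonneg fun i _ => ?_
      have := (hβ i).1
      positivity
    have hs1 : sx k m x β ≤ m * (2 * (P : ℝ) ^ k) := by
      unfold sx
      calc ∑ i, ((x i : ℝ) + β i) ^ k ≤ ∑ _i : Fin m, 2 * (P : ℝ) ^ k := by
            refine Finset.sum_le_sum fun i _ => ?_
            have h1 : (x i : ℝ) + β i ≤ P * (1 + 1 / (2 * k)) := by
              have h2 := (hβ i).2
              rw [hsmall, Fintype.mem_piFinset] at hx
              have h3 := hx i
              rw [Finset.mem_Ico] at h3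
              have h4 : x i + 1 ≤ P + Q := h3.2
              have h5 : (x i : ℝ) + 1 ≤ P + Q := by exact_mod_cast h4
              have h6 : (P : ℝ) * (1 + 1 / (2 * k)) = P + P / (2 * k) := by ring
              rw [h6]
              linarith
            calc ((x i : ℝ) + β i) ^ k ≤ (P * (1 + 1 / (2 * k))) ^ k := by
                  have := (hβ i).1
                  exact pow_le_pow_left₀ (by positivity) h1 k
              _ = (P : ℝ) ^ k * (1 + 1 / (2 * k)) ^ k := mul_pow _ _ _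
              _ ≤ (P : ℝ) ^ k * 2 :=
                  mul_le_mul_of_nonneg_left (pow_half hk) (by positivity)
              _ = 2 * (P : ℝ) ^ k := by ring
        _ = m * (2 * (P : ℝ) ^ k) := by simp
    obtain ⟨x0, hx0, hclose⟩ := exists_last (t := t) (M := N - sx k m x β) hk hP ht.1 ht.2
      (by nlinarith) (by linarith)
    have hnn : ∀ x0 ∈ Finset.Ico P (4 * P), 0 ≤ ∫ y in (N - Ll k P)..(N + Ll k P),
        w (y - sx k (m + 1) (Fin.cons x0 x) (Fin.cons t β)) := fun x0 _ =>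
      intervalIntegral.integral_nonneg (by linarith) fun y _ => hw0 _
    refine le_trans ?_ (Finset.single_le_sum hnn hx0)
    rw [sx_cons]
    rw [abs_le] at hclose
    refine hwi _ _ _ ?_ ?_
    · linarith [hclose.1, hclose.2]
    · linarith [hclose.1, hclose.2]
  have hrr : ∫ y in (N - Ll k P)..(N + Ll k P),
      rr (box (m + 1) P) (sx k (m + 1)) w (Fin.cons t β) y =
      ∑ x ∈ box m P, ∑ x0 ∈ Finset.Ico P (4 * P), ∫ y in (N - Ll k P)..(N + Ll k P),
        w (y - sx k (m + 1) (Fin.cons x0 x) (Fin.cons t β)) := by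
    unfold rr
    simp only [sum_box]
    rw [intervalIntegral.integral_finsetSum]
    · refine Finset.sum_congr rfl fun x _ => ?_
      rw [intervalIntegral.integral_finsetSum]
      intro x0 _
      exact hint x0 x
    · intro x _
      refine (continuous_finsetSum _ fun x0 _ => ?_).intervalIntegrable _ _
      exact hwc.comp (by fun_prop)
  rw [hrr]
  calc ((P : ℝ) / (4 * k)) ^ m * η ≤ (Q : ℝ) ^ m * η := by
        refine mul_le_mul_of_nonneg_right ?_ hη.le
        exact pow_le_pow_left₀ (by positivity) hQ2 m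
    _ = ∑ _x ∈ small, η := by
        rw [Finset.sum_const, nsmul_eq_mul, hcard]
    _ ≤ ∑ x ∈ small, ∑ x0 ∈ Finset.Ico P (4 * P), ∫ y in (N - Ll k P)..(N + Ll k P),
          w (y - sx k (m + 1) (Fin.cons x0 x) (Fin.cons t β)) := Finset.sum_le_sum hterm
    _ ≤ _ := by
        refine Finset.sum_le_sum_of_subset_of_nonneg hsub fun x _ _ => ?_
        refine Finset.sum_nonneg fun x0 _ => ?_
        exact intervalIntegral.integral_nonneg (by linarith) fun y _ => hw0 _


lemma wk_ge {k m P : ℕ} {η W N : ℝ} {w : ℝ → ℝ} (hk : 1 ≤ k) (hP : 2 * k ≤ P) (hη : 0 < η)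
    (hW : 0 ≤ W) (hD : η / 2 + W ≤ k * (4 * (P : ℝ)) ^ (k - 1)) (hw : Bump η w)
    (hN1 : 2 * ((m : ℝ) + 1) * (P : ℝ) ^ k ≤ N)
    (hN2 : N < (4 * P : ℝ) ^ k) {α : Fin (m + 1) → ℝ} (hα : ∀ i, α i ∈ Set.Icc (0 : ℝ) 1)
    (hZ : ZL (box (m + 1) P) (sx k (m + 1)) (wk W w) (Ll k P) α < Tt k m P η) :
    Tt k m P η < rr (box (m + 1) P) (sx k (m + 1)) (wk W w) α N := by
  have hP1 : 1 ≤ P := by omega
  have hPr : (1 : ℝ) ≤ P := by exact_mod_cast hP1
  have hk0 : (0 : ℝ) < k := by exact_mod_cast hk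
  have hL0 : 0 < Ll k P := by
    unfold Ll
    positivity
  have hwt := wt_wk hw.toWt hW hw.zero
  have h1 := det_lower_gen (m := m) hk hP hη hD hwt.cont hwt.nonneg
    (fun a b s ha hb => int_wk_ge hη hW hw ha hb) hN1 hN2 hα
  set Z := ZL (box (m + 1) P) (sx k (m + 1)) (wk W w) (Ll k P) α with hZdef
  set T := Tt k m P η with hT
  set R := rr (box (m + 1) P) (sx k (m + 1)) (wk W w) α N with hR
  have h2 : ∀ y ∈ Set.Icc (N - Ll k P) (N + Ll k P),
      rr (box (m + 1) P) (sx k (m + 1)) (wk W w) α y ≤ 2 * (R + Z) := by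
    intro y hy
    have h3 : |y - N| ≤ Ll k P := by
      rw [abs_le]
      constructor <;> linarith [hy.1, hy.2]
    have h4 := second_diff (F := box (m + 1) P) (s := sx k (m + 1)) hwt α (N := N) h3
    have h5 : N + (y - N) = y := by ring
    rw [h5, abs_le] at h4
    have h6 := rr_nonneg (F := box (m + 1) P) (s := sx k (m + 1)) hwt α (N - (y - N))
    linarith [h4.1]
  have h3 : ∫ y in (N - Ll k P)..(N + Ll k P), rr (box (m + 1) P) (sx k (m + 1)) (wk W w) α y ≤
      ∫ _y in (N - Ll k P)..(N + Ll k P), 2 * (R + Z) := by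
    refine intervalIntegral.integral_mono_on (by linarith) ?_ (by simp) h2
    exact (continuous_rr hwt α).intervalIntegrable _ _
  rw [intervalIntegral.integral_const, smul_eq_mul] at h3
  have h4 : ((P : ℝ) / (4 * k)) ^ m * η = 8 * Ll k P * T := by
    rw [hT]
    unfold Tt
    field_simp
  have h5 : 8 * Ll k P * T ≤ 4 * Ll k P * (R + Z) := by
    rw [← h4]
    refine h1.trans (h3.trans (le_of_eq ?_))
    ring
  have h6 : 0 ≤ 4 * Ll k P * (R + Z - 2 * T) := by linarith
  by_contra hcon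
  push Not at hcon
  have h7 : 4 * Ll k P * (R + Z - 2 * T) < 0 := mul_neg_of_pos_of_neg (by positivity) (by linarith)
  linarith

section General

variable {Ω : Type*} [MeasurableSpace Ω] {μ : Measure Ω} [IsProbabilityMeasure μ] {ι : Type*}
  {F : Finset ι} {s : ι → Ω → ℝ} {w : ℝ → ℝ} {η W : ℝ}

/-- the mean square of the difference -/
noncomputable def QF (F : Finset ι) (s : ι → Ω → ℝ) (w : ℝ → ℝ) (W : ℝ) (ω : Ω) : ℝ :=
  ∫ N, (rr F s w ω N - rr F s (wk W w) ω N) ^ 2

/-- the kernel of the difference -/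
noncomputable def qk (W θ : ℝ) : ℂ := 1 - t1 (W * θ) ^ 2

lemma norm_qk_le (W θ : ℝ) : ‖qk W θ‖ ≤ 2 * mL (1 / 2) (W * θ) := norm_one_sub_t1_sq _

lemma norm_qk_le_two (W θ : ℝ) : ‖qk W θ‖ ≤ 2 := by
  unfold qk
  refine (norm_sub_le _ _).trans ?_
  rw [norm_one, norm_pow]
  have : ‖t1 (W * θ)‖ ^ 2 ≤ 1 := pow_le_one₀ (norm_nonneg _) (norm_t1_le _)
  linarith

lemma continuous_qk (W : ℝ) : Continuous (qk W) := by
  unfold qk
  exact continuous_const.sub ((continuous_t1.comp (by fun_prop)).pow 2)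

lemma fourier_diff (hw : Wt w) (hwk : Wt (wk W w)) (ω : Ω) (θ : ℝ) :
    𝓕 (fun N => ((rr F s w ω N - rr F s (wk W w) ω N : ℝ) : ℂ)) θ =
      𝓕 (fun u => (w u : ℂ)) θ * qk W θ * TT F s θ ω := by
  have e : 𝓕 (fun u => (w u : ℂ)) θ * qk W θ * TT F s θ ω =
      𝓕 (fun u => (w u : ℂ)) θ * TT F s θ ω -
        𝓕 (fun u => (wk W w u : ℂ)) θ * TT F s θ ω := by
    rw [fourier_wk hw]
    unfold qk
    ring
  rw [e, ← fourier_rr hw ω θ, ← fourier_rr hwk ω θ, fourier_ee, fourier_ee, fourier_ee,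
    ← integral_sub]
  · refine integral_congr_ae (Filter.Eventually.of_forall fun v => ?_)
    simp only
    push_cast
    ring
  · have := (integrable_rr_right (F := F) (s := s) hw ω).ofReal (𝕜 := ℂ)
    refine this.bdd_mul (c := 1) ?_ ?_
    · exact (continuous_ee.comp (by fun_prop)).aestronglyMeasurable
    · exact Filter.Eventually.of_forall fun N => (norm_ee _).le
  · have := (integrable_rr_right (F := F) (s := s) hwk ω).ofReal (𝕜 := ℂ)
    refine this.bdd_mul (c := 1) ?_ ?_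
    · exact (continuous_ee.comp (by fun_prop)).aestronglyMeasurable
    · exact Filter.Eventually.of_forall fun N => (norm_ee _).le

lemma QF_eq (hw : Wt w) (hwk : Wt (wk W w)) (ω : Ω) :
    QF F s w W ω =
      ∫ θ, ‖𝓕 (fun u => (w u : ℂ)) θ‖ ^ 2 * (‖qk W θ‖ ^ 2 * ‖TT F s θ ω‖ ^ 2) := by
  have h1 : Integrable (𝓕 fun N => ((rr F s w ω N - rr F s (wk W w) ω N : ℝ) : ℂ)) := by
    have e : (𝓕 fun N => ((rr F s w ω N - rr F s (wk W w) ω N : ℝ) : ℂ)) =
        fun θ => 𝓕 (fun u => (w u : ℂ)) θ * (qk W θ * TT F s θ ω) := by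
      ext θ
      rw [fourier_diff hw hwk ω θ, mul_assoc]
    rw [e]
    refine hw.four.mul_bdd (c := 2 * F.card) ?_ ?_
    · exact ((continuous_qk W).mul (continuous_TT ω)).aestronglyMeasurable
    · refine Filter.Eventually.of_forall fun θ => ?_
      rw [norm_mul]
      exact mul_le_mul (norm_qk_le_two W θ) (norm_TT_le θ ω) (norm_nonneg _) (by norm_num)
  have h2 := planch (f := fun N => ((rr F s w ω N - rr F s (wk W w) ω N : ℝ) : ℂ)) ?_ ?_ h1
  · have h3 : ∀ N, (rr F s w ω N - rr F s (wk W w) ω N) ^ 2 =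
        ‖((rr F s w ω N - rr F s (wk W w) ω N : ℝ) : ℂ)‖ ^ 2 := by
      intro N
      rw [Complex.norm_real, Real.norm_eq_abs, sq_abs]
    unfold QF
    simp only [h3]
    rw [← h2]
    refine integral_congr_ae (Filter.Eventually.of_forall fun θ => ?_)
    simp only
    rw [fourier_diff hw hwk ω θ, norm_mul, norm_mul, mul_pow, mul_pow, mul_assoc]
  · exact Complex.continuous_ofReal.comp ((continuous_rr hw ω).sub (continuous_rr hwk ω))
  · exact ((integrable_rr_right (F := F) (s := s) hw ω).sub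
      (integrable_rr_right (F := F) (s := s) hwk ω)).ofReal

lemma integrable_kernQ (hw : Wt w) (hs : ∀ x, Measurable (s x)) :
    Integrable (Function.uncurry fun (ω : Ω) (θ : ℝ) =>
      ‖𝓕 (fun u => (w u : ℂ)) θ‖ ^ 2 * (‖qk W θ‖ ^ 2 * ‖TT F s θ ω‖ ^ 2)) (μ.prod volume) := by
  have h1 : Integrable (fun p : Ω × ℝ => ‖𝓕 (fun u => (w u : ℂ)) p.2‖ ^ 2) (μ.prod volume) :=
    (integrable_four_sq hw).comp_snd μ
  refine h1.mul_bdd (c := 2 ^ 2 * (F.card : ℝ) ^ 2) ?_ ?_
  · refine Measurable.aestronglyMeasurable ?_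
    exact ((((continuous_qk W).measurable.comp measurable_snd).norm).pow_const 2).mul
      (((measurable_TT hs).norm).pow_const 2)
  · refine Filter.Eventually.of_forall fun p => ?_
    rw [Real.norm_eq_abs, abs_of_nonneg (by positivity)]
    exact mul_le_mul (pow_le_pow_left₀ (norm_nonneg _) (norm_qk_le_two W _) 2)
      (pow_le_pow_left₀ (norm_nonneg _) (norm_TT_le _ _) 2) (by positivity) (by positivity)

lemma integrable_QF (hw : Wt w) (hwk : Wt (wk W w)) (hs : ∀ x, Measurable (s x)) :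
    Integrable (QF F s w W) μ := by
  have h := (integrable_kernQ (μ := μ) (F := F) (W := W) hw hs).integral_prod_left
  refine h.congr (Filter.Eventually.of_forall fun ω => ?_)
  simp only [Function.uncurry]
  exact (QF_eq hw hwk ω).symm

lemma integral_QF (hw : Wt w) (hwk : Wt (wk W w)) (hs : ∀ x, Measurable (s x)) {B E : ℝ}
    {g : ℝ → ℝ} (hg : Continuous g) (hg1 : ∀ θ, 1 ≤ g θ) (hgB : ∀ θ, g θ ≤ B)
    (hTT : ∀ θ, ∫ ω, ‖TT F s θ ω‖ ^ 2 ∂μ ≤ g θ ^ 2)
    (hE : ∫ θ, ‖𝓕 (fun u => (w u : ℂ)) θ‖ ^ 2 * (‖qk W θ‖ ^ 2 * g θ ^ 2) ≤ E) :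
    ∫ ω, QF F s w W ω ∂μ ≤ E := by
  simp only [QF_eq hw hwk]
  rw [integral_integral_swap (integrable_kernQ hw hs)]
  refine le_trans ?_ hE
  refine integral_mono_of_nonneg ?_ ?_ ?_
  · refine Filter.Eventually.of_forall fun θ => integral_nonneg fun ω => ?_
    positivity
  · refine (integrable_four_sq hw).mul_bdd (c := 2 ^ 2 * B ^ 2) ?_ ?_
    · exact (((continuous_qk W).norm.pow 2).mul (hg.pow 2)).aestronglyMeasurable
    · refine Filter.Eventually.of_forall fun θ => ?_
      rw [Real.norm_eq_abs, abs_of_nonneg (by positivity)]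
      have h3 : 0 ≤ g θ := le_trans zero_le_one (hg1 θ)
      exact mul_le_mul (pow_le_pow_left₀ (norm_nonneg _) (norm_qk_le_two W _) 2)
        (pow_le_pow_left₀ h3 (hgB θ) 2) (by positivity) (by positivity)
  · refine Filter.Eventually.of_forall fun θ => ?_
    simp only
    rw [integral_const_mul, integral_const_mul]
    refine mul_le_mul_of_nonneg_left ?_ (by positivity)
    exact mul_le_mul_of_nonneg_left (hTT θ) (by positivity)

lemma QF_nonneg (ω : Ω) : 0 ≤ QF F s w W ω := by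
  unfold QF
  exact integral_nonneg fun N => sq_nonneg _

/-- Markov's inequality for the mean square -/
theorem tailQ (hw : Wt w) (hwk : Wt (wk W w)) (hs : ∀ x, Measurable (s x)) {B E T : ℝ}
    {g : ℝ → ℝ} (hg : Continuous g) (hg1 : ∀ θ, 1 ≤ g θ) (hgB : ∀ θ, g θ ≤ B)
    (hTT : ∀ θ, ∫ ω, ‖TT F s θ ω‖ ^ 2 ∂μ ≤ g θ ^ 2) (hT : 0 < T)
    (hE : ∫ θ, ‖𝓕 (fun u => (w u : ℂ)) θ‖ ^ 2 * (‖qk W θ‖ ^ 2 * g θ ^ 2) ≤ E) :
    μ.real {ω | T ≤ QF F s w W ω} ≤ E / T := by
  have h1 := mul_meas_ge_le_integral_of_nonneg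
    (Filter.Eventually.of_forall fun ω => QF_nonneg (F := F) (s := s) (w := w) (W := W) ω)
    (integrable_QF (μ := μ) (F := F) hw hwk hs) T
  have h2 := integral_QF (μ := μ) hw hwk hs hg hg1 hgB hTT hE
  rw [le_div_iff₀ hT, mul_comm]
  exact h1.trans h2

lemma integrable_sq_diff (hw : Wt w) (hwk : Wt (wk W w)) (ω : Ω) :
    Integrable fun N => (rr F s w ω N - rr F s (wk W w) ω N) ^ 2 := by
  have h1 : Integrable fun N => rr F s w ω N - rr F s (wk W w) ω N :=
    (integrable_rr_right (F := F) (s := s) hw ω).sub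
      (integrable_rr_right (F := F) (s := s) hwk ω)
  have h2 := h1.mul_bdd (c := F.card + F.card) (g := fun N => rr F s w ω N - rr F s (wk W w) ω N)
    ((continuous_rr hw ω).sub (continuous_rr hwk ω)).aestronglyMeasurable
    (Filter.Eventually.of_forall fun N => ?_)
  · refine h2.congr (Filter.Eventually.of_forall fun θ => ?_)
    simp only
    ring
  · refine (norm_sub_le _ _).trans (add_le_add ?_ ?_)
    · rw [Real.norm_eq_abs, abs_of_nonneg (rr_nonneg hw ω N)]
      exact rr_le hw ω N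
    · rw [Real.norm_eq_abs, abs_of_nonneg (rr_nonneg hwk ω N)]
      exact rr_le hwk ω N

/-- many small values make the mean square large -/
lemma QF_ge (hw : Wt w) (hwk : Wt (wk W w)) (ω : Ω) {T A B : ℝ} {D : Set ℝ} (hT : 0 ≤ T)
    (hD : MeasurableSet D) (hDf : D ⊆ Set.Ico A B)
    (hsmall : ∀ N ∈ D, rr F s w ω N < T / 2) (hbig : ∀ N ∈ D, T < rr F s (wk W w) ω N) :
    T ^ 2 / 4 * (volume.real D) ≤ QF F s w W ω := by
  have hfin : volume D ≠ ⊤ :=
    ((measure_mono hDf).trans_lt (by simp [Real.volume_Ico])).ne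
  unfold QF
  have h1 : ∫ N in D, T ^ 2 / 4 ≤ ∫ N in D, (rr F s w ω N - rr F s (wk W w) ω N) ^ 2 := by
    refine setIntegral_mono_on (integrableOn_const hfin) (integrable_sq_diff hw hwk ω).integrableOn
      hD ?_
    intro N hN
    have h2 := hsmall N hN
    have h3 := hbig N hN
    nlinarith
  rw [setIntegral_const, smul_eq_mul, mul_comm] at h1
  refine h1.trans ?_
  exact setIntegral_le_integral (integrable_sq_diff hw hwk ω)
    (Filter.Eventually.of_forall fun N => sq_nonneg _)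

end General

end Pool.Agent.Q154.War
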