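import Pool.Agent.Q154.War.DimG

/-!
# Smoothing at a second scale: the integrals
-/

set_option autoImplicit false
set_option linter.unusedSectionVars false

open MeasureTheory Set Finset FourierTransform
open scoped Real

namespace Pool.Agent.Q154.War

lemma min_sq_le {x c e y : ℝ} (hx : 0 ≤ x) (hc : 2 ≤ c) (he0 : 0 ≤ e) (he2 : e ≤ 2)
    (h1 : y ≤ 2) (h2 : y ≤ c * x ^ 2) : y ≤ c * x ^ e := by
  rcases le_or_gt x 1 with h | h
  · refine h2.trans (mul_le_mul_of_nonneg_left ?_ (by linarith))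
    have h3 := Real.rpow_le_rpow_of_exponent_ge' hx h he0 he2
    have h4 : x ^ (2 : ℝ) = x ^ 2 := by
      rw [← Real.rpow_natCast]
      norm_num
    rwa [h4] at h3
  · have h3 : 1 ≤ x ^ e := Real.one_le_rpow h.le he0
    nlinarith

/-- the exponent -/
noncomputable def e2 (n : ℕ) : ℝ := min 2 ((n : ℝ) / 2 - 5 / 4)

lemma e2_nonneg {n : ℕ} (hn : 4 ≤ n) : 0 ≤ e2 n := by
  have : (4 : ℝ) ≤ n := by exact_mod_cast hn
  unfold e2
  exact le_min (by norm_num) (by linarith)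

lemma ll_ge {k : ℕ} (hk : 1 ≤ k) : 1 ≤ ll k := by
  have h1 : (1 : ℝ) ≤ k := by exact_mod_cast hk
  have h2 : (1 : ℝ) ≤ 4 ^ (k - 1) := one_le_pow₀ (by norm_num)
  unfold ll
  nlinarith

lemma mL_e2 {k n P : ℕ} (hk : 1 ≤ k) (hn : 4 ≤ n) (hP : 1 ≤ P) (θ : ℝ) :
    mL (Ll k P) θ ≤ 20 * ll k ^ 2 * ((|θ| * (P : ℝ) ^ k) ^ e2 n * (P : ℝ) ^ (-e2 n)) := by
  have hP0 : (0 : ℝ) < P := by exact_mod_cast hP
  have hl := ll_ge hk
  have h1 := mL_Ll hk hP θ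
  have h2 := mL_le_two (Ll k P) θ
  have hu : 0 ≤ |θ| * (P : ℝ) ^ k := by positivity
  have h3 : (|θ| * (P : ℝ) ^ k) ^ e2 n * (P : ℝ) ^ (-e2 n) = (|θ| * (P : ℝ) ^ k / P) ^ e2 n := by
    rw [Real.div_rpow hu hP0.le, Real.rpow_neg hP0.le, div_eq_mul_inv]
  rw [h3]
  refine min_sq_le (by positivity) ?_ (e2_nonneg hn) (min_le_left _ _) h2 ?_
  · nlinarith
  · refine h1.trans (le_of_eq ?_)
    field_simp

lemma qk_sq_le {W : ℝ} (hW : 0 ≤ W) (θ : ℝ) :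
    ‖qk W θ‖ ^ 2 ≤ 100 * (W * |θ|) ^ (14 / 5 : ℝ) := by
  have h1 := norm_qk_le W θ
  have h2 : mL (1 / 2) (W * θ) ≤ 5 * |W * θ| ^ (7 / 5 : ℝ) := by
    refine min_sq_le (abs_nonneg _) (by norm_num) (by norm_num) (by norm_num) (mL_le_two _ _) ?_
    refine (mL_le_sq _ _).trans (le_of_eq ?_)
    rw [sq_abs]
    ring
  have h3 : |W * θ| = W * |θ| := by rw [abs_mul, abs_of_nonneg hW]
  rw [h3] at h2
  have hx : 0 ≤ W * |θ| := by positivity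
  have h4 : ‖qk W θ‖ ≤ 10 * (W * |θ|) ^ (7 / 5 : ℝ) := by linarith
  have h5 : (W * |θ|) ^ (14 / 5 : ℝ) = ((W * |θ|) ^ (7 / 5 : ℝ)) ^ 2 := by
    rw [← Real.rpow_natCast _ 2, ← Real.rpow_mul hx]
    norm_num
  rw [h5]
  refine (pow_le_pow_left₀ (norm_nonneg _) h4 2).trans (le_of_eq ?_)
  ring

lemma sqrt_pow_eq {u : ℝ} (hu : 0 ≤ u) (n : ℕ) : √((1 + u) ^ n) = (1 + u) ^ ((n : ℝ) / 2) := by
  have h1 : 0 < 1 + u := by linarith
  rw [Real.sqrt_eq_rpow, ← Real.rpow_natCast, ← Real.rpow_mul h1.le]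
  congr 1
  ring

lemma e2_div_le {n : ℕ} (hn : 4 ≤ n) {u : ℝ} (hu : 0 ≤ u) :
    u ^ e2 n / √((1 + u) ^ n) ≤ (1 + u) ^ (-(1 + (1 / 4 : ℝ))) := by
  have h1 : 0 < 1 + u := by linarith
  rw [sqrt_pow_eq hu, div_le_iff₀ (by positivity), ← Real.rpow_add h1]
  have h2 : e2 n ≤ (n : ℝ) / 2 - 5 / 4 := min_le_right _ _
  calc u ^ e2 n ≤ (1 + u) ^ e2 n := Real.rpow_le_rpow hu (by linarith) (e2_nonneg hn)
    _ ≤ (1 + u) ^ (-(1 + (1 / 4 : ℝ)) + (n : ℝ) / 2) :=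
        Real.rpow_le_rpow_of_exponent_le (by linarith) (by linarith)

lemma q_div_le {n : ℕ} (hn : 4 ≤ n) {u : ℝ} (hu : 0 ≤ u) :
    u ^ (14 / 5 : ℝ) / (1 + u) ^ n ≤ (1 + u) ^ (-(1 + (1 / 5 : ℝ))) := by
  have h1 : 0 < 1 + u := by linarith
  have hn' : (4 : ℝ) ≤ n := by exact_mod_cast hn
  rw [← Real.rpow_natCast, div_le_iff₀ (by positivity), ← Real.rpow_add h1]
  calc u ^ (14 / 5 : ℝ) ≤ (1 + u) ^ (14 / 5 : ℝ) := Real.rpow_le_rpow hu (by linarith) (by norm_num)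
    _ ≤ (1 + u) ^ (-(1 + (1 / 5 : ℝ)) + (n : ℝ)) :=
        Real.rpow_le_rpow_of_exponent_le (by linarith) (by linarith)

/-- the bound for the integral of the majorant -/
noncomputable def AA2 (k n P : ℕ) (W η : ℝ) : ℝ :=
  √((2 * Kc P) ^ n) * (2 * √((P : ℝ) ^ n) * (8 * η * (K2 1 / W)) +
    2 * η * ((P : ℝ) ^ n * (20 * ll k ^ 2 * (P : ℝ) ^ (-e2 n)) * (K2 (1 / 4) / (P : ℝ) ^ k)))

lemma int_mg_le2 {k n P : ℕ} {W η : ℝ} {w : ℝ → ℝ} (hk : 2 ≤ k) (hn : 4 ≤ n) (hP : 1 ≤ P)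
    (hη : 0 < η) (hW : 0 < W) (hw : Bump η w) :
    ∫ θ, ‖𝓕 (fun u => (wk W w u : ℂ)) θ‖ * mL (Ll k P) θ * gB k n P θ ≤ AA2 k n P W η := by
  have hP0 : (0 : ℝ) < P := by exact_mod_cast hP
  have hX : (0 : ℝ) < (P : ℝ) ^ k := by positivity
  have hwt := wt_wk hw.toWt hW.le hw.zero
  set φ : ℝ → ℝ := fun θ => ‖𝓕 (fun u => (wk W w u : ℂ)) θ‖ with hφ
  set κ := √((2 * Kc P) ^ n) with hκ
  have hκ0 : 0 ≤ κ := Real.sqrt_nonneg _
  set G := (P : ℝ) ^ n * (20 * ll k ^ 2 * (P : ℝ) ^ (-e2 n)) with hG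
  have hG0 : 0 ≤ G := by positivity
  have hb : ∀ θ, φ θ * mL (Ll k P) θ * gB k n P θ ≤ κ * (2 * √((P : ℝ) ^ n)) * φ θ +
      κ * (2 * η * G) * (1 + |θ| * (P : ℝ) ^ k) ^ (-(1 + (1 / 4 : ℝ))) := by
    intro θ
    have h1 := mL_nonneg (Ll k P) θ
    have h2 := mL_le_two (Ll k P) θ
    have h3 := mL_e2 (k := k) (by omega) hn hP θ
    have hu : 0 ≤ |θ| * (P : ℝ) ^ k := by positivity
    have h4 := e2_div_le hn hu
    have h5 : 0 < √((1 + |θ| * (P : ℝ) ^ k) ^ n) := by positivity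
    have h6 : φ θ ≤ 2 * η := norm_four_wk_le hη hw θ
    have h7 : 0 ≤ φ θ := norm_nonneg _
    have e1 : φ θ * mL (Ll k P) θ * √((P : ℝ) ^ n) ≤ 2 * √((P : ℝ) ^ n) * φ θ := by
      have := mul_le_mul_of_nonneg_left h2 h7
      have h8 : 0 ≤ √((P : ℝ) ^ n) := Real.sqrt_nonneg _
      nlinarith
    have e2' : mL (Ll k P) θ * ((P : ℝ) ^ n / √((1 + |θ| * (P : ℝ) ^ k) ^ n)) ≤
        G * (1 + |θ| * (P : ℝ) ^ k) ^ (-(1 + (1 / 4 : ℝ))) := by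
      calc mL (Ll k P) θ * ((P : ℝ) ^ n / √((1 + |θ| * (P : ℝ) ^ k) ^ n)) ≤
          (20 * ll k ^ 2 * ((|θ| * (P : ℝ) ^ k) ^ e2 n * (P : ℝ) ^ (-e2 n))) *
            ((P : ℝ) ^ n / √((1 + |θ| * (P : ℝ) ^ k) ^ n)) :=
            mul_le_mul_of_nonneg_right h3 (by positivity)
        _ = G * ((|θ| * (P : ℝ) ^ k) ^ e2 n / √((1 + |θ| * (P : ℝ) ^ k) ^ n)) := by
            rw [hG]
            ring
        _ ≤ _ := mul_le_mul_of_nonneg_left h4 hG0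
    have e3 : φ θ * (mL (Ll k P) θ * ((P : ℝ) ^ n / √((1 + |θ| * (P : ℝ) ^ k) ^ n))) ≤
        (2 * η) * (G * (1 + |θ| * (P : ℝ) ^ k) ^ (-(1 + (1 / 4 : ℝ)))) := by
      refine mul_le_mul h6 e2' ?_ (by positivity)
      positivity
    have e4 : φ θ * mL (Ll k P) θ * gB k n P θ = κ * (φ θ * mL (Ll k P) θ * √((P : ℝ) ^ n) +
        φ θ * (mL (Ll k P) θ * ((P : ℝ) ^ n / √((1 + |θ| * (P : ℝ) ^ k) ^ n)))) := by
      unfold gB
      rw [← hκ]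
      ring
    rw [e4]
    refine (mul_le_mul_of_nonneg_left (add_le_add e1 e3) hκ0).trans (le_of_eq ?_)
    ring
  have hi1 : Integrable fun θ => κ * (2 * √((P : ℝ) ^ n)) * φ θ := hwt.four.norm.const_mul _
  have hi2 := (integrable_scaled (s := 1 / 4) (by norm_num) hX).const_mul (κ * (2 * η * G))
  have h7 : ∫ θ, φ θ * mL (Ll k P) θ * gB k n P θ ≤
      ∫ θ, (κ * (2 * √((P : ℝ) ^ n)) * φ θ +
      κ * (2 * η * G) * (1 + |θ| * (P : ℝ) ^ k) ^ (-(1 + (1 / 4 : ℝ)))) := by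
    refine integral_mono_of_nonneg (Filter.Eventually.of_forall fun θ => ?_) (hi1.add hi2)
      (Filter.Eventually.of_forall hb)
    have h1 := mL_nonneg (Ll k P) θ
    have h2 := one_le_gB (k := k) (n := n) hP θ
    have h3 : 0 ≤ φ θ := norm_nonneg _
    simp only [Pi.zero_apply]
    exact mul_nonneg (mul_nonneg h3 h1) (by linarith)
  refine h7.trans ?_
  rw [integral_add hi1 hi2, integral_const_mul, integral_const_mul, integral_scaled hX]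
  unfold AA2
  rw [← hκ, ← hG]
  have e5 : κ * (2 * √((P : ℝ) ^ n)) * ∫ θ, φ θ ≤ κ * (2 * √((P : ℝ) ^ n)) * (8 * η * (K2 1 / W)) :=
    mul_le_mul_of_nonneg_left (int_four_wk hη hW hw) (by positivity)
  refine (add_le_add e5 le_rfl).trans (le_of_eq ?_)
  ring

lemma gB_sq_le {k n P : ℕ} (hP : 1 ≤ P) (θ : ℝ) : gB k n P θ ^ 2 ≤
    2 * (2 * Kc P) ^ n * ((P : ℝ) ^ n + (P : ℝ) ^ (2 * n) / (1 + |θ| * (P : ℝ) ^ k) ^ n) := by
  have hP0 : (0 : ℝ) < P := by exact_mod_cast hP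
  have hK := Kc_ge hP
  have hu := base_ge_one k P θ
  unfold gB
  rw [mul_pow (√((2 * Kc P) ^ n)), Real.sq_sqrt (by positivity)]
  set a := √((P : ℝ) ^ n) with ha
  set b := (P : ℝ) ^ n / √((1 + |θ| * (P : ℝ) ^ k) ^ n) with hb
  have h1 : a ^ 2 = (P : ℝ) ^ n := Real.sq_sqrt (by positivity)
  have h2 : b ^ 2 = (P : ℝ) ^ (2 * n) / (1 + |θ| * (P : ℝ) ^ k) ^ n := by
    rw [hb, div_pow, Real.sq_sqrt (by positivity), ← pow_mul, mul_comm n 2]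
  rw [← h1, ← h2]
  have h3 : (a + b) ^ 2 ≤ 2 * (a ^ 2 + b ^ 2) := by nlinarith [sq_nonneg (a - b)]
  have h4 : 0 ≤ (2 * Kc P) ^ n := by positivity
  calc (2 * Kc P) ^ n * (a + b) ^ 2 ≤ (2 * Kc P) ^ n * (2 * (a ^ 2 + b ^ 2)) :=
        mul_le_mul_of_nonneg_left h3 h4
    _ = _ := by ring

/-- the bound for the mean square of the difference -/
noncomputable def EE (k n P : ℕ) (W η : ℝ) : ℝ :=
  2 * (2 * Kc P) ^ n * (8 * η * (P : ℝ) ^ n +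
    400 * η ^ 2 * ((W / (P : ℝ) ^ k) ^ (14 / 5 : ℝ) * (P : ℝ) ^ (2 * n) *
      (K2 (1 / 5) / (P : ℝ) ^ k)))

lemma int_q_le {k n P : ℕ} {W η : ℝ} {w : ℝ → ℝ} (hn : 4 ≤ n) (hP : 1 ≤ P)
    (hη : 0 < η) (hW : 0 < W) (hw : Bump η w) :
    ∫ θ, ‖𝓕 (fun u => (w u : ℂ)) θ‖ ^ 2 * (‖qk W θ‖ ^ 2 * gB k n P θ ^ 2) ≤ EE k n P W η := by
  have hP0 : (0 : ℝ) < P := by exact_mod_cast hP
  have hX : (0 : ℝ) < (P : ℝ) ^ k := by positivity
  have hK := Kc_ge hP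
  set φ : ℝ → ℝ := fun θ => ‖𝓕 (fun u => (w u : ℂ)) θ‖ with hφ
  set κ := 2 * (2 * Kc P) ^ n with hκ
  have hκ0 : 0 ≤ κ := by positivity
  set z := (W / (P : ℝ) ^ k) ^ (14 / 5 : ℝ) with hz
  have hz0 : 0 ≤ z := by positivity
  have hb : ∀ θ, φ θ ^ 2 * (‖qk W θ‖ ^ 2 * gB k n P θ ^ 2) ≤
      κ * (4 * (P : ℝ) ^ n) * φ θ ^ 2 +
      κ * (400 * η ^ 2 * (z * (P : ℝ) ^ (2 * n))) *
        (1 + |θ| * (P : ℝ) ^ k) ^ (-(1 + (1 / 5 : ℝ))) := by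
    intro θ
    have hu : 0 ≤ |θ| * (P : ℝ) ^ k := by positivity
    have h1 := gB_sq_le (k := k) (n := n) hP θ
    have h2 := qk_sq_le hW.le θ
    have h3 : ‖qk W θ‖ ^ 2 ≤ 4 := by
      have := pow_le_pow_left₀ (norm_nonneg _) (norm_qk_le_two W θ) 2
      linarith
    have h4 := q_div_le hn hu
    have h5 : φ θ ^ 2 ≤ (2 * η) ^ 2 :=
      pow_le_pow_left₀ (norm_nonneg _) ((norm_four_le hw.toWt θ).trans (hw.integral_le hη)) 2
    have h6 : (W * |θ|) ^ (14 / 5 : ℝ) = z * (|θ| * (P : ℝ) ^ k) ^ (14 / 5 : ℝ) := by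
      rw [hz, ← Real.mul_rpow (by positivity) hu]
      congr 1
      field_simp
    rw [h6] at h2
    have h7 : 0 < (1 + |θ| * (P : ℝ) ^ k) ^ n := by positivity
    have e1 : φ θ ^ 2 * (‖qk W θ‖ ^ 2 * gB k n P θ ^ 2) ≤
        φ θ ^ 2 * (‖qk W θ‖ ^ 2 * (κ * ((P : ℝ) ^ n +
          (P : ℝ) ^ (2 * n) / (1 + |θ| * (P : ℝ) ^ k) ^ n))) := by
      refine mul_le_mul_of_nonneg_left ?_ (by positivity)
      exact mul_le_mul_of_nonneg_left h1 (by positivity)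
    refine e1.trans ?_
    have e2' : φ θ ^ 2 * (‖qk W θ‖ ^ 2 * (κ * ((P : ℝ) ^ n +
          (P : ℝ) ^ (2 * n) / (1 + |θ| * (P : ℝ) ^ k) ^ n))) =
        κ * (‖qk W θ‖ ^ 2 * ((P : ℝ) ^ n * φ θ ^ 2)) +
        κ * (φ θ ^ 2 * (‖qk W θ‖ ^ 2 * ((P : ℝ) ^ (2 * n) / (1 + |θ| * (P : ℝ) ^ k) ^ n))) := by
      ring
    rw [e2']
    have e3 : κ * (‖qk W θ‖ ^ 2 * ((P : ℝ) ^ n * φ θ ^ 2)) ≤ κ * (4 * (P : ℝ) ^ n) * φ θ ^ 2 := by
      rw [mul_assoc κ, mul_assoc 4]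
      refine mul_le_mul_of_nonneg_left ?_ hκ0
      exact mul_le_mul_of_nonneg_right h3 (by positivity)
    have e4 : φ θ ^ 2 * (‖qk W θ‖ ^ 2 * ((P : ℝ) ^ (2 * n) / (1 + |θ| * (P : ℝ) ^ k) ^ n)) ≤
        (2 * η) ^ 2 * ((100 * z * (P : ℝ) ^ (2 * n)) *
          (1 + |θ| * (P : ℝ) ^ k) ^ (-(1 + (1 / 5 : ℝ)))) := by
      refine mul_le_mul h5 ?_ (by positivity) (by positivity)
      calc ‖qk W θ‖ ^ 2 * ((P : ℝ) ^ (2 * n) / (1 + |θ| * (P : ℝ) ^ k) ^ n) ≤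
          (100 * (z * (|θ| * (P : ℝ) ^ k) ^ (14 / 5 : ℝ))) *
            ((P : ℝ) ^ (2 * n) / (1 + |θ| * (P : ℝ) ^ k) ^ n) :=
            mul_le_mul_of_nonneg_right h2 (by positivity)
        _ = (100 * z * (P : ℝ) ^ (2 * n)) *
            ((|θ| * (P : ℝ) ^ k) ^ (14 / 5 : ℝ) / (1 + |θ| * (P : ℝ) ^ k) ^ n) := by ring
        _ ≤ _ := mul_le_mul_of_nonneg_left h4 (by positivity)
    have e5 := mul_le_mul_of_nonneg_left e4 hκ0
    refine (add_le_add e3 e5).trans (le_of_eq ?_)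
    ring
  have hi1 : Integrable fun θ => κ * (4 * (P : ℝ) ^ n) * φ θ ^ 2 :=
    (integrable_four_sq hw.toWt).const_mul _
  have hi2 := (integrable_scaled (s := 1 / 5) (by norm_num) hX).const_mul
    (κ * (400 * η ^ 2 * (z * (P : ℝ) ^ (2 * n))))
  have h7 : ∫ θ, φ θ ^ 2 * (‖qk W θ‖ ^ 2 * gB k n P θ ^ 2) ≤
      ∫ θ, (κ * (4 * (P : ℝ) ^ n) * φ θ ^ 2 +
      κ * (400 * η ^ 2 * (z * (P : ℝ) ^ (2 * n))) *
        (1 + |θ| * (P : ℝ) ^ k) ^ (-(1 + (1 / 5 : ℝ)))) := by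
    refine integral_mono_of_nonneg (Filter.Eventually.of_forall fun θ => by positivity)
      (hi1.add hi2) (Filter.Eventually.of_forall hb)
  refine h7.trans ?_
  rw [integral_add hi1 hi2, integral_const_mul, integral_const_mul, integral_scaled hX]
  unfold EE
  rw [← hκ, ← hz]
  have e5 : κ * (4 * (P : ℝ) ^ n) * ∫ θ, φ θ ^ 2 ≤ κ * (4 * (P : ℝ) ^ n) * (2 * η) :=
    mul_le_mul_of_nonneg_left ((integral_four_sq hw.toWt).trans (hw.integral_le hη))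
      (by positivity)
  refine (add_le_add e5 le_rfl).trans (le_of_eq ?_)
  ring

/-! ### the measure of the bad set -/

/-- the shifts for which many `N` of a window have few representations, for the weight `w` -/
def DP2 (k m P : ℕ) (η : ℝ) (w : ℝ → ℝ) (H : ℝ) : Set (Fin (m + 1) → ℝ) :=
  {α | (∀ i, α i ∈ Set.Icc (0 : ℝ) 1) ∧
    H ≤ volume.real {N : ℝ | N ∈ Set.Ico (2 * ((m : ℝ) + 1) * (P : ℝ) ^ k) ((4 * P : ℝ) ^ k) ∧
      rr (box (m + 1) P) (sx k (m + 1)) w α N < Tt k m P η / 2}}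

theorem win2 {k m P : ℕ} {W η H : ℝ} {w : ℝ → ℝ} (hk : 3 ≤ k) (hm : 3 ≤ m) (hP : 2 * k ≤ P)
    (hη : 0 < η) (hW : 0 < W) (hD : η / 2 + W ≤ k * (4 * (P : ℝ)) ^ (k - 1)) (hw : Bump η w)
    (hH : 0 < H) :
    (νn (m + 1)).real (DP2 k m P η w H) ≤
      AA2 k (m + 1) P W η ^ 2 / Tt k m P η ^ 2 +
        EE k (m + 1) P W η / (Tt k m P η ^ 2 / 4 * H) := by
  have hP1 : 1 ≤ P := by omega
  have hp : (0 : ℝ) < P := by exact_mod_cast hP1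
  have hK := Kc_ge hP1
  have hT := Tt_pos (k := k) (m := m) (by omega) hP1 hη
  have hwt := wt_wk hw.toWt hW.le hw.zero
  have hgT : ∀ θ, ∫ ω, ‖TT (box (m + 1) P) (sx k (m + 1)) θ ω‖ ^ 2 ∂(νn (m + 1)) ≤
      gB k (m + 1) P θ ^ 2 := by
    intro θ
    rw [TT_sq]
    have h3 := Am_pow_le (k := k) (n := m + 1) (by omega) hP1 (-θ)
    have h4 : gB k (m + 1) P (-θ) = gB k (m + 1) P θ := by
      unfold gB
      rw [abs_neg]
    rw [h4] at h3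
    exact h3
  have h1 : DP2 k m P η w H ⊆
      {α | Tt k m P η ≤ ZL (box (m + 1) P) (sx k (m + 1)) (wk W w) (Ll k P) α} ∪
      {α | Tt k m P η ^ 2 / 4 * H ≤ QF (box (m + 1) P) (sx k (m + 1)) w W α} := by
    rintro α ⟨hα, hH2⟩
    by_cases hZ : Tt k m P η ≤ ZL (box (m + 1) P) (sx k (m + 1)) (wk W w) (Ll k P) α
    · exact Or.inl hZ
    · refine Or.inr ?_
      rw [not_le] at hZ
      show Tt k m P η ^ 2 / 4 * H ≤ QF (box (m + 1) P) (sx k (m + 1)) w W α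
      refine le_trans (mul_le_mul_of_nonneg_left hH2 (by positivity)) ?_
      refine QF_ge hw.toWt hwt α hT.le ?_ (fun N hN => hN.1) (fun N hN => hN.2) ?_
      · exact measurableSet_Ico.inter
          (measurableSet_lt (continuous_rr hw.toWt α).measurable measurable_const)
      · intro N hN
        exact wk_ge (by omega) hP hη hW.le hD hw hN.1.1 hN.1.2 hα hZ
  have hA0 : 0 < AA2 k (m + 1) P W η := by
    have h2 := K2_nonneg (1 / 4)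
    have h2' : 0 < K2 1 := by
      unfold K2
      rw [integral_pos_iff_support_of_nonneg (fun θ => by positivity)
        (integrable_K2 (s := 1) one_pos)]
      have : Function.support (fun θ : ℝ => (1 + |θ|) ^ (-(1 + (1 : ℝ)))) = Set.univ := by
        ext θ
        simp only [Function.mem_support, Set.mem_univ, iff_true]
        positivity
      rw [this]
      simp
    have h3 := ll_pos (k := k) (by omega)
    unfold AA2
    positivity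
  have h2 : (νn (m + 1)).real {α | Tt k m P η ≤
      ZL (box (m + 1) P) (sx k (m + 1)) (wk W w) (Ll k P) α} ≤
      AA2 k (m + 1) P W η ^ 2 / Tt k m P η ^ 2 :=
    tail (μ := νn (m + 1)) hwt (measurable_sx k (m + 1))
      (continuous_gB k (m + 1) P) (one_le_gB hP1) (fun θ => gB_le θ) hgT hA0 hT
      (int_mg_le2 (by omega) (by omega) hP1 hη hW hw)
  have h3 : (νn (m + 1)).real {α | Tt k m P η ^ 2 / 4 * H ≤
      QF (box (m + 1) P) (sx k (m + 1)) w W α} ≤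
      EE k (m + 1) P W η / (Tt k m P η ^ 2 / 4 * H) :=
    tailQ (μ := νn (m + 1)) hw.toWt hwt (measurable_sx k (m + 1))
      (continuous_gB k (m + 1) P) (one_le_gB hP1) (fun θ => gB_le θ) hgT (by positivity)
      (int_q_le (by omega) hP1 hη hW hw)
  exact (measureReal_mono h1).trans ((measureReal_union_le _ _).trans (add_le_add h2 h3))

end Pool.Agent.Q154.War
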