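import Pool.Agent.Q154.War.DimH
import Pool.Agent.Q154.War.DimD

/-!
# Exceptional shifts for almost all integers: the dimension of the limsup set
-/

set_option autoImplicit false
set_option linter.unusedSectionVars false

open MeasureTheory Set Finset Filter
open scoped Real Topology

namespace Pool.Agent.Q154.War

/-- the exponent `μ` -/
noncomputable def mu2 (k n : ℕ) (ρ : ℝ) : ℝ := min 4 ((n : ℝ) - k * (1 + ρ))

/-- the scale of the smoothing -/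
noncomputable def Wd (k n P : ℕ) (μ : ℝ) : ℝ := (P : ℝ) ^ ((k : ℝ) - ((n : ℝ) - μ) / 2)

/-- the constant of the threshold -/
noncomputable def cT (k m : ℕ) (η : ℝ) : ℝ := η / ((4 * (k : ℝ)) ^ m * (8 * ll k))

lemma cT_pos {k m : ℕ} {η : ℝ} (hk : 1 ≤ k) (hη : 0 < η) : 0 < cT k m η := by
  have h1 : (0 : ℝ) < k := by exact_mod_cast hk
  have h2 := ll_pos hk
  unfold cT
  positivity

lemma Tt_rpow {k m P : ℕ} {η : ℝ} (hk : 1 ≤ k) (hP : 1 ≤ P) :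
    Tt k m P η = cT k m η * (P : ℝ) ^ (((m + 1 : ℕ) : ℝ) - k) := by
  have h1 : (0 : ℝ) < k := by exact_mod_cast hk
  have h2 := ll_pos hk
  have hp : (0 : ℝ) < P := by exact_mod_cast hP
  have h3 : (P : ℝ) ^ (((m + 1 : ℕ) : ℝ) - k) = (P : ℝ) ^ m / (P : ℝ) ^ (k - 1) := by
    rw [← Real.rpow_natCast, ← Real.rpow_natCast, ← Real.rpow_sub hp, Nat.cast_sub hk]
    congr 1
    push_cast
    ring
  rw [h3]
  unfold Tt cT
  rw [Ll_eq, div_pow (P : ℝ) (4 * (k : ℝ)) m]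
  field_simp

lemma AA2_le {k n P : ℕ} {μ η : ℝ} (hP : 1 ≤ P) (hη : 0 < η) (hμ : μ ≤ 2 * e2 n) :
    AA2 k n P (Wd k n P μ) η ≤ √((2 * Kc P) ^ n) *
      ((16 * η * K2 1 + 40 * η * ll k ^ 2 * K2 (1 / 4)) * (P : ℝ) ^ ((n : ℝ) - k - μ / 2)) := by
  have hp : (0 : ℝ) < P := by exact_mod_cast hP
  have hp1 : (1 : ℝ) ≤ P := by exact_mod_cast hP
  have hK1 := K2_nonneg 1
  have hK4 := K2_nonneg (1 / 4)
  unfold AA2
  refine mul_le_mul_of_nonneg_left ?_ (Real.sqrt_nonneg _)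
  have e1 : √((P : ℝ) ^ n) / Wd k n P μ = (P : ℝ) ^ ((n : ℝ) - k - μ / 2) := by
    unfold Wd
    rw [Real.sqrt_eq_rpow, ← Real.rpow_natCast, ← Real.rpow_mul hp.le, ← Real.rpow_sub hp]
    congr 1
    ring
  have e2' : (P : ℝ) ^ n * (P : ℝ) ^ (-e2 n) / (P : ℝ) ^ k ≤ (P : ℝ) ^ ((n : ℝ) - k - μ / 2) := by
    rw [← Real.rpow_natCast (P : ℝ) n, ← Real.rpow_natCast (P : ℝ) k, ← Real.rpow_add hp,
      ← Real.rpow_sub hp]
    exact Real.rpow_le_rpow_of_exponent_le hp1 (by linarith)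
  have h1 : 2 * √((P : ℝ) ^ n) * (8 * η * (K2 1 / Wd k n P μ)) =
      16 * η * K2 1 * (√((P : ℝ) ^ n) / Wd k n P μ) := by ring
  have h2 : 2 * η * ((P : ℝ) ^ n * (20 * ll k ^ 2 * (P : ℝ) ^ (-e2 n)) *
      (K2 (1 / 4) / (P : ℝ) ^ k)) =
      40 * η * ll k ^ 2 * K2 (1 / 4) * ((P : ℝ) ^ n * (P : ℝ) ^ (-e2 n) / (P : ℝ) ^ k) := by ring
  rw [h1, h2, e1, add_mul]
  exact add_le_add le_rfl (mul_le_mul_of_nonneg_left e2' (by positivity))

lemma EE_le {k n P : ℕ} {μ ρ η : ℝ} (hP : 1 ≤ P) (hη : 0 < η)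
    (hμ1 : μ ≤ (n : ℝ) - k * (1 + ρ)) (hμ2 : k * ρ + μ ≤ 7 / 5 * ((n : ℝ) - μ)) :
    EE k n P (Wd k n P μ) η ≤ 2 * (2 * Kc P) ^ n * ((8 * η + 400 * η ^ 2 * K2 (1 / 5)) *
      (P : ℝ) ^ (2 * (n : ℝ) - k - k * ρ - μ)) := by
  have hp : (0 : ℝ) < P := by exact_mod_cast hP
  have hp1 : (1 : ℝ) ≤ P := by exact_mod_cast hP
  have hK5 := K2_nonneg (1 / 5)
  have hK := Kc_ge hP
  unfold EE
  refine mul_le_mul_of_nonneg_left ?_ (by positivity)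
  have e1 : (P : ℝ) ^ n ≤ (P : ℝ) ^ (2 * (n : ℝ) - k - k * ρ - μ) := by
    rw [← Real.rpow_natCast]
    exact Real.rpow_le_rpow_of_exponent_le hp1 (by linarith)
  have e2' : (Wd k n P μ / (P : ℝ) ^ k) ^ (14 / 5 : ℝ) * (P : ℝ) ^ (2 * n) / (P : ℝ) ^ k ≤
      (P : ℝ) ^ (2 * (n : ℝ) - k - k * ρ - μ) := by
    unfold Wd
    rw [← Real.rpow_natCast (P : ℝ) (2 * n), ← Real.rpow_natCast (P : ℝ) k,
      ← Real.rpow_sub hp, ← Real.rpow_mul hp.le, ← Real.rpow_add hp, ← Real.rpow_sub hp]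
    refine Real.rpow_le_rpow_of_exponent_le hp1 ?_
    push_cast
    linarith
  have h1 : 400 * η ^ 2 * ((Wd k n P μ / (P : ℝ) ^ k) ^ (14 / 5 : ℝ) * (P : ℝ) ^ (2 * n) *
      (K2 (1 / 5) / (P : ℝ) ^ k)) = 400 * η ^ 2 * K2 (1 / 5) *
      ((Wd k n P μ / (P : ℝ) ^ k) ^ (14 / 5 : ℝ) * (P : ℝ) ^ (2 * n) / (P : ℝ) ^ k) := by ring
  rw [h1, add_mul]
  exact add_le_add (mul_le_mul_of_nonneg_left e1 (by positivity))
    (mul_le_mul_of_nonneg_left e2' (by positivity))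

/-- the constant in the bound for the measure -/
noncomputable def Cv (k m : ℕ) (η : ℝ) : ℝ :=
  ((16 * η * K2 1 + 40 * η * ll k ^ 2 * K2 (1 / 4)) / cT k m η) ^ 2 +
    8 * (8 * η + 400 * η ^ 2 * K2 (1 / 5)) / cT k m η ^ 2

/-- the conditions for `μ` -/
lemma mu2_conds {k m : ℕ} {ρ : ℝ} (hk : 3 ≤ k) (hρ : 0 ≤ ρ) :
    mu2 k (m + 1) ρ ≤ 2 * e2 (m + 1) ∧
    mu2 k (m + 1) ρ ≤ ((m + 1 : ℕ) : ℝ) - k * (1 + ρ) ∧
    k * ρ + mu2 k (m + 1) ρ ≤ 7 / 5 * (((m + 1 : ℕ) : ℝ) - mu2 k (m + 1) ρ) := by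
  have hk3 : (3 : ℝ) ≤ k := by exact_mod_cast hk
  have h1 : mu2 k (m + 1) ρ ≤ 4 := min_le_left _ _
  have h2 : mu2 k (m + 1) ρ ≤ ((m + 1 : ℕ) : ℝ) - k * (1 + ρ) := min_le_right _ _
  have h3 : 0 ≤ (k : ℝ) * ρ := by positivity
  refine ⟨?_, h2, ?_⟩
  · unfold e2
    rcases min_cases (2 : ℝ) (((m + 1 : ℕ) : ℝ) / 2 - 5 / 4) with ⟨h, -⟩ | ⟨h, -⟩
    · rw [h]
      linarith
    · rw [h]
      linarith
  · linarith

theorem win3 {k m P : ℕ} {ρ η : ℝ} {w : ℝ → ℝ} (hk : 3 ≤ k) (hm : k ≤ m) (hP : 2 * k ≤ P)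
    (hρ : 0 ≤ ρ) (hη : 0 < η) (hη1 : η ≤ 1) (hw : Bump η w) :
    (νn (m + 1)).real (DP2 k m P η w ((P : ℝ) ^ ((k : ℝ) * (1 - ρ)))) ≤
      Cv k m η * (2 * Kc P) ^ (m + 1) * (P : ℝ) ^ (-(mu2 k (m + 1) ρ)) := by
  obtain ⟨hμ0, hμ1, hμ2⟩ := mu2_conds (m := m) hk hρ
  set μ := mu2 k (m + 1) ρ with hμ
  have hP1 : 1 ≤ P := by omega
  have hp : (0 : ℝ) < P := by exact_mod_cast hP1
  have hp1 : (1 : ℝ) ≤ P := by exact_mod_cast hP1
  have hk3 : (3 : ℝ) ≤ k := by exact_mod_cast hk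
  have hkρ : 0 ≤ (k : ℝ) * ρ := by positivity
  have hK := Kc_ge hP1
  have hT := Tt_pos (k := k) (m := m) (by omega) hP1 hη
  have hc := cT_pos (k := k) (m := m) (by omega) hη
  have hW : 0 < Wd k (m + 1) P μ := Real.rpow_pos_of_pos hp _
  have hW2 : Wd k (m + 1) P μ ≤ (P : ℝ) ^ (k - 1) := by
    unfold Wd
    rw [← Real.rpow_natCast (P : ℝ) (k - 1), Nat.cast_sub (by omega : 1 ≤ k)]
    refine Real.rpow_le_rpow_of_exponent_le hp1 ?_
    push_cast at hμ1 ⊢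
    linarith
  have hD : η / 2 + Wd k (m + 1) P μ ≤ k * (4 * (P : ℝ)) ^ (k - 1) := by
    have h1 : (1 : ℝ) ≤ (P : ℝ) ^ (k - 1) := one_le_pow₀ hp1
    have h2 : (P : ℝ) ^ (k - 1) ≤ (4 * (P : ℝ)) ^ (k - 1) :=
      pow_le_pow_left₀ hp.le (by linarith) _
    have h3 : 2 * (4 * (P : ℝ)) ^ (k - 1) ≤ k * (4 * (P : ℝ)) ^ (k - 1) :=
      mul_le_mul_of_nonneg_right (by linarith) (by positivity)
    linarith
  refine (win2 hk (by omega) hP hη hW hD hw (Real.rpow_pos_of_pos hp _)).trans ?_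
  have hTr := Tt_rpow (k := k) (m := m) (P := P) (η := η) (by omega) hP1
  set X := (P : ℝ) ^ (((m + 1 : ℕ) : ℝ) - k) with hX
  have hX0 : 0 < X := Real.rpow_pos_of_pos hp _
  set X0 := (P : ℝ) ^ (-μ) with hX0def
  have hX00 : 0 < X0 := Real.rpow_pos_of_pos hp _
  have hKn : 0 < (2 * Kc P) ^ (m + 1) := by positivity
  have h1 : AA2 k (m + 1) P (Wd k (m + 1) P μ) η ^ 2 / Tt k m P η ^ 2 ≤
      ((16 * η * K2 1 + 40 * η * ll k ^ 2 * K2 (1 / 4)) / cT k m η) ^ 2 *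
        ((2 * Kc P) ^ (m + 1) * X0) := by
    have h2 := AA2_le (k := k) (n := m + 1) (μ := μ) hP1 hη hμ0
    set cA := 16 * η * K2 1 + 40 * η * ll k ^ 2 * K2 (1 / 4) with hcA
    have hA0 : 0 ≤ AA2 k (m + 1) P (Wd k (m + 1) P μ) η := by
      have h3 := K2_nonneg 1
      have h4 := K2_nonneg (1 / 4)
      unfold AA2
      positivity
    have h3 : (P : ℝ) ^ (((m + 1 : ℕ) : ℝ) - k - μ / 2) = X * (P : ℝ) ^ (-(μ / 2)) := by
      rw [hX, ← Real.rpow_add hp]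
      congr 1
    have h4 : ((P : ℝ) ^ (-(μ / 2))) ^ 2 = X0 := by
      rw [← Real.rpow_natCast _ 2, ← Real.rpow_mul hp.le]
      congr 1
      push_cast
      ring
    have h5 := pow_le_pow_left₀ hA0 h2 2
    rw [h3, mul_pow (√((2 * Kc P) ^ (m + 1))), Real.sq_sqrt hKn.le, mul_pow cA, mul_pow X,
      h4] at h5
    rw [hTr, div_le_iff₀ (by positivity)]
    refine h5.trans (le_of_eq ?_)
    field_simp
  have h2 : EE k (m + 1) P (Wd k (m + 1) P μ) η /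
      (Tt k m P η ^ 2 / 4 * (P : ℝ) ^ ((k : ℝ) * (1 - ρ))) ≤
      8 * (8 * η + 400 * η ^ 2 * K2 (1 / 5)) / cT k m η ^ 2 *
        ((2 * Kc P) ^ (m + 1) * X0) := by
    have h3 := EE_le (k := k) (n := m + 1) (μ := μ) (ρ := ρ) hP1 hη hμ1 hμ2
    set cE := 8 * η + 400 * η ^ 2 * K2 (1 / 5) with hcE
    have h4 : (P : ℝ) ^ (2 * ((m + 1 : ℕ) : ℝ) - k - k * ρ - μ) =
        X ^ 2 * (P : ℝ) ^ ((k : ℝ) * (1 - ρ)) * X0 := by
      rw [hX, hX0def, ← Real.rpow_natCast _ 2, ← Real.rpow_mul hp.le, ← Real.rpow_add hp,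
        ← Real.rpow_add hp]
      congr 1
      push_cast
      ring
    rw [h4] at h3
    have hY : 0 < (P : ℝ) ^ ((k : ℝ) * (1 - ρ)) := Real.rpow_pos_of_pos hp _
    rw [hTr, div_le_iff₀ (by positivity)]
    refine h3.trans (le_of_eq ?_)
    field_simp
    ring
  refine (add_le_add h1 h2).trans (le_of_eq ?_)
  unfold Cv
  ring

/-! ### cells -/

/-- few points near a set which is a union of parts of cells -/
lemma cells_generic {n M : ℕ} (hM : 0 < M) {B D : Set (Fin n → ℝ)}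
    (hB : ∀ α ∈ B, ∀ i, α i ∈ Set.Ico (0 : ℝ) 1)
    (hBD : ∀ i : Fin n → ℕ, (∀ l, i l < M) → ∀ α ∈ B, α ∈ cell n M i → cell n M i ⊆ D) :
    ∃ Q : Finset (Fin n → ℝ), (Q.card : ℝ) ≤ (M : ℝ) ^ n * (νn n).real D ∧
      ∀ α ∈ B, ∃ p ∈ Q, dist p α ≤ 1 / (M : ℝ) := by
  classical
  have hM0 : (0 : ℝ) < M := by exact_mod_cast hM
  set G : Finset (Fin n → ℕ) := (Fintype.piFinset fun _ : Fin n => Finset.range M).filter fun i =>
    (cell n M i ∩ B).Nonempty with hG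
  have hGM : ∀ i ∈ G, ∀ l, i l < M := by
    intro i hi l
    rw [hG, Finset.mem_filter, Fintype.mem_piFinset] at hi
    exact Finset.mem_range.1 (hi.1 l)
  have hGD : ∀ i ∈ G, cell n M i ⊆ D := by
    intro i hi
    have hlt := hGM i hi
    rw [hG, Finset.mem_filter] at hi
    obtain ⟨α, hα1, hα2⟩ := hi.2
    exact hBD i hlt α hα2 hα1
  refine ⟨G.image fun i l => (i l : ℝ) / M, ?_, ?_⟩
  · refine le_trans ?_ (card_cells_le hM G hGM hGD)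
    exact_mod_cast Finset.card_image_le
  · intro α hα
    set i : Fin n → ℕ := fun l => ⌊α l * M⌋₊ with hi
    have hfl : ∀ l, (i l : ℝ) ≤ α l * M ∧ α l * M < (i l : ℝ) + 1 := by
      intro l
      have h0 : 0 ≤ α l * M := mul_nonneg (hB α hα l).1 hM0.le
      exact ⟨Nat.floor_le h0, Nat.lt_floor_add_one _⟩
    have hcell : α ∈ cell n M i := by
      intro l _
      exact ⟨(div_le_iff₀ hM0).2 (hfl l).1, (lt_div_iff₀ hM0).2 (hfl l).2⟩
    have hlt : ∀ l, i l < M := by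
      intro l
      have h1 : (i l : ℝ) < M := by
        refine lt_of_le_of_lt (hfl l).1 ?_
        have := (hB α hα l).2
        nlinarith
      exact_mod_cast h1
    refine ⟨fun l => (i l : ℝ) / M, ?_, ?_⟩
    · rw [Finset.mem_image]
      refine ⟨i, ?_, rfl⟩
      rw [hG, Finset.mem_filter, Fintype.mem_piFinset]
      exact ⟨fun l => Finset.mem_range.2 (hlt l), ⟨α, hcell, hα⟩⟩
    · rw [dist_pi_le_iff (by positivity)]
      intro l
      rw [Real.dist_eq]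
      have h1 := hcell l (mem_univ l)
      have h3 : ((i l : ℝ) + 1) / M = i l / M + 1 / M := by ring
      rw [abs_le]
      constructor
      · linarith [h1.2]
      · have : 0 < 1 / (M : ℝ) := by positivity
        linarith [h1.1]

/-- nearby shifts -/
lemma rr_le_sol {k m P : ℕ} {η : ℝ} {w : ℝ → ℝ} (hk : 1 ≤ k) (hP : 1 ≤ P) (hη : 0 < η)
    (hw : Bump η w) {i : Fin (m + 1) → ℕ} {α β : Fin (m + 1) → ℝ}
    (hα : ∀ l, α l ∈ Set.Icc (0 : ℝ) 1) (hβ : ∀ l, β l ∈ Set.Icc (0 : ℝ) 1)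
    (hαi : α ∈ cell (m + 1) (MM k m P η) i) (hβi : β ∈ cell (m + 1) (MM k m P η) i) (N : ℝ) :
    rr (box (m + 1) P) (sx k (m + 1)) w β N ≤ ((sol k (m + 1) P (2 * η) α N).card : ℝ) := by
  classical
  have hM := MM_pos (m := m) hk hP hη
  set M := MM k m P η with hMdef
  have hM0 : (0 : ℝ) < M := by exact_mod_cast hM
  have hclose : ∀ l, |α l - β l| ≤ 1 / M := by
    intro l
    have h1 := hβi l (mem_univ l)
    have h2 := hαi l (mem_univ l)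
    have h3 : ((i l : ℝ) + 1) / M = i l / M + 1 / M := by ring
    rw [abs_le]
    constructor <;> linarith [h1.1, h1.2, h2.1, h2.2]
  have hsx : ∀ x ∈ box (m + 1) P, |sx k (m + 1) x α - sx k (m + 1) x β| ≤ η := by
    intro x hx
    refine (sx_close hP hx hα hβ hclose).trans ?_
    have h1 : ((m : ℝ) + 1) * (k * (4 * (P : ℝ)) ^ (k - 1)) / η ≤ M := Nat.le_ceil _
    rw [div_le_iff₀ hη] at h1
    push_cast
    rw [mul_one_div, div_le_iff₀ hM0]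
    linarith
  unfold rr
  calc ∑ x ∈ box (m + 1) P, w (N - sx k (m + 1) x β) ≤
      ∑ x ∈ box (m + 1) P, (if |sx k (m + 1) x α - N| < 2 * η then (1 : ℝ) else 0) := by
        refine Finset.sum_le_sum fun x hx => ?_
        split_ifs with h
        · exact hw.le_one _
        · refine (hw.zero _ ?_).le
          have h1 := hsx x hx
          by_contra hcon
          apply h
          rw [not_le] at hcon
          have h2 : sx k (m + 1) x α - N =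
              (sx k (m + 1) x α - sx k (m + 1) x β) + -(N - sx k (m + 1) x β) := by ring
          rw [h2]
          refine lt_of_le_of_lt (abs_add_le _ _) ?_
          rw [abs_neg]
          linarith
    _ = ((sol k (m + 1) P (2 * η) α N).card : ℝ) := by
        unfold sol
        rw [Finset.sum_boole]

/-- the bad real numbers of a window -/
def BN (k m P : ℕ) (η : ℝ) (α : Fin (m + 1) → ℝ) : Set ℝ :=
  {N : ℝ | N ∈ Set.Ico (2 * ((m : ℝ) + 1) * (P : ℝ) ^ k) ((4 * P : ℝ) ^ k) ∧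
    ((sol k (m + 1) P (2 * η) α N).card : ℝ) < Tt k m P η / 2}

/-- the bad shifts of a window -/
def Bad2 (k m P : ℕ) (η H : ℝ) : Set (Fin (m + 1) → ℝ) :=
  {α | (∀ i, α i ∈ Set.Ico (0 : ℝ) 1) ∧ H ≤ volume.real (BN k m P η α)}

lemma cell_sub_DP2 {k m P : ℕ} {η H : ℝ} {w : ℝ → ℝ} (hk : 1 ≤ k) (hP : 1 ≤ P) (hη : 0 < η)
    (hw : Bump η w) {i : Fin (m + 1) → ℕ} (hi : ∀ l, i l < MM k m P η)
    {α : Fin (m + 1) → ℝ} (hα : α ∈ Bad2 k m P η H) (hαi : α ∈ cell (m + 1) (MM k m P η) i) :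
    cell (m + 1) (MM k m P η) i ⊆ DP2 k m P η w H := by
  intro β hβ
  obtain ⟨hα1, hH⟩ := hα
  have hM := MM_pos (m := m) hk hP hη
  have hM0 : (0 : ℝ) < MM k m P η := by exact_mod_cast hM
  have hβ1 : ∀ l, β l ∈ Set.Icc (0 : ℝ) 1 := by
    intro l
    have h1 := hβ l (mem_univ l)
    constructor
    · refine le_trans ?_ h1.1
      positivity
    · refine h1.2.le.trans ?_
      rw [div_le_one hM0]
      exact_mod_cast hi l
  refine ⟨hβ1, hH.trans ?_⟩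
  refine measureReal_mono (fun N hN => ⟨hN.1, lt_of_le_of_lt ?_ hN.2⟩) ?_
  · exact rr_le_sol hk hP hη hw (fun l => ⟨(hα1 l).1, (hα1 l).2.le⟩) hβ1 hαi hβ N
  · refine ((measure_mono (fun N hN => hN.1)).trans_lt (?_ : volume (Set.Ico
      (2 * ((m : ℝ) + 1) * (P : ℝ) ^ k) ((4 * P : ℝ) ^ k)) < ⊤)).ne
    rw [Real.volume_Ico]
    exact ENNReal.ofReal_lt_top

lemma MM8_le {k m P : ℕ} (hk : 1 ≤ k) (hP : 1 ≤ P) :
    (MM k m P (1 / 8) : ℝ) ≤ (16 * (((m : ℝ) + 1) * k) * 4 ^ (k - 1)) * (P : ℝ) ^ ((k : ℝ) - 1) := by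
  have hk1 : (1 : ℝ) ≤ k := by exact_mod_cast hk
  have hp : (1 : ℝ) ≤ P := by exact_mod_cast hP
  set q := ((m : ℝ) + 1) * (k * (4 * (P : ℝ)) ^ (k - 1)) / (1 / 8) with hq
  have h1 : (MM k m P (1 / 8) : ℝ) < q + 1 := Nat.ceil_lt_add_one (by positivity)
  have h2 : 1 ≤ q := by
    rw [hq, le_div_iff₀ (by norm_num), one_mul]
    have h3 : (1 : ℝ) ≤ (4 * (P : ℝ)) ^ (k - 1) := one_le_pow₀ (by linarith)
    have h4 : (1 : ℝ) ≤ (m : ℝ) + 1 := by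
      have : (0 : ℝ) ≤ m := Nat.cast_nonneg m
      linarith
    have h5 : (1 : ℝ) ≤ k * (4 * (P : ℝ)) ^ (k - 1) := by nlinarith
    nlinarith
  refine (h1.le.trans (by linarith : q + 1 ≤ 2 * q)).trans (le_of_eq ?_)
  have h6 : (P : ℝ) ^ ((k : ℝ) - 1) = (P : ℝ) ^ (k - 1) := by
    rw [← Real.rpow_natCast _ (k - 1), Nat.cast_sub hk, Nat.cast_one]
  rw [hq, h6, mul_pow]
  ring

/-- few points near the bad shifts of a window -/
lemma card2_le {k m : ℕ} {ρ d : ℝ} (hk : 3 ≤ k) (hm : k ≤ m) (hρ : 0 ≤ ρ)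
    (hd : d ≤ (m : ℝ) + 1)
    (hδ : 0 < mu2 k (m + 1) ρ - ((k : ℝ) - 1) * ((m : ℝ) + 1 - d)) :
    ∃ C : ℝ, 0 ≤ C ∧ ∀ P : ℕ, 1 ≤ P → ∃ Q : Finset (Fin (m + 1) → ℝ),
      (∀ α ∈ Bad2 k m P (1 / 8) ((P : ℝ) ^ ((k : ℝ) * (1 - ρ))),
        ∃ p ∈ Q, dist p α ≤ 1 / (MM k m P (1 / 8) : ℝ)) ∧
      (2 * k ≤ P → (Q.card : ℝ) * (1 / (MM k m P (1 / 8) : ℝ)) ^ d ≤
        C * (P : ℝ) ^ (-((mu2 k (m + 1) ρ - ((k : ℝ) - 1) * ((m : ℝ) + 1 - d)) / 2))) := by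
  obtain ⟨w, hw⟩ := exists_bump (η := 1 / 8) (by norm_num)
  set δ := mu2 k (m + 1) ρ - ((k : ℝ) - 1) * ((m : ℝ) + 1 - d) with hδdef
  set e := (m : ℝ) + 1 - d with he
  have he0 : 0 ≤ e := by linarith
  obtain ⟨CK, hCK, hKc⟩ := Kc_le (ε := δ / (2 * ((m : ℝ) + 1))) (by positivity)
  have hk0 : (0 : ℝ) < k := by
    have : 0 < k := by omega
    exact_mod_cast this
  set A1 := 16 * (((m : ℝ) + 1) * k) * 4 ^ (k - 1) with hA1
  have hA10 : 0 < A1 := by positivity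
  have hCv : 0 ≤ Cv k m (1 / 8) := by
    have h1 := K2_nonneg 1
    have h2 := K2_nonneg (1 / 4)
    have h3 := K2_nonneg (1 / 5)
    unfold Cv
    positivity
  refine ⟨A1 ^ e * (Cv k m (1 / 8) * (2 * CK) ^ (m + 1)), by positivity, ?_⟩
  intro P hP1
  have hp : (1 : ℝ) ≤ P := by exact_mod_cast hP1
  have hp0 : (0 : ℝ) < P := by linarith
  have hM := MM_pos (k := k) (m := m) (by omega) hP1 (by norm_num : (0 : ℝ) < 1 / 8)
  have hMle := MM8_le (k := k) (m := m) (by omega) hP1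
  set M := MM k m P (1 / 8) with hMdef
  have hM0 : (0 : ℝ) < M := by exact_mod_cast hM
  obtain ⟨Q, hQ1, hQ2⟩ := cells_generic (n := m + 1) hM
    (B := Bad2 k m P (1 / 8) ((P : ℝ) ^ ((k : ℝ) * (1 - ρ))))
    (D := DP2 k m P (1 / 8) w ((P : ℝ) ^ ((k : ℝ) * (1 - ρ)))) (fun α hα => hα.1)
    (fun i hi α hα hαi => cell_sub_DP2 (by omega) hP1 (by norm_num) hw hi hα hαi)
  refine ⟨Q, hQ2, fun hP => ?_⟩
  have h2 := win3 (k := k) (m := m) hk hm hP hρ (by norm_num : (0 : ℝ) < 1 / 8) (by norm_num) hw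
  have h4 : (2 * Kc P) ^ (m + 1) ≤ (2 * CK) ^ (m + 1) * (P : ℝ) ^ (δ / 2) := by
    have h5 : 2 * Kc P ≤ 2 * CK * (P : ℝ) ^ (δ / (2 * ((m : ℝ) + 1))) := by
      have := hKc P hP1
      linarith
    have h6 := Kc_ge hP1
    refine (pow_le_pow_left₀ (by linarith) h5 (m + 1)).trans (le_of_eq ?_)
    rw [mul_pow]
    congr 1
    rw [← Real.rpow_natCast (_ : ℝ) (m + 1), ← Real.rpow_mul hp0.le]
    congr 1
    push_cast
    field_simp
  have h7 : (νn (m + 1)).real (DP2 k m P (1 / 8) w ((P : ℝ) ^ ((k : ℝ) * (1 - ρ)))) ≤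
      Cv k m (1 / 8) * (2 * CK) ^ (m + 1) * (P : ℝ) ^ (δ / 2 - mu2 k (m + 1) ρ) := by
    refine h2.trans ?_
    calc Cv k m (1 / 8) * (2 * Kc P) ^ (m + 1) * (P : ℝ) ^ (-(mu2 k (m + 1) ρ)) ≤
        Cv k m (1 / 8) * ((2 * CK) ^ (m + 1) * (P : ℝ) ^ (δ / 2)) *
          (P : ℝ) ^ (-(mu2 k (m + 1) ρ)) := by
          refine mul_le_mul_of_nonneg_right ?_ (by positivity)
          exact mul_le_mul_of_nonneg_left h4 hCv
      _ = _ := by
          rw [sub_eq_add_neg, Real.rpow_add hp0]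
          ring
  have h9 : (M : ℝ) ^ (m + 1) * (1 / (M : ℝ)) ^ d = (M : ℝ) ^ e := by
    rw [one_div, Real.inv_rpow hM0.le, ← Real.rpow_neg hM0.le, ← Real.rpow_natCast (M : ℝ) (m + 1),
      ← Real.rpow_add hM0]
    congr 1
    rw [he]
    push_cast
    ring
  have h10 : (M : ℝ) ^ e ≤ A1 ^ e * (P : ℝ) ^ (((k : ℝ) - 1) * e) := by
    refine (Real.rpow_le_rpow hM0.le hMle he0).trans (le_of_eq ?_)
    rw [Real.mul_rpow (by positivity) (by positivity), ← Real.rpow_mul hp0.le]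
  have h12 : 0 ≤ (1 / (M : ℝ)) ^ d := by positivity
  calc (Q.card : ℝ) * (1 / (M : ℝ)) ^ d ≤
      ((M : ℝ) ^ (m + 1) * (νn (m + 1)).real
        (DP2 k m P (1 / 8) w ((P : ℝ) ^ ((k : ℝ) * (1 - ρ))))) * (1 / (M : ℝ)) ^ d :=
        mul_le_mul_of_nonneg_right hQ1 h12
    _ = (M : ℝ) ^ e * (νn (m + 1)).real
        (DP2 k m P (1 / 8) w ((P : ℝ) ^ ((k : ℝ) * (1 - ρ)))) := by
        rw [← h9]
        ring
    _ ≤ (A1 ^ e * (P : ℝ) ^ (((k : ℝ) - 1) * e)) *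
        (Cv k m (1 / 8) * (2 * CK) ^ (m + 1) * (P : ℝ) ^ (δ / 2 - mu2 k (m + 1) ρ)) := by
        refine mul_le_mul h10 h7 measureReal_nonneg (by positivity)
    _ = A1 ^ e * (Cv k m (1 / 8) * (2 * CK) ^ (m + 1)) * (P : ℝ) ^ (-(δ / 2)) := by
        have h13 : (P : ℝ) ^ (-(δ / 2)) =
            (P : ℝ) ^ (((k : ℝ) - 1) * e) * (P : ℝ) ^ (δ / 2 - mu2 k (m + 1) ρ) := by
          rw [← Real.rpow_add hp0]
          congr 1
          rw [hδdef]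
          ring
        rw [h13]
        ring

/-- the exceptional shifts of the unit cube -/
def Exc2 (k m : ℕ) (ρ : ℝ) : Set (Fin (m + 1) → ℝ) :=
  {β | ∃ᶠ j in atTop, β ∈ Bad2 k m (Pj j) (1 / 8) ((Pj j : ℝ) ^ ((k : ℝ) * (1 - ρ)))}

/-- **The dimension of the exceptional set in the unit cube.** -/
theorem dim_Exc2 {k m : ℕ} {ρ d : ℝ} (hk : 3 ≤ k) (hm : k ≤ m) (hρ : 0 ≤ ρ) (hd0 : 0 ≤ d)
    (hd : d ≤ (m : ℝ) + 1)
    (hδ : 0 < mu2 k (m + 1) ρ - ((k : ℝ) - 1) * ((m : ℝ) + 1 - d)) :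
    dimH (Exc2 k m ρ) ≤ ENNReal.ofReal d := by
  obtain ⟨C, hC, hcard⟩ := card2_le hk hm hρ hd hδ
  set δ := mu2 k (m + 1) ρ - ((k : ℝ) - 1) * ((m : ℝ) + 1 - d) with hδdef
  choose! Q hQ1 hQ2 using hcard
  have hM : ∀ j, 0 < MM k m (Pj j) (1 / 8) := fun j =>
    MM_pos (by omega) (one_le_Pj j) (by norm_num)
  have hMP : ∀ j, (Pj j : ℝ) ≤ MM k m (Pj j) (1 / 8) := by
    intro j
    refine le_trans ?_ (Nat.le_ceil _)
    rw [le_div_iff₀ (by norm_num)]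
    have hp : (1 : ℝ) ≤ Pj j := by exact_mod_cast one_le_Pj j
    have h1 : (Pj j : ℝ) ≤ (4 * (Pj j : ℝ)) ^ (k - 1) := by
      calc (Pj j : ℝ) ≤ 4 * (Pj j : ℝ) := by linarith
        _ ≤ (4 * (Pj j : ℝ)) ^ (k - 1) := le_self_pow₀ (by linarith) (by omega)
    have hk1 : (1 : ℝ) ≤ k := by
      have : 1 ≤ k := by omega
      exact_mod_cast this
    have h2 : (1 : ℝ) ≤ (m : ℝ) + 1 := by
      have : (0 : ℝ) ≤ m := Nat.cast_nonneg m
      linarith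
    have h3 : (Pj j : ℝ) ≤ k * (4 * (Pj j : ℝ)) ^ (k - 1) := by nlinarith
    nlinarith
  have hr0 : ∀ j, 0 ≤ 1 / (MM k m (Pj j) (1 / 8) : ℝ) := fun j => by positivity
  have hr : Tendsto (fun j => 1 / (MM k m (Pj j) (1 / 8) : ℝ)) atTop (𝓝 0) := by
    have h1 : Tendsto (fun j => ((Pj j : ℕ) : ℝ)) atTop atTop :=
      tendsto_natCast_atTop_atTop.comp Pj_tendsto
    have h2 := tendsto_atTop_mono hMP h1
    simp only [one_div] at h2 ⊢
    exact h2.inv_tendsto_atTop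
  have hsum : Summable fun j => ((Q (Pj j)).card : ℝ) *
      (1 / (MM k m (Pj j) (1 / 8) : ℝ)) ^ d := by
    have hgeo : Summable fun j : ℕ => C * ((5 / 4 : ℝ) ^ (-(δ / 2))) ^ j := by
      refine (summable_geometric_of_lt_one (by positivity) ?_).mul_left C
      exact Real.rpow_lt_one_of_one_lt_of_neg (by norm_num) (by linarith)
    refine Summable.of_norm_bounded_eventually_nat hgeo ?_
    filter_upwards [Pj_tendsto.eventually_ge_atTop (2 * k)] with j hj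
    have hnn : 0 ≤ ((Q (Pj j)).card : ℝ) * (1 / (MM k m (Pj j) (1 / 8) : ℝ)) ^ d :=
      mul_nonneg (Nat.cast_nonneg _) (Real.rpow_nonneg (hr0 j) d)
    rw [Real.norm_eq_abs, abs_of_nonneg hnn]
    refine (hQ2 (Pj j) (one_le_Pj j) hj).trans (mul_le_mul_of_nonneg_left ?_ hC)
    have h1 : (Pj j : ℝ) ^ (-(δ / 2)) ≤ ((5 / 4 : ℝ) ^ j) ^ (-(δ / 2)) :=
      Real.rpow_le_rpow_of_nonpos (by positivity) (Pj_ge j) (by linarith)
    refine h1.trans (le_of_eq ?_)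
    rw [← Real.rpow_natCast (5 / 4 : ℝ) j, ← Real.rpow_mul (by norm_num),
      ← Real.rpow_natCast ((5 / 4 : ℝ) ^ (-(δ / 2))) j, ← Real.rpow_mul (by norm_num), mul_comm]
  have hmain := Pool.Agent.Q138.PS.dimH_limsup (fun j => Q (Pj j))
    (fun j => 1 / (MM k m (Pj j) (1 / 8) : ℝ)) hr0 hr d hd0 hsum
  refine (dimH_mono ?_).trans hmain
  intro β hβ
  refine Filter.Frequently.mono hβ fun j hj => ?_
  exact hQ1 (Pj j) (one_le_Pj j) β hj

end Pool.Agent.Q154.War
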