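import Pool.Agent.Q154.War.DimI
import Pool.Agent.Q154.War.DimE

/-!
# Exceptional shifts for almost all integers: all shifts
-/

set_option autoImplicit false
set_option linter.unusedSectionVars false

open MeasureTheory Set Finset Filter
open scoped Real Topology NNReal

namespace Pool.Agent.Q154.War

/-- an integer with at least `κ N ^ (n / k - 1)` representations -/
def RichN (k m : ℕ) (κ : ℝ) (α : Fin (m + 1) → ℝ) (N : ℕ) : Prop :=
  ∃ S : Finset (Fin (m + 1) → ℕ), κ * (N : ℝ) ^ (((m : ℝ) + 1) / k - 1) ≤ (S.card : ℝ) ∧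
    ∀ x ∈ S, (∀ i, 0 < x i) ∧ ⌊∑ i, ((x i : ℝ) + α i) ^ k⌋ = (N : ℤ)

/-- the constant -/
noncomputable def κ1 (k m : ℕ) : ℝ := κ0 k m 0 / 8

lemma κ1_pos {k m : ℕ} (hk : 1 ≤ k) : 0 < κ1 k m := by
  have := κ0_pos (m := m) (τ := 0) hk
  unfold κ1
  positivity

lemma eta8 (k P : ℕ) : eta k 0 (1 / 4) P = 1 / 8 := by
  unfold eta
  rw [mul_zero, neg_zero, Real.rpow_zero]
  norm_num

lemma rich_of {k m P : ℕ} {α : Fin (m + 1) → ℝ} {N : ℕ} {y : ℝ} (hk : 1 ≤ k) (hm : k ≤ m + 1)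
    (hP : 1 ≤ P) (hN : 1 ≤ N) (hy1 : (N : ℝ) + 1 / 4 ≤ y) (hy2 : y ≤ N + 3 / 4)
    (hw1 : 2 * ((m : ℝ) + 1) * (P : ℝ) ^ k ≤ y) (hw2 : y < (4 * (P : ℝ)) ^ k)
    (hz : ∀ i, ⌊α i⌋ < (P : ℤ))
    (hb : Tt k m P (1 / 8) / 2 ≤
      ((sol k (m + 1) P (2 * (1 / 8)) (fun i => Int.fract (α i)) y).card : ℝ)) :
    RichN k m (κ1 k m) α N := by
  classical
  set β : Fin (m + 1) → ℝ := fun i => Int.fract (α i) with hβ
  have hN0 : (1 : ℝ) ≤ N := by exact_mod_cast hN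
  have hy0 : 0 < y := by linarith
  have hk0 : (0 : ℝ) < k := by exact_mod_cast hk
  have hcard : κ1 k m * (N : ℝ) ^ (((m : ℝ) + 1) / k - 1) ≤ Tt k m P (1 / 8) / 2 := by
    have h1 := Tt_lower (k := k) (m := m) (P := P) (τ := 0) (c := 1 / 4) (N := y) hk hm hP
      (by norm_num) le_rfl hy0 hw1 hw2
    rw [eta8, sub_zero] at h1
    have h2 : (N : ℝ) ^ (((m : ℝ) + 1) / k - 1) ≤ y ^ (((m : ℝ) + 1) / k - 1) := by
      refine Real.rpow_le_rpow (by linarith) (by linarith) ?_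
      rw [sub_nonneg, le_div_iff₀ hk0, one_mul]
      exact_mod_cast hm
    have h3 := κ0_pos (m := m) (τ := 0) hk
    have h4 := mul_le_mul_of_nonneg_left h2 h3.le
    unfold κ1
    linarith
  have hbox : ∀ x ∈ sol k (m + 1) P (2 * (1 / 8)) β y, ∀ i, (P : ℤ) ≤ (x i : ℤ) := by
    intro x hx i
    unfold sol box at hx
    rw [Finset.mem_filter, Fintype.mem_piFinset] at hx
    have h3 := hx.1 i
    rw [Finset.mem_Ico] at h3
    exact_mod_cast h3.1
  refine ⟨(sol k (m + 1) P (2 * (1 / 8)) β y).image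
    (fun x i => ((x i : ℤ) - ⌊α i⌋).toNat), ?_, ?_⟩
  · rw [Finset.card_image_of_injOn]
    · exact hcard.trans hb
    · intro x hx x' hx' hxy
      funext i
      have e := congrFun hxy i
      simp only at e
      have h3 := hbox x hx i
      have h4 := hbox x' hx' i
      have h5 := hz i
      omega
  · intro x' hx'
    rw [Finset.mem_image] at hx'
    obtain ⟨x, hx, rfl⟩ := hx'
    have hpos : ∀ i, 0 < (x i : ℤ) - ⌊α i⌋ := by
      intro i
      have h3 := hbox x hx i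
      have h5 := hz i
      linarith
    refine ⟨fun i => ?_, ?_⟩
    · have := hpos i
      show 0 < ((x i : ℤ) - ⌊α i⌋).toNat
      omega
    · have h6 : ∑ i, (((((x i : ℤ) - ⌊α i⌋).toNat : ℕ) : ℝ) + α i) ^ k = sx k (m + 1) x β := by
        unfold sx
        refine Finset.sum_congr rfl fun i _ => ?_
        congr 1
        have h7 : (((((x i : ℤ) - ⌊α i⌋).toNat : ℕ) : ℤ) : ℝ) = ((x i : ℤ) : ℝ) - ⌊α i⌋ := by
          rw [Int.toNat_of_nonneg (hpos i).le]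
          push_cast
          ring
        have h8 : ((((x i : ℤ) - ⌊α i⌋).toNat : ℕ) : ℝ) = (x i : ℝ) - ⌊α i⌋ := by
          exact_mod_cast h7
        rw [h8, hβ]
        have h9 := Int.floor_add_fract (α i)
        simp only
        linarith
      rw [h6]
      unfold sol at hx
      rw [Finset.mem_filter] at hx
      have h10 := hx.2
      rw [abs_lt] at h10
      rw [Int.floor_eq_iff]
      push_cast
      constructor <;> linarith [h10.1, h10.2]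

/-- the poor integers up to `X` -/
def poor (k m : ℕ) (κ : ℝ) (α : Fin (m + 1) → ℝ) (X : ℝ) : Set ℕ :=
  {N : ℕ | (N : ℝ) ≤ X ∧ ¬ RichN k m κ α N}

lemma sum_Pj_le {s : ℝ} (hs : 0 < s) (J : ℕ) :
    ∑ j ∈ Finset.range (J + 1), (Pj j : ℝ) ^ s ≤
      2 ^ s * (((5 / 4 : ℝ) ^ s) / ((5 / 4 : ℝ) ^ s - 1)) * ((5 / 4 : ℝ) ^ s) ^ J := by
  set r := (5 / 4 : ℝ) ^ s with hr
  have hr1 : 1 < r := Real.one_lt_rpow (by norm_num) hs
  have h1 : ∀ j ∈ Finset.range (J + 1), (Pj j : ℝ) ^ s ≤ 2 ^ s * r ^ j := by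
    intro j _
    have h2 : (Pj j : ℝ) ≤ 2 * (5 / 4 : ℝ) ^ j := by
      have h3 := Pj_lt j
      have h4 : (1 : ℝ) ≤ (5 / 4 : ℝ) ^ j := one_le_pow₀ (by norm_num)
      linarith
    refine (Real.rpow_le_rpow (Nat.cast_nonneg _) h2 hs.le).trans (le_of_eq ?_)
    rw [Real.mul_rpow (by norm_num) (by positivity), hr, ← Real.rpow_natCast (5 / 4 : ℝ) j,
      ← Real.rpow_mul (by norm_num), ← Real.rpow_natCast ((5 / 4 : ℝ) ^ s) j,
      ← Real.rpow_mul (by norm_num), mul_comm (j : ℝ) s]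
  refine (Finset.sum_le_sum h1).trans ?_
  rw [← Finset.mul_sum, geom_sum_eq hr1.ne', mul_assoc]
  refine mul_le_mul_of_nonneg_left ?_ (by positivity)
  rw [div_mul_eq_mul_div]
  refine div_le_div_of_nonneg_right ?_ (by linarith)
  rw [pow_succ]
  nlinarith

/-- **Counting the poor integers.** -/
theorem count_poor {k m : ℕ} {ρ : ℝ} {α : Fin (m + 1) → ℝ} (hk : 1 ≤ k) (hm : k ≤ m + 1)
    (hm2 : 2 * (m + 1) ≤ 3 ^ k) (hρ1 : ρ < 1)
    (hα : (fun i => Int.fract (α i)) ∉ Exc2 k m ρ) :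
    ∃ C : ℝ, ∀ X : ℝ, 1 ≤ X → ((poor k m (κ1 k m) α X).ncard : ℝ) ≤ C * X ^ (1 - ρ) := by
  classical
  set β : Fin (m + 1) → ℝ := fun i => Int.fract (α i) with hβ
  have hk0 : (0 : ℝ) < k := by exact_mod_cast hk
  set s := (k : ℝ) * (1 - ρ) with hs
  have hs0 : 0 < s := mul_pos hk0 (by linarith)
  have h1 : ∀ᶠ j in atTop, β ∉ Bad2 k m (Pj j) (1 / 8) ((Pj j : ℝ) ^ s) := by
    have : ¬ ∃ᶠ j in atTop, β ∈ Bad2 k m (Pj j) (1 / 8) ((Pj j : ℝ) ^ s) := hα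
    rwa [Filter.not_frequently] at this
  have h2 : ∀ᶠ j in atTop, ∀ i, ⌊α i⌋ < (Pj j : ℤ) := by
    rw [Filter.eventually_all]
    intro i
    filter_upwards [Pj_tendsto.eventually_gt_atTop ⌊α i⌋.toNat] with j hj
    have h3 := Int.self_le_toNat ⌊α i⌋
    have h4 : ((⌊α i⌋.toNat : ℕ) : ℤ) < (Pj j : ℤ) := by exact_mod_cast hj
    linarith
  obtain ⟨J, hJ⟩ := Filter.eventually_atTop.1 (h1.and h2)
  obtain ⟨N₀, hN01, hwin⟩ := windows hk hm2 J
  set r := (5 / 4 : ℝ) ^ s with hr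
  have hr1 : 1 < r := Real.one_lt_rpow (by norm_num) hs0
  set C1 := 2 ^ s * (r / (r - 1)) with hC1
  have hC10 : 0 ≤ C1 := by
    have : 0 < r - 1 := by linarith
    positivity
  refine ⟨(N₀ + 1) + 2 * (C1 * 2 ^ (1 - ρ)), fun X hX => ?_⟩
  have hX0 : 0 < X := by linarith
  have hXρ : 1 ≤ X ^ (1 - ρ) := Real.one_le_rpow hX (by linarith)
  -- the last window
  have hb1 : (1 : ℝ) < (5 / 4 : ℝ) ^ k := one_lt_pow₀ (by norm_num) (by omega)
  obtain ⟨jm, hjm1, hjm2⟩ := exists_nat_pow_near (x := 2 * X) (by linarith) hb1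
  have hjlt : ∀ j, (Pj j : ℝ) ^ k ≤ 2 * X → j < jm + 1 := by
    intro j hj
    have h3 : ((5 / 4 : ℝ) ^ k) ^ j < ((5 / 4 : ℝ) ^ k) ^ (jm + 1) := by
      calc ((5 / 4 : ℝ) ^ k) ^ j = ((5 / 4 : ℝ) ^ j) ^ k := by
            rw [← pow_mul, ← pow_mul, mul_comm]
        _ ≤ (Pj j : ℝ) ^ k := pow_le_pow_left₀ (by positivity) (Pj_ge j) k
        _ ≤ 2 * X := hj
        _ < _ := hjm2
    exact (pow_lt_pow_iff_right₀ hb1).1 h3
  have hsum : ∑ j ∈ Finset.range (jm + 1), (Pj j : ℝ) ^ s ≤ C1 * (2 * X) ^ (1 - ρ) := by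
    refine (sum_Pj_le hs0 jm).trans ?_
    refine mul_le_mul_of_nonneg_left ?_ hC10
    have h3 : ((5 / 4 : ℝ) ^ s) ^ jm = (((5 / 4 : ℝ) ^ k) ^ jm) ^ (1 - ρ) := by
      rw [← Real.rpow_natCast ((5 / 4 : ℝ) ^ s) jm, ← Real.rpow_mul (by norm_num),
        ← pow_mul, ← Real.rpow_natCast (5 / 4 : ℝ) (k * jm), ← Real.rpow_mul (by norm_num)]
      congr 1
      rw [hs]
      push_cast
      ring
    rw [h3]
    exact Real.rpow_le_rpow (by positivity) hjm1 (by linarith)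
  -- the finite sets
  set F : Finset ℕ := (Finset.range (⌊X⌋₊ + 1)).filter fun N => ¬ RichN k m (κ1 k m) α N with hF
  have hFeq : (poor k m (κ1 k m) α X) = (F : Set ℕ) := by
    ext N
    rw [hF, Finset.coe_filter, Set.mem_ofPred_eq, Finset.mem_range, Nat.lt_succ_iff]
    show ((N : ℝ) ≤ X ∧ _) ↔ _
    rw [Nat.le_floor_iff hX0.le]
  rw [hFeq, Set.ncard_coe_finset]
  set F1 := F.filter fun N : ℕ => (N : ℝ) < N₀ with hF1
  set F2 := F.filter fun N : ℕ => ¬ (N : ℝ) < N₀ with hF2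
  have hcard : F1.card + F2.card = F.card := Finset.card_filter_add_card_filter_not _
  have hF1c : (F1.card : ℝ) ≤ N₀ + 1 := by
    have h3 : F1 ⊆ Finset.range ⌈N₀⌉₊ := by
      intro N hN
      rw [hF1, Finset.mem_filter] at hN
      rw [Finset.mem_range]
      exact Nat.lt_ceil.2 hN.2
    have h4 := Finset.card_le_card h3
    rw [Finset.card_range] at h4
    have h5 : (F1.card : ℝ) ≤ ⌈N₀⌉₊ := by exact_mod_cast h4
    have h6 := Nat.ceil_lt_add_one (by linarith : 0 ≤ N₀)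
    linarith
  have hF2c : (F2.card : ℝ) * (1 / 2) ≤ ∑ j ∈ Finset.range (jm + 1), (Pj j : ℝ) ^ s := by
    set I : ℕ → Set ℝ := fun N => Set.Icc ((N : ℝ) + 1 / 4) ((N : ℝ) + 3 / 4) with hI
    set Js := (Finset.range (jm + 1)).filter fun j => J ≤ j with hJs
    have hfin : ∀ j, volume (BN k m (Pj j) (1 / 8) β) ≠ ⊤ := by
      intro j
      refine ((measure_mono (fun N hN => hN.1)).trans_lt (?_ : volume (Set.Ico
        (2 * ((m : ℝ) + 1) * (Pj j : ℝ) ^ k) ((4 * (Pj j : ℝ)) ^ k)) < ⊤)).ne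
      rw [Real.volume_Ico]
      exact ENNReal.ofReal_lt_top
    have hsub : (⋃ N ∈ F2, I N) ⊆ ⋃ j ∈ Js, BN k m (Pj j) (1 / 8) β := by
      intro y hy
      rw [Set.mem_iUnion₂] at hy
      obtain ⟨N, hN, hyN⟩ := hy
      rw [hF2, Finset.mem_filter, hF, Finset.mem_filter, Finset.mem_range, Nat.lt_succ_iff,
        Nat.le_floor_iff hX0.le, not_lt] at hN
      obtain ⟨⟨hNX, hpoor⟩, hNN⟩ := hN
      have hN1 : 1 ≤ N := by
        have : (1 : ℝ) ≤ N := hN01.trans hNN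
        exact_mod_cast this
      have hyN₀ : N₀ ≤ y := by linarith [hyN.1]
      obtain ⟨j, hj, hw1, hw2⟩ := hwin y hyN₀
      have hP0 : (0 : ℝ) ≤ (Pj j : ℝ) ^ k := by positivity
      rw [Set.mem_iUnion₂]
      refine ⟨j, ?_, ⟨hw1, hw2⟩, ?_⟩
      · rw [hJs, Finset.mem_filter, Finset.mem_range]
        refine ⟨hjlt j ?_, hj⟩
        have h3 : 2 * (Pj j : ℝ) ^ k ≤ 2 * ((m : ℝ) + 1) * (Pj j : ℝ) ^ k := by
          have hm0 : (0 : ℝ) ≤ m := Nat.cast_nonneg m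
          nlinarith [mul_nonneg hm0 hP0]
        linarith [hyN.2]
      · by_contra hcon
        rw [not_lt] at hcon
        exact hpoor (rich_of hk hm (one_le_Pj j) hN1 hyN.1 hyN.2 hw1 hw2 (hJ j hj).2 hcon)
    have hvol : volume.real (⋃ N ∈ F2, I N) = (F2.card : ℝ) * (1 / 2) := by
      have hIf : ∀ N ∈ F2, volume (I N) ≠ ⊤ := by
        intro N _
        simp only [hI, Real.volume_Icc]
        exact ENNReal.ofReal_ne_top
      have hIm : ∀ N ∈ F2, MeasurableSet (I N) := fun N _ => measurableSet_Icc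
      have hId : Set.PairwiseDisjoint (↑F2 : Set ℕ) I := by
        intro N _ N' _ hNN'
        rw [Function.onFun, Set.disjoint_left]
        intro y hy hy'
        apply hNN'
        have h3 : (N : ℝ) < N' + 1 := by linarith [hy.1, hy'.2]
        have h4 : (N' : ℝ) < N + 1 := by linarith [hy'.1, hy.2]
        have h5 : N < N' + 1 := by exact_mod_cast h3
        have h6 : N' < N + 1 := by exact_mod_cast h4
        omega
      rw [measureReal_biUnion_finset hId hIm hIf]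
      have h3 : ∀ N ∈ F2, volume.real (I N) = 1 / 2 := by
        intro N _
        rw [hI]
        simp only [Real.volume_real_Icc]
        rw [max_eq_left (by linarith)]
        ring
      rw [Finset.sum_congr rfl h3, Finset.sum_const, nsmul_eq_mul]
    rw [← hvol]
    have hfinU : volume (⋃ j ∈ Js, BN k m (Pj j) (1 / 8) β) ≠ ⊤ := by
      refine ((measure_biUnion_finset_le _ _).trans_lt ?_).ne
      rw [ENNReal.sum_lt_top]
      intro j _
      exact (hfin j).lt_top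
    refine (measureReal_mono hsub hfinU).trans ((measureReal_biUnion_finset_le _ _).trans ?_)
    refine (Finset.sum_le_sum (fun j hj => ?_ : ∀ j ∈ Js, volume.real (BN k m (Pj j) (1 / 8) β) ≤
      (Pj j : ℝ) ^ s)).trans ?_
    · rw [hJs, Finset.mem_filter] at hj
      have h3 := (hJ j hj.2).1
      by_contra hcon
      push Not at hcon
      exact h3 ⟨fun i => ⟨Int.fract_nonneg _, Int.fract_lt_one _⟩, hcon.le⟩
    · refine Finset.sum_le_sum_of_subset_of_nonneg (Finset.filter_subset _ _) fun j _ _ => ?_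
      positivity
  have h3 : (F.card : ℝ) = F1.card + F2.card := by exact_mod_cast hcard.symm
  have h4 : (2 * X) ^ (1 - ρ) = 2 ^ (1 - ρ) * X ^ (1 - ρ) :=
    Real.mul_rpow (by norm_num) hX0.le
  rw [h4] at hsum
  rw [h3]
  have h5 : (F2.card : ℝ) ≤ 2 * (C1 * (2 ^ (1 - ρ) * X ^ (1 - ρ))) := by linarith
  have h6 : N₀ + 1 ≤ (N₀ + 1) * X ^ (1 - ρ) := le_mul_of_one_le_right (by linarith) hXρ
  calc (F1.card : ℝ) + F2.card ≤ (N₀ + 1) * X ^ (1 - ρ) +
        2 * (C1 * (2 ^ (1 - ρ) * X ^ (1 - ρ))) := by linarith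
    _ = _ := by ring

/-- the power saving -/
def Sav (k m : ℕ) (κ ρ : ℝ) (α : Fin (m + 1) → ℝ) : Prop :=
  ∃ C : ℝ, ∀ X : ℝ, 1 ≤ X → ((poor k m κ α X).ncard : ℝ) ≤ C * X ^ (1 - ρ)

theorem dim_notSav {k m : ℕ} {ρ d : ℝ} (hk : 3 ≤ k) (hm : k ≤ m) (hm2 : 2 * (m + 1) ≤ 3 ^ k)
    (hρ : 0 ≤ ρ) (hρ1 : ρ < 1) (hd0 : 0 ≤ d) (hd : d ≤ (m : ℝ) + 1)
    (hδ : 0 < mu2 k (m + 1) ρ - ((k : ℝ) - 1) * ((m : ℝ) + 1 - d)) :
    dimH {α : Fin (m + 1) → ℝ | ¬ Sav k m (κ1 k m) ρ α} ≤ ENNReal.ofReal d := by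
  have h1 : {α : Fin (m + 1) → ℝ | ¬ Sav k m (κ1 k m) ρ α} ⊆
      ⋃ z : Fin (m + 1) → ℤ,
        (IsometryEquiv.addRight (fun i => ((z i : ℤ) : ℝ))) '' Exc2 k m ρ := by
    intro α hα
    rw [Set.mem_iUnion]
    refine ⟨fun i => ⌊α i⌋, fun i => Int.fract (α i), ?_, ?_⟩
    · by_contra hcon
      exact hα (count_poor (by omega) (by omega) hm2 hρ1 hcon)
    · funext i
      rw [IsometryEquiv.addRight_apply, Pi.add_apply, add_comm]
      exact Int.floor_add_fract (α i)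
  refine (dimH_mono h1).trans ?_
  rw [dimH_iUnion]
  refine iSup_le fun z => ?_
  rw [(IsometryEquiv.addRight (fun i => ((z i : ℤ) : ℝ))).isometry.dimH_image]
  exact dim_Exc2 hk hm hρ hd0 hd hδ

/-- **The dimension of the exceptional set of shifts, for almost all integers.** -/
theorem dim_almost {k m : ℕ} {ρ : ℝ} (hk : 3 ≤ k) (hm : k ≤ m) (hm2 : 2 * (m + 1) ≤ 3 ^ k)
    (hρ : 0 ≤ ρ) (hρ1 : ρ < 1) (hρ2 : k * (1 + ρ) < (m : ℝ) + 1) :
    dimH {α : Fin (m + 1) → ℝ | ¬ ∃ ρ' : ℝ, ρ < ρ' ∧ Sav k m (κ1 k m) ρ' α} ≤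
      ENNReal.ofReal ((m : ℝ) + 1 - mu2 k (m + 1) ρ / ((k : ℝ) - 1)) := by
  have hk3 : (3 : ℝ) ≤ k := by exact_mod_cast hk
  have hm3 : (3 : ℝ) ≤ m := by
    have : 3 ≤ m := by omega
    exact_mod_cast this
  have hmu : 0 < mu2 k (m + 1) ρ := by
    unfold mu2
    refine lt_min (by norm_num) ?_
    push_cast
    linarith
  have hmu4 : mu2 k (m + 1) ρ ≤ 4 := min_le_left _ _
  have hk1 : 0 < (k : ℝ) - 1 := by linarith
  have hq0 : 0 < mu2 k (m + 1) ρ / ((k : ℝ) - 1) := by positivity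
  have hq2 : mu2 k (m + 1) ρ / ((k : ℝ) - 1) ≤ 2 := by
    rw [div_le_iff₀ hk1]
    linarith
  set d0 := (m : ℝ) + 1 - mu2 k (m + 1) ρ / ((k : ℝ) - 1) with hd0
  have hd00 : 0 ≤ d0 := by linarith
  refine ENNReal.le_of_forall_pos_le_add fun ε hε _ => ?_
  have hε' : (0 : ℝ) < ε := by exact_mod_cast hε
  set d := min (d0 + ε) ((m : ℝ) + 1) with hd
  have hd1 : d ≤ (m : ℝ) + 1 := min_le_right _ _
  have hd2 : d ≤ d0 + ε := min_le_left _ _
  have hd3 : d0 < d := lt_min (by linarith) (by linarith)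
  have hδ : 0 < mu2 k (m + 1) ρ - ((k : ℝ) - 1) * ((m : ℝ) + 1 - d) := by
    have h1 : (m : ℝ) + 1 - d < mu2 k (m + 1) ρ / ((k : ℝ) - 1) := by linarith
    rw [lt_div_iff₀ hk1] at h1
    linarith
  set δ0 := mu2 k (m + 1) ρ - ((k : ℝ) - 1) * ((m : ℝ) + 1 - d) with hδ0
  set t := min (δ0 / (2 * k)) ((1 - ρ) / 2) with ht
  have ht0 : 0 < t := lt_min (by positivity) (by linarith)
  have ht1 : t ≤ δ0 / (2 * k) := min_le_left _ _
  have ht2 : t ≤ (1 - ρ) / 2 := min_le_right _ _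
  have ht3 : k * t ≤ δ0 / 2 := by
    rw [le_div_iff₀ (by positivity)] at ht1
    linarith
  have hmu' : mu2 k (m + 1) ρ - k * t ≤ mu2 k (m + 1) (ρ + t) := by
    have hkt : 0 ≤ (k : ℝ) * t := by positivity
    unfold mu2
    refine le_min ?_ ?_
    · have := min_le_left (4 : ℝ) (((m + 1 : ℕ) : ℝ) - k * (1 + ρ))
      linarith
    · have := min_le_right (4 : ℝ) (((m + 1 : ℕ) : ℝ) - k * (1 + ρ))
      linarith
  have hsub : {α : Fin (m + 1) → ℝ | ¬ ∃ ρ' : ℝ, ρ < ρ' ∧ Sav k m (κ1 k m) ρ' α} ⊆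
      {α : Fin (m + 1) → ℝ | ¬ Sav k m (κ1 k m) (ρ + t) α} := by
    intro α hα hcon
    exact hα ⟨ρ + t, by linarith, hcon⟩
  have h3 : dimH {α : Fin (m + 1) → ℝ | ¬ Sav k m (κ1 k m) (ρ + t) α} ≤ ENNReal.ofReal d := by
    refine dim_notSav hk hm hm2 (by linarith) (by linarith) (by linarith) hd1 ?_
    linarith
  refine (dimH_mono hsub).trans (h3.trans ((ENNReal.ofReal_le_ofReal hd2).trans ?_))
  rw [ENNReal.ofReal_add hd00 hε'.le, ENNReal.ofReal_coe_nnreal]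

end Pool.Agent.Q154.War
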