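import Pool.Agent.Q154.War.PrimeSq

/-!
# Powers of the elements of a slowly growing set
-/

set_option autoImplicit false

open Set

namespace Pool.Agent.Q154.War

lemma Slow.pow {C : Set ℕ} (hC : Slow C) {k : ℕ} (hk : 1 ≤ k) :
    Slow {b : ℕ | ∃ y ∈ C, b = y ^ k} := by
  intro ε hε
  have hk0 : (0 : ℝ) < k := by exact_mod_cast hk
  obtain ⟨Y₀, hY₀⟩ := hC ε hε
  refine ⟨max 1 ((max 1 Y₀) ^ k), fun X hX => ?_⟩
  have hX1 : 1 ≤ X := (le_max_left _ _).trans hX
  have hX2 : (max 1 Y₀) ^ k ≤ X := (le_max_right _ _).trans hX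
  have hX0 : 0 < X := by linarith
  have hm : 0 ≤ max 1 Y₀ := le_trans zero_le_one (le_max_left _ _)
  have hroot : (X ^ (1 / (k : ℝ))) ^ k = X := by
    rw [← Real.rpow_mul_natCast hX0.le, one_div, inv_mul_cancel₀ hk0.ne', Real.rpow_one]
  have hY : Y₀ ≤ X ^ (1 / (k : ℝ)) := by
    refine (le_max_right 1 Y₀).trans ?_
    refine le_of_pow_le_pow_left₀ (by omega : k ≠ 0) (by positivity) ?_
    rw [hroot]
    exact hX2
  obtain ⟨y, hy, h1, h2⟩ := hY₀ _ hY
  refine ⟨y ^ k, ⟨y, hy, rfl⟩, ?_, ?_⟩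
  · have h3 := pow_le_pow_left₀ (by positivity) h1 k
    push_cast
    refine le_trans (le_of_eq ?_) h3
    rw [← Real.rpow_mul hX0.le, ← Real.rpow_mul_natCast hX0.le]
    congr 1
    field_simp
  · have h3 := pow_le_pow_left₀ (Nat.cast_nonneg y) h2 k
    rw [hroot] at h3
    push_cast
    exact h3

end Pool.Agent.Q154.War
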