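import Pool.Agent.Q154.War.Dimin
import Pool.Agent.Q154.War.SlowPow

/-!
# Diminishing ranges for the powers of the elements of a dense set
-/

set_option autoImplicit false
set_option linter.unusedSectionVars false

open Set Finset MeasureTheory
open scoped Real

namespace Pool.Agent.Q154.War

/-- at least `X^(1-ε)` elements up to `X` -/
def Rich (D : Set ℕ) : Prop :=
  ∀ ε : ℝ, 0 < ε → ∃ X₀ : ℝ, ∀ X ≥ X₀, X ^ (1 - ε) ≤ ((upto D X).ncard : ℝ)

/-- sums of `s` positive `k`-th powers of elements of `D` -/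
def PX (D : Set ℕ) (k s : ℕ) : Set ℕ :=
  {n | ∃ y : Fin s → ℕ, (∀ i, y i ∈ D ∧ 0 < y i) ∧ n = ∑ i, y i ^ k}

lemma ncard_upto_le (D : Set ℕ) {X : ℝ} (hX : 0 ≤ X) : ((upto D X).ncard : ℝ) ≤ X + 1 := by
  have h1 : (upto D X).ncard ≤ (Set.Iic ⌊X⌋₊).ncard := by
    refine Set.ncard_le_ncard ?_ (Set.finite_Iic _)
    intro a ha
    exact Nat.le_floor ha.2
  have h0 : (Set.Iic ⌊X⌋₊).ncard = ⌊X⌋₊ + 1 := by
    rw [Set.ncard_eq_toFinset_card', Set.toFinset_Iic, Nat.card_Iic]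
  rw [h0] at h1
  have h2 : ((upto D X).ncard : ℝ) ≤ ((⌊X⌋₊ + 1 : ℕ) : ℝ) := by exact_mod_cast h1
  refine h2.trans ?_
  push_cast
  linarith [Nat.floor_le hX]

/-- one step of the diminishing ranges -/
lemma step_PX {D : Set ℕ} {k s : ℕ} (hk : 2 ≤ k) {W Z X : ℝ} (hW : 0 ≤ W)
    (hX : Z ^ k + W ^ (k - 1) ≤ X) :
    (upto D Z \ upto D W).ncard * (upto (PX D k s) (W ^ (k - 1))).ncard ≤
      (upto (PX D k (s + 1)) X).ncard := by
  rw [← Set.ncard_prod]
  refine Set.ncard_le_ncard_of_injOn (fun p : ℕ × ℕ => p.1 ^ k + p.2) ?_ ?_ (finite_upto _ _)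
  · rintro ⟨x, a⟩ ⟨hx, ha⟩
    obtain ⟨⟨y, hy, hya⟩, haZ⟩ := ha
    obtain ⟨⟨hxD, hxZ⟩, hxW⟩ := hx
    simp only at hxD hxZ hxW hya haZ
    have hxW' : W < x := by
      by_contra hcon
      exact hxW ⟨hxD, not_lt.1 hcon⟩
    refine ⟨⟨Fin.cons x y, ?_, ?_⟩, ?_⟩
    · intro i
      refine Fin.cases ?_ (fun l => ?_) i
      · refine ⟨hxD, ?_⟩
        show 0 < x
        have : (0 : ℝ) < x := hW.trans_lt hxW'
        exact_mod_cast this
      · exact hy l
    · rw [Fin.sum_univ_succ]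
      simp only [Fin.cons_zero, Fin.cons_succ]
      rw [hya]
    · simp only
      push_cast
      have h3 : (x : ℝ) ^ k ≤ Z ^ k := pow_le_pow_left₀ (Nat.cast_nonneg x) hxZ k
      linarith
  · rintro ⟨x, a⟩ ⟨hx, ha⟩ ⟨x', a'⟩ ⟨hx', ha'⟩ heq
    simp only at heq hx hx' ha ha'
    have hgt : ∀ z b : ℕ, z ∈ upto D Z \ upto D W → b ∈ upto (PX D k s) (W ^ (k - 1)) →
        b < z ^ (k - 1) := by
      intro z b hz hb
      have hzW : W < z := by
        by_contra hcon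
        exact hz.2 ⟨hz.1.1, not_lt.1 hcon⟩
      have h1 : W ^ (k - 1) < (z : ℝ) ^ (k - 1) := pow_lt_pow_left₀ hzW hW (by omega)
      have h2 : (b : ℝ) < (z : ℝ) ^ (k - 1) := hb.2.trans_lt h1
      exact_mod_cast h2
    rcases lt_trichotomy x x' with h | h | h
    · have h2 := pow_gap hk h
      have h3 := hgt x a hx ha
      omega
    · subst h
      have : a = a' := by omega
      rw [this]
    · have h2 := pow_gap hk h
      have h3 := hgt x' a' hx' ha'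
      omega

/-- **The number of sums of `s` `k`-th powers of elements of a rich set.** -/
theorem count_PX {D : Set ℕ} (hD : Rich D) {k : ℕ} (hk : 2 ≤ k) (s : ℕ) :
    ∀ σ : ℝ, σ < 1 - (1 - 1 / (k : ℝ)) ^ s →
      ∃ X₀ : ℝ, ∀ X ≥ X₀, X ^ σ ≤ ((upto (PX D k s) X).ncard : ℝ) := by
  have hk0 : (0 : ℝ) < k := by
    have : 0 < k := by omega
    exact_mod_cast this
  have hk2 : (2 : ℝ) ≤ k := by exact_mod_cast hk
  induction s with
  | zero =>
    intro σ hσ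
    rw [pow_zero, sub_self] at hσ
    refine ⟨1, fun X hX => ?_⟩
    have h1 : (0 : ℕ) ∈ upto (PX D k 0) X := by
      refine ⟨⟨fun i => i.elim0, fun i => i.elim0, by simp⟩, ?_⟩
      rw [Nat.cast_zero]
      linarith
    have h2 : 0 < (upto (PX D k 0) X).ncard := (Set.ncard_pos (finite_upto _ _)).2 ⟨0, h1⟩
    have h3 : (1 : ℝ) ≤ ((upto (PX D k 0) X).ncard : ℝ) := by exact_mod_cast h2
    exact (Real.rpow_le_one_of_one_le_of_nonpos hX hσ.le).trans h3
  | succ s ih =>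
    intro σ' hσ'
    obtain ⟨e, he⟩ : ∃ e : ℝ, e = 1 - (1 - 1 / (k : ℝ)) ^ s := ⟨_, rfl⟩
    have hee : (k : ℝ) * (1 - (1 - 1 / (k : ℝ)) ^ (s + 1)) = 1 + (k - 1) * e := by
      rw [he, pow_succ]
      field_simp
      ring
    -- choice of `σ` and `ε`
    have hlim : Filter.Tendsto (fun ε : ℝ => (1 - ε) * (1 + (k - 1) * (e - ε)))
        (nhds 0) (nhds ((1 - 0) * (1 + (k - 1) * (e - 0)))) := by
      refine Continuous.tendsto ?_ 0
      fun_prop
    have hlt : k * σ' < (1 - 0) * (1 + (k - 1) * (e - 0)) := by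
      rw [sub_zero, sub_zero, one_mul, ← hee]
      exact mul_lt_mul_of_pos_left hσ' hk0
    have hev := hlim.eventually (lt_mem_nhds hlt)
    obtain ⟨r, hr, hball⟩ := Metric.eventually_nhds_iff.1 hev
    obtain ⟨ε, hε⟩ : ∃ ε : ℝ, ε = min (r / 2) (1 / 2) := ⟨_, rfl⟩
    have hε0 : 0 < ε := by
      rw [hε]
      exact lt_min (by positivity) (by norm_num)
    have hε1 : ε ≤ 1 / 2 := by
      rw [hε]
      exact min_le_right _ _
    have hεr : ε < r := by
      have : ε ≤ r / 2 := by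
        rw [hε]
        exact min_le_left _ _
      linarith
    have hkey := hball (y := ε) (by
      rw [Real.dist_eq, sub_zero, abs_of_pos hε0]
      exact hεr)
    obtain ⟨σ, hσ⟩ : ∃ σ : ℝ, σ = e - ε := ⟨_, rfl⟩
    rw [← hσ] at hkey
    obtain ⟨X₁, hX₁⟩ := ih σ (by rw [hσ, ← he]; linarith)
    obtain ⟨X₂, hX₂⟩ := hD ε hε0
    set c : ℝ := 1 / 4 * ((1 / 2 : ℝ) ^ (k - 1)) ^ σ with hc
    have hc0 : 0 < c := by positivity
    -- everything is eventually true in terms of `Z`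
    have ht1 : Filter.Tendsto (fun Z : ℝ => Z ^ (1 - ε) / 2) Filter.atTop Filter.atTop :=
      (tendsto_rpow_atTop (by linarith : 0 < 1 - ε)).atTop_div_const (by norm_num)
    have ht2 : Filter.Tendsto (fun Z : ℝ => (Z ^ (1 - ε) / 2) ^ (k - 1)) Filter.atTop
        Filter.atTop := (Filter.tendsto_pow_atTop (by omega : k - 1 ≠ 0)).comp ht1
    have ht3 : Filter.Tendsto (fun Z : ℝ => Z ^ ((1 - ε) * (1 + (k - 1) * σ) - k * σ'))
        Filter.atTop Filter.atTop := tendsto_rpow_atTop (by linarith)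
    have hev2 := ((ht2.eventually_ge_atTop X₁).and (Filter.eventually_ge_atTop X₂)).and
      ((ht3.eventually_ge_atTop ((2 : ℝ) ^ σ' / c)).and
        ((Filter.eventually_ge_atTop (1 : ℝ)).and (ht1.eventually_ge_atTop 2)))
    obtain ⟨Z₀, hZ₀⟩ := Filter.eventually_atTop.1 hev2
    refine ⟨2 * (max Z₀ 1) ^ k, fun X hX => ?_⟩
    have hX0 : 0 < X := lt_of_lt_of_le (by positivity) hX
    obtain ⟨Z, hZdef⟩ : ∃ Z : ℝ, Z = (X / 2) ^ ((k : ℝ)⁻¹) := ⟨_, rfl⟩
    have hZk : Z ^ k = X / 2 := by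
      rw [hZdef]
      exact Real.rpow_inv_natCast_pow (by positivity) (by omega)
    have hZpos : 0 < Z := by
      rw [hZdef]
      exact Real.rpow_pos_of_pos (by positivity) _
    have hZZ₀ : Z₀ ≤ Z := by
      refine (le_max_left Z₀ 1).trans ?_
      refine le_of_pow_le_pow_left₀ (by omega : k ≠ 0) hZpos.le ?_
      rw [hZk, le_div_iff₀ (by norm_num)]
      linarith
    obtain ⟨⟨a1, a2⟩, a3, a4, a5⟩ := hZ₀ Z hZZ₀
    set W : ℝ := Z ^ (1 - ε) / 2 with hW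
    have hW0 : 0 < W := by linarith
    have hWZ : W ≤ Z := by
      have h1 : Z ^ (1 - ε) ≤ Z ^ (1 : ℝ) := Real.rpow_le_rpow_of_exponent_le a4 (by linarith)
      rw [Real.rpow_one] at h1
      rw [hW]
      linarith
    have h1 := step_PX (D := D) (s := s) hk (W := W) (Z := Z) (X := X) hW0.le (by
      have h2 : W ^ (k - 1) ≤ Z ^ k := by
        calc W ^ (k - 1) ≤ Z ^ (k - 1) := pow_le_pow_left₀ hW0.le hWZ _
          _ ≤ Z ^ k := pow_le_pow_right₀ a4 (by omega)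
      rw [hZk] at h2 ⊢
      linarith)
    have h2 := hX₁ _ a1
    have h3 := hX₂ Z a2
    -- the number of elements in `(W, Z]`
    have h4 : Z ^ (1 - ε) / 4 ≤ ((upto D Z \ upto D W).ncard : ℝ) := by
      have h5 : ((upto D Z).ncard : ℝ) ≤ ((upto D Z \ upto D W).ncard : ℝ) +
          ((upto D W).ncard : ℝ) := by
        exact_mod_cast Set.ncard_le_ncard_sdiff_add_ncard (upto D Z) (upto D W) (finite_upto _ _)
      have h6 := ncard_upto_le D hW0.le
      have h7 : Z ^ (1 - ε) = 2 * W := by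
        rw [hW]
        ring
      rw [h7] at h3 ⊢
      linarith
    have h5 : ((upto D Z \ upto D W).ncard : ℝ) * ((upto (PX D k s) (W ^ (k - 1))).ncard : ℝ) ≤
        ((upto (PX D k (s + 1)) X).ncard : ℝ) := by exact_mod_cast h1
    refine le_trans ?_ h5
    have h6 : Z ^ (1 - ε) / 4 * (W ^ (k - 1)) ^ σ ≤
        ((upto D Z \ upto D W).ncard : ℝ) * ((upto (PX D k s) (W ^ (k - 1))).ncard : ℝ) :=
      mul_le_mul h4 h2 (by positivity) (by positivity)
    refine le_trans ?_ h6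
    have h7 : Z ^ (1 - ε) / 4 * (W ^ (k - 1)) ^ σ = c * Z ^ ((1 - ε) * (1 + (k - 1) * σ)) := by
      rw [hW, hc, div_eq_mul_one_div (Z ^ (1 - ε)) 2, mul_pow,
        Real.mul_rpow (by positivity) (by positivity), ← Real.rpow_natCast (Z ^ (1 - ε)) (k - 1),
        ← Real.rpow_mul hZpos.le, ← Real.rpow_mul hZpos.le, Nat.cast_sub (by omega)]
      have h8 : (1 - ε) * (1 + ((k : ℝ) - 1) * σ) =
          (1 - ε) + (1 - ε) * ((k : ℝ) - 1) * σ := by ring
      rw [h8, Real.rpow_add hZpos]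
      push_cast
      ring
    rw [h7]
    have h8 : X = 2 * Z ^ k := by
      rw [hZk]
      ring
    have h9 : X ^ σ' = (2 : ℝ) ^ σ' * Z ^ (k * σ') := by
      rw [h8, Real.mul_rpow (by norm_num) (by positivity), ← Real.rpow_natCast Z k,
        ← Real.rpow_mul hZpos.le]
    rw [h9]
    have h10 : Z ^ ((1 - ε) * (1 + (k - 1) * σ)) =
        Z ^ ((1 - ε) * (1 + (k - 1) * σ) - k * σ') * Z ^ (k * σ') := by
      rw [← Real.rpow_add hZpos]
      congr 1
      ring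
    rw [h10, ← mul_assoc]
    refine mul_le_mul_of_nonneg_right ?_ (by positivity)
    rw [div_le_iff₀ hc0] at a3
    linarith

/-- rich sets: the density in dyadic form -/
lemma PX_dense {D : Set ℕ} (hD : Rich D) {k : ℕ} (hk : 2 ≤ k) (s : ℕ) {σ : ℝ}
    (hσ : (1 - 1 / (k : ℝ)) ^ s < σ) :
    ∃ i₀ : ℕ, ∀ i ≥ i₀, 1 * (2 : ℝ) ^ ((1 - σ) * i) ≤ (cutB (PX D k s) (2 ^ i)).card := by
  classical
  obtain ⟨X₀, hX₀⟩ := count_PX hD hk s (1 - σ) (by linarith)
  obtain ⟨i₀, hi₀⟩ := ((tendsto_pow_atTop_atTop_of_one_lt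
    (by norm_num : (1 : ℝ) < 2)).eventually_ge_atTop X₀).exists_forall_of_atTop
  refine ⟨i₀, fun i hi => ?_⟩
  have h1 := hX₀ _ (hi₀ i hi)
  rw [one_mul]
  have h2 : ((2 : ℝ) ^ i) ^ (1 - σ) = (2 : ℝ) ^ ((1 - σ) * i) := by
    rw [← Real.rpow_natCast_mul (by norm_num), mul_comm]
  rw [h2] at h1
  refine h1.trans (le_of_eq ?_)
  have h3 : (upto (PX D k s) ((2 : ℝ) ^ i)) = ((cutB (PX D k s) (2 ^ i) : Finset ℕ) : Set ℕ) := by
    ext a
    rw [Finset.mem_coe, mem_cutB]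
    constructor
    · rintro ⟨h4, h5⟩
      exact ⟨by exact_mod_cast h5, h4⟩
    · rintro ⟨h4, h5⟩
      exact ⟨h5, by exact_mod_cast h4⟩
  rw [h3, Set.ncard_coe_finset]

/-- from dyadic points to all points -/
lemma rich_of_dyadic {D : Set ℕ}
    (h : ∀ τ : ℝ, 0 < τ → ∃ i₀ : ℕ, ∀ i ≥ i₀, 1 * (2 : ℝ) ^ ((1 - τ) * i) ≤
      (cutB D (2 ^ i)).card) : Rich D := by
  classical
  intro ε hε
  wlog hε1 : ε ≤ 1 / 2 generalizing ε
  · obtain ⟨X₀, hX₀⟩ := this (1 / 2) (by norm_num) le_rfl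
    refine ⟨max 1 X₀, fun X hX => ?_⟩
    have hX1 : 1 ≤ X := (le_max_left _ _).trans hX
    refine le_trans ?_ (hX₀ X ((le_max_right _ _).trans hX))
    exact Real.rpow_le_rpow_of_exponent_le hX1 (by linarith)
  obtain ⟨i₀, hi₀⟩ := h (ε / 2) (by positivity)
  have ht : Filter.Tendsto (fun X : ℝ => X ^ (ε / 2)) Filter.atTop Filter.atTop :=
    tendsto_rpow_atTop (by positivity)
  obtain ⟨X₁, hX₁⟩ := Filter.eventually_atTop.1 (ht.eventually_ge_atTop 2)
  refine ⟨max (max 1 X₁) (2 ^ (i₀ + 1)), fun X hX => ?_⟩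
  have hX1 : 1 ≤ X := ((le_max_left _ _).trans (le_max_left _ _)).trans hX
  have hX2 : X₁ ≤ X := ((le_max_right _ _).trans (le_max_left _ _)).trans hX
  have hX3 : (2 : ℝ) ^ (i₀ + 1) ≤ X := (le_max_right _ _).trans hX
  have hX0 : 0 < X := by linarith
  set M := ⌊X⌋₊ with hM
  have hM1 : 1 ≤ M := Nat.one_le_floor_iff _ |>.2 hX1
  obtain ⟨h3, h4⟩ := exists_win hM1
  set i := Nat.log 2 M with hi
  have h5 : X < 2 * (2 : ℝ) ^ i := by
    have h6 : X < ((M + 1 : ℕ) : ℝ) := by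
      push_cast
      exact Nat.lt_floor_add_one X
    have h7 : ((M + 1 : ℕ) : ℝ) ≤ ((2 ^ (i + 1) : ℕ) : ℝ) := by exact_mod_cast h4
    rw [pow_succ] at h7
    push_cast at h6 h7
    linarith
  have hi0 : i₀ ≤ i := by
    by_contra hlt
    have h6 : (2 : ℝ) * 2 ^ i ≤ 2 ^ (i₀ + 1) := by
      rw [← pow_succ']
      exact pow_le_pow_right₀ (by norm_num) (by omega)
    linarith
  have h6 := hi₀ i hi0
  have h7 : (cutB D (2 ^ i)).card ≤ (upto D X).ncard := by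
    rw [← Set.ncard_coe_finset]
    refine Set.ncard_le_ncard ?_ (finite_upto _ _)
    intro a ha
    rw [Finset.mem_coe, mem_cutB] at ha
    refine ⟨ha.2, ?_⟩
    have h8 : (a : ℝ) ≤ (M : ℝ) := by exact_mod_cast ha.1.trans h3
    exact h8.trans (Nat.floor_le hX0.le)
  have h8 : ((cutB D (2 ^ i)).card : ℝ) ≤ ((upto D X).ncard : ℝ) := by exact_mod_cast h7
  refine le_trans ?_ (h6.trans h8)
  rw [one_mul]
  have h9 : (X / 2) ^ (1 - ε / 2) ≤ (2 : ℝ) ^ ((1 - ε / 2) * i) := by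
    have h10 : (X / 2) ^ (1 - ε / 2) ≤ ((2 : ℝ) ^ i) ^ (1 - ε / 2) :=
      Real.rpow_le_rpow (by positivity) (by linarith) (by linarith)
    refine h10.trans (le_of_eq ?_)
    rw [← Real.rpow_natCast 2 i, ← Real.rpow_mul (by norm_num)]
    congr 1
    ring
  refine le_trans ?_ h9
  rw [Real.div_rpow hX0.le (by norm_num), le_div_iff₀ (by positivity)]
  have h11 : X ^ (1 - ε / 2) = X ^ (1 - ε) * X ^ (ε / 2) := by
    rw [← Real.rpow_add hX0]
    congr 1
    ring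
  rw [h11]
  refine mul_le_mul_of_nonneg_left ?_ (by positivity)
  have h12 : (2 : ℝ) ^ (1 - ε / 2) ≤ 2 ^ (1 : ℝ) :=
    Real.rpow_le_rpow_of_exponent_le (by norm_num) (by linarith)
  rw [Real.rpow_one] at h12
  exact h12.trans (hX₁ X hX2)

lemma rich_primes : Rich {p : ℕ | p.Prime} := rich_of_dyadic fun _ hτ => prime_dense hτ

lemma rich_univ : Rich (univ : Set ℕ) := by
  intro ε hε
  refine ⟨1, fun X hX => ?_⟩
  have hX0 : 0 < X := by linarith
  have h1 : (Finset.range (⌊X⌋₊ + 1)).card ≤ (upto univ X).ncard := by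
    rw [← Set.ncard_coe_finset]
    refine Set.ncard_le_ncard ?_ (finite_upto _ _)
    intro a ha
    rw [Finset.mem_coe, Finset.mem_range, Nat.lt_succ_iff] at ha
    refine ⟨Set.mem_univ _, ?_⟩
    have h8 : (a : ℝ) ≤ ((⌊X⌋₊ : ℕ) : ℝ) := by exact_mod_cast ha
    exact h8.trans (Nat.floor_le hX0.le)
  rw [Finset.card_range] at h1
  have h2 : ((⌊X⌋₊ + 1 : ℕ) : ℝ) ≤ ((upto univ X).ncard : ℝ) := by exact_mod_cast h1
  refine le_trans ?_ h2
  push_cast
  have h3 : X ^ (1 - ε) ≤ X ^ (1 : ℝ) := Real.rpow_le_rpow_of_exponent_le hX (by linarith)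
  rw [Real.rpow_one] at h3
  linarith [Nat.lt_floor_add_one X]

end Pool.Agent.Q154.War
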