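import Pool.Agent.Q154.War.MixStep

/-!
# Diminishing ranges
-/

set_option autoImplicit false
set_option linter.unusedSectionVars false

open Set Finset
open scoped Real

namespace Pool.Agent.Q154.War

/-- sums of `s` positive `k`-th powers -/
def PS (k s : ℕ) : Set ℕ := {n | ∃ y : Fin s → ℕ, (∀ i, 0 < y i) ∧ n = ∑ i, y i ^ k}

/-- the elements up to `X` -/
def upto (𝒜 : Set ℕ) (X : ℝ) : Set ℕ := {a | a ∈ 𝒜 ∧ (a : ℝ) ≤ X}

lemma finite_upto (𝒜 : Set ℕ) (X : ℝ) : (upto 𝒜 X).Finite := by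
  obtain ⟨M, hM⟩ := exists_nat_gt X
  refine (Set.finite_Iio M).subset fun a ha => ?_
  have h1 : (a : ℝ) < M := ha.2.trans_lt hM
  have h2 : a < M := by exact_mod_cast h1
  exact h2

lemma cutA_card (𝒜 : Set ℕ) (k P : ℕ) : (cutA 𝒜 k P).card = (upto 𝒜 ((P : ℝ) ^ k)).ncard := by
  classical
  rw [← Set.ncard_coe_finset]
  congr 1
  ext a
  unfold cutA upto
  rw [Finset.mem_coe, Finset.mem_filter, Finset.mem_range, Nat.lt_succ_iff]
  constructor
  · rintro ⟨h1, h2⟩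
    exact ⟨h2, by exact_mod_cast h1⟩
  · rintro ⟨h1, h2⟩
    exact ⟨by exact_mod_cast h2, h1⟩

lemma pow_gap {k : ℕ} (hk : 2 ≤ k) {x x' : ℕ} (h : x < x') : x ^ k + x ^ (k - 1) ≤ x' ^ k := by
  have h1 : x ^ (k - 1) ≤ x' ^ (k - 1) := Nat.pow_le_pow_left h.le _
  have e : k = (k - 1) + 1 := by omega
  calc x ^ k + x ^ (k - 1) = x ^ (k - 1) * x + x ^ (k - 1) := by
        conv_lhs => rw [e]
        rw [pow_succ, Nat.add_sub_cancel]
    _ = x ^ (k - 1) * (x + 1) := by ring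
    _ ≤ x' ^ (k - 1) * x' := Nat.mul_le_mul h1 h
    _ = x' ^ k := by
        conv_rhs => rw [e]
        rw [pow_succ]

/-- one step of the diminishing ranges -/
lemma step_PS {k s Z : ℕ} (hk : 2 ≤ k) (hZ : 1 ≤ Z) {X : ℝ} (hX : 2 * (2 * (Z : ℝ)) ^ k ≤ X) :
    Z * (upto (PS k s) ((Z : ℝ) ^ (k - 1))).ncard ≤ (upto (PS k (s + 1)) X).ncard := by
  set T := upto (PS k s) ((Z : ℝ) ^ (k - 1)) with hT
  have hTf : T.Finite := finite_upto _ _
  have h1 : Z * T.ncard = ((Set.Ioc Z (2 * Z)) ×ˢ T).ncard := by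
    rw [Set.ncard_prod]
    congr 1
    rw [← Finset.coe_Ioc, Set.ncard_coe_finset, Nat.card_Ioc]
    omega
  rw [h1]
  refine Set.ncard_le_ncard_of_injOn (fun p : ℕ × ℕ => p.1 ^ k + p.2) ?_ ?_ (finite_upto _ _)
  · rintro ⟨x, a⟩ ⟨hx, ha⟩
    obtain ⟨⟨y, hy, hya⟩, haZ⟩ := ha
    have hx1 : Z < x := hx.1
    have hx2 : x ≤ 2 * Z := hx.2
    refine ⟨⟨Fin.cons x y, ?_, ?_⟩, ?_⟩
    · intro i
      refine Fin.cases ?_ (fun l => ?_) i
      · show 0 < x
        omega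
      · exact hy l
    · rw [Fin.sum_univ_succ]
      simp only [Fin.cons_zero, Fin.cons_succ]
      simp only at hya
      rw [hya]
    · simp only at haZ ⊢
      push_cast
      have h2 : (x : ℝ) ≤ 2 * Z := by exact_mod_cast hx2
      have h3 : (x : ℝ) ^ k ≤ (2 * (Z : ℝ)) ^ k := pow_le_pow_left₀ (Nat.cast_nonneg x) h2 k
      have hZ1 : (1 : ℝ) ≤ Z := by exact_mod_cast hZ
      have h4 : (Z : ℝ) ^ (k - 1) ≤ (2 * (Z : ℝ)) ^ k := by
        calc (Z : ℝ) ^ (k - 1) ≤ (2 * (Z : ℝ)) ^ (k - 1) :=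
              pow_le_pow_left₀ (by positivity) (by linarith) _
          _ ≤ (2 * (Z : ℝ)) ^ k := pow_le_pow_right₀ (by linarith) (by omega)
      linarith
  · rintro ⟨x, a⟩ ⟨hx, ha⟩ ⟨x', a'⟩ ⟨hx', ha'⟩ heq
    simp only at heq hx hx' ha ha'
    have ha1 : a ≤ Z ^ (k - 1) := by
      have := ha.2
      exact_mod_cast this
    have ha2 : a' ≤ Z ^ (k - 1) := by
      have := ha'.2
      exact_mod_cast this
    have hgt : ∀ z : ℕ, Z < z → Z ^ (k - 1) < z ^ (k - 1) := fun z hz =>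
      Nat.pow_lt_pow_left hz (by omega)
    rcases lt_trichotomy x x' with h | h | h
    · have h2 := pow_gap hk h
      have h3 := hgt x hx.1
      omega
    · subst h
      have : a = a' := by omega
      rw [this]
    · have h2 := pow_gap hk h
      have h3 := hgt x' hx'.1
      omega

/-- **The number of sums of `s` positive `k`-th powers.** -/
theorem count_PS {k : ℕ} (hk : 2 ≤ k) (s : ℕ) :
    ∃ c : ℝ, 0 < c ∧ ∃ X₀ : ℝ, ∀ X ≥ X₀,
      c * X ^ (1 - (1 - 1 / (k : ℝ)) ^ s) ≤ ((upto (PS k s) X).ncard : ℝ) := by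
  have hk0 : (0 : ℝ) < k := by
    have : 0 < k := by omega
    exact_mod_cast this
  have hk2 : (2 : ℝ) ≤ k := by exact_mod_cast hk
  have hr0 : 0 ≤ 1 - 1 / (k : ℝ) := by
    rw [sub_nonneg, div_le_one hk0]
    linarith
  have hr1 : 1 - 1 / (k : ℝ) ≤ 1 := by
    have : 0 < 1 / (k : ℝ) := by positivity
    linarith
  induction s with
  | zero =>
    refine ⟨1, one_pos, 0, fun X hX => ?_⟩
    rw [pow_zero, sub_self, Real.rpow_zero, mul_one]
    have h1 : (0 : ℕ) ∈ upto (PS k 0) X := by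
      refine ⟨⟨fun i => i.elim0, fun i => i.elim0, by simp⟩, ?_⟩
      rw [Nat.cast_zero]
      exact hX
    have h2 : 0 < (upto (PS k 0) X).ncard := (Set.ncard_pos (finite_upto _ _)).2 ⟨0, h1⟩
    exact_mod_cast h2
  | succ s ih =>
    obtain ⟨c, hc, X₀, h⟩ := ih
    set e := 1 - (1 - 1 / (k : ℝ)) ^ s with he
    set e' := 1 - (1 - 1 / (k : ℝ)) ^ (s + 1) with he'
    have he0 : 0 ≤ e := by
      rw [he, sub_nonneg]
      exact pow_le_one₀ hr0 hr1
    have he'0 : 0 ≤ e' := by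
      rw [he', sub_nonneg]
      exact pow_le_one₀ hr0 hr1
    have hee : (k : ℝ) * e' = 1 + (k - 1) * e := by
      rw [he, he', pow_succ]
      field_simp
      ring
    set D : ℝ := 2 * 2 ^ k * 2 ^ k with hD
    have hD0 : 0 < D := by positivity
    refine ⟨c / D ^ e', by positivity, max (D * (max X₀ 1) ^ k) D, fun X hX => ?_⟩
    have hX1 : D * (max X₀ 1) ^ k ≤ X := (le_max_left _ _).trans hX
    have hXD : D ≤ X := (le_max_right _ _).trans hX
    have hX0 : 0 < X := hD0.trans_le hXD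
    -- the integer `Z`
    set z : ℝ := (X / (2 * 2 ^ k)) ^ ((k : ℝ)⁻¹) with hz
    have hq0 : 0 < X / (2 * 2 ^ k) := by positivity
    have hz0 : 0 < z := Real.rpow_pos_of_pos hq0 _
    have hzk : z ^ k = X / (2 * 2 ^ k) := Real.rpow_inv_natCast_pow hq0.le (by omega)
    have hz2 : 2 * max X₀ 1 ≤ z := by
      refine le_of_pow_le_pow_left₀ (by omega : k ≠ 0) hz0.le ?_
      rw [hzk, le_div_iff₀ (by positivity), mul_pow]
      calc 2 ^ k * (max X₀ 1) ^ k * (2 * 2 ^ k) = D * (max X₀ 1) ^ k := by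
            rw [hD]
            ring
        _ ≤ X := hX1
    have hm1 : (1 : ℝ) ≤ max X₀ 1 := le_max_right _ _
    set Z := ⌊z⌋₊ with hZ
    have hZz : (Z : ℝ) ≤ z := Nat.floor_le hz0.le
    have hzZ : z < Z + 1 := Nat.lt_floor_add_one z
    have hZ1 : (1 : ℝ) ≤ Z := by
      have h1 : 1 ≤ Z := Nat.le_floor (by
        rw [Nat.cast_one]
        linarith)
      exact_mod_cast h1
    have hZhalf : z / 2 ≤ Z := by linarith
    have hZX : max X₀ 1 ≤ (Z : ℝ) := by linarith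
    have hZk : X₀ ≤ (Z : ℝ) ^ (k - 1) := by
      calc X₀ ≤ max X₀ 1 := le_max_left _ _
        _ ≤ Z := hZX
        _ ≤ (Z : ℝ) ^ (k - 1) := le_self_pow₀ hZ1 (by omega)
    have h1 := step_PS (k := k) (s := s) (Z := Z) hk (by exact_mod_cast hZ1) (X := X) (by
      rw [mul_pow]
      have h2 : (Z : ℝ) ^ k ≤ z ^ k := pow_le_pow_left₀ (Nat.cast_nonneg _) hZz k
      rw [hzk, le_div_iff₀ (by positivity)] at h2
      linarith)
    have h2 := h ((Z : ℝ) ^ (k - 1)) hZk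
    have h3 : (Z : ℝ) * ((upto (PS k s) ((Z : ℝ) ^ (k - 1))).ncard : ℝ) ≤
        ((upto (PS k (s + 1)) X).ncard : ℝ) := by exact_mod_cast h1
    refine le_trans ?_ h3
    have hZ0 : (0 : ℝ) < Z := by linarith
    have h4 : (Z : ℝ) * (c * ((Z : ℝ) ^ (k - 1)) ^ e) ≤
        (Z : ℝ) * ((upto (PS k s) ((Z : ℝ) ^ (k - 1))).ncard : ℝ) :=
      mul_le_mul_of_nonneg_left h2 hZ0.le
    refine le_trans ?_ h4
    have h5 : (Z : ℝ) * (c * ((Z : ℝ) ^ (k - 1)) ^ e) = c * ((Z : ℝ) ^ k) ^ e' := by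
      rw [← Real.rpow_natCast (Z : ℝ) (k - 1), ← Real.rpow_mul hZ0.le,
        ← Real.rpow_natCast (Z : ℝ) k, ← Real.rpow_mul hZ0.le, hee, Real.rpow_add hZ0,
        Real.rpow_one, Nat.cast_sub (by omega)]
      push_cast
      ring
    rw [h5, div_mul_eq_mul_div, mul_div_assoc]
    refine mul_le_mul_of_nonneg_left ?_ hc.le
    rw [← Real.div_rpow hX0.le hD0.le]
    refine Real.rpow_le_rpow (by positivity) ?_ he'0
    calc X / D = (z / 2) ^ k := by
          rw [div_pow, hzk, hD]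
          field_simp
      _ ≤ (Z : ℝ) ^ k := pow_le_pow_left₀ (by positivity) hZhalf k

end Pool.Agent.Q154.War
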