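import Pool.Agent.Q154.War.Count

/-!
# From few exceptions to fewer: one generic summand

Sets of non-negative integers, exceptional sets in dyadic windows, and the effect of adding one
integer valued family `t ↦ G t x` with a generic parameter `t`.
-/

set_option autoImplicit false
set_option linter.unusedSectionVars false

open MeasureTheory Set Finset
open scoped Real ENNReal

namespace Pool.Agent.Q154.War

open Classical in
/-- the exceptional set in a dyadic window -/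
noncomputable def exc (A : Set ℕ) (i : ℕ) : Finset ℕ :=
  (Finset.Ico (2 ^ i) (2 ^ (i + 1))).filter fun N => N ∉ A

lemma mem_exc {A : Set ℕ} {i N : ℕ} : N ∈ exc A i ↔ (2 ^ i ≤ N ∧ N < 2 ^ (i + 1)) ∧ N ∉ A := by
  classical
  unfold exc
  rw [Finset.mem_filter, Finset.mem_Ico]

lemma card_exc_le (A : Set ℕ) (i : ℕ) : (exc A i).card ≤ 2 ^ i := by
  classical
  unfold exc
  refine (Finset.card_filter_le _ _).trans ?_
  rw [Nat.card_Ico, pow_succ]
  omega

/-- few exceptions -/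
def Few (A : Set ℕ) (q : ℝ) : Prop :=
  ∃ C : ℕ, ∀ i, ((exc A i).card : ℝ≥0∞) ≤ C * ENNReal.ofReal (q ^ i)

open Classical in
lemma card_exc_eq (A : Set ℕ) (i : ℕ) : ((exc A i).card : ℝ≥0∞) =
    ∑ N ∈ Finset.Ico (2 ^ i) (2 ^ (i + 1)), if N ∈ A then 0 else 1 := by
  unfold exc
  rw [Finset.card_filter]
  push_cast
  refine Finset.sum_congr rfl fun N _ => ?_
  by_cases h : N ∈ A
  · simp [h]
  · simp [h]

lemma measurable_card_exc {Ω : Type*} [MeasurableSpace Ω] {A : Ω → Set ℕ}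
    (hA : ∀ N, MeasurableSet {ω | N ∈ A ω}) (i : ℕ) :
    Measurable fun ω => ((exc (A ω) i).card : ℝ≥0∞) := by
  classical
  simp only [card_exc_eq]
  refine Finset.measurable_sum _ fun N _ => ?_
  exact Measurable.ite (hA N) measurable_const measurable_const

lemma measurableSet_Few {Ω : Type*} [MeasurableSpace Ω] {A : Ω → Set ℕ}
    (hA : ∀ N, MeasurableSet {ω | N ∈ A ω}) (q : ℝ) :
    MeasurableSet {ω | Few (A ω) q} := by
  unfold Few
  rw [Set.ofPred_exists]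
  refine MeasurableSet.iUnion fun C => ?_
  rw [Set.ofPred_forall]
  refine MeasurableSet.iInter fun i => ?_
  exact measurableSet_le (measurable_card_exc hA i) measurable_const

/-- a family of integer valued functions with a real parameter -/
structure Fml where
  dom : Set ℕ
  fn : ℝ → ℕ → ℕ
  meas : ∀ x, Measurable fun t => fn t x

/-- adding the values of a family -/
def addF (A : Set ℕ) (G : Fml) (t : ℝ) : Set ℕ := {N | ∃ a ∈ A, ∃ x ∈ G.dom, N = a + G.fn t x}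

lemma measurable_mem_addF {Ω : Type*} [MeasurableSpace Ω] {A : Ω → Set ℕ}
    (hA : ∀ N, MeasurableSet {ω | N ∈ A ω}) (G : Fml) {τ : Ω → ℝ} (hτ : Measurable τ) (N : ℕ) :
    MeasurableSet {ω | N ∈ addF (A ω) G (τ ω)} := by
  have e : {ω | N ∈ addF (A ω) G (τ ω)} =
      ⋃ (a : ℕ) (x : ℕ), {ω | (a ∈ A ω ∧ x ∈ G.dom) ∧ N = a + G.fn (τ ω) x} := by
    ext ω
    simp only [Set.mem_iUnion]
    constructor
    · rintro ⟨a, ha, x, hx, h⟩
      exact ⟨a, x, ⟨ha, hx⟩, h⟩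
    · rintro ⟨a, x, ⟨ha, hx⟩, h⟩
      exact ⟨a, ha, x, hx, h⟩
  rw [e]
  refine MeasurableSet.iUnion fun a => MeasurableSet.iUnion fun x => ?_
  refine ((hA a).inter (MeasurableSet.const _)).inter ?_
  have h1 : Measurable fun ω => a + G.fn (τ ω) x := ((G.meas x).comp hτ).const_add a
  exact measurableSet_eq_fun measurable_const h1

/-- a transversal family: the differences of two values are spread out -/
def Trans (r : ℝ) (μ : Measure ℝ) (G : Fml) : Prop :=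
  ∃ K : ℝ, 0 ≤ K ∧ ∃ i₀ : ℕ, ∀ i ≥ i₀, ∃ F₁ F₂ : Finset ℕ, F₁.Nonempty ∧ F₂.Nonempty ∧
    (∀ x ∈ F₁ ∪ F₂, x ∈ G.dom ∧ ∀ᵐ t ∂μ, G.fn t x ≤ 2 ^ i) ∧
    ∀ v : ℤ, ∑ x ∈ F₁, ∑ x' ∈ F₂, μ {t | (G.fn t x' : ℤ) - G.fn t x = v} ≤
      ENNReal.ofReal (K * (r / 2) ^ i) * (F₁.card * F₂.card)

/-- the pairs -/
lemma card_le_pairs {A : Set ℕ} {G : Fml} {t : ℝ} {i x x' : ℕ} (hx : x ∈ G.dom) (hx' : x' ∈ G.dom)
    (h : G.fn t x ≤ 2 ^ i) (h' : G.fn t x' ≤ 2 ^ i) :
    (exc (addF A G t) (i + 1)).card ≤ (((exc A (i + 1) ∪ exc A i) ×ˢ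
      (exc A (i + 1) ∪ exc A i)).filter fun p : ℕ × ℕ =>
        ((G.fn t x' : ℤ) - G.fn t x = (p.1 : ℤ) - p.2)).card := by
  have hmem : ∀ N ∈ exc (addF A G t) (i + 1), ∀ y ∈ G.dom, G.fn t y ≤ 2 ^ i →
      N - G.fn t y ∈ exc A (i + 1) ∪ exc A i := by
    intro N hN y hy hfy
    rw [mem_exc] at hN
    obtain ⟨⟨h1, h2⟩, h3⟩ := hN
    have h4 : N - G.fn t y ∉ A := by
      intro hcon
      refine h3 ⟨_, hcon, y, hy, ?_⟩
      have : 2 ^ i ≤ 2 ^ (i + 1) := Nat.pow_le_pow_right (by norm_num) (by omega)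
      omega
    rw [Finset.mem_union, mem_exc, mem_exc]
    have h5 : 2 ^ (i + 1) = 2 * 2 ^ i := by ring
    rcases lt_or_ge (N - G.fn t y) (2 ^ (i + 1)) with h6 | h6
    · right
      refine ⟨⟨?_, h6⟩, h4⟩
      omega
    · left
      exact ⟨⟨h6, by omega⟩, h4⟩
  refine Finset.card_le_card_of_injOn (fun N => (N - G.fn t x, N - G.fn t x')) ?_ ?_
  · intro N hN
    have hN' : N ∈ exc (addF A G t) (i + 1) := hN
    have h1 := hmem N hN' x hx h
    have h2 := hmem N hN' x' hx' h'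
    rw [Finset.mem_coe, Finset.mem_filter, Finset.mem_product]
    refine ⟨⟨h1, h2⟩, ?_⟩
    rw [mem_exc] at hN'
    have h5 : 2 ^ (i + 1) = 2 * 2 ^ i := by ring
    have h6 := hN'.1.1
    simp only
    rw [Nat.cast_sub (by omega), Nat.cast_sub (by omega)]
    ring
  · intro N hN M hM hNM
    have hN' : N ∈ exc (addF A G t) (i + 1) := hN
    have hM' : M ∈ exc (addF A G t) (i + 1) := hM
    rw [mem_exc] at hN' hM'
    simp only [Prod.mk.injEq] at hNM
    have h5 : 2 ^ (i + 1) = 2 * 2 ^ i := by ring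
    have h6 := hN'.1.1
    have h7 := hM'.1.1
    omega

/-- the mean number of exceptions -/
lemma mean_exc {A : Set ℕ} {G : Fml} {μ : Measure ℝ} {i : ℕ} {κ : ℝ≥0∞}
    {F₁ F₂ : Finset ℕ} (h₁ : F₁.Nonempty) (h₂ : F₂.Nonempty)
    (hd : ∀ x ∈ F₁ ∪ F₂, x ∈ G.dom ∧ ∀ᵐ t ∂μ, G.fn t x ≤ 2 ^ i)
    (hv : ∀ v : ℤ, ∑ x ∈ F₁, ∑ x' ∈ F₂, μ {t | (G.fn t x' : ℤ) - G.fn t x = v} ≤
      κ * (F₁.card * F₂.card)) :
    ∫⁻ t, ((exc (addF A G t) (i + 1)).card : ℝ≥0∞) ∂μ ≤
      κ * (((exc A (i + 1) ∪ exc A i).card : ℝ≥0∞) ^ 2) := by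
  classical
  set E := exc A (i + 1) ∪ exc A i with hE
  have hall : ∀ᵐ t ∂μ, ∀ x ∈ F₁ ∪ F₂, G.fn t x ≤ 2 ^ i := by
    rw [Filter.eventually_all_finset]
    exact fun x hx => (hd x hx).2
  have hpt : ∀ᵐ t ∂μ, ((F₁.card : ℝ≥0∞) * F₂.card) * ((exc (addF A G t) (i + 1)).card : ℝ≥0∞) ≤
      ∑ x ∈ F₁, ∑ x' ∈ F₂, ∑ p ∈ E ×ˢ E,
        {t | (G.fn t x' : ℤ) - G.fn t x = (p.1 : ℤ) - p.2}.indicator (fun _ => (1 : ℝ≥0∞)) t := by
    filter_upwards [hall] with t ht
    have h1 : ((F₁.card : ℝ≥0∞) * F₂.card) * ((exc (addF A G t) (i + 1)).card : ℝ≥0∞) =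
        ∑ _x ∈ F₁, ∑ _x' ∈ F₂, ((exc (addF A G t) (i + 1)).card : ℝ≥0∞) := by
      rw [Finset.sum_const, Finset.sum_const, nsmul_eq_mul, nsmul_eq_mul, mul_assoc]
    rw [h1]
    refine Finset.sum_le_sum fun x hx => Finset.sum_le_sum fun x' hx' => ?_
    have hx1 : x ∈ F₁ ∪ F₂ := Finset.mem_union_left _ hx
    have hx2 : x' ∈ F₁ ∪ F₂ := Finset.mem_union_right _ hx'
    have h2 := card_le_pairs (A := A) (hd x hx1).1 (hd x' hx2).1 (ht x hx1) (ht x' hx2)
    have h3 : ((exc (addF A G t) (i + 1)).card : ℝ≥0∞) ≤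
        (((E ×ˢ E).filter fun p : ℕ × ℕ =>
          ((G.fn t x' : ℤ) - G.fn t x = (p.1 : ℤ) - p.2)).card : ℝ≥0∞) := by
      exact_mod_cast h2
    refine h3.trans (le_of_eq ?_)
    rw [Finset.card_filter]
    push_cast
    refine Finset.sum_congr rfl fun p _ => ?_
    by_cases hp : (G.fn t x' : ℤ) - G.fn t x = (p.1 : ℤ) - p.2
    · rw [if_pos hp, Set.indicator_of_mem]
      exact hp
    · rw [if_neg hp, Set.indicator_of_notMem]
      exact hp
  have hms : ∀ (x x' : ℕ) (v : ℤ), MeasurableSet {t | (G.fn t x' : ℤ) - G.fn t x = v} := by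
    intro x x' v
    have h1 : Measurable fun t => (G.fn t x' : ℤ) := (measurable_of_countable _).comp (G.meas x')
    have h2 : Measurable fun t => (G.fn t x : ℤ) := (measurable_of_countable _).comp (G.meas x)
    exact measurableSet_eq_fun (h1.sub h2) measurable_const
  have h3 := lintegral_mono_ae hpt
  have hfin : ((F₁.card : ℝ≥0∞) * F₂.card) ≠ ∞ :=
    ENNReal.mul_ne_top (ENNReal.natCast_ne_top _) (ENNReal.natCast_ne_top _)
  have hne : ((F₁.card : ℝ≥0∞) * F₂.card) ≠ 0 := by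
    refine mul_ne_zero ?_ ?_
    · exact_mod_cast h₁.card_pos.ne'
    · exact_mod_cast h₂.card_pos.ne'
  rw [lintegral_const_mul' _ _ hfin] at h3
  have h4 : ∫⁻ t, ∑ x ∈ F₁, ∑ x' ∈ F₂, ∑ p ∈ E ×ˢ E,
        {t | (G.fn t x' : ℤ) - G.fn t x = (p.1 : ℤ) - p.2}.indicator (fun _ => (1 : ℝ≥0∞)) t ∂μ =
      ∑ p ∈ E ×ˢ E, ∑ x ∈ F₁, ∑ x' ∈ F₂,
        μ {t | (G.fn t x' : ℤ) - G.fn t x = ((p.1 : ℤ) - p.2 : ℤ)} := by
    have hm : ∀ (x x' : ℕ) (p : ℕ × ℕ), Measurable fun t =>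
        {t | (G.fn t x' : ℤ) - G.fn t x = (p.1 : ℤ) - p.2}.indicator (fun _ => (1 : ℝ≥0∞)) t :=
      fun x x' p => measurable_const.indicator (hms x x' _)
    rw [lintegral_finsetSum _ fun x _ => Finset.measurable_sum _ fun x' _ =>
      Finset.measurable_sum _ fun p _ => hm x x' p]
    have e1 : ∀ x ∈ F₁, ∫⁻ t, ∑ x' ∈ F₂, ∑ p ∈ E ×ˢ E,
        {t | (G.fn t x' : ℤ) - G.fn t x = (p.1 : ℤ) - p.2}.indicator (fun _ => (1 : ℝ≥0∞)) t ∂μ =
        ∑ x' ∈ F₂, ∑ p ∈ E ×ˢ E,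
          μ {t | (G.fn t x' : ℤ) - G.fn t x = ((p.1 : ℤ) - p.2 : ℤ)} := by
      intro x _
      rw [lintegral_finsetSum _ fun x' _ => Finset.measurable_sum _ fun p _ => hm x x' p]
      refine Finset.sum_congr rfl fun x' _ => ?_
      rw [lintegral_finsetSum _ fun p _ => hm x x' p]
      refine Finset.sum_congr rfl fun p _ => ?_
      rw [lintegral_indicator (hms x x' _), setLIntegral_const, one_mul]
    rw [Finset.sum_congr rfl e1]
    have e2 : ∀ x ∈ F₁, ∑ x' ∈ F₂, ∑ p ∈ E ×ˢ E,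
          μ {t | (G.fn t x' : ℤ) - G.fn t x = ((p.1 : ℤ) - p.2 : ℤ)} =
        ∑ p ∈ E ×ˢ E, ∑ x' ∈ F₂,
          μ {t | (G.fn t x' : ℤ) - G.fn t x = ((p.1 : ℤ) - p.2 : ℤ)} :=
      fun x _ => Finset.sum_comm
    rw [Finset.sum_congr rfl e2, Finset.sum_comm]
  rw [h4] at h3
  have h5 : ∑ p ∈ E ×ˢ E, ∑ x ∈ F₁, ∑ x' ∈ F₂,
        μ {t | (G.fn t x' : ℤ) - G.fn t x = ((p.1 : ℤ) - p.2 : ℤ)} ≤
      ∑ _p ∈ E ×ˢ E, κ * (F₁.card * F₂.card) :=
    Finset.sum_le_sum fun p _ => hv _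
  have h6 := h3.trans h5
  rw [Finset.sum_const, Finset.card_product, nsmul_eq_mul] at h6
  have h7 : ((E.card * E.card : ℕ) : ℝ≥0∞) * (κ * (F₁.card * F₂.card)) =
      ((F₁.card : ℝ≥0∞) * F₂.card) * (κ * (E.card : ℝ≥0∞) ^ 2) := by
    push_cast
    ring
  rw [h7] at h6
  exact (ENNReal.mul_le_mul_iff_right hne hfin).1 h6

/-- **The step for a fixed set.** -/
theorem step_set {A : Set ℕ} {G : Fml} {μ : Measure ℝ} [IsFiniteMeasure μ] {q q' r : ℝ}
    (hq : 0 < q) (hr : 0 < r) (hG : Trans r μ G) (hA : Few A q) (hq' : r * q ^ 2 / 2 < q') :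
    ∀ᵐ t ∂μ, Few (addF A G t) q' := by
  classical
  obtain ⟨K, hK, i₀, hT⟩ := hG
  obtain ⟨C, hC⟩ := hA
  set s : ℝ := r * q ^ 2 / 2 with hs
  have hs0 : 0 < s := by positivity
  have hq'0 : 0 < q' := hs0.trans hq'
  set M : ℝ := (μ univ).toReal with hM
  have hM0 : 0 ≤ M := ENNReal.toReal_nonneg
  set B₀ : ℝ := ∑ i ∈ range (i₀ + 1), M * 2 ^ i / s ^ i with hB₀
  set B₁ : ℝ := K * (C * (1 + q)) ^ 2 / s with hB₁
  have hB₁0 : 0 ≤ B₁ := by positivity
  have hB₀0 : 0 ≤ B₀ := Finset.sum_nonneg fun i _ => by positivity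
  have hmeas : ∀ i, Measurable fun t => ((exc (addF A G t) i).card : ℝ≥0∞) := fun i =>
    measurable_card_exc (fun N => measurable_mem_addF (A := fun _ => A)
      (fun _ => MeasurableSet.const _) G measurable_id N) i
  refine ae_bound (f := fun i t => ((exc (addF A G t) i).card : ℝ≥0∞)) hmeas
    (b := fun i => (B₀ + B₁) * s ^ i) hq'0 (fun i => by positivity) ?_ ?_
  · intro i
    rcases lt_or_ge i (i₀ + 1) with hi | hi
    · have h1 : ∀ t, ((exc (addF A G t) i).card : ℝ≥0∞) ≤ ENNReal.ofReal (2 ^ i) := by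
        intro t
        have h2 : ((exc (addF A G t) i).card : ℝ≥0∞) ≤ ((2 ^ i : ℕ) : ℝ≥0∞) := by
          exact_mod_cast card_exc_le _ i
        refine h2.trans (le_of_eq ?_)
        rw [← ENNReal.ofReal_natCast]
        push_cast
        rfl
      refine (lintegral_mono h1).trans ?_
      rw [lintegral_const, ← ENNReal.ofReal_toReal (measure_ne_top μ univ),
        ← ENNReal.ofReal_mul (by positivity)]
      refine ENNReal.ofReal_le_ofReal ?_
      have h3 : M * 2 ^ i / s ^ i ≤ B₀ :=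
        Finset.single_le_sum (f := fun i => M * 2 ^ i / s ^ i) (fun j _ => by positivity)
          (Finset.mem_range.2 hi)
      have h4 : (2 : ℝ) ^ i * (μ univ).toReal = M * 2 ^ i / s ^ i * s ^ i := by
        rw [← hM]
        field_simp
      rw [h4]
      refine mul_le_mul_of_nonneg_right (by linarith) (by positivity)
    · obtain ⟨j, rfl⟩ : ∃ j, i = j + 1 := ⟨i - 1, by omega⟩
      obtain ⟨F₁, F₂, h₁, h₂, hd, hv⟩ := hT j (by omega)
      refine (mean_exc (A := A) h₁ h₂ hd hv).trans ?_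
      have h5 : ((exc A (j + 1) ∪ exc A j).card : ℝ≥0∞) ≤
          ENNReal.ofReal (C * (1 + q) * q ^ j) := by
        have h6 : ((exc A (j + 1) ∪ exc A j).card : ℝ≥0∞) ≤
            ((exc A (j + 1)).card : ℝ≥0∞) + ((exc A j).card : ℝ≥0∞) := by
          exact_mod_cast Finset.card_union_le _ _
        refine h6.trans ((add_le_add (hC (j + 1)) (hC j)).trans (le_of_eq ?_))
        rw [← ENNReal.ofReal_natCast, ← ENNReal.ofReal_mul (by positivity),
          ← ENNReal.ofReal_mul (by positivity), ← ENNReal.ofReal_add (by positivity)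
            (by positivity)]
        congr 1
        ring
      have h7 : ((exc A (j + 1) ∪ exc A j).card : ℝ≥0∞) ^ 2 ≤
          ENNReal.ofReal ((C * (1 + q) * q ^ j) ^ 2) := by
        rw [ENNReal.ofReal_pow (by positivity)]
        exact pow_le_pow_left' h5 2
      refine (mul_le_mul_right h7 _).trans ?_
      rw [← ENNReal.ofReal_mul (by positivity)]
      refine ENNReal.ofReal_le_ofReal ?_
      have h8 : K * (r / 2) ^ j * (C * (1 + q) * q ^ j) ^ 2 = B₁ * s ^ (j + 1) := by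
        rw [hB₁, pow_succ s j, hs]
        have e : (r * q ^ 2 / 2) ^ j = (r / 2) ^ j * (q ^ j) ^ 2 := by
          rw [← pow_mul, mul_comm j 2, pow_mul, ← mul_pow]
          congr 1
          ring
        rw [e]
        field_simp
      rw [h8]
      refine mul_le_mul_of_nonneg_right (by linarith) (by positivity)
  · have h3 : s / q' < 1 := (div_lt_one hq'0).2 hq'
    have h4 := (summable_geometric_of_lt_one (by positivity) h3).mul_left (B₀ + B₁)
    refine h4.congr fun i => ?_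
    rw [div_pow]
    ring

end Pool.Agent.Q154.War
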