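import Pool.Agent.Q154.War.TwoPoint

/-!
# The squaring step
-/

set_option autoImplicit false
set_option linter.unusedSectionVars false

open MeasureTheory Set Finset
open scoped Real ENNReal

namespace Pool.Agent.Q154.War

lemma ae_cons {n : ℕ} {s : Set (Fin (n + 1) → ℝ)} (hs : MeasurableSet s)
    (h : ∀ᵐ α ∂(νn n), ∀ᵐ t ∂ν1, (Fin.cons t α : Fin (n + 1) → ℝ) ∈ s) :
    ∀ᵐ β ∂(νn (n + 1)), β ∈ s := by
  have hmp := (mp_cons n).comp (Measure.measurePreserving_swap (μ := νn n) (ν := ν1))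
  rw [← hmp.map_eq]
  refine (ae_map_iff (p := fun β => β ∈ s) hmp.measurable.aemeasurable hs).2 ?_
  have hs2 : MeasurableSet (((fun p : ℝ × (Fin n → ℝ) =>
      (Fin.cons p.1 p.2 : Fin (n + 1) → ℝ)) ∘ Prod.swap) ⁻¹' s) := hmp.measurable hs
  have h2 := (Measure.ae_prod_mem_iff_ae_ae_mem (μ := νn n) (ν := ν1) hs2).2 h
  exact h2

lemma cons_measurable {n : ℕ} (α : Fin n → ℝ) :
    Measurable fun t : ℝ => (Fin.cons t α : Fin (n + 1) → ℝ) := by
  refine measurable_pi_iff.2 fun i => ?_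
  refine Fin.cases ?_ (fun j => ?_) i
  · exact measurable_id
  · exact measurable_const

/-- half of the candidates are bad -/
lemma half_bad {k n j : ℕ} (hk : 1 ≤ k) (hn : k ≤ n) {η c₁ c₂ t N : ℝ} (hη : 0 < η) (hc₁ : 0 < c₁)
    (hc₂ : 0 < c₂) (ht : t ∈ Set.Icc (0 : ℝ) 1) (α : Fin n → ℝ)
    (hN : N ∈ bad k (n + 1) η (min c₁ c₂ / (8 * 2 ^ (n - k))) (j + 2) (Fin.cons t α))
    {F : Finset ℕ} (hF : ∀ x ∈ F, 0 < x ∧ x < 4 * 2 ^ j) (hcard : F.card = 2 ^ j) :
    ENNReal.ofReal ((2 : ℝ) ^ j / 2) ≤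
      ∑ x ∈ F, ind (bad k n η c₁ (j + 2) α ∪ bad k n η c₂ (j + 1) α) (N - ((x : ℝ) + t) ^ k) := by
  obtain ⟨hNW, hNc⟩ := hN
  set c' := min c₁ c₂ with hc'
  have hc'0 : 0 < c' := lt_min hc₁ hc₂
  set E := bad k n η c₁ (j + 2) α ∪ bad k n η c₂ (j + 1) α with hE
  set H := ENNReal.ofReal ((2 : ℝ) ^ j / 2) with hH
  set τ := ENNReal.ofReal (c' * η * ((2 : ℝ) ^ (j + 1)) ^ (n - k)) with hτ
  by_contra hcon
  rw [not_le] at hcon
  have hHH : ((2 ^ j : ℕ) : ℝ≥0∞) = H + H := by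
    rw [hH, ← ENNReal.ofReal_add (by positivity) (by positivity), ← ENNReal.ofReal_natCast]
    congr 1
    push_cast
    ring
  have hthr : thr k (n + 1) (c' / (8 * 2 ^ (n - k))) η (j + 2) = τ * H := by
    unfold thr
    rw [hτ, hH, ← ENNReal.ofReal_mul (by positivity)]
    congr 1
    have e1 : n + 1 - k = (n - k) + 1 := by omega
    have e2 : (2 : ℝ) ^ (j + 2) = 2 ^ (j + 1) * 2 := by ring
    rw [e1, pow_succ ((2 : ℝ) ^ (j + 2)), e2, mul_pow]
    field_simp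
    ring
  have hpt : ∀ x ∈ F, τ ≤ cnt k n η α (N - ((x : ℝ) + t) ^ k) +
      τ * ind E (N - ((x : ℝ) + t) ^ k) := by
    intro x hx
    obtain ⟨hx0, hx4⟩ := hF x hx
    set u := N - ((x : ℝ) + t) ^ k with hu
    by_cases huE : u ∈ E
    · have : ind E u = 1 := Set.indicator_of_mem huE _
      rw [this, mul_one]
      exact le_add_self
    · refine le_trans ?_ le_self_add
      have hxk : ((x : ℝ) + t) ^ k ≤ ((2 : ℝ) ^ (j + 2)) ^ k := by
        refine pow_le_pow_left₀ (by have := ht.1; positivity) ?_ k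
        have h1 : x + 1 ≤ 4 * 2 ^ j := hx4
        have h2 : (x : ℝ) + 1 ≤ 4 * 2 ^ j := by exact_mod_cast h1
        have h3 : (2 : ℝ) ^ (j + 2) = 4 * 2 ^ j := by ring
        rw [h3]
        linarith [ht.2]
      have hxk0 : 0 ≤ ((x : ℝ) + t) ^ k := by
        have := ht.1
        positivity
      have hu1 : u < 2 * ((k : ℝ) + 1) * ((2 : ℝ) ^ (j + 2 + 1)) ^ k := by
        have := hNW.2
        linarith
      rw [hE, Set.mem_union, not_or] at huE
      rcases le_or_gt (2 * ((k : ℝ) + 1) * ((2 : ℝ) ^ (j + 2)) ^ k) u with h | h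
      · have h1 : u ∈ Wi k (j + 2) := ⟨h, hu1⟩
        have h2 : thr k n c₁ η (j + 2) ≤ cnt k n η α u := by
          by_contra h3
          exact huE.1 ⟨h1, not_le.1 h3⟩
        refine le_trans ?_ h2
        unfold thr
        refine ENNReal.ofReal_le_ofReal ?_
        have h4 : ((2 : ℝ) ^ (j + 1)) ^ (n - k) ≤ ((2 : ℝ) ^ (j + 2)) ^ (n - k) := by
          refine pow_le_pow_left₀ (by positivity) ?_ _
          exact pow_le_pow_right₀ (by norm_num) (by omega)
        refine mul_le_mul ?_ h4 (by positivity) (by positivity)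
        exact mul_le_mul_of_nonneg_right (min_le_left _ _) hη.le
      · have h1 : u ∈ Wi k (j + 1) := by
          refine ⟨?_, h⟩
          have h5 := hNW.1
          have h6 : ((2 : ℝ) ^ (j + 2)) ^ k = 2 ^ k * ((2 : ℝ) ^ (j + 1)) ^ k := by
            rw [← mul_pow]
            congr 1
            ring
          have h7 : 0 < ((2 : ℝ) ^ (j + 1)) ^ k := by positivity
          have h8 : (2 : ℝ) ≤ 2 ^ k := by
            calc (2 : ℝ) = 2 ^ 1 := by norm_num
              _ ≤ 2 ^ k := pow_le_pow_right₀ (by norm_num) hk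
          have hk0 : (1 : ℝ) ≤ k := by exact_mod_cast hk
          rw [h6] at h5 hxk
          rw [hu]
          have h9 := mul_le_mul_of_nonneg_right h8 h7.le
          nlinarith [mul_nonneg (by linarith : (0 : ℝ) ≤ k) (by linarith :
            0 ≤ 2 ^ k * ((2 : ℝ) ^ (j + 1)) ^ k - 2 * ((2 : ℝ) ^ (j + 1)) ^ k)]
        have h2 : thr k n c₂ η (j + 1) ≤ cnt k n η α u := by
          by_contra h3
          exact huE.2 ⟨h1, not_le.1 h3⟩
        refine le_trans ?_ h2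
        unfold thr
        refine ENNReal.ofReal_le_ofReal ?_
        refine mul_le_mul_of_nonneg_right ?_ (by positivity)
        exact mul_le_mul_of_nonneg_right (min_le_right _ _) hη.le
  have hsum := Finset.sum_le_sum hpt
  rw [Finset.sum_const, nsmul_eq_mul, hcard, Finset.sum_add_distrib, ← Finset.mul_sum, hHH] at hsum
  have h1 : ∑ x ∈ F, cnt k n η α (N - ((x : ℝ) + t) ^ k) < τ * H := by
    rw [← hthr]
    exact (sum_le_cnt F fun x hx => (hF x hx).1).trans_lt hNc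
  have h2 : τ * ∑ x ∈ F, ind E (N - ((x : ℝ) + t) ^ k) ≤ τ * H :=
    mul_le_mul_right hcon.le _
  have h3 : τ * ∑ x ∈ F, ind E (N - ((x : ℝ) + t) ^ k) ≠ ∞ := by
    refine ne_top_of_le_ne_top ?_ h2
    exact ENNReal.mul_ne_top ENNReal.ofReal_ne_top ENNReal.ofReal_ne_top
  have h4 := ENNReal.add_lt_add_of_lt_of_le h3 h1 h2
  have h5 : (H + H) * τ = τ * H + τ * H := by ring
  rw [h5] at hsum
  exact absurd hsum (not_le.2 h4)

/-- the mean measure of the new bad set -/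
lemma step_main {k n j : ℕ} (hk : 2 ≤ k) (hn : k ≤ n) {η c₁ c₂ v : ℝ} (hη : 0 < η) (hc₁ : 0 < c₁)
    (hc₂ : 0 < c₂) (hv : 0 ≤ v) (α : Fin n → ℝ)
    (hE : volume (bad k n η c₁ (j + 2) α ∪ bad k n η c₂ (j + 1) α) ≤ ENNReal.ofReal v) :
    ∫⁻ t, volume (bad k (n + 1) η (min c₁ c₂ / (8 * 2 ^ (n - k))) (j + 2) (Fin.cons t α)) ∂ν1 ≤
      ENNReal.ofReal (8 * 4 ^ k * v ^ 2 / ((2 : ℝ) ^ (j + 2)) ^ k) := by
  set E := bad k n η c₁ (j + 2) α ∪ bad k n η c₂ (j + 1) α with hEdef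
  have hEm : MeasurableSet E := (measurableSet_bad _ _ _ _ _ _).union (measurableSet_bad _ _ _ _ _ _)
  set c := min c₁ c₂ / (8 * 2 ^ (n - k)) with hc
  set H := ENNReal.ofReal ((2 : ℝ) ^ j / 2) with hH
  have hH0 : (0 : ℝ) < 2 ^ j / 2 := by positivity
  have hP1 : 1 ≤ 2 ^ j := Nat.one_le_two_pow
  -- pointwise in `t`
  have hpt : ∀ᵐ t ∂ν1, (H * H) * volume (bad k (n + 1) η c (j + 2) (Fin.cons t α)) ≤
      ∫⁻ N, (∑ x ∈ Finset.Ico ((2 : ℕ) ^ j) (2 * 2 ^ j), ind E (N - ((x : ℝ) + t) ^ k)) *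
        (∑ x ∈ Finset.Ico ((3 : ℕ) * 2 ^ j) (4 * 2 ^ j), ind E (N - ((x : ℝ) + t) ^ k)) := by
    have hae : ∀ᵐ t ∂ν1, t ∈ Set.Icc (0 : ℝ) 1 := ae_restrict_mem measurableSet_Icc
    filter_upwards [hae] with t ht
    have hmeas : Measurable fun N : ℝ =>
        (∑ x ∈ Finset.Ico ((2 : ℕ) ^ j) (2 * 2 ^ j), ind E (N - ((x : ℝ) + t) ^ k)) *
        (∑ x ∈ Finset.Ico ((3 : ℕ) * 2 ^ j) (4 * 2 ^ j), ind E (N - ((x : ℝ) + t) ^ k)) := by
      refine Measurable.mul ?_ ?_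
      · exact Finset.measurable_sum _ fun x _ => (measurable_ind hEm).comp (measurable_id.sub_const _)
      · exact Finset.measurable_sum _ fun x _ => (measurable_ind hEm).comp (measurable_id.sub_const _)
    refine le_trans ?_ (mul_meas_ge_le_lintegral hmeas (H * H))
    refine mul_le_mul_right (measure_mono ?_) _
    intro N hN
    have h1 := half_bad (by omega) hn hη hc₁ hc₂ ht α hN (F := Finset.Ico (2 ^ j) (2 * 2 ^ j))
      (fun x hx => by
        rw [Finset.mem_Ico] at hx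
        omega) (by rw [Nat.card_Ico]; omega)
    have h2 := half_bad (by omega) hn hη hc₁ hc₂ ht α hN (F := Finset.Ico (3 * 2 ^ j) (4 * 2 ^ j))
      (fun x hx => by
        rw [Finset.mem_Ico] at hx
        omega) (by rw [Nat.card_Ico]; omega)
    exact mul_le_mul' h1 h2
  have hm : Measurable fun t : ℝ => volume (bad k (n + 1) η c (j + 2) (Fin.cons t α)) :=
    (measurable_vol_bad k (n + 1) η c (j + 2)).comp (cons_measurable α)
  have h3 := lintegral_mono_ae hpt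
  rw [lintegral_const_mul _ hm] at h3
  have h4 := h3.trans (two_point hk hP1 hEm)
  have hHH : H * H = ENNReal.ofReal (((2 : ℝ) ^ j / 2) ^ 2) := by
    rw [hH, ← ENNReal.ofReal_mul hH0.le, sq]
  have hPr : (((2 ^ j : ℕ) : ℕ) : ℝ) = (2 : ℝ) ^ j := by push_cast; rfl
  have h5 : 2 * ((2 ^ j : ℕ) : ℝ≥0∞) * (volume E * (volume E /
      ENNReal.ofReal ((((2 ^ j : ℕ) : ℕ) : ℝ) ^ (k - 1)))) ≤
      ENNReal.ofReal (2 * 2 ^ j * (v * (v / ((2 : ℝ) ^ j) ^ (k - 1)))) := by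
    have e1 : 2 * ((2 ^ j : ℕ) : ℝ≥0∞) = ENNReal.ofReal (2 * 2 ^ j) := by
      rw [ENNReal.ofReal_mul (by norm_num), ← hPr, ENNReal.ofReal_natCast, ENNReal.ofReal_ofNat]
    rw [e1, ENNReal.ofReal_mul (p := (2 : ℝ) * 2 ^ j) (by positivity),
      ENNReal.ofReal_mul (p := v) hv, ENNReal.ofReal_div_of_pos (by positivity), hPr]
    refine mul_le_mul_right ?_ _
    exact mul_le_mul' hE (ENNReal.div_le_div_right hE _)
  have h6 := h4.trans h5
  rw [hHH] at h6
  have hH2 : (0 : ℝ) < ((2 : ℝ) ^ j / 2) ^ 2 := by positivity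
  have h7 : ∫⁻ t, volume (bad k (n + 1) η c (j + 2) (Fin.cons t α)) ∂ν1 ≤
      ENNReal.ofReal (2 * 2 ^ j * (v * (v / ((2 : ℝ) ^ j) ^ (k - 1)))) /
        ENNReal.ofReal (((2 : ℝ) ^ j / 2) ^ 2) := by
    rw [ENNReal.le_div_iff_mul_le (Or.inl (ENNReal.ofReal_pos.2 hH2).ne')
      (Or.inl ENNReal.ofReal_ne_top), mul_comm]
    exact h6
  rw [← ENNReal.ofReal_div_of_pos hH2] at h7
  refine h7.trans (ENNReal.ofReal_le_ofReal (le_of_eq ?_))
  have e2 : ((2 : ℝ) ^ (j + 2)) ^ k = 4 ^ k * ((2 : ℝ) ^ j) ^ k := by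
    rw [← mul_pow]
    congr 1
    ring
  have e3 : ((2 : ℝ) ^ j) ^ k = 2 ^ j * ((2 : ℝ) ^ j) ^ (k - 1) := by
    rw [← pow_succ']
    congr 1
    omega
  rw [e2, e3]
  field_simp
  ring

/-- **The squaring step.** -/
theorem step_Pr {k n : ℕ} (hk : 2 ≤ k) (hn : k ≤ n) {ρ q q' : ℝ} (hρ : 0 < ρ) (hq : 0 < q)
    (hq' : q ^ 2 / 2 ^ k < q') (h : Pr k n ρ q) : Pr k (n + 1) ρ q' := by
  intro η ⟨a, ha, hη⟩ hη1
  obtain ⟨c₁, hc₁, h1⟩ := h η ⟨a, ha, hη⟩ hη1
  obtain ⟨c₂, hc₂, h2⟩ := h (fun i => η (i + 1)) ⟨a * ρ, by positivity, fun i => by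
    have := hη (i + 1)
    rw [pow_succ] at this
    calc a * ρ * ρ ^ i = a * (ρ ^ i * ρ) := by ring
      _ ≤ _ := this⟩ (fun i => hη1 (i + 1))
  set c := min c₁ c₂ / (8 * 2 ^ (n - k)) with hc
  have hc0 : 0 < c := by
    have : 0 < min c₁ c₂ := lt_min hc₁ hc₂
    positivity
  refine ⟨c, hc0, ?_⟩
  refine ae_cons (measurableSet_event k (n + 1) η c q') ?_
  filter_upwards [h1, h2] with α hα1 hα2
  obtain ⟨C₁, hC₁⟩ := hα1
  obtain ⟨C₂, hC₂⟩ := hα2
  set r : ℝ := q ^ 2 / 2 ^ k with hr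
  have hr0 : 0 < r := by positivity
  have hq'0 : 0 < q' := hr0.trans hq'
  set C₃ : ℝ := C₁ + C₂ / q with hC₃
  have hC₃0 : 0 ≤ C₃ := by positivity
  set B : ℝ := 8 * 4 ^ k * C₃ ^ 2 + 2 * ((k : ℝ) + 1) * 4 ^ k * (1 + 1 / r) with hB
  have hB0 : 0 ≤ B := by positivity
  refine ae_bound (f := fun i t => volume (bad k (n + 1) (η i) c i (Fin.cons t α)))
    (fun i => (measurable_vol_bad k (n + 1) (η i) c i).comp (cons_measurable α))
    (b := fun i => B * r ^ i) hq'0 (fun i => by positivity) ?_ ?_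
  · intro i
    rcases lt_or_ge i 2 with hi | hi
    · have h3 : ∀ t, volume (bad k (n + 1) (η i) c i (Fin.cons t α)) ≤
          ENNReal.ofReal (2 * ((k : ℝ) + 1) * 4 ^ k) := by
        intro t
        have h4 : bad k (n + 1) (η i) c i (Fin.cons t α) ⊆ Wi k i := fun N hN => hN.1
        refine (measure_mono h4).trans ?_
        unfold Wi
        rw [Real.volume_Ico]
        refine ENNReal.ofReal_le_ofReal ?_
        have h5 : (2 : ℝ) ^ (i + 1) ≤ 4 := by
          calc (2 : ℝ) ^ (i + 1) ≤ 2 ^ 2 := pow_le_pow_right₀ (by norm_num) (by omega)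
            _ = 4 := by norm_num
        have h6 : ((2 : ℝ) ^ (i + 1)) ^ k ≤ 4 ^ k := pow_le_pow_left₀ (by positivity) h5 k
        have h7 : 0 ≤ 2 * ((k : ℝ) + 1) * ((2 : ℝ) ^ i) ^ k := by positivity
        have h8 : 2 * ((k : ℝ) + 1) * ((2 : ℝ) ^ (i + 1)) ^ k ≤ 2 * ((k : ℝ) + 1) * 4 ^ k :=
          mul_le_mul_of_nonneg_left h6 (by positivity)
        linarith
      refine (lintegral_mono h3).trans ?_
      rw [lintegral_const, measure_univ, mul_one]
      refine ENNReal.ofReal_le_ofReal ?_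
      have h9 : 1 ≤ (1 + 1 / r) * r ^ i := by
        have hi' : i = 0 ∨ i = 1 := by omega
        rcases hi' with rfl | rfl
        · rw [pow_zero, mul_one]
          have : 0 < 1 / r := by positivity
          linarith
        · rw [pow_one, add_mul, one_mul, one_div, inv_mul_cancel₀ hr0.ne']
          linarith
      calc 2 * ((k : ℝ) + 1) * 4 ^ k ≤ 2 * ((k : ℝ) + 1) * 4 ^ k * ((1 + 1 / r) * r ^ i) :=
            le_mul_of_one_le_right (by positivity) h9
        _ = (2 * ((k : ℝ) + 1) * 4 ^ k * (1 + 1 / r)) * r ^ i := by ring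
        _ ≤ B * r ^ i := by
            refine mul_le_mul_of_nonneg_right ?_ (by positivity)
            rw [hB]
            have : 0 ≤ 8 * 4 ^ k * C₃ ^ 2 := by positivity
            linarith
    · obtain ⟨j, rfl⟩ : ∃ j, i = j + 2 := ⟨i - 2, by omega⟩
      have hηi : 0 < η (j + 2) := lt_of_lt_of_le (by positivity) (hη (j + 2))
      have hE : volume (bad k n (η (j + 2)) c₁ (j + 2) α ∪ bad k n (η (j + 2)) c₂ (j + 1) α) ≤
          ENNReal.ofReal (C₃ * q ^ (j + 2)) := by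
        refine (measure_union_le _ _).trans ?_
        have e1 : C₃ * q ^ (j + 2) = C₁ * q ^ (j + 2) + C₂ * q ^ (j + 1) := by
          rw [hC₃, pow_succ q (j + 1)]
          field_simp
        rw [e1, ENNReal.ofReal_add (by positivity) (by positivity),
          ENNReal.ofReal_mul (by positivity), ENNReal.ofReal_mul (by positivity),
          ENNReal.ofReal_natCast, ENNReal.ofReal_natCast]
        exact add_le_add (hC₁ (j + 2)) (hC₂ (j + 1))
      refine (step_main hk hn hηi hc₁ hc₂ (by positivity) α hE).trans ?_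
      refine ENNReal.ofReal_le_ofReal ?_
      have e2 : 8 * 4 ^ k * (C₃ * q ^ (j + 2)) ^ 2 / ((2 : ℝ) ^ (j + 2)) ^ k =
          8 * 4 ^ k * C₃ ^ 2 * r ^ (j + 2) := by
        rw [hr, div_pow, ← pow_mul, ← pow_mul, mul_pow, ← pow_mul, ← pow_mul]
        rw [mul_comm k (j + 2), mul_comm 2 (j + 2)]
        ring
      rw [e2]
      refine mul_le_mul_of_nonneg_right ?_ (by positivity)
      rw [hB]
      have : 0 ≤ 2 * ((k : ℝ) + 1) * 4 ^ k * (1 + 1 / r) := by positivity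
      linarith
  · have h3 : r / q' < 1 := (div_lt_one hq'0).2 hq'
    have h4 := (summable_geometric_of_lt_one (by positivity) h3).mul_left B
    refine h4.congr fun i => ?_
    rw [div_pow]
    ring

end Pool.Agent.Q154.War
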