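import Pool.Agent.Q154.War.Disc
import Pool.Agent.Q154.War.Step

/-!
# Generic dilates of slowly growing sequences
-/

set_option autoImplicit false
set_option linter.unusedSectionVars false

open MeasureTheory Set Finset
open scoped Real ENNReal

namespace Pool.Agent.Q154.War

/-- consecutive elements have comparable logarithms -/
def Slow (B : Set ℕ) : Prop :=
  ∀ ε : ℝ, 0 < ε → ∃ X₀ : ℝ, ∀ X ≥ X₀, ∃ b ∈ B, X ^ (1 - ε) ≤ (b : ℝ) ∧ (b : ℝ) ≤ X

/-- integer parts of the dilates of a set -/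
noncomputable def dil (B : Set ℕ) : Fml where
  dom := B
  fn := fun t b => ⌊t * b⌋₊
  meas := fun b => Nat.measurable_floor.comp (measurable_id.mul_const (b : ℝ))

lemma vol_pair {l u : ℝ} (hl : 0 < l) {b b' : ℕ} (h : b < b') (v : ℤ) :
    (volume.restrict (Set.Icc l u)) {t : ℝ | ((⌊t * b'⌋₊ : ℕ) : ℤ) - (⌊t * b⌋₊ : ℕ) = v} ≤
      ENNReal.ofReal (2 / ((b' : ℝ) - b)) := by
  have hb : (0 : ℝ) < (b' : ℝ) - b := by
    have : (b : ℝ) < b' := by exact_mod_cast h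
    linarith
  have hsub : {t : ℝ | ((⌊t * b'⌋₊ : ℕ) : ℤ) - (⌊t * b⌋₊ : ℕ) = v} ∩ Set.Icc l u ⊆
      Set.Icc (((v : ℝ) - 1) / ((b' : ℝ) - b)) (((v : ℝ) + 1) / ((b' : ℝ) - b)) := by
    rintro t ⟨ht, htl, _⟩
    have ht0 : 0 ≤ t := by linarith
    have h1 : ((⌊t * b'⌋₊ : ℕ) : ℝ) - ((⌊t * b⌋₊ : ℕ) : ℝ) = v := by
      have h2 : ((⌊t * b'⌋₊ : ℕ) : ℤ) - (⌊t * b⌋₊ : ℕ) = v := ht
      exact_mod_cast h2
    have h3 := Nat.floor_le (by positivity : 0 ≤ t * (b' : ℝ))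
    have h4 := Nat.lt_floor_add_one (t * (b' : ℝ))
    have h5 := Nat.floor_le (by positivity : 0 ≤ t * (b : ℝ))
    have h6 := Nat.lt_floor_add_one (t * (b : ℝ))
    constructor
    · rw [div_le_iff₀ hb]
      nlinarith
    · rw [le_div_iff₀ hb]
      nlinarith
  rw [Measure.restrict_apply' measurableSet_Icc]
  refine (measure_mono hsub).trans ?_
  rw [Real.volume_Icc]
  refine ENNReal.ofReal_le_ofReal (le_of_eq ?_)
  field_simp
  ring

lemma trans_dil {B : Set ℕ} (hB : Slow B) {l u r : ℝ} (hl : 0 < l) (hlu : l ≤ u) (hr : 1 < r) :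
    Trans r (volume.restrict (Set.Icc l u)) (dil B) := by
  have hu : 0 < u := by linarith
  set ε : ℝ := min (1 / 2) (Real.logb 2 r) with hε
  have hlog : 0 < Real.logb 2 r := Real.logb_pos (by norm_num) hr
  have hε0 : 0 < ε := lt_min (by norm_num) hlog
  have hε1 : ε ≤ 1 / 2 := min_le_left _ _
  have h2ε : (2 : ℝ) ^ ε ≤ r := by
    calc (2 : ℝ) ^ ε ≤ (2 : ℝ) ^ (Real.logb 2 r) :=
          Real.rpow_le_rpow_of_exponent_le (by norm_num) (min_le_right _ _)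
      _ = r := Real.rpow_logb (by norm_num) (by norm_num) (by linarith)
  obtain ⟨X₀, hX₀⟩ := hB ε hε0
  have hlim1 : Filter.Tendsto (fun i : ℕ => (2 : ℝ) ^ i / u) Filter.atTop Filter.atTop :=
    (tendsto_pow_atTop_atTop_of_one_lt (by norm_num : (1 : ℝ) < 2)).atTop_div_const hu
  have hlim2 : Filter.Tendsto (fun i : ℕ => ((2 : ℝ) ^ i / u) ^ (1 - ε) / 2)
      Filter.atTop Filter.atTop :=
    ((tendsto_rpow_atTop (by linarith : 0 < 1 - ε)).comp hlim1).atTop_div_const (by norm_num)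
  obtain ⟨i₀, hi₀⟩ := ((hlim1.eventually_ge_atTop X₀).and
    (hlim2.eventually_ge_atTop X₀)).exists_forall_of_atTop
  refine ⟨4 * u ^ (1 - ε), by positivity, i₀, fun i hi => ?_⟩
  obtain ⟨h1, h2⟩ := hi₀ i hi
  obtain ⟨b', hb', hb'1, hb'2⟩ := hX₀ _ h1
  obtain ⟨b, hb, _, hb2⟩ := hX₀ _ h2
  have hX : 0 < (2 : ℝ) ^ i / u := by positivity
  have hXp : 0 < ((2 : ℝ) ^ i / u) ^ (1 - ε) := Real.rpow_pos_of_pos hX _
  have hlt : (b : ℝ) < b' := by linarith
  have hltN : b < b' := by exact_mod_cast hlt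
  have hdom : ∀ x ∈ ({b} : Finset ℕ) ∪ {b'}, x ∈ (dil B).dom ∧
      ∀ᵐ t ∂(volume.restrict (Set.Icc l u)), (dil B).fn t x ≤ 2 ^ i := by
    intro x hx
    rw [Finset.mem_union, Finset.mem_singleton, Finset.mem_singleton] at hx
    have hxB : x ∈ B ∧ (x : ℝ) ≤ (2 : ℝ) ^ i / u := by
      rcases hx with rfl | rfl
      · exact ⟨hb, by linarith⟩
      · exact ⟨hb', hb'2⟩
    refine ⟨hxB.1, ?_⟩
    filter_upwards [ae_restrict_mem measurableSet_Icc] with t ht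
    show ⌊t * x⌋₊ ≤ 2 ^ i
    have h3 : t * (x : ℝ) ≤ 2 ^ i := by
      calc t * (x : ℝ) ≤ u * ((2 : ℝ) ^ i / u) :=
            mul_le_mul ht.2 hxB.2 (Nat.cast_nonneg x) hu.le
        _ = 2 ^ i := by field_simp
    have h4 : ((⌊t * x⌋₊ : ℕ) : ℝ) ≤ t * x := Nat.floor_le (by
      have : 0 ≤ t := hl.le.trans ht.1
      positivity)
    have h5 : ((⌊t * x⌋₊ : ℕ) : ℝ) ≤ ((2 ^ i : ℕ) : ℝ) := by
      push_cast
      linarith
    exact_mod_cast h5
  refine ⟨{b}, {b'}, by simp, by simp, hdom, fun v => ?_⟩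
  rw [Finset.sum_singleton, Finset.sum_singleton, Finset.card_singleton, Finset.card_singleton]
  rw [Nat.cast_one, one_mul, mul_one]
  refine (vol_pair hl hltN v).trans (ENNReal.ofReal_le_ofReal ?_)
  have h6 : ((2 : ℝ) ^ i / u) ^ (1 - ε) / 2 ≤ (b' : ℝ) - b := by linarith
  have h7 : 2 / ((b' : ℝ) - b) ≤ 2 / (((2 : ℝ) ^ i / u) ^ (1 - ε) / 2) :=
    div_le_div_of_nonneg_left (by norm_num) (by positivity) h6
  refine h7.trans ?_
  have h8 : (((2 : ℝ) ^ i / u)) ^ (1 - ε) = (2 : ℝ) ^ i / ((2 : ℝ) ^ ε) ^ i / u ^ (1 - ε) := by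
    rw [Real.div_rpow (by positivity) hu.le]
    congr 1
    rw [Real.rpow_sub (by positivity), Real.rpow_one]
    congr 1
    rw [← Real.rpow_natCast 2 i, ← Real.rpow_mul (by norm_num), ← Real.rpow_mul_natCast (by norm_num)]
    congr 1
    ring
  rw [h8, div_pow]
  have h9 : ((2 : ℝ) ^ ε) ^ i ≤ r ^ i := pow_le_pow_left₀ (by positivity) h2ε i
  have h10 : 2 / ((2 : ℝ) ^ i / ((2 : ℝ) ^ ε) ^ i / u ^ (1 - ε) / 2) =
      4 * u ^ (1 - ε) * (((2 : ℝ) ^ ε) ^ i / 2 ^ i) := by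
    have hup : 0 < u ^ (1 - ε) := Real.rpow_pos_of_pos hu _
    field_simp
    norm_num
  rw [h10]
  have hup : 0 < u ^ (1 - ε) := Real.rpow_pos_of_pos hu _
  refine mul_le_mul_of_nonneg_left ?_ (by positivity)
  exact div_le_div_of_nonneg_right h9 (by positivity)

/-- the step for dilates -/
lemma step_dil {A B : Set ℕ} (hB : Slow B) {l u q q' : ℝ} (hl : 0 < l) (hlu : l ≤ u) (hq : 0 < q)
    (hA : Few A q) (hq' : q ^ 2 / 2 < q') :
    ∀ᵐ t ∂(volume.restrict (Set.Icc l u)), Few (addF A (dil B) t) q' := by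
  have h1 : 0 < q ^ 2 / 2 := by positivity
  set r : ℝ := (1 + q' / (q ^ 2 / 2)) / 2 with hr
  have h2 : 1 < q' / (q ^ 2 / 2) := (one_lt_div h1).2 hq'
  have hr1 : 1 < r := by
    rw [hr]
    linarith
  refine step_set hq (by linarith) (trans_dil hB hl hlu hr1) hA ?_
  have h3 : r < q' / (q ^ 2 / 2) := by
    rw [hr]
    linarith
  rw [lt_div_iff₀ h1] at h3
  calc r * q ^ 2 / 2 = r * (q ^ 2 / 2) := by ring
    _ < q' := h3

/-- the sumset -/
def SS (A : Set ℕ) {n : ℕ} (B : Fin n → Set ℕ) (β : Fin n → ℝ) : Set ℕ :=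
  {N | ∃ a ∈ A, ∃ b : Fin n → ℕ, (∀ i, b i ∈ B i) ∧ N = a + ∑ i, ⌊β i * b i⌋₊}

lemma SS_zero (A : Set ℕ) (B : Fin 0 → Set ℕ) (β : Fin 0 → ℝ) : SS A B β = A := by
  ext N
  constructor
  · rintro ⟨a, ha, b, _, h⟩
    simp at h
    rw [h]
    exact ha
  · intro h
    exact ⟨N, h, Fin.elim0, fun i => i.elim0, by simp⟩

lemma SS_cons (A : Set ℕ) {n : ℕ} (B : Fin (n + 1) → Set ℕ) (t : ℝ) (β : Fin n → ℝ) :
    SS A B (Fin.cons t β) = addF (SS A (fun i => B i.succ) β) (dil (B 0)) t := by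
  ext N
  constructor
  · rintro ⟨a, ha, b, hb, h⟩
    refine ⟨a + ∑ i : Fin n, ⌊β i * b i.succ⌋₊, ⟨a, ha, fun i => b i.succ, fun i => hb i.succ, rfl⟩,
      b 0, hb 0, ?_⟩
    rw [h, Fin.sum_univ_succ]
    show _ = a + ∑ i : Fin n, ⌊β i * b i.succ⌋₊ + ⌊t * b 0⌋₊
    simp only [Fin.cons_zero, Fin.cons_succ]
    ring
  · rintro ⟨m, ⟨a, ha, b, hb, hm⟩, x, hx, h⟩
    refine ⟨a, ha, Fin.cons x b, ?_, ?_⟩
    · intro i
      refine Fin.cases ?_ (fun j => ?_) i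
      · exact hx
      · exact hb j
    · rw [h, hm, Fin.sum_univ_succ]
      show a + ∑ i : Fin n, ⌊β i * b i⌋₊ + ⌊t * x⌋₊ = _
      simp only [Fin.cons_zero, Fin.cons_succ]
      ring

lemma measurable_mem_SS (A : Set ℕ) {n : ℕ} (B : Fin n → Set ℕ) (N : ℕ) :
    MeasurableSet {β : Fin n → ℝ | N ∈ SS A B β} := by
  have e : {β : Fin n → ℝ | N ∈ SS A B β} =
      ⋃ (a : ℕ) (b : Fin n → ℕ), {β : Fin n → ℝ | (a ∈ A ∧ ∀ i, b i ∈ B i) ∧
        N = a + ∑ i, ⌊β i * b i⌋₊} := by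
    ext β
    simp only [Set.mem_iUnion]
    constructor
    · rintro ⟨a, ha, x, hx, h⟩
      exact ⟨a, x, ⟨ha, hx⟩, h⟩
    · rintro ⟨a, x, ⟨ha, hx⟩, h⟩
      exact ⟨a, ha, x, hx, h⟩
  rw [e]
  refine MeasurableSet.iUnion fun a => MeasurableSet.iUnion fun b => ?_
  refine (MeasurableSet.const _).inter ?_
  have h1 : Measurable fun β : Fin n → ℝ => a + ∑ i, ⌊β i * b i⌋₊ := by
    refine Measurable.const_add ?_ a
    refine Finset.measurable_sum _ fun i _ => ?_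
    exact Nat.measurable_floor.comp ((measurable_pi_apply i).mul_const _)
  exact measurableSet_eq_fun measurable_const h1

/-- splitting off the first variable -/
lemma ae_cons' {n : ℕ} {μ : Measure ℝ} [SigmaFinite μ] {s : Set (Fin (n + 1) → ℝ)}
    (hs : MeasurableSet s)
    (h : ∀ᵐ β ∂(Measure.pi fun _ : Fin n => μ), ∀ᵐ t ∂μ, (Fin.cons t β : Fin (n + 1) → ℝ) ∈ s) :
    ∀ᵐ β ∂(Measure.pi fun _ : Fin (n + 1) => μ), β ∈ s := by
  have hmp0 : MeasurePreserving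
      (fun p : ℝ × (Fin n → ℝ) => (Fin.cons p.1 p.2 : Fin (n + 1) → ℝ))
      (μ.prod (Measure.pi fun _ : Fin n => μ)) (Measure.pi fun _ : Fin (n + 1) => μ) := by
    have h := (measurePreserving_piFinSuccAbove (fun _ : Fin (n + 1) => μ) 0).symm
    have e : (fun p : ℝ × (Fin n → ℝ) => (Fin.cons p.1 p.2 : Fin (n + 1) → ℝ)) =
        ⇑(MeasurableEquiv.piFinSuccAbove (fun _ : Fin (n + 1) => ℝ) 0).symm := by
      funext p
      exact (Fin.insertNth_zero' p.1 p.2).symm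
    rw [e]
    exact h
  have hmp := hmp0.comp (Measure.measurePreserving_swap (μ := Measure.pi fun _ : Fin n => μ)
    (ν := μ))
  rw [← hmp.map_eq]
  refine (ae_map_iff (p := fun β => β ∈ s) hmp.measurable.aemeasurable hs).2 ?_
  have hs2 : MeasurableSet (((fun p : ℝ × (Fin n → ℝ) =>
      (Fin.cons p.1 p.2 : Fin (n + 1) → ℝ)) ∘ Prod.swap) ⁻¹' s) := hmp.measurable hs
  have h2 := (Measure.ae_prod_mem_iff_ae_ae_mem (μ := Measure.pi fun _ : Fin n => μ)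
    (ν := μ) hs2).2 h
  exact h2

/-- **Several generic dilates.** -/
theorem joint {A : Set ℕ} {q₀ : ℝ} (hq₀ : 0 < q₀) (hA : Few A q₀) {l u : ℝ} (hl : 0 < l)
    (hlu : l ≤ u) (n : ℕ) :
    ∀ (B : Fin n → Set ℕ), (∀ i, Slow (B i)) → ∀ q : ℝ, 2 * (q₀ / 2) ^ (2 ^ n) < q →
      ∀ᵐ β ∂(Measure.pi fun _ : Fin n => volume.restrict (Set.Icc l u)), Few (SS A B β) q := by
  induction n with
  | zero =>
    intro B _ q hq
    refine Filter.Eventually.of_forall fun β => ?_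
    rw [SS_zero]
    obtain ⟨C, hC⟩ := hA
    refine ⟨C, fun i => (hC i).trans ?_⟩
    refine mul_le_mul_right (ENNReal.ofReal_le_ofReal ?_) _
    refine pow_le_pow_left₀ hq₀.le ?_ i
    rw [pow_zero, pow_one] at hq
    linarith
  | succ n ih =>
    intro B hB q' hq'
    set p : ℝ := 2 * (q₀ / 2) ^ (2 ^ n) with hp
    have hp0 : 0 < p := by positivity
    have h1 : p ^ 2 < 2 * q' := by
      have e : p ^ 2 = 2 * (2 * (q₀ / 2) ^ (2 ^ (n + 1))) := by
        rw [hp, pow_succ 2 n, pow_mul]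
        ring
      rw [e]
      linarith
    set s := Real.sqrt (2 * q') with hs
    have hq'0 : 0 < 2 * q' := lt_trans (by positivity) h1
    have hs2 : s ^ 2 = 2 * q' := Real.sq_sqrt hq'0.le
    have hs0 : 0 ≤ s := Real.sqrt_nonneg _
    have h3 : p < s := by
      refine lt_of_pow_lt_pow_left₀ 2 hs0 ?_
      rw [hs2]
      exact h1
    have h4 := ih (fun i => B i.succ) (fun i => hB i.succ) ((p + s) / 2) (by linarith)
    have h5 : ((p + s) / 2) ^ 2 / 2 < q' := by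
      rw [div_lt_iff₀ (by norm_num)]
      calc ((p + s) / 2) ^ 2 < s ^ 2 := pow_lt_pow_left₀ (by linarith) (by linarith) two_ne_zero
        _ = q' * 2 := by rw [hs2]; ring
    refine ae_cons' (measurableSet_Few (fun N => measurable_mem_SS A B N) q') ?_
    filter_upwards [h4] with β hβ
    have h6 := step_dil (hB 0) hl hlu (by linarith) hβ h5
    filter_upwards [h6] with t ht
    show Few (SS A B (Fin.cons t β)) q'
    rw [SS_cons]
    exact ht

end Pool.Agent.Q154.War
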