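import Pool.Agent.Q154.War.Step

/-!
# Assembly
-/

set_option autoImplicit false
set_option linter.unusedSectionVars false

open MeasureTheory Set Finset
open scoped Real ENNReal

namespace Pool.Agent.Q154.War

/-- iteration of the squaring step -/
theorem iter_Pr {k : ℕ} (hk : 3 ≤ k) {ρ : ℝ} (hρ : 0 < ρ) (hρ1 : ρ ≤ 1) (J : ℕ) :
    ∀ q : ℝ, 2 ^ k * (1 / (2 * ρ)) ^ (2 ^ J) < q → Pr k (k + 1 + J) ρ q := by
  induction J with
  | zero =>
    intro q hq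
    refine base_Pr hk hρ hρ1 (lt_of_eq_of_lt ?_ hq)
    have e : (2 : ℝ) ^ k = 2 ^ (k - 1) * 2 := by
      rw [← pow_succ]
      congr 1
      omega
    rw [e, pow_zero, pow_one]
    field_simp
  | succ J ih =>
    intro q' hq'
    set q₀ : ℝ := 2 ^ k * (1 / (2 * ρ)) ^ (2 ^ J) with hq₀
    have hq₀0 : 0 < q₀ := by positivity
    have h1 : q₀ ^ 2 < 2 ^ k * q' := by
      have e : q₀ ^ 2 = 2 ^ k * (2 ^ k * (1 / (2 * ρ)) ^ (2 ^ (J + 1))) := by
        rw [hq₀, pow_succ 2 J, pow_mul]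
        ring
      rw [e]
      exact mul_lt_mul_of_pos_left hq' (by positivity)
    have h2k : (0 : ℝ) < 2 ^ k := by positivity
    have hq'0 : 0 < 2 ^ k * q' := lt_trans (by positivity) h1
    set s := Real.sqrt (2 ^ k * q') with hs
    have hs2 : s ^ 2 = 2 ^ k * q' := Real.sq_sqrt hq'0.le
    have hs0 : 0 ≤ s := Real.sqrt_nonneg _
    have h3 : q₀ < s := by
      refine lt_of_pow_lt_pow_left₀ 2 hs0 ?_
      rw [hs2]
      exact h1
    have h4 := ih ((q₀ + s) / 2) (by linarith)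
    have h5 : ((q₀ + s) / 2) ^ 2 / 2 ^ k < q' := by
      rw [div_lt_iff₀ h2k]
      calc ((q₀ + s) / 2) ^ 2 < s ^ 2 := pow_lt_pow_left₀ (by linarith) (by linarith) two_ne_zero
        _ = q' * 2 ^ k := by rw [hs2]; ring
    exact step_Pr (n := k + 1 + J) (by omega) (by omega) hρ (by linarith) h5 h4

lemma cnt_mono {k n : ℕ} {η η' u N : ℝ} (α : Fin n → ℝ) (h : |u - N| + η ≤ η') :
    cnt k n η α u ≤ cnt k n η' α N := by
  classical
  unfold cnt
  refine ENNReal.tsum_le_tsum fun x => ?_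
  by_cases h1 : (∀ i, 0 < x i) ∧ |sx k n x α - u| < η
  · rw [if_pos h1, if_pos]
    refine ⟨h1.1, ?_⟩
    have h2 : sx k n x α - N = (sx k n x α - u) + (u - N) := by ring
    rw [h2]
    refine (abs_add_le _ _).trans_lt ?_
    linarith [h1.2]
  · rw [if_neg h1]
    exact zero_le

/-- **All large numbers are represented.** -/
theorem final_all {k n : ℕ} (hk : 1 ≤ k) {ρ q a : ℝ} (hρ : 0 < ρ) (hρ1 : ρ ≤ 1)
    (hq : 0 < q) (hqρ : q < ρ) (ha : 0 < a) (ha1 : a ≤ 1) (h : Pr k n ρ q) :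
    ∃ c, 0 < c ∧ ∀ᵐ α ∂(νn n), ∃ i₀ : ℕ, ∀ i ≥ i₀, ∀ N ∈ Wi k i,
      ENNReal.ofReal (c * (a * ρ ^ i) * ((2 : ℝ) ^ i) ^ (n - k)) ≤
        cnt k n (2 * (a * ρ ^ i)) α N := by
  obtain ⟨c₁, hc₁, h1⟩ := h (fun i => a * ρ ^ i) ⟨a, ha, fun i => le_rfl⟩ (fun i => by
    have : ρ ^ i ≤ 1 := pow_le_one₀ hρ.le hρ1
    have h0 : 0 < ρ ^ i := by positivity
    nlinarith)
  refine ⟨c₁ * ρ, by positivity, ?_⟩
  filter_upwards [h1] with α ⟨C, hC⟩
  have hr : q / ρ < 1 := (div_lt_one hρ).2 hqρ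
  have hlim := (tendsto_pow_atTop_nhds_zero_of_lt_one (by positivity) hr).const_mul
    ((C : ℝ) * (1 + q))
  rw [mul_zero] at hlim
  obtain ⟨i₀, hi₀⟩ := (hlim.eventually (gt_mem_nhds ha)).exists_forall_of_atTop
  refine ⟨i₀, fun i hi N hN => ?_⟩
  by_contra hcon
  rw [not_le] at hcon
  have hρi : 0 < ρ ^ i := by positivity
  have hη : 0 < a * ρ ^ i := by positivity
  have hη1 : a * ρ ^ i ≤ 1 := by
    have : ρ ^ i ≤ 1 := pow_le_one₀ hρ.le hρ1
    nlinarith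
  have hsub : Set.Ioo N (N + a * ρ ^ i) ⊆
      bad k n (a * ρ ^ i) c₁ i α ∪ bad k n (a * ρ ^ (i + 1)) c₁ (i + 1) α := by
    intro u hu
    have hun : |u - N| + a * ρ ^ i ≤ 2 * (a * ρ ^ i) := by
      rw [abs_of_pos (by linarith [hu.1])]
      linarith [hu.2]
    rcases lt_or_ge u (2 * ((k : ℝ) + 1) * ((2 : ℝ) ^ (i + 1)) ^ k) with h2 | h2
    · left
      refine ⟨⟨hN.1.trans hu.1.le, h2⟩, ?_⟩
      refine lt_of_le_of_lt (cnt_mono α hun) (lt_of_lt_of_le hcon ?_)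
      unfold thr
      refine ENNReal.ofReal_le_ofReal ?_
      refine mul_le_mul_of_nonneg_right ?_ (by positivity)
      refine mul_le_mul_of_nonneg_right ?_ hη.le
      exact mul_le_of_le_one_right hc₁.le hρ1
    · right
      refine ⟨⟨h2, ?_⟩, ?_⟩
      · have h3 : u < 2 * ((k : ℝ) + 1) * ((2 : ℝ) ^ (i + 1)) ^ k + 1 := by
          linarith [hu.2, hN.2]
        have h4 : (1 : ℝ) ≤ ((2 : ℝ) ^ (i + 1)) ^ k := one_le_pow₀ (one_le_pow₀ (by norm_num))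
        have h5 : ((2 : ℝ) ^ (i + 1 + 1)) ^ k = 2 ^ k * ((2 : ℝ) ^ (i + 1)) ^ k := by
          rw [← mul_pow]
          congr 1
          ring
        have h6 : (2 : ℝ) ≤ 2 ^ k := by
          calc (2 : ℝ) = 2 ^ 1 := by norm_num
            _ ≤ 2 ^ k := pow_le_pow_right₀ (by norm_num) hk
        have h7 : 2 * ((2 : ℝ) ^ (i + 1)) ^ k ≤ 2 ^ k * ((2 : ℝ) ^ (i + 1)) ^ k :=
          mul_le_mul_of_nonneg_right h6 (by positivity)
        have hk0 : (0 : ℝ) ≤ k := Nat.cast_nonneg k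
        rw [h5]
        nlinarith [mul_nonneg hk0 (by linarith : 0 ≤ 2 ^ k * ((2 : ℝ) ^ (i + 1)) ^ k -
          2 * ((2 : ℝ) ^ (i + 1)) ^ k), mul_nonneg hk0 (by linarith :
            0 ≤ ((2 : ℝ) ^ (i + 1)) ^ k)]
      · have hle : a * ρ ^ (i + 1) ≤ a * ρ ^ i := by
          rw [pow_succ]
          have : ρ ^ i * ρ ≤ ρ ^ i := mul_le_of_le_one_right hρi.le hρ1
          nlinarith
        have hun' : |u - N| + a * ρ ^ (i + 1) ≤ 2 * (a * ρ ^ i) := by linarith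
        refine lt_of_le_of_lt (cnt_mono α hun') (lt_of_lt_of_le hcon ?_)
        unfold thr
        refine ENNReal.ofReal_le_ofReal ?_
        have h8 : ((2 : ℝ) ^ i) ^ (n - k) ≤ ((2 : ℝ) ^ (i + 1)) ^ (n - k) :=
          pow_le_pow_left₀ (by positivity) (pow_le_pow_right₀ (by norm_num) (by omega)) _
        calc c₁ * ρ * (a * ρ ^ i) * ((2 : ℝ) ^ i) ^ (n - k) =
            c₁ * (a * ρ ^ (i + 1)) * ((2 : ℝ) ^ i) ^ (n - k) := by
              rw [pow_succ]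
              ring
          _ ≤ c₁ * (a * ρ ^ (i + 1)) * ((2 : ℝ) ^ (i + 1)) ^ (n - k) :=
              mul_le_mul_of_nonneg_left h8 (by positivity)
  have hvol := (measure_mono (μ := volume) hsub).trans ((measure_union_le _ _).trans
    (add_le_add (hC i) (hC (i + 1))))
  rw [Real.volume_Ioo, ← ENNReal.ofReal_natCast, ← ENNReal.ofReal_mul (by positivity),
    ← ENNReal.ofReal_mul (by positivity), ← ENNReal.ofReal_add (by positivity) (by positivity),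
    ENNReal.ofReal_le_ofReal_iff (by positivity)] at hvol
  have h9 := hi₀ i hi
  rw [div_pow, mul_div_assoc', div_lt_iff₀ hρi] at h9
  have h10 : (C : ℝ) * q ^ i + C * q ^ (i + 1) = C * (1 + q) * q ^ i := by
    rw [pow_succ]
    ring
  rw [h10] at hvol
  linarith

/-- the representations -/
def Rep (k n : ℕ) (α : Fin n → ℝ) (N η : ℝ) : Set (Fin n → ℕ) :=
  {x | (∀ i, 0 < x i) ∧ |∑ i, ((x i : ℝ) + α i) ^ k - N| < η}

lemma finite_Rep {k n : ℕ} (hk : 1 ≤ k) {α : Fin n → ℝ} (hα : ∀ i, 0 ≤ α i) (N η : ℝ) :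
    (Rep k n α N η).Finite := by
  obtain ⟨M, hM⟩ := exists_nat_gt (N + η)
  refine (Set.Finite.pi' (t := fun _ : Fin n => Set.Iio M) fun _ => Set.finite_Iio M).subset ?_
  intro x hx i
  have h1 := (abs_lt.1 hx.2).2
  have h2 : ((x i : ℝ) + α i) ^ k ≤ ∑ i, ((x i : ℝ) + α i) ^ k :=
    Finset.single_le_sum (f := fun i => ((x i : ℝ) + α i) ^ k)
      (fun j _ => by have := hα j; positivity) (Finset.mem_univ i)
  have h3 : (1 : ℝ) ≤ x i := by exact_mod_cast hx.1 i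
  have h4 : (x i : ℝ) ≤ ((x i : ℝ) + α i) ^ k := by
    calc (x i : ℝ) ≤ (x i : ℝ) + α i := by linarith [hα i]
      _ ≤ ((x i : ℝ) + α i) ^ k := le_self_pow₀ (by linarith [hα i]) (by omega)
  have h5 : (x i : ℝ) < M := by linarith
  have h6 : x i < M := by exact_mod_cast h5
  exact h6

lemma cnt_eq_ncard {k n : ℕ} (hk : 1 ≤ k) {α : Fin n → ℝ} (hα : ∀ i, 0 ≤ α i) (N η : ℝ) :
    cnt k n η α N = ((Rep k n α N η).ncard : ℝ≥0∞) := by
  classical
  have h1 : cnt k n η α N = ∑' x, (Rep k n α N η).indicator (fun _ => (1 : ℝ≥0∞)) x := by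
    unfold cnt
    refine tsum_congr fun x => ?_
    by_cases h : x ∈ Rep k n α N η
    · rw [Set.indicator_of_mem h, if_pos]
      exact h
    · rw [Set.indicator_of_notMem h, if_neg]
      exact h
  rw [h1, ← tsum_subtype (Rep k n α N η) (fun _ => (1 : ℝ≥0∞)), ENNReal.tsum_set_one,
    ← (finite_Rep hk hα N η).cast_ncard_eq]
  simp

/-- every large real number lies in a window -/
lemma exists_window (k : ℕ) (hk : 1 ≤ k) {N : ℝ} (i₀ : ℕ)
    (hN : 2 * ((k : ℝ) + 1) * ((2 : ℝ) ^ i₀) ^ k ≤ N) : ∃ i ≥ i₀, N ∈ Wi k i := by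
  have hK : (0 : ℝ) < 2 * ((k : ℝ) + 1) := by positivity
  have h1 : 1 ≤ N / (2 * ((k : ℝ) + 1) * ((2 : ℝ) ^ i₀) ^ k) := by
    rw [le_div_iff₀ (by positivity), one_mul]
    exact hN
  have h2k : (1 : ℝ) < 2 ^ k := one_lt_pow₀ (by norm_num) (by omega)
  obtain ⟨m, hm1, hm2⟩ := exists_nat_pow_near h1 h2k
  rw [le_div_iff₀ (by positivity)] at hm1
  rw [div_lt_iff₀ (by positivity)] at hm2
  have e1 : ((2 : ℝ) ^ (i₀ + m)) ^ k = (2 ^ k) ^ m * ((2 : ℝ) ^ i₀) ^ k := by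
    rw [← pow_mul, ← pow_mul, ← pow_mul, ← pow_add]
    congr 1
    ring
  have e2 : ((2 : ℝ) ^ (i₀ + m + 1)) ^ k = (2 ^ k) ^ (m + 1) * ((2 : ℝ) ^ i₀) ^ k := by
    rw [← pow_mul, ← pow_mul, ← pow_mul, ← pow_add]
    congr 1
    ring
  refine ⟨i₀ + m, by omega, ?_, ?_⟩
  · rw [e1]
    calc 2 * ((k : ℝ) + 1) * ((2 ^ k) ^ m * ((2 : ℝ) ^ i₀) ^ k) =
        (2 ^ k) ^ m * (2 * ((k : ℝ) + 1) * ((2 : ℝ) ^ i₀) ^ k) := by ring
      _ ≤ N := hm1
  · rw [e2]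
    calc N < (2 ^ k) ^ (m + 1) * (2 * ((k : ℝ) + 1) * ((2 : ℝ) ^ i₀) ^ k) := hm2
      _ = _ := by ring

/-- **Main theorem.** -/
theorem main {k n : ℕ} (hk : 3 ≤ k) (hn : k + 1 ≤ n) {γ κ : ℝ} (hγ0 : 0 ≤ γ) (hκ : 0 < κ)
    (hγ : γ * k * (2 ^ (n - k - 1) + 1) < 2 ^ (n - k - 1) - k) :
    ∃ c, 0 < c ∧ ∀ᵐ α ∂(volume : Measure (Fin n → ℝ)), (∀ i, α i ∈ Set.Icc (0 : ℝ) 1) →
      ∃ N₀ : ℝ, ∀ N ≥ N₀, c * N ^ ((n : ℝ) / k - 1 - γ) ≤
        ((Rep k n α N (κ * N ^ (-γ))).ncard : ℝ) := by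
  have hk1 : 1 ≤ k := by omega
  have hk0 : (0 : ℝ) < k := by exact_mod_cast hk1
  set J := n - k - 1 with hJ
  have hnJ : n = k + 1 + J := by omega
  set ρ : ℝ := (2 : ℝ) ^ (-(γ * k)) with hρdef
  have hρ : 0 < ρ := Real.rpow_pos_of_pos (by norm_num) _
  have hρ1 : ρ ≤ 1 := Real.rpow_le_one_of_one_le_of_nonpos (by norm_num) (by
    have : 0 ≤ γ * k := by positivity
    linarith)
  have h2ρ : 1 / (2 * ρ) = (2 : ℝ) ^ (γ * k - 1) := by
    rw [hρdef, Real.rpow_sub (by norm_num), Real.rpow_neg (by norm_num), Real.rpow_one]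
    field_simp
  have hq₀ : 2 ^ k * (1 / (2 * ρ)) ^ (2 ^ J) < ρ := by
    rw [h2ρ, hρdef, ← Real.rpow_natCast 2 k, ← Real.rpow_mul_natCast (by norm_num),
      ← Real.rpow_add (by norm_num)]
    refine Real.rpow_lt_rpow_of_exponent_lt (by norm_num) ?_
    push_cast
    nlinarith
  obtain ⟨q, hq1, hq2⟩ := exists_between hq₀
  have hq0 : 0 < q := lt_trans (by positivity) hq1
  have hPr := iter_Pr hk hρ hρ1 J q hq1
  rw [← hnJ] at hPr
  set A : ℝ := 2 * ((k : ℝ) + 1) * 2 ^ k with hA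
  have hA0 : 0 < A := by positivity
  set a : ℝ := min 1 (κ * A ^ (-γ) / 2) with ha
  have hAγ : 0 < A ^ (-γ) := Real.rpow_pos_of_pos hA0 _
  have ha0 : 0 < a := lt_min one_pos (by positivity)
  have ha1 : a ≤ 1 := min_le_left _ _
  obtain ⟨c, hc, hall⟩ := final_all hk1 hρ hρ1 hq0 hq2 ha0 ha1 hPr
  -- exponents
  have hJk : (k : ℝ) < 2 ^ J := by
    have : 0 ≤ γ * k * ((2 : ℝ) ^ J + 1) := by positivity
    linarith
  have hγk : γ * k < 1 := by
    by_contra hcon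
    rw [not_lt] at hcon
    have : (2 : ℝ) ^ J + 1 ≤ γ * k * (2 ^ J + 1) := le_mul_of_one_le_left (by positivity) hcon
    linarith
  set e : ℝ := (n : ℝ) / k - 1 - γ with he
  have hek : e * k = (n - k : ℕ) - γ * k := by
    rw [he, Nat.cast_sub (by omega)]
    field_simp
  have he0 : 0 < e := by
    have h1 : (1 : ℝ) ≤ ((n - k : ℕ) : ℝ) := by
      have : 1 ≤ n - k := by omega
      exact_mod_cast this
    have h2 : 0 < e * k := by rw [hek]; linarith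
    exact (mul_pos_iff_of_pos_right hk0).1 h2
  set c₀ : ℝ := c * a / A ^ e with hc₀
  have hAe : 0 < A ^ e := Real.rpow_pos_of_pos hA0 _
  refine ⟨c₀, by positivity, ?_⟩
  rw [νn_eq, ae_restrict_iff' (MeasurableSet.univ_pi fun _ => measurableSet_Icc)] at hall
  filter_upwards [hall] with α hα hα01
  obtain ⟨i₀, hi₀⟩ := hα (fun i _ => hα01 i)
  refine ⟨2 * ((k : ℝ) + 1) * ((2 : ℝ) ^ i₀) ^ k, fun N hN => ?_⟩
  obtain ⟨i, hi, hNi⟩ := exists_window k hk1 i₀ hN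
  have h1 := hi₀ i hi N hNi
  have hN0 : 0 < N := lt_of_lt_of_le (by positivity) hN
  -- comparison of `N` with `2^i`
  have hNup : N ≤ A * ((2 : ℝ) ^ i) ^ k := by
    have h2 := hNi.2.le
    have h3 : ((2 : ℝ) ^ (i + 1)) ^ k = 2 ^ k * ((2 : ℝ) ^ i) ^ k := by
      rw [← mul_pow]
      congr 1
      ring
    rw [h3] at h2
    calc N ≤ _ := h2
      _ = A * ((2 : ℝ) ^ i) ^ k := by rw [hA]; ring
  have hpow : ∀ z : ℝ, (((2 : ℝ) ^ i) ^ k) ^ z = (2 : ℝ) ^ (i * (k * z)) := by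
    intro z
    rw [← Real.rpow_natCast 2 i, ← Real.rpow_mul_natCast (by norm_num),
      ← Real.rpow_mul (by norm_num)]
    congr 1
    ring
  have hρi : ρ ^ i = (2 : ℝ) ^ (-(γ * k) * i) := by
    rw [hρdef, ← Real.rpow_mul_natCast (by norm_num)]
  have hwidth : 2 * (a * ρ ^ i) ≤ κ * N ^ (-γ) := by
    have h2 : (A * ((2 : ℝ) ^ i) ^ k) ^ (-γ) ≤ N ^ (-γ) :=
      Real.rpow_le_rpow_of_nonpos hN0 hNup (by linarith)
    rw [Real.mul_rpow hA0.le (by positivity), hpow] at h2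
    have h3 : (2 : ℝ) ^ ((i : ℝ) * (k * -γ)) = ρ ^ i := by
      rw [hρi]
      congr 1
      ring
    rw [h3] at h2
    have h4 : 2 * a ≤ κ * A ^ (-γ) := by
      have : a ≤ κ * A ^ (-γ) / 2 := min_le_right _ _
      linarith
    calc 2 * (a * ρ ^ i) = 2 * a * ρ ^ i := by ring
      _ ≤ κ * A ^ (-γ) * ρ ^ i := mul_le_mul_of_nonneg_right h4 (by positivity)
      _ = κ * (A ^ (-γ) * ρ ^ i) := by ring
      _ ≤ κ * N ^ (-γ) := mul_le_mul_of_nonneg_left h2 hκ.le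
  have h5 : cnt k n (2 * (a * ρ ^ i)) α N ≤ cnt k n (κ * N ^ (-γ)) α N := by
    refine cnt_mono α ?_
    rw [sub_self, abs_zero, zero_add]
    exact hwidth
  have h6 := h1.trans h5
  rw [cnt_eq_ncard hk1 (fun j => (hα01 j).1), ← ENNReal.ofReal_natCast,
    ENNReal.ofReal_le_ofReal_iff (Nat.cast_nonneg _)] at h6
  refine le_trans ?_ h6
  have h7 : N ^ e ≤ A ^ e * (ρ ^ i * ((2 : ℝ) ^ i) ^ (n - k)) := by
    calc N ^ e ≤ (A * ((2 : ℝ) ^ i) ^ k) ^ e := Real.rpow_le_rpow hN0.le hNup he0.le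
      _ = A ^ e * (2 : ℝ) ^ ((i : ℝ) * (k * e)) := by
          rw [Real.mul_rpow hA0.le (by positivity), hpow]
      _ = A ^ e * (ρ ^ i * ((2 : ℝ) ^ i) ^ (n - k)) := by
          congr 1
          rw [hρi, ← Real.rpow_natCast 2 i, ← Real.rpow_mul_natCast (by norm_num),
            ← Real.rpow_add (by norm_num)]
          congr 1
          have : (k : ℝ) * e = (n - k : ℕ) - γ * k := by rw [mul_comm]; exact hek
          rw [this]
          ring
  calc c₀ * N ^ e ≤ c₀ * (A ^ e * (ρ ^ i * ((2 : ℝ) ^ i) ^ (n - k))) :=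
        mul_le_mul_of_nonneg_left h7 (by positivity)
    _ = c * (a * ρ ^ i) * ((2 : ℝ) ^ i) ^ (n - k) := by
        rw [hc₀]
        field_simp

end Pool.Agent.Q154.War
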