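import Pool.Agent.Q154.War.Mean

/-!
# Full range exponential sums with a shift
-/

set_option autoImplicit false

open MeasureTheory Set Finset
open scoped Real

namespace Pool.Agent.Q154.War

/-- the exponential sum over `0 ≤ m < Y` -/
noncomputable def S0 (k Y : ℕ) (θ t : ℝ) : ℂ := ∑ m ∈ range Y, ee (θ * ((m : ℝ) + t) ^ k)

lemma norm_S0_le (k Y : ℕ) (θ t : ℝ) : ‖S0 k Y θ t‖ ≤ Y := by
  unfold S0
  refine (norm_sum_le _ _).trans ?_
  simp [norm_ee]

lemma continuous_S0 (k Y : ℕ) : Continuous fun p : ℝ × ℝ => S0 k Y p.1 p.2 := by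
  unfold S0
  refine continuous_finsetSum _ fun x _ => ?_
  exact continuous_ee.comp (by fun_prop)

lemma continuous_S0_right (k Y : ℕ) (θ : ℝ) : Continuous fun t => S0 k Y θ t :=
  (continuous_S0 k Y).comp (by fun_prop : Continuous fun t : ℝ => (θ, t))

/-- the mean square in terms of oscillatory integrals -/
theorem mean_sq0 (k Y : ℕ) (θ : ℝ) :
    ∫ t in (0 : ℝ)..1, ‖S0 k Y θ t‖ ^ 2 ≤
      Y + ∑ h ∈ Finset.Ico 1 Y,
        2 * ‖∫ y in (0 : ℝ)..((Y - h : ℕ) : ℝ), ee (θ * ((y + h) ^ k - y ^ k))‖ := by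
  set F : ℝ → ℕ → ℕ → ℂ := fun t i j =>
    ee (θ * ((i : ℝ) + t) ^ k) * (starRingEnd ℂ) (ee (θ * ((j : ℝ) + t) ^ k)) with hF
  have hFc : ∀ i j, Continuous fun t => F t i j := by
    intro i j
    rw [hF]
    refine Continuous.mul ?_ ?_
    · exact continuous_ee.comp (by fun_prop)
    · exact Complex.continuous_conj.comp (continuous_ee.comp (by fun_prop))
  have h1 : ∀ t, ((‖S0 k Y θ t‖ ^ 2 : ℝ) : ℂ) = ∑ i ∈ range Y, ∑ j ∈ range Y, F t i j := by
    intro t
    rw [← Complex.normSq_eq_norm_sq, ← Complex.mul_conj]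
    unfold S0
    rw [map_sum, Finset.sum_mul_sum]
  have hFd : ∀ t i, F t i i = 1 := by
    intro t i
    rw [hF]
    simp only
    rw [Complex.mul_conj, Complex.normSq_eq_norm_sq, norm_ee]
    simp
  have h2 : ((∫ t in (0 : ℝ)..1, ‖S0 k Y θ t‖ ^ 2 : ℝ) : ℂ) =
      (Y : ℕ) + ∑ h ∈ Finset.Ico 1 Y, ∑ i ∈ range (Y - h),
        ∫ t in (0 : ℝ)..1, (F t (i + h) i + F t i (i + h)) := by
    rw [← intervalIntegral.integral_ofReal]
    simp only [h1]
    simp only [sum_sum_diff, hFd]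
    rw [intervalIntegral.integral_add]
    · congr 1
      · simp
      · rw [intervalIntegral.integral_finsetSum]
        · refine Finset.sum_congr rfl fun h _ => ?_
          rw [intervalIntegral.integral_finsetSum]
          intro i _
          exact ((hFc _ _).add (hFc _ _)).intervalIntegrable _ _
        · intro h _
          exact (continuous_finsetSum _ fun i _ => (hFc _ _).add (hFc _ _)).intervalIntegrable _ _
    · exact continuous_const.intervalIntegrable _ _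
    · exact (continuous_finsetSum _ fun h _ => continuous_finsetSum _ fun i _ =>
        (hFc _ _).add (hFc _ _)).intervalIntegrable _ _
  have h3 : ∀ h ∈ Finset.Ico 1 Y, ‖∑ i ∈ range (Y - h),
        ∫ t in (0 : ℝ)..1, (F t (i + h) i + F t i (i + h))‖ ≤
      2 * ‖∫ y in (0 : ℝ)..((Y - h : ℕ) : ℝ), ee (θ * ((y + h) ^ k - y ^ k))‖ := by
    intro h _
    set g : ℝ → ℂ := fun y => ee (θ * ((y + h) ^ k - y ^ k)) with hg
    have hgc : Continuous g := continuous_ee.comp (by fun_prop)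
    have hgc' : Continuous fun y => (starRingEnd ℂ) (g y) := Complex.continuous_conj.comp hgc
    have e1 : ∀ (t : ℝ) (i : ℕ), F t (i + h) i = g (0 + i + t) := by
      intro t i
      rw [hF, hg]
      simp only
      rw [← ee_sub]
      congr 1
      push_cast
      ring
    have e2 : ∀ (t : ℝ) (i : ℕ), F t i (i + h) = (starRingEnd ℂ) (g (0 + i + t)) := by
      intro t i
      rw [← e1]
      rw [hF]
      simp only
      rw [map_mul, Complex.conj_conj, mul_comm]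
    simp only [e1, e2]
    have e3 : ∀ i ∈ range (Y - h),
        ∫ t in (0 : ℝ)..1, (g (0 + i + t) + (starRingEnd ℂ) (g (0 + i + t))) =
        (∫ t in (0 : ℝ)..1, g (0 + i + t)) +
          ∫ t in (0 : ℝ)..1, (fun y => (starRingEnd ℂ) (g y)) (0 + i + t) := by
      intro i _
      refine intervalIntegral.integral_add ?_ ?_
      · exact (hgc.comp (by fun_prop)).intervalIntegrable _ _
      · exact (hgc'.comp (by fun_prop)).intervalIntegrable _ _
    rw [Finset.sum_congr rfl e3, Finset.sum_add_distrib, sum_unit hgc, sum_unit hgc', zero_add]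
    have hab : (0 : ℝ) ≤ ((Y - h : ℕ) : ℝ) := Nat.cast_nonneg _
    have e5 : ∫ y in (0 : ℝ)..((Y - h : ℕ) : ℝ), (starRingEnd ℂ) (g y) =
        (starRingEnd ℂ) (∫ y in (0 : ℝ)..((Y - h : ℕ) : ℝ), g y) := by
      rw [intervalIntegral.integral_of_le hab, intervalIntegral.integral_of_le hab, integral_conj]
    rw [e5]
    refine (norm_add_le _ _).trans ?_
    rw [RCLike.norm_conj, two_mul]
  have e1 : ‖((∫ t in (0 : ℝ)..1, ‖S0 k Y θ t‖ ^ 2 : ℝ) : ℂ)‖ ≤
      Y + ∑ h ∈ Finset.Ico 1 Y,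
        2 * ‖∫ y in (0 : ℝ)..((Y - h : ℕ) : ℝ), ee (θ * ((y + h) ^ k - y ^ k))‖ := by
    rw [h2]
    refine (norm_add_le _ _).trans ?_
    refine add_le_add ?_ ?_
    · rw [Complex.norm_natCast]
    · refine (norm_sum_le _ _).trans ?_
      exact Finset.sum_le_sum h3
  rw [Complex.norm_real, Real.norm_eq_abs] at e1
  exact (le_abs_self _).trans e1

/-- splitting the oscillatory integral -/
lemma osc_split {k : ℕ} (hk : 3 ≤ k) {θ h b : ℝ} (hθ : θ ≠ 0) (hh : 0 < h) (hb : 0 ≤ b) :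
    ‖∫ y in (0 : ℝ)..b, ee (θ * ((y + h) ^ k - y ^ k))‖ ≤
      2 * (|θ| * h) ^ (-(1 / ((k : ℝ) - 1))) := by
  have hθ' : 0 < |θ| := abs_pos.2 hθ
  have hth : 0 < |θ| * h := by positivity
  have hk1 : (0 : ℝ) < (k : ℝ) - 1 := by
    have : (3 : ℝ) ≤ k := by exact_mod_cast hk
    linarith
  set y₀ := (|θ| * h) ^ (-(1 / ((k : ℝ) - 1))) with hy₀
  have hy₀0 : 0 < y₀ := Real.rpow_pos_of_pos hth _
  have hc : Continuous fun y : ℝ => ee (θ * ((y + h) ^ k - y ^ k)) :=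
    continuous_ee.comp (by fun_prop)
  have htriv : ∀ c : ℝ, 0 ≤ c → ‖∫ y in (0 : ℝ)..c, ee (θ * ((y + h) ^ k - y ^ k))‖ ≤ c := by
    intro c hc0
    have := intervalIntegral.norm_integral_le_of_norm_le_const (a := 0) (b := c)
      (f := fun y => ee (θ * ((y + h) ^ k - y ^ k))) (C := 1) (fun y _ => (norm_ee _).le)
    rwa [one_mul, sub_zero, abs_of_nonneg hc0] at this
  rcases le_or_gt b y₀ with hby | hby
  · exact (htriv b hb).trans (by linarith)
  · rw [← intervalIntegral.integral_add_adjacent_intervals (hc.intervalIntegrable 0 y₀)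
      (hc.intervalIntegrable y₀ b)]
    refine (norm_add_le _ _).trans ?_
    have h1 := htriv y₀ hy₀0.le
    have h2 := osc_diff (k := k) (by omega) hθ hh hy₀0 hby.le
    have h3 : 1 / (π * (|θ| * h * y₀ ^ (k - 2))) ≤ y₀ := by
      have h4 : |θ| * h * (y₀ ^ (k - 2) * y₀) = 1 := by
        rw [← pow_succ]
        have e : k - 2 + 1 = k - 1 := by omega
        rw [e, hy₀, ← Real.rpow_mul_natCast hth.le, Nat.cast_sub (by omega)]
        have e2 : -(1 / ((k : ℝ) - 1)) * ((k : ℝ) - (1 : ℕ)) = -1 := by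
          push_cast
          field_simp
        rw [e2, Real.rpow_neg_one]
        exact mul_inv_cancel₀ hth.ne'
      rw [div_le_iff₀ (by positivity)]
      calc (1 : ℝ) ≤ π * 1 := by linarith [Real.pi_gt_three]
        _ = π * (|θ| * h * (y₀ ^ (k - 2) * y₀)) := by rw [h4]
        _ = y₀ * (π * (|θ| * h * y₀ ^ (k - 2))) := by ring
    linarith

lemma sum_inv_sqrt (Y : ℕ) : ∑ h ∈ Finset.Ico 1 (Y + 1), (1 / Real.sqrt h) ≤ 2 * Real.sqrt Y := by
  induction Y with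
  | zero => simp
  | succ Y ih =>
    rw [Finset.sum_Ico_succ_top (by omega)]
    have h0 : (0 : ℝ) ≤ Y := Nat.cast_nonneg Y
    have h1 : 0 < Real.sqrt ((Y + 1 : ℕ) : ℝ) := Real.sqrt_pos.2 (by positivity)
    have h2 : Real.sqrt Y ≤ Real.sqrt ((Y + 1 : ℕ) : ℝ) := Real.sqrt_le_sqrt (by push_cast; linarith)
    have h3 : Real.sqrt Y ^ 2 = Y := Real.sq_sqrt h0
    have h4 : Real.sqrt ((Y + 1 : ℕ) : ℝ) ^ 2 = ((Y + 1 : ℕ) : ℝ) := Real.sq_sqrt (by positivity)
    have h5 : 1 / Real.sqrt ((Y + 1 : ℕ) : ℝ) ≤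
        2 * (Real.sqrt ((Y + 1 : ℕ) : ℝ) - Real.sqrt Y) := by
      rw [div_le_iff₀ h1]
      have h6 : 0 ≤ Real.sqrt Y := Real.sqrt_nonneg _
      push_cast at h4 ⊢
      nlinarith
    linarith

/-- bound for the mean square of the full sum -/
theorem mean_sq0_le {k Y : ℕ} (hk : 3 ≤ k) (hY : 1 ≤ Y) {θ : ℝ} (hθ : θ ≠ 0) :
    ∫ t in (0 : ℝ)..1, ‖S0 k Y θ t‖ ^ 2 ≤
      Y + 8 * (Y : ℝ) ^ 2 * (|θ| * (Y : ℝ) ^ k) ^ (-(1 / ((k : ℝ) - 1))) := by
  have hY0 : (0 : ℝ) < Y := by exact_mod_cast hY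
  have hθ' : 0 < |θ| := abs_pos.2 hθ
  have hk3 : (3 : ℝ) ≤ k := by exact_mod_cast hk
  have hk1 : (0 : ℝ) < (k : ℝ) - 1 := by linarith
  set β : ℝ := 1 / ((k : ℝ) - 1) with hβ
  have hβ0 : 0 < β := by positivity
  have hβ1 : β ≤ 1 / 2 := by
    rw [hβ, div_le_div_iff₀ hk1 (by norm_num)]
    linarith
  refine (mean_sq0 k Y θ).trans (add_le_add le_rfl ?_)
  have h1 : ∀ h ∈ Finset.Ico 1 Y,
      2 * ‖∫ y in (0 : ℝ)..((Y - h : ℕ) : ℝ), ee (θ * ((y + h) ^ k - y ^ k))‖ ≤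
        4 * (|θ| * Y) ^ (-β) * Real.sqrt Y * (1 / Real.sqrt h) := by
    intro h hh
    rw [Finset.mem_Ico] at hh
    have hh0 : (0 : ℝ) < h := by
      have : 0 < h := by omega
      exact_mod_cast this
    have h2 := osc_split hk hθ hh0 (Nat.cast_nonneg (Y - h))
    have h3 : (|θ| * (h : ℝ)) ^ (-β) ≤ (|θ| * Y) ^ (-β) * (Real.sqrt Y * (1 / Real.sqrt h)) := by
      have e1 : (h : ℝ) = Y * (h / Y) := by field_simp
      have e2 : (|θ| * (h : ℝ)) = (|θ| * Y) * (h / Y) := by field_simp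
      rw [e2, Real.mul_rpow (by positivity) (by positivity)]
      refine mul_le_mul_of_nonneg_left ?_ (by positivity)
      have e3 : Real.sqrt Y * (1 / Real.sqrt h) = ((h : ℝ) / Y) ^ (-(1 / 2 : ℝ)) := by
        rw [Real.rpow_neg (by positivity), ← Real.sqrt_eq_rpow, Real.sqrt_div' _ hY0.le, inv_div]
        ring
      rw [e3]
      refine Real.rpow_le_rpow_of_exponent_ge (by positivity) ?_ (by linarith)
      rw [div_le_one hY0]
      have : h ≤ Y := by omega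
      exact_mod_cast this
    calc 2 * ‖∫ y in (0 : ℝ)..((Y - h : ℕ) : ℝ), ee (θ * ((y + h) ^ k - y ^ k))‖ ≤
        2 * (2 * (|θ| * h) ^ (-β)) := mul_le_mul_of_nonneg_left h2 (by norm_num)
      _ ≤ 2 * (2 * ((|θ| * Y) ^ (-β) * (Real.sqrt Y * (1 / Real.sqrt h)))) := by
          refine mul_le_mul_of_nonneg_left ?_ (by norm_num)
          exact mul_le_mul_of_nonneg_left h3 (by norm_num)
      _ = _ := by ring
  refine (Finset.sum_le_sum h1).trans ?_
  rw [← Finset.mul_sum]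
  have h4 : ∑ h ∈ Finset.Ico 1 Y, (1 / Real.sqrt h) ≤ 2 * Real.sqrt Y := by
    refine le_trans ?_ (sum_inv_sqrt Y)
    refine Finset.sum_le_sum_of_subset_of_nonneg ?_ fun x _ _ => by positivity
    intro x hx
    rw [Finset.mem_Ico] at hx ⊢
    omega
  have h5 : (|θ| * (Y : ℝ)) ^ (-β) = Y * (|θ| * (Y : ℝ) ^ k) ^ (-β) := by
    have e1 : |θ| * (Y : ℝ) ^ k = (|θ| * Y) * (Y : ℝ) ^ (k - 1) := by
      rw [mul_assoc, ← pow_succ']
      congr 2
      omega
    rw [e1, Real.mul_rpow (x := |θ| * (Y : ℝ)) (y := (Y : ℝ) ^ (k - 1)) (by positivity)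
      (by positivity), ← Real.rpow_natCast (Y : ℝ) (k - 1),
      ← Real.rpow_mul hY0.le, Nat.cast_sub (by omega)]
    have e2 : ((k : ℝ) - (1 : ℕ)) * -β = -1 := by
      rw [hβ]
      push_cast
      field_simp
    rw [e2, Real.rpow_neg_one]
    field_simp
  have h6 : 0 ≤ 4 * (|θ| * (Y : ℝ)) ^ (-β) * Real.sqrt Y := by positivity
  calc 4 * (|θ| * (Y : ℝ)) ^ (-β) * Real.sqrt Y * ∑ h ∈ Finset.Ico 1 Y, (1 / Real.sqrt h) ≤
      4 * (|θ| * (Y : ℝ)) ^ (-β) * Real.sqrt Y * (2 * Real.sqrt Y) :=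
        mul_le_mul_of_nonneg_left h4 h6
    _ = 8 * (|θ| * (Y : ℝ)) ^ (-β) * (Real.sqrt Y * Real.sqrt Y) := by ring
    _ = 8 * (Y : ℝ) ^ 2 * (|θ| * (Y : ℝ) ^ k) ^ (-β) := by
        rw [Real.mul_self_sqrt hY0.le, h5]
        ring

end Pool.Agent.Q154.War
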