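import Pool.Agent.Q154.War.Full
import Pool.Agent.Q154.War.Base

/-!
# Exponential sums over all integers `m` with `|m + t| < Y`
-/

set_option autoImplicit false
set_option linter.unusedSectionVars false

open MeasureTheory Set Finset FourierTransform
open scoped Real

namespace Pool.Agent.Q154.War

lemma sum_Ico_symm {E : Type*} [AddCommMonoid E] (f : ℤ → E) (Y : ℕ) :
    ∑ m ∈ Finset.Ico (-(Y : ℤ)) Y, f m =
      ∑ m ∈ range Y, f m + ∑ m ∈ range Y, f (-1 - (m : ℤ)) := by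
  induction Y with
  | zero => simp
  | succ Y ih =>
    have e : Finset.Ico (-((Y + 1 : ℕ) : ℤ)) ((Y + 1 : ℕ) : ℤ) =
        insert (Y : ℤ) (insert (-1 - (Y : ℤ)) (Finset.Ico (-(Y : ℤ)) Y)) := by
      ext m
      simp only [Finset.mem_Ico, Finset.mem_insert]
      push_cast
      omega
    rw [e, Finset.sum_insert, Finset.sum_insert, ih, Finset.sum_range_succ, Finset.sum_range_succ]
    · abel
    · simp only [Finset.mem_Ico]
      omega
    · simp only [Finset.mem_Ico, Finset.mem_insert]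
      omega

/-- the exponential sum over integers -/
noncomputable def Sz (k Y : ℕ) (θ t : ℝ) : ℂ :=
  ∑ m ∈ Finset.Ico (-(Y : ℤ)) Y, ee (θ * |(m : ℝ) + t| ^ k)

/-- the same for `t ∈ [0,1]` -/
noncomputable def Sf (k Y : ℕ) (θ t : ℝ) : ℂ := S0 k Y θ t + S0 k Y θ (1 - t)

lemma Sz_eq (k Y : ℕ) (θ : ℝ) {t : ℝ} (ht : t ∈ Set.Icc (0 : ℝ) 1) : Sz k Y θ t = Sf k Y θ t := by
  unfold Sz Sf S0
  rw [sum_Ico_symm]
  congr 1
  · refine Finset.sum_congr rfl fun m _ => ?_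
    have hm : (0 : ℝ) ≤ m := Nat.cast_nonneg m
    rw [abs_of_nonneg]
    · push_cast
      rfl
    · push_cast
      linarith [ht.1]
  · refine Finset.sum_congr rfl fun m _ => ?_
    have hm : (0 : ℝ) ≤ m := Nat.cast_nonneg m
    rw [abs_of_nonpos]
    · congr 3
      push_cast
      ring
    · push_cast
      linarith [ht.2]

lemma norm_Sf_le (k Y : ℕ) (θ t : ℝ) : ‖Sf k Y θ t‖ ≤ 2 * Y := by
  unfold Sf
  refine (norm_add_le _ _).trans ?_
  linarith [norm_S0_le k Y θ t, norm_S0_le k Y θ (1 - t)]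

lemma continuous_Sf_right (k Y : ℕ) (θ : ℝ) : Continuous fun t => Sf k Y θ t := by
  unfold Sf
  have h := continuous_S0_right k Y θ
  exact h.add (h.comp (by fun_prop))

/-- mean square and mean -/
noncomputable def Af (k Y : ℕ) (θ : ℝ) : ℝ := ∫ t in (0 : ℝ)..1, ‖Sf k Y θ t‖ ^ 2

noncomputable def If (k Y : ℕ) (θ : ℝ) : ℂ := ∫ t in (0 : ℝ)..1, Sf k Y θ t

lemma Af_le_four (k Y : ℕ) (θ : ℝ) : Af k Y θ ≤ 4 * ∫ t in (0 : ℝ)..1, ‖S0 k Y θ t‖ ^ 2 := by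
  have hc := continuous_S0_right k Y θ
  have hc2 : Continuous fun t => ‖S0 k Y θ t‖ ^ 2 := hc.norm.pow 2
  have hc3 : Continuous fun t : ℝ => ‖S0 k Y θ (1 - t)‖ ^ 2 := hc2.comp (by fun_prop)
  have h1 : Af k Y θ ≤ ∫ t in (0 : ℝ)..1,
      (2 * ‖S0 k Y θ t‖ ^ 2 + 2 * ‖S0 k Y θ (1 - t)‖ ^ 2) := by
    unfold Af
    refine intervalIntegral.integral_mono_on zero_le_one ?_ ?_ ?_
    · exact ((continuous_Sf_right k Y θ).norm.pow 2).intervalIntegrable _ _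
    · exact ((hc2.const_mul 2).add (hc3.const_mul 2)).intervalIntegrable _ _
    · intro t _
      unfold Sf
      have h2 := norm_add_le (S0 k Y θ t) (S0 k Y θ (1 - t))
      have h3 : 0 ≤ ‖S0 k Y θ t + S0 k Y θ (1 - t)‖ := norm_nonneg _
      have h4 := pow_le_pow_left₀ h3 h2 2
      nlinarith [sq_nonneg (‖S0 k Y θ t‖ - ‖S0 k Y θ (1 - t)‖)]
  refine h1.trans_eq ?_
  rw [intervalIntegral.integral_add ((hc2.const_mul 2).intervalIntegrable _ _)
    ((hc3.const_mul 2).intervalIntegrable _ _), intervalIntegral.integral_const_mul,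
    intervalIntegral.integral_const_mul,
    intervalIntegral.integral_comp_sub_left (fun t => ‖S0 k Y θ t‖ ^ 2) 1]
  simp
  ring

lemma Af_nonneg (k Y : ℕ) (θ : ℝ) : 0 ≤ Af k Y θ := by
  unfold Af
  exact intervalIntegral.integral_nonneg zero_le_one fun t _ => by positivity

lemma Af_le_sq (k Y : ℕ) (θ : ℝ) : Af k Y θ ≤ 4 * (Y : ℝ) ^ 2 := by
  unfold Af
  have h1 : ∫ t in (0 : ℝ)..1, ‖Sf k Y θ t‖ ^ 2 ≤ ∫ _t in (0 : ℝ)..1, 4 * (Y : ℝ) ^ 2 := by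
    refine intervalIntegral.integral_mono_on zero_le_one ?_ ?_ ?_
    · exact ((continuous_Sf_right k Y θ).norm.pow 2).intervalIntegrable _ _
    · exact continuous_const.intervalIntegrable _ _
    · intro t _
      have h := norm_Sf_le k Y θ t
      have h0 : 0 ≤ ‖Sf k Y θ t‖ := norm_nonneg _
      calc ‖Sf k Y θ t‖ ^ 2 ≤ (2 * (Y : ℝ)) ^ 2 := pow_le_pow_left₀ h0 h 2
        _ = 4 * (Y : ℝ) ^ 2 := by ring
  simpa using h1

lemma norm_S0_sub_S0 {k Y : ℕ} (θ : ℝ) {s t : ℝ} (hs : s ∈ Set.Icc (0 : ℝ) 1)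
    (ht : t ∈ Set.Icc (0 : ℝ) 1) :
    ‖S0 k Y θ s - S0 k Y θ t‖ ≤ 2 * π * (|θ| * (Y : ℝ) ^ k) := by
  unfold S0
  rw [← Finset.sum_sub_distrib]
  refine (norm_sum_le _ _).trans ?_
  have h1 : ∀ x ∈ range Y,
      ‖ee (θ * ((x : ℝ) + s) ^ k) - ee (θ * ((x : ℝ) + t) ^ k)‖ ≤
        2 * π * |θ| * ((((x + 1 : ℕ) : ℝ)) ^ k - (x : ℝ) ^ k) := by
    intro x _
    refine (norm_ee_sub _ _).trans ?_
    rw [← mul_sub, abs_mul, ← mul_assoc]
    refine mul_le_mul_of_nonneg_left ?_ (by positivity)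
    have hx : (0 : ℝ) ≤ x := Nat.cast_nonneg x
    have b1 : ∀ r ∈ Set.Icc (0 : ℝ) 1, (x : ℝ) ^ k ≤ ((x : ℝ) + r) ^ k ∧
        ((x : ℝ) + r) ^ k ≤ (((x + 1 : ℕ) : ℝ)) ^ k := by
      intro r hr
      constructor
      · exact pow_le_pow_left₀ hx (by linarith [hr.1]) _
      · push_cast
        exact pow_le_pow_left₀ (by linarith [hr.1]) (by linarith [hr.2]) _
    have b2 := b1 s hs
    have b3 := b1 t ht
    rw [abs_le]
    constructor <;> linarith [b2.1, b2.2, b3.1, b3.2]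
  refine (Finset.sum_le_sum h1).trans ?_
  rw [← Finset.mul_sum, mul_assoc (2 * π) |θ| ((Y : ℝ) ^ k) |>.symm]
  refine mul_le_mul_of_nonneg_left ?_ (by positivity)
  have h2 : ∑ x ∈ range Y, ((((x + 1 : ℕ) : ℝ)) ^ k - (x : ℝ) ^ k) =
      (Y : ℝ) ^ k - ((0 : ℕ) : ℝ) ^ k := by
    rw [Finset.sum_range_sub (fun x : ℕ => (x : ℝ) ^ k)]
  rw [h2]
  have : (0 : ℝ) ≤ ((0 : ℕ) : ℝ) ^ k := by positivity
  linarith

lemma norm_Sf_sub_If {k Y : ℕ} (θ : ℝ) {s : ℝ} (hs : s ∈ Set.Icc (0 : ℝ) 1) :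
    ‖Sf k Y θ s - If k Y θ‖ ≤ 4 * π * (|θ| * (Y : ℝ) ^ k) := by
  have h1 : Sf k Y θ s - If k Y θ = ∫ t in (0 : ℝ)..1, (Sf k Y θ s - Sf k Y θ t) := by
    rw [intervalIntegral.integral_sub]
    · simp [If]
    · exact continuous_const.intervalIntegrable _ _
    · exact (continuous_Sf_right k Y θ).intervalIntegrable _ _
  rw [h1]
  have h2 := intervalIntegral.norm_integral_le_of_norm_le_const (a := 0) (b := 1)
    (f := fun t => Sf k Y θ s - Sf k Y θ t) (C := 4 * π * (|θ| * (Y : ℝ) ^ k)) ?_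
  · simpa using h2
  · intro t ht
    rw [uIoc_of_le zero_le_one] at ht
    have ht' : t ∈ Set.Icc (0 : ℝ) 1 := ⟨ht.1.le, ht.2⟩
    have hs' : 1 - s ∈ Set.Icc (0 : ℝ) 1 := ⟨by linarith [hs.2], by linarith [hs.1]⟩
    have ht'' : 1 - t ∈ Set.Icc (0 : ℝ) 1 := ⟨by linarith [ht'.2], by linarith [ht'.1]⟩
    have e : Sf k Y θ s - Sf k Y θ t =
        (S0 k Y θ s - S0 k Y θ t) + (S0 k Y θ (1 - s) - S0 k Y θ (1 - t)) := by
      unfold Sf
      ring
    rw [e]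
    refine (norm_add_le _ _).trans ?_
    have h3 := norm_S0_sub_S0 (k := k) (Y := Y) θ hs ht'
    have h4 := norm_S0_sub_S0 (k := k) (Y := Y) θ hs' ht''
    linarith

lemma Af_sub (k Y : ℕ) (θ : ℝ) :
    Af k Y θ - ‖If k Y θ‖ ^ 2 = ∫ t in (0 : ℝ)..1, ‖Sf k Y θ t - If k Y θ‖ ^ 2 := by
  have hc := continuous_Sf_right k Y θ
  have hi : Integrable (fun t => Sf k Y θ t) ν1 := by
    refine Integrable.of_bound hc.aestronglyMeasurable (2 * Y) ?_
    exact Filter.Eventually.of_forall fun t => norm_Sf_le k Y θ t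
  have hi2 : Integrable (fun t => ‖Sf k Y θ t‖ ^ 2) ν1 := by
    refine Integrable.of_bound (hc.norm.pow 2).aestronglyMeasurable ((2 * Y) ^ 2) ?_
    refine Filter.Eventually.of_forall fun t => ?_
    rw [Real.norm_eq_abs, abs_of_nonneg (by positivity)]
    exact pow_le_pow_left₀ (norm_nonneg _) (norm_Sf_le k Y θ t) 2
  have h := variance_complex hi hi2
  rw [integral_ν1, integral_ν1, integral_ν1] at h
  exact h.symm

lemma norm_If_sq_le (k Y : ℕ) (θ : ℝ) : ‖If k Y θ‖ ^ 2 ≤ Af k Y θ := by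
  have h := Af_sub k Y θ
  have h2 : 0 ≤ ∫ t in (0 : ℝ)..1, ‖Sf k Y θ t - If k Y θ‖ ^ 2 :=
    intervalIntegral.integral_nonneg zero_le_one fun t _ => by positivity
  linarith

lemma Af_sub_le (k Y : ℕ) (θ : ℝ) :
    Af k Y θ - ‖If k Y θ‖ ^ 2 ≤ (4 * π) ^ 2 * (|θ| * (Y : ℝ) ^ k) ^ 2 := by
  rw [Af_sub]
  have h1 : ∫ t in (0 : ℝ)..1, ‖Sf k Y θ t - If k Y θ‖ ^ 2 ≤
      ∫ _t in (0 : ℝ)..1, (4 * π * (|θ| * (Y : ℝ) ^ k)) ^ 2 := by
    refine intervalIntegral.integral_mono_on zero_le_one ?_ ?_ ?_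
    · exact (((continuous_Sf_right k Y θ).sub continuous_const).norm.pow 2).intervalIntegrable _ _
    · exact continuous_const.intervalIntegrable _ _
    · intro t ht
      exact pow_le_pow_left₀ (norm_nonneg _) (norm_Sf_sub_If θ ht) 2
  refine h1.trans_eq ?_
  simp only [intervalIntegral.integral_const, sub_zero, one_smul]
  ring

lemma Af_le {k Y : ℕ} (hk : 3 ≤ k) (hY : 1 ≤ Y) (θ : ℝ) :
    Af k Y θ ≤ 64 * (Y + (Y : ℝ) ^ 2 * (1 + |θ| * (Y : ℝ) ^ k) ^ (-(1 / ((k : ℝ) - 1)))) := by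
  have hY0 : (0 : ℝ) < Y := by exact_mod_cast hY
  have hk3 : (3 : ℝ) ≤ k := by exact_mod_cast hk
  have hk1 : (0 : ℝ) < (k : ℝ) - 1 := by linarith
  set β : ℝ := 1 / ((k : ℝ) - 1) with hβ
  have hβ0 : 0 < β := by positivity
  have hβ1 : β ≤ 1 := by
    rw [hβ, div_le_iff₀ hk1]
    linarith
  set u := |θ| * (Y : ℝ) ^ k with hu
  have hu0 : 0 ≤ u := by positivity
  have h2β : (2 : ℝ) ^ β ≤ 2 := by
    calc (2 : ℝ) ^ β ≤ 2 ^ (1 : ℝ) := Real.rpow_le_rpow_of_exponent_le (by norm_num) hβ1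
      _ = 2 := Real.rpow_one 2
  have h2β0 : 0 < (2 : ℝ) ^ β := by positivity
  rcases le_or_gt u 1 with h | h
  · have h1 := Af_le_sq k Y θ
    have h2 : (1 / 2 : ℝ) ≤ (1 + u) ^ (-β) := by
      calc (1 / 2 : ℝ) ≤ 1 / 2 ^ β := one_div_le_one_div_of_le h2β0 h2β
        _ = 2 ^ (-β) := by rw [Real.rpow_neg (by norm_num), one_div]
        _ ≤ (1 + u) ^ (-β) :=
            Real.rpow_le_rpow_of_nonpos (by linarith) (by linarith) (by linarith)
    have h3 : (Y : ℝ) ^ 2 * (1 / 2) ≤ (Y : ℝ) ^ 2 * (1 + u) ^ (-β) :=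
      mul_le_mul_of_nonneg_left h2 (by positivity)
    nlinarith [sq_nonneg (Y : ℝ)]
  · have hθ : θ ≠ 0 := by
      rintro rfl
      simp at hu
      linarith
    have h1 := mean_sq0_le hk hY hθ
    have h4 := Af_le_four k Y θ
    have h5 : u ^ (-β) ≤ 2 * (1 + u) ^ (-β) := by
      have e : (1 + u) ≤ 2 * u := by linarith
      have h6 : (2 * u) ^ (-β) ≤ (1 + u) ^ (-β) :=
        Real.rpow_le_rpow_of_nonpos (by linarith) e (by linarith)
      rw [Real.mul_rpow (by norm_num) hu0, Real.rpow_neg (by norm_num)] at h6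
      have h7 : u ^ (-β) = 2 ^ β * ((2 ^ β)⁻¹ * u ^ (-β)) := by
        field_simp
      rw [h7]
      have h8 : 0 ≤ (1 + u) ^ (-β) := by positivity
      calc (2 : ℝ) ^ β * ((2 ^ β)⁻¹ * u ^ (-β)) ≤ 2 ^ β * (1 + u) ^ (-β) :=
            mul_le_mul_of_nonneg_left h6 h2β0.le
        _ ≤ 2 * (1 + u) ^ (-β) := mul_le_mul_of_nonneg_right h2β h8
    have h9 : (Y : ℝ) ^ 2 * u ^ (-β) ≤ (Y : ℝ) ^ 2 * (2 * (1 + u) ^ (-β)) :=
      mul_le_mul_of_nonneg_left h5 (by positivity)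
    have h10 : 0 ≤ (Y : ℝ) ^ 2 * (1 + u) ^ (-β) := by positivity
    nlinarith

end Pool.Agent.Q154.War
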