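import Pool.Agent.Q154.War.FullZ

/-!
# The standard deviation of the product at frequency `θ`
-/

set_option autoImplicit false
set_option linter.unusedSectionVars false

open MeasureTheory Set Finset FourierTransform
open scoped Real

namespace Pool.Agent.Q154.War

/-- the exponent -/
noncomputable def sk (k : ℕ) : ℝ := 1 / (2 * ((k : ℝ) - 1))

lemma sk_pos {k : ℕ} (hk : 3 ≤ k) : 0 < sk k := by
  have hk3 : (3 : ℝ) ≤ k := by exact_mod_cast hk
  unfold sk
  have : (0 : ℝ) < 2 * ((k : ℝ) - 1) := by linarith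
  positivity

lemma sk_le {k : ℕ} (hk : 3 ≤ k) : sk k ≤ 1 / 4 := by
  have hk3 : (3 : ℝ) ≤ k := by exact_mod_cast hk
  unfold sk
  rw [div_le_div_iff₀ (by linarith) (by norm_num)]
  linarith

/-- the constant -/
noncomputable def Gc (n : ℕ) : ℝ :=
  4 * Real.sqrt (n * (4 * π) ^ 2 * 128 ^ (n - 1)) + Real.sqrt (128 ^ n)

lemma Gc_nonneg (n : ℕ) : 0 ≤ Gc n := by
  unfold Gc
  positivity

lemma num_g {A B u y s : ℝ} {n : ℕ} (hB : 0 ≤ B) (hAB : B ≤ A) (hu : 0 ≤ u) (hy : 1 ≤ y)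
    (hs0 : 0 < s) (hs1 : s ≤ 1) (hn : 1 ≤ n) (hsn : 1 + 2 * s ≤ s * n)
    (h1 : A ≤ 64 * (y + y ^ 2 * (1 + u) ^ (-(2 * s)))) (h2 : A - B ≤ (4 * π) ^ 2 * u ^ 2) :
    Real.sqrt (A ^ n - B ^ n) ≤
      Gc n * (y ^ ((n : ℝ) / 2) + y ^ ((n : ℝ) - s / 4) * (1 + u) ^ (-(1 + s))) := by
  have hA : 0 ≤ A := hB.trans hAB
  have hy0 : 0 < y := by linarith
  have hu1 : 0 < 1 + u := by linarith
  have hX1 : 0 ≤ y ^ ((n : ℝ) / 2) := by positivity
  have hX2 : 0 ≤ y ^ ((n : ℝ) - s / 4) * (1 + u) ^ (-(1 + s)) := by positivity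
  rcases le_or_gt u (y ^ (1 / 4 : ℝ)) with h | h
  · -- small frequencies
    have e1 : A ≤ 128 * y ^ 2 := by
      have h3 : (1 + u) ^ (-(2 * s)) ≤ 1 :=
        Real.rpow_le_one_of_one_le_of_nonpos (by linarith) (by linarith)
      have h4 : y ^ 2 * (1 + u) ^ (-(2 * s)) ≤ y ^ 2 := mul_le_of_le_one_right (by positivity) h3
      nlinarith
    have e2 : A ^ n - B ^ n ≤ (n * (4 * π) ^ 2 * 128 ^ (n - 1)) * (u * y ^ (n - 1)) ^ 2 := by
      refine (pow_sub_pow_le' hB hAB n).trans ?_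
      have h3 : A ^ (n - 1) ≤ (128 * y ^ 2) ^ (n - 1) := pow_le_pow_left₀ hA e1 _
      calc n * (A - B) * A ^ (n - 1) ≤ n * ((4 * π) ^ 2 * u ^ 2) * (128 * y ^ 2) ^ (n - 1) := by
            refine mul_le_mul ?_ h3 (by positivity) (by positivity)
            exact mul_le_mul_of_nonneg_left h2 (by positivity)
        _ = (n * (4 * π) ^ 2 * 128 ^ (n - 1)) * (u * y ^ (n - 1)) ^ 2 := by
            rw [mul_pow 128 (y ^ 2) (n - 1), ← pow_mul, mul_comm 2 (n - 1), pow_mul]
            ring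
    have e3 : u * y ^ (n - 1) ≤ 4 * (y ^ ((n : ℝ) - s / 4) * (1 + u) ^ (-(1 + s))) := by
      have h3 : (1 + u) ^ (1 + s) ≤ 4 * y ^ ((1 + s) / 4) := by
        have h4 : 1 + u ≤ 2 * y ^ (1 / 4 : ℝ) := by
          have : 1 ≤ y ^ (1 / 4 : ℝ) := Real.one_le_rpow hy (by norm_num)
          linarith
        calc (1 + u) ^ (1 + s) ≤ (2 * y ^ (1 / 4 : ℝ)) ^ (1 + s) :=
              Real.rpow_le_rpow hu1.le h4 (by linarith)
          _ = 2 ^ (1 + s) * y ^ ((1 + s) / 4) := by
              rw [Real.mul_rpow (by norm_num) (by positivity), ← Real.rpow_mul hy0.le]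
              congr 2
              ring
          _ ≤ 4 * y ^ ((1 + s) / 4) := by
              refine mul_le_mul_of_nonneg_right ?_ (by positivity)
              calc (2 : ℝ) ^ (1 + s) ≤ 2 ^ (2 : ℝ) :=
                    Real.rpow_le_rpow_of_exponent_le (by norm_num) (by linarith)
                _ = 4 := by norm_num
      have h5 : 1 ≤ 4 * y ^ ((1 + s) / 4) * (1 + u) ^ (-(1 + s)) := by
        rw [Real.rpow_neg hu1.le]
        rw [← div_eq_mul_inv, le_div_iff₀ (by positivity), one_mul]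
        exact h3
      calc u * y ^ (n - 1) ≤ y ^ (1 / 4 : ℝ) * y ^ (n - 1) :=
            mul_le_mul_of_nonneg_right h (by positivity)
        _ = y ^ ((n : ℝ) - 3 / 4) := by
            rw [← Real.rpow_natCast y (n - 1), ← Real.rpow_add hy0, Nat.cast_sub hn]
            congr 1
            push_cast
            ring
        _ ≤ y ^ ((n : ℝ) - 3 / 4) * (4 * y ^ ((1 + s) / 4) * (1 + u) ^ (-(1 + s))) :=
            le_mul_of_one_le_right (by positivity) h5
        _ = 4 * (y ^ ((n : ℝ) - 3 / 4 + (1 + s) / 4) * (1 + u) ^ (-(1 + s))) := by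
            rw [Real.rpow_add hy0]
            ring
        _ ≤ 4 * (y ^ ((n : ℝ) - s / 4) * (1 + u) ^ (-(1 + s))) := by
            refine mul_le_mul_of_nonneg_left ?_ (by norm_num)
            refine mul_le_mul_of_nonneg_right ?_ (by positivity)
            exact Real.rpow_le_rpow_of_exponent_le hy (by linarith)
    have e4 : Real.sqrt (A ^ n - B ^ n) ≤
        Real.sqrt (n * (4 * π) ^ 2 * 128 ^ (n - 1)) * (u * y ^ (n - 1)) := by
      calc Real.sqrt (A ^ n - B ^ n) ≤
          Real.sqrt ((n * (4 * π) ^ 2 * 128 ^ (n - 1)) * (u * y ^ (n - 1)) ^ 2) :=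
            Real.sqrt_le_sqrt e2
        _ = _ := by
            rw [Real.sqrt_mul (by positivity), Real.sqrt_sq (by positivity)]
    have hsq := Real.sqrt_nonneg (n * (4 * π) ^ 2 * 128 ^ (n - 1) : ℝ)
    have hsq2 := Real.sqrt_nonneg ((128 : ℝ) ^ n)
    calc Real.sqrt (A ^ n - B ^ n) ≤
        Real.sqrt (n * (4 * π) ^ 2 * 128 ^ (n - 1)) * (u * y ^ (n - 1)) := e4
      _ ≤ Real.sqrt (n * (4 * π) ^ 2 * 128 ^ (n - 1)) *
          (4 * (y ^ ((n : ℝ) - s / 4) * (1 + u) ^ (-(1 + s)))) :=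
            mul_le_mul_of_nonneg_left e3 hsq
      _ ≤ Gc n * (y ^ ((n : ℝ) / 2) + y ^ ((n : ℝ) - s / 4) * (1 + u) ^ (-(1 + s))) := by
          unfold Gc
          nlinarith [mul_nonneg hsq hX1, mul_nonneg hsq2 hX1, mul_nonneg hsq2 hX2]
  · -- large frequencies
    set v := (1 + u) ^ (-(2 * s)) with hv
    have hv0 : 0 < v := by positivity
    have e1 : A ^ n ≤ 128 ^ n * (y ^ n + (y ^ 2 * v) ^ n) := by
      have h3 : A ≤ 128 * max y (y ^ 2 * v) := by
        refine h1.trans ?_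
        have := le_max_left y (y ^ 2 * v)
        have := le_max_right y (y ^ 2 * v)
        linarith
      calc A ^ n ≤ (128 * max y (y ^ 2 * v)) ^ n := pow_le_pow_left₀ hA h3 n
        _ = 128 ^ n * (max y (y ^ 2 * v)) ^ n := mul_pow _ _ _
        _ ≤ 128 ^ n * (y ^ n + (y ^ 2 * v) ^ n) := by
            refine mul_le_mul_of_nonneg_left ?_ (by positivity)
            rcases max_choice y (y ^ 2 * v) with h4 | h4
            · rw [h4]
              have : 0 ≤ (y ^ 2 * v) ^ n := by positivity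
              linarith
            · rw [h4]
              have : 0 ≤ y ^ n := by positivity
              linarith
    have e2 : Real.sqrt (A ^ n - B ^ n) ≤
        Real.sqrt (128 ^ n) * (Real.sqrt (y ^ n) + Real.sqrt ((y ^ 2 * v) ^ n)) := by
      have hBn : 0 ≤ B ^ n := by positivity
      calc Real.sqrt (A ^ n - B ^ n) ≤ Real.sqrt (128 ^ n * (y ^ n + (y ^ 2 * v) ^ n)) :=
            Real.sqrt_le_sqrt (by linarith)
        _ = Real.sqrt (128 ^ n) * Real.sqrt (y ^ n + (y ^ 2 * v) ^ n) :=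
            Real.sqrt_mul (by positivity) _
        _ ≤ _ := by
            refine mul_le_mul_of_nonneg_left ?_ (Real.sqrt_nonneg _)
            rw [Real.sqrt_le_iff]
            have f1 := Real.sqrt_nonneg (y ^ n)
            have f2 := Real.sqrt_nonneg ((y ^ 2 * v) ^ n)
            have f3 : Real.sqrt (y ^ n) ^ 2 = y ^ n := Real.sq_sqrt (by positivity)
            have f4 : Real.sqrt ((y ^ 2 * v) ^ n) ^ 2 = (y ^ 2 * v) ^ n :=
              Real.sq_sqrt (by positivity)
            refine ⟨by positivity, ?_⟩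
            nlinarith [mul_nonneg f1 f2]
    have e3 : Real.sqrt (y ^ n) = y ^ ((n : ℝ) / 2) := by
      rw [Real.sqrt_eq_rpow, ← Real.rpow_natCast y n, ← Real.rpow_mul hy0.le]
      congr 1
      ring
    have e4 : Real.sqrt ((y ^ 2 * v) ^ n) ≤ y ^ ((n : ℝ) - s / 4) * (1 + u) ^ (-(1 + s)) := by
      have h3 : Real.sqrt ((y ^ 2 * v) ^ n) = y ^ (n : ℝ) * (1 + u) ^ (-(s * n)) := by
        rw [mul_pow, Real.sqrt_mul (by positivity)]
        congr 1
        · rw [← pow_mul, mul_comm 2 n, pow_mul, Real.sqrt_sq (by positivity), Real.rpow_natCast]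
        · rw [Real.sqrt_eq_rpow, ← Real.rpow_natCast v n, ← Real.rpow_mul hv0.le, hv,
            ← Real.rpow_mul hu1.le]
          congr 1
          ring
      rw [h3]
      have h4 : (1 + u) ^ (-(s * n)) ≤ (1 + u) ^ (-s) * (1 + u) ^ (-(1 + s)) := by
        rw [← Real.rpow_add hu1]
        exact Real.rpow_le_rpow_of_exponent_le (by linarith) (by linarith)
      have h5 : (1 + u) ^ (-s) ≤ y ^ (-(s / 4)) := by
        have h6 : y ^ (1 / 4 : ℝ) ≤ 1 + u := by linarith
        calc (1 + u) ^ (-s) ≤ (y ^ (1 / 4 : ℝ)) ^ (-s) :=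
              Real.rpow_le_rpow_of_nonpos (by positivity) h6 (by linarith)
          _ = y ^ (-(s / 4)) := by
              rw [← Real.rpow_mul hy0.le]
              congr 1
              ring
      calc y ^ (n : ℝ) * (1 + u) ^ (-(s * n)) ≤
          y ^ (n : ℝ) * (y ^ (-(s / 4)) * (1 + u) ^ (-(1 + s))) := by
            refine mul_le_mul_of_nonneg_left (h4.trans ?_) (by positivity)
            exact mul_le_mul_of_nonneg_right h5 (by positivity)
        _ = y ^ ((n : ℝ) - s / 4) * (1 + u) ^ (-(1 + s)) := by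
            rw [← mul_assoc, ← Real.rpow_add hy0]
            congr 2
    have hsq := Real.sqrt_nonneg (n * (4 * π) ^ 2 * 128 ^ (n - 1) : ℝ)
    have hsq2 := Real.sqrt_nonneg ((128 : ℝ) ^ n)
    calc Real.sqrt (A ^ n - B ^ n) ≤
        Real.sqrt (128 ^ n) * (Real.sqrt (y ^ n) + Real.sqrt ((y ^ 2 * v) ^ n)) := e2
      _ ≤ Real.sqrt (128 ^ n) *
          (y ^ ((n : ℝ) / 2) + y ^ ((n : ℝ) - s / 4) * (1 + u) ^ (-(1 + s))) := by
          refine mul_le_mul_of_nonneg_left ?_ hsq2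
          rw [e3]
          linarith
      _ ≤ _ := by
          unfold Gc
          nlinarith [mul_nonneg hsq hX1, mul_nonneg hsq hX2]

theorem g_bound {k n Y : ℕ} (hk : 3 ≤ k) (hn : 2 * k + 1 ≤ n) (hY : 1 ≤ Y) (θ : ℝ) :
    Real.sqrt (Af k Y θ ^ n - (‖If k Y θ‖ ^ 2) ^ n) ≤
      Gc n * ((Y : ℝ) ^ ((n : ℝ) / 2) +
        (Y : ℝ) ^ ((n : ℝ) - sk k / 4) * (1 + |θ| * (Y : ℝ) ^ k) ^ (-(1 + sk k))) := by
  have hk3 : (3 : ℝ) ≤ k := by exact_mod_cast hk
  have hs := sk_pos hk
  have hs4 := sk_le hk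
  refine num_g (by positivity) (norm_If_sq_le k Y θ) (by positivity) (by exact_mod_cast hY) hs
    (by linarith) (by omega) ?_ ?_ (Af_sub_le k Y θ)
  · have hn' : (2 * (k : ℝ) + 1) ≤ n := by exact_mod_cast hn
    have h1 : sk k * (2 * k + 1) ≤ sk k * n := mul_le_mul_of_nonneg_left hn' hs.le
    refine le_trans ?_ h1
    have h2 : sk k * (2 * ((k : ℝ) - 1)) = 1 := by
      unfold sk
      have : (0 : ℝ) < 2 * ((k : ℝ) - 1) := by linarith
      exact one_div_mul_cancel this.ne'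
    nlinarith
  · have h := Af_le hk hY θ
    have e : -(2 * sk k) = -(1 / ((k : ℝ) - 1)) := by
      unfold sk
      have : ((k : ℝ) - 1) ≠ 0 := by linarith
      field_simp
    rw [e]
    exact h

end Pool.Agent.Q154.War
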