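import Pool.Agent.Q154.War.Win

/-!
# The asymptotic formula, third part
-/

set_option autoImplicit false
set_option linter.unusedSectionVars false

open MeasureTheory Set Finset Filter
open scoped Real Topology

namespace Pool.Agent.Q154.War

/-- the ratio of the counting function and its expected order of magnitude -/
noncomputable def ratio (k n : ℕ) (κ γ : ℝ) (α : Fin n → ℝ) (N : ℝ) : ℝ :=
  ((Lat k n α N (κ * N ^ (-γ))).ncard : ℝ) / (κ * N ^ ((n : ℝ) / k - 1 - γ))

lemma tendsto_err {C κ e e' : ℝ} (h : e' < e) :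
    Tendsto (fun N : ℝ => C * N ^ e' / (κ * N ^ e)) atTop (𝓝 0) := by
  have h1 := (tendsto_rpow_neg_atTop (by linarith : (0 : ℝ) < e - e')).const_mul (C / κ)
  rw [mul_zero] at h1
  refine h1.congr' ?_
  filter_upwards [eventually_gt_atTop 0] with N hN
  have h2 : N ^ (-(e - e')) = N ^ e' / N ^ e := by
    rw [← Real.rpow_sub hN]
    congr 1
    ring
  rw [h2]
  ring

theorem ae_tendsto {k n : ℕ} (hk : 3 ≤ k) (hn : 2 * k + 1 ≤ n) {κ γ : ℝ} (hκ : 0 < κ)
    (hγ : 0 ≤ γ) (hγ2 : k * γ < n / 2 - k) :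
    ∀ᵐ α ∂(νn n), Tendsto (ratio k n κ γ α) atTop (𝓝 (2 * (n / k) * vc k n)) := by
  set L : ℝ := 2 * (n / k) * vc k n with hL
  set ε : ℕ → ℝ := fun l => 1 / ((l : ℝ) + 1) / 2 with hε
  set A : ℕ → ℝ := fun l => 1 + 1 / ((l : ℝ) + 1) with hA
  have hpos : ∀ l : ℕ, 0 < 1 / ((l : ℝ) + 1) := fun l => by positivity
  have hle : ∀ l : ℕ, 1 / ((l : ℝ) + 1) ≤ 1 := fun l => by
    rw [div_le_one (by positivity)]
    linarith [(Nat.cast_nonneg l : (0 : ℝ) ≤ l)]
  have hεl : ∀ l, 0 < ε l := fun l => half_pos (hpos l)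
  have hεl1 : ∀ l, ε l < 1 := fun l => by
    have := hle l
    simp only [hε]
    linarith
  have hAl : ∀ l, 1 < A l := fun l => by
    have := hpos l
    simp only [hA]
    linarith
  have h0 : Tendsto (fun l : ℕ => 1 / ((l : ℝ) + 1)) atTop (𝓝 0) :=
    tendsto_one_div_add_atTop_nhds_zero_nat
  have hεt : Tendsto ε atTop (𝓝 0) := by
    have := h0.div_const 2
    rwa [zero_div] at this
  have hAt : Tendsto A atTop (𝓝 1) := by
    have := h0.const_add 1
    rwa [add_zero] at this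
  have hU : Tendsto (fun l => L * ((1 + ε l) * (A l) ^ γ)) atTop (𝓝 L) := by
    have h1 : Tendsto (fun l => (A l) ^ γ) atTop (𝓝 (1 ^ γ)) := hAt.rpow_const (Or.inl one_ne_zero)
    rw [Real.one_rpow] at h1
    have h2 := ((hεt.const_add 1).mul h1).const_mul L
    rwa [add_zero, one_mul, mul_one] at h2
  have hD : Tendsto (fun l => L * ((1 - ε l) * (A l) ^ (-γ))) atTop (𝓝 L) := by
    have h1 : Tendsto (fun l => (A l) ^ (-γ)) atTop (𝓝 (1 ^ (-γ))) :=
      hAt.rpow_const (Or.inl one_ne_zero)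
    rw [Real.one_rpow] at h1
    have h2 := ((hεt.const_sub 1).mul h1).const_mul L
    rwa [sub_zero, one_mul, mul_one] at h2
  have hall := ae_all_iff.2 fun l => ae_window hk hn hκ hγ hγ2 (hAl l) (hεl l) (hεl1 l)
  filter_upwards [hall] with α hα
  have hk1 : 1 ≤ k := by omega
  have hkn : k ≤ n := by omega
  rw [tendsto_order]
  constructor
  · intro a' ha'
    obtain ⟨l, hl⟩ := (hD.eventually (lt_mem_nhds ha')).exists
    obtain ⟨C, e', he', hC, hw⟩ := hα l
    have hc : 0 < (1 - ε l) * (A l) ^ (-γ) :=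
      mul_pos (by linarith [hεl1 l]) (Real.rpow_pos_of_pos (by linarith [hAl l]) _)
    have h1 := (tendsto_sh hk1 hkn hκ hγ hc).sub (tendsto_err (C := C) (κ := κ) he')
    rw [sub_zero] at h1
    filter_upwards [h1.eventually (lt_mem_nhds hl), hw, eventually_gt_atTop 0] with N h2 h3 h4
    refine h2.trans_le ?_
    unfold ratio
    rw [← sub_div]
    exact div_le_div_of_nonneg_right h3.1 (by positivity)
  · intro a' ha'
    obtain ⟨l, hl⟩ := (hU.eventually (gt_mem_nhds ha')).exists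
    obtain ⟨C, e', he', hC, hw⟩ := hα l
    have hc : 0 < (1 + ε l) * (A l) ^ γ :=
      mul_pos (by linarith [hεl l]) (Real.rpow_pos_of_pos (by linarith [hAl l]) _)
    have h1 := (tendsto_sh hk1 hkn hκ hγ hc).add (tendsto_err (C := C) (κ := κ) he')
    rw [add_zero] at h1
    filter_upwards [h1.eventually (gt_mem_nhds hl), hw, eventually_gt_atTop 0] with N h2 h3 h4
    refine lt_of_le_of_lt ?_ h2
    unfold ratio
    rw [← add_div]
    exact div_le_div_of_nonneg_right h3.2 (by positivity)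

lemma Lat_shift (k n : ℕ) (α : Fin n → ℝ) (m : Fin n → ℤ) (N b : ℝ) :
    (Lat k n (α + fun i => -(m i : ℝ)) N b).ncard = (Lat k n α N b).ncard := by
  have e : Lat k n (α + fun i => -(m i : ℝ)) N b = (fun x => x + m) '' Lat k n α N b := by
    ext x
    constructor
    · intro hx
      refine ⟨x - m, ?_, by simp⟩
      have h1 : |∑ i, |(x i : ℝ) + (α i + -(m i : ℝ))| ^ k - N| < b := hx
      have h2 : |∑ i, |((x - m) i : ℝ) + α i| ^ k - N| < b := by
        convert h1 using 4 with i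
        simp only [Pi.sub_apply]
        push_cast
        congr 2
        ring
      exact h2
    · rintro ⟨y, hy, rfl⟩
      have h1 : |∑ i, |(y i : ℝ) + α i| ^ k - N| < b := hy
      have h2 : |∑ i, |((y + m) i : ℝ) + (α i + -(m i : ℝ))| ^ k - N| < b := by
        convert h1 using 4 with i
        simp only [Pi.add_apply]
        push_cast
        congr 2
        ring
      exact h2
  rw [e]
  exact Set.ncard_image_of_injective _ (add_left_injective m)

/-- from the unit cube to the whole space -/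
lemma ae_all_of_cube {n : ℕ} {P : (Fin n → ℝ) → Prop} (h : ∀ᵐ α ∂(νn n), P α)
    (hP : ∀ (α : Fin n → ℝ) (m : Fin n → ℤ), P (α + fun i => -(m i : ℝ)) → P α) :
    ∀ᵐ α : Fin n → ℝ, P α := by
  rw [νn_eq, ae_restrict_iff' (MeasurableSet.univ_pi fun _ => measurableSet_Icc)] at h
  rw [ae_iff] at h ⊢
  set S : Set (Fin n → ℝ) := {α | ¬(α ∈ Set.pi Set.univ (fun _ => Set.Icc (0 : ℝ) 1) → P α)} with hS
  have hsub : {α : Fin n → ℝ | ¬P α} ⊆
      ⋃ m : Fin n → ℤ, (fun α : Fin n → ℝ => α + fun i => -(m i : ℝ)) ⁻¹' S := by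
    intro α hα
    rw [Set.mem_iUnion]
    refine ⟨fun i => ⌊α i⌋, ?_⟩
    have h1 : ¬((α + fun i => -((⌊α i⌋ : ℤ) : ℝ)) ∈ Set.pi Set.univ (fun _ => Set.Icc (0 : ℝ) 1) →
        P (α + fun i => -((⌊α i⌋ : ℤ) : ℝ))) := by
      intro h2
      refine hα (hP α _ (h2 ?_))
      intro i _
      have h3 := Int.floor_le (α i)
      have h4 := (Int.lt_floor_add_one (α i)).le
      constructor
      · simp only [Pi.add_apply]
        linarith
      · simp only [Pi.add_apply]
        linarith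
    exact h1
  refine measure_mono_null hsub ?_
  rw [measure_iUnion_null_iff]
  intro m
  rw [measure_preimage_add_right]
  exact h

theorem ae_tendsto' {k n : ℕ} (hk : 3 ≤ k) (hn : 2 * k + 1 ≤ n) {κ γ : ℝ} (hκ : 0 < κ)
    (hγ : 0 ≤ γ) (hγ2 : k * γ < n / 2 - k) :
    ∀ᵐ α : Fin n → ℝ, Tendsto (ratio k n κ γ α) atTop (𝓝 (2 * (n / k) * vc k n)) := by
  refine ae_all_of_cube (ae_tendsto hk hn hκ hγ hγ2) ?_
  intro α m h
  have e : ratio k n κ γ (α + fun i => -(m i : ℝ)) = ratio k n κ γ α := by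
    ext N
    unfold ratio
    rw [Lat_shift]
  rwa [e] at h

end Pool.Agent.Q154.War
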