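import Pool.Agent.Q154.War.Osc

/-!
# Mean square of the shifted exponential sums
-/

set_option autoImplicit false

open MeasureTheory Set Finset
open scoped Real

namespace Pool.Agent.Q154.War

/-- grouping a double sum by differences -/
lemma sum_sum_diff {E : Type*} [AddCommMonoid E] (F : ℕ → ℕ → E) (M : ℕ) :
    ∑ i ∈ range M, ∑ j ∈ range M, F i j =
      ∑ i ∈ range M, F i i +
        ∑ h ∈ Finset.Ico 1 M, ∑ i ∈ range (M - h), (F (i + h) i + F i (i + h)) := by
  induction M with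
  | zero => simp
  | succ M ih =>
    have h1 : ∑ i ∈ range (M + 1), ∑ j ∈ range (M + 1), F i j =
        (∑ i ∈ range M, ∑ j ∈ range M, F i j) +
          (F M M + (∑ i ∈ range M, (F M i + F i M))) := by
      rw [Finset.sum_range_succ]
      simp only [Finset.sum_range_succ, Finset.sum_add_distrib]
      abel
    have h2 : ∑ h ∈ Finset.Ico 1 (M + 1), ∑ i ∈ range (M + 1 - h), (F (i + h) i + F i (i + h)) =
        (∑ h ∈ Finset.Ico 1 M, ∑ i ∈ range (M - h), (F (i + h) i + F i (i + h))) +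
          ∑ h ∈ Finset.Ico 1 (M + 1), (F M (M - h) + F (M - h) M) := by
      have h3 : ∀ h ∈ Finset.Ico 1 (M + 1),
          ∑ i ∈ range (M + 1 - h), (F (i + h) i + F i (i + h)) =
          (∑ i ∈ range (M - h), (F (i + h) i + F i (i + h))) + (F M (M - h) + F (M - h) M) := by
        intro h hh
        rw [Finset.mem_Ico] at hh
        have e : M + 1 - h = (M - h) + 1 := by omega
        have e' : M - h + h = M := by omega
        rw [e, Finset.sum_range_succ, e']
      rw [Finset.sum_congr rfl h3, Finset.sum_add_distrib]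
      congr 1
      rcases Nat.eq_zero_or_pos M with hM | hM
      · subst hM
        simp
      · rw [Finset.sum_Ico_succ_top hM]
        simp
    have h4 : ∑ h ∈ Finset.Ico 1 (M + 1), (F M (M - h) + F (M - h) M) =
        ∑ i ∈ range M, (F M i + F i M) := by
      rw [Finset.sum_Ico_eq_sum_range, Nat.add_sub_cancel]
      rw [← Finset.sum_range_reflect (fun i => F M i + F i M) M]
      refine Finset.sum_congr rfl fun i hi => ?_
      have e : M - (1 + i) = M - 1 - i := by omega
      rw [e]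
    rw [h1, h2, h4, ih, Finset.sum_range_succ]
    abel

lemma pow_add_ge {y h : ℝ} (hy : 0 ≤ y) (hh : 0 ≤ h) (m : ℕ) :
    y ^ m + m * h * y ^ (m - 1) ≤ (y + h) ^ m := by
  induction m with
  | zero => simp
  | succ m ih =>
    rcases Nat.eq_zero_or_pos m with hm | hm
    · subst hm
      simp
    · obtain ⟨l, rfl⟩ : ∃ l, m = l + 1 := ⟨m - 1, by omega⟩
      simp only [Nat.add_sub_cancel] at ih ⊢
      have h1 : (y + h) ^ (l + 1 + 1) = (y + h) ^ (l + 1) * (y + h) := pow_succ _ _
      rw [h1]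
      have h2 : (y ^ (l + 1) + ((l + 1 : ℕ) : ℝ) * h * y ^ l) * (y + h) ≤
          (y + h) ^ (l + 1) * (y + h) := mul_le_mul_of_nonneg_right ih (by positivity)
      refine le_trans ?_ h2
      push_cast
      have h3 : 0 ≤ ((l : ℝ) + 1) * h * y ^ l * h := by positivity
      have h4 : y ^ (l + 1 + 1) + ((l : ℝ) + 1 + 1) * h * y ^ (l + 1) =
          (y ^ (l + 1) + ((l : ℝ) + 1) * h * y ^ l) * (y + h) - ((l : ℝ) + 1) * h * y ^ l * h := by
        ring
      rw [h4]
      linarith

/-- derivative facts of `(y+h)^k - y^k` -/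
lemma hasDerivAt_diff (k : ℕ) (θ h y : ℝ) :
    HasDerivAt (fun y => θ * ((y + h) ^ k - y ^ k))
      (θ * (k * ((y + h) ^ (k - 1) - y ^ (k - 1)))) y := by
  have h1 : HasDerivAt (fun y : ℝ => (y + h) ^ k) (k * (y + h) ^ (k - 1)) y := by
    have h0 := ((hasDerivAt_id y).add_const h).fun_pow k
    simpa using h0
  have h2 : HasDerivAt (fun y : ℝ => y ^ k) (k * y ^ (k - 1)) y := hasDerivAt_pow k y
  have h3 := (h1.sub h2).const_mul θ
  have e : θ * (k * ((y + h) ^ (k - 1) - y ^ (k - 1))) =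
      θ * (k * (y + h) ^ (k - 1) - k * y ^ (k - 1)) := by ring
  rw [e]
  exact h3

/-- the oscillatory integral attached to a difference `h` -/
theorem osc_diff {k : ℕ} (hk : 2 ≤ k) {θ h a b : ℝ} (hθ : θ ≠ 0) (hh : 0 < h) (ha : 0 < a)
    (hab : a ≤ b) :
    ‖∫ y in a..b, ee (θ * ((y + h) ^ k - y ^ k))‖ ≤ 1 / (π * (|θ| * h * a ^ (k - 2))) := by
  have key : ∀ θ : ℝ, 0 < θ →
      ‖∫ y in a..b, ee (θ * ((y + h) ^ k - y ^ k))‖ ≤ 1 / (π * (θ * h * a ^ (k - 2))) := by
    intro θ hθ
    refine osc (f' := fun y => θ * (k * ((y + h) ^ (k - 1) - y ^ (k - 1))))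
      (f'' := fun y => θ * (k * (((k - 1 : ℕ) : ℝ) * ((y + h) ^ (k - 1 - 1) - y ^ (k - 1 - 1)))))
      hab (by positivity) (fun y => hasDerivAt_diff k θ h y) ?_ (by fun_prop) ?_ ?_
    · intro y
      have := (hasDerivAt_diff (k - 1) (θ * k) h y)
      have e1 : (fun y => θ * (k * ((y + h) ^ (k - 1) - y ^ (k - 1)))) =
          (fun y => θ * k * ((y + h) ^ (k - 1) - y ^ (k - 1))) := by
        ext y
        ring
      rw [e1]
      convert this using 1
      ring
    · intro y hy
      have hy0 : 0 < y := ha.trans_le hy.1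
      have h1 := pow_add_ge hy0.le hh.le (k - 1)
      have e : k - 1 - 1 = k - 2 := by omega
      rw [e] at h1
      have h2 : a ^ (k - 2) ≤ y ^ (k - 2) := pow_le_pow_left₀ ha.le hy.1 _
      have hk1 : (1 : ℝ) ≤ ((k - 1 : ℕ) : ℝ) := by
        have : 1 ≤ k - 1 := by omega
        exact_mod_cast this
      have hk2 : (1 : ℝ) ≤ k := by
        have : 1 ≤ k := by omega
        exact_mod_cast this
      have h3 : h * a ^ (k - 2) ≤ (y + h) ^ (k - 1) - y ^ (k - 1) := by
        have h4 : h * a ^ (k - 2) ≤ ((k - 1 : ℕ) : ℝ) * h * y ^ (k - 2) := by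
          calc h * a ^ (k - 2) ≤ h * y ^ (k - 2) := mul_le_mul_of_nonneg_left h2 hh.le
            _ ≤ ((k - 1 : ℕ) : ℝ) * (h * y ^ (k - 2)) :=
                le_mul_of_one_le_left (by positivity) hk1
            _ = ((k - 1 : ℕ) : ℝ) * h * y ^ (k - 2) := by ring
        linarith
      have h5 : 0 ≤ (y + h) ^ (k - 1) - y ^ (k - 1) := le_trans (by positivity) h3
      show θ * h * a ^ (k - 2) ≤ θ * (k * ((y + h) ^ (k - 1) - y ^ (k - 1)))
      rw [mul_assoc]
      refine mul_le_mul_of_nonneg_left ?_ hθ.le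
      exact h3.trans (le_mul_of_one_le_left h5 hk2)
    · intro y hy
      have hy0 : 0 < y := ha.trans_le hy.1
      have h1 : y ^ (k - 1 - 1) ≤ (y + h) ^ (k - 1 - 1) :=
        pow_le_pow_left₀ hy0.le (by linarith) _
      have h2 : 0 ≤ (y + h) ^ (k - 1 - 1) - y ^ (k - 1 - 1) := by linarith
      show 0 ≤ θ * (k * (((k - 1 : ℕ) : ℝ) * ((y + h) ^ (k - 1 - 1) - y ^ (k - 1 - 1))))
      positivity
  rcases lt_or_gt_of_ne hθ with hneg | hpos
  · have h1 := key (-θ) (by linarith)
    have h2 : ∀ y : ℝ, ee (-θ * ((y + h) ^ k - y ^ k)) =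
        (starRingEnd ℂ) (ee (θ * ((y + h) ^ k - y ^ k))) := by
      intro y
      rw [neg_mul, ee_neg]
    rw [abs_of_neg hneg]
    simp only [h2] at h1
    have h3 : ∫ y in a..b, (starRingEnd ℂ) (ee (θ * ((y + h) ^ k - y ^ k))) =
        (starRingEnd ℂ) (∫ y in a..b, ee (θ * ((y + h) ^ k - y ^ k))) := by
      rw [intervalIntegral.integral_of_le hab, intervalIntegral.integral_of_le hab, integral_conj]
    rw [h3, RCLike.norm_conj] at h1
    exact h1
  · rw [abs_of_pos hpos]
    exact key θ hpos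

/-- the exponential sum -/
noncomputable def S (k P : ℕ) (θ t : ℝ) : ℂ :=
  ∑ x ∈ Finset.Ico P (4 * P), ee (θ * ((x : ℝ) + t) ^ k)

lemma S_eq (k P : ℕ) (θ t : ℝ) :
    S k P θ t = ∑ i ∈ range (3 * P), ee (θ * ((P : ℝ) + i + t) ^ k) := by
  unfold S
  rw [Finset.sum_Ico_eq_sum_range]
  have e : 4 * P - P = 3 * P := by omega
  rw [e]
  refine Finset.sum_congr rfl fun i _ => ?_
  push_cast
  rfl

lemma norm_S_le (k P : ℕ) (θ t : ℝ) : ‖S k P θ t‖ ≤ 3 * P := by
  rw [S_eq]
  refine (norm_sum_le _ _).trans ?_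
  simp [norm_ee]

lemma continuous_S (k P : ℕ) : Continuous fun p : ℝ × ℝ => S k P p.1 p.2 := by
  unfold S
  refine continuous_finsetSum _ fun x _ => ?_
  exact continuous_ee.comp (by fun_prop)

/-- adding up unit intervals -/
lemma sum_unit {E : Type*} [NormedAddCommGroup E] [NormedSpace ℝ E] {f : ℝ → E}
    (hf : Continuous f) (a : ℝ) (n : ℕ) :
    ∑ i ∈ range n, ∫ t in (0 : ℝ)..1, f (a + i + t) = ∫ y in a..(a + n), f y := by
  have h := intervalIntegral.sum_integral_adjacent_intervals (f := f) (μ := volume)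
    (a := fun i : ℕ => a + i) (n := n) (fun i _ => hf.intervalIntegrable _ _)
  simp only [Nat.cast_zero, add_zero] at h
  rw [← h]
  refine Finset.sum_congr rfl fun i _ => ?_
  rw [intervalIntegral.integral_comp_add_left (fun y => f y) (a + i)]
  congr 1
  · ring
  · push_cast
    ring

/-- the mean square of the exponential sum -/
theorem mean_sq {k P : ℕ} (hk : 2 ≤ k) (hP : 1 ≤ P) {θ : ℝ} (hθ : θ ≠ 0) :
    ∫ t in (0 : ℝ)..1, ‖S k P θ t‖ ^ 2 ≤
      3 * P + (1 + Real.log (3 * P)) / (|θ| * (P : ℝ) ^ (k - 2)) := by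
  have hP0 : (0 : ℝ) < P := by exact_mod_cast hP
  set F : ℝ → ℕ → ℕ → ℂ := fun t i j =>
    ee (θ * ((P : ℝ) + i + t) ^ k) * (starRingEnd ℂ) (ee (θ * ((P : ℝ) + j + t) ^ k)) with hF
  have hFc : ∀ i j, Continuous fun t => F t i j := by
    intro i j
    rw [hF]
    refine Continuous.mul ?_ ?_
    · exact continuous_ee.comp (by fun_prop)
    · exact Complex.continuous_conj.comp (continuous_ee.comp (by fun_prop))
  have h1 : ∀ t, ((‖S k P θ t‖ ^ 2 : ℝ) : ℂ) = ∑ i ∈ range (3 * P), ∑ j ∈ range (3 * P), F t i j := by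
    intro t
    rw [← Complex.normSq_eq_norm_sq, ← Complex.mul_conj, S_eq, map_sum, Finset.sum_mul_sum]
  have hFd : ∀ t i, F t i i = 1 := by
    intro t i
    rw [hF]
    simp only
    rw [Complex.mul_conj, Complex.normSq_eq_norm_sq, norm_ee]
    simp
  have h2 : ((∫ t in (0 : ℝ)..1, ‖S k P θ t‖ ^ 2 : ℝ) : ℂ) =
      (3 * P : ℕ) + ∑ h ∈ Finset.Ico 1 (3 * P), ∑ i ∈ range (3 * P - h),
        ∫ t in (0 : ℝ)..1, (F t (i + h) i + F t i (i + h)) := by
    rw [← intervalIntegral.integral_ofReal]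
    simp only [h1]
    simp only [sum_sum_diff, hFd]
    rw [intervalIntegral.integral_add]
    · congr 1
      · simp
      · rw [intervalIntegral.integral_finsetSum]
        · refine Finset.sum_congr rfl fun h _ => ?_
          rw [intervalIntegral.integral_finsetSum]
          intro i _
          exact ((hFc _ _).add (hFc _ _)).intervalIntegrable _ _
        · intro h _
          exact (continuous_finsetSum _ fun i _ => (hFc _ _).add (hFc _ _)).intervalIntegrable _ _
    · exact continuous_const.intervalIntegrable _ _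
    · exact (continuous_finsetSum _ fun h _ => continuous_finsetSum _ fun i _ =>
        (hFc _ _).add (hFc _ _)).intervalIntegrable _ _
  have h3 : ∀ h ∈ Finset.Ico 1 (3 * P), ‖∑ i ∈ range (3 * P - h),
        ∫ t in (0 : ℝ)..1, (F t (i + h) i + F t i (i + h))‖ ≤
      2 * (1 / (π * (|θ| * h * (P : ℝ) ^ (k - 2)))) := by
    intro h hh
    rw [Finset.mem_Ico] at hh
    have hh0 : (0 : ℝ) < h := by
      have : 0 < h := by omega
      exact_mod_cast this
    set g : ℝ → ℂ := fun y => ee (θ * ((y + h) ^ k - y ^ k)) with hg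
    have hgc : Continuous g := continuous_ee.comp (by fun_prop)
    have hgc' : Continuous fun y => (starRingEnd ℂ) (g y) := Complex.continuous_conj.comp hgc
    have e1 : ∀ t i, F t (i + h) i = g (P + i + t) := by
      intro t i
      rw [hF, hg]
      simp only
      rw [← ee_sub]
      congr 1
      push_cast
      ring
    have e2 : ∀ t i, F t i (i + h) = (starRingEnd ℂ) (g (P + i + t)) := by
      intro t i
      rw [← e1]
      rw [hF]
      simp only
      rw [map_mul, Complex.conj_conj, mul_comm]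
    simp only [e1, e2]
    have e3 : ∀ i ∈ range (3 * P - h),
        ∫ t in (0 : ℝ)..1, (g (P + i + t) + (starRingEnd ℂ) (g (P + i + t))) =
        (∫ t in (0 : ℝ)..1, g (P + i + t)) +
          ∫ t in (0 : ℝ)..1, (fun y => (starRingEnd ℂ) (g y)) (P + i + t) := by
      intro i _
      refine intervalIntegral.integral_add ?_ ?_
      · exact (hgc.comp (by fun_prop)).intervalIntegrable _ _
      · exact (hgc'.comp (by fun_prop)).intervalIntegrable _ _
    rw [Finset.sum_congr rfl e3, Finset.sum_add_distrib, sum_unit hgc, sum_unit hgc']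
    have hab : (P : ℝ) ≤ P + ((3 * P - h : ℕ) : ℝ) := by
      have : (0 : ℝ) ≤ ((3 * P - h : ℕ) : ℝ) := Nat.cast_nonneg _
      linarith
    have e4 := osc_diff hk hθ hh0 hP0 hab
    have e5 : ∫ y in (P : ℝ)..(P + ((3 * P - h : ℕ) : ℝ)), (starRingEnd ℂ) (g y) =
        (starRingEnd ℂ) (∫ y in (P : ℝ)..(P + ((3 * P - h : ℕ) : ℝ)), g y) := by
      rw [intervalIntegral.integral_of_le hab, intervalIntegral.integral_of_le hab, integral_conj]
    rw [e5]
    refine (norm_add_le _ _).trans ?_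
    rw [RCLike.norm_conj, two_mul]
    exact add_le_add e4 e4
  have h4 : (∫ t in (0 : ℝ)..1, ‖S k P θ t‖ ^ 2) ≤
      3 * P + ∑ h ∈ Finset.Ico 1 (3 * P), 2 * (1 / (π * (|θ| * h * (P : ℝ) ^ (k - 2)))) := by
    have e1 : ‖((∫ t in (0 : ℝ)..1, ‖S k P θ t‖ ^ 2 : ℝ) : ℂ)‖ ≤
        3 * P + ∑ h ∈ Finset.Ico 1 (3 * P), 2 * (1 / (π * (|θ| * h * (P : ℝ) ^ (k - 2)))) := by
      rw [h2]
      refine (norm_add_le _ _).trans ?_
      refine add_le_add ?_ ?_
      · rw [Complex.norm_natCast]
        push_cast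
        exact le_rfl
      · refine (norm_sum_le _ _).trans ?_
        exact Finset.sum_le_sum h3
    rw [Complex.norm_real, Real.norm_eq_abs] at e1
    exact (le_abs_self _).trans e1
  refine h4.trans ?_
  refine add_le_add le_rfl ?_
  have h5 : ∀ h ∈ Finset.Ico 1 (3 * P), 2 * (1 / (π * (|θ| * h * (P : ℝ) ^ (k - 2)))) ≤
      (1 / (|θ| * (P : ℝ) ^ (k - 2))) * (h : ℝ)⁻¹ := by
    intro h hh
    rw [Finset.mem_Ico] at hh
    have hh0 : (0 : ℝ) < h := by
      have : 0 < h := by omega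
      exact_mod_cast this
    have hθ' : 0 < |θ| := abs_pos.2 hθ
    have e1 : 2 * (1 / (π * (|θ| * h * (P : ℝ) ^ (k - 2)))) =
        (2 / π) * ((1 / (|θ| * (P : ℝ) ^ (k - 2))) * (h : ℝ)⁻¹) := by
      field_simp
    rw [e1]
    refine mul_le_of_le_one_left (by positivity) ?_
    rw [div_le_one Real.pi_pos]
    linarith [Real.pi_gt_three]
  refine (Finset.sum_le_sum h5).trans ?_
  rw [← Finset.mul_sum, div_eq_mul_one_div (1 + Real.log (3 * P)),
    mul_comm (1 / (|θ| * (P : ℝ) ^ (k - 2)))]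
  refine mul_le_mul_of_nonneg_right ?_ (by positivity)
  have h6 : ∑ h ∈ Finset.Ico 1 (3 * P), (h : ℝ)⁻¹ ≤ ((harmonic (3 * P) : ℚ) : ℝ) := by
    rw [harmonic_eq_sum_Icc]
    push_cast
    refine Finset.sum_le_sum_of_subset_of_nonneg ?_ ?_
    · intro x hx
      rw [Finset.mem_Ico] at hx
      rw [Finset.mem_Icc]
      omega
    · intro x _ _
      positivity
  refine h6.trans ?_
  have h7 := harmonic_le_one_add_log (3 * P)
  push_cast at h7
  exact h7

/-- the mean value of the exponential sum -/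
noncomputable def Im (k P : ℕ) (θ : ℝ) : ℂ := ∫ t in (0 : ℝ)..1, S k P θ t

lemma norm_Im_le (k P : ℕ) (θ : ℝ) : ‖Im k P θ‖ ≤ 3 * P := by
  unfold Im
  have := intervalIntegral.norm_integral_le_of_norm_le_const (a := 0) (b := 1)
    (f := fun t => S k P θ t) (C := 3 * P) (fun t _ => norm_S_le k P θ t)
  simpa using this

lemma continuous_S_right (k P : ℕ) (θ : ℝ) : Continuous fun t => S k P θ t :=
  (continuous_S k P).comp (by fun_prop : Continuous fun t : ℝ => (θ, t))

lemma continuous_Im (k P : ℕ) : Continuous (Im k P) := by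
  unfold Im
  exact intervalIntegral.continuous_parametric_intervalIntegral_of_continuous'
    (continuous_S k P) 0 1

lemma norm_ee_sub (a b : ℝ) : ‖ee a - ee b‖ ≤ 2 * π * |a - b| := by
  have h1 : ee a - ee b = ee b * (ee (a - b) - 1) := by
    rw [mul_sub, ← ee_add, mul_one]
    congr 2
    ring
  rw [h1, norm_mul, norm_ee, one_mul]
  have h2 := Real.norm_exp_I_mul_ofReal_sub_one_le (x := 2 * π * (a - b))
  have h3 : ee (a - b) = Complex.exp (Complex.I * ((2 * π * (a - b) : ℝ) : ℂ)) := by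
    unfold ee
    rw [mul_comm]
  rw [h3]
  refine h2.trans_eq ?_
  rw [Real.norm_eq_abs, abs_mul, abs_of_pos (by positivity : (0 : ℝ) < 2 * π)]

lemma norm_S_sub_S {k P : ℕ} (θ : ℝ) {s t : ℝ} (hs : s ∈ Icc (0 : ℝ) 1) (ht : t ∈ Icc (0 : ℝ) 1) :
    ‖S k P θ s - S k P θ t‖ ≤ 2 * π * |θ| * (4 * P) ^ k := by
  unfold S
  rw [← Finset.sum_sub_distrib]
  refine (norm_sum_le _ _).trans ?_
  have h1 : ∀ x ∈ Finset.Ico P (4 * P),
      ‖ee (θ * ((x : ℝ) + s) ^ k) - ee (θ * ((x : ℝ) + t) ^ k)‖ ≤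
        2 * π * |θ| * ((((x + 1 : ℕ) : ℝ)) ^ k - (x : ℝ) ^ k) := by
    intro x _
    refine (norm_ee_sub _ _).trans ?_
    rw [← mul_sub, abs_mul, ← mul_assoc]
    refine mul_le_mul_of_nonneg_left ?_ (by positivity)
    have hx : (0 : ℝ) ≤ x := Nat.cast_nonneg x
    have b1 : ∀ r ∈ Icc (0 : ℝ) 1, (x : ℝ) ^ k ≤ ((x : ℝ) + r) ^ k ∧
        ((x : ℝ) + r) ^ k ≤ (((x + 1 : ℕ) : ℝ)) ^ k := by
      intro r hr
      constructor
      · exact pow_le_pow_left₀ hx (by linarith [hr.1]) _
      · push_cast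
        exact pow_le_pow_left₀ (by linarith [hr.1]) (by linarith [hr.2]) _
    have b2 := b1 s hs
    have b3 := b1 t ht
    rw [abs_le]
    constructor <;> linarith [b2.1, b2.2, b3.1, b3.2]
  refine (Finset.sum_le_sum h1).trans ?_
  rw [← Finset.mul_sum]
  refine mul_le_mul_of_nonneg_left ?_ (by positivity)
  have h2 : ∑ x ∈ Finset.Ico P (4 * P), ((((x + 1 : ℕ) : ℝ)) ^ k - (x : ℝ) ^ k) =
      ((4 * P : ℕ) : ℝ) ^ k - (P : ℝ) ^ k := by
    rw [Finset.sum_Ico_sub (fun x : ℕ => (x : ℝ) ^ k) (by omega)]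
  rw [h2]
  push_cast
  have : (0 : ℝ) ≤ (P : ℝ) ^ k := by positivity
  linarith

lemma norm_S_sub_Im {k P : ℕ} (θ : ℝ) {s : ℝ} (hs : s ∈ Icc (0 : ℝ) 1) :
    ‖S k P θ s - Im k P θ‖ ≤ 2 * π * |θ| * (4 * P) ^ k := by
  have h1 : S k P θ s - Im k P θ = ∫ t in (0 : ℝ)..1, (S k P θ s - S k P θ t) := by
    rw [intervalIntegral.integral_sub]
    · simp [Im]
    · exact continuous_const.intervalIntegrable _ _
    · exact (continuous_S_right k P θ).intervalIntegrable _ _
  rw [h1]
  have h2 := intervalIntegral.norm_integral_le_of_norm_le_const (a := 0) (b := 1)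
    (f := fun t => S k P θ s - S k P θ t) (C := 2 * π * |θ| * (4 * P) ^ k) ?_
  · simpa using h2
  · intro t ht
    rw [uIoc_of_le zero_le_one] at ht
    exact norm_S_sub_S θ hs ⟨ht.1.le, ht.2⟩

/-- the mean square -/
noncomputable def Am (k P : ℕ) (θ : ℝ) : ℝ := ∫ t in (0 : ℝ)..1, ‖S k P θ t‖ ^ 2

/-- variance identity and bound -/
lemma Am_sub (k P : ℕ) (θ : ℝ) :
    Am k P θ - ‖Im k P θ‖ ^ 2 = ∫ t in (0 : ℝ)..1, ‖S k P θ t - Im k P θ‖ ^ 2 := by
  have h1 : ∀ t, ‖S k P θ t - Im k P θ‖ ^ 2 =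
      ‖S k P θ t‖ ^ 2 + (‖Im k P θ‖ ^ 2 -
        2 * (S k P θ t * (starRingEnd ℂ) (Im k P θ)).re) := by
    intro t
    rw [← Complex.normSq_eq_norm_sq, Complex.normSq_sub, ← Complex.normSq_eq_norm_sq,
      ← Complex.normSq_eq_norm_sq]
    ring
  have hc := continuous_S_right k P θ
  have hc2 : Continuous fun t => (S k P θ t * (starRingEnd ℂ) (Im k P θ)).re :=
    Complex.continuous_re.comp (hc.mul continuous_const)
  simp only [h1]
  rw [intervalIntegral.integral_add, intervalIntegral.integral_sub,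
    intervalIntegral.integral_const, intervalIntegral.integral_const_mul]
  · have h2 : ∫ t in (0 : ℝ)..1, (S k P θ t * (starRingEnd ℂ) (Im k P θ)).re =
        ‖Im k P θ‖ ^ 2 := by
      have h3 : ∫ t in (0 : ℝ)..1, (S k P θ t * (starRingEnd ℂ) (Im k P θ)) =
          Im k P θ * (starRingEnd ℂ) (Im k P θ) := by
        rw [intervalIntegral.integral_mul_const]
        rfl
      have h4 := congrArg Complex.re h3
      rw [Complex.mul_conj, Complex.ofReal_re, Complex.normSq_eq_norm_sq] at h4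
      rw [← h4, intervalIntegral.integral_of_le zero_le_one,
        intervalIntegral.integral_of_le zero_le_one]
      have h5 : Integrable (fun t => S k P θ t * (starRingEnd ℂ) (Im k P θ))
          (volume.restrict (Ioc (0 : ℝ) 1)) :=
        ((hc.mul continuous_const).integrableOn_Icc (a := 0) (b := 1)).mono_set
          Ioc_subset_Icc_self
      exact integral_re h5
    rw [h2]
    unfold Am
    simp
    ring
  · exact continuous_const.intervalIntegrable _ _
  · exact (hc2.const_mul 2).intervalIntegrable _ _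
  · exact (hc.norm.pow 2).intervalIntegrable _ _
  · exact (continuous_const.sub (hc2.const_mul 2)).intervalIntegrable _ _

end Pool.Agent.Q154.War
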