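import Pool.Agent.Q154.War.BaseCase

/-!
# A thin set of integers plus a few shifted powers: the variance
-/

set_option autoImplicit false
set_option linter.unusedSectionVars false

open MeasureTheory Set Finset FourierTransform
open scoped Real ENNReal

namespace Pool.Agent.Q154.War

/-- an integer plus a sum of shifted powers -/
noncomputable def sm (k m : ℕ) (x : ℕ × (Fin m → ℕ)) (α : Fin m → ℝ) : ℝ :=
  (x.1 : ℝ) + sx k m x.2 α

lemma measurable_sm (k m : ℕ) (x : ℕ × (Fin m → ℕ)) : Measurable (sm k m x) := by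
  unfold sm
  exact (measurable_sx k m x.2).const_add _

/-- exponential sum over the set -/
noncomputable def Ah (A : Finset ℕ) (θ : ℝ) : ℂ := ∑ a ∈ A, ee (-((a : ℝ) * θ))

lemma norm_Ah_le (A : Finset ℕ) (θ : ℝ) : ‖Ah A θ‖ ≤ A.card := by
  unfold Ah
  refine (norm_sum_le _ _).trans ?_
  simp [norm_ee]

lemma continuous_Ah (A : Finset ℕ) : Continuous (Ah A) := by
  unfold Ah
  refine continuous_finsetSum _ fun x _ => ?_
  exact continuous_ee.comp (by fun_prop)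

lemma TT_mix (A : Finset ℕ) (k m P : ℕ) (θ : ℝ) (α : Fin m → ℝ) :
    TT (A ×ˢ box m P) (sm k m) θ α = Ah A θ * TT (box m P) (sx k m) θ α := by
  unfold TT Ah sm
  rw [Finset.sum_product, Finset.sum_mul_sum]
  refine Finset.sum_congr rfl fun a _ => Finset.sum_congr rfl fun x _ => ?_
  rw [← ee_add]
  congr 1
  ring

lemma TB_mix (A : Finset ℕ) (k m P : ℕ) (θ : ℝ) :
    TB (νn m) (A ×ˢ box m P) (sm k m) θ = Ah A θ * Im k P (-θ) ^ m := by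
  rw [← TB_eq]
  unfold TB
  simp only [TT_mix]
  exact integral_const_mul _ _

lemma TT_mix_sq (A : Finset ℕ) (k m P : ℕ) (θ : ℝ) :
    ∫ α, ‖TT (A ×ˢ box m P) (sm k m) θ α‖ ^ 2 ∂(νn m) = ‖Ah A θ‖ ^ 2 * Am k P (-θ) ^ m := by
  rw [← TT_sq]
  simp only [TT_mix, norm_mul, mul_pow]
  exact integral_const_mul _ _

/-- at most one translate is nonzero -/
lemma sum_le_one {A : Finset ℕ} {η N : ℝ} {w : ℝ → ℝ} (hw : Bump η w) (hη : η ≤ 1 / 2) :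
    ∑ a ∈ A, w (N - a) ≤ 1 := by
  by_cases h : ∃ a₀ ∈ A, w (N - a₀) ≠ 0
  · obtain ⟨a₀, ha₀, hne⟩ := h
    rw [Finset.sum_eq_single a₀]
    · exact hw.le_one _
    · intro b _ hb
      by_contra hcon
      have h1 : |N - b| < η := by
        by_contra h2
        exact hcon (hw.zero _ (not_lt.1 h2))
      have h2 : |N - a₀| < η := by
        by_contra h2
        exact hne (hw.zero _ (not_lt.1 h2))
      rw [abs_lt] at h1 h2
      apply hb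
      have h3 : (b : ℝ) < a₀ + 1 := by linarith [h1.1, h2.2]
      have h4 : (a₀ : ℝ) < b + 1 := by linarith [h1.2, h2.1]
      have h5 : b < a₀ + 1 := by exact_mod_cast h3
      have h6 : a₀ < b + 1 := by exact_mod_cast h4
      omega
    · intro h1
      exact absurd ha₀ h1
  · push Not at h
    rw [Finset.sum_eq_zero h]
    exact zero_le_one

/-- Plancherel for the set -/
lemma planch_set {A : Finset ℕ} {η : ℝ} {w : ℝ → ℝ} (hw : Bump η w) (hη : η ≤ 1 / 2) :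
    ∫ θ, ‖𝓕 (fun u => (w u : ℂ)) θ‖ ^ 2 * ‖Ah A θ‖ ^ 2 ≤ A.card * ∫ u, w u := by
  set g : ℝ → ℝ := fun N => rr A (fun (a : ℕ) (_ : Unit) => (a : ℝ)) w () N with hg
  have hgc : Continuous g := continuous_rr hw.toWt ()
  have hgi : Integrable g := integrable_rr_right hw.toWt ()
  have hF : (𝓕 fun N => (g N : ℂ)) = fun θ => 𝓕 (fun u => (w u : ℂ)) θ * Ah A θ := by
    ext θ
    exact fourier_rr hw.toWt () θ
  have hFi : Integrable (𝓕 fun N => (g N : ℂ)) := by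
    rw [hF]
    refine hw.four.mul_bdd (c := A.card) (continuous_Ah A).aestronglyMeasurable ?_
    exact Filter.Eventually.of_forall fun θ => norm_Ah_le A θ
  have h1 := planch (f := fun N => (g N : ℂ)) (Complex.continuous_ofReal.comp hgc) hgi.ofReal hFi
  rw [hF] at h1
  simp only [norm_mul, mul_pow] at h1
  rw [h1]
  have hsum : ∀ N, g N = ∑ a ∈ A, w (N - a) := fun N => rfl
  have hg0 : ∀ N, 0 ≤ g N := fun N => rr_nonneg hw.toWt () N
  have hg1 : ∀ N, g N ≤ 1 := fun N => by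
    rw [hsum]
    exact sum_le_one hw hη
  have h2 : ∫ N, ‖(g N : ℂ)‖ ^ 2 ≤ ∫ N, g N := by
    refine integral_mono_of_nonneg (Filter.Eventually.of_forall fun N => by positivity) hgi
      (Filter.Eventually.of_forall fun N => ?_)
    simp only
    rw [Complex.norm_real, Real.norm_eq_abs, sq_abs, sq]
    exact mul_le_of_le_one_right (hg0 N) (hg1 N)
  refine h2.trans_eq ?_
  simp only [hsum]
  have h3 : ∫ N : ℝ, ∑ a ∈ A, w (N - (a : ℝ)) = ∑ a ∈ A, ∫ N : ℝ, w (N - (a : ℝ)) :=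
    integral_finsetSum _ fun a _ => hw.toWt.int.comp_sub_right (a : ℝ)
  have h4 : ∀ a : ℕ, ∫ N : ℝ, w (N - (a : ℝ)) = ∫ u, w u := fun a =>
    integral_sub_right_eq_self w (a : ℝ)
  rw [h3]
  simp only [h4]
  rw [Finset.sum_const, nsmul_eq_mul]

/-- **The variance.** -/
theorem mix_var {k m P : ℕ} {A : Finset ℕ} {η : ℝ} {w : ℝ → ℝ} (hk : 2 ≤ k) (hP : 1 ≤ P)
    (hm : 4 ≤ m) (hη : η ≤ 1 / 2) (hw : Bump η w) :
    ∫ α, (∫ N, (rr (A ×ˢ box m P) (sm k m) w α N -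
        VV (νn m) (A ×ˢ box m P) (sm k m) w N) ^ 2) ∂(νn m) ≤
      Dc k m P * (π * (∫ u, w u) ^ 2 * (A.card : ℝ) ^ 2 * (P : ℝ) ^ (2 * m - 1) / (P : ℝ) ^ k +
        (∫ u, w u) * A.card * (P : ℝ) ^ m) := by
  have hP0 : (0 : ℝ) < P := by exact_mod_cast hP
  have hX : (0 : ℝ) < (P : ℝ) ^ k := by positivity
  rw [variance_identity hw.toWt (measurable_sm k m)]
  simp only [TB_mix, TT_mix_sq]
  set φ : ℝ → ℝ := fun θ => ‖𝓕 (fun u => (w u : ℂ)) θ‖ with hφ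
  set W := ∫ u, w u with hW
  set M : ℝ := ((A.card : ℕ) : ℝ) with hM
  have hM0 : 0 ≤ M := Nat.cast_nonneg _
  have hW0 : 0 ≤ W := integral_nonneg fun u => hw.nonneg u
  have hD := Dc_nonneg k m hP
  have e0 : ∀ θ, ‖Ah A θ‖ ^ 2 * Am k P (-θ) ^ m - ‖Ah A θ * Im k P (-θ) ^ m‖ ^ 2 =
      ‖Ah A θ‖ ^ 2 * (Am k P (-θ) ^ m - (‖Im k P (-θ)‖ ^ 2) ^ m) := by
    intro θ
    rw [norm_mul, norm_pow, mul_pow, ← pow_mul, ← pow_mul, mul_comm m 2]
    ring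
  simp only [e0]
  have hb : ∀ θ, φ θ ^ 2 * (‖Ah A θ‖ ^ 2 * (Am k P (-θ) ^ m - (‖Im k P (-θ)‖ ^ 2) ^ m)) ≤
      (Dc k m P * (W ^ 2 * M ^ 2 * (P : ℝ) ^ (2 * m - 1))) * (1 + (|θ| * (P : ℝ) ^ k) ^ 2)⁻¹ +
        (Dc k m P * (P : ℝ) ^ m) * (φ θ ^ 2 * ‖Ah A θ‖ ^ 2) := by
    intro θ
    have h1 := var_bound (k := k) hk hP hm (-θ)
    rw [abs_neg] at h1
    have h3 : φ θ ^ 2 * (‖Ah A θ‖ ^ 2 * (Am k P (-θ) ^ m - (‖Im k P (-θ)‖ ^ 2) ^ m)) ≤
        φ θ ^ 2 * (‖Ah A θ‖ ^ 2 * (Dc k m P *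
          ((P : ℝ) ^ (2 * m - 1) * (1 + (|θ| * (P : ℝ) ^ k) ^ 2)⁻¹ + (P : ℝ) ^ m))) :=
      mul_le_mul_of_nonneg_left (mul_le_mul_of_nonneg_left h1 (by positivity)) (by positivity)
    refine h3.trans ?_
    have h4 : φ θ ^ 2 ≤ W ^ 2 := pow_le_pow_left₀ (norm_nonneg _) (norm_four_le hw.toWt θ) 2
    have h4' : ‖Ah A θ‖ ^ 2 ≤ M ^ 2 := pow_le_pow_left₀ (norm_nonneg _) (norm_Ah_le A θ) 2
    have h4'' : φ θ ^ 2 * ‖Ah A θ‖ ^ 2 ≤ W ^ 2 * M ^ 2 :=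
      mul_le_mul h4 h4' (by positivity) (by positivity)
    have h5 : 0 ≤ Dc k m P * ((P : ℝ) ^ (2 * m - 1) * (1 + (|θ| * (P : ℝ) ^ k) ^ 2)⁻¹) := by
      positivity
    have h6 := mul_le_mul_of_nonneg_right h4'' h5
    calc φ θ ^ 2 * (‖Ah A θ‖ ^ 2 * (Dc k m P *
          ((P : ℝ) ^ (2 * m - 1) * (1 + (|θ| * (P : ℝ) ^ k) ^ 2)⁻¹ + (P : ℝ) ^ m))) =
        φ θ ^ 2 * ‖Ah A θ‖ ^ 2 *
            (Dc k m P * ((P : ℝ) ^ (2 * m - 1) * (1 + (|θ| * (P : ℝ) ^ k) ^ 2)⁻¹)) +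
          (Dc k m P * (P : ℝ) ^ m) * (φ θ ^ 2 * ‖Ah A θ‖ ^ 2) := by ring
      _ ≤ W ^ 2 * M ^ 2 *
            (Dc k m P * ((P : ℝ) ^ (2 * m - 1) * (1 + (|θ| * (P : ℝ) ^ k) ^ 2)⁻¹)) +
          (Dc k m P * (P : ℝ) ^ m) * (φ θ ^ 2 * ‖Ah A θ‖ ^ 2) := by linarith
      _ = _ := by ring
  have hnn : ∀ θ, 0 ≤ φ θ ^ 2 * (‖Ah A θ‖ ^ 2 *
      (Am k P (-θ) ^ m - (‖Im k P (-θ)‖ ^ 2) ^ m)) := by
    intro θ
    have h3 : (‖Im k P (-θ)‖ ^ 2) ^ m ≤ Am k P (-θ) ^ m :=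
      pow_le_pow_left₀ (by positivity) (norm_Im_sq_le_Am k P (-θ)) m
    have : 0 ≤ Am k P (-θ) ^ m - (‖Im k P (-θ)‖ ^ 2) ^ m := by linarith
    positivity
  have hi1 := (integrable_lorentz hX).const_mul
    (Dc k m P * (W ^ 2 * M ^ 2 * (P : ℝ) ^ (2 * m - 1)))
  have hi0 : Integrable fun θ => φ θ ^ 2 * ‖Ah A θ‖ ^ 2 := by
    refine (integrable_four_sq hw.toWt).mul_bdd (c := M ^ 2)
      ((continuous_Ah A).norm.pow 2).aestronglyMeasurable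
      (Filter.Eventually.of_forall fun θ => ?_)
    rw [Real.norm_eq_abs, abs_of_nonneg (by positivity)]
    exact pow_le_pow_left₀ (norm_nonneg _) (norm_Ah_le A θ) 2
  have hi2 : Integrable fun θ => (Dc k m P * (P : ℝ) ^ m) * (φ θ ^ 2 * ‖Ah A θ‖ ^ 2) :=
    hi0.const_mul _
  have h7 := integral_mono_of_nonneg (Filter.Eventually.of_forall hnn) (hi1.add hi2)
      (Filter.Eventually.of_forall hb)
  refine h7.trans ?_
  simp only [Pi.add_apply]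
  rw [integral_add hi1 hi2, integral_const_mul, integral_const_mul, integral_lorentz hX]
  have h8 : ∫ θ, φ θ ^ 2 * ‖Ah A θ‖ ^ 2 ≤ M * W := planch_set hw hη
  have h9 : (Dc k m P * (P : ℝ) ^ m) * ∫ θ, φ θ ^ 2 * ‖Ah A θ‖ ^ 2 ≤
      (Dc k m P * (P : ℝ) ^ m) * (M * W) :=
    mul_le_mul_of_nonneg_left h8 (by positivity)
  refine (add_le_add le_rfl h9).trans_eq ?_
  ring

lemma rr_mix (A : Finset ℕ) (k m P : ℕ) (w : ℝ → ℝ) (α : Fin m → ℝ) (N : ℝ) :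
    rr (A ×ˢ box m P) (sm k m) w α N = ∑ a ∈ A, rr (box m P) (sx k m) w α (N - a) := by
  unfold rr sm
  rw [Finset.sum_product]
  refine Finset.sum_congr rfl fun a _ => Finset.sum_congr rfl fun x _ => ?_
  congr 1
  ring

lemma VV_mix (A : Finset ℕ) (k m P : ℕ) {w : ℝ → ℝ} (hw : Wt w) (N : ℝ) :
    VV (νn m) (A ×ˢ box m P) (sm k m) w N =
      ∑ a ∈ A, VV (νn m) (box m P) (sx k m) w (N - a) := by
  unfold VV
  simp only [rr_mix]
  exact integral_finsetSum _ fun a _ => integrable_rr_left hw (measurable_sx k m) _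

end Pool.Agent.Q154.War
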