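import Pool.Agent.Q154.War.MixCase
import Pool.Agent.Q154.War.Final

/-!
# A thin set of integers plus a few shifted powers: all large numbers
-/

set_option autoImplicit false
set_option linter.unusedSectionVars false

open MeasureTheory Set Finset
open scoped Real ENNReal

namespace Pool.Agent.Q154.War

/-- **Base case.** -/
theorem base_PrM {𝒜 : Set ℕ} {k m : ℕ} (hm : 4 ≤ m) (hmk : m ≤ k) {c : ℝ} (hc : 0 < c) {i₀ : ℕ}
    (hA : ∀ i ≥ i₀, c * ((2 : ℝ) ^ i) ^ (k + 1 - m) ≤ (cutA 𝒜 k (2 ^ i)).card) {ρ q : ℝ}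
    (hρ : 0 < ρ) (hρ1 : ρ ≤ 1) (hq : 2 ^ (k - 1) / ρ < q) : PrM 𝒜 k m ρ q := by
  intro η ⟨a, ha, hη⟩ hη1
  have hk1 : 1 ≤ k := by omega
  have hk0 : (0 : ℝ) < k := by exact_mod_cast hk1
  have hc2 := c2_pos (m := m) hk1
  have hq0 : 0 < q := lt_trans (by positivity) hq
  set r : ℝ := 2 ^ (k - 1) / ρ with hr
  have hr1 : 1 ≤ r := by
    rw [hr, le_div_iff₀ hρ, one_mul]
    exact hρ1.trans (one_le_pow₀ (by norm_num))
  have hpi := Real.pi_pos
  set i₁ := max i₀ (2 * k) with hi₁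
  set T : ℝ := 2 * ((k : ℝ) + 1) * ((2 : ℝ) ^ (i₁ + 1)) ^ k with hT
  have hT0 : 0 ≤ T := by positivity
  set C' : ℝ := (m : ℝ) * ((2 * π * 4 ^ k) ^ 2 + 3) * 72 ^ m * (4 * π + 2 / c) /
    (c2 k m ^ 2 * a) + T with hC'
  refine ae_bound (f := fun i α => volume (bd 𝒜 k m (η i) i α))
    (fun i => measurable_vol_bd 𝒜 k m (η i) i)
    (b := fun i => C' * ((1 + (i : ℝ)) ^ m * r ^ i)) hq0 (fun i => by positivity) ?_ ?_
  · intro i
    have hηi : 0 < η i := lt_of_lt_of_le (by positivity) (hη i)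
    have hfac : 1 ≤ (1 + (i : ℝ)) ^ m * r ^ i := by
      have h1 : (1 : ℝ) ≤ (1 + (i : ℝ)) ^ m :=
        one_le_pow₀ (by linarith [Nat.cast_nonneg (α := ℝ) i])
      have h2 : (1 : ℝ) ≤ r ^ i := one_le_pow₀ hr1
      nlinarith
    rcases le_or_gt i₁ i with hi | hi
    · have hi2 : 2 * k ≤ 2 ^ i := by
        have h1 : 2 * k ≤ i := (le_max_right _ _).trans hi
        exact h1.trans (Nat.lt_two_pow_self).le
      have hi3 : i₀ ≤ i := (le_max_left _ _).trans hi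
      refine (mix_main hm hmk hi2 hc hηi (hη1 i) (hA i hi3)).trans (ENNReal.ofReal_le_ofReal ?_)
      have h1 : Dc k m (2 ^ i) ≤
          (m : ℝ) * ((2 * π * 4 ^ k) ^ 2 + 3) * (72 ^ m * (1 + (i : ℝ)) ^ m) := by
        unfold Dc
        refine mul_le_mul_of_nonneg_left ?_ (by positivity)
        rw [← mul_pow]
        have := Kc_two i
        have h18 := Kc_ge (P := 2 ^ i) Nat.one_le_two_pow
        refine pow_le_pow_left₀ (by linarith) ?_ _
        linarith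
      have h2 : ((2 : ℝ) ^ i) ^ (k - 1) = r ^ i * ρ ^ i := by
        rw [← mul_pow, hr, div_mul_cancel₀ _ hρ.ne', ← pow_mul, ← pow_mul, mul_comm]
      rw [h2]
      have hρi : 0 < ρ ^ i := by positivity
      calc Dc k m (2 ^ i) * (4 * π + 2 / c) * (r ^ i * ρ ^ i) / (c2 k m ^ 2 * η i) ≤
          Dc k m (2 ^ i) * (4 * π + 2 / c) * (r ^ i * ρ ^ i) / (c2 k m ^ 2 * (a * ρ ^ i)) := by
            have hD := Dc_nonneg k m (P := 2 ^ i) Nat.one_le_two_pow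
            refine div_le_div_of_nonneg_left (by positivity) (by positivity) ?_
            exact mul_le_mul_of_nonneg_left (hη i) (by positivity)
        _ = Dc k m (2 ^ i) * ((4 * π + 2 / c) * r ^ i / (c2 k m ^ 2 * a)) := by
            field_simp
        _ ≤ ((m : ℝ) * ((2 * π * 4 ^ k) ^ 2 + 3) *
            (72 ^ m * (1 + (i : ℝ)) ^ m)) * ((4 * π + 2 / c) * r ^ i / (c2 k m ^ 2 * a)) :=
            mul_le_mul_of_nonneg_right h1 (by positivity)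
        _ = ((m : ℝ) * ((2 * π * 4 ^ k) ^ 2 + 3) * 72 ^ m * (4 * π + 2 / c) /
            (c2 k m ^ 2 * a)) * ((1 + (i : ℝ)) ^ m * r ^ i) := by
            field_simp
        _ ≤ C' * ((1 + (i : ℝ)) ^ m * r ^ i) := by
            refine mul_le_mul_of_nonneg_right ?_ (by positivity)
            rw [hC']
            linarith
    · have h1 : ∀ α, volume (bd 𝒜 k m (η i) i α) ≤ ENNReal.ofReal T := by
        intro α
        refine (vol_bd_le 𝒜 k m (η i) i α).trans (ENNReal.ofReal_le_ofReal ?_)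
        rw [hT]
        refine mul_le_mul_of_nonneg_left ?_ (by positivity)
        refine pow_le_pow_left₀ (by positivity) ?_ k
        exact pow_le_pow_right₀ (by norm_num) (by omega)
      refine (lintegral_mono h1).trans ?_
      rw [lintegral_const, measure_univ, mul_one]
      refine ENNReal.ofReal_le_ofReal ?_
      have hC'T : T ≤ C' := by
        rw [hC']
        have : 0 ≤ (m : ℝ) * ((2 * π * 4 ^ k) ^ 2 + 3) * 72 ^ m * (4 * π + 2 / c) /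
          (c2 k m ^ 2 * a) := by positivity
        linarith
      have hC'0 : 0 ≤ C' := hT0.trans hC'T
      calc T ≤ C' := hC'T
        _ ≤ C' * ((1 + (i : ℝ)) ^ m * r ^ i) := le_mul_of_one_le_right hC'0 hfac
  · have hrq : r / q < 1 := (div_lt_one hq0).2 hq
    have h1 := summable_pow_mul_geometric_of_norm_lt_one (R := ℝ) m
      (r := r / q) (by rw [Real.norm_eq_abs, abs_of_pos (by positivity)]; exact hrq)
    have h2 := ((summable_nat_add_iff 1).2 h1).mul_left (C' * (r / q)⁻¹)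
    refine h2.congr fun i => ?_
    push_cast
    rw [pow_succ (r / q) i, div_pow]
    field_simp
    ring

/-- all candidates are bad -/
lemma all_bad {𝒜 : Set ℕ} {k n j : ℕ} (hk : 1 ≤ k) {η t N : ℝ} (ht : t ∈ Set.Icc (0 : ℝ) 1)
    (α : Fin n → ℝ) (hN : N ∈ bd 𝒜 k (n + 1) η (j + 2) (Fin.cons t α)) {x : ℕ} (hx0 : 0 < x)
    (hx4 : x < 4 * 2 ^ j) :
    N - ((x : ℝ) + t) ^ k ∈ bd 𝒜 k n η (j + 2) α ∪ bd 𝒜 k n η (j + 1) α := by
  obtain ⟨hNW, hNc⟩ := hN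
  set u := N - ((x : ℝ) + t) ^ k with hu
  have hug : ¬ Good 𝒜 k n η α u := by
    rintro ⟨a, ha, y, hy, h⟩
    apply hNc
    refine ⟨a, ha, Fin.cons x y, ?_, ?_⟩
    · intro i
      refine Fin.cases ?_ (fun l => ?_) i
      · exact hx0
      · exact hy l
    · rw [sx_cons]
      have e : (a : ℝ) + (((x : ℝ) + t) ^ k + sx k n y α) - N = (a : ℝ) + sx k n y α - u := by
        rw [hu]
        ring
      rw [e]
      exact h
  have hxk : ((x : ℝ) + t) ^ k ≤ ((2 : ℝ) ^ (j + 2)) ^ k := by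
    refine pow_le_pow_left₀ (by have := ht.1; positivity) ?_ k
    have h1 : x + 1 ≤ 4 * 2 ^ j := hx4
    have h2 : (x : ℝ) + 1 ≤ 4 * 2 ^ j := by exact_mod_cast h1
    have h3 : (2 : ℝ) ^ (j + 2) = 4 * 2 ^ j := by ring
    rw [h3]
    linarith [ht.2]
  have hxk0 : 0 ≤ ((x : ℝ) + t) ^ k := by
    have := ht.1
    positivity
  have hu1 : u < 2 * ((k : ℝ) + 1) * ((2 : ℝ) ^ (j + 2 + 1)) ^ k := by
    have := hNW.2
    linarith
  rcases le_or_gt (2 * ((k : ℝ) + 1) * ((2 : ℝ) ^ (j + 2)) ^ k) u with h | h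
  · left
    exact ⟨⟨h, hu1⟩, hug⟩
  · right
    refine ⟨⟨?_, h⟩, hug⟩
    have h5 := hNW.1
    have h6 : ((2 : ℝ) ^ (j + 2)) ^ k = 2 ^ k * ((2 : ℝ) ^ (j + 1)) ^ k := by
      rw [← mul_pow]
      congr 1
      ring
    have h7 : 0 < ((2 : ℝ) ^ (j + 1)) ^ k := by positivity
    have h8 : (2 : ℝ) ≤ 2 ^ k := by
      calc (2 : ℝ) = 2 ^ 1 := by norm_num
        _ ≤ 2 ^ k := pow_le_pow_right₀ (by norm_num) hk
    have hk0 : (1 : ℝ) ≤ k := by exact_mod_cast hk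
    rw [h6] at h5 hxk
    rw [hu]
    have h9 := mul_le_mul_of_nonneg_right h8 h7.le
    nlinarith [mul_nonneg (by linarith : (0 : ℝ) ≤ k) (by linarith :
      0 ≤ 2 ^ k * ((2 : ℝ) ^ (j + 1)) ^ k - 2 * ((2 : ℝ) ^ (j + 1)) ^ k)]

/-- the mean measure of the new bad set -/
lemma step_mainM {𝒜 : Set ℕ} {k n j : ℕ} (hk : 2 ≤ k) {η v : ℝ} (hv : 0 ≤ v) (α : Fin n → ℝ)
    (hE : volume (bd 𝒜 k n η (j + 2) α ∪ bd 𝒜 k n η (j + 1) α) ≤ ENNReal.ofReal v) :
    ∫⁻ t, volume (bd 𝒜 k (n + 1) η (j + 2) (Fin.cons t α)) ∂ν1 ≤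
      ENNReal.ofReal (8 * 4 ^ k * v ^ 2 / ((2 : ℝ) ^ (j + 2)) ^ k) := by
  set E := bd 𝒜 k n η (j + 2) α ∪ bd 𝒜 k n η (j + 1) α with hEdef
  have hEm : MeasurableSet E := (measurableSet_bd _ _ _ _ _ _).union (measurableSet_bd _ _ _ _ _ _)
  set H := ENNReal.ofReal ((2 : ℝ) ^ j / 2) with hH
  have hH0 : (0 : ℝ) < 2 ^ j / 2 := by positivity
  have hP1 : 1 ≤ 2 ^ j := Nat.one_le_two_pow
  have hhalf : ∀ (F : Finset ℕ), F.card = 2 ^ j → (∀ x ∈ F, 0 < x ∧ x < 4 * 2 ^ j) →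
      ∀ t ∈ Set.Icc (0 : ℝ) 1, ∀ N ∈ bd 𝒜 k (n + 1) η (j + 2) (Fin.cons t α),
      H ≤ ∑ x ∈ F, ind E (N - ((x : ℝ) + t) ^ k) := by
    intro F hF hF2 t ht N hN
    have h1 : ∑ x ∈ F, ind E (N - ((x : ℝ) + t) ^ k) = ∑ _x ∈ F, (1 : ℝ≥0∞) := by
      refine Finset.sum_congr rfl fun x hx => ?_
      exact Set.indicator_of_mem (all_bad (by omega) ht α hN (hF2 x hx).1 (hF2 x hx).2) _
    rw [h1, Finset.sum_const, nsmul_eq_mul, mul_one, hF, hH, ← ENNReal.ofReal_natCast]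
    refine ENNReal.ofReal_le_ofReal ?_
    push_cast
    have : (0 : ℝ) < 2 ^ j := by positivity
    linarith
  -- pointwise in `t`
  have hpt : ∀ᵐ t ∂ν1, (H * H) * volume (bd 𝒜 k (n + 1) η (j + 2) (Fin.cons t α)) ≤
      ∫⁻ N, (∑ x ∈ Finset.Ico ((2 : ℕ) ^ j) (2 * 2 ^ j), ind E (N - ((x : ℝ) + t) ^ k)) *
        (∑ x ∈ Finset.Ico ((3 : ℕ) * 2 ^ j) (4 * 2 ^ j), ind E (N - ((x : ℝ) + t) ^ k)) := by
    have hae : ∀ᵐ t ∂ν1, t ∈ Set.Icc (0 : ℝ) 1 := ae_restrict_mem measurableSet_Icc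
    filter_upwards [hae] with t ht
    have hmeas : Measurable fun N : ℝ =>
        (∑ x ∈ Finset.Ico ((2 : ℕ) ^ j) (2 * 2 ^ j), ind E (N - ((x : ℝ) + t) ^ k)) *
        (∑ x ∈ Finset.Ico ((3 : ℕ) * 2 ^ j) (4 * 2 ^ j), ind E (N - ((x : ℝ) + t) ^ k)) := by
      refine Measurable.mul ?_ ?_
      · exact Finset.measurable_sum _ fun x _ => (measurable_ind hEm).comp (measurable_id.sub_const _)
      · exact Finset.measurable_sum _ fun x _ => (measurable_ind hEm).comp (measurable_id.sub_const _)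
    refine le_trans ?_ (mul_meas_ge_le_lintegral hmeas (H * H))
    refine mul_le_mul_right (measure_mono ?_) _
    intro N hN
    have h1 := hhalf (Finset.Ico (2 ^ j) (2 * 2 ^ j)) (by rw [Nat.card_Ico]; omega)
      (fun x hx => by
        rw [Finset.mem_Ico] at hx
        omega) t ht N hN
    have h2 := hhalf (Finset.Ico (3 * 2 ^ j) (4 * 2 ^ j)) (by rw [Nat.card_Ico]; omega)
      (fun x hx => by
        rw [Finset.mem_Ico] at hx
        omega) t ht N hN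
    exact mul_le_mul' h1 h2
  have hm : Measurable fun t : ℝ => volume (bd 𝒜 k (n + 1) η (j + 2) (Fin.cons t α)) :=
    (measurable_vol_bd 𝒜 k (n + 1) η (j + 2)).comp (cons_measurable α)
  have h3 := lintegral_mono_ae hpt
  rw [lintegral_const_mul _ hm] at h3
  have h4 := h3.trans (two_point hk hP1 hEm)
  have hHH : H * H = ENNReal.ofReal (((2 : ℝ) ^ j / 2) ^ 2) := by
    rw [hH, ← ENNReal.ofReal_mul hH0.le, sq]
  have hPr : (((2 ^ j : ℕ) : ℕ) : ℝ) = (2 : ℝ) ^ j := by push_cast; rfl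
  have h5 : 2 * ((2 ^ j : ℕ) : ℝ≥0∞) * (volume E * (volume E /
      ENNReal.ofReal ((((2 ^ j : ℕ) : ℕ) : ℝ) ^ (k - 1)))) ≤
      ENNReal.ofReal (2 * 2 ^ j * (v * (v / ((2 : ℝ) ^ j) ^ (k - 1)))) := by
    have e1 : 2 * ((2 ^ j : ℕ) : ℝ≥0∞) = ENNReal.ofReal (2 * 2 ^ j) := by
      rw [ENNReal.ofReal_mul (by norm_num), ← hPr, ENNReal.ofReal_natCast, ENNReal.ofReal_ofNat]
    rw [e1, ENNReal.ofReal_mul (p := (2 : ℝ) * 2 ^ j) (by positivity),
      ENNReal.ofReal_mul (p := v) hv, ENNReal.ofReal_div_of_pos (by positivity), hPr]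
    refine mul_le_mul_right ?_ _
    exact mul_le_mul' hE (ENNReal.div_le_div_right hE _)
  have h6 := h4.trans h5
  rw [hHH] at h6
  have hH2 : (0 : ℝ) < ((2 : ℝ) ^ j / 2) ^ 2 := by positivity
  have h7 : ∫⁻ t, volume (bd 𝒜 k (n + 1) η (j + 2) (Fin.cons t α)) ∂ν1 ≤
      ENNReal.ofReal (2 * 2 ^ j * (v * (v / ((2 : ℝ) ^ j) ^ (k - 1)))) /
        ENNReal.ofReal (((2 : ℝ) ^ j / 2) ^ 2) := by
    rw [ENNReal.le_div_iff_mul_le (Or.inl (ENNReal.ofReal_pos.2 hH2).ne')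
      (Or.inl ENNReal.ofReal_ne_top), mul_comm]
    exact h6
  rw [← ENNReal.ofReal_div_of_pos hH2] at h7
  refine h7.trans (ENNReal.ofReal_le_ofReal (le_of_eq ?_))
  have e2 : ((2 : ℝ) ^ (j + 2)) ^ k = 4 ^ k * ((2 : ℝ) ^ j) ^ k := by
    rw [← mul_pow]
    congr 1
    ring
  have e3 : ((2 : ℝ) ^ j) ^ k = 2 ^ j * ((2 : ℝ) ^ j) ^ (k - 1) := by
    rw [← pow_succ']
    congr 1
    omega
  rw [e2, e3]
  field_simp
  ring

/-- **The squaring step.** -/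
theorem step_PrM {𝒜 : Set ℕ} {k n : ℕ} (hk : 2 ≤ k) {ρ q q' : ℝ} (hρ : 0 < ρ) (hq : 0 < q)
    (hq' : q ^ 2 / 2 ^ k < q') (h : PrM 𝒜 k n ρ q) : PrM 𝒜 k (n + 1) ρ q' := by
  intro η ⟨a, ha, hη⟩ hη1
  have h1 := h η ⟨a, ha, hη⟩ hη1
  have h2 := h (fun i => η (i + 1)) ⟨a * ρ, by positivity, fun i => by
    have := hη (i + 1)
    rw [pow_succ] at this
    calc a * ρ * ρ ^ i = a * (ρ ^ i * ρ) := by ring
      _ ≤ _ := this⟩ (fun i => hη1 (i + 1))
  refine ae_cons (measurableSet_eventM 𝒜 k (n + 1) η q') ?_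
  filter_upwards [h1, h2] with α hα1 hα2
  obtain ⟨C₁, hC₁⟩ := hα1
  obtain ⟨C₂, hC₂⟩ := hα2
  set r : ℝ := q ^ 2 / 2 ^ k with hr
  have hr0 : 0 < r := by positivity
  have hq'0 : 0 < q' := hr0.trans hq'
  set C₃ : ℝ := C₁ + C₂ / q with hC₃
  have hC₃0 : 0 ≤ C₃ := by positivity
  set B : ℝ := 8 * 4 ^ k * C₃ ^ 2 + 2 * ((k : ℝ) + 1) * 4 ^ k * (1 + 1 / r) with hB
  have hB0 : 0 ≤ B := by positivity
  refine ae_bound (f := fun i t => volume (bd 𝒜 k (n + 1) (η i) i (Fin.cons t α)))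
    (fun i => (measurable_vol_bd 𝒜 k (n + 1) (η i) i).comp (cons_measurable α))
    (b := fun i => B * r ^ i) hq'0 (fun i => by positivity) ?_ ?_
  · intro i
    rcases lt_or_ge i 2 with hi | hi
    · have h3 : ∀ t, volume (bd 𝒜 k (n + 1) (η i) i (Fin.cons t α)) ≤
          ENNReal.ofReal (2 * ((k : ℝ) + 1) * 4 ^ k) := by
        intro t
        refine (vol_bd_le 𝒜 k (n + 1) (η i) i (Fin.cons t α)).trans (ENNReal.ofReal_le_ofReal ?_)
        have h5 : (2 : ℝ) ^ (i + 1) ≤ 4 := by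
          calc (2 : ℝ) ^ (i + 1) ≤ 2 ^ 2 := pow_le_pow_right₀ (by norm_num) (by omega)
            _ = 4 := by norm_num
        have h6 : ((2 : ℝ) ^ (i + 1)) ^ k ≤ 4 ^ k := pow_le_pow_left₀ (by positivity) h5 k
        exact mul_le_mul_of_nonneg_left h6 (by positivity)
      refine (lintegral_mono h3).trans ?_
      rw [lintegral_const, measure_univ, mul_one]
      refine ENNReal.ofReal_le_ofReal ?_
      have h9 : 1 ≤ (1 + 1 / r) * r ^ i := by
        have hi' : i = 0 ∨ i = 1 := by omega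
        rcases hi' with rfl | rfl
        · rw [pow_zero, mul_one]
          have : 0 < 1 / r := by positivity
          linarith
        · rw [pow_one, add_mul, one_mul, one_div, inv_mul_cancel₀ hr0.ne']
          linarith
      calc 2 * ((k : ℝ) + 1) * 4 ^ k ≤ 2 * ((k : ℝ) + 1) * 4 ^ k * ((1 + 1 / r) * r ^ i) :=
            le_mul_of_one_le_right (by positivity) h9
        _ = (2 * ((k : ℝ) + 1) * 4 ^ k * (1 + 1 / r)) * r ^ i := by ring
        _ ≤ B * r ^ i := by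
            refine mul_le_mul_of_nonneg_right ?_ (by positivity)
            rw [hB]
            have : 0 ≤ 8 * 4 ^ k * C₃ ^ 2 := by positivity
            linarith
    · obtain ⟨j, rfl⟩ : ∃ j, i = j + 2 := ⟨i - 2, by omega⟩
      have hE : volume (bd 𝒜 k n (η (j + 2)) (j + 2) α ∪ bd 𝒜 k n (η (j + 2)) (j + 1) α) ≤
          ENNReal.ofReal (C₃ * q ^ (j + 2)) := by
        refine (measure_union_le _ _).trans ?_
        have e1 : C₃ * q ^ (j + 2) = C₁ * q ^ (j + 2) + C₂ * q ^ (j + 1) := by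
          rw [hC₃, pow_succ q (j + 1)]
          field_simp
        rw [e1, ENNReal.ofReal_add (by positivity) (by positivity),
          ENNReal.ofReal_mul (by positivity), ENNReal.ofReal_mul (by positivity),
          ENNReal.ofReal_natCast, ENNReal.ofReal_natCast]
        exact add_le_add (hC₁ (j + 2)) (hC₂ (j + 1))
      refine (step_mainM hk (by positivity) α hE).trans ?_
      refine ENNReal.ofReal_le_ofReal ?_
      have e2 : 8 * 4 ^ k * (C₃ * q ^ (j + 2)) ^ 2 / ((2 : ℝ) ^ (j + 2)) ^ k =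
          8 * 4 ^ k * C₃ ^ 2 * r ^ (j + 2) := by
        rw [hr, div_pow, ← pow_mul, ← pow_mul, mul_pow, ← pow_mul, ← pow_mul]
        rw [mul_comm k (j + 2), mul_comm 2 (j + 2)]
        ring
      rw [e2]
      refine mul_le_mul_of_nonneg_right ?_ (by positivity)
      rw [hB]
      have : 0 ≤ 2 * ((k : ℝ) + 1) * 4 ^ k * (1 + 1 / r) := by positivity
      linarith
  · have h3 : r / q' < 1 := (div_lt_one hq'0).2 hq'
    have h4 := (summable_geometric_of_lt_one (by positivity) h3).mul_left B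
    refine h4.congr fun i => ?_
    rw [div_pow]
    ring

/-- iteration of the squaring step -/
theorem iter_PrM {𝒜 : Set ℕ} {k m : ℕ} (hm : 4 ≤ m) (hmk : m ≤ k) {c : ℝ} (hc : 0 < c) {i₀ : ℕ}
    (hA : ∀ i ≥ i₀, c * ((2 : ℝ) ^ i) ^ (k + 1 - m) ≤ (cutA 𝒜 k (2 ^ i)).card) {ρ : ℝ}
    (hρ : 0 < ρ) (hρ1 : ρ ≤ 1) (J : ℕ) :
    ∀ q : ℝ, 2 ^ k * (1 / (2 * ρ)) ^ (2 ^ J) < q → PrM 𝒜 k (m + J) ρ q := by
  induction J with
  | zero =>
    intro q hq
    refine base_PrM hm hmk hc hA hρ hρ1 (lt_of_eq_of_lt ?_ hq)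
    have e : (2 : ℝ) ^ k = 2 ^ (k - 1) * 2 := by
      rw [← pow_succ]
      congr 1
      omega
    rw [e, pow_zero, pow_one]
    field_simp
  | succ J ih =>
    intro q' hq'
    set q₀ : ℝ := 2 ^ k * (1 / (2 * ρ)) ^ (2 ^ J) with hq₀
    have hq₀0 : 0 < q₀ := by positivity
    have h1 : q₀ ^ 2 < 2 ^ k * q' := by
      have e : q₀ ^ 2 = 2 ^ k * (2 ^ k * (1 / (2 * ρ)) ^ (2 ^ (J + 1))) := by
        rw [hq₀, pow_succ 2 J, pow_mul]
        ring
      rw [e]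
      exact mul_lt_mul_of_pos_left hq' (by positivity)
    have h2k : (0 : ℝ) < 2 ^ k := by positivity
    have hq'0 : 0 < 2 ^ k * q' := lt_trans (by positivity) h1
    set s := Real.sqrt (2 ^ k * q') with hs
    have hs2 : s ^ 2 = 2 ^ k * q' := Real.sq_sqrt hq'0.le
    have hs0 : 0 ≤ s := Real.sqrt_nonneg _
    have h3 : q₀ < s := by
      refine lt_of_pow_lt_pow_left₀ 2 hs0 ?_
      rw [hs2]
      exact h1
    have h4 := ih ((q₀ + s) / 2) (by linarith)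
    have h5 : ((q₀ + s) / 2) ^ 2 / 2 ^ k < q' := by
      rw [div_lt_iff₀ h2k]
      calc ((q₀ + s) / 2) ^ 2 < s ^ 2 := pow_lt_pow_left₀ (by linarith) (by linarith) two_ne_zero
        _ = q' * 2 ^ k := by rw [hs2]; ring
    exact step_PrM (n := m + J) (by omega) hρ (by linarith) h5 h4

lemma Good.mono {𝒜 : Set ℕ} {k n : ℕ} {η η' u N : ℝ} {α : Fin n → ℝ} (h : |u - N| + η ≤ η')
    (hg : Good 𝒜 k n η α u) : Good 𝒜 k n η' α N := by
  obtain ⟨a, ha, x, hx, h1⟩ := hg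
  refine ⟨a, ha, x, hx, ?_⟩
  have h2 : (a : ℝ) + sx k n x α - N = ((a : ℝ) + sx k n x α - u) + (u - N) := by ring
  rw [h2]
  refine (abs_add_le _ _).trans_lt ?_
  linarith

/-- **All large numbers are represented.** -/
theorem final_allM {𝒜 : Set ℕ} {k n : ℕ} (hk : 1 ≤ k) {ρ q a : ℝ} (hρ : 0 < ρ) (hρ1 : ρ ≤ 1)
    (hq : 0 < q) (hqρ : q < ρ) (ha : 0 < a) (ha1 : a ≤ 1 / 2) (h : PrM 𝒜 k n ρ q) :
    ∀ᵐ α ∂(νn n), ∃ i₀ : ℕ, ∀ i ≥ i₀, ∀ N ∈ Wi k i, Good 𝒜 k n (2 * (a * ρ ^ i)) α N := by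
  have h1 := h (fun i => a * ρ ^ i) ⟨a, ha, fun i => le_rfl⟩ (fun i => by
    have : ρ ^ i ≤ 1 := pow_le_one₀ hρ.le hρ1
    have h0 : 0 < ρ ^ i := by positivity
    nlinarith)
  filter_upwards [h1] with α ⟨C, hC⟩
  have hr : q / ρ < 1 := (div_lt_one hρ).2 hqρ
  have hlim := (tendsto_pow_atTop_nhds_zero_of_lt_one (by positivity) hr).const_mul
    ((C : ℝ) * (1 + q))
  rw [mul_zero] at hlim
  obtain ⟨i₀, hi₀⟩ := (hlim.eventually (gt_mem_nhds ha)).exists_forall_of_atTop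
  refine ⟨i₀, fun i hi N hN => ?_⟩
  by_contra hcon
  have hρi : 0 < ρ ^ i := by positivity
  have hη : 0 < a * ρ ^ i := by positivity
  have hη1 : a * ρ ^ i ≤ 1 := by
    have : ρ ^ i ≤ 1 := pow_le_one₀ hρ.le hρ1
    nlinarith
  have hsub : Set.Ioo N (N + a * ρ ^ i) ⊆
      bd 𝒜 k n (a * ρ ^ i) i α ∪ bd 𝒜 k n (a * ρ ^ (i + 1)) (i + 1) α := by
    intro u hu
    have hun : |u - N| + a * ρ ^ i ≤ 2 * (a * ρ ^ i) := by
      rw [abs_of_pos (by linarith [hu.1])]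
      linarith [hu.2]
    rcases lt_or_ge u (2 * ((k : ℝ) + 1) * ((2 : ℝ) ^ (i + 1)) ^ k) with h2 | h2
    · left
      exact ⟨⟨hN.1.trans hu.1.le, h2⟩, fun hg => hcon (hg.mono hun)⟩
    · right
      refine ⟨⟨h2, ?_⟩, ?_⟩
      · have h3 : u < 2 * ((k : ℝ) + 1) * ((2 : ℝ) ^ (i + 1)) ^ k + 1 := by
          linarith [hu.2, hN.2]
        have h4 : (1 : ℝ) ≤ ((2 : ℝ) ^ (i + 1)) ^ k := one_le_pow₀ (one_le_pow₀ (by norm_num))
        have h5 : ((2 : ℝ) ^ (i + 1 + 1)) ^ k = 2 ^ k * ((2 : ℝ) ^ (i + 1)) ^ k := by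
          rw [← mul_pow]
          congr 1
          ring
        have h6 : (2 : ℝ) ≤ 2 ^ k := by
          calc (2 : ℝ) = 2 ^ 1 := by norm_num
            _ ≤ 2 ^ k := pow_le_pow_right₀ (by norm_num) hk
        have h7 : 2 * ((2 : ℝ) ^ (i + 1)) ^ k ≤ 2 ^ k * ((2 : ℝ) ^ (i + 1)) ^ k :=
          mul_le_mul_of_nonneg_right h6 (by positivity)
        have hk0 : (0 : ℝ) ≤ k := Nat.cast_nonneg k
        rw [h5]
        nlinarith [mul_nonneg hk0 (by linarith : 0 ≤ 2 ^ k * ((2 : ℝ) ^ (i + 1)) ^ k -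
          2 * ((2 : ℝ) ^ (i + 1)) ^ k), mul_nonneg hk0 (by linarith :
            0 ≤ ((2 : ℝ) ^ (i + 1)) ^ k)]
      · have hle : a * ρ ^ (i + 1) ≤ a * ρ ^ i := by
          rw [pow_succ]
          have : ρ ^ i * ρ ≤ ρ ^ i := mul_le_of_le_one_right hρi.le hρ1
          nlinarith
        have hun' : |u - N| + a * ρ ^ (i + 1) ≤ 2 * (a * ρ ^ i) := by linarith
        exact fun hg => hcon (hg.mono hun')
  have hvol := (measure_mono (μ := volume) hsub).trans ((measure_union_le _ _).trans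
    (add_le_add (hC i) (hC (i + 1))))
  rw [Real.volume_Ioo, ← ENNReal.ofReal_natCast, ← ENNReal.ofReal_mul (by positivity),
    ← ENNReal.ofReal_mul (by positivity), ← ENNReal.ofReal_add (by positivity) (by positivity),
    ENNReal.ofReal_le_ofReal_iff (by positivity)] at hvol
  have h9 := hi₀ i hi
  rw [div_pow, mul_div_assoc', div_lt_iff₀ hρi] at h9
  have h10 : (C : ℝ) * q ^ i + C * q ^ (i + 1) = C * (1 + q) * q ^ i := by
    rw [pow_succ]
    ring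
  rw [h10] at hvol
  linarith

/-- **Main theorem.** -/
theorem mainM {𝒜 : Set ℕ} {k m J : ℕ} (hm : 4 ≤ m) (hmk : m ≤ k) {c : ℝ} (hc : 0 < c) {i₀ : ℕ}
    (hA : ∀ i ≥ i₀, c * ((2 : ℝ) ^ i) ^ (k + 1 - m) ≤ (cutA 𝒜 k (2 ^ i)).card) {γ κ : ℝ}
    (hγ0 : 0 ≤ γ) (hκ : 0 < κ) (hγ : γ * k * (2 ^ J + 1) < 2 ^ J - k) :
    ∀ᵐ α ∂(volume : Measure (Fin (m + J) → ℝ)), (∀ i, α i ∈ Set.Icc (0 : ℝ) 1) →
      ∃ N₀ : ℝ, ∀ N ≥ N₀, Good 𝒜 k (m + J) (κ * N ^ (-γ)) α N := by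
  have hk1 : 1 ≤ k := by omega
  have hk0 : (0 : ℝ) < k := by exact_mod_cast hk1
  set ρ : ℝ := (2 : ℝ) ^ (-(γ * k)) with hρdef
  have hρ : 0 < ρ := Real.rpow_pos_of_pos (by norm_num) _
  have hρ1 : ρ ≤ 1 := Real.rpow_le_one_of_one_le_of_nonpos (by norm_num) (by
    have : 0 ≤ γ * k := by positivity
    linarith)
  have h2ρ : 1 / (2 * ρ) = (2 : ℝ) ^ (γ * k - 1) := by
    rw [hρdef, Real.rpow_sub (by norm_num), Real.rpow_neg (by norm_num), Real.rpow_one]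
    field_simp
  have hq₀ : 2 ^ k * (1 / (2 * ρ)) ^ (2 ^ J) < ρ := by
    rw [h2ρ, hρdef, ← Real.rpow_natCast 2 k, ← Real.rpow_mul_natCast (by norm_num),
      ← Real.rpow_add (by norm_num)]
    refine Real.rpow_lt_rpow_of_exponent_lt (by norm_num) ?_
    push_cast
    nlinarith
  obtain ⟨q, hq1, hq2⟩ := exists_between hq₀
  have hq0 : 0 < q := lt_trans (by positivity) hq1
  have hPr := iter_PrM hm hmk hc hA hρ hρ1 J q hq1
  set A : ℝ := 2 * ((k : ℝ) + 1) * 2 ^ k with hAd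
  have hA0 : 0 < A := by positivity
  set a : ℝ := min (1 / 2) (κ * A ^ (-γ) / 2) with ha
  have hAγ : 0 < A ^ (-γ) := Real.rpow_pos_of_pos hA0 _
  have ha0 : 0 < a := lt_min (by norm_num) (by positivity)
  have ha1 : a ≤ 1 / 2 := min_le_left _ _
  have hall := final_allM hk1 hρ hρ1 hq0 hq2 ha0 ha1 hPr
  rw [νn_eq, ae_restrict_iff' (MeasurableSet.univ_pi fun _ => measurableSet_Icc)] at hall
  filter_upwards [hall] with α hα hα01
  obtain ⟨i₁, hi₁⟩ := hα (fun i _ => hα01 i)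
  refine ⟨2 * ((k : ℝ) + 1) * ((2 : ℝ) ^ i₁) ^ k, fun N hN => ?_⟩
  obtain ⟨i, hi, hNi⟩ := exists_window k hk1 i₁ hN
  have h1 := hi₁ i hi N hNi
  have hN0 : 0 < N := lt_of_lt_of_le (by positivity) hN
  -- comparison of `N` with `2^i`
  have hNup : N ≤ A * ((2 : ℝ) ^ i) ^ k := by
    have h2 := hNi.2.le
    have h3 : ((2 : ℝ) ^ (i + 1)) ^ k = 2 ^ k * ((2 : ℝ) ^ i) ^ k := by
      rw [← mul_pow]
      congr 1
      ring
    rw [h3] at h2
    calc N ≤ _ := h2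
      _ = A * ((2 : ℝ) ^ i) ^ k := by rw [hAd]; ring
  have hpow : ∀ z : ℝ, (((2 : ℝ) ^ i) ^ k) ^ z = (2 : ℝ) ^ (i * (k * z)) := by
    intro z
    rw [← Real.rpow_natCast 2 i, ← Real.rpow_mul_natCast (by norm_num),
      ← Real.rpow_mul (by norm_num)]
    congr 1
    ring
  have hρi : ρ ^ i = (2 : ℝ) ^ (-(γ * k) * i) := by
    rw [hρdef, ← Real.rpow_mul_natCast (by norm_num)]
  have hwidth : 2 * (a * ρ ^ i) ≤ κ * N ^ (-γ) := by
    have h2 : (A * ((2 : ℝ) ^ i) ^ k) ^ (-γ) ≤ N ^ (-γ) :=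
      Real.rpow_le_rpow_of_nonpos hN0 hNup (by linarith)
    rw [Real.mul_rpow hA0.le (by positivity), hpow] at h2
    have h3 : (2 : ℝ) ^ ((i : ℝ) * (k * -γ)) = ρ ^ i := by
      rw [hρi]
      congr 1
      ring
    rw [h3] at h2
    have h4 : 2 * a ≤ κ * A ^ (-γ) := by
      have : a ≤ κ * A ^ (-γ) / 2 := min_le_right _ _
      linarith
    calc 2 * (a * ρ ^ i) = 2 * a * ρ ^ i := by ring
      _ ≤ κ * A ^ (-γ) * ρ ^ i := mul_le_mul_of_nonneg_right h4 (by positivity)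
      _ = κ * (A ^ (-γ) * ρ ^ i) := by ring
      _ ≤ κ * N ^ (-γ) := mul_le_mul_of_nonneg_left h2 hκ.le
  refine h1.mono ?_
  rw [sub_self, abs_zero, zero_add]
  exact hwidth

end Pool.Agent.Q154.War
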