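import Mathlib

/-!
# Oscillatory integrals and the mean square of shifted exponential sums
-/

set_option autoImplicit false

open MeasureTheory Set Finset
open scoped Real

namespace Pool.Agent.Q154.War

/-- `e(x) = exp (2 π i x)` -/
noncomputable def ee (x : ℝ) : ℂ := Complex.exp ((2 * π * x : ℝ) * Complex.I)

lemma norm_ee (x : ℝ) : ‖ee x‖ = 1 := Complex.norm_exp_ofReal_mul_I _

lemma ee_zero : ee 0 = 1 := by simp [ee]

lemma ee_add (x y : ℝ) : ee (x + y) = ee x * ee y := by
  unfold ee
  rw [← Complex.exp_add]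
  congr 1
  push_cast
  ring

lemma ee_neg (x : ℝ) : ee (-x) = (starRingEnd ℂ) (ee x) := by
  unfold ee
  rw [← Complex.exp_conj]
  congr 1
  rw [map_mul, Complex.conj_ofReal, Complex.conj_I]
  push_cast
  ring

lemma ee_sub (x y : ℝ) : ee (x - y) = ee x * (starRingEnd ℂ) (ee y) := by
  rw [sub_eq_add_neg, ee_add, ee_neg]

lemma continuous_ee : Continuous ee := by
  unfold ee
  fun_prop

lemma hasDerivAt_ee {f : ℝ → ℝ} {f' x : ℝ} (hf : HasDerivAt f f' x) :
    HasDerivAt (fun t => ee (f t)) (((2 * π * f' : ℝ) * Complex.I) * ee (f x)) x := by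
  have h1 : HasDerivAt (fun t => ((2 * π * f t : ℝ) : ℂ) * Complex.I)
      (((2 * π * f' : ℝ) : ℂ) * Complex.I) x := by
    have := (hf.const_mul (2 * π)).ofReal_comp
    exact this.mul_const _
  have h2 := h1.cexp
  unfold ee
  convert h2 using 1
  ring

/-- **First derivative test.** -/
theorem osc {f f' f'' : ℝ → ℝ} {a b m : ℝ} (hab : a ≤ b) (hm : 0 < m)
    (h1 : ∀ x, HasDerivAt f (f' x) x) (h2 : ∀ x, HasDerivAt f' (f'' x) x)
    (hc : Continuous f'') (hlow : ∀ x ∈ Icc a b, m ≤ f' x) (hp : ∀ x ∈ Icc a b, 0 ≤ f'' x) :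
    ‖∫ x in a..b, ee (f x)‖ ≤ 1 / (π * m) := by
  have hpi := Real.pi_pos
  have hcf' : Continuous f' := by
    rw [continuous_iff_continuousAt]
    exact fun x => (h2 x).continuousAt
  have hcf : Continuous f := by
    rw [continuous_iff_continuousAt]
    exact fun x => (h1 x).continuousAt
  have hpos : ∀ x ∈ Icc a b, 0 < f' x := fun x hx => hm.trans_le (hlow x hx)
  have hu : uIcc a b = Icc a b := uIcc_of_le hab
  -- the functions of the partial integration
  set u : ℝ → ℂ := fun x => (((2 * π * f' x : ℝ) : ℂ) * Complex.I)⁻¹ with hudef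
  set u' : ℝ → ℂ := fun x => (((-(f'' x) / (2 * π * f' x ^ 2) : ℝ)) : ℂ) * (-Complex.I) with hu'def
  set v : ℝ → ℂ := fun x => ee (f x) with hvdef
  set v' : ℝ → ℂ := fun x => (((2 * π * f' x : ℝ) * Complex.I) * ee (f x)) with hv'def
  have hinv : ∀ x ∈ Icc a b, HasDerivAt (fun t => 1 / (2 * π * f' t)) (-(f'' x) / (2 * π * f' x ^ 2)) x := by
    intro x hx
    have h := (hpos x hx).ne'
    have h3 := (((h2 x).const_mul (2 * π)).inv (by positivity : 2 * π * f' x ≠ 0))
    have h4 : (fun t => 1 / (2 * π * f' t)) = (fun t => 2 * π * f' t)⁻¹ := by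
      ext t
      simp
    rw [h4]
    have h5 : -(f'' x) / (2 * π * f' x ^ 2) = -(2 * π * f'' x) / (2 * π * f' x) ^ 2 := by
      rw [div_eq_div_iff (by positivity) (by positivity)]
      ring
    rw [h5]
    exact h3
  have hueq : ∀ x, u x = ((1 / (2 * π * f' x) : ℝ) : ℂ) * (-Complex.I) := by
    intro x
    rw [hudef]
    simp only [mul_inv, Complex.inv_I]
    push_cast
    ring
  have hu1 : ∀ x ∈ uIcc a b, HasDerivAt u (u' x) x := by
    intro x hx
    rw [hu] at hx
    have h3 := (hinv x hx).ofReal_comp.mul_const (-Complex.I)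
    refine h3.congr_of_eventuallyEq (Filter.Eventually.of_forall fun t => ?_)
    exact hueq t
  have hv1 : ∀ x ∈ uIcc a b, HasDerivAt v (v' x) x := fun x _ => hasDerivAt_ee (h1 x)
  have hu'c : ContinuousOn u' (uIcc a b) := by
    rw [hu]
    refine ContinuousOn.mul ?_ continuousOn_const
    refine Complex.continuous_ofReal.comp_continuousOn ?_
    refine ContinuousOn.div (hc.neg.continuousOn) (by fun_prop) ?_
    intro x hx
    have := hpos x hx
    positivity
  have hv'c : Continuous v' := by
    rw [hv'def]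
    have := continuous_ee.comp hcf
    simp only [Function.comp_def] at this
    fun_prop
  have key := intervalIntegral.integral_mul_deriv_eq_deriv_mul hu1 hv1
    hu'c.intervalIntegrable hv'c.continuousOn.intervalIntegrable
  have e1 : ∫ x in a..b, ee (f x) = ∫ x in a..b, u x * v' x := by
    refine intervalIntegral.integral_congr fun x hx => ?_
    rw [hu] at hx
    have h := (hpos x hx).ne'
    simp only [hudef, hv'def]
    rw [← mul_assoc, inv_mul_cancel₀, one_mul]
    have : (2 * π * f' x : ℝ) ≠ 0 := by positivity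
    exact mul_ne_zero (by exact_mod_cast this) Complex.I_ne_zero
  rw [e1, key]
  have nu : ∀ x ∈ Icc a b, ‖u x‖ = 1 / (2 * π * f' x) := by
    intro x hx
    rw [hueq, norm_mul, norm_neg, Complex.norm_I, mul_one, Complex.norm_real, Real.norm_eq_abs,
      abs_of_nonneg]
    have := hpos x hx
    positivity
  have nint : ‖∫ x in a..b, u' x * v x‖ ≤ 1 / (2 * π * f' a) - 1 / (2 * π * f' b) := by
    have hcont : ContinuousOn (fun x => -(f'' x) / (2 * π * f' x ^ 2)) (uIcc a b) := by
      rw [hu]
      refine ContinuousOn.div (hc.neg.continuousOn) (by fun_prop) ?_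
      intro x hx
      have := hpos x hx
      positivity
    have h5 : ∫ x in a..b, -(f'' x) / (2 * π * f' x ^ 2) =
        1 / (2 * π * f' b) - 1 / (2 * π * f' a) := by
      refine intervalIntegral.integral_eq_sub_of_hasDerivAt
        (f := fun x => 1 / (2 * π * f' x)) (fun x hx => ?_) hcont.intervalIntegrable
      rw [hu] at hx
      exact hinv x hx
    have h6 : ‖∫ x in a..b, u' x * v x‖ ≤ ∫ x in a..b, -(-(f'' x) / (2 * π * f' x ^ 2)) := by
      refine intervalIntegral.norm_integral_le_of_norm_le hab ?_ (hcont.intervalIntegrable.neg)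
      refine Filter.Eventually.of_forall fun x hx => ?_
      have hx' : x ∈ Icc a b := Ioc_subset_Icc_self hx
      have hh := hpos x hx'
      have hh' := hp x hx'
      rw [hu'def, hvdef]
      simp only
      rw [norm_mul, norm_ee, mul_one, norm_mul, norm_neg, Complex.norm_I, mul_one,
        Complex.norm_real, Real.norm_eq_abs, abs_of_nonpos]
      rw [neg_div]
      exact neg_nonpos.2 (by positivity)
    rw [intervalIntegral.integral_neg, h5] at h6
    linarith
  have ha := hlow a (left_mem_Icc.2 hab)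
  have hpa := hpos a (left_mem_Icc.2 hab)
  have hpb := hpos b (right_mem_Icc.2 hab)
  calc ‖u b * v b - u a * v a - ∫ x in a..b, u' x * v x‖
      ≤ ‖u b * v b - u a * v a‖ + ‖∫ x in a..b, u' x * v x‖ := norm_sub_le _ _
    _ ≤ (‖u b * v b‖ + ‖u a * v a‖) + (1 / (2 * π * f' a) - 1 / (2 * π * f' b)) :=
        add_le_add (norm_sub_le _ _) nint
    _ = (1 / (2 * π * f' b) + 1 / (2 * π * f' a)) + (1 / (2 * π * f' a) - 1 / (2 * π * f' b)) := by
        rw [norm_mul, norm_mul, hvdef]
        simp only [norm_ee, mul_one]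
        rw [nu a (left_mem_Icc.2 hab), nu b (right_mem_Icc.2 hab)]
    _ = 1 / (π * f' a) := by
        field_simp
        ring
    _ ≤ 1 / (π * m) := by
        apply one_div_le_one_div_of_le (by positivity)
        exact mul_le_mul_of_nonneg_left ha hpi.le

end Pool.Agent.Q154.War
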