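import Pool.Agent.Q154.War.MixStep

/-!
# The variance of the shifted exponential sum (Parseval)
-/

set_option autoImplicit false
set_option linter.unusedSectionVars false

open MeasureTheory Set Finset
open scoped Real

namespace Pool.Agent.Q154.War

/-- first derivative test, both signs -/
lemma osc_lin {k : ℕ} (hk : 2 ≤ k) {θ a b : ℝ} {n : ℤ} (hθ : 0 ≤ θ) (ha : 0 ≤ a) (hab : a ≤ b)
    (hb : θ * (k * b ^ (k - 1)) ≤ 1 / 2) (hn : n ≠ 0) :
    ‖∫ y in a..b, ee (θ * y ^ k - n * y)‖ ≤ 1 / (π * (|(n : ℝ)| / 2)) := by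
  have hd : ∀ y : ℝ, HasDerivAt (fun y : ℝ => θ * y ^ k - n * y)
      (θ * (k * y ^ (k - 1)) - n) y := by
    intro y
    have h1 := ((hasDerivAt_pow k y).const_mul θ).fun_sub ((hasDerivAt_id' y).const_mul (n : ℝ))
    rw [mul_one] at h1
    exact h1
  have hd2 : ∀ y : ℝ, HasDerivAt (fun y : ℝ => θ * (k * y ^ (k - 1)) - n)
      (θ * (k * (((k - 1 : ℕ) : ℝ) * y ^ (k - 1 - 1)))) y := by
    intro y
    have h1 := (((hasDerivAt_pow (k - 1) y).const_mul (k : ℝ)).const_mul θ).sub_const (n : ℝ)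
    simpa using h1
  have hmono : ∀ y ∈ Set.Icc a b, θ * (k * y ^ (k - 1)) ≤ 1 / 2 := by
    intro y hy
    refine le_trans ?_ hb
    refine mul_le_mul_of_nonneg_left ?_ hθ
    refine mul_le_mul_of_nonneg_left ?_ (Nat.cast_nonneg k)
    exact pow_le_pow_left₀ (ha.trans hy.1) hy.2 _
  have hnn : ∀ y ∈ Set.Icc a b, 0 ≤ θ * (k * y ^ (k - 1)) := by
    intro y hy
    have := ha.trans hy.1
    positivity
  have hnn2 : ∀ y ∈ Set.Icc a b, 0 ≤ θ * (k * (((k - 1 : ℕ) : ℝ) * y ^ (k - 1 - 1))) := by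
    intro y hy
    have := ha.trans hy.1
    positivity
  rcases lt_or_gt_of_ne hn with hneg | hpos
  · -- `n < 0`
    have hn1 : (n : ℝ) ≤ -1 := by
      have : n ≤ -1 := by omega
      exact_mod_cast this
    refine osc (f' := fun y => θ * (k * y ^ (k - 1)) - n)
      (f'' := fun y => θ * (k * (((k - 1 : ℕ) : ℝ) * y ^ (k - 1 - 1)))) hab ?_ hd hd2
      (by fun_prop) ?_ hnn2
    · have : 0 < |(n : ℝ)| := abs_pos.2 (by exact_mod_cast hn)
      positivity
    · intro y hy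
      have h1 := hnn y hy
      rw [abs_of_neg (by linarith)]
      linarith
  · -- `n > 0`
    have hn1 : (1 : ℝ) ≤ n := by
      have : 1 ≤ n := by omega
      exact_mod_cast this
    have e1 : ∫ y in a..b, ee (θ * y ^ k - n * y) =
        ∫ y in a..b, (fun y => ee (θ * y ^ k - n * y)) (a + b - y) := by
      rw [intervalIntegral.integral_comp_sub_left (fun y => ee (θ * y ^ k - n * y)) (a + b)]
      congr 1
      · ring
      · ring
    rw [e1]
    have hd' : ∀ y : ℝ, HasDerivAt (fun y : ℝ => θ * (a + b - y) ^ k - n * (a + b - y))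
        (-(θ * (k * (a + b - y) ^ (k - 1)) - n)) y := by
      intro y
      have h0 : HasDerivAt (fun y : ℝ => a + b - y) (-1) y := by
        simpa using (hasDerivAt_id y).const_sub (a + b)
      have h1 := (hd (a + b - y)).comp y h0
      have e : (θ * (k * (a + b - y) ^ (k - 1)) - n) * -1 =
          -(θ * (k * (a + b - y) ^ (k - 1)) - n) := by ring
      rw [e] at h1
      exact h1
    have hd2' : ∀ y : ℝ, HasDerivAt (fun y : ℝ => -(θ * (k * (a + b - y) ^ (k - 1)) - n))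
        (θ * (k * (((k - 1 : ℕ) : ℝ) * (a + b - y) ^ (k - 1 - 1)))) y := by
      intro y
      have h0 : HasDerivAt (fun y : ℝ => a + b - y) (-1) y := by
        simpa using (hasDerivAt_id y).const_sub (a + b)
      have h1 := ((hd2 (a + b - y)).comp y h0).neg
      have e : -(θ * (k * (((k - 1 : ℕ) : ℝ) * (a + b - y) ^ (k - 1 - 1))) * -1) =
          θ * (k * (((k - 1 : ℕ) : ℝ) * (a + b - y) ^ (k - 1 - 1))) := by ring
      rw [e] at h1
      exact h1
    have hmem : ∀ y ∈ Set.Icc a b, a + b - y ∈ Set.Icc a b := fun y hy =>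
      ⟨by linarith [hy.2], by linarith [hy.1]⟩
    refine osc (f' := fun y => -(θ * (k * (a + b - y) ^ (k - 1)) - n))
      (f'' := fun y => θ * (k * (((k - 1 : ℕ) : ℝ) * (a + b - y) ^ (k - 1 - 1)))) hab ?_ hd' hd2'
      (by fun_prop) ?_ (fun y hy => hnn2 _ (hmem y hy))
    · have : 0 < |(n : ℝ)| := abs_pos.2 (by exact_mod_cast hn)
      positivity
    · intro y hy
      have h1 := hmono _ (hmem y hy)
      rw [abs_of_pos (by linarith)]
      linarith

/-- the Fourier coefficients in the shift -/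
lemma coeff_S (k P : ℕ) (θ : ℝ) (n : ℤ) :
    fourierCoeffOn (zero_lt_one (α := ℝ)) (fun t => S k P θ t) n =
      ∫ y in (P : ℝ)..(4 * P : ℝ), ee (θ * y ^ k - n * y) := by
  rw [fourierCoeffOn_eq_integral]
  have h1 : ∀ t : ℝ, (fourier (-n) (t : AddCircle ((1 : ℝ) - 0))) • S k P θ t =
      ∑ i ∈ range (3 * P), ee (θ * ((P : ℝ) + i + t) ^ k - n * ((P : ℝ) + i + t)) := by
    intro t
    rw [S_eq, smul_eq_mul, Finset.mul_sum]
    refine Finset.sum_congr rfl fun i _ => ?_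
    have e1 : (fourier (-n) (t : AddCircle ((1 : ℝ) - 0)) : ℂ) = ee (-(n * t)) := by
      rw [fourier_coe_apply]
      unfold ee
      congr 1
      push_cast
      ring
    have e2 : ee (-(n * t)) = ee (-(n * ((P : ℝ) + i + t))) := by
      have h3 : -((n : ℝ) * t) = -(n * ((P : ℝ) + i + t)) + ((n * ((P : ℤ) + i) : ℤ) : ℝ) := by
        push_cast
        ring
      rw [h3, ee_add]
      have h4 : ee (((n * ((P : ℤ) + i) : ℤ) : ℝ)) = 1 := by
        unfold ee
        have h5 := Complex.exp_int_mul_two_pi_mul_I (n * ((P : ℤ) + i))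
        rw [← h5]
        congr 1
        push_cast
        ring
      rw [h4, mul_one]
    rw [e1, e2, ← ee_add]
    congr 1
    ring
  have h2 : (1 / ((1 : ℝ) - 0)) •
      ∫ t in (0 : ℝ)..1, (fourier (-n) (t : AddCircle ((1 : ℝ) - 0))) • S k P θ t =
      ∫ t in (0 : ℝ)..1, ∑ i ∈ range (3 * P),
        ee (θ * ((P : ℝ) + i + t) ^ k - n * ((P : ℝ) + i + t)) := by
    have h10 : (1 : ℝ) / (1 - 0) = 1 := by norm_num
    rw [h10, one_smul]
    refine intervalIntegral.integral_congr fun t _ => ?_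
    exact h1 t
  rw [h2, intervalIntegral.integral_finsetSum]
  · have h3 := sum_unit (f := fun y : ℝ => ee (θ * y ^ k - n * y))
      (continuous_ee.comp (by fun_prop)) (P : ℝ) (3 * P)
    have e : (P : ℝ) + ((3 * P : ℕ) : ℝ) = 4 * P := by
      push_cast
      ring
    rw [e] at h3
    exact h3
  · intro i _
    exact (continuous_ee.comp (by fun_prop)).intervalIntegrable _ _

lemma hasSum_major :
    HasSum (fun n : ℤ => if n = 0 then (0 : ℝ) else 4 / π ^ 2 * (1 / (n : ℝ) ^ 2)) (4 / 3) := by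
  have hpi := Real.pi_pos
  have hz : HasSum (fun n : ℕ => 1 / (n : ℝ) ^ 2) (π ^ 2 / 6) := hasSum_zeta_two
  have hz1 : HasSum (fun n : ℕ => 1 / ((n : ℝ) + 1) ^ 2) (π ^ 2 / 6) := by
    have h1 := (hasSum_nat_add_iff' (f := fun n : ℕ => 1 / (n : ℝ) ^ 2) 1).2 hz
    simpa using h1
  have hz2 := hz1.mul_left (4 / π ^ 2)
  set g : ℤ → ℝ := fun n => if n = 0 then (0 : ℝ) else 4 / π ^ 2 * (1 / (n : ℝ) ^ 2) with hg
  have e1 : (fun n : ℕ => g ((n : ℤ) + 1)) = fun n : ℕ => 4 / π ^ 2 * (1 / ((n : ℝ) + 1) ^ 2) := by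
    ext n
    rw [hg]
    have h1 : ((n : ℤ) + 1) ≠ 0 := by omega
    simp only [if_neg h1]
    push_cast
    rfl
  have e2 : (fun n : ℕ => g (-((n : ℤ) + 1))) =
      fun n : ℕ => 4 / π ^ 2 * (1 / ((n : ℝ) + 1) ^ 2) := by
    ext n
    rw [hg]
    have h1 : (-((n : ℤ) + 1)) ≠ 0 := by omega
    simp only [if_neg h1]
    push_cast
    rw [neg_sq]
  have h3 := HasSum.of_add_one_of_neg_add_one (f := g) (m := 4 / π ^ 2 * (π ^ 2 / 6))
    (m' := 4 / π ^ 2 * (π ^ 2 / 6)) (by rw [e1]; exact hz2) (by rw [e2]; exact hz2)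
  have e : 4 / π ^ 2 * (π ^ 2 / 6) + g 0 + 4 / π ^ 2 * (π ^ 2 / 6) = 4 / 3 := by
    have h0 : g 0 = 0 := by simp [hg]
    rw [h0]
    field_simp
    norm_num
  rw [e] at h3
  exact h3

/-- **The variance is bounded for small frequencies.** -/
theorem Am_sub_small {k P : ℕ} (hk : 2 ≤ k) {θ : ℝ} (hθ : 0 ≤ θ)
    (hb : θ * (k * (4 * P : ℝ) ^ (k - 1)) ≤ 1 / 2) : Am k P θ - ‖Im k P θ‖ ^ 2 ≤ 2 := by
  have hP0 : (0 : ℝ) ≤ P := Nat.cast_nonneg P
  have hL2 : MemLp (fun t => S k P θ t) 2 (volume.restrict (Set.Ioc (0 : ℝ) 1)) := by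
    refine MemLp.of_bound (C := 3 * P) ?_ ?_
    · exact (continuous_S_right k P θ).aestronglyMeasurable
    · exact Filter.Eventually.of_forall fun t => norm_S_le k P θ t
  have hsum := hasSum_sq_fourierCoeffOn (zero_lt_one (α := ℝ)) hL2
  have e1 : ((1 : ℝ) - 0)⁻¹ • ∫ x in (0 : ℝ)..1, ‖S k P θ x‖ ^ 2 = Am k P θ := by
    unfold Am
    simp
  rw [e1] at hsum
  have h0 : fourierCoeffOn (zero_lt_one (α := ℝ)) (fun t => S k P θ t) 0 = Im k P θ := by
    rw [fourierCoeffOn_eq_integral]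
    simp [Im]
  have hs2 : HasSum (fun n : ℤ => if n = 0 then 0 else
      ‖fourierCoeffOn (zero_lt_one (α := ℝ)) (fun t => S k P θ t) n‖ ^ 2)
      (Am k P θ - ‖Im k P θ‖ ^ 2) := by
    have h1 := hsum.update 0 0
    have e2 : (0 : ℝ) - ‖fourierCoeffOn (zero_lt_one (α := ℝ)) (fun t => S k P θ t) 0‖ ^ 2 +
        Am k P θ = Am k P θ - ‖Im k P θ‖ ^ 2 := by
      rw [h0]
      ring
    rw [e2] at h1
    have e3 : (Function.update (fun n : ℤ =>
        ‖fourierCoeffOn (zero_lt_one (α := ℝ)) (fun t => S k P θ t) n‖ ^ 2) 0 0) =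
        (fun n : ℤ => if n = 0 then 0 else
          ‖fourierCoeffOn (zero_lt_one (α := ℝ)) (fun t => S k P θ t) n‖ ^ 2) := by
      ext n
      by_cases hn : n = 0
      · subst hn
        simp
      · simp [Function.update, hn]
    rw [e3] at h1
    exact h1
  -- the majorant
  have hz : HasSum (fun n : ℕ => 1 / (n : ℝ) ^ 2) (π ^ 2 / 6) := hasSum_zeta_two
  have hz1 : HasSum (fun n : ℕ => 1 / ((n : ℝ) + 1) ^ 2) (π ^ 2 / 6) := by
    have h1 := (hasSum_nat_add_iff' (f := fun n : ℕ => 1 / (n : ℝ) ^ 2) 1).2 hz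
    simpa using h1
  have hpi := Real.pi_pos
  have hg : HasSum (fun n : ℤ => if n = 0 then (0 : ℝ) else 4 / π ^ 2 * (1 / (n : ℝ) ^ 2)) (4 / 3) :=
    hasSum_major
  have hle : ∀ n : ℤ, (if n = 0 then (0 : ℝ) else
      ‖fourierCoeffOn (zero_lt_one (α := ℝ)) (fun t => S k P θ t) n‖ ^ 2) ≤
      if n = 0 then (0 : ℝ) else 4 / π ^ 2 * (1 / (n : ℝ) ^ 2) := by
    intro n
    by_cases hn : n = 0
    · rw [if_pos hn, if_pos hn]
    · rw [if_neg hn, if_neg hn, coeff_S]
      have h1 := osc_lin hk (n := n) hθ hP0 (by linarith : (P : ℝ) ≤ 4 * P) hb hn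
      have h2 : (1 / (π * (|(n : ℝ)| / 2))) ^ 2 = 4 / π ^ 2 * (1 / (n : ℝ) ^ 2) := by
        have hn0 : (n : ℝ) ≠ 0 := by exact_mod_cast hn
        rw [div_pow, mul_pow, div_pow, sq_abs]
        field_simp
        norm_num
      rw [← h2]
      exact pow_le_pow_left₀ (norm_nonneg _) h1 2
  have h5 := hasSum_le hle hs2 hg
  linarith

end Pool.Agent.Q154.War
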