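import Pool.Agent.Q154.War.Bd

/-!
# Plancherel and the variance of a random sum of translates
-/

set_option autoImplicit false
set_option linter.unusedSectionVars false

open MeasureTheory Set Finset FourierTransform
open scoped Real

namespace Pool.Agent.Q154.War

lemma fourier_ee (f : ℝ → ℂ) (θ : ℝ) : 𝓕 f θ = ∫ v, ee (-(v * θ)) * f v := by
  rw [Real.fourier_real_eq_integral_exp_smul]
  refine integral_congr_ae (Filter.Eventually.of_forall fun v => ?_)
  simp only [smul_eq_mul]
  congr 1
  unfold ee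
  congr 3
  ring

/-- **Plancherel** for continuous integrable functions with integrable transform. -/
theorem planch {f : ℝ → ℂ} (hc : Continuous f) (hf : Integrable f) (hg : Integrable (𝓕 f)) :
    ∫ θ, ‖𝓕 f θ‖ ^ 2 = ∫ x, ‖f x‖ ^ 2 := by
  have h := VectorFourier.integral_sesq_fourierIntegral_eq_neg_flip
    (innerSL ℂ : ℂ →L⋆[ℂ] ℂ →L[ℂ] ℂ) (L := innerₗ ℝ) (e := 𝐞) (μ := volume) (ν := volume)
    Real.continuous_fourierChar continuous_inner hf hg
  have hinv := hc.fourierInv_fourier_eq hf hg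
  have h1 : ∀ x, VectorFourier.fourierIntegral 𝐞 volume (-(innerₗ ℝ).flip) (𝓕 f) x = f x := by
    intro x
    have h2 : VectorFourier.fourierIntegral 𝐞 volume (-(innerₗ ℝ).flip) (𝓕 f) x =
        𝓕⁻ (𝓕 f) x := by
      rw [Real.fourierInv_eq]
      unfold VectorFourier.fourierIntegral
      refine integral_congr_ae (Filter.Eventually.of_forall fun v => ?_)
      simp
    rw [h2, hinv]
  have h3 : ∀ ξ, VectorFourier.fourierIntegral 𝐞 volume (innerₗ ℝ) f ξ = 𝓕 f ξ := fun ξ => rfl
  simp only [h1, h3] at h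
  have h4 : ∀ z : ℂ, (innerSL ℂ : ℂ →L⋆[ℂ] ℂ →L[ℂ] ℂ) z z = ((‖z‖ ^ 2 : ℝ) : ℂ) := by
    intro z
    rw [innerSL_apply_apply, inner_self_eq_norm_sq_to_K]
    simp
  simp only [h4] at h
  rw [integral_complex_ofReal, integral_complex_ofReal] at h
  exact_mod_cast h

lemma fourier_translate (f : ℝ → ℂ) (a θ : ℝ) :
    ∫ v, ee (-(v * θ)) * f (v - a) = ee (-(a * θ)) * 𝓕 f θ := by
  have h1 : ∫ v, ee (-(v * θ)) * f (v - a) = ∫ v, ee (-((v + a) * θ)) * f v := by
    have := integral_sub_right_eq_self (μ := (volume : Measure ℝ))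
      (fun v => ee (-((v + a) * θ)) * f v) a
    simpa using this
  rw [h1, fourier_ee, ← integral_const_mul]
  refine integral_congr_ae (Filter.Eventually.of_forall fun v => ?_)
  simp only
  rw [← mul_assoc, ← ee_add]
  congr 2
  ring

/-- variance of a bounded complex random variable -/
lemma variance_complex {Ω : Type*} [MeasurableSpace Ω] {μ : Measure Ω} [IsProbabilityMeasure μ]
    {X : Ω → ℂ} (hX : Integrable X μ) (hX2 : Integrable (fun ω => ‖X ω‖ ^ 2) μ) :
    ∫ ω, ‖X ω - ∫ ω', X ω' ∂μ‖ ^ 2 ∂μ = ∫ ω, ‖X ω‖ ^ 2 ∂μ - ‖∫ ω, X ω ∂μ‖ ^ 2 := by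
  set m := ∫ ω, X ω ∂μ with hm
  have h1 : ∀ ω, ‖X ω - m‖ ^ 2 =
      ‖X ω‖ ^ 2 + (‖m‖ ^ 2 - 2 * (X ω * (starRingEnd ℂ) m).re) := by
    intro t
    rw [← Complex.normSq_eq_norm_sq, Complex.normSq_sub, ← Complex.normSq_eq_norm_sq,
      ← Complex.normSq_eq_norm_sq]
    ring
  have hi : Integrable (fun ω => X ω * (starRingEnd ℂ) m) μ := hX.mul_const _
  have hi2 : Integrable (fun ω => (X ω * (starRingEnd ℂ) m).re) μ := hi.re
  have h2 : ∫ ω, (X ω * (starRingEnd ℂ) m).re ∂μ = ‖m‖ ^ 2 := by
    have h3 : ∫ ω, (X ω * (starRingEnd ℂ) m) ∂μ = m * (starRingEnd ℂ) m := by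
      rw [integral_mul_const]
    have h4 := congrArg Complex.re h3
    rw [Complex.mul_conj, Complex.ofReal_re, Complex.normSq_eq_norm_sq] at h4
    rw [← h4]
    exact integral_re hi
  simp only [h1]
  have hi3 : Integrable (fun ω => 2 * (X ω * (starRingEnd ℂ) m).re) μ := hi2.const_mul 2
  have hi4 : Integrable (fun ω => ‖m‖ ^ 2 - 2 * (X ω * (starRingEnd ℂ) m).re) μ :=
    (integrable_const _).sub hi3
  rw [integral_add hX2 hi4, integral_sub (integrable_const _) hi3, integral_const_mul, h2]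
  simp
  ring

section Var

variable {Ω : Type*} [MeasurableSpace Ω] {μ : Measure Ω} [IsProbabilityMeasure μ] {ι : Type*}
  {F : Finset ι} {s : ι → Ω → ℝ} {w : ℝ → ℝ}

/-- the random sum of translates -/
noncomputable def rr (F : Finset ι) (s : ι → Ω → ℝ) (w : ℝ → ℝ) (ω : Ω) (N : ℝ) : ℝ :=
  ∑ x ∈ F, w (N - s x ω)

/-- its exponential sum -/
noncomputable def TT (F : Finset ι) (s : ι → Ω → ℝ) (θ : ℝ) (ω : Ω) : ℂ :=
  ∑ x ∈ F, ee (-(s x ω * θ))

/-- its mean value -/
noncomputable def VV (μ : Measure Ω) (F : Finset ι) (s : ι → Ω → ℝ) (w : ℝ → ℝ) (N : ℝ) : ℝ :=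
  ∫ ω, rr F s w ω N ∂μ

lemma norm_TT_le (θ : ℝ) (ω : Ω) : ‖TT F s θ ω‖ ≤ F.card := by
  unfold TT
  refine (norm_sum_le _ _).trans ?_
  simp [norm_ee]

lemma measurable_TT (hs : ∀ x, Measurable (s x)) :
    Measurable fun p : Ω × ℝ => TT F s p.2 p.1 := by
  unfold TT
  refine Finset.measurable_sum _ fun x _ => ?_
  refine continuous_ee.measurable.comp ?_
  exact (((hs x).comp measurable_fst).mul measurable_snd).neg

lemma measurable_TT_left (hs : ∀ x, Measurable (s x)) (θ : ℝ) :
    Measurable fun ω => TT F s θ ω := by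
  unfold TT
  refine Finset.measurable_sum _ fun x _ => ?_
  exact continuous_ee.measurable.comp ((hs x).mul_const θ).neg

lemma continuous_TT (ω : Ω) : Continuous fun θ => TT F s θ ω := by
  unfold TT
  refine continuous_finsetSum _ fun x _ => ?_
  exact continuous_ee.comp (by fun_prop)

lemma integrable_TT (hs : ∀ x, Measurable (s x)) (θ : ℝ) : Integrable (fun ω => TT F s θ ω) μ := by
  refine Integrable.of_bound (measurable_TT_left hs θ).aestronglyMeasurable F.card ?_
  exact Filter.Eventually.of_forall fun ω => norm_TT_le θ ω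

lemma integrable_TT_sq (hs : ∀ x, Measurable (s x)) (θ : ℝ) :
    Integrable (fun ω => ‖TT F s θ ω‖ ^ 2) μ := by
  refine Integrable.of_bound ((measurable_TT_left hs θ).norm.pow_const 2).aestronglyMeasurable
    ((F.card : ℝ) ^ 2) ?_
  refine Filter.Eventually.of_forall fun ω => ?_
  rw [Real.norm_eq_abs, abs_of_nonneg (by positivity)]
  exact pow_le_pow_left₀ (norm_nonneg _) (norm_TT_le θ ω) 2

/-- the mean of `TT` -/
noncomputable def TB (μ : Measure Ω) (F : Finset ι) (s : ι → Ω → ℝ) (θ : ℝ) : ℂ :=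
  ∫ ω, TT F s θ ω ∂μ

lemma norm_TB_le (θ : ℝ) : ‖TB μ F s θ‖ ≤ F.card := by
  unfold TB
  refine (norm_integral_le_of_norm_le_const (C := (F.card : ℝ))
    (Filter.Eventually.of_forall fun ω => norm_TT_le θ ω)).trans_eq ?_
  simp

lemma continuous_TB (hs : ∀ x, Measurable (s x)) : Continuous (TB μ F s) := by
  unfold TB
  refine continuous_of_dominated (bound := fun _ => (F.card : ℝ)) ?_ ?_ (integrable_const _) ?_
  · intro θ
    exact (measurable_TT_left hs θ).aestronglyMeasurable
  · intro θ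
    exact Filter.Eventually.of_forall fun ω => norm_TT_le θ ω
  · exact Filter.Eventually.of_forall fun ω => continuous_TT ω

/-- the hypotheses on the weight -/
structure Wt (w : ℝ → ℝ) : Prop where
  cont : Continuous w
  supp : HasCompactSupport w
  nonneg : ∀ u, 0 ≤ w u
  le_one : ∀ u, w u ≤ 1
  four : Integrable (𝓕 fun u => (w u : ℂ))

lemma Wt.int (hw : Wt w) : Integrable w := hw.cont.integrable_of_hasCompactSupport hw.supp

lemma Wt.intC (hw : Wt w) : Integrable fun u => (w u : ℂ) := hw.int.ofReal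

lemma continuous_rr (hw : Wt w) (ω : Ω) : Continuous (rr F s w ω) := by
  unfold rr
  refine continuous_finsetSum _ fun x _ => ?_
  exact hw.cont.comp (by fun_prop)

lemma rr_nonneg (hw : Wt w) (ω : Ω) (N : ℝ) : 0 ≤ rr F s w ω N :=
  Finset.sum_nonneg fun _ _ => hw.nonneg _

lemma rr_le (hw : Wt w) (ω : Ω) (N : ℝ) : rr F s w ω N ≤ F.card := by
  unfold rr
  refine (Finset.sum_le_sum fun x _ => hw.le_one _).trans_eq ?_
  simp

lemma measurable_rr (hw : Wt w) (hs : ∀ x, Measurable (s x)) :
    Measurable fun p : Ω × ℝ => rr F s w p.1 p.2 := by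
  unfold rr
  refine Finset.measurable_sum _ fun x _ => ?_
  refine hw.cont.measurable.comp ?_
  exact measurable_snd.sub ((hs x).comp measurable_fst)

lemma measurable_rr_left (hw : Wt w) (hs : ∀ x, Measurable (s x)) (N : ℝ) :
    Measurable fun ω => rr F s w ω N := by
  unfold rr
  refine Finset.measurable_sum _ fun x _ => ?_
  exact hw.cont.measurable.comp ((hs x).const_sub N)

lemma integrable_rr_left (hw : Wt w) (hs : ∀ x, Measurable (s x)) (N : ℝ) :
    Integrable (fun ω => rr F s w ω N) μ := by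
  refine Integrable.of_bound (measurable_rr_left hw hs N).aestronglyMeasurable F.card ?_
  refine Filter.Eventually.of_forall fun ω => ?_
  rw [Real.norm_eq_abs, abs_of_nonneg (rr_nonneg hw ω N)]
  exact rr_le hw ω N

lemma integrable_rr_right (hw : Wt w) (ω : Ω) : Integrable (rr F s w ω) := by
  unfold rr
  refine integrable_finsetSum _ fun x _ => ?_
  exact hw.int.comp_sub_right _

lemma integrable_rr (hw : Wt w) (hs : ∀ x, Measurable (s x)) :
    Integrable (fun p : Ω × ℝ => rr F s w p.1 p.2) (μ.prod volume) := by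
  unfold rr
  refine integrable_finsetSum _ fun x _ => ?_
  have hm : Measurable fun p : Ω × ℝ => w (p.2 - s x p.1) :=
    hw.cont.measurable.comp (measurable_snd.sub ((hs x).comp measurable_fst))
  rw [integrable_prod_iff hm.aestronglyMeasurable]
  refine ⟨Filter.Eventually.of_forall fun ω => hw.int.comp_sub_right (s x ω), ?_⟩
  have h1 : (fun ω => ∫ y, ‖w (y - s x ω)‖) = fun _ => ∫ y, ‖w y‖ := by
    ext ω
    exact integral_sub_right_eq_self (fun y => ‖w y‖) (s x ω)
  show Integrable (fun ω => ∫ y, ‖w (y - s x ω)‖) μ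
  rw [h1]
  exact integrable_const _

lemma continuous_VV (hw : Wt w) (hs : ∀ x, Measurable (s x)) : Continuous (VV μ F s w) := by
  unfold VV
  refine continuous_of_dominated (bound := fun _ => (F.card : ℝ)) ?_ ?_ (integrable_const _) ?_
  · intro N
    exact (measurable_rr_left hw hs N).aestronglyMeasurable
  · intro N
    refine Filter.Eventually.of_forall fun ω => ?_
    rw [Real.norm_eq_abs, abs_of_nonneg (rr_nonneg hw ω N)]
    exact rr_le hw ω N
  · exact Filter.Eventually.of_forall fun ω => continuous_rr hw ω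

lemma integrable_VV (hw : Wt w) (hs : ∀ x, Measurable (s x)) : Integrable (VV μ F s w) := by
  unfold VV
  exact (integrable_rr (μ := μ) hw hs).integral_prod_right

/-- the Fourier transform of the random sum -/
lemma fourier_rr (hw : Wt w) (ω : Ω) (θ : ℝ) :
    𝓕 (fun N => (rr F s w ω N : ℂ)) θ = 𝓕 (fun u => (w u : ℂ)) θ * TT F s θ ω := by
  rw [fourier_ee]
  unfold rr TT
  push_cast
  simp only [Finset.mul_sum]
  rw [integral_finsetSum]
  · refine Finset.sum_congr rfl fun x _ => ?_
    rw [fourier_translate (fun u => (w u : ℂ)), mul_comm]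
  · intro x _
    have := (hw.intC.comp_sub_right (s x ω))
    refine this.bdd_mul (c := 1) ?_ ?_
    · exact (continuous_ee.comp (by fun_prop)).aestronglyMeasurable
    · exact Filter.Eventually.of_forall fun N => (norm_ee _).le

lemma fourier_VV (hw : Wt w) (hs : ∀ x, Measurable (s x)) (θ : ℝ) :
    𝓕 (fun N => (VV μ F s w N : ℂ)) θ = 𝓕 (fun u => (w u : ℂ)) θ * TB μ F s θ := by
  rw [fourier_ee]
  have h1 : ∀ N, ee (-(N * θ)) * (VV μ F s w N : ℂ) =
      ∫ ω, ee (-(N * θ)) * (rr F s w ω N : ℂ) ∂μ := by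
    intro N
    unfold VV
    rw [← integral_complex_ofReal, integral_const_mul]
  simp only [h1]
  have hint : Integrable (Function.uncurry fun (ω : Ω) (N : ℝ) =>
      ee (-(N * θ)) * (rr F s w ω N : ℂ)) (μ.prod volume) := by
    have h2 : Integrable (fun p : Ω × ℝ => (rr F s w p.1 p.2 : ℂ)) (μ.prod volume) :=
      (integrable_rr (μ := μ) hw hs).ofReal
    refine h2.bdd_mul (c := 1) ?_ ?_
    · refine Measurable.aestronglyMeasurable ?_
      exact continuous_ee.measurable.comp (measurable_snd.mul_const θ).neg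
    · exact Filter.Eventually.of_forall fun N => (norm_ee _).le
  rw [← integral_integral_swap hint]
  have h3 : ∀ ω, ∫ N, ee (-(N * θ)) * (rr F s w ω N : ℂ) =
      𝓕 (fun u => (w u : ℂ)) θ * TT F s θ ω := by
    intro ω
    rw [← fourier_rr hw ω θ, fourier_ee]
  simp only [h3]
  rw [integral_const_mul]
  rfl

/-- the Fourier transform of the fluctuation -/
lemma fourier_fluct (hw : Wt w) (hs : ∀ x, Measurable (s x)) (ω : Ω) (θ : ℝ) :
    𝓕 (fun N => ((rr F s w ω N - VV μ F s w N : ℝ) : ℂ)) θ =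
      𝓕 (fun u => (w u : ℂ)) θ * (TT F s θ ω - TB μ F s θ) := by
  rw [mul_sub, ← fourier_rr hw ω θ, ← fourier_VV hw hs θ, fourier_ee, fourier_ee, fourier_ee,
    ← integral_sub]
  · refine integral_congr_ae (Filter.Eventually.of_forall fun v => ?_)
    simp only
    push_cast
    ring
  · have := (integrable_rr_right (F := F) (s := s) hw ω).ofReal (𝕜 := ℂ)
    refine this.bdd_mul (c := 1) ?_ ?_
    · exact (continuous_ee.comp (by fun_prop)).aestronglyMeasurable
    · exact Filter.Eventually.of_forall fun N => (norm_ee _).le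
  · have := (integrable_VV (μ := μ) (F := F) (s := s) hw hs).ofReal (𝕜 := ℂ)
    refine this.bdd_mul (c := 1) ?_ ?_
    · exact (continuous_ee.comp (by fun_prop)).aestronglyMeasurable
    · exact Filter.Eventually.of_forall fun N => (norm_ee _).le

lemma planch_fluct (hw : Wt w) (hs : ∀ x, Measurable (s x)) (ω : Ω) :
    ∫ N, (rr F s w ω N - VV μ F s w N) ^ 2 =
      ∫ θ, ‖𝓕 (fun u => (w u : ℂ)) θ‖ ^ 2 * ‖TT F s θ ω - TB μ F s θ‖ ^ 2 := by
  have h1 : Integrable (𝓕 fun N => ((rr F s w ω N - VV μ F s w N : ℝ) : ℂ)) := by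
    have e : (𝓕 fun N => ((rr F s w ω N - VV μ F s w N : ℝ) : ℂ)) =
        fun θ => 𝓕 (fun u => (w u : ℂ)) θ * (TT F s θ ω - TB μ F s θ) := by
      ext θ
      exact fourier_fluct hw hs ω θ
    rw [e]
    refine hw.four.mul_bdd (c := F.card + F.card) ?_ ?_
    · exact ((continuous_TT ω).sub (continuous_TB hs)).aestronglyMeasurable
    · refine Filter.Eventually.of_forall fun θ => ?_
      exact (norm_sub_le _ _).trans (add_le_add (norm_TT_le θ ω) (norm_TB_le θ))
  have h2 := planch (f := fun N => ((rr F s w ω N - VV μ F s w N : ℝ) : ℂ)) ?_ ?_ h1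
  · have h3 : ∀ N, (rr F s w ω N - VV μ F s w N) ^ 2 =
        ‖((rr F s w ω N - VV μ F s w N : ℝ) : ℂ)‖ ^ 2 := by
      intro N
      rw [Complex.norm_real, Real.norm_eq_abs, sq_abs]
    simp only [h3]
    rw [← h2]
    refine integral_congr_ae (Filter.Eventually.of_forall fun θ => ?_)
    simp only
    rw [fourier_fluct hw hs ω θ, norm_mul, mul_pow]
  · exact Complex.continuous_ofReal.comp ((continuous_rr hw ω).sub (continuous_VV hw hs))
  · exact ((integrable_rr_right (F := F) (s := s) hw ω).sub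
      (integrable_VV (μ := μ) (F := F) (s := s) hw hs)).ofReal

lemma norm_four_le (hw : Wt w) (θ : ℝ) : ‖𝓕 (fun u => (w u : ℂ)) θ‖ ≤ ∫ u, w u := by
  rw [fourier_ee]
  refine (norm_integral_le_integral_norm _).trans_eq ?_
  refine integral_congr_ae (Filter.Eventually.of_forall fun v => ?_)
  simp only
  rw [norm_mul, norm_ee, one_mul, Complex.norm_real, Real.norm_eq_abs, abs_of_nonneg (hw.nonneg v)]

lemma continuous_four (hw : Wt w) : Continuous (𝓕 fun u => (w u : ℂ)) := by
  have h : (𝓕 fun u => (w u : ℂ)) = fun θ => ∫ v, ee (-(v * θ)) * (w v : ℂ) := by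
    ext θ
    rw [fourier_ee]
  rw [h]
  refine continuous_of_dominated (bound := fun v => ‖(w v : ℂ)‖) ?_ ?_ hw.intC.norm ?_
  · intro θ
    refine (hw.intC.bdd_mul (c := 1) ?_ ?_).aestronglyMeasurable
    · exact (continuous_ee.comp (by fun_prop)).aestronglyMeasurable
    · exact Filter.Eventually.of_forall fun N => (norm_ee _).le
  · intro θ
    refine Filter.Eventually.of_forall fun v => ?_
    rw [norm_mul, norm_ee, one_mul]
  · refine Filter.Eventually.of_forall fun v => ?_
    exact (continuous_ee.comp (by fun_prop)).mul continuous_const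

lemma integrable_four_sq (hw : Wt w) : Integrable fun θ => ‖𝓕 (fun u => (w u : ℂ)) θ‖ ^ 2 := by
  have h1 := hw.four.norm.mul_bdd (c := ∫ u, w u) (g := fun θ => ‖𝓕 (fun u => (w u : ℂ)) θ‖)
    (continuous_four hw).norm.aestronglyMeasurable
    (Filter.Eventually.of_forall fun θ => by
      rw [norm_norm]
      exact norm_four_le hw θ)
  refine h1.congr (Filter.Eventually.of_forall fun θ => ?_)
  simp only
  ring

lemma integral_four_sq (hw : Wt w) : ∫ θ, ‖𝓕 (fun u => (w u : ℂ)) θ‖ ^ 2 ≤ ∫ u, w u := by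
  rw [planch (f := fun u => (w u : ℂ)) (Complex.continuous_ofReal.comp hw.cont) hw.intC hw.four]
  refine integral_mono ?_ hw.int ?_
  · have h2 := hw.int.mul_bdd (c := 1) (g := w) hw.cont.aestronglyMeasurable
      (Filter.Eventually.of_forall fun θ => by
        rw [Real.norm_eq_abs, abs_of_nonneg (hw.nonneg θ)]
        exact hw.le_one θ)
    refine h2.congr (Filter.Eventually.of_forall fun θ => ?_)
    simp only
    rw [Complex.norm_real, Real.norm_eq_abs, sq_abs]
    ring
  · intro u
    simp only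
    rw [Complex.norm_real, Real.norm_eq_abs, sq_abs, sq]
    exact mul_le_of_le_one_left (hw.nonneg u) (hw.le_one u)

/-- the fluctuation kernel is integrable on the product -/
lemma integrable_kern (hw : Wt w) (hs : ∀ x, Measurable (s x)) :
    Integrable (Function.uncurry fun (ω : Ω) (θ : ℝ) =>
      ‖𝓕 (fun u => (w u : ℂ)) θ‖ ^ 2 * ‖TT F s θ ω - TB μ F s θ‖ ^ 2) (μ.prod volume) := by
  have h1 : Integrable (fun p : Ω × ℝ => ‖𝓕 (fun u => (w u : ℂ)) p.2‖ ^ 2) (μ.prod volume) :=
    (integrable_four_sq hw).comp_snd μ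
  refine h1.mul_bdd (c := (F.card + F.card) ^ 2) ?_ ?_
  · refine Measurable.aestronglyMeasurable ?_
    exact (((measurable_TT hs).sub ((continuous_TB hs).measurable.comp measurable_snd)).norm).pow_const 2
  · refine Filter.Eventually.of_forall fun p => ?_
    rw [Real.norm_eq_abs, abs_of_nonneg (by positivity)]
    exact pow_le_pow_left₀ (norm_nonneg _)
      ((norm_sub_le _ _).trans (add_le_add (norm_TT_le _ _) (norm_TB_le _))) 2

/-- **The variance identity.** -/
theorem variance_identity (hw : Wt w) (hs : ∀ x, Measurable (s x)) :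
    ∫ ω, (∫ N, (rr F s w ω N - VV μ F s w N) ^ 2) ∂μ =
      ∫ θ, ‖𝓕 (fun u => (w u : ℂ)) θ‖ ^ 2 *
        (∫ ω, ‖TT F s θ ω‖ ^ 2 ∂μ - ‖TB μ F s θ‖ ^ 2) := by
  simp only [planch_fluct (μ := μ) hw hs]
  rw [integral_integral_swap (integrable_kern hw hs)]
  refine integral_congr_ae (Filter.Eventually.of_forall fun θ => ?_)
  simp only
  rw [integral_const_mul]
  congr 1
  exact variance_complex (integrable_TT hs θ) (integrable_TT_sq hs θ)

lemma integrable_fluct (hw : Wt w) (hs : ∀ x, Measurable (s x)) :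
    Integrable (fun ω => ∫ N, (rr F s w ω N - VV μ F s w N) ^ 2) μ := by
  simp only [planch_fluct (μ := μ) hw hs]
  exact (integrable_kern hw hs).integral_prod_left

lemma integrable_sq_fluct (hw : Wt w) (hs : ∀ x, Measurable (s x)) (ω : Ω) :
    Integrable fun N => (rr F s w ω N - VV μ F s w N) ^ 2 := by
  have h1 : Integrable fun N => rr F s w ω N - VV μ F s w N :=
    (integrable_rr_right (F := F) (s := s) hw ω).sub
      (integrable_VV (μ := μ) (F := F) (s := s) hw hs)
  have h2 := h1.mul_bdd (c := F.card + F.card) (g := fun N => rr F s w ω N - VV μ F s w N)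
    ((continuous_rr hw ω).sub (continuous_VV hw hs)).aestronglyMeasurable
    (Filter.Eventually.of_forall fun N => ?_)
  · refine h2.congr (Filter.Eventually.of_forall fun θ => ?_)
    simp only
    ring
  · refine (norm_sub_le _ _).trans (add_le_add ?_ ?_)
    · rw [Real.norm_eq_abs, abs_of_nonneg (rr_nonneg hw ω N)]
      exact rr_le hw ω N
    · unfold VV
      refine (norm_integral_le_of_norm_le_const (C := (F.card : ℝ))
        (Filter.Eventually.of_forall fun ω => ?_)).trans_eq ?_
      · rw [Real.norm_eq_abs, abs_of_nonneg (rr_nonneg hw ω N)]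
        exact rr_le hw ω N
      · simp

end Var

end Pool.Agent.Q154.War
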