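import Pool.Agent.Q154.War.DenseFew

/-!
# Primes plus one generic shifted power plus generic dilates
-/

set_option autoImplicit false
set_option linter.unusedSectionVars false

open MeasureTheory Set Finset
open scoped Real ENNReal

namespace Pool.Agent.Q154.War

lemma eventually_two_mul_le {τ : ℝ} (hτ : 0 < τ) :
    ∃ i₀ : ℕ, ∀ i ≥ i₀, 2 * ((i : ℝ) + 1) ≤ (2 : ℝ) ^ (τ * i) := by
  have h2 : 1 < (2 : ℝ) ^ τ := Real.one_lt_rpow (by norm_num) hτ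
  have hr : ((2 : ℝ) ^ τ)⁻¹ < 1 := inv_lt_one_of_one_lt₀ h2
  have h0 : 0 < ((2 : ℝ) ^ τ)⁻¹ := by positivity
  have h3 := tendsto_self_mul_const_pow_of_lt_one h0.le hr
  have h4 := tendsto_pow_atTop_nhds_zero_of_lt_one h0.le hr
  have h5 := ((h3.add h4).const_mul 2)
  rw [add_zero, mul_zero] at h5
  obtain ⟨i₀, hi₀⟩ := (h5.eventually (gt_mem_nhds (zero_lt_one (α := ℝ)))).exists_forall_of_atTop
  refine ⟨i₀, fun i hi => ?_⟩
  have h6 := hi₀ i hi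
  have h7 : (2 : ℝ) ^ (τ * i) = ((2 : ℝ) ^ τ) ^ i := Real.rpow_mul_natCast (by norm_num) _ _
  have h8 : 0 < ((2 : ℝ) ^ τ) ^ i := by positivity
  rw [h7]
  have h9 : 2 * ((i : ℝ) * ((2 : ℝ) ^ τ)⁻¹ ^ i + ((2 : ℝ) ^ τ)⁻¹ ^ i) =
      2 * ((i : ℝ) + 1) / ((2 : ℝ) ^ τ) ^ i := by
    rw [inv_pow]
    field_simp
  rw [h9, div_lt_one h8] at h6
  exact h6.le

/-- Chebyshev's lower bound in dyadic form -/
lemma prime_dense {τ : ℝ} (hτ : 0 < τ) :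
    ∃ i₀ : ℕ, ∀ i ≥ i₀, 1 * (2 : ℝ) ^ ((1 - τ) * i) ≤
      (cutB {p : ℕ | p.Prime} (2 ^ i)).card := by
  classical
  obtain ⟨i₀, hi₀⟩ := eventually_two_mul_le hτ
  refine ⟨max i₀ 3, fun i hi => ?_⟩
  have h1 := hi₀ i ((le_max_left _ _).trans hi)
  have hi3 : 3 ≤ i := (le_max_right _ _).trans hi
  have hiR : (0 : ℝ) < i := by
    have : 0 < i := by omega
    exact_mod_cast this
  have hcard : (cutB {p : ℕ | p.Prime} (2 ^ i)).card = Nat.primeCounting (2 ^ i) := by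
    unfold cutB Nat.primeCounting Nat.primeCounting'
    rw [Nat.count_eq_card_filter_range]
    congr 1
    ext x
    simp only [Finset.mem_filter, Set.mem_ofPred_eq]
  rw [hcard]
  have h2 := Chebyshev.pi_ge (2 ^ i)
  refine le_trans ?_ h2
  push_cast
  have hl2 : 0 < Real.log 2 := Real.log_pos (by norm_num)
  have hlog : Real.log ((2 : ℝ) ^ i) = i * Real.log 2 := Real.log_pow _ _
  have hlog2 : Real.log ((2 : ℝ) ^ i + 1) ≤ (i + 1) * Real.log 2 := by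
    have h3 : (2 : ℝ) ^ i + 1 ≤ 2 ^ (i + 1) := by
      rw [pow_succ]
      have : (1 : ℝ) ≤ 2 ^ i := one_le_pow₀ (by norm_num)
      linarith
    calc Real.log ((2 : ℝ) ^ i + 1) ≤ Real.log ((2 : ℝ) ^ (i + 1)) :=
          Real.log_le_log (by positivity) h3
      _ = (i + 1) * Real.log 2 := by
          rw [Real.log_pow]
          push_cast
          ring
  rw [hlog, le_div_iff₀ (by positivity), one_mul]
  have e1 : (2 : ℝ) ^ ((1 - τ) * i) * (2 : ℝ) ^ (τ * i) = 2 ^ i := by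
    rw [← Real.rpow_add (by norm_num), ← Real.rpow_natCast 2 i]
    congr 1
    ring
  have hx : 0 < (2 : ℝ) ^ ((1 - τ) * i) := Real.rpow_pos_of_pos (by norm_num) _
  have h4 : (2 : ℝ) ^ ((1 - τ) * i) * (2 * ((i : ℝ) + 1)) ≤ 2 ^ i := by
    rw [← e1]
    exact mul_le_mul_of_nonneg_left h1 hx.le
  have h5 : 2 * ((i : ℝ) + 1) ≤ 2 ^ i := by
    have h6 : 2 * (i + 1) ≤ 2 ^ i := by
      clear h1 h2 hcard hlog hlog2 h4 e1 hx hiR hi
      induction i, hi3 using Nat.le_induction with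
      | base => norm_num
      | succ n hn ih =>
        rw [pow_succ]
        omega
    exact_mod_cast h6
  have h7 : (2 : ℝ) ^ ((1 - τ) * i) * i + (i + 1) ≤ 2 ^ i := by nlinarith
  nlinarith

/-- the powers of two -/
lemma slow_two_pow : Slow {b : ℕ | ∃ j : ℕ, b = 2 ^ j} := by
  intro ε hε
  refine ⟨max 1 ((2 : ℝ) ^ (1 / ε)), fun X hX => ?_⟩
  have hX1 : 1 ≤ X := (le_max_left _ _).trans hX
  have hX2 : (2 : ℝ) ^ (1 / ε) ≤ X := (le_max_right _ _).trans hX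
  have hX0 : 0 < X := by linarith
  have h2 : 2 ≤ X ^ ε := by
    calc (2 : ℝ) = ((2 : ℝ) ^ (1 / ε)) ^ ε := by
          rw [← Real.rpow_mul (by norm_num), one_div, inv_mul_cancel₀ hε.ne', Real.rpow_one]
      _ ≤ X ^ ε := Real.rpow_le_rpow (by positivity) hX2 hε.le
  set M := ⌊X⌋₊ with hM
  have hM1 : 1 ≤ M := Nat.one_le_floor_iff _ |>.2 hX1
  obtain ⟨h3, h4⟩ := exists_win hM1
  refine ⟨2 ^ Nat.log 2 M, ⟨_, rfl⟩, ?_, ?_⟩
  · have h5 : X < ((M + 1 : ℕ) : ℝ) := by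
      push_cast
      exact Nat.lt_floor_add_one X
    have h6 : ((M + 1 : ℕ) : ℝ) ≤ ((2 ^ (Nat.log 2 M + 1) : ℕ) : ℝ) := by exact_mod_cast h4
    have h7 : X ≤ 2 * ((2 ^ Nat.log 2 M : ℕ) : ℝ) := by
      rw [pow_succ] at h6
      push_cast at h5 h6 ⊢
      linarith
    rw [Real.rpow_sub hX0, Real.rpow_one, div_le_iff₀ (by positivity)]
    have h8 : (0 : ℝ) ≤ ((2 ^ Nat.log 2 M : ℕ) : ℝ) := Nat.cast_nonneg _
    nlinarith
  · have h5 : ((2 ^ Nat.log 2 M : ℕ) : ℝ) ≤ (M : ℝ) := by exact_mod_cast h3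
    exact h5.trans (Nat.floor_le hX0.le)

/-- **A dense set, one generic shifted power, several generic dilates.** -/
theorem dense_all {A : Set ℕ} {τ : ℝ}
    (hA : ∀ σ : ℝ, τ < σ → ∃ i₀ : ℕ, ∀ i ≥ i₀, 1 * (2 : ℝ) ^ ((1 - σ) * i) ≤
      (cutB A (2 ^ i)).card) :
    ∀ᵐ α ∂ν1, ∀ k : ℕ, 2 ≤ k → ∀ (J : ℕ) (B : Fin J → Set ℕ), (∀ i, Slow (B i)) →
      ∀ᵐ β : Fin J → ℝ, (∀ i, 0 < β i) →
        (1 < 2 ^ J * (1 / (k : ℝ) - τ) →
          ∃ N₀ : ℕ, ∀ N ≥ N₀, N ∈ SS (addF A (shf k) α) B β) ∧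
        ∀ ε : ℝ, 0 < ε → ∃ C : ℝ, ∀ X : ℕ, 1 ≤ X →
          ({n : ℕ | n ≤ X ∧ n ∉ SS (addF A (shf k) α) B β}.ncard : ℝ) ≤
            C * (X : ℝ) ^ (max 0 (1 - 2 ^ J * (1 / (k : ℝ) - τ)) + ε) := by
  have h1 : ∀ᵐ α ∂ν1, ∀ k : ℕ, 2 ≤ k → ∀ m : ℕ,
      Few (addF A (shf k) α) ((2 : ℝ) ^ (1 - (1 / (k : ℝ) - τ - 1 / ((m : ℝ) + 1)))) := by
    rw [ae_all_iff]
    intro k
    by_cases hk : 2 ≤ k
    · have h2 : ∀ m : ℕ, ∀ᵐ α ∂ν1, Few (addF A (shf k) α)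
          ((2 : ℝ) ^ (1 - (1 / (k : ℝ) - τ - 1 / ((m : ℝ) + 1)))) := by
        intro m
        have hm : 0 < 1 / ((m : ℝ) + 1) := by positivity
        obtain ⟨i₀, hi₀⟩ := hA (τ + 1 / ((m : ℝ) + 1) / 2) (by linarith)
        refine dense_few hk one_pos hi₀ ?_
        refine Real.rpow_lt_rpow_of_exponent_lt (by norm_num) ?_
        linarith
      filter_upwards [ae_all_iff.2 h2] with α hα _ m
      exact hα m
    · exact Filter.Eventually.of_forall fun α h => absurd h hk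
  filter_upwards [h1] with α hα k hk J B hB
  have h3 : ∀ m : ℕ, ∀ᵐ β : Fin J → ℝ, (∀ i, 0 < β i) →
      (1 < 2 ^ J * (1 / (k : ℝ) - τ - 1 / ((m : ℝ) + 1)) →
        ∃ N₀ : ℕ, ∀ N ≥ N₀, N ∈ SS (addF A (shf k) α) B β) ∧
      ∀ ε : ℝ, 0 < ε → ∃ C : ℝ, ∀ X : ℕ, 1 ≤ X →
        ({n : ℕ | n ≤ X ∧ n ∉ SS (addF A (shf k) α) B β}.ncard : ℝ) ≤
          C * (X : ℝ) ^ (max 0 (1 - 2 ^ J * (1 / (k : ℝ) - τ - 1 / ((m : ℝ) + 1))) + ε) :=
    fun m => almost_to_all (hα k hk m) B hB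
  filter_upwards [ae_all_iff.2 h3] with β hβ hpos
  have h2J : (0 : ℝ) < 2 ^ J := by positivity
  constructor
  · intro h4
    obtain ⟨m, hm⟩ := exists_nat_one_div_lt (show (0 : ℝ) < (2 ^ J * (1 / (k : ℝ) - τ) - 1) / 2 ^ J
      by exact div_pos (by linarith) h2J)
    refine (hβ m hpos).1 ?_
    rw [lt_div_iff₀ h2J] at hm
    nlinarith
  · intro ε hε
    obtain ⟨m, hm⟩ := exists_nat_one_div_lt (show (0 : ℝ) < ε / 2 / 2 ^ J by positivity)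
    obtain ⟨C, hC⟩ := (hβ m hpos).2 (ε / 2) (by positivity)
    refine ⟨|C|, fun X hX => (hC X hX).trans ?_⟩
    have hX1 : (1 : ℝ) ≤ X := by exact_mod_cast hX
    refine mul_le_mul (le_abs_self C) ?_ (by positivity) (abs_nonneg C)
    refine Real.rpow_le_rpow_of_exponent_le hX1 ?_
    rw [lt_div_iff₀ h2J] at hm
    have h5 : max 0 (1 - 2 ^ J * (1 / (k : ℝ) - τ - 1 / ((m : ℝ) + 1))) ≤
        max 0 (1 - 2 ^ J * (1 / (k : ℝ) - τ)) + ε / 2 := by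
      refine max_le ?_ ?_
      · have := le_max_left 0 (1 - 2 ^ J * (1 / (k : ℝ) - τ))
        linarith
      · have := le_max_right 0 (1 - 2 ^ J * (1 / (k : ℝ) - τ))
        nlinarith
    linarith

end Pool.Agent.Q154.War
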