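import Pool.Agent.Q154.War.SqInt

/-!
# Lattice points on k-spheres with generic centre: the constant

Shared by the two hand-ins of MP_927be3_nt about almost all radii (integral radii, thin shells).
-/

set_option autoImplicit false

namespace Pool.Agent.Q154.War

open MeasureTheory Filter Topology

/-- the volume constant in terms of the Gamma function -/
theorem radii_const {k n : ℕ} (hk : 1 ≤ k) (hn : 1 ≤ n) :
    Lc k n = (2 * Real.Gamma (1 + 1 / (k : ℝ))) ^ n / Real.Gamma ((n : ℝ) / k) := by
  have hk0 : (0 : ℝ) < k := by exact_mod_cast hk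
  have hn0 : (0 : ℝ) < n := by exact_mod_cast hn
  have hp : (0 : ℝ) < (n : ℝ) / k := by positivity
  have h1 : Real.Gamma ((n : ℝ) / k + 1) = (n : ℝ) / k * Real.Gamma ((n : ℝ) / k) :=
    Real.Gamma_add_one hp.ne'
  have h2 : 0 < Real.Gamma ((n : ℝ) / k) := Real.Gamma_pos_of_pos hp
  unfold Lc vc
  rw [h1, add_comm (1 / (k : ℝ)) 1]
  field_simp


end Pool.Agent.Q154.War
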