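import Pool.Agent.Q154.War.Tile

/-!
# Volumes of shells, scaled profiles
-/

set_option autoImplicit false
set_option linter.unusedSectionVars false

open MeasureTheory Set Finset FourierTransform
open scoped Real ENNReal

namespace Pool.Agent.Q154.War

lemma vc_nonneg {k n : ℕ} : 0 ≤ vc k n := by
  unfold vc
  have h1 : 0 < Real.Gamma (1 / (k : ℝ) + 1) := Real.Gamma_pos_of_pos (by positivity)
  have h2 : 0 < Real.Gamma ((n : ℝ) / k + 1) := Real.Gamma_pos_of_pos (by positivity)
  positivity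

/-- the volume of the shell -/
noncomputable def sh (k n : ℕ) (N b : ℝ) : ℝ :=
  vc k n * ((N + b) ^ ((n : ℝ) / k) - (N - b) ^ ((n : ℝ) / k))

lemma vol_shell {k n : ℕ} (hk : 1 ≤ k) (hn : 1 ≤ n) {N b : ℝ} (hb : 0 < b) (hN : b < N) :
    volume {y : Fin n → ℝ | N - b ≤ fk k n y ∧ fk k n y < N + b} = ENNReal.ofReal (sh k n N b) := by
  have e : {y : Fin n → ℝ | N - b ≤ fk k n y ∧ fk k n y < N + b} =
      {y : Fin n → ℝ | fk k n y < N + b} \ {y : Fin n → ℝ | fk k n y < N - b} := by
    ext y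
    simp only [Set.mem_ofPred_eq, Set.mem_sdiff, not_lt]
    exact and_comm
  have hm : MeasurableSet {y : Fin n → ℝ | fk k n y < N - b} :=
    measurableSet_lt (measurable_fk k n) measurable_const
  have hsub : {y : Fin n → ℝ | fk k n y < N - b} ⊆ {y : Fin n → ℝ | fk k n y < N + b} := by
    intro y hy
    have h1 : fk k n y < N - b := hy
    have h2 : fk k n y < N + b := by linarith
    exact h2
  rw [e, measure_sdiff hsub hm.nullMeasurableSet
    (by rw [vol_ball hk hn (by linarith)]; exact ENNReal.ofReal_ne_top),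
    vol_ball hk hn (by linarith), vol_ball hk hn (by linarith),
    ← ENNReal.ofReal_sub _ (by
      have h1 : (0 : ℝ) ≤ (N - b) ^ ((n : ℝ) / k) := Real.rpow_nonneg (by linarith) _
      exact mul_nonneg vc_nonneg h1)]
  congr 1
  unfold sh
  ring

lemma pow_shell {p N h : ℝ} (hp : 1 ≤ p) (hh : 0 < h) (hN : h < N) :
    2 * h * p * (N - h) ^ (p - 1) ≤ (N + h) ^ p - (N - h) ^ p ∧
      (N + h) ^ p - (N - h) ^ p ≤ 2 * h * p * (N + h) ^ (p - 1) := by
  obtain ⟨c, hc, hceq⟩ := exists_hasDerivAt_eq_slope (fun x : ℝ => x ^ p)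
    (fun x => p * x ^ (p - 1)) (a := N - h) (b := N + h) (by linarith)
    (by
      refine ContinuousOn.rpow_const continuousOn_id fun x hx => ?_
      right
      linarith)
    (by
      intro x hx
      refine Real.hasDerivAt_rpow_const ?_
      left
      have : 0 < x := by linarith [hx.1]
      exact this.ne')
  have h2 : (N + h) ^ p - (N - h) ^ p = 2 * h * (p * c ^ (p - 1)) := by
    rw [hceq]
    have : N + h - (N - h) = 2 * h := by ring
    rw [this]
    field_simp
  have hc0 : 0 < c := by linarith [hc.1]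
  have h3 : (N - h) ^ (p - 1) ≤ c ^ (p - 1) :=
    Real.rpow_le_rpow (by linarith) hc.1.le (by linarith)
  have h4 : c ^ (p - 1) ≤ (N + h) ^ (p - 1) :=
    Real.rpow_le_rpow hc0.le hc.2.le (by linarith)
  rw [h2]
  constructor
  · calc 2 * h * p * (N - h) ^ (p - 1) = 2 * h * (p * (N - h) ^ (p - 1)) := by ring
      _ ≤ 2 * h * (p * c ^ (p - 1)) := by
          refine mul_le_mul_of_nonneg_left ?_ (by positivity)
          exact mul_le_mul_of_nonneg_left h3 (by linarith)
  · calc 2 * h * (p * c ^ (p - 1)) ≤ 2 * h * (p * (N + h) ^ (p - 1)) := by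
          refine mul_le_mul_of_nonneg_left ?_ (by positivity)
          exact mul_le_mul_of_nonneg_left h4 (by linarith)
      _ = 2 * h * p * (N + h) ^ (p - 1) := by ring

/-- a profile: equal to one on `[-a,a]`, to zero outside `(-b,b)` -/
structure Prof (a b : ℝ) (w : ℝ → ℝ) : Prop extends Wt w where
  one : ∀ u, |u| ≤ a → w u = 1
  zero : ∀ u, b ≤ |u| → w u = 0

lemma exists_prof {a b : ℝ} (ha : 0 < a) (hab : a < b) : ∃ w, Prof a b w := by
  let f : ContDiffBump (0 : ℝ) := ⟨a, b, ha, hab⟩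
  have hcd : ContDiff ℝ (⊤ : ℕ∞) fun u => ((f u : ℝ) : ℂ) :=
    Complex.ofRealCLM.contDiff.comp f.contDiff
  have hcs : HasCompactSupport fun u => ((f u : ℝ) : ℂ) := by
    have := f.hasCompactSupport
    exact this.comp_left (g := fun r : ℝ => (r : ℂ)) Complex.ofReal_zero
  have hfour : Integrable (𝓕 fun u => ((f u : ℝ) : ℂ)) := by
    have h1 := (𝓕 (hcs.toSchwartzMap hcd)).integrable (μ := volume)
    rw [SchwartzMap.fourier_coe] at h1
    exact h1
  refine ⟨fun u => f u, ⟨f.continuous, f.hasCompactSupport, fun u => f.nonneg, fun u => f.le_one,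
    hfour⟩, ?_, ?_⟩
  · intro u hu
    refine f.one_of_mem_closedBall ?_
    rw [mem_closedBall_zero_iff, Real.norm_eq_abs]
    exact hu
  · intro u hu
    refine f.zero_of_le_dist ?_
    rw [dist_zero_right, Real.norm_eq_abs]
    exact hu

lemma four_scale (w : ℝ → ℝ) {η : ℝ} (hη : 0 < η) (θ : ℝ) :
    𝓕 (fun u => ((w (u / η) : ℝ) : ℂ)) θ = η * 𝓕 (fun u => (w u : ℂ)) (η * θ) := by
  rw [fourier_ee, fourier_ee]
  have h1 : ∀ v : ℝ, ee (-(v * θ)) * ((w (v / η) : ℝ) : ℂ) =
      (fun y : ℝ => ee (-(y * (η * θ))) * (w y : ℂ)) (v / η) := by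
    intro v
    simp only
    congr 2
    field_simp
  simp only [h1]
  rw [Measure.integral_comp_div (fun y : ℝ => ee (-(y * (η * θ))) * (w y : ℂ)) η,
    abs_of_pos hη, Complex.real_smul]

lemma Wt.scale {w : ℝ → ℝ} (hw : Wt w) {η : ℝ} (hη : 0 < η) : Wt fun u => w (u / η) where
  cont := hw.cont.comp (by fun_prop)
  supp := by
    have h1 := hw.supp.comp_homeomorph (Homeomorph.mulRight₀ (η⁻¹) (by positivity))
    have h2 : (w ∘ ⇑(Homeomorph.mulRight₀ (η⁻¹) (by positivity))) = fun u => w (u / η) := by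
      ext u
      simp [div_eq_mul_inv]
    rw [h2] at h1
    exact h1
  nonneg := fun u => hw.nonneg _
  le_one := fun u => hw.le_one _
  four := by
    have h1 : (𝓕 fun u => ((w (u / η) : ℝ) : ℂ)) =
        fun θ => (η : ℂ) * 𝓕 (fun u => (w u : ℂ)) (η * θ) := by
      ext θ
      exact four_scale w hη θ
    rw [h1]
    exact (hw.four.comp_mul_left' hη.ne').const_mul _

lemma integral_scale (w : ℝ → ℝ) {η : ℝ} (hη : 0 < η) : ∫ u, w (u / η) = η * ∫ u, w u := by
  rw [Measure.integral_comp_div w η, abs_of_pos hη, smul_eq_mul]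

lemma norm_four_scale (w : ℝ → ℝ) {η : ℝ} (hη : 0 < η) :
    ∫ θ, ‖𝓕 (fun u => ((w (u / η) : ℝ) : ℂ)) θ‖ = ∫ θ, ‖𝓕 (fun u => (w u : ℂ)) θ‖ := by
  simp only [four_scale w hη, norm_mul, Complex.norm_real, Real.norm_eq_abs, abs_of_pos hη]
  rw [integral_const_mul, Measure.integral_comp_mul_left (fun θ => ‖𝓕 (fun u => (w u : ℂ)) θ‖) η,
    abs_of_pos (by positivity), smul_eq_mul]
  field_simp

/-- upper bound for the main term -/
lemma VV_upper {k n Y : ℕ} (hk : 1 ≤ k) (hn : 1 ≤ n) {a b η N : ℝ} {w : ℝ → ℝ} (hw : Prof a b w)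
    (hb : 0 < b) (hη : 0 < η) (hN : b * η < N) :
    VV (νn n) (boxZ n Y) (sz k n) (fun u => w (u / η)) N ≤ sh k n N (b * η) := by
  have hbη : 0 < b * η := by positivity
  have h0 : 0 ≤ sh k n N (b * η) := by
    have h1 : (N - b * η) ^ ((n : ℝ) / k) ≤ (N + b * η) ^ ((n : ℝ) / k) :=
      Real.rpow_le_rpow (by linarith) (by linarith) (by positivity)
    unfold sh
    exact mul_nonneg vc_nonneg (by linarith)
  have h1 := VV_eq (k := k) (n := n) (Y := Y) (hw.toWt.scale hη) N
  rw [← ENNReal.ofReal_le_ofReal_iff h0, h1, ← vol_shell hk hn hbη hN]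
  have hS : MeasurableSet {y : Fin n → ℝ | N - b * η ≤ fk k n y ∧ fk k n y < N + b * η} :=
    (measurableSet_le measurable_const (measurable_fk k n)).inter
      (measurableSet_lt (measurable_fk k n) measurable_const)
  have h2 : ∀ y, ENNReal.ofReal (w ((N - fk k n y) / η)) ≤
      ({y : Fin n → ℝ | N - b * η ≤ fk k n y ∧ fk k n y < N + b * η}).indicator
        (fun _ => (1 : ℝ≥0∞)) y := by
    intro y
    by_cases hy : y ∈ {y : Fin n → ℝ | N - b * η ≤ fk k n y ∧ fk k n y < N + b * η}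
    · rw [Set.indicator_of_mem hy, ← ENNReal.ofReal_one]
      exact ENNReal.ofReal_le_ofReal (hw.le_one _)
    · rw [Set.indicator_of_notMem hy, hw.zero]
      · simp
      · by_contra hcon
        rw [not_le, abs_div, abs_of_pos hη, div_lt_iff₀ hη, abs_lt] at hcon
        exact hy ⟨by linarith [hcon.2], by linarith [hcon.1]⟩
  refine (lintegral_mono h2).trans ?_
  rw [lintegral_indicator hS, setLIntegral_const, one_mul, ← Measure.restrict_pi_pi, volume_pi]
  exact Measure.restrict_apply_le _ _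

/-- lower bound for the main term -/
lemma VV_lower2 {k n Y : ℕ} (hk : 1 ≤ k) (hn : 1 ≤ n) {a b η N : ℝ} {w : ℝ → ℝ} (hw : Prof a b w)
    (ha : 0 < a) (hη : 0 < η) (hN : a * η < N) (hY : N + a * η ≤ (Y : ℝ) ^ k) :
    sh k n N (a * η) ≤ VV (νn n) (boxZ n Y) (sz k n) (fun u => w (u / η)) N := by
  have haη : 0 < a * η := by positivity
  have h1 := VV_eq (k := k) (n := n) (Y := Y) (hw.toWt.scale hη) N
  have h00 : 0 ≤ VV (νn n) (boxZ n Y) (sz k n) (fun u => w (u / η)) N := by
    unfold VV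
    exact integral_nonneg fun α => rr_nonneg (hw.toWt.scale hη) α N
  rw [← ENNReal.ofReal_le_ofReal_iff h00, h1, ← vol_shell hk hn haη hN]
  set S := {y : Fin n → ℝ | N - a * η ≤ fk k n y ∧ fk k n y < N + a * η} with hSdef
  have hS : MeasurableSet S :=
    (measurableSet_le measurable_const (measurable_fk k n)).inter
      (measurableSet_lt (measurable_fk k n) measurable_const)
  have h2 : ∀ y, S.indicator (fun _ => (1 : ℝ≥0∞)) y ≤
      ENNReal.ofReal (w ((N - fk k n y) / η)) := by
    intro y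
    by_cases hy : y ∈ S
    · rw [Set.indicator_of_mem hy, hw.one]
      · simp
      · rw [abs_div, abs_of_pos hη, div_le_iff₀ hη, abs_le]
        exact ⟨by linarith [hy.2], by linarith [hy.1]⟩
    · rw [Set.indicator_of_notMem hy]
      exact zero_le
  refine le_trans ?_ (lintegral_mono h2)
  rw [lintegral_indicator hS, setLIntegral_const, one_mul, ← Measure.restrict_pi_pi, volume_pi,
    Measure.restrict_apply hS]
  refine measure_mono fun y hy => ⟨hy, ?_⟩
  intro i _
  have h3 : |y i| ^ k ≤ fk k n y := by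
    unfold fk
    exact Finset.single_le_sum (f := fun i => |y i| ^ k) (fun j _ => by positivity)
      (Finset.mem_univ i)
  have h4 : |y i| < Y := by
    refine lt_of_pow_lt_pow_left₀ k (Nat.cast_nonneg Y) ?_
    have := hy.2
    linarith
  rw [abs_lt] at h4
  exact ⟨h4.1.le, h4.2⟩

end Pool.Agent.Q154.War
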