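import Pool.Agent.Q154.War.Limit

/-!
# Mean squares for `n ≥ k + 1`
-/

set_option autoImplicit false
set_option linter.unusedSectionVars false

open MeasureTheory Set Finset FourierTransform
open scoped Real ENNReal

namespace Pool.Agent.Q154.War

/-- the constant -/
noncomputable def Gd (n : ℕ) : ℝ := 16 * (n * (4 * π) ^ 2 * 128 ^ (n - 1)) + 128 ^ n

lemma Gd_nonneg (n : ℕ) : 0 ≤ Gd n := by
  unfold Gd
  positivity

lemma num_g2 {A B u y s : ℝ} {n : ℕ} (hB : 0 ≤ B) (hAB : B ≤ A) (hu : 0 ≤ u) (hy : 1 ≤ y)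
    (hs0 : 0 < s) (hs1 : s ≤ 1) (hn : 1 ≤ n) (hsn : 1 + 4 * s ≤ 2 * s * n)
    (h1 : A ≤ 64 * (y + y ^ 2 * (1 + u) ^ (-(2 * s)))) (h2 : A - B ≤ (4 * π) ^ 2 * u ^ 2) :
    A ^ n - B ^ n ≤
      Gd n * (y ^ (n : ℝ) + y ^ (2 * (n : ℝ) - s / 2) * (1 + u) ^ (-(1 + 2 * s))) := by
  have hA : 0 ≤ A := hB.trans hAB
  have hy0 : 0 < y := by linarith
  have hu1 : 0 < 1 + u := by linarith
  have hX1 : 0 ≤ y ^ (n : ℝ) := by positivity
  have hX2 : 0 ≤ y ^ (2 * (n : ℝ) - s / 2) * (1 + u) ^ (-(1 + 2 * s)) := by positivity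
  rcases le_or_gt u (y ^ (1 / 4 : ℝ)) with h | h
  · -- small frequencies
    have e1 : A ≤ 128 * y ^ 2 := by
      have h3 : (1 + u) ^ (-(2 * s)) ≤ 1 :=
        Real.rpow_le_one_of_one_le_of_nonpos (by linarith) (by linarith)
      have h4 : y ^ 2 * (1 + u) ^ (-(2 * s)) ≤ y ^ 2 := mul_le_of_le_one_right (by positivity) h3
      nlinarith
    have e2 : A ^ n - B ^ n ≤ (n * (4 * π) ^ 2 * 128 ^ (n - 1)) * (u * y ^ (n - 1)) ^ 2 := by
      refine (pow_sub_pow_le' hB hAB n).trans ?_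
      have h3 : A ^ (n - 1) ≤ (128 * y ^ 2) ^ (n - 1) := pow_le_pow_left₀ hA e1 _
      calc n * (A - B) * A ^ (n - 1) ≤ n * ((4 * π) ^ 2 * u ^ 2) * (128 * y ^ 2) ^ (n - 1) := by
            refine mul_le_mul ?_ h3 (by positivity) (by positivity)
            exact mul_le_mul_of_nonneg_left h2 (by positivity)
        _ = (n * (4 * π) ^ 2 * 128 ^ (n - 1)) * (u * y ^ (n - 1)) ^ 2 := by
            rw [mul_pow 128 (y ^ 2) (n - 1), ← pow_mul, mul_comm 2 (n - 1), pow_mul]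
            ring
    have e3 : u * y ^ (n - 1) ≤ 4 * (y ^ ((n : ℝ) - s / 4) * (1 + u) ^ (-(1 + s))) := by
      have h3 : (1 + u) ^ (1 + s) ≤ 4 * y ^ ((1 + s) / 4) := by
        have h4 : 1 + u ≤ 2 * y ^ (1 / 4 : ℝ) := by
          have : 1 ≤ y ^ (1 / 4 : ℝ) := Real.one_le_rpow hy (by norm_num)
          linarith
        calc (1 + u) ^ (1 + s) ≤ (2 * y ^ (1 / 4 : ℝ)) ^ (1 + s) :=
              Real.rpow_le_rpow hu1.le h4 (by linarith)
          _ = 2 ^ (1 + s) * y ^ ((1 + s) / 4) := by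
              rw [Real.mul_rpow (by norm_num) (by positivity), ← Real.rpow_mul hy0.le]
              congr 2
              ring
          _ ≤ 4 * y ^ ((1 + s) / 4) := by
              refine mul_le_mul_of_nonneg_right ?_ (by positivity)
              calc (2 : ℝ) ^ (1 + s) ≤ 2 ^ (2 : ℝ) :=
                    Real.rpow_le_rpow_of_exponent_le (by norm_num) (by linarith)
                _ = 4 := by norm_num
      have h5 : 1 ≤ 4 * y ^ ((1 + s) / 4) * (1 + u) ^ (-(1 + s)) := by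
        rw [Real.rpow_neg hu1.le]
        rw [← div_eq_mul_inv, le_div_iff₀ (by positivity), one_mul]
        exact h3
      calc u * y ^ (n - 1) ≤ y ^ (1 / 4 : ℝ) * y ^ (n - 1) :=
            mul_le_mul_of_nonneg_right h (by positivity)
        _ = y ^ ((n : ℝ) - 3 / 4) := by
            rw [← Real.rpow_natCast y (n - 1), ← Real.rpow_add hy0, Nat.cast_sub hn]
            congr 1
            push_cast
            ring
        _ ≤ y ^ ((n : ℝ) - 3 / 4) * (4 * y ^ ((1 + s) / 4) * (1 + u) ^ (-(1 + s))) :=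
            le_mul_of_one_le_right (by positivity) h5
        _ = 4 * (y ^ ((n : ℝ) - 3 / 4 + (1 + s) / 4) * (1 + u) ^ (-(1 + s))) := by
            rw [Real.rpow_add hy0]
            ring
        _ ≤ 4 * (y ^ ((n : ℝ) - s / 4) * (1 + u) ^ (-(1 + s))) := by
            refine mul_le_mul_of_nonneg_left ?_ (by norm_num)
            refine mul_le_mul_of_nonneg_right ?_ (by positivity)
            exact Real.rpow_le_rpow_of_exponent_le hy (by linarith)
    have e4 : (u * y ^ (n - 1)) ^ 2 ≤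
        16 * (y ^ (2 * (n : ℝ) - s / 2) * (1 + u) ^ (-(1 + 2 * s))) := by
      have h3 : (1 + u) ^ (-(2 + 2 * s)) ≤ (1 + u) ^ (-(1 + 2 * s)) :=
        Real.rpow_le_rpow_of_exponent_le (by linarith) (by linarith)
      calc (u * y ^ (n - 1)) ^ 2 ≤ (4 * (y ^ ((n : ℝ) - s / 4) * (1 + u) ^ (-(1 + s)))) ^ 2 :=
            pow_le_pow_left₀ (by positivity) e3 2
        _ = 16 * (y ^ (2 * (n : ℝ) - s / 2) * (1 + u) ^ (-(2 + 2 * s))) := by
            rw [mul_pow, mul_pow, ← Real.rpow_mul_natCast hy0.le, ← Real.rpow_mul_natCast hu1.le]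
            norm_num
            congr 2 <;> ring
        _ ≤ _ := by
            refine mul_le_mul_of_nonneg_left ?_ (by norm_num)
            exact mul_le_mul_of_nonneg_left h3 (by positivity)
    have hK : 0 ≤ (n * (4 * π) ^ 2 * 128 ^ (n - 1) : ℝ) := by positivity
    refine e2.trans ((mul_le_mul_of_nonneg_left e4 hK).trans ?_)
    unfold Gd
    have h5 : (0 : ℝ) ≤ 128 ^ n := by positivity
    nlinarith [mul_nonneg hK hX1, mul_nonneg h5 hX1, mul_nonneg h5 hX2]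
  · -- large frequencies
    set v := (1 + u) ^ (-(2 * s)) with hv
    have hv0 : 0 < v := by positivity
    have e1 : A ^ n ≤ 128 ^ n * (y ^ n + (y ^ 2 * v) ^ n) := by
      have h3 : A ≤ 128 * max y (y ^ 2 * v) := by
        refine h1.trans ?_
        have := le_max_left y (y ^ 2 * v)
        have := le_max_right y (y ^ 2 * v)
        linarith
      calc A ^ n ≤ (128 * max y (y ^ 2 * v)) ^ n := pow_le_pow_left₀ hA h3 n
        _ = 128 ^ n * (max y (y ^ 2 * v)) ^ n := mul_pow _ _ _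
        _ ≤ 128 ^ n * (y ^ n + (y ^ 2 * v) ^ n) := by
            refine mul_le_mul_of_nonneg_left ?_ (by positivity)
            rcases max_choice y (y ^ 2 * v) with h4 | h4
            · rw [h4]
              have : 0 ≤ (y ^ 2 * v) ^ n := by positivity
              linarith
            · rw [h4]
              have : 0 ≤ y ^ n := by positivity
              linarith
    have e4 : (y ^ 2 * v) ^ n ≤ y ^ (2 * (n : ℝ) - s / 2) * (1 + u) ^ (-(1 + 2 * s)) := by
      have h3 : (y ^ 2 * v) ^ n = y ^ (2 * (n : ℝ)) * (1 + u) ^ (-(2 * s * n)) := by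
        rw [mul_pow]
        congr 1
        · rw [← pow_mul, ← Real.rpow_natCast]
          congr 1
          push_cast
          ring
        · rw [hv, ← Real.rpow_mul_natCast hu1.le]
          congr 1
          ring
      rw [h3]
      have h4 : (1 + u) ^ (-(2 * s * n)) ≤ (1 + u) ^ (-(2 * s)) * (1 + u) ^ (-(1 + 2 * s)) := by
        rw [← Real.rpow_add hu1]
        exact Real.rpow_le_rpow_of_exponent_le (by linarith) (by linarith)
      have h5 : (1 + u) ^ (-(2 * s)) ≤ y ^ (-(s / 2)) := by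
        have h6 : y ^ (1 / 4 : ℝ) ≤ 1 + u := by linarith
        calc (1 + u) ^ (-(2 * s)) ≤ (y ^ (1 / 4 : ℝ)) ^ (-(2 * s)) :=
              Real.rpow_le_rpow_of_nonpos (by positivity) h6 (by linarith)
          _ = y ^ (-(s / 2)) := by
              rw [← Real.rpow_mul hy0.le]
              congr 1
              ring
      calc y ^ (2 * (n : ℝ)) * (1 + u) ^ (-(2 * s * n)) ≤
          y ^ (2 * (n : ℝ)) * (y ^ (-(s / 2)) * (1 + u) ^ (-(1 + 2 * s))) := by
            refine mul_le_mul_of_nonneg_left (h4.trans ?_) (by positivity)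
            exact mul_le_mul_of_nonneg_right h5 (by positivity)
        _ = y ^ (2 * (n : ℝ) - s / 2) * (1 + u) ^ (-(1 + 2 * s)) := by
            rw [← mul_assoc, ← Real.rpow_add hy0]
            congr 2
    have hBn : 0 ≤ B ^ n := by positivity
    have hK : 0 ≤ (n * (4 * π) ^ 2 * 128 ^ (n - 1) : ℝ) := by positivity
    have h7 : (0 : ℝ) ≤ 128 ^ n := by positivity
    calc A ^ n - B ^ n ≤ 128 ^ n * (y ^ n + (y ^ 2 * v) ^ n) := by linarith
      _ ≤ 128 ^ n * (y ^ (n : ℝ) + y ^ (2 * (n : ℝ) - s / 2) * (1 + u) ^ (-(1 + 2 * s))) := by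
          rw [Real.rpow_natCast]
          exact mul_le_mul_of_nonneg_left (by linarith) h7
      _ ≤ _ := by
          refine mul_le_mul_of_nonneg_right ?_ (by positivity)
          unfold Gd
          linarith

theorem g_bound2 {k n Y : ℕ} (hk : 3 ≤ k) (hn : k + 1 ≤ n) (hY : 1 ≤ Y) (θ : ℝ) :
    Af k Y θ ^ n - (‖If k Y θ‖ ^ 2) ^ n ≤
      Gd n * ((Y : ℝ) ^ (n : ℝ) +
        (Y : ℝ) ^ (2 * (n : ℝ) - sk k / 2) * (1 + |θ| * (Y : ℝ) ^ k) ^ (-(1 + 2 * sk k))) := by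
  have hk3 : (3 : ℝ) ≤ k := by exact_mod_cast hk
  have hs := sk_pos hk
  have hs4 := sk_le hk
  refine num_g2 (by positivity) (norm_If_sq_le k Y θ) (by positivity) (by exact_mod_cast hY) hs
    (by linarith) (by omega) ?_ ?_ (Af_sub_le k Y θ)
  · have hn' : ((k : ℝ) + 1) ≤ n := by exact_mod_cast hn
    have h1 : 2 * sk k * (k + 1) ≤ 2 * sk k * n := mul_le_mul_of_nonneg_left hn' (by linarith)
    refine le_trans ?_ h1
    have h2 : sk k * (2 * ((k : ℝ) - 1)) = 1 := by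
      unfold sk
      have : (0 : ℝ) < 2 * ((k : ℝ) - 1) := by linarith
      exact one_div_mul_cancel this.ne'
    nlinarith
  · have h := Af_le hk hY θ
    have e : -(2 * sk k) = -(1 / ((k : ℝ) - 1)) := by
      unfold sk
      have : ((k : ℝ) - 1) ≠ 0 := by linarith
      field_simp
    rw [e]
    exact h

/-- **The mean square of the fluctuation.** -/
theorem mean_sq_fl {k n Y : ℕ} {w : ℝ → ℝ} (hk : 3 ≤ k) (hn : k + 1 ≤ n) (hY : 1 ≤ Y)
    (hw : Wt w) :
    ∫ α, (∫ N, (rr (boxZ n Y) (sz k n) w α N - VV (νn n) (boxZ n Y) (sz k n) w N) ^ 2) ∂(νn n) ≤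
      Gd n * ((Y : ℝ) ^ (n : ℝ) * (∫ u, w u) +
        (∫ u, w u) ^ 2 * ((Y : ℝ) ^ (2 * (n : ℝ) - sk k / 2) * (K2 (2 * sk k) / (Y : ℝ) ^ k))) := by
  have hY0 : (0 : ℝ) < Y := by exact_mod_cast hY
  have hX : (0 : ℝ) < (Y : ℝ) ^ k := by positivity
  have hs := sk_pos hk
  rw [variance_identity hw (measurable_sz k n)]
  simp only [TBz_eq, TTz_sq]
  set φ : ℝ → ℝ := fun θ => ‖𝓕 (fun u => (w u : ℂ)) θ‖ ^ 2 with hφ
  set W := ∫ u, w u with hW
  have hW0 : 0 ≤ W := integral_nonneg fun u => hw.nonneg u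
  have hG := Gd_nonneg n
  have hb : ∀ θ, φ θ * (Af k Y (-θ) ^ n - ‖If k Y (-θ) ^ n‖ ^ 2) ≤
      (Gd n * (Y : ℝ) ^ (n : ℝ)) * φ θ +
        (Gd n * (W ^ 2 * (Y : ℝ) ^ (2 * (n : ℝ) - sk k / 2))) *
          (1 + |θ| * (Y : ℝ) ^ k) ^ (-(1 + 2 * sk k)) := by
    intro θ
    have h1 := g_bound2 (k := k) hk hn hY (-θ)
    rw [abs_neg] at h1
    have h2 : ‖If k Y (-θ) ^ n‖ ^ 2 = (‖If k Y (-θ)‖ ^ 2) ^ n := by
      rw [norm_pow, ← pow_mul, ← pow_mul, mul_comm]
    rw [h2]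
    have hφ0 : 0 ≤ φ θ := by positivity
    have h3 := mul_le_mul_of_nonneg_left h1 hφ0
    refine h3.trans ?_
    have h4 : φ θ ≤ W ^ 2 := pow_le_pow_left₀ (norm_nonneg _) (norm_four_le hw θ) 2
    have h5 : 0 ≤ Gd n * ((Y : ℝ) ^ (2 * (n : ℝ) - sk k / 2) *
        (1 + |θ| * (Y : ℝ) ^ k) ^ (-(1 + 2 * sk k))) := by positivity
    have h6 := mul_le_mul_of_nonneg_right h4 h5
    have h7 : φ θ * (Gd n * ((Y : ℝ) ^ (n : ℝ) + (Y : ℝ) ^ (2 * (n : ℝ) - sk k / 2) *
        (1 + |θ| * (Y : ℝ) ^ k) ^ (-(1 + 2 * sk k)))) =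
        (Gd n * (Y : ℝ) ^ (n : ℝ)) * φ θ + φ θ * (Gd n * ((Y : ℝ) ^ (2 * (n : ℝ) - sk k / 2) *
        (1 + |θ| * (Y : ℝ) ^ k) ^ (-(1 + 2 * sk k)))) := by ring
    rw [h7]
    refine add_le_add le_rfl (h6.trans_eq ?_)
    ring
  have hi1 : Integrable fun θ => (Gd n * (Y : ℝ) ^ (n : ℝ)) * φ θ :=
    (integrable_four_sq hw).const_mul _
  have hi2 := (integrable_scaled (s := 2 * sk k) (by linarith) hX).const_mul
    (Gd n * (W ^ 2 * (Y : ℝ) ^ (2 * (n : ℝ) - sk k / 2)))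
  have h0 : ∀ θ, 0 ≤ φ θ * (Af k Y (-θ) ^ n - ‖If k Y (-θ) ^ n‖ ^ 2) := by
    intro θ
    have h2 : ‖If k Y (-θ) ^ n‖ ^ 2 = (‖If k Y (-θ)‖ ^ 2) ^ n := by
      rw [norm_pow, ← pow_mul, ← pow_mul, mul_comm]
    rw [h2]
    refine mul_nonneg (by positivity) (sub_nonneg.2 ?_)
    exact pow_le_pow_left₀ (by positivity) (norm_If_sq_le k Y (-θ)) n
  have h7 : ∫ θ, φ θ * (Af k Y (-θ) ^ n - ‖If k Y (-θ) ^ n‖ ^ 2) ≤
      ∫ θ, ((Gd n * (Y : ℝ) ^ (n : ℝ)) * φ θ +
        (Gd n * (W ^ 2 * (Y : ℝ) ^ (2 * (n : ℝ) - sk k / 2))) *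
          (1 + |θ| * (Y : ℝ) ^ k) ^ (-(1 + 2 * sk k))) :=
    integral_mono_of_nonneg (Filter.Eventually.of_forall h0) (hi1.add hi2)
      (Filter.Eventually.of_forall hb)
  refine h7.trans ?_
  rw [integral_add hi1 hi2, integral_const_mul, integral_const_mul, integral_scaled hX]
  have h8 : Gd n * (Y : ℝ) ^ (n : ℝ) * ∫ θ, φ θ ≤ Gd n * (Y : ℝ) ^ (n : ℝ) * W :=
    mul_le_mul_of_nonneg_left (integral_four_sq hw) (by positivity)
  refine (add_le_add h8 le_rfl).trans_eq ?_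
  ring

lemma measurable_fl {Ω : Type*} [MeasurableSpace Ω] {μ : Measure Ω} [IsProbabilityMeasure μ]
    {ι : Type*} {F : Finset ι} {s : ι → Ω → ℝ} {w : ℝ → ℝ} (hw : Wt w)
    (hs : ∀ x, Measurable (s x)) :
    Measurable fun ω => ∫ N, (rr F s w ω N - VV μ F s w N) ^ 2 := by
  have h1 : Measurable (Function.uncurry fun (ω : Ω) (N : ℝ) =>
      (rr F s w ω N - VV μ F s w N) ^ 2) := by
    refine Measurable.pow_const ?_ 2
    exact (measurable_rr hw hs).sub ((continuous_VV hw hs).measurable.comp measurable_snd)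
  exact (h1.stronglyMeasurable.integral_prod_right).measurable

end Pool.Agent.Q154.War
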