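import Pool.Agent.Q154.War.Sq

/-!
# Mean squares, almost surely
-/

set_option autoImplicit false
set_option linter.unusedSectionVars false

open MeasureTheory Set Finset FourierTransform
open scoped Real ENNReal

namespace Pool.Agent.Q154.War

/-- the box for the block `[2^j, 2^(j+1))` -/
noncomputable def Yb (k j : ℕ) : ℕ := Yj 3 ((2 : ℝ) ^ (1 / (k : ℝ))) j

lemma Yb_ge {k : ℕ} (hk : 1 ≤ k) (j : ℕ) : (2 : ℝ) ^ (j + 1) + 2 ≤ (Yb k j : ℝ) ^ k := by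
  have h3 : (3 * ((2 : ℝ) ^ (1 / (k : ℝ))) ^ (j + 1)) ^ k ≤ (Yb k j : ℝ) ^ k :=
    pow_le_pow_left₀ (by positivity) (Yj_ge 3 _ j) k
  have h4 : (3 * ((2 : ℝ) ^ (1 / (k : ℝ))) ^ (j + 1)) ^ k = 3 ^ k * 2 ^ (j + 1) := by
    rw [mul_pow, ← pow_mul, mul_comm (j + 1) k, pow_mul, one_div,
      Real.rpow_inv_natCast_pow (by norm_num) (by omega)]
  have h5 : (3 : ℝ) ≤ 3 ^ k := le_self_pow₀ (by norm_num) (by omega)
  have h6 : (1 : ℝ) ≤ 2 ^ (j + 1) := one_le_pow₀ (by norm_num)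
  rw [h4] at h3
  nlinarith

theorem ae_sq {k n : ℕ} (hk : 3 ≤ k) (hn : k + 1 ≤ n) {a γ q : ℝ} (ha : 0 < a)
    (hq1 : (2 : ℝ) ^ (-((n : ℝ) / k - 1 - γ)) < q) (hq2 : (2 : ℝ) ^ (-(sk k / 2 / k)) < q)
    {η : ℕ → ℝ} (hη : ∀ j, a * ((2 : ℝ) ^ (-γ)) ^ j ≤ η j) {w : ℕ → ℝ → ℝ} (hw : ∀ j, Wt (w j))
    (hw4 : ∀ j, ∫ u, w j u ≤ 4 * η j) :
    ∀ᵐ α ∂(νn n), ∃ C : ℕ, ∀ j : ℕ,
      ∫ N, (rr (boxZ n (Yb k j)) (sz k n) (w j) α N -
        VV (νn n) (boxZ n (Yb k j)) (sz k n) (w j) N) ^ 2 ≤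
          C * q ^ j * (η j ^ 2 * ((2 : ℝ) ^ (2 * ((n : ℝ) / k) - 1)) ^ j) := by
  have hk0 : (0 : ℝ) < k := by exact_mod_cast (show 0 < k by omega)
  have hk3 : (3 : ℝ) ≤ k := by exact_mod_cast hk
  have hn' : ((k : ℝ) + 1) ≤ n := by exact_mod_cast hn
  have hs := sk_pos hk
  have hs4 := sk_le hk
  set a₁ : ℝ := (2 : ℝ) ^ (1 / (k : ℝ)) with ha₁
  have ha₁1 : 1 < a₁ := Real.one_lt_rpow (by norm_num) (by positivity)
  have ha₁0 : 0 < a₁ := by linarith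
  set τ : ℝ := (2 : ℝ) ^ (2 * ((n : ℝ) / k) - 1) with hτ
  have hτ0 : 0 < τ := by positivity
  set e₂ : ℝ := 2 * (n : ℝ) - k - sk k / 2 with he₂
  have he₂0 : 0 ≤ e₂ := by
    rw [he₂]
    linarith
  have hq0 : 0 < q := lt_trans (by positivity) hq1
  set r₁ : ℝ := (2 : ℝ) ^ (-((n : ℝ) / k - 1 - γ)) with hr₁
  set r₂ : ℝ := (2 : ℝ) ^ (-(sk k / 2 / k)) with hr₂
  have hr₁0 : 0 < r₁ := by positivity
  have hr₂0 : 0 < r₂ := by positivity
  have hη0 : ∀ j, 0 < η j := fun j => lt_of_lt_of_le (by positivity) (hη j)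
  have hK2 : 0 ≤ K2 (2 * sk k) := integral_nonneg fun θ => by positivity
  set D := 2 * 3 * a₁ with hD
  have hD0 : 0 < D := by positivity
  have hG := Gd_nonneg n
  set c₁ := Gd n * (4 * D ^ (n : ℝ) / a) with hc₁
  set c₂ := Gd n * (16 * D ^ e₂ * K2 (2 * sk k)) with hc₂
  have hc₁0 : 0 ≤ c₁ := by positivity
  have hc₂0 : 0 ≤ c₂ := by positivity
  have hT : ∀ j, 0 < η j ^ 2 * τ ^ j := fun j => by
    have := hη0 j
    positivity
  set Z : ℕ → (Fin n → ℝ) → ℝ := fun j α => ∫ N, (rr (boxZ n (Yb k j)) (sz k n) (w j) α N -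
        VV (νn n) (boxZ n (Yb k j)) (sz k n) (w j) N) ^ 2 with hZ
  have hZ0 : ∀ j α, 0 ≤ Z j α := fun j α => integral_nonneg fun N => sq_nonneg _
  have hZm : ∀ j, Measurable (Z j) := fun j => measurable_fl (hw j) (measurable_sz k n)
  have hZi : ∀ j, Integrable (Z j) (νn n) := fun j => integrable_fluct (hw j) (measurable_sz k n)
  have key := ae_bound (μ := νn n)
    (f := fun j α => ENNReal.ofReal (Z j α * (η j ^ 2 * τ ^ j)⁻¹))
    (fun j => ((hZm j).mul_const _).ennreal_ofReal)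
    (b := fun j => c₁ * r₁ ^ j + c₂ * r₂ ^ j) hq0 (fun j => by positivity) ?_ ?_
  · filter_upwards [key] with α ⟨C, hC⟩
    refine ⟨C, fun j => ?_⟩
    have h := hC j
    rw [← ENNReal.ofReal_natCast, ← ENNReal.ofReal_mul (by positivity),
      ENNReal.ofReal_le_ofReal_iff (by positivity), ← div_eq_mul_inv, div_le_iff₀ (hT j)] at h
    exact h
  · intro j
    have hT0 := hT j
    rw [← ofReal_integral_eq_lintegral_ofReal ((hZi j).mul_const _)
      (Filter.Eventually.of_forall fun α => mul_nonneg (hZ0 j α) (by positivity))]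
    refine ENNReal.ofReal_le_ofReal ?_
    rw [integral_mul_const, ← div_eq_mul_inv, div_le_iff₀ hT0]
    obtain ⟨Y, hY⟩ : ∃ Y, Y = Yb k j := ⟨_, rfl⟩
    have hYge : 3 * a₁ ^ (j + 1) ≤ (Y : ℝ) := by
      rw [hY]
      exact Yj_ge 3 _ j
    have hYle : (Y : ℝ) ≤ D * a₁ ^ j := by
      rw [hY]
      exact Yj_le (by norm_num) ha₁1.le j
    have hY1 : 1 ≤ Y := by
      have h1 : (1 : ℝ) ≤ a₁ ^ (j + 1) := one_le_pow₀ ha₁1.le
      have h2 : (1 : ℝ) ≤ Y := by linarith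
      exact_mod_cast h2
    have hY0 : (0 : ℝ) < Y := by exact_mod_cast hY1
    have hmain := mean_sq_fl (k := k) (n := n) (Y := Y) hk hn hY1 (hw j)
    have hZY : ∫ α, Z j α ∂(νn n) = ∫ α, (∫ N, (rr (boxZ n Y) (sz k n) (w j) α N -
        VV (νn n) (boxZ n Y) (sz k n) (w j) N) ^ 2) ∂(νn n) := by
      rw [hZ, hY]
    rw [hZY]
    refine hmain.trans ?_
    set W := ∫ u, w j u with hW
    have hW0 : 0 ≤ W := integral_nonneg fun u => (hw j).nonneg u
    have hW4 : W ≤ 4 * η j := hw4 j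
    have hηj := hη0 j
    have h1 : (Y : ℝ) ^ (n : ℝ) ≤ D ^ (n : ℝ) * (a₁ ^ (n : ℝ)) ^ j := by
      calc (Y : ℝ) ^ (n : ℝ) ≤ (D * a₁ ^ j) ^ (n : ℝ) :=
            Real.rpow_le_rpow hY0.le hYle (by positivity)
        _ = _ := by
            rw [Real.mul_rpow hD0.le (by positivity), ← Real.rpow_natCast a₁ j,
              ← Real.rpow_mul ha₁0.le, ← Real.rpow_mul_natCast ha₁0.le]
            congr 2
            ring
    have h2 : (Y : ℝ) ^ (2 * (n : ℝ) - sk k / 2) * (K2 (2 * sk k) / (Y : ℝ) ^ k) =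
        (Y : ℝ) ^ e₂ * K2 (2 * sk k) := by
      have e : 2 * (n : ℝ) - sk k / 2 = e₂ + k := by
        rw [he₂]
        ring
      rw [e, Real.rpow_add hY0, Real.rpow_natCast]
      field_simp
    have h3 : (Y : ℝ) ^ e₂ ≤ D ^ e₂ * (a₁ ^ e₂) ^ j := by
      calc (Y : ℝ) ^ e₂ ≤ (D * a₁ ^ j) ^ e₂ :=
            Real.rpow_le_rpow hY0.le hYle he₂0
        _ = _ := by
            rw [Real.mul_rpow hD0.le (by positivity), ← Real.rpow_natCast a₁ j,
              ← Real.rpow_mul ha₁0.le, ← Real.rpow_mul_natCast ha₁0.le]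
            congr 2
            ring
    have hr1 : (a₁ ^ (n : ℝ)) ^ j * (a * ((2 : ℝ) ^ (-γ)) ^ j)⁻¹ = a⁻¹ * (r₁ ^ j * τ ^ j) := by
      rw [mul_inv, ← inv_pow, ← mul_pow, mul_comm (a⁻¹) _, ← mul_assoc, ← mul_pow, mul_comm]
      congr 2
      rw [ha₁, hr₁, hτ, ← Real.rpow_neg (by norm_num), ← Real.rpow_mul (by norm_num),
        ← Real.rpow_add (by norm_num), ← Real.rpow_add (by norm_num)]
      congr 1
      field_simp
      ring
    have hr2 : (a₁ ^ e₂) ^ j = r₂ ^ j * τ ^ j := by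
      rw [← mul_pow]
      congr 1
      rw [ha₁, hr₂, hτ, ← Real.rpow_mul (by norm_num), ← Real.rpow_add (by norm_num)]
      congr 1
      rw [he₂]
      field_simp
      ring
    rw [h2, mul_add, add_mul]
    refine add_le_add ?_ ?_
    · have h5 : 1 ≤ η j * (a * ((2 : ℝ) ^ (-γ)) ^ j)⁻¹ := by
        rw [← div_eq_mul_inv, le_div_iff₀ (by positivity), one_mul]
        exact hη j
      calc Gd n * ((Y : ℝ) ^ (n : ℝ) * W) ≤
          Gd n * ((D ^ (n : ℝ) * (a₁ ^ (n : ℝ)) ^ j) * (4 * η j)) := by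
            refine mul_le_mul_of_nonneg_left ?_ hG
            exact mul_le_mul h1 hW4 hW0 (by positivity)
        _ ≤ Gd n * ((D ^ (n : ℝ) * (a₁ ^ (n : ℝ)) ^ j) * (4 * η j)) *
            (η j * (a * ((2 : ℝ) ^ (-γ)) ^ j)⁻¹) := le_mul_of_one_le_right (by positivity) h5
        _ = Gd n * (4 * D ^ (n : ℝ)) * η j ^ 2 *
            ((a₁ ^ (n : ℝ)) ^ j * (a * ((2 : ℝ) ^ (-γ)) ^ j)⁻¹) := by ring
        _ = Gd n * (4 * D ^ (n : ℝ)) * η j ^ 2 * (a⁻¹ * (r₁ ^ j * τ ^ j)) := by rw [hr1]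
        _ = c₁ * r₁ ^ j * (η j ^ 2 * τ ^ j) := by
            rw [hc₁]
            ring
    · calc Gd n * (W ^ 2 * ((Y : ℝ) ^ e₂ * K2 (2 * sk k))) ≤
          Gd n * ((4 * η j) ^ 2 * ((D ^ e₂ * (a₁ ^ e₂) ^ j) * K2 (2 * sk k))) := by
            refine mul_le_mul_of_nonneg_left ?_ hG
            refine mul_le_mul (pow_le_pow_left₀ hW0 hW4 2) ?_ (by positivity) (by positivity)
            exact mul_le_mul_of_nonneg_right h3 hK2
        _ = Gd n * ((4 * η j) ^ 2 * ((D ^ e₂ * (r₂ ^ j * τ ^ j)) * K2 (2 * sk k))) := by rw [hr2]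
        _ = c₂ * r₂ ^ j * (η j ^ 2 * τ ^ j) := by
            rw [hc₂]
            ring
  · have h1 : Summable fun j : ℕ => c₁ * (r₁ / q) ^ j :=
      (summable_geometric_of_lt_one (by positivity) ((div_lt_one hq0).2 hq1)).mul_left _
    have h2 : Summable fun j : ℕ => c₂ * (r₂ / q) ^ j :=
      (summable_geometric_of_lt_one (by positivity) ((div_lt_one hq0).2 hq2)).mul_left _
    refine (h1.add h2).congr fun j => ?_
    rw [div_pow, div_pow]
    field_simp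

/-- Chebyshev -/
lemma cheb {k n Y : ℕ} {w : ℝ → ℝ} (hw : Wt w) (α : Fin n → ℝ) {l M : ℝ} (hl : 0 < l)
    (hM : ∫ N, (rr (boxZ n Y) (sz k n) w α N - VV (νn n) (boxZ n Y) (sz k n) w N) ^ 2 ≤ M) :
    volume {N : ℝ | l ≤ |rr (boxZ n Y) (sz k n) w α N - VV (νn n) (boxZ n Y) (sz k n) w N|} ≤
      ENNReal.ofReal (M / l ^ 2) := by
  have h1 : ENNReal.ofReal (∫ N, (rr (boxZ n Y) (sz k n) w α N -
      VV (νn n) (boxZ n Y) (sz k n) w N) ^ 2) = ∫⁻ N, ENNReal.ofReal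
        ((rr (boxZ n Y) (sz k n) w α N - VV (νn n) (boxZ n Y) (sz k n) w N) ^ 2) :=
    ofReal_integral_eq_lintegral_ofReal (integrable_sq_fluct hw (measurable_sz k n) α)
      (Filter.Eventually.of_forall fun N => sq_nonneg _)
  have hmeas : Measurable fun N => ENNReal.ofReal
      ((rr (boxZ n Y) (sz k n) w α N - VV (νn n) (boxZ n Y) (sz k n) w N) ^ 2) := by
    have hcont : Continuous fun N => (rr (boxZ n Y) (sz k n) w α N -
        VV (νn n) (boxZ n Y) (sz k n) w N) ^ 2 :=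
      ((continuous_rr hw α).sub (continuous_VV hw (measurable_sz k n))).pow 2
    exact hcont.measurable.ennreal_ofReal
  have h2 := mul_meas_ge_le_lintegral (μ := volume) hmeas (ENNReal.ofReal (l ^ 2))
  have hl2 : 0 < l ^ 2 := by positivity
  have h3 : ENNReal.ofReal (l ^ 2) *
      volume {N : ℝ | l ≤ |rr (boxZ n Y) (sz k n) w α N - VV (νn n) (boxZ n Y) (sz k n) w N|} ≤
        ENNReal.ofReal M := by
    refine le_trans ?_ (h2.trans ?_)
    · refine mul_le_mul_right (measure_mono ?_) _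
      intro N hN
      show ENNReal.ofReal (l ^ 2) ≤ ENNReal.ofReal _
      refine ENNReal.ofReal_le_ofReal ?_
      rw [← sq_abs (rr (boxZ n Y) (sz k n) w α N - VV (νn n) (boxZ n Y) (sz k n) w N)]
      exact pow_le_pow_left₀ hl.le hN 2
    · rw [← h1]
      exact ENNReal.ofReal_le_ofReal hM
  rw [ENNReal.ofReal_div_of_pos hl2, ENNReal.le_div_iff_mul_le
    (Or.inl (ENNReal.ofReal_pos.2 hl2).ne') (Or.inl ENNReal.ofReal_ne_top), mul_comm]
  exact h3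

end Pool.Agent.Q154.War
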