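import Pool.Agent.Q154.War.SqShell

/-!
# The asymptotic formula for almost all integers
-/

set_option autoImplicit false
set_option linter.unusedSectionVars false

open MeasureTheory Set Finset Filter
open scoped Real ENNReal Topology

namespace Pool.Agent.Q154.War

lemma Ex_shift (k n : ℕ) (δ h : ℝ) (j : ℕ) (α : Fin n → ℝ) (m : Fin n → ℤ) :
    Ex k n δ h j (α + fun i => -(m i : ℝ)) = Ex k n δ h j α := by
  unfold Ex
  simp only [Lat_shift]

/-- the asymptotic formula for almost all radii, all centres -/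
theorem ae_shell' {k n : ℕ} (hk : 3 ≤ k) (hn : k + 1 ≤ n) {γ : ℝ} (hγ : 0 ≤ γ)
    (hγ2 : γ < n / k - 1) :
    ∃ δ : ℝ, 0 < δ ∧ δ < 1 ∧ δ < n / k - 1 ∧ ∀ a : ℝ, 0 < a → ∀ η : ℕ → ℝ,
      (∀ j, a * ((2 : ℝ) ^ (-γ)) ^ j ≤ η j) → (∀ j, η j ≤ 1) →
      ∀ᵐ α : Fin n → ℝ, ∃ C : ℝ, ∀ j, volume (Ex k n δ (η j) j α) ≤
        ENNReal.ofReal (C * ((2 : ℝ) ^ (1 - δ)) ^ j) := by
  obtain ⟨δ, h1, h2, h3, h4⟩ := ae_shell hk hn hγ hγ2
  refine ⟨δ, h1, h2, h3, fun a ha η hη hη1 => ?_⟩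
  refine ae_all_of_cube (h4 a ha η hη hη1) ?_
  rintro α m ⟨C, hC⟩
  refine ⟨C, fun j => ?_⟩
  have := hC j
  rwa [Ex_shift] at this

lemma finite_Lat' {k n : ℕ} (hk : 1 ≤ k) (α : Fin n → ℝ) (N b : ℝ) : (Lat k n α N b).Finite := by
  have hcube : ∀ i, (α + fun i => -((⌊α i⌋ : ℤ) : ℝ)) i ∈ Set.Icc (0 : ℝ) 1 := by
    intro i
    have h3 := Int.floor_le (α i)
    have h4 := (Int.lt_floor_add_one (α i)).le
    constructor
    · simp only [Pi.add_apply]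
      linarith
    · simp only [Pi.add_apply]
      linarith
  have h6 := finite_Lat (k := k) (n := n) hk hcube N b
  have e : Lat k n α N b ⊆ (fun x => x + fun i => ⌊α i⌋) ⁻¹'
      Lat k n (α + fun i => -((⌊α i⌋ : ℤ) : ℝ)) N b := by
    intro x hx
    have h7 : |∑ i, |(x i : ℝ) + α i| ^ k - N| < b := hx
    have h8 : |∑ i, |((x + fun i => ⌊α i⌋) i : ℝ) + (α i + -((⌊α i⌋ : ℤ) : ℝ))| ^ k - N| < b := by
      convert h7 using 4 with i
      simp only [Pi.add_apply]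
      push_cast
      congr 2
      ring
    exact h8
  exact (h6.preimage ((add_left_injective _).injOn)).subset e

/-- the points with integer part `N` -/
def Fl (k n : ℕ) (α : Fin n → ℝ) (N : ℕ) : Set (Fin n → ℤ) :=
  {x : Fin n → ℤ | ⌊∑ i, |(x i : ℝ) + α i| ^ k⌋ = (N : ℤ)}

lemma Fl_sub {k n : ℕ} {α : Fin n → ℝ} {N : ℕ} {u e : ℝ}
    (hu : u ∈ Set.Ioo ((N : ℝ) + 1 / 2 - e) (N + 1 / 2 + e)) :
    Fl k n α N ⊆ Lat k n α u (1 / 2 + e) := by
  intro x hx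
  have h7 : ⌊∑ i, |(x i : ℝ) + α i| ^ k⌋ = (N : ℤ) := hx
  rw [Int.floor_eq_iff] at h7
  push_cast at h7
  have h8 : |∑ i, |(x i : ℝ) + α i| ^ k - u| < 1 / 2 + e := by
    rw [abs_lt]
    constructor
    · linarith [h7.1, hu.2]
    · linarith [h7.2, hu.1]
  exact h8

lemma sub_Fl {k n : ℕ} {α : Fin n → ℝ} {N : ℕ} {u e : ℝ}
    (hu : u ∈ Set.Ioo ((N : ℝ) + 1 / 2 - e) (N + 1 / 2 + e)) :
    Lat k n α u (1 / 2 - e) ⊆ Fl k n α N := by
  intro x hx
  have h8 : |∑ i, |(x i : ℝ) + α i| ^ k - u| < 1 / 2 - e := hx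
  rw [abs_lt] at h8
  have h7 : ⌊∑ i, |(x i : ℝ) + α i| ^ k⌋ = (N : ℤ) := by
    rw [Int.floor_eq_iff]
    push_cast
    constructor
    · linarith [h8.1, hu.1]
    · linarith [h8.2, hu.2]
  exact h7

/-- disjoint intervals -/
lemma card_le_vol' (T : Finset ℕ) {e : ℝ} (he : e ≤ 1 / 2) {B : Set ℝ}
    (hT : ∀ N ∈ T, Set.Ioo ((N : ℝ) + 1 / 2 - e) (N + 1 / 2 + e) ⊆ B) :
    (T.card : ℝ≥0∞) * ENNReal.ofReal (2 * e) ≤ volume B := by
  have h1 : volume (⋃ N ∈ T, Set.Ioo ((N : ℝ) + 1 / 2 - e) (N + 1 / 2 + e)) =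
      ∑ N ∈ T, volume (Set.Ioo ((N : ℝ) + 1 / 2 - e) (N + 1 / 2 + e)) := by
    refine measure_biUnion_finset ?_ fun N _ => measurableSet_Ioo
    intro a _ b _ hab
    rw [Function.onFun, Set.disjoint_left]
    intro x hx hx'
    apply hab
    have h2 : (a : ℝ) < b + 1 := by linarith [hx.1, hx'.2]
    have h3 : (b : ℝ) < a + 1 := by linarith [hx'.1, hx.2]
    have h4 : a < b + 1 := by exact_mod_cast h2
    have h5 : b < a + 1 := by exact_mod_cast h3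
    omega
  have h2 : ∑ N ∈ T, volume (Set.Ioo ((N : ℝ) + 1 / 2 - e) (N + 1 / 2 + e)) =
      (T.card : ℝ≥0∞) * ENNReal.ofReal (2 * e) := by
    rw [← nsmul_eq_mul, ← Finset.sum_const]
    refine Finset.sum_congr rfl fun N _ => ?_
    rw [Real.volume_Ioo]
    congr 1
    ring
  rw [← h2, ← h1]
  exact measure_mono (Set.iUnion₂_subset hT)

/-- **The asymptotic formula for almost all integers.** -/
theorem ae_int {k n : ℕ} (hk : 3 ≤ k) (hn : k + 1 ≤ n) :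
    ∃ δ : ℝ, 0 < δ ∧ δ < 1 ∧ ∀ᵐ α : Fin n → ℝ, ∃ C : ℝ, ∀ X : ℝ, 1 ≤ X →
      ({N : ℕ | 1 ≤ N ∧ (N : ℝ) ≤ X ∧ C * (N : ℝ) ^ ((n : ℝ) / k - 1 - δ) <
        |((Fl k n α N).ncard : ℝ) - Lc k n * (N : ℝ) ^ ((n : ℝ) / k - 1)|}.ncard : ℝ) ≤
          C * X ^ (1 - δ) := by
  classical
  have hk1 : 1 ≤ k := by omega
  have hk0 : (0 : ℝ) < k := by exact_mod_cast hk1
  have hn' : ((k : ℝ) + 1) ≤ n := by exact_mod_cast hn
  have hp0 : 0 < (n : ℝ) / k - 1 := by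
    rw [sub_pos, lt_div_iff₀ hk0]
    linarith
  obtain ⟨δ₀, hδ0, hδ1, hδp, hmain⟩ := ae_shell' hk hn (γ := 0) le_rfl hp0
  set p : ℝ := (n : ℝ) / k - 1 with hp
  obtain ⟨e, he⟩ : ∃ e : ℕ → ℝ, ∀ j, e j = 1 / 4 * ((2 : ℝ) ^ (-(δ₀ / 2))) ^ j := ⟨_, fun _ => rfl⟩
  have heq : (2 : ℝ) ^ (-(δ₀ / 2)) ≤ 1 :=
    Real.rpow_le_one_of_one_le_of_nonpos (by norm_num) (by linarith)
  have he0 : ∀ j, 0 < e j := fun j => by
    rw [he]
    positivity
  have heh : ∀ j, e j ≤ 1 / 4 := fun j => by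
    rw [he]
    have : ((2 : ℝ) ^ (-(δ₀ / 2))) ^ j ≤ 1 := pow_le_one₀ (by positivity) heq
    linarith
  have hz : (2 : ℝ) ^ (-(0 : ℝ)) = 1 := by
    rw [neg_zero, Real.rpow_zero]
  have hP := hmain (1 / 4) (by norm_num) (fun j => 1 / 2 + e j)
    (fun j => by rw [hz, one_pow]; linarith [he0 j]) (fun j => by linarith [heh j])
  have hM := hmain (1 / 4) (by norm_num) (fun j => 1 / 2 - e j)
    (fun j => by rw [hz, one_pow]; linarith [heh j]) (fun j => by linarith [he0 j])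
  refine ⟨δ₀ / 2, by linarith, by linarith, ?_⟩
  filter_upwards [hP, hM] with α ⟨Cp, hCp⟩ ⟨Cm, hCm⟩
  set m := ⌈p⌉₊ with hm
  set L := Lc k n with hL
  have hL0 : 0 ≤ L := Lc_nonneg k n
  set C₃ : ℝ := L * (1 + 2 * 2 ^ m) + 2 ^ p with hC₃
  have hC₃0 : 0 ≤ C₃ := by positivity
  set B : ℕ → Set ℝ := fun j => Ex k n δ₀ (1 / 2 + e j) j α ∪ Ex k n δ₀ (1 / 2 - e j) j α with hB
  -- bad integers
  have hbad : ∀ (j N : ℕ), (2 : ℝ) ^ j ≤ N → (N : ℝ) < 2 ^ (j + 1) →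
      C₃ * (N : ℝ) ^ (p - δ₀ / 2) < |((Fl k n α N).ncard : ℝ) - L * (N : ℝ) ^ p| →
      Set.Ioo ((N : ℝ) + 1 / 2 - e j) (N + 1 / 2 + e j) ⊆ B j := by
    intro j N hN1 hN2 hN3 u hu
    by_contra hcon
    rw [hB] at hcon
    simp only [Set.mem_union, not_or] at hcon
    obtain ⟨hc1, hc2⟩ := hcon
    have h1 : (1 : ℝ) ≤ 2 ^ j := one_le_pow₀ (by norm_num)
    have hN1' : (1 : ℝ) ≤ N := h1.trans hN1
    have hN0 : (0 : ℝ) < N := by linarith
    have hNs : (N : ℝ) + 1 ≤ 2 ^ (j + 1) := by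
      have h2 : N < 2 ^ (j + 1) := by exact_mod_cast hN2
      have h3 : N + 1 ≤ 2 ^ (j + 1) := h2
      exact_mod_cast h3
    have hej := he0 j
    have hejh := heh j
    have hu1 : (N : ℝ) < u := by linarith [hu.1]
    have hu2 : u < N + 1 := by linarith [hu.2]
    have hu0 : 0 < u := by linarith
    have huW : u ∈ Set.Ico ((2 : ℝ) ^ j) (2 ^ (j + 1)) := ⟨by linarith, by linarith⟩
    have hc1' : |((Lat k n α u (1 / 2 + e j)).ncard : ℝ) - 2 * (1 / 2 + e j) * L * u ^ p| ≤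
        (1 / 2 + e j) * u ^ (p - δ₀) := by
      by_contra h
      exact hc1 ⟨huW, not_le.1 h⟩
    have hc2' : |((Lat k n α u (1 / 2 - e j)).ncard : ℝ) - 2 * (1 / 2 - e j) * L * u ^ p| ≤
        (1 / 2 - e j) * u ^ (p - δ₀) := by
      by_contra h
      exact hc2 ⟨huW, not_le.1 h⟩
    have r1 : ((Fl k n α N).ncard : ℝ) ≤ ((Lat k n α u (1 / 2 + e j)).ncard : ℝ) := by
      exact_mod_cast Set.ncard_le_ncard (Fl_sub hu) (finite_Lat' hk1 α u _)
    have r2 : ((Lat k n α u (1 / 2 - e j)).ncard : ℝ) ≤ ((Fl k n α N).ncard : ℝ) := by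
      exact_mod_cast Set.ncard_le_ncard (sub_Fl hu)
        ((finite_Lat' hk1 α u _).subset (Fl_sub hu))
    -- comparison of powers
    have q1 : u ^ p ≤ (N : ℝ) ^ p * (1 + 2 ^ m * (1 / N)) := by
      calc u ^ p ≤ ((N : ℝ) * (1 + 1 / N)) ^ p := by
            refine Real.rpow_le_rpow hu0.le ?_ hp0.le
            have : (N : ℝ) * (1 + 1 / N) = N + 1 := by field_simp
            rw [this]
            exact hu2.le
        _ = (N : ℝ) ^ p * (1 + 1 / N) ^ p := Real.mul_rpow hN0.le (by positivity)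
        _ ≤ _ := by
            refine mul_le_mul_of_nonneg_left ?_ (by positivity)
            exact rpow_upper (by positivity) (by rw [div_le_one hN0]; exact hN1')
    have q2 : (N : ℝ) ^ p ≤ u ^ p := Real.rpow_le_rpow hN0.le hu1.le hp0.le
    have q3 : u ^ (p - δ₀) ≤ 2 ^ p * (N : ℝ) ^ (p - δ₀ / 2) := by
      calc u ^ (p - δ₀) ≤ (2 * (N : ℝ)) ^ (p - δ₀) :=
            Real.rpow_le_rpow hu0.le (by linarith) (by linarith)
        _ = 2 ^ (p - δ₀) * (N : ℝ) ^ (p - δ₀) := Real.mul_rpow (by norm_num) hN0.le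
        _ ≤ 2 ^ p * (N : ℝ) ^ (p - δ₀ / 2) := by
            refine mul_le_mul ?_ ?_ (by positivity) (by positivity)
            · exact Real.rpow_le_rpow_of_exponent_le (by norm_num) (by linarith)
            · exact Real.rpow_le_rpow_of_exponent_le hN1' (by linarith)
    have hNd0 : 0 < (N : ℝ) ^ (-(δ₀ / 2)) := by positivity
    have hNd1 : (N : ℝ) ^ (-(δ₀ / 2)) ≤ 1 :=
      Real.rpow_le_one_of_one_le_of_nonpos hN1' (by linarith)
    have q4 : 2 * e j ≤ (N : ℝ) ^ (-(δ₀ / 2)) := by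
      rw [he]
      have h1 : ((2 : ℝ) ^ (j + 1)) ^ (-(δ₀ / 2)) ≤ (N : ℝ) ^ (-(δ₀ / 2)) :=
        Real.rpow_le_rpow_of_nonpos hN0 hN2.le (by linarith)
      refine le_trans ?_ h1
      have h2 : ((2 : ℝ) ^ (j + 1)) ^ (-(δ₀ / 2)) =
          (2 : ℝ) ^ (-(δ₀ / 2)) * ((2 : ℝ) ^ (-(δ₀ / 2))) ^ j := by
        rw [← pow_succ', ← Real.rpow_natCast 2 (j + 1), ← Real.rpow_mul (by norm_num),
          ← Real.rpow_mul_natCast (by norm_num)]
        congr 1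
        ring
      rw [h2, ← mul_assoc]
      refine mul_le_mul_of_nonneg_right ?_ (by positivity)
      calc 2 * (1 / 4 : ℝ) = 2 ^ (-1 : ℝ) := by
            rw [Real.rpow_neg_one]
            norm_num
        _ ≤ 2 ^ (-(δ₀ / 2)) := Real.rpow_le_rpow_of_exponent_le (by norm_num) (by linarith)
    have q5 : 1 / (N : ℝ) ≤ (N : ℝ) ^ (-(δ₀ / 2)) := by
      rw [one_div, ← Real.rpow_neg_one]
      exact Real.rpow_le_rpow_of_exponent_le hN1' (by linarith)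
    have q6 : (N : ℝ) ^ (p - δ₀ / 2) = (N : ℝ) ^ p * (N : ℝ) ^ (-(δ₀ / 2)) := by
      rw [← Real.rpow_add hN0]
      congr 1
    have hNp : 0 < (N : ℝ) ^ p := by positivity
    have h2m : (0 : ℝ) < 2 ^ m := by positivity
    have h2p : (0 : ℝ) < 2 ^ p := by positivity
    have hNpd : 0 < (N : ℝ) ^ (p - δ₀ / 2) := by positivity
    have hu3 : 0 < u ^ (p - δ₀) := by positivity
    have s1 : (1 + 2 * e j) * (1 + 2 ^ m * (1 / N)) ≤ 1 + (1 + 2 * 2 ^ m) * (N : ℝ) ^ (-(δ₀ / 2)) := by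
      have h7 : 2 ^ m * (1 / (N : ℝ)) ≤ 2 ^ m * (N : ℝ) ^ (-(δ₀ / 2)) :=
        mul_le_mul_of_nonneg_left q5 h2m.le
      have h8 : 0 ≤ 2 ^ m * (1 / (N : ℝ)) := by positivity
      have h9 : 2 * e j * (2 ^ m * (1 / (N : ℝ))) ≤ 1 * (2 ^ m * (1 / (N : ℝ))) :=
        mul_le_mul_of_nonneg_right (by linarith) h8
      nlinarith
    have up : ((Fl k n α N).ncard : ℝ) ≤ L * (N : ℝ) ^ p + C₃ * (N : ℝ) ^ (p - δ₀ / 2) := by
      have h3 := (abs_le.1 hc1').2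
      have h4 : 2 * (1 / 2 + e j) * L * u ^ p ≤
          L * (N : ℝ) ^ p * (1 + (1 + 2 * 2 ^ m) * (N : ℝ) ^ (-(δ₀ / 2))) := by
        calc 2 * (1 / 2 + e j) * L * u ^ p = L * ((1 + 2 * e j) * u ^ p) := by ring
          _ ≤ L * ((1 + 2 * e j) * ((N : ℝ) ^ p * (1 + 2 ^ m * (1 / N)))) := by
              refine mul_le_mul_of_nonneg_left ?_ hL0
              exact mul_le_mul_of_nonneg_left q1 (by linarith)
          _ = L * (N : ℝ) ^ p * ((1 + 2 * e j) * (1 + 2 ^ m * (1 / N))) := by ring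
          _ ≤ _ := mul_le_mul_of_nonneg_left s1 (by positivity)
      have h5 : (1 / 2 + e j) * u ^ (p - δ₀) ≤ 2 ^ p * (N : ℝ) ^ (p - δ₀ / 2) := by
        calc (1 / 2 + e j) * u ^ (p - δ₀) ≤ 1 * u ^ (p - δ₀) :=
              mul_le_mul_of_nonneg_right (by linarith) hu3.le
          _ ≤ _ := by rw [one_mul]; exact q3
      have h6 : L * (N : ℝ) ^ p * (1 + (1 + 2 * 2 ^ m) * (N : ℝ) ^ (-(δ₀ / 2))) +
          2 ^ p * (N : ℝ) ^ (p - δ₀ / 2) = L * (N : ℝ) ^ p + C₃ * (N : ℝ) ^ (p - δ₀ / 2) := by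
        rw [hC₃, q6]
        ring
      linarith
    have lo : L * (N : ℝ) ^ p - C₃ * (N : ℝ) ^ (p - δ₀ / 2) ≤ ((Fl k n α N).ncard : ℝ) := by
      have h3 := (abs_le.1 hc2').1
      have h4 : L * (N : ℝ) ^ p * (1 - (N : ℝ) ^ (-(δ₀ / 2))) ≤ 2 * (1 / 2 - e j) * L * u ^ p := by
        calc L * (N : ℝ) ^ p * (1 - (N : ℝ) ^ (-(δ₀ / 2))) ≤ L * (N : ℝ) ^ p * (1 - 2 * e j) :=
              mul_le_mul_of_nonneg_left (by linarith) (by positivity)
          _ ≤ L * u ^ p * (1 - 2 * e j) := by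
              refine mul_le_mul_of_nonneg_right ?_ (by linarith)
              exact mul_le_mul_of_nonneg_left q2 hL0
          _ = _ := by ring
      have h5 : (1 / 2 - e j) * u ^ (p - δ₀) ≤ 2 ^ p * (N : ℝ) ^ (p - δ₀ / 2) := by
        calc (1 / 2 - e j) * u ^ (p - δ₀) ≤ 1 * u ^ (p - δ₀) :=
              mul_le_mul_of_nonneg_right (by linarith) hu3.le
          _ ≤ _ := by rw [one_mul]; exact q3
      have h6 : L * (N : ℝ) ^ p - C₃ * (N : ℝ) ^ (p - δ₀ / 2) ≤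
          L * (N : ℝ) ^ p * (1 - (N : ℝ) ^ (-(δ₀ / 2))) - 2 ^ p * (N : ℝ) ^ (p - δ₀ / 2) := by
        rw [hC₃, q6]
        have h7 : 0 ≤ L * (2 * 2 ^ m) * ((N : ℝ) ^ p * (N : ℝ) ^ (-(δ₀ / 2))) := by positivity
        nlinarith
      linarith
    have : |((Fl k n α N).ncard : ℝ) - L * (N : ℝ) ^ p| ≤ C₃ * (N : ℝ) ^ (p - δ₀ / 2) := by
      rw [abs_le]
      constructor <;> linarith
    linarith
  -- the count in a block
  set r : ℝ := (2 : ℝ) ^ (1 - δ₀ / 2) with hr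
  have hr1 : 1 < r := Real.one_lt_rpow (by norm_num) (by linarith)
  set D : ℝ := 2 * (|Cp| + |Cm|) with hD
  have hD0 : 0 ≤ D := by positivity
  set T : ℕ → Set ℕ := fun j => {N : ℕ | (2 : ℝ) ^ j ≤ N ∧ (N : ℝ) < 2 ^ (j + 1) ∧
    C₃ * (N : ℝ) ^ (p - δ₀ / 2) < |((Fl k n α N).ncard : ℝ) - L * (N : ℝ) ^ p|} with hT
  have hTfin : ∀ j, (T j).Finite := by
    intro j
    refine (Set.finite_Iio (2 ^ (j + 1))).subset ?_
    intro N hN
    have h1 : (N : ℝ) < 2 ^ (j + 1) := hN.2.1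
    have h2 : N < 2 ^ (j + 1) := by exact_mod_cast h1
    exact h2
  have hcount : ∀ j, ((T j).ncard : ℝ) ≤ D * r ^ j := by
    intro j
    have h1 := card_le_vol' (hTfin j).toFinset (e := e j) (by linarith [heh j]) (B := B j)
      (fun N hN => by
        rw [Set.Finite.mem_toFinset] at hN
        exact hbad j N hN.1 hN.2.1 hN.2.2)
    have h2 : volume (B j) ≤ ENNReal.ofReal ((|Cp| + |Cm|) * ((2 : ℝ) ^ (1 - δ₀)) ^ j) := by
      refine (measure_union_le _ _).trans ?_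
      have h3 : volume (Ex k n δ₀ (1 / 2 + e j) j α) ≤
          ENNReal.ofReal (|Cp| * ((2 : ℝ) ^ (1 - δ₀)) ^ j) :=
        (hCp j).trans (ENNReal.ofReal_le_ofReal
          (mul_le_mul_of_nonneg_right (le_abs_self _) (by positivity)))
      have h4 : volume (Ex k n δ₀ (1 / 2 - e j) j α) ≤
          ENNReal.ofReal (|Cm| * ((2 : ℝ) ^ (1 - δ₀)) ^ j) :=
        (hCm j).trans (ENNReal.ofReal_le_ofReal
          (mul_le_mul_of_nonneg_right (le_abs_self _) (by positivity)))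
      refine (add_le_add h3 h4).trans_eq ?_
      rw [← ENNReal.ofReal_add (by positivity) (by positivity)]
      congr 1
      ring
    have h5 := h1.trans h2
    rw [← ENNReal.ofReal_natCast, ← ENNReal.ofReal_mul (Nat.cast_nonneg _),
      ENNReal.ofReal_le_ofReal_iff (by positivity)] at h5
    have h6 : ((T j).ncard : ℝ) = ((hTfin j).toFinset.card : ℝ) := by
      rw [Set.ncard_eq_toFinset_card _ (hTfin j)]
    rw [h6]
    have h7 : 0 < 2 * e j := by linarith [he0 j]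
    have h8 : ((hTfin j).toFinset.card : ℝ) ≤
        (|Cp| + |Cm|) * ((2 : ℝ) ^ (1 - δ₀)) ^ j / (2 * e j) := by
      rw [le_div_iff₀ h7]
      exact h5
    refine h8.trans (le_of_eq ?_)
    rw [div_eq_iff h7.ne', hD, he]
    have h9 : ((2 : ℝ) ^ (1 - δ₀)) ^ j = r ^ j * ((2 : ℝ) ^ (-(δ₀ / 2))) ^ j := by
      rw [← mul_pow]
      congr 1
      rw [hr, ← Real.rpow_add (by norm_num)]
      congr 1
      ring
    rw [h9]
    ring
  have hDr : 0 ≤ D * r / (r - 1) := by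
    have : 0 < r - 1 := by linarith
    positivity
  refine ⟨C₃ + D * r / (r - 1), fun X hX => ?_⟩
  have hX0 : 0 < X := by linarith
  set C := C₃ + D * r / (r - 1) with hC
  obtain ⟨J, hJ1, hJ2⟩ := exists_nat_pow_near hX (by norm_num : (1 : ℝ) < 2)
  set S : Set ℕ := {N : ℕ | 1 ≤ N ∧ (N : ℝ) ≤ X ∧ C * (N : ℝ) ^ (p - δ₀ / 2) <
        |((Fl k n α N).ncard : ℝ) - L * (N : ℝ) ^ p|} with hS
  have hsub : S ⊆ ↑((range (J + 1)).biUnion fun j => (hTfin j).toFinset) := by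
    intro N hN
    obtain ⟨hN1, hN2, hN3⟩ := hN
    have hN1' : (1 : ℝ) ≤ N := by exact_mod_cast hN1
    obtain ⟨j, hj1, hj2⟩ := exists_nat_pow_near hN1' (by norm_num : (1 : ℝ) < 2)
    rw [Finset.coe_biUnion]
    simp only [Set.mem_iUnion, Finset.mem_coe, Finset.mem_range]
    refine ⟨j, ?_, ?_⟩
    · by_contra hcon
      rw [not_lt] at hcon
      have h1 : (2 : ℝ) ^ (J + 1) ≤ 2 ^ j := pow_le_pow_right₀ (by norm_num) hcon
      linarith
    · rw [Set.Finite.mem_toFinset]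
      refine ⟨hj1, hj2, lt_of_le_of_lt ?_ hN3⟩
      refine mul_le_mul_of_nonneg_right ?_ (by positivity)
      linarith
  have h1 : (S.ncard : ℝ) ≤ ∑ j ∈ range (J + 1), D * r ^ j := by
    have h2 := Set.ncard_le_ncard hsub (Finset.finite_toSet _)
    rw [Set.ncard_coe_finset] at h2
    have h3 := h2.trans Finset.card_biUnion_le
    have h4 : (S.ncard : ℝ) ≤ ∑ j ∈ range (J + 1), ((hTfin j).toFinset.card : ℝ) := by
      exact_mod_cast h3
    refine h4.trans (Finset.sum_le_sum fun j _ => ?_)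
    have h5 := hcount j
    rw [Set.ncard_eq_toFinset_card _ (hTfin j)] at h5
    exact h5
  have h2 : ∑ j ∈ range (J + 1), D * r ^ j ≤ D * r / (r - 1) * r ^ J := by
    rw [← Finset.mul_sum, geom_sum_eq hr1.ne', mul_div_assoc', div_mul_eq_mul_div]
    refine div_le_div_of_nonneg_right ?_ (by linarith)
    calc D * (r ^ (J + 1) - 1) ≤ D * r ^ (J + 1) := mul_le_mul_of_nonneg_left (by linarith) hD0
      _ = D * r * r ^ J := by ring
  have h3 : r ^ J ≤ X ^ (1 - δ₀ / 2) := by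
    have h4 : r ^ J = ((2 : ℝ) ^ J) ^ (1 - δ₀ / 2) := by
      rw [hr, ← Real.rpow_natCast 2 J, ← Real.rpow_mul (by norm_num),
        ← Real.rpow_mul_natCast (by norm_num)]
      congr 1
      ring
    rw [h4]
    exact Real.rpow_le_rpow (by positivity) hJ1 (by linarith)
  calc (S.ncard : ℝ) ≤ D * r / (r - 1) * r ^ J := h1.trans h2
    _ ≤ D * r / (r - 1) * X ^ (1 - δ₀ / 2) := mul_le_mul_of_nonneg_left h3 hDr
    _ ≤ C * X ^ (1 - δ₀ / 2) := by
        refine mul_le_mul_of_nonneg_right ?_ (by positivity)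
        rw [hC]
        linarith

end Pool.Agent.Q154.War
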