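import Pool.Agent.Q154.War.SqAe

/-!
# The asymptotic formula for almost all radii
-/

set_option autoImplicit false
set_option linter.unusedSectionVars false

open MeasureTheory Set Finset Filter
open scoped Real ENNReal Topology

namespace Pool.Agent.Q154.War

lemma Prof.integral_le {a b : ℝ} {w : ℝ → ℝ} (hw : Prof a b w) (hb : 0 < b) : ∫ u, w u ≤ 2 * b := by
  have h1 : ∫ u, w u ≤ ∫ u, (Set.Icc (-b) b).indicator (fun _ => (1 : ℝ)) u := by
    refine integral_mono hw.toWt.int ?_ ?_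
    · exact (integrable_indicator_iff measurableSet_Icc).2
        ((integrableOn_const (by rw [Real.volume_Icc]; exact ENNReal.ofReal_ne_top)))
    · intro u
      by_cases hu : u ∈ Set.Icc (-b) b
      · rw [Set.indicator_of_mem hu]
        exact hw.le_one u
      · rw [Set.indicator_of_notMem hu, hw.zero]
        by_contra hcon
        rw [not_le, abs_lt] at hcon
        exact hu ⟨hcon.1.le, hcon.2.le⟩
  refine h1.trans_eq ?_
  rw [integral_indicator measurableSet_Icc]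
  simp only [integral_const, MeasurableSet.univ, measureReal_restrict_apply, Set.univ_inter,
    smul_eq_mul, mul_one]
  rw [Measure.real, Real.volume_Icc, ENNReal.toReal_ofReal (by linarith)]
  ring

lemma one_add_pow_le' (m : ℕ) {x : ℝ} (hx : 0 ≤ x) (hx1 : x ≤ 1) :
    (1 + x) ^ m ≤ 1 + (2 ^ m - 1) * x := by
  induction m with
  | zero => simp
  | succ m ih =>
    have h2 : (1 : ℝ) ≤ 2 ^ m := one_le_pow₀ (by norm_num)
    calc (1 + x) ^ (m + 1) = (1 + x) ^ m * (1 + x) := pow_succ _ _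
      _ ≤ (1 + (2 ^ m - 1) * x) * (1 + x) := mul_le_mul_of_nonneg_right ih (by linarith)
      _ = 1 + 2 ^ m * x + (2 ^ m - 1) * (x * x) := by ring
      _ ≤ 1 + 2 ^ m * x + (2 ^ m - 1) * x := by
          have : x * x ≤ x := by nlinarith
          have h3 : (0 : ℝ) ≤ 2 ^ m - 1 := by linarith
          have := mul_le_mul_of_nonneg_left this h3
          linarith
      _ = 1 + (2 ^ (m + 1) - 1) * x := by
          rw [pow_succ]
          ring

lemma rpow_upper {p x : ℝ} (hx : 0 ≤ x) (hx1 : x ≤ 1) :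
    (1 + x) ^ p ≤ 1 + 2 ^ ⌈p⌉₊ * x := by
  have h1 : (1 + x) ^ p ≤ (1 + x) ^ ⌈p⌉₊ := by
    rw [← Real.rpow_natCast]
    exact Real.rpow_le_rpow_of_exponent_le (by linarith) (Nat.le_ceil p)
  have h2 := one_add_pow_le' ⌈p⌉₊ hx hx1
  refine h1.trans (h2.trans ?_)
  nlinarith

lemma rpow_lower {p x : ℝ} (hx : 0 ≤ x) (hx1 : x < 1) :
    1 - ⌈p⌉₊ * x ≤ (1 - x) ^ p := by
  have h1 : (1 - x) ^ ⌈p⌉₊ ≤ (1 - x) ^ p := by
    rw [← Real.rpow_natCast]
    exact Real.rpow_le_rpow_of_exponent_ge (by linarith) (by linarith) (Nat.le_ceil p)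
  have h2 := one_add_mul_le_pow (a := -x) (by linarith) ⌈p⌉₊
  refine le_trans (le_of_eq (by ring)) (h2.trans (le_trans (le_of_eq (by ring)) h1))

/-- the constant in the asymptotic formula -/
noncomputable def Lc (k n : ℕ) : ℝ := (n : ℝ) / k * vc k n

lemma Lc_nonneg (k n : ℕ) : 0 ≤ Lc k n := by
  unfold Lc
  exact mul_nonneg (by positivity) vc_nonneg

/-- the constant of the error term -/
noncomputable def Ec (k n : ℕ) : ℝ := 2 * Lc k n * (1 + 4 * 2 ^ ⌈(n : ℝ) / k - 1⌉₊)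

lemma sh_upper {k n : ℕ} (hk : 1 ≤ k) (hn : k + 1 ≤ n) {ε η N d : ℝ} (hε : 0 < ε)
    (hε1 : ε ≤ 1 / 2) (hη : 0 < η) (hη1 : η ≤ 1) (hN : 2 ≤ N) (hd : d ≤ 1)
    (hεN : ε ≤ N ^ (-d)) :
    sh k n N ((1 + ε) * η) ≤
      2 * η * Lc k n * N ^ ((n : ℝ) / k - 1) + Ec k n * η * N ^ ((n : ℝ) / k - 1 - d) := by
  have hk0 : (0 : ℝ) < k := by exact_mod_cast hk
  have hn' : ((k : ℝ) + 1) ≤ n := by exact_mod_cast hn
  have hN0 : 0 < N := by linarith
  have hP : 1 ≤ (n : ℝ) / k := by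
    rw [le_div_iff₀ hk0]
    linarith
  have hb0 : 0 < (1 + ε) * η := by positivity
  have hb1 : (1 + ε) * η ≤ 3 / 2 := by nlinarith
  have h1 := (pow_shell hP hb0 (by linarith : (1 + ε) * η < N)).2
  have h2 : sh k n N ((1 + ε) * η) ≤ vc k n * (2 * ((1 + ε) * η) * ((n : ℝ) / k) *
      (N + (1 + ε) * η) ^ ((n : ℝ) / k - 1)) := by
    unfold sh
    exact mul_le_mul_of_nonneg_left h1 vc_nonneg
  set p : ℝ := (n : ℝ) / k - 1 with hp
  have hp0 : 0 ≤ p := by linarith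
  set m := ⌈p⌉₊ with hm
  have h3 : (N + (1 + ε) * η) ^ p ≤ N ^ p * (1 + 2 ^ m * (2 / N)) := by
    calc (N + (1 + ε) * η) ^ p ≤ (N * (1 + 2 / N)) ^ p := by
          refine Real.rpow_le_rpow (by linarith) ?_ hp0
          have : N * (1 + 2 / N) = N + 2 := by field_simp
          rw [this]
          linarith
      _ = N ^ p * (1 + 2 / N) ^ p := Real.mul_rpow hN0.le (by positivity)
      _ ≤ N ^ p * (1 + 2 ^ m * (2 / N)) := by
          refine mul_le_mul_of_nonneg_left ?_ (by positivity)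
          exact rpow_upper (by positivity) (by rw [div_le_one hN0]; exact hN)
  have hL := Lc_nonneg k n
  have hNd : N ^ (-(1 : ℝ)) ≤ N ^ (-d) :=
    Real.rpow_le_rpow_of_exponent_le (by linarith) (by linarith)
  rw [Real.rpow_neg_one] at hNd
  have hNd0 : 0 < N ^ (-d) := Real.rpow_pos_of_pos hN0 _
  have h4 : (1 + ε) * (1 + 2 ^ m * (2 / N)) ≤ 1 + (1 + 4 * 2 ^ m) * N ^ (-d) := by
    have h5 : (2 : ℝ) / N ≤ 2 * N ^ (-d) := by
      rw [div_eq_mul_inv]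
      linarith
    have h6 : (0 : ℝ) < 2 ^ m := by positivity
    have h7 : 2 ^ m * (2 / N) ≤ 2 ^ m * (2 * N ^ (-d)) := mul_le_mul_of_nonneg_left h5 h6.le
    have h8 : 0 ≤ 2 ^ m * (2 / N) := by positivity
    have h9 : ε * (2 ^ m * (2 / N)) ≤ 1 / 2 * (2 ^ m * (2 / N)) :=
      mul_le_mul_of_nonneg_right hε1 h8
    nlinarith [mul_pos h6 hNd0]
  have hNp : 0 < N ^ p := Real.rpow_pos_of_pos hN0 _
  have e1 : N ^ (p - d) = N ^ p * N ^ (-d) := by
    rw [← Real.rpow_add hN0]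
    congr 1
  calc sh k n N ((1 + ε) * η) ≤ vc k n * (2 * ((1 + ε) * η) * ((n : ℝ) / k) *
      (N + (1 + ε) * η) ^ p) := h2
    _ = 2 * η * Lc k n * ((1 + ε) * (N + (1 + ε) * η) ^ p) := by
        unfold Lc
        ring
    _ ≤ 2 * η * Lc k n * ((1 + ε) * (N ^ p * (1 + 2 ^ m * (2 / N)))) := by
        refine mul_le_mul_of_nonneg_left ?_ (by positivity)
        exact mul_le_mul_of_nonneg_left h3 (by linarith)
    _ = 2 * η * Lc k n * N ^ p * ((1 + ε) * (1 + 2 ^ m * (2 / N))) := by ring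
    _ ≤ 2 * η * Lc k n * N ^ p * (1 + (1 + 4 * 2 ^ m) * N ^ (-d)) :=
        mul_le_mul_of_nonneg_left h4 (by positivity)
    _ = 2 * η * Lc k n * N ^ p + Ec k n * η * N ^ (p - d) := by
        rw [e1]
        unfold Ec
        rw [← hp, ← hm]
        ring

lemma sh_lower {k n : ℕ} (hk : 1 ≤ k) (hn : k + 1 ≤ n) {ε η N d : ℝ} (hε : 0 < ε)
    (hε1 : ε ≤ 1 / 2) (hη : 0 < η) (hη1 : η ≤ 1) (hN : 2 ≤ N) (hd : d ≤ 1)
    (hεN : ε ≤ N ^ (-d)) :
    2 * η * Lc k n * N ^ ((n : ℝ) / k - 1) - Ec k n * η * N ^ ((n : ℝ) / k - 1 - d) ≤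
      sh k n N ((1 - ε) * η) := by
  have hk0 : (0 : ℝ) < k := by exact_mod_cast hk
  have hn' : ((k : ℝ) + 1) ≤ n := by exact_mod_cast hn
  have hN0 : 0 < N := by linarith
  have hP : 1 ≤ (n : ℝ) / k := by
    rw [le_div_iff₀ hk0]
    linarith
  have hb0 : 0 < (1 - ε) * η := mul_pos (by linarith) hη
  have hb1 : (1 - ε) * η ≤ 1 := by nlinarith
  have h1 := (pow_shell hP hb0 (by linarith : (1 - ε) * η < N)).1
  have h2 : vc k n * (2 * ((1 - ε) * η) * ((n : ℝ) / k) *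
      (N - (1 - ε) * η) ^ ((n : ℝ) / k - 1)) ≤ sh k n N ((1 - ε) * η) := by
    unfold sh
    exact mul_le_mul_of_nonneg_left h1 vc_nonneg
  set p : ℝ := (n : ℝ) / k - 1 with hp
  have hp0 : 0 ≤ p := by linarith
  set m := ⌈p⌉₊ with hm
  have hx1 : 1 / N < 1 := by
    rw [div_lt_one hN0]
    linarith
  have h3 : N ^ p * (1 - m * (1 / N)) ≤ (N - (1 - ε) * η) ^ p := by
    calc N ^ p * (1 - m * (1 / N)) ≤ N ^ p * (1 - 1 / N) ^ p := by
          refine mul_le_mul_of_nonneg_left ?_ (by positivity)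
          exact rpow_lower (by positivity) hx1
      _ = (N * (1 - 1 / N)) ^ p := (Real.mul_rpow hN0.le (by linarith)).symm
      _ ≤ (N - (1 - ε) * η) ^ p := by
          have e : N * (1 - 1 / N) = N - 1 := by field_simp
          rw [e]
          exact Real.rpow_le_rpow (by linarith) (by linarith) hp0
  have hL := Lc_nonneg k n
  have hNd : N ^ (-(1 : ℝ)) ≤ N ^ (-d) :=
    Real.rpow_le_rpow_of_exponent_le (by linarith) (by linarith)
  rw [Real.rpow_neg_one] at hNd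
  have hNd0 : 0 < N ^ (-d) := Real.rpow_pos_of_pos hN0 _
  have hm2 : (m : ℝ) ≤ 2 ^ m := by exact_mod_cast (Nat.lt_two_pow_self (n := m)).le
  have h4 : 1 - (1 + 4 * 2 ^ m) * N ^ (-d) ≤ (1 - ε) * (1 - m * (1 / N)) := by
    have h5 : (1 : ℝ) / N ≤ N ^ (-d) := by
      rw [one_div]
      exact hNd
    have h6 : (0 : ℝ) < 2 ^ m := by positivity
    have h7 : (m : ℝ) * (1 / N) ≤ 2 ^ m * N ^ (-d) := mul_le_mul hm2 h5 (by positivity) h6.le
    have h8 : 0 ≤ (m : ℝ) * (1 / N) := by positivity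
    nlinarith [mul_pos h6 hNd0, mul_nonneg hε.le h8]
  have hNp : 0 < N ^ p := Real.rpow_pos_of_pos hN0 _
  have e1 : N ^ (p - d) = N ^ p * N ^ (-d) := by
    rw [← Real.rpow_add hN0]
    congr 1
  have hε2 : 0 ≤ 1 - ε := by linarith
  calc 2 * η * Lc k n * N ^ p - Ec k n * η * N ^ (p - d) =
      2 * η * Lc k n * N ^ p * (1 - (1 + 4 * 2 ^ m) * N ^ (-d)) := by
        rw [e1]
        unfold Ec
        rw [← hp, ← hm]
        ring
    _ ≤ 2 * η * Lc k n * N ^ p * ((1 - ε) * (1 - m * (1 / N))) :=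
        mul_le_mul_of_nonneg_left h4 (by positivity)
    _ = 2 * η * Lc k n * ((1 - ε) * (N ^ p * (1 - m * (1 / N)))) := by ring
    _ ≤ 2 * η * Lc k n * ((1 - ε) * (N - (1 - ε) * η) ^ p) := by
        refine mul_le_mul_of_nonneg_left ?_ (by positivity)
        exact mul_le_mul_of_nonneg_left h3 hε2
    _ = vc k n * (2 * ((1 - ε) * η) * ((n : ℝ) / k) * (N - (1 - ε) * η) ^ p) := by
        unfold Lc
        ring
    _ ≤ _ := h2

/-- the exceptional set in the block `[2^j, 2^(j+1))` for the half-width `h` -/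
def Ex (k n : ℕ) (δ h : ℝ) (j : ℕ) (α : Fin n → ℝ) : Set ℝ :=
  {N | N ∈ Set.Ico ((2 : ℝ) ^ j) (2 ^ (j + 1)) ∧ h * N ^ ((n : ℝ) / k - 1 - δ) <
    |((Lat k n α N h).ncard : ℝ) - 2 * h * Lc k n * N ^ ((n : ℝ) / k - 1)|}

lemma vol_Ex_le (k n : ℕ) (δ h : ℝ) (j : ℕ) (α : Fin n → ℝ) :
    volume (Ex k n δ h j α) ≤ ENNReal.ofReal (2 ^ j) := by
  refine (measure_mono (fun N hN => hN.1)).trans ?_
  rw [Real.volume_Ico]
  refine ENNReal.ofReal_le_ofReal (le_of_eq ?_)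
  rw [pow_succ]
  ring

/-- **The asymptotic formula for almost all radii.** -/
theorem ae_shell {k n : ℕ} (hk : 3 ≤ k) (hn : k + 1 ≤ n) {γ : ℝ} (hγ : 0 ≤ γ)
    (hγ2 : γ < n / k - 1) :
    ∃ δ : ℝ, 0 < δ ∧ δ < 1 ∧ δ < n / k - 1 ∧ ∀ a : ℝ, 0 < a → ∀ η : ℕ → ℝ,
      (∀ j, a * ((2 : ℝ) ^ (-γ)) ^ j ≤ η j) → (∀ j, η j ≤ 1) →
      ∀ᵐ α ∂(νn n), ∃ C : ℝ, ∀ j, volume (Ex k n δ (η j) j α) ≤
        ENNReal.ofReal (C * ((2 : ℝ) ^ (1 - δ)) ^ j) := by
  have hk1 : 1 ≤ k := by omega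
  have hn1 : 1 ≤ n := by omega
  have hk0 : (0 : ℝ) < k := by exact_mod_cast hk1
  have hk3 : (3 : ℝ) ≤ k := by exact_mod_cast hk
  have hs := sk_pos hk
  have hs4 := sk_le hk
  set p : ℝ := (n : ℝ) / k - 1 with hp
  have hsk : 0 < sk k / 2 / k := by positivity
  have hsk1 : sk k / 2 / k ≤ 1 := by
    rw [div_le_one hk0]
    linarith
  obtain ⟨c₀, hc₀⟩ : ∃ c₀, c₀ = min (p - γ) (sk k / 2 / k) := ⟨_, rfl⟩
  have hc₀0 : 0 < c₀ := by
    rw [hc₀]
    exact lt_min (by linarith) hsk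
  have hc₀1 : c₀ ≤ p - γ := by
    rw [hc₀]
    exact min_le_left _ _
  have hc₀2 : c₀ ≤ sk k / 2 / k := by
    rw [hc₀]
    exact min_le_right _ _
  refine ⟨c₀ / 8, by linarith, by linarith, by linarith, ?_⟩
  intro a ha η hη hη1
  have hη0 : ∀ j, 0 < η j := fun j => lt_of_lt_of_le (by positivity) (hη j)
  set q : ℝ := (2 : ℝ) ^ (-(c₀ / 2)) with hq
  have hq1 : (2 : ℝ) ^ (-(p - γ)) < q :=
    Real.rpow_lt_rpow_of_exponent_lt (by norm_num) (by linarith)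
  have hq2 : (2 : ℝ) ^ (-(sk k / 2 / k)) < q :=
    Real.rpow_lt_rpow_of_exponent_lt (by norm_num) (by linarith)
  -- the profiles
  obtain ⟨ε, hε⟩ : ∃ ε : ℕ → ℝ, ∀ j, ε j = 1 / 2 * ((2 : ℝ) ^ (-(c₀ / 4))) ^ j := ⟨_, fun _ => rfl⟩
  have hεq : (2 : ℝ) ^ (-(c₀ / 4)) ≤ 1 :=
    Real.rpow_le_one_of_one_le_of_nonpos (by norm_num) (by linarith)
  have hε0 : ∀ j, 0 < ε j := fun j => by
    rw [hε]
    positivity
  have hεh : ∀ j, ε j ≤ 1 / 2 := fun j => by
    rw [hε]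
    have : ((2 : ℝ) ^ (-(c₀ / 4))) ^ j ≤ 1 := pow_le_one₀ (by positivity) hεq
    linarith
  have hu : ∀ j, ∃ w, Prof 1 (1 + ε j) w := fun j =>
    exists_prof one_pos (by linarith [hε0 j])
  have hl : ∀ j, ∃ w, Prof (1 - ε j) 1 w := fun j =>
    exists_prof (by linarith [hεh j]) (by linarith [hε0 j])
  choose wu hwu using hu
  choose wl hwl using hl
  have hwu' : ∀ j, Wt fun u => wu j (u / η j) := fun j => (hwu j).toWt.scale (hη0 j)
  have hwl' : ∀ j, Wt fun u => wl j (u / η j) := fun j => (hwl j).toWt.scale (hη0 j)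
  have hwu4 : ∀ j, ∫ u, wu j (u / η j) ≤ 4 * η j := fun j => by
    rw [integral_scale (wu j) (hη0 j)]
    have h1 := (hwu j).integral_le (by linarith [hε0 j])
    have h2 := hεh j
    have h3 : ∫ u, wu j u ≤ 4 := by linarith
    have h4 := mul_le_mul_of_nonneg_left h3 (hη0 j).le
    linarith
  have hwl4 : ∀ j, ∫ u, wl j (u / η j) ≤ 4 * η j := fun j => by
    rw [integral_scale (wl j) (hη0 j)]
    have h1 := (hwl j).integral_le one_pos
    have h3 : ∫ u, wl j u ≤ 4 := by linarith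
    have h4 := mul_le_mul_of_nonneg_left h3 (hη0 j).le
    linarith
  have hU := ae_sq hk hn ha hq1 hq2 hη hwu' hwu4
  have hD := ae_sq hk hn ha hq1 hq2 hη hwl' hwl4
  -- large blocks
  have hE0 : 0 ≤ Ec k n := by
    unfold Ec
    have := Lc_nonneg k n
    positivity
  obtain ⟨j₀, hj₀⟩ : ∃ j₀ : ℕ, ∀ j, j₀ ≤ j → 2 * Ec k n ≤ ((2 : ℝ) ^ (c₀ / 8)) ^ j := by
    have h1 : 1 < (2 : ℝ) ^ (c₀ / 8) := Real.one_lt_rpow (by norm_num) (by linarith)
    exact (tendsto_pow_atTop_atTop_of_one_lt h1).eventually_ge_atTop (2 * Ec k n) |>.exists_forall_of_atTop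
  filter_upwards [hU, hD, ae_cube n] with α ⟨Cu, hCu⟩ ⟨Cl, hCl⟩ hα
  refine ⟨16 * Cu + 16 * Cl + 2 ^ (j₀ + 1), fun j => ?_⟩
  have h2δ : 1 ≤ (2 : ℝ) ^ (1 - c₀ / 8) := Real.one_le_rpow (by norm_num) (by linarith)
  have h2δj : 1 ≤ ((2 : ℝ) ^ (1 - c₀ / 8)) ^ j := one_le_pow₀ h2δ
  have hCu0 : (0 : ℝ) ≤ Cu := Nat.cast_nonneg _
  have hCl0 : (0 : ℝ) ≤ Cl := Nat.cast_nonneg _
  rcases lt_or_ge j (j₀ + 1) with hj | hj
  · refine (vol_Ex_le k n _ _ j α).trans (ENNReal.ofReal_le_ofReal ?_)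
    have h1 : (2 : ℝ) ^ j ≤ 2 ^ (j₀ + 1) := pow_le_pow_right₀ (by norm_num) hj.le
    calc (2 : ℝ) ^ j ≤ 16 * Cu + 16 * Cl + 2 ^ (j₀ + 1) := by linarith
      _ ≤ _ := le_mul_of_one_le_right (by positivity) h2δj
  have hj1 : 1 ≤ j := by omega
  set l : ℝ := η j / 4 * ((2 : ℝ) ^ (p - c₀ / 8)) ^ j with hldef
  have hηj := hη0 j
  have hl0 : 0 < l := by positivity
  set Eu : Set ℝ := {N : ℝ | l ≤ |rr (boxZ n (Yb k j)) (sz k n) (fun u => wu j (u / η j)) α N -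
    VV (νn n) (boxZ n (Yb k j)) (sz k n) (fun u => wu j (u / η j)) N|} with hEu
  set El : Set ℝ := {N : ℝ | l ≤ |rr (boxZ n (Yb k j)) (sz k n) (fun u => wl j (u / η j)) α N -
    VV (νn n) (boxZ n (Yb k j)) (sz k n) (fun u => wl j (u / η j)) N|} with hEl
  have hsub : Ex k n (c₀ / 8) (η j) j α ⊆ Eu ∪ El := by
    intro N hN
    by_contra hcon
    rw [Set.mem_union, not_or] at hcon
    obtain ⟨hc1, hc2⟩ := hcon
    have hc1' : |rr (boxZ n (Yb k j)) (sz k n) (fun u => wu j (u / η j)) α N -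
        VV (νn n) (boxZ n (Yb k j)) (sz k n) (fun u => wu j (u / η j)) N| < l := not_le.1 hc1
    have hc2' : |rr (boxZ n (Yb k j)) (sz k n) (fun u => wl j (u / η j)) α N -
        VV (νn n) (boxZ n (Yb k j)) (sz k n) (fun u => wl j (u / η j)) N| < l := not_le.1 hc2
    obtain ⟨⟨hN1, hN2⟩, hN3⟩ := hN
    have h2j : (2 : ℝ) ≤ 2 ^ j := by
      calc (2 : ℝ) = 2 ^ 1 := (pow_one 2).symm
        _ ≤ 2 ^ j := pow_le_pow_right₀ (by norm_num) hj1
    have hN2' : 2 ≤ N := h2j.trans hN1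
    have hN0 : 0 < N := by linarith
    have hY := Yb_ge hk1 j
    have hεN : ε j ≤ N ^ (-(c₀ / 4)) := by
      rw [hε]
      have h1 : ((2 : ℝ) ^ (j + 1)) ^ (-(c₀ / 4)) ≤ N ^ (-(c₀ / 4)) :=
        Real.rpow_le_rpow_of_nonpos hN0 hN2.le (by linarith)
      refine le_trans ?_ h1
      have h2 : ((2 : ℝ) ^ (j + 1)) ^ (-(c₀ / 4)) =
          (2 : ℝ) ^ (-(c₀ / 4)) * ((2 : ℝ) ^ (-(c₀ / 4))) ^ j := by
        rw [← pow_succ', ← Real.rpow_natCast 2 (j + 1), ← Real.rpow_mul (by norm_num),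
          ← Real.rpow_mul_natCast (by norm_num)]
        congr 1
        ring
      rw [h2]
      refine mul_le_mul_of_nonneg_right ?_ (by positivity)
      calc (1 : ℝ) / 2 = 2 ^ (-1 : ℝ) := by
            rw [Real.rpow_neg_one]
            norm_num
        _ ≤ 2 ^ (-(c₀ / 4)) := Real.rpow_le_rpow_of_exponent_le (by norm_num) (by linarith)
    have hbη : (1 + ε j) * η j ≤ 3 / 2 := by nlinarith [hεh j, hη1 j]
    have hbl : (1 - ε j) * η j ≤ 1 := by nlinarith [hε0 j, hη1 j]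
    -- the upper bound
    have u1 := Lat_le_rr (N := N) (Y := Yb k j) hα (hη0 j) (hwu j) (by linarith [hη1 j])
    rw [one_mul] at u1
    have u2 := VV_upper (Y := Yb k j) hk1 hn1 (hwu j) (by linarith [hε0 j]) (hη0 j) (N := N)
      (by linarith)
    have u3 := sh_upper (d := c₀ / 4) hk1 hn (hε0 j) (hεh j) hηj (hη1 j) hN2' (by linarith) hεN
    have u4 := (abs_lt.1 hc1').2
    -- the lower bound
    have l1 := rr_le_Lat (N := N) (Y := Yb k j) hk1 hα (hη0 j) (hwl j)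
    rw [one_mul] at l1
    have l2 := VV_lower2 (Y := Yb k j) hk1 hn1 (hwl j) (by linarith [hεh j]) (hη0 j) (N := N)
      (by linarith) (by linarith)
    have l3 := sh_lower (d := c₀ / 4) hk1 hn (hε0 j) (hεh j) hηj (hη1 j) hN2' (by linarith) hεN
    have l4 := (abs_lt.1 hc2').1
    rw [← hp] at u3 l3
    -- the error terms
    have hpd : 0 < p - c₀ / 8 := by linarith
    have h3 : l ≤ η j / 4 * N ^ (p - c₀ / 8) := by
      rw [hldef]
      refine mul_le_mul_of_nonneg_left ?_ (by positivity)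
      have : ((2 : ℝ) ^ (p - c₀ / 8)) ^ j = ((2 : ℝ) ^ j) ^ (p - c₀ / 8) := by
        rw [← Real.rpow_natCast 2 j, ← Real.rpow_mul (by norm_num),
          ← Real.rpow_mul_natCast (by norm_num)]
        congr 1
        ring
      rw [this]
      exact Real.rpow_le_rpow (by positivity) hN1 hpd.le
    have h4 : Ec k n * η j * N ^ (p - c₀ / 4) ≤ 1 / 2 * (η j * N ^ (p - c₀ / 8)) := by
      have h5 : 2 * Ec k n ≤ N ^ (c₀ / 8) := by
        refine (hj₀ j (by omega)).trans ?_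
        have : ((2 : ℝ) ^ (c₀ / 8)) ^ j = ((2 : ℝ) ^ j) ^ (c₀ / 8) := by
          rw [← Real.rpow_natCast 2 j, ← Real.rpow_mul (by norm_num),
            ← Real.rpow_mul_natCast (by norm_num)]
          congr 1
          ring
        rw [this]
        exact Real.rpow_le_rpow (by positivity) hN1 (by linarith)
      have h6 : N ^ (p - c₀ / 8) = N ^ (c₀ / 8) * N ^ (p - c₀ / 4) := by
        rw [← Real.rpow_add hN0]
        congr 1
        ring
      rw [h6]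
      have h7 : 0 ≤ η j * N ^ (p - c₀ / 4) := by positivity
      have h8 := mul_le_mul_of_nonneg_right h5 h7
      nlinarith
    have h9 : 0 < η j * N ^ (p - c₀ / 8) := by positivity
    have h10 : |((Lat k n α N (η j)).ncard : ℝ) - 2 * η j * Lc k n * N ^ p| ≤
        η j * N ^ (p - c₀ / 8) := by
      rw [abs_le]
      constructor <;> linarith
    linarith
  refine (measure_mono hsub).trans ((measure_union_le _ _).trans ?_)
  have hb := cheb (hwu' j) α hl0 (hCu j)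
  have hb' := cheb (hwl' j) α hl0 (hCl j)
  refine (add_le_add hb hb').trans ?_
  have hval : ∀ C : ℝ, C * q ^ j * (η j ^ 2 * ((2 : ℝ) ^ (2 * ((n : ℝ) / k) - 1)) ^ j) / l ^ 2 =
      16 * C * ((2 : ℝ) ^ (1 - c₀ / 4)) ^ j := by
    intro C
    have h1 : ((2 : ℝ) ^ (p - c₀ / 8)) ^ 2 * (2 : ℝ) ^ (1 - c₀ / 4) =
        q * (2 : ℝ) ^ (2 * ((n : ℝ) / k) - 1) := by
      rw [hq, ← Real.rpow_mul_natCast (by norm_num), ← Real.rpow_add (by norm_num),
        ← Real.rpow_add (by norm_num)]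
      congr 1
      rw [hp]
      push_cast
      ring
    rw [div_eq_iff (by positivity), hldef]
    calc C * q ^ j * (η j ^ 2 * ((2 : ℝ) ^ (2 * ((n : ℝ) / k) - 1)) ^ j) =
        C * η j ^ 2 * (q * (2 : ℝ) ^ (2 * ((n : ℝ) / k) - 1)) ^ j := by
          rw [mul_pow]
          ring
      _ = C * η j ^ 2 * (((2 : ℝ) ^ (p - c₀ / 8)) ^ 2 * (2 : ℝ) ^ (1 - c₀ / 4)) ^ j := by rw [h1]
      _ = _ := by
          rw [mul_pow, ← pow_mul, mul_comm 2 j, pow_mul]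
          ring
  rw [hval, hval]
  have hlt : ((2 : ℝ) ^ (1 - c₀ / 4)) ^ j ≤ ((2 : ℝ) ^ (1 - c₀ / 8)) ^ j := by
    refine pow_le_pow_left₀ (by positivity) ?_ j
    exact Real.rpow_le_rpow_of_exponent_le (by norm_num) (by linarith)
  rw [← ENNReal.ofReal_add (by positivity) (by positivity)]
  refine ENNReal.ofReal_le_ofReal ?_
  calc 16 * (Cu : ℝ) * ((2 : ℝ) ^ (1 - c₀ / 4)) ^ j + 16 * Cl * ((2 : ℝ) ^ (1 - c₀ / 4)) ^ j =
      (16 * Cu + 16 * Cl) * ((2 : ℝ) ^ (1 - c₀ / 4)) ^ j := by ring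
    _ ≤ (16 * Cu + 16 * Cl) * ((2 : ℝ) ^ (1 - c₀ / 8)) ^ j :=
        mul_le_mul_of_nonneg_left hlt (by positivity)
    _ ≤ (16 * Cu + 16 * Cl + 2 ^ (j₀ + 1)) * ((2 : ℝ) ^ (1 - c₀ / 8)) ^ j := by
        refine mul_le_mul_of_nonneg_right ?_ (by positivity)
        have : (0 : ℝ) ≤ 2 ^ (j₀ + 1) := by positivity
        linarith

end Pool.Agent.Q154.War
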