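import Pool.Agent.Q154.War.GBound

/-!
# Uniform bounds for the fluctuation
-/

set_option autoImplicit false
set_option linter.unusedSectionVars false

open MeasureTheory Set Finset FourierTransform
open scoped Real

namespace Pool.Agent.Q154.War

section General

variable {Ω : Type*} [MeasurableSpace Ω] {μ : Measure Ω} [IsProbabilityMeasure μ] {ι : Type*}
  {F : Finset ι} {s : ι → Ω → ℝ} {w : ℝ → ℝ}

/-- the majorant -/
noncomputable def ZZ (μ : Measure Ω) (F : Finset ι) (s : ι → Ω → ℝ) (w : ℝ → ℝ) (ω : Ω) : ℝ :=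
  ∫ θ, ‖𝓕 (fun u => (w u : ℂ)) θ‖ * ‖TT F s θ ω - TB μ F s θ‖

lemma sup_fluct (hw : Wt w) (hs : ∀ x, Measurable (s x)) (ω : Ω) (N : ℝ) :
    |rr F s w ω N - VV μ F s w N| ≤ ZZ μ F s w ω := by
  have h1 : Integrable (𝓕 fun N => ((rr F s w ω N - VV μ F s w N : ℝ) : ℂ)) := by
    have e : (𝓕 fun N => ((rr F s w ω N - VV μ F s w N : ℝ) : ℂ)) =
        fun θ => 𝓕 (fun u => (w u : ℂ)) θ * (TT F s θ ω - TB μ F s θ) := by
      ext θ
      exact fourier_fluct hw hs ω θ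
    rw [e]
    refine hw.four.mul_bdd (c := F.card + F.card) ?_ ?_
    · exact ((continuous_TT ω).sub (continuous_TB hs)).aestronglyMeasurable
    · refine Filter.Eventually.of_forall fun θ => ?_
      exact (norm_sub_le _ _).trans (add_le_add (norm_TT_le θ ω) (norm_TB_le θ))
  have hc : Continuous fun N => ((rr F s w ω N - VV μ F s w N : ℝ) : ℂ) :=
    Complex.continuous_ofReal.comp ((continuous_rr hw ω).sub (continuous_VV hw hs))
  have hi : Integrable fun N => ((rr F s w ω N - VV μ F s w N : ℝ) : ℂ) :=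
    ((integrable_rr_right (F := F) (s := s) hw ω).sub
      (integrable_VV (μ := μ) (F := F) (s := s) hw hs)).ofReal
  have hinv := congrFun (hc.fourierInv_fourier_eq hi h1) N
  have h2 : ‖((rr F s w ω N - VV μ F s w N : ℝ) : ℂ)‖ ≤
      ∫ θ, ‖𝓕 (fun N => ((rr F s w ω N - VV μ F s w N : ℝ) : ℂ)) θ‖ := by
    rw [← hinv, Real.fourierInv_eq]
    refine (norm_integral_le_integral_norm _).trans_eq ?_
    refine integral_congr_ae (Filter.Eventually.of_forall fun θ => ?_)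
    simp
  rw [Complex.norm_real, Real.norm_eq_abs] at h2
  refine h2.trans_eq ?_
  unfold ZZ
  refine integral_congr_ae (Filter.Eventually.of_forall fun θ => ?_)
  simp only
  rw [fourier_fluct hw hs ω θ, norm_mul]

lemma integrable_kern1 (hw : Wt w) (hs : ∀ x, Measurable (s x)) :
    Integrable (Function.uncurry fun (ω : Ω) (θ : ℝ) =>
      ‖𝓕 (fun u => (w u : ℂ)) θ‖ * ‖TT F s θ ω - TB μ F s θ‖) (μ.prod volume) := by
  have h1 : Integrable (fun p : Ω × ℝ => ‖𝓕 (fun u => (w u : ℂ)) p.2‖) (μ.prod volume) :=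
    hw.four.norm.comp_snd μ
  refine h1.mul_bdd (c := F.card + F.card) ?_ ?_
  · refine Measurable.aestronglyMeasurable ?_
    exact ((measurable_TT hs).sub ((continuous_TB hs).measurable.comp measurable_snd)).norm
  · refine Filter.Eventually.of_forall fun p => ?_
    rw [norm_norm]
    exact (norm_sub_le _ _).trans (add_le_add (norm_TT_le _ _) (norm_TB_le _))

lemma ZZ_nonneg (ω : Ω) : 0 ≤ ZZ μ F s w ω := by
  unfold ZZ
  exact integral_nonneg fun θ => by positivity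

lemma integrable_ZZ (hw : Wt w) (hs : ∀ x, Measurable (s x)) : Integrable (ZZ μ F s w) μ := by
  unfold ZZ
  exact (integrable_kern1 hw hs).integral_prod_left

/-- Cauchy–Schwarz on a probability space -/
lemma sq_integral_le {Z : Ω → ℝ} (hZ : Integrable Z μ) (hZ2 : Integrable (fun ω => Z ω ^ 2) μ) :
    (∫ ω, Z ω ∂μ) ^ 2 ≤ ∫ ω, Z ω ^ 2 ∂μ := by
  set m := ∫ ω, Z ω ∂μ with hm
  have h0 : 0 ≤ ∫ ω, (Z ω - m) ^ 2 ∂μ := integral_nonneg fun ω => sq_nonneg _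
  have h1 : ∀ ω, (Z ω - m) ^ 2 = Z ω ^ 2 + (m ^ 2 - 2 * m * Z ω) := by
    intro ω
    ring
  simp only [h1] at h0
  have hi3 : Integrable (fun ω => 2 * m * Z ω) μ := hZ.const_mul _
  have hi4 : Integrable (fun ω => m ^ 2 - 2 * m * Z ω) μ := (integrable_const _).sub hi3
  rw [integral_add hZ2 hi4, integral_sub (integrable_const _) hi3, integral_const_mul, ← hm] at h0
  simp at h0
  nlinarith

lemma mean_ZZ (hw : Wt w) (hs : ∀ x, Measurable (s x)) :
    ∫ ω, ZZ μ F s w ω ∂μ ≤ ∫ θ, ‖𝓕 (fun u => (w u : ℂ)) θ‖ *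
      Real.sqrt (∫ ω, ‖TT F s θ ω‖ ^ 2 ∂μ - ‖TB μ F s θ‖ ^ 2) := by
  unfold ZZ
  rw [integral_integral_swap (integrable_kern1 hw hs)]
  have hXi : ∀ θ, Integrable (fun ω => ‖TT F s θ ω - TB μ F s θ‖) μ := fun θ =>
    ((integrable_TT hs θ).sub (integrable_const _)).norm
  have hX2i : ∀ θ, Integrable (fun ω => ‖TT F s θ ω - TB μ F s θ‖ ^ 2) μ := by
    intro θ
    refine Integrable.of_bound (((measurable_TT_left hs θ).sub_const _).norm.pow_const
      2).aestronglyMeasurable (((F.card : ℝ) + F.card) ^ 2) ?_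
    refine Filter.Eventually.of_forall fun ω => ?_
    rw [Real.norm_eq_abs, abs_of_nonneg (by positivity)]
    exact pow_le_pow_left₀ (norm_nonneg _)
      ((norm_sub_le _ _).trans (add_le_add (norm_TT_le θ ω) (norm_TB_le θ))) 2
  have hvar : ∀ θ, ∫ ω, ‖TT F s θ ω - TB μ F s θ‖ ^ 2 ∂μ =
      ∫ ω, ‖TT F s θ ω‖ ^ 2 ∂μ - ‖TB μ F s θ‖ ^ 2 := fun θ =>
    variance_complex (integrable_TT hs θ) (integrable_TT_sq hs θ)
  have hpt : ∀ θ, ∫ ω, ‖TT F s θ ω - TB μ F s θ‖ ∂μ ≤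
      Real.sqrt (∫ ω, ‖TT F s θ ω‖ ^ 2 ∂μ - ‖TB μ F s θ‖ ^ 2) := by
    intro θ
    rw [← hvar θ]
    exact Real.le_sqrt_of_sq_le (sq_integral_le (hXi θ) (hX2i θ))
  have hbd : ∀ θ, Real.sqrt (∫ ω, ‖TT F s θ ω‖ ^ 2 ∂μ - ‖TB μ F s θ‖ ^ 2) ≤
      (F.card : ℝ) + F.card := by
    intro θ
    rw [← hvar θ]
    refine Real.sqrt_le_iff.2 ⟨by positivity, ?_⟩
    have h1 : ∫ ω, ‖TT F s θ ω - TB μ F s θ‖ ^ 2 ∂μ ≤ ∫ _ω, ((F.card : ℝ) + F.card) ^ 2 ∂μ := by
      refine integral_mono (hX2i θ) (integrable_const _) fun ω => ?_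
      exact pow_le_pow_left₀ (norm_nonneg _)
        ((norm_sub_le _ _).trans (add_le_add (norm_TT_le θ ω) (norm_TB_le θ))) 2
    simpa using h1
  refine integral_mono_of_nonneg ?_ ?_ ?_
  · exact Filter.Eventually.of_forall fun θ => integral_nonneg fun ω => by positivity
  · refine hw.four.norm.mul_bdd (c := (F.card : ℝ) + F.card) ?_ ?_
    · have hm : Measurable fun θ => ∫ ω, ‖TT F s θ ω‖ ^ 2 ∂μ := by
        have h1 : Measurable fun p : ℝ × Ω => ‖TT F s p.1 p.2‖ ^ 2 :=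
          (((measurable_TT hs).comp measurable_swap).norm).pow_const 2
        exact (h1.stronglyMeasurable.integral_prod_right).measurable
      exact ((hm.sub ((continuous_TB hs).measurable.norm.pow_const 2)).sqrt).aestronglyMeasurable
    · refine Filter.Eventually.of_forall fun θ => ?_
      rw [Real.norm_eq_abs, abs_of_nonneg (Real.sqrt_nonneg _)]
      exact hbd θ
  · refine Filter.Eventually.of_forall fun θ => ?_
    simp only
    rw [integral_const_mul]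
    exact mul_le_mul_of_nonneg_left (hpt θ) (norm_nonneg _)

end General

/-- the form -/
noncomputable def sz (k n : ℕ) (x : Fin n → ℤ) (α : Fin n → ℝ) : ℝ := ∑ i, |(x i : ℝ) + α i| ^ k

/-- the box of integer points -/
noncomputable def boxZ (n Y : ℕ) : Finset (Fin n → ℤ) := Fintype.piFinset fun _ => Finset.Ico (-(Y : ℤ)) Y

lemma measurable_sz (k n : ℕ) (x : Fin n → ℤ) : Measurable (sz k n x) := by
  unfold sz
  fun_prop

lemma TTz_eq (k n Y : ℕ) (θ : ℝ) (α : Fin n → ℝ) :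
    TT (boxZ n Y) (sz k n) θ α = ∏ i, Sz k Y (-θ) (α i) := by
  unfold TT Sz boxZ
  rw [Finset.prod_univ_sum]
  refine Finset.sum_congr rfl fun x _ => ?_
  rw [← ee_sum]
  congr 1
  unfold sz
  rw [Finset.sum_mul, ← Finset.sum_neg_distrib]
  refine Finset.sum_congr rfl fun i _ => ?_
  ring

lemma ae_ν1 : ∀ᵐ t ∂ν1, t ∈ Set.Icc (0 : ℝ) 1 := ae_restrict_mem measurableSet_Icc

lemma TBz_eq (k n Y : ℕ) (θ : ℝ) : TB (νn n) (boxZ n Y) (sz k n) θ = If k Y (-θ) ^ n := by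
  unfold TB νn
  simp only [TTz_eq]
  rw [integral_fintype_prod_eq_pow (fun t => Sz k Y (-θ) t), Fintype.card_fin]
  congr 1
  unfold If
  rw [← integral_ν1]
  refine integral_congr_ae ?_
  filter_upwards [ae_ν1] with t ht
  exact Sz_eq k Y (-θ) ht

lemma TTz_sq (k n Y : ℕ) (θ : ℝ) :
    ∫ α, ‖TT (boxZ n Y) (sz k n) θ α‖ ^ 2 ∂(νn n) = Af k Y (-θ) ^ n := by
  unfold νn
  simp only [TTz_eq, norm_prod, ← Finset.prod_pow]
  rw [integral_fintype_prod_eq_pow (fun t => ‖Sz k Y (-θ) t‖ ^ 2), Fintype.card_fin]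
  congr 1
  unfold Af
  rw [← integral_ν1]
  refine integral_congr_ae ?_
  filter_upwards [ae_ν1] with t ht
  rw [Sz_eq k Y (-θ) ht]

/-- the constant `∫ (1 + |θ|)^(-(1+s))` -/
noncomputable def K2 (s : ℝ) : ℝ := ∫ θ : ℝ, (1 + |θ|) ^ (-(1 + s))

lemma integrable_K2 {s : ℝ} (hs : 0 < s) : Integrable fun θ : ℝ => (1 + |θ|) ^ (-(1 + s)) := by
  have h := integrable_one_add_norm (E := ℝ) (μ := volume) (r := 1 + s) (by simp; exact hs)
  simpa using h

lemma integral_scaled {s X : ℝ} (hX : 0 < X) :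
    ∫ θ : ℝ, (1 + |θ| * X) ^ (-(1 + s)) = K2 s / X := by
  have h1 : ∀ θ : ℝ, (1 + |θ| * X) ^ (-(1 + s)) =
      (fun y : ℝ => (1 + |y|) ^ (-(1 + s))) (X * θ) := by
    intro θ
    simp only
    rw [abs_mul, abs_of_pos hX, mul_comm X]
  simp only [h1]
  rw [Measure.integral_comp_mul_left (fun y : ℝ => (1 + |y|) ^ (-(1 + s))) X,
    abs_of_pos (by positivity), smul_eq_mul]
  unfold K2
  field_simp

lemma integrable_scaled {s X : ℝ} (hs : 0 < s) (hX : 0 < X) :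
    Integrable fun θ : ℝ => (1 + |θ| * X) ^ (-(1 + s)) := by
  have h1 : (fun θ : ℝ => (1 + |θ| * X) ^ (-(1 + s))) =
      fun θ => (fun y : ℝ => (1 + |y|) ^ (-(1 + s))) (X * θ) := by
    ext θ
    simp only
    rw [abs_mul, abs_of_pos hX, mul_comm X]
  rw [h1]
  exact (integrable_K2 hs).comp_mul_left' hX.ne'

/-- **The mean of the uniform majorant.** -/
theorem mean_ZZ_le {k n Y : ℕ} {w : ℝ → ℝ} (hk : 3 ≤ k) (hn : 2 * k + 1 ≤ n) (hY : 1 ≤ Y)
    (hw : Wt w) :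
    ∫ α, ZZ (νn n) (boxZ n Y) (sz k n) w α ∂(νn n) ≤
      Gc n * ((Y : ℝ) ^ ((n : ℝ) / 2) * (∫ θ, ‖𝓕 (fun u => (w u : ℂ)) θ‖) +
        (∫ u, w u) * ((Y : ℝ) ^ ((n : ℝ) - sk k / 4) * (K2 (sk k) / (Y : ℝ) ^ k))) := by
  have hY0 : (0 : ℝ) < Y := by exact_mod_cast hY
  have hX : (0 : ℝ) < (Y : ℝ) ^ k := by positivity
  have hs := sk_pos hk
  refine (mean_ZZ hw (measurable_sz k n)).trans ?_
  simp only [TBz_eq, TTz_sq]
  set φ : ℝ → ℝ := fun θ => ‖𝓕 (fun u => (w u : ℂ)) θ‖ with hφ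
  set W := ∫ u, w u with hW
  have hG := Gc_nonneg n
  have hb : ∀ θ, φ θ * Real.sqrt (Af k Y (-θ) ^ n - ‖If k Y (-θ) ^ n‖ ^ 2) ≤
      (Gc n * (Y : ℝ) ^ ((n : ℝ) / 2)) * φ θ +
        (Gc n * (W * (Y : ℝ) ^ ((n : ℝ) - sk k / 4))) *
          (1 + |θ| * (Y : ℝ) ^ k) ^ (-(1 + sk k)) := by
    intro θ
    have h1 := g_bound (k := k) hk hn hY (-θ)
    rw [abs_neg] at h1
    have h2 : ‖If k Y (-θ) ^ n‖ ^ 2 = (‖If k Y (-θ)‖ ^ 2) ^ n := by
      rw [norm_pow, ← pow_mul, ← pow_mul, mul_comm]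
    rw [h2]
    have h3 := mul_le_mul_of_nonneg_left h1 (norm_nonneg (𝓕 (fun u => (w u : ℂ)) θ))
    refine h3.trans ?_
    have h4 : φ θ ≤ W := norm_four_le hw θ
    have h5 : 0 ≤ Gc n * ((Y : ℝ) ^ ((n : ℝ) - sk k / 4) *
        (1 + |θ| * (Y : ℝ) ^ k) ^ (-(1 + sk k))) := by positivity
    have h6 := mul_le_mul_of_nonneg_right h4 h5
    have h7 : φ θ * (Gc n * ((Y : ℝ) ^ ((n : ℝ) / 2) + (Y : ℝ) ^ ((n : ℝ) - sk k / 4) *
        (1 + |θ| * (Y : ℝ) ^ k) ^ (-(1 + sk k)))) =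
        (Gc n * (Y : ℝ) ^ ((n : ℝ) / 2)) * φ θ + φ θ * (Gc n * ((Y : ℝ) ^ ((n : ℝ) - sk k / 4) *
        (1 + |θ| * (Y : ℝ) ^ k) ^ (-(1 + sk k)))) := by ring
    rw [h7]
    refine add_le_add le_rfl (h6.trans_eq ?_)
    ring
  have hi1 : Integrable fun θ => (Gc n * (Y : ℝ) ^ ((n : ℝ) / 2)) * φ θ := hw.four.norm.const_mul _
  have hi2 := (integrable_scaled hs hX).const_mul (Gc n * (W * (Y : ℝ) ^ ((n : ℝ) - sk k / 4)))
  have h7 : ∫ θ, φ θ * Real.sqrt (Af k Y (-θ) ^ n - ‖If k Y (-θ) ^ n‖ ^ 2) ≤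
      ∫ θ, ((Gc n * (Y : ℝ) ^ ((n : ℝ) / 2)) * φ θ +
        (Gc n * (W * (Y : ℝ) ^ ((n : ℝ) - sk k / 4))) *
          (1 + |θ| * (Y : ℝ) ^ k) ^ (-(1 + sk k))) :=
    integral_mono_of_nonneg (Filter.Eventually.of_forall fun θ => by positivity) (hi1.add hi2)
      (Filter.Eventually.of_forall hb)
  refine h7.trans ?_
  rw [integral_add hi1 hi2, integral_const_mul, integral_const_mul, integral_scaled hX]
  apply le_of_eq
  ring

end Pool.Agent.Q154.War
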