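import Pool.Agent.Q154.War.Dimin

/-!
# Thin sets plus generically shifted k-th powers: shared lemmas

Used by the two hand-ins ThinSetsPlusShifts and FewShifts of MP_570bef_nt.
-/

set_option autoImplicit false

namespace Pool.Agent.Q154.War

open MeasureTheory Filter Topology

/-- the general form for a thin set -/
theorem thin_shifts {k m j : ℕ} {𝒜 : Set ℕ} {c X₀ γ κ : ℝ} (hm : 4 ≤ m) (hmk : m ≤ k) (hc : 0 < c)
    (hA : ∀ X : ℝ, X₀ ≤ X →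
      c * X ^ (1 - ((m : ℝ) - 1) / k) ≤ ({a : ℕ | a ∈ 𝒜 ∧ (a : ℝ) ≤ X}.ncard : ℝ))
    (hγ0 : 0 ≤ γ) (hκ : 0 < κ) (hγ : γ * k * (2 ^ j + 1) < 2 ^ j - k) :
    ∀ᵐ α : Fin (m + j) → ℝ, (∀ i, α i ∈ Set.Icc (0 : ℝ) 1) →
      ∃ N₀ : ℝ, ∀ N : ℝ, N₀ ≤ N → ∃ a ∈ 𝒜, ∃ x : Fin (m + j) → ℕ, (∀ i, 0 < x i) ∧
        |(a : ℝ) + ∑ i, ((x i : ℝ) + α i) ^ k - N| < κ * N ^ (-γ) := by
  have hk0 : (0 : ℝ) < k := by
    have : 0 < k := by omega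
    exact_mod_cast this
  obtain ⟨i₀, hi₀⟩ := pow_unbounded_of_one_lt (max X₀ 1) (one_lt_two : (1 : ℝ) < 2)
  have hA' : ∀ i ≥ i₀, c * ((2 : ℝ) ^ i) ^ (k + 1 - m) ≤ (cutA 𝒜 k (2 ^ i)).card := by
    intro i hi
    have h1 : (2 : ℝ) ^ i₀ ≤ 2 ^ i := pow_le_pow_right₀ (by norm_num) hi
    have h2 : (1 : ℝ) ≤ 2 ^ i := one_le_pow₀ (by norm_num)
    have h3 : X₀ ≤ ((2 : ℝ) ^ i) ^ k := by
      calc X₀ ≤ max X₀ 1 := le_max_left _ _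
        _ ≤ 2 ^ i₀ := hi₀.le
        _ ≤ 2 ^ i := h1
        _ ≤ ((2 : ℝ) ^ i) ^ k := le_self_pow₀ h2 (by omega)
    have h4 := hA _ h3
    rw [cutA_card]
    push_cast
    refine le_trans (le_of_eq ?_) h4
    congr 1
    have h5 : (0 : ℝ) < 2 ^ i := by positivity
    rw [← Real.rpow_natCast ((2 : ℝ) ^ i) k, ← Real.rpow_mul h5.le,
      ← Real.rpow_natCast ((2 : ℝ) ^ i) (k + 1 - m), Nat.cast_sub (by omega)]
    congr 1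
    push_cast
    field_simp
    ring
  have h := mainM hm hmk hc hA' (γ := γ) (κ := κ) hγ0 hκ hγ
  filter_upwards [h] with α hα hα01
  obtain ⟨N₀, hN₀⟩ := hα hα01
  refine ⟨N₀, fun N hN => ?_⟩
  exact hN₀ N hN

/-- the Waring form -/
theorem pure_shifts {k m j s : ℕ} (hm : 4 ≤ m) (hmk : m ≤ k) (hj : k < 2 ^ j)
    (hs : (k : ℝ) * (1 - 1 / (k : ℝ)) ^ s ≤ (m : ℝ) - 1) :
    ∀ᵐ α : Fin (m + j) → ℝ, (∀ i, α i ∈ Set.Icc (0 : ℝ) 1) →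
      ∃ N₀ : ℕ, ∀ N : ℕ, N₀ ≤ N → ∃ y : Fin s → ℕ, ∃ x : Fin (m + j) → ℕ,
        (∀ i, 0 < y i) ∧ (∀ i, 0 < x i) ∧
        ⌊∑ i, (y i : ℝ) ^ k + ∑ i, ((x i : ℝ) + α i) ^ k⌋ = (N : ℤ) := by
  have hk0 : (0 : ℝ) < k := by
    have : 0 < k := by omega
    exact_mod_cast this
  obtain ⟨c, hc, X₀, hX₀⟩ := count_PS (k := k) (by omega) s
  have hjr : (k : ℝ) < 2 ^ j := by exact_mod_cast hj
  have h := thin_shifts (k := k) (m := m) (j := j) (𝒜 := PS k s) (c := c) (X₀ := max X₀ 1) (γ := 0)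
    (κ := 1 / 2) hm hmk hc (by
      intro X hX
      have h1 : X₀ ≤ X := (le_max_left _ _).trans hX
      have h2 : 1 ≤ X := (le_max_right _ _).trans hX
      refine le_trans ?_ (hX₀ X h1)
      refine mul_le_mul_of_nonneg_left ?_ hc.le
      refine Real.rpow_le_rpow_of_exponent_le h2 ?_
      have h3 : (1 - 1 / (k : ℝ)) ^ s ≤ ((m : ℝ) - 1) / k := by
        rw [le_div_iff₀ hk0]
        linarith
      linarith) le_rfl (by norm_num) (by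
      rw [zero_mul, zero_mul]
      linarith)
  filter_upwards [h] with α hα hα01
  obtain ⟨N₀, hN₀⟩ := hα hα01
  refine ⟨⌈N₀⌉₊ + 1, fun N hN => ?_⟩
  have hNr : N₀ ≤ (N : ℝ) + 1 / 2 := by
    have h2 : N₀ ≤ (⌈N₀⌉₊ : ℝ) := Nat.le_ceil N₀
    have h3 : ((⌈N₀⌉₊ + 1 : ℕ) : ℝ) ≤ N := by exact_mod_cast hN
    push_cast at h3
    linarith
  obtain ⟨a, ⟨y, hy, hya⟩, x, hx, h4⟩ := hN₀ ((N : ℝ) + 1 / 2) hNr
  refine ⟨y, x, hy, hx, ?_⟩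
  have h5 : (a : ℝ) = ∑ i, (y i : ℝ) ^ k := by
    rw [hya]
    push_cast
    rfl
  rw [h5, neg_zero, Real.rpow_zero, mul_one, abs_lt] at h4
  rw [Int.floor_eq_iff]
  push_cast
  constructor
  · linarith [h4.1]
  · linarith [h4.2]

end Pool.Agent.Q154.War
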