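import Pool.Agent.Q154.War.BaseCase

/-!
# The two-point estimate
-/

set_option autoImplicit false
set_option linter.unusedSectionVars false

open MeasureTheory Set Finset
open scoped Real ENNReal

namespace Pool.Agent.Q154.War

lemma vol_preimage {f f' : ℝ → ℝ} {s E : Set ℝ} (hs : MeasurableSet s) (hE : MeasurableSet E)
    (hfm : Measurable f) (hf' : ∀ x, HasDerivAt f (f' x) x) (hinj : InjOn f s) {m : ℝ}
    (hlow : ∀ x ∈ s, m ≤ |f' x|) :
    ENNReal.ofReal m * volume (s ∩ f ⁻¹' E) ≤ volume E := by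
  have hs' : MeasurableSet (s ∩ f ⁻¹' E) := hs.inter (hfm hE)
  have h := lintegral_image_eq_lintegral_abs_deriv_mul hs'
    (fun x _ => (hf' x).hasDerivWithinAt) (hinj.mono inter_subset_left) (fun _ => 1)
  have h1 : ∫⁻ _x in f '' (s ∩ f ⁻¹' E), (1 : ℝ≥0∞) ≤ volume E := by
    rw [setLIntegral_const, one_mul]
    refine measure_mono ?_
    rintro _ ⟨x, hx, rfl⟩
    exact hx.2
  have h2 : ENNReal.ofReal m * volume (s ∩ f ⁻¹' E) ≤
      ∫⁻ x in s ∩ f ⁻¹' E, ENNReal.ofReal |f' x| * 1 := by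
    rw [← setLIntegral_const]
    refine setLIntegral_mono' hs' fun x hx => ?_
    rw [mul_one]
    exact ENNReal.ofReal_le_ofReal (hlow x hx.1)
  rw [← h] at h2
  exact h2.trans h1

lemma diff_ge {k : ℕ} (hk : 2 ≤ k) {a h y : ℝ} (ha : 0 < a) (hh : 0 < h) (hy : a ≤ y) :
    h * a ^ (k - 2) ≤ k * ((y + h) ^ (k - 1) - y ^ (k - 1)) := by
  have hy0 : 0 < y := ha.trans_le hy
  have h1 := pow_add_ge hy0.le hh.le (k - 1)
  have e : k - 1 - 1 = k - 2 := by omega
  rw [e] at h1
  have h2 : a ^ (k - 2) ≤ y ^ (k - 2) := pow_le_pow_left₀ ha.le hy _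
  have hk1 : (1 : ℝ) ≤ ((k - 1 : ℕ) : ℝ) := by
    have : 1 ≤ k - 1 := by omega
    exact_mod_cast this
  have hk2 : (1 : ℝ) ≤ k := by
    have : 1 ≤ k := by omega
    exact_mod_cast this
  have h3 : h * a ^ (k - 2) ≤ (y + h) ^ (k - 1) - y ^ (k - 1) := by
    have h4 : h * a ^ (k - 2) ≤ ((k - 1 : ℕ) : ℝ) * h * y ^ (k - 2) := by
      calc h * a ^ (k - 2) ≤ h * y ^ (k - 2) := mul_le_mul_of_nonneg_left h2 hh.le
        _ ≤ ((k - 1 : ℕ) : ℝ) * (h * y ^ (k - 2)) :=
            le_mul_of_one_le_left (by positivity) hk1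
        _ = ((k - 1 : ℕ) : ℝ) * h * y ^ (k - 2) := by ring
    linarith
  have h5 : 0 ≤ (y + h) ^ (k - 1) - y ^ (k - 1) := le_trans (by positivity) h3
  exact h3.trans (le_mul_of_one_le_left h5 hk2)

lemma inner_bound {k : ℕ} (hk : 2 ≤ k) {P h : ℝ} (hP : 0 < P) (hh : 0 < h) (u : ℝ) {E : Set ℝ}
    (hE : MeasurableSet E) :
    ENNReal.ofReal (h * P ^ (k - 2)) *
      volume (Set.Ico P (2 * P) ∩ (fun y => u - ((y + h) ^ k - y ^ k)) ⁻¹' E) ≤ volume E := by
  have hd : ∀ y, HasDerivAt (fun y => u - ((y + h) ^ k - y ^ k))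
      (-(k * ((y + h) ^ (k - 1) - y ^ (k - 1)))) y := by
    intro y
    have h1 := (hasDerivAt_diff k 1 h y).const_sub u
    simpa using h1
  have hpos : ∀ y, P ≤ y → 0 < k * ((y + h) ^ (k - 1) - y ^ (k - 1)) := by
    intro y hy
    exact lt_of_lt_of_le (by positivity) (diff_ge hk hP hh hy)
  refine vol_preimage measurableSet_Ico hE ?_ hd ?_ ?_
  · have : Continuous fun y : ℝ => u - ((y + h) ^ k - y ^ k) := by fun_prop
    exact this.measurable
  · have hmono : StrictMonoOn (fun y : ℝ => (y + h) ^ k - y ^ k) (Set.Ici P) := by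
      refine strictMonoOn_of_deriv_pos (convex_Ici P) (by fun_prop) ?_
      intro y hy
      rw [interior_Ici] at hy
      have h1 : HasDerivAt (fun y : ℝ => (y + h) ^ k - y ^ k)
          (k * ((y + h) ^ (k - 1) - y ^ (k - 1))) y := by
        have := hasDerivAt_diff k 1 h y
        simpa using this
      rw [h1.deriv]
      exact hpos y (le_of_lt hy)
    intro y hy z hz hyz
    refine hmono.injOn hy.1 hz.1 ?_
    simp only at hyz ⊢
    linarith
  · intro y hy
    rw [abs_neg, abs_of_pos (hpos y hy.1)]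
    exact diff_ge hk hP hh hy.1

/-- the indicator -/
noncomputable def ind (E : Set ℝ) (u : ℝ) : ℝ≥0∞ := E.indicator (fun _ => 1) u

lemma measurable_ind {E : Set ℝ} (hE : MeasurableSet E) : Measurable (ind E) :=
  measurable_const.indicator hE

/-- the pair correlation -/
noncomputable def gh (k : ℕ) (E : Set ℝ) (h y : ℝ) : ℝ≥0∞ :=
  ∫⁻ N, ind E (N - y ^ k) * ind E (N - (y + h) ^ k)

lemma measurable_pair {k : ℕ} {E : Set ℝ} (hE : MeasurableSet E) (h : ℝ) :
    Measurable fun p : ℝ × ℝ => ind E (p.2 - p.1 ^ k) * ind E (p.2 - (p.1 + h) ^ k) := by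
  refine Measurable.mul ?_ ?_
  · refine (measurable_ind hE).comp ?_
    have : Continuous fun p : ℝ × ℝ => p.2 - p.1 ^ k := by fun_prop
    exact this.measurable
  · refine (measurable_ind hE).comp ?_
    have : Continuous fun p : ℝ × ℝ => p.2 - (p.1 + h) ^ k := by fun_prop
    exact this.measurable

lemma measurable_gh {k : ℕ} {E : Set ℝ} (hE : MeasurableSet E) (h : ℝ) :
    Measurable (gh k E h) := by
  unfold gh
  exact (measurable_pair hE h).lintegral_prod_right'

lemma gh_eq (k : ℕ) (E : Set ℝ) (h y : ℝ) :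
    gh k E h y = ∫⁻ u, ind E u * ind E (u - ((y + h) ^ k - y ^ k)) := by
  unfold gh
  rw [← lintegral_add_right_eq_self
    (fun N => ind E (N - y ^ k) * ind E (N - (y + h) ^ k)) (y ^ k)]
  refine lintegral_congr fun u => ?_
  congr 2
  · ring
  · ring

lemma lint_gh {k : ℕ} (hk : 2 ≤ k) {P h : ℝ} (hP : 0 < P) (hh : 0 < h) {E : Set ℝ}
    (hE : MeasurableSet E) :
    ∫⁻ y in Set.Ico P (2 * P), gh k E h y ≤
      volume E * (volume E / ENNReal.ofReal (h * P ^ (k - 2))) := by
  simp only [gh_eq]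
  have hm : Measurable fun p : ℝ × ℝ => ind E p.2 * ind E (p.2 - ((p.1 + h) ^ k - p.1 ^ k)) := by
    refine Measurable.mul ((measurable_ind hE).comp measurable_snd) ?_
    refine (measurable_ind hE).comp ?_
    have : Continuous fun p : ℝ × ℝ => p.2 - ((p.1 + h) ^ k - p.1 ^ k) := by fun_prop
    exact this.measurable
  rw [lintegral_lintegral_swap hm.aemeasurable]
  have h1 : ∀ u, ∫⁻ y in Set.Ico P (2 * P), ind E u * ind E (u - ((y + h) ^ k - y ^ k)) ≤
      ind E u * (volume E / ENNReal.ofReal (h * P ^ (k - 2))) := by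
    intro u
    have hm2 : Measurable fun y => ind E (u - ((y + h) ^ k - y ^ k)) := by
      refine (measurable_ind hE).comp ?_
      have : Continuous fun y : ℝ => u - ((y + h) ^ k - y ^ k) := by fun_prop
      exact this.measurable
    rw [lintegral_const_mul _ hm2]
    refine mul_le_mul_right ?_ _
    have hpre : MeasurableSet ((fun y : ℝ => u - ((y + h) ^ k - y ^ k)) ⁻¹' E) := by
      have : Continuous fun y : ℝ => u - ((y + h) ^ k - y ^ k) := by fun_prop
      exact this.measurable hE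
    have h2 : ∫⁻ y in Set.Ico P (2 * P), ind E (u - ((y + h) ^ k - y ^ k)) =
        volume (Set.Ico P (2 * P) ∩ (fun y => u - ((y + h) ^ k - y ^ k)) ⁻¹' E) := by
      have h3 : ∀ y, ind E (u - ((y + h) ^ k - y ^ k)) =
          ((fun y : ℝ => u - ((y + h) ^ k - y ^ k)) ⁻¹' E).indicator (fun _ => (1 : ℝ≥0∞)) y := by
        intro y
        rfl
      simp only [h3]
      rw [lintegral_indicator hpre, setLIntegral_const, one_mul, Measure.restrict_apply hpre,
        Set.inter_comm]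
    rw [h2, ENNReal.le_div_iff_mul_le
      (Or.inl (ENNReal.ofReal_pos.2 (by positivity)).ne') (Or.inl ENNReal.ofReal_ne_top), mul_comm]
    exact inner_bound hk hP hh u hE
  refine (lintegral_mono h1).trans ?_
  rw [lintegral_mul_const _ (measurable_ind hE)]
  refine mul_le_mul_left (le_of_eq ?_) _
  unfold ind
  rw [lintegral_indicator hE, setLIntegral_const, one_mul]

/-- adding up unit intervals, for Lebesgue integrals -/
lemma lint_unit {g : ℝ → ℝ≥0∞} (a : ℝ) (n : ℕ) :
    ∑ i ∈ range n, ∫⁻ t, g (a + i + t) ∂ν1 = ∫⁻ y in Set.Ico a (a + n), g y := by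
  have hone : ∀ b : ℝ, ∫⁻ t, g (b + t) ∂ν1 = ∫⁻ y in Set.Ico b (b + 1), g y := by
    intro b
    unfold ν1
    rw [setLIntegral_congr (Ico_ae_eq_Icc (a := (0 : ℝ)) (b := 1)).symm,
      ← lintegral_indicator measurableSet_Ico, ← lintegral_indicator measurableSet_Ico,
      ← lintegral_add_left_eq_self ((Set.Ico b (b + 1)).indicator fun y => g y) b]
    refine lintegral_congr fun t => ?_
    by_cases ht : t ∈ Set.Ico (0 : ℝ) 1
    · rw [Set.indicator_of_mem ht, Set.indicator_of_mem]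
      exact ⟨by linarith [ht.1], by linarith [ht.2]⟩
    · rw [Set.indicator_of_notMem ht, Set.indicator_of_notMem]
      intro h
      exact ht ⟨by linarith [h.1], by linarith [h.2]⟩
  induction n with
  | zero => simp
  | succ n ih =>
    rw [Finset.sum_range_succ, ih, hone]
    have hn : (0 : ℝ) ≤ n := Nat.cast_nonneg n
    have e : Set.Ico a (a + ((n + 1 : ℕ) : ℝ)) = Set.Ico a (a + n) ∪ Set.Ico (a + n) (a + n + 1) := by
      rw [Set.Ico_union_Ico_eq_Ico (by linarith) (by linarith)]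
      push_cast
      rw [add_assoc]
    rw [e, lintegral_union measurableSet_Ico]
    rw [Set.disjoint_left]
    intro x hx hx'
    exact absurd hx.2 (not_lt.2 hx'.1)

lemma lint_unit_Ico {g : ℝ → ℝ≥0∞} (P : ℕ) :
    ∑ x ∈ Finset.Ico P (2 * P), ∫⁻ t, g (x + t) ∂ν1 = ∫⁻ y in Set.Ico (P : ℝ) (2 * P), g y := by
  rw [Finset.sum_Ico_eq_sum_range]
  have e : 2 * P - P = P := by omega
  rw [e]
  have h := lint_unit (g := g) (P : ℝ) P
  have e2 : (P : ℝ) + (P : ℝ) = 2 * P := by ring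
  rw [e2] at h
  rw [← h]
  refine Finset.sum_congr rfl fun i _ => ?_
  push_cast
  rfl

/-- **The two-point estimate.** -/
theorem two_point {k P : ℕ} (hk : 2 ≤ k) (hP : 1 ≤ P) {E : Set ℝ} (hE : MeasurableSet E) :
    ∫⁻ t, (∫⁻ N, (∑ x ∈ Finset.Ico P (2 * P), ind E (N - ((x : ℝ) + t) ^ k)) *
        (∑ x ∈ Finset.Ico (3 * P) (4 * P), ind E (N - ((x : ℝ) + t) ^ k))) ∂ν1 ≤
      2 * P * (volume E * (volume E / ENNReal.ofReal ((P : ℝ) ^ (k - 1)))) := by
  have hP0 : (0 : ℝ) < P := by exact_mod_cast hP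
  set G : ℕ → ℕ → ℝ≥0∞ := fun h x => ∫⁻ t, gh k E h (x + t) ∂ν1 with hG
  have h1 : ∫⁻ t, (∫⁻ N, (∑ x ∈ Finset.Ico P (2 * P), ind E (N - ((x : ℝ) + t) ^ k)) *
        (∑ x ∈ Finset.Ico (3 * P) (4 * P), ind E (N - ((x : ℝ) + t) ^ k))) ∂ν1 =
      ∑ x ∈ Finset.Ico P (2 * P), ∑ x' ∈ Finset.Ico (3 * P) (4 * P), G (x' - x) x := by
    have hm : ∀ x x' : ℕ, Measurable fun p : ℝ × ℝ =>
        ind E (p.2 - ((x : ℝ) + p.1) ^ k) * ind E (p.2 - ((x' : ℝ) + p.1) ^ k) := by
      intro x x'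
      refine Measurable.mul ?_ ?_
      · refine (measurable_ind hE).comp ?_
        have : Continuous fun p : ℝ × ℝ => p.2 - ((x : ℝ) + p.1) ^ k := by fun_prop
        exact this.measurable
      · refine (measurable_ind hE).comp ?_
        have : Continuous fun p : ℝ × ℝ => p.2 - ((x' : ℝ) + p.1) ^ k := by fun_prop
        exact this.measurable
    have hm1 : ∀ (t : ℝ) (x x' : ℕ), Measurable fun N : ℝ =>
        ind E (N - ((x : ℝ) + t) ^ k) * ind E (N - ((x' : ℝ) + t) ^ k) := by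
      intro t x x'
      exact ((measurable_ind hE).comp (measurable_id.sub_const _)).mul
        ((measurable_ind hE).comp (measurable_id.sub_const _))
    have hm2 : ∀ x x' : ℕ, Measurable fun t : ℝ => ∫⁻ N,
        ind E (N - ((x : ℝ) + t) ^ k) * ind E (N - ((x' : ℝ) + t) ^ k) := by
      intro x x'
      exact (hm x x').lintegral_prod_right'
    simp only [Finset.sum_mul_sum]
    have e1 : ∀ t, ∫⁻ N, ∑ x ∈ Finset.Ico P (2 * P), ∑ x' ∈ Finset.Ico (3 * P) (4 * P),
        ind E (N - ((x : ℝ) + t) ^ k) * ind E (N - ((x' : ℝ) + t) ^ k) =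
        ∑ x ∈ Finset.Ico P (2 * P), ∑ x' ∈ Finset.Ico (3 * P) (4 * P),
          ∫⁻ N, ind E (N - ((x : ℝ) + t) ^ k) * ind E (N - ((x' : ℝ) + t) ^ k) := by
      intro t
      rw [lintegral_finsetSum _ fun x _ => Finset.measurable_sum _ fun x' _ => hm1 t x x']
      refine Finset.sum_congr rfl fun x _ => ?_
      rw [lintegral_finsetSum _ fun x' _ => hm1 t x x']
    simp only [e1]
    rw [lintegral_finsetSum _ fun x _ => Finset.measurable_sum _ fun x' _ => hm2 x x']
    refine Finset.sum_congr rfl fun x hx => ?_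
    rw [lintegral_finsetSum _ fun x' _ => hm2 x x']
    refine Finset.sum_congr rfl fun x' hx' => ?_
    rw [hG]
    simp only
    refine lintegral_congr fun t => ?_
    unfold gh
    refine lintegral_congr fun N => ?_
    rw [Finset.mem_Ico] at hx hx'
    have e : (x : ℝ) + t + ((x' - x : ℕ) : ℝ) = x' + t := by
      rw [Nat.cast_sub (by omega)]
      ring
    rw [e]
  rw [h1]
  have h2 : ∀ x ∈ Finset.Ico P (2 * P), ∑ x' ∈ Finset.Ico (3 * P) (4 * P), G (x' - x) x ≤
      ∑ h ∈ Finset.Ico (P + 1) (3 * P), G h x := by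
    intro x hx
    rw [Finset.mem_Ico] at hx
    have e1 : ∑ x' ∈ Finset.Ico (3 * P) (4 * P), G (x' - x) x =
        ∑ h ∈ Finset.Ico (3 * P - x) (4 * P - x), G h x := by
      have h3 := Finset.sum_Ico_add' (fun x' => G (x' - x) x) (3 * P - x) (4 * P - x) x
      have e2 : 3 * P - x + x = 3 * P := by omega
      have e3 : 4 * P - x + x = 4 * P := by omega
      rw [e2, e3] at h3
      rw [← h3]
      refine Finset.sum_congr rfl fun h _ => ?_
      rw [Nat.add_sub_cancel]
    rw [e1]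
    refine Finset.sum_le_sum_of_subset ?_
    intro h hh
    rw [Finset.mem_Ico] at hh ⊢
    omega
  refine (Finset.sum_le_sum h2).trans ?_
  rw [Finset.sum_comm]
  have h3 : ∀ h ∈ Finset.Ico (P + 1) (3 * P), ∑ x ∈ Finset.Ico P (2 * P), G h x ≤
      volume E * (volume E / ENNReal.ofReal ((P : ℝ) ^ (k - 1))) := by
    intro h hh
    rw [Finset.mem_Ico] at hh
    have hh0 : (0 : ℝ) < h := by
      have : 0 < h := by omega
      exact_mod_cast this
    rw [hG]
    simp only
    rw [lint_unit_Ico]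
    refine (lint_gh hk hP0 hh0 hE).trans ?_
    refine mul_le_mul_right ?_ _
    refine ENNReal.div_le_div_left ?_ _
    refine ENNReal.ofReal_le_ofReal ?_
    have e : (P : ℝ) ^ (k - 1) = P * (P : ℝ) ^ (k - 2) := by
      rw [← pow_succ']
      congr 1
      omega
    rw [e]
    refine mul_le_mul_of_nonneg_right ?_ (by positivity)
    have : P ≤ h := by omega
    exact_mod_cast this
  refine (Finset.sum_le_sum h3).trans ?_
  rw [Finset.sum_const, nsmul_eq_mul]
  refine mul_le_mul_left ?_ _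
  rw [Nat.card_Ico]
  have : 3 * P - (P + 1) ≤ 2 * P := by omega
  calc ((3 * P - (P + 1) : ℕ) : ℝ≥0∞) ≤ ((2 * P : ℕ) : ℝ≥0∞) := by exact_mod_cast this
    _ = 2 * P := by push_cast; rfl

end Pool.Agent.Q154.War
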