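import Pool.Agent.Q154.War.SupBound
import Pool.Agent.Q154.War.TwoPoint

/-!
# The main term is a volume
-/

set_option autoImplicit false
set_option linter.unusedSectionVars false

open MeasureTheory Set Finset FourierTransform
open scoped Real ENNReal

namespace Pool.Agent.Q154.War

lemma lint_cons (μ0 : Measure ℝ) [SigmaFinite μ0] {m : ℕ} {f : (Fin (m + 1) → ℝ) → ℝ≥0∞}
    (hf : Measurable f) :
    ∫⁻ β, f β ∂(Measure.pi fun _ : Fin (m + 1) => μ0) =
      ∫⁻ α, ∫⁻ t, f (Fin.cons t α) ∂μ0 ∂(Measure.pi fun _ : Fin m => μ0) := by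
  have h := (measurePreserving_piFinSuccAbove (fun _ : Fin (m + 1) => μ0) 0).symm
  have e : ⇑(MeasurableEquiv.piFinSuccAbove (fun _ : Fin (m + 1) => ℝ) 0).symm =
      (fun p : ℝ × (Fin m → ℝ) => (Fin.cons p.1 p.2 : Fin (m + 1) → ℝ)) := by
    funext p
    exact Fin.insertNth_zero' p.1 p.2
  rw [e] at h
  rw [← h.lintegral_comp hf]
  have hm : Measurable fun p : ℝ × (Fin m → ℝ) => f (Fin.cons p.1 p.2) := hf.comp h.measurable
  exact lintegral_prod_symm _ hm.aemeasurable

lemma sum_boxZ {E : Type*} [AddCommMonoid E] (m Y : ℕ) (f : (Fin (m + 1) → ℤ) → E) :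
    ∑ x ∈ boxZ (m + 1) Y, f x =
      ∑ x ∈ boxZ m Y, ∑ x0 ∈ Finset.Ico (-(Y : ℤ)) Y, f (Fin.cons x0 x) := by
  rw [← Finset.sum_product_right' (Finset.Ico (-(Y : ℤ)) Y) (boxZ m Y)
    (fun x0 x => f (Fin.cons x0 x))]
  symm
  refine Finset.sum_equiv (Fin.consEquiv fun _ => ℤ) ?_ ?_
  · intro p
    rw [Finset.mem_product]
    unfold boxZ
    rw [Fintype.mem_piFinset, Fintype.mem_piFinset]
    constructor
    · intro h i
      refine Fin.cases ?_ (fun j => ?_) i
      · exact h.1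
      · exact h.2 j
    · intro h
      exact ⟨h 0, fun j => h j.succ⟩
  · intro p _
    rfl

lemma tile_one {g : ℝ → ℝ≥0∞} (Y : ℕ) :
    ∑ m ∈ Finset.Ico (-(Y : ℤ)) Y, ∫⁻ t, g ((m : ℝ) + t) ∂ν1 =
      ∫⁻ y, g y ∂(volume.restrict (Set.Ico (-(Y : ℝ)) Y)) := by
  have h := lint_unit (g := g) (-(Y : ℝ)) (2 * Y)
  have e2 : -(Y : ℝ) + ((2 * Y : ℕ) : ℝ) = Y := by
    push_cast
    ring
  rw [e2] at h
  rw [← h]
  symm
  refine Finset.sum_nbij (fun i : ℕ => -(Y : ℤ) + (i : ℤ)) ?_ ?_ ?_ ?_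
  · intro i hi
    rw [Finset.mem_range] at hi
    rw [Finset.mem_Ico]
    omega
  · intro i _ j _ hij
    simp only at hij
    omega
  · intro m hm
    rw [Finset.mem_coe, Finset.mem_Ico] at hm
    refine ⟨(m + Y).toNat, ?_, ?_⟩
    · rw [Finset.mem_coe, Finset.mem_range]
      omega
    · simp only
      omega
  · intro i _
    push_cast
    rfl

/-- **Tiling.** -/
theorem tile (n Y : ℕ) : ∀ {g : (Fin n → ℝ) → ℝ≥0∞}, Measurable g →
    ∑ x ∈ boxZ n Y, ∫⁻ α, g (fun i => (x i : ℝ) + α i) ∂(νn n) =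
      ∫⁻ y, g y ∂(Measure.pi fun _ : Fin n => volume.restrict (Set.Ico (-(Y : ℝ)) Y)) := by
  induction n with
  | zero =>
    intro g _
    have h1 : boxZ 0 Y = {default} := by
      unfold boxZ
      ext x
      constructor
      · intro _
        rw [Finset.mem_singleton]
        exact Subsingleton.elim _ _
      · intro _
        rw [Fintype.mem_piFinset]
        intro i
        exact i.elim0
    rw [h1, Finset.sum_singleton]
    unfold νn
    rw [Measure.pi_of_empty _ default, Measure.pi_of_empty _ default, lintegral_dirac,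
      lintegral_dirac]
    congr 1
    exact Subsingleton.elim _ _
  | succ m ih =>
    intro g hg
    rw [sum_boxZ, lint_cons _ hg]
    set G : (Fin m → ℝ) → ℝ≥0∞ := fun y' =>
      ∫⁻ t, g (Fin.cons t y') ∂(volume.restrict (Set.Ico (-(Y : ℝ)) Y)) with hG
    have hcons : Measurable fun p : (Fin m → ℝ) × ℝ => (Fin.cons p.2 p.1 : Fin (m + 1) → ℝ) := by
      refine measurable_pi_iff.2 fun i => ?_
      refine Fin.cases ?_ (fun j => ?_) i
      · exact measurable_snd
      · exact (measurable_pi_apply j).comp measurable_fst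
    have hGm : Measurable G := by
      have : Measurable fun p : (Fin m → ℝ) × ℝ => g (Fin.cons p.2 p.1) := hg.comp hcons
      exact this.lintegral_prod_right'
    rw [← ih hGm]
    refine Finset.sum_congr rfl fun x _ => ?_
    have hsh : ∀ x0 : ℤ, Measurable fun β : Fin (m + 1) → ℝ =>
        g (fun i => ((Fin.cons x0 x : Fin (m + 1) → ℤ) i : ℝ) + β i) := by
      intro x0
      refine hg.comp ?_
      fun_prop
    have h2 : ∀ x0 : ℤ, ∫⁻ β, g (fun i => ((Fin.cons x0 x : Fin (m + 1) → ℤ) i : ℝ) + β i)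
        ∂(νn (m + 1)) = ∫⁻ α, ∫⁻ t, g (Fin.cons ((x0 : ℝ) + t) (fun i => (x i : ℝ) + α i)) ∂ν1
          ∂(νn m) := by
      intro x0
      have h3 := lint_cons ν1 (hsh x0)
      have h4 : ∀ (t : ℝ) (α : Fin m → ℝ),
          (fun i => ((Fin.cons x0 x : Fin (m + 1) → ℤ) i : ℝ) + (Fin.cons t α : Fin (m + 1) → ℝ) i) =
          (Fin.cons ((x0 : ℝ) + t) (fun i => (x i : ℝ) + α i) : Fin (m + 1) → ℝ) := by
        intro t α
        ext i
        refine Fin.cases ?_ (fun j => ?_) i
        · simp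
        · simp
      simp only [h4] at h3
      exact h3
    simp only [h2]
    have hm2 : ∀ x0 : ℤ, Measurable fun α : Fin m → ℝ =>
        ∫⁻ t, g (Fin.cons ((x0 : ℝ) + t) (fun i => (x i : ℝ) + α i)) ∂ν1 := by
      intro x0
      have h5 : Measurable fun p : (Fin m → ℝ) × ℝ =>
          (Fin.cons ((x0 : ℝ) + p.2) (fun i => (x i : ℝ) + p.1 i) : Fin (m + 1) → ℝ) := by
        refine measurable_pi_iff.2 fun i => ?_
        refine Fin.cases ?_ (fun j => ?_) i
        · exact measurable_snd.const_add _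
        · exact ((measurable_pi_apply j).comp measurable_fst).const_add _
      exact (hg.comp h5).lintegral_prod_right'
    rw [← lintegral_finsetSum _ fun x0 _ => hm2 x0]
    refine lintegral_congr fun α => ?_
    rw [hG]
    simp only
    exact tile_one (g := fun t => g (Fin.cons t (fun i => (x i : ℝ) + α i))) Y

/-- the form on real points -/
noncomputable def fk (k n : ℕ) (y : Fin n → ℝ) : ℝ := ∑ i, |y i| ^ k

lemma measurable_fk (k n : ℕ) : Measurable (fk k n) := by
  unfold fk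
  fun_prop

lemma VV_eq {k n Y : ℕ} {w : ℝ → ℝ} (hw : Wt w) (N : ℝ) :
    ENNReal.ofReal (VV (νn n) (boxZ n Y) (sz k n) w N) =
      ∫⁻ y, ENNReal.ofReal (w (N - fk k n y))
        ∂(Measure.pi fun _ : Fin n => volume.restrict (Set.Ico (-(Y : ℝ)) Y)) := by
  have hg : Measurable fun y : Fin n → ℝ => ENNReal.ofReal (w (N - fk k n y)) :=
    (hw.cont.measurable.comp ((measurable_fk k n).const_sub N)).ennreal_ofReal
  rw [← tile n Y hg]
  unfold VV
  rw [ofReal_integral_eq_lintegral_ofReal (integrable_rr_left hw (measurable_sz k n) N)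
    (Filter.Eventually.of_forall fun α => rr_nonneg hw α N)]
  have h1 : ∀ α, ENNReal.ofReal (rr (boxZ n Y) (sz k n) w α N) =
      ∑ x ∈ boxZ n Y, ENNReal.ofReal (w (N - fk k n (fun i => (x i : ℝ) + α i))) := by
    intro α
    unfold rr
    rw [ENNReal.ofReal_sum_of_nonneg fun x _ => hw.nonneg _]
    rfl
  simp only [h1]
  rw [lintegral_finsetSum]
  intro x _
  refine hg.comp ?_
  fun_prop

/-- the constant -/
noncomputable def vc (k n : ℕ) : ℝ :=
  (2 * Real.Gamma (1 / k + 1)) ^ n / Real.Gamma (n / k + 1)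

lemma vol_ball {k n : ℕ} (hk : 1 ≤ k) (hn : 1 ≤ n) {M : ℝ} (hM : 0 < M) :
    volume {y : Fin n → ℝ | fk k n y < M} = ENNReal.ofReal (vc k n * M ^ ((n : ℝ) / k)) := by
  have hk1 : (1 : ℝ) ≤ k := by exact_mod_cast hk
  have hk0 : (0 : ℝ) < k := by linarith
  have : Nonempty (Fin n) := ⟨⟨0, by omega⟩⟩
  have h := volume_sum_rpow_lt (ι := Fin n) hk1 (M ^ (1 / (k : ℝ)))
  have e : {y : Fin n → ℝ | fk k n y < M} =
      {x : Fin n → ℝ | (∑ i, |x i| ^ (k : ℝ)) ^ (1 / (k : ℝ)) < M ^ (1 / (k : ℝ))} := by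
    ext y
    simp only [Set.mem_ofPred_eq]
    have h1 : ∑ i, |y i| ^ (k : ℝ) = fk k n y := by
      unfold fk
      refine Finset.sum_congr rfl fun i _ => ?_
      rw [Real.rpow_natCast]
    rw [h1]
    have h2 : 0 ≤ fk k n y := by
      unfold fk
      exact Finset.sum_nonneg fun i _ => by positivity
    exact (Real.rpow_lt_rpow_iff h2 hM.le (by positivity)).symm
  rw [e, h, Fintype.card_fin, ← ENNReal.ofReal_pow (by positivity),
    ← ENNReal.ofReal_mul (by positivity)]
  congr 1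
  unfold vc
  rw [← Real.rpow_mul_natCast hM.le]
  have e2 : 1 / (k : ℝ) * n = n / k := by ring
  rw [e2]
  ring

end Pool.Agent.Q154.War
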