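import Pool.Agent.Q154.War.Pars

/-!
# A dense set of integers plus one shifted power: the variance
-/

set_option autoImplicit false
set_option linter.unusedSectionVars false

open MeasureTheory Set Finset FourierTransform
open scoped Real ENNReal

namespace Pool.Agent.Q154.War

lemma S_neg (k P : ℕ) (θ t : ℝ) : S k P (-θ) t = (starRingEnd ℂ) (S k P θ t) := by
  unfold S
  rw [map_sum]
  refine Finset.sum_congr rfl fun x _ => ?_
  rw [← ee_neg]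
  congr 1
  ring

lemma Am_neg (k P : ℕ) (θ : ℝ) : Am k P (-θ) = Am k P θ := by
  unfold Am
  simp only [S_neg, RCLike.norm_conj]

lemma norm_Im_neg (k P : ℕ) (θ : ℝ) : ‖Im k P (-θ)‖ = ‖Im k P θ‖ := by
  unfold Im
  have e : ∫ t in (0 : ℝ)..1, S k P (-θ) t = (starRingEnd ℂ) (∫ t in (0 : ℝ)..1, S k P θ t) := by
    simp only [S_neg]
    rw [intervalIntegral.integral_of_le zero_le_one, intervalIntegral.integral_of_le zero_le_one]
    exact integral_conj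
  rw [e, RCLike.norm_conj]

/-- the constant of the variance -/
noncomputable def Vc (k P : ℕ) : ℝ := Kc P * (P * (1 + 2 * k * 4 ^ (k - 1)))

lemma Vc_ge {k P : ℕ} (hP : 1 ≤ P) : 2 ≤ Vc k P := by
  unfold Vc
  have h1 := Kc_ge hP
  have hP' : (1 : ℝ) ≤ P := by exact_mod_cast hP
  have h2 : (0 : ℝ) ≤ 2 * k * 4 ^ (k - 1) := by positivity
  have h3 : (1 : ℝ) ≤ P * (1 + 2 * k * 4 ^ (k - 1)) := by nlinarith
  nlinarith

lemma Am_sub_le_Vc {k P : ℕ} (hk : 2 ≤ k) (hP : 1 ≤ P) (θ : ℝ) :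
    Am k P θ - ‖Im k P θ‖ ^ 2 ≤ Vc k P := by
  wlog hθ : 0 ≤ θ generalizing θ
  · have h := this (-θ) (by linarith [not_le.1 hθ])
    rw [Am_neg, norm_Im_neg] at h
    exact h
  have hP' : (1 : ℝ) ≤ P := by exact_mod_cast hP
  have hP0 : (0 : ℝ) < P := by linarith
  have hk0 : (0 : ℝ) < k := by
    have : 0 < k := by omega
    exact_mod_cast this
  rcases le_or_gt (θ * (k * (4 * P : ℝ) ^ (k - 1))) (1 / 2) with h | h
  · exact (Am_sub_small hk hθ h).trans (Vc_ge hP)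
  · have h1 := Am_le hk hP θ
    rw [abs_of_nonneg hθ] at h1
    have h2 : (P : ℝ) ^ 2 / (1 + θ * (P : ℝ) ^ k) ≤ 2 * k * 4 ^ (k - 1) * P := by
      rw [div_le_iff₀ (by positivity)]
      have e1 : (P : ℝ) ^ k = (P : ℝ) ^ (k - 1) * P := by
        rw [← pow_succ]
        congr 1
        omega
      have e2 : θ * (k * (4 * P : ℝ) ^ (k - 1)) = k * 4 ^ (k - 1) * (θ * (P : ℝ) ^ (k - 1)) := by
        rw [mul_pow]
        ring
      rw [e2] at h
      have h3 : (P : ℝ) ^ 2 * 1 ≤ (P : ℝ) ^ 2 *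
          (2 * (k * 4 ^ (k - 1) * (θ * (P : ℝ) ^ (k - 1)))) :=
        mul_le_mul_of_nonneg_left (by linarith) (by positivity)
      have h4 : 2 * k * 4 ^ (k - 1) * P * (1 + θ * (P : ℝ) ^ k) =
          2 * k * 4 ^ (k - 1) * P + (P : ℝ) ^ 2 *
          (2 * (k * 4 ^ (k - 1) * (θ * (P : ℝ) ^ (k - 1)))) := by
        rw [e1]
        ring
      rw [h4]
      have h5 : 0 ≤ 2 * k * 4 ^ (k - 1) * (P : ℝ) := by positivity
      linarith
    have h6 : Kc P * (P + (P : ℝ) ^ 2 / (1 + θ * (P : ℝ) ^ k)) ≤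
        Kc P * (P + 2 * k * 4 ^ (k - 1) * P) := by
      refine mul_le_mul_of_nonneg_left (by linarith) ?_
      have := Kc_ge hP
      linarith
    unfold Vc
    have h7 : 0 ≤ ‖Im k P θ‖ ^ 2 := by positivity
    have e3 : Kc P * ((P : ℝ) + 2 * k * 4 ^ (k - 1) * P) =
        Kc P * (P * (1 + 2 * k * 4 ^ (k - 1))) := by ring
    rw [e3] at h6
    linarith

/-- **The variance for one shifted power.** -/
theorem one_var {k P : ℕ} {A : Finset ℕ} {η : ℝ} {w : ℝ → ℝ} (hk : 2 ≤ k) (hP : 1 ≤ P)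
    (hη : η ≤ 1 / 2) (hw : Bump η w) :
    ∫ α, (∫ N, (rr (A ×ˢ box 1 P) (sm k 1) w α N -
        VV (νn 1) (A ×ˢ box 1 P) (sm k 1) w N) ^ 2) ∂(νn 1) ≤
      Vc k P * ((∫ u, w u) * A.card) := by
  rw [variance_identity hw.toWt (measurable_sm k 1)]
  simp only [TB_mix, TT_mix_sq, pow_one]
  set φ : ℝ → ℝ := fun θ => ‖𝓕 (fun u => (w u : ℂ)) θ‖ with hφ
  have hV0 : 0 ≤ Vc k P := by linarith [Vc_ge (k := k) hP]
  have e0 : ∀ θ, ‖Ah A θ‖ ^ 2 * Am k P (-θ) - ‖Ah A θ * Im k P (-θ)‖ ^ 2 =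
      ‖Ah A θ‖ ^ 2 * (Am k P (-θ) - ‖Im k P (-θ)‖ ^ 2) := by
    intro θ
    rw [norm_mul, mul_pow]
    ring
  simp only [e0]
  have hnn : ∀ θ, 0 ≤ φ θ ^ 2 * (‖Ah A θ‖ ^ 2 * (Am k P (-θ) - ‖Im k P (-θ)‖ ^ 2)) := by
    intro θ
    have h3 := norm_Im_sq_le_Am k P (-θ)
    have : 0 ≤ Am k P (-θ) - ‖Im k P (-θ)‖ ^ 2 := by linarith
    positivity
  have hb : ∀ θ, φ θ ^ 2 * (‖Ah A θ‖ ^ 2 * (Am k P (-θ) - ‖Im k P (-θ)‖ ^ 2)) ≤
      Vc k P * (φ θ ^ 2 * ‖Ah A θ‖ ^ 2) := by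
    intro θ
    have h1 := Am_sub_le_Vc hk hP (-θ)
    calc φ θ ^ 2 * (‖Ah A θ‖ ^ 2 * (Am k P (-θ) - ‖Im k P (-θ)‖ ^ 2)) ≤
        φ θ ^ 2 * (‖Ah A θ‖ ^ 2 * Vc k P) :=
          mul_le_mul_of_nonneg_left (mul_le_mul_of_nonneg_left h1 (by positivity)) (by positivity)
      _ = _ := by ring
  have hi0 : Integrable fun θ => φ θ ^ 2 * ‖Ah A θ‖ ^ 2 := by
    refine (integrable_four_sq hw.toWt).mul_bdd (c := (A.card : ℝ) ^ 2)
      ((continuous_Ah A).norm.pow 2).aestronglyMeasurable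
      (Filter.Eventually.of_forall fun θ => ?_)
    rw [Real.norm_eq_abs, abs_of_nonneg (by positivity)]
    exact pow_le_pow_left₀ (norm_nonneg _) (norm_Ah_le A θ) 2
  have h7 := integral_mono_of_nonneg (Filter.Eventually.of_forall hnn) (hi0.const_mul (Vc k P))
      (Filter.Eventually.of_forall hb)
  refine h7.trans ?_
  rw [integral_const_mul]
  refine mul_le_mul_of_nonneg_left ?_ hV0
  rw [mul_comm (∫ u, w u)]
  exact planch_set hw hη

end Pool.Agent.Q154.War
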