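import Pool.Agent.Q154.War.Asym

/-!
# The asymptotic formula, second part
-/

set_option autoImplicit false
set_option linter.unusedSectionVars false

open MeasureTheory Set Finset Filter
open scoped Real Topology

namespace Pool.Agent.Q154.War

lemma Lat_mono {k n : ℕ} {α : Fin n → ℝ} {N b b' : ℝ} (h : b ≤ b') :
    Lat k n α N b ⊆ Lat k n α N b' := by
  intro x hx
  have h1 : |∑ i, |(x i : ℝ) + α i| ^ k - N| < b := hx
  exact h1.trans_le h

lemma sh_mono {k n : ℕ} {N b b' : ℝ} (h0 : 0 ≤ b) (h : b ≤ b') (hN : b' ≤ N) :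
    sh k n N b ≤ sh k n N b' := by
  unfold sh
  refine mul_le_mul_of_nonneg_left ?_ vc_nonneg
  have h1 : (N + b) ^ ((n : ℝ) / k) ≤ (N + b') ^ ((n : ℝ) / k) :=
    Real.rpow_le_rpow (by linarith) (by linarith) (by positivity)
  have h2 : (N - b') ^ ((n : ℝ) / k) ≤ (N - b) ^ ((n : ℝ) / k) :=
    Real.rpow_le_rpow (by linarith) (by linarith) (by positivity)
  linarith

/-- limit of the volume ratio -/
lemma tendsto_sh {k n : ℕ} (hk : 1 ≤ k) (hn : k ≤ n) {κ γ c : ℝ} (hκ : 0 < κ) (hγ : 0 ≤ γ)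
    (hc : 0 < c) :
    Tendsto (fun N : ℝ => sh k n N (c * (κ * N ^ (-γ))) / (κ * N ^ ((n : ℝ) / k - 1 - γ))) atTop
      (𝓝 (2 * (n / k) * vc k n * c)) := by
  set p : ℝ := (n : ℝ) / k with hp
  have hk0 : (0 : ℝ) < k := by exact_mod_cast (show 0 < k by omega)
  have hp1 : 1 ≤ p := by
    rw [hp, le_div_iff₀ hk0, one_mul]
    exact_mod_cast hn
  have hz : Tendsto (fun N : ℝ => c * κ * N ^ (-(γ + 1))) atTop (𝓝 (c * κ * 0)) :=
    (tendsto_rpow_neg_atTop (by linarith : (0 : ℝ) < γ + 1)).const_mul _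
  rw [mul_zero] at hz
  have hlow : Tendsto (fun N : ℝ => 2 * p * vc k n * c * (1 - c * κ * N ^ (-(γ + 1))) ^ (p - 1))
      atTop (𝓝 (2 * p * vc k n * c)) := by
    have h1 : Tendsto (fun N : ℝ => (1 - c * κ * N ^ (-(γ + 1))) ^ (p - 1)) atTop
        (𝓝 ((1 - 0) ^ (p - 1))) :=
      (hz.const_sub 1).rpow_const (Or.inr (by linarith))
    rw [sub_zero, Real.one_rpow] at h1
    have h2 := h1.const_mul (2 * p * vc k n * c)
    rwa [mul_one] at h2
  have hupp : Tendsto (fun N : ℝ => 2 * p * vc k n * c * (1 + c * κ * N ^ (-(γ + 1))) ^ (p - 1))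
      atTop (𝓝 (2 * p * vc k n * c)) := by
    have h1 : Tendsto (fun N : ℝ => (1 + c * κ * N ^ (-(γ + 1))) ^ (p - 1)) atTop
        (𝓝 ((1 + 0) ^ (p - 1))) :=
      (hz.const_add 1).rpow_const (Or.inr (by linarith))
    rw [add_zero, Real.one_rpow] at h1
    have h2 := h1.const_mul (2 * p * vc k n * c)
    rwa [mul_one] at h2
  have hev : ∀ᶠ N : ℝ in atTop, 1 ≤ N ∧ c * κ < N :=
    (eventually_ge_atTop 1).and (eventually_gt_atTop (c * κ))
  have hfact : ∀ N : ℝ, 1 ≤ N → c * κ < N →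
      0 < c * (κ * N ^ (-γ)) ∧ c * (κ * N ^ (-γ)) < N ∧
      N - c * (κ * N ^ (-γ)) = N * (1 - c * κ * N ^ (-(γ + 1))) ∧
      N + c * (κ * N ^ (-γ)) = N * (1 + c * κ * N ^ (-(γ + 1))) ∧
      N ^ (p - 1 - γ) = N ^ (p - 1) * N ^ (-γ) ∧ c * κ * N ^ (-(γ + 1)) < 1 := by
    intro N hN1 hN2
    have hN0 : 0 < N := by linarith
    have h1 : N ^ (-γ) ≤ 1 := Real.rpow_le_one_of_one_le_of_nonpos hN1 (by linarith)
    have h2 : 0 < N ^ (-γ) := Real.rpow_pos_of_pos hN0 _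
    have h3 : c * (κ * N ^ (-γ)) ≤ c * κ := by
      have : 0 < c * κ := by positivity
      nlinarith
    have h4 : N ^ (-γ) = N * N ^ (-(γ + 1)) := by
      have e : -γ = 1 + -(γ + 1) := by ring
      rw [e, Real.rpow_add hN0, Real.rpow_one]
    refine ⟨by positivity, by linarith, ?_, ?_, ?_, ?_⟩
    · rw [h4]
      ring
    · rw [h4]
      ring
    · rw [← Real.rpow_add hN0]
      congr 1
    · have h5 : N * (c * κ * N ^ (-(γ + 1))) < N * 1 := by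
        rw [mul_one]
        calc N * (c * κ * N ^ (-(γ + 1))) = c * (κ * (N * N ^ (-(γ + 1)))) := by ring
          _ = c * (κ * N ^ (-γ)) := by rw [← h4]
          _ < N := by linarith
      exact lt_of_mul_lt_mul_left h5 hN0.le
  refine tendsto_of_tendsto_of_tendsto_of_le_of_le' hlow hupp ?_ ?_
  · filter_upwards [hev] with N hN
    obtain ⟨h1, h2, h3, h4, h5, h6⟩ := hfact N hN.1 hN.2
    have hN0 : 0 < N := by linarith [hN.1]
    have hg : 0 < N ^ (-γ) := Real.rpow_pos_of_pos hN0 _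
    have hq : 0 < N ^ (p - 1) := Real.rpow_pos_of_pos hN0 _
    have h7 := (pow_shell hp1 h1 h2).1
    rw [le_div_iff₀ (by rw [h5]; positivity)]
    unfold sh
    rw [← hp]
    have h9 : 0 ≤ 1 - c * κ * N ^ (-(γ + 1)) := by linarith
    calc 2 * p * vc k n * c * (1 - c * κ * N ^ (-(γ + 1))) ^ (p - 1) * (κ * N ^ (p - 1 - γ)) =
        vc k n * (2 * (c * (κ * N ^ (-γ))) * p *
          (N ^ (p - 1) * (1 - c * κ * N ^ (-(γ + 1))) ^ (p - 1))) := by
          rw [h5]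
          ring
      _ = vc k n * (2 * (c * (κ * N ^ (-γ))) * p * (N - c * (κ * N ^ (-γ))) ^ (p - 1)) := by
          rw [h3, Real.mul_rpow hN0.le h9]
      _ ≤ _ := mul_le_mul_of_nonneg_left h7 vc_nonneg
  · filter_upwards [hev] with N hN
    obtain ⟨h1, h2, h3, h4, h5, h6⟩ := hfact N hN.1 hN.2
    have hN0 : 0 < N := by linarith [hN.1]
    have hg : 0 < N ^ (-γ) := Real.rpow_pos_of_pos hN0 _
    have hq : 0 < N ^ (p - 1) := Real.rpow_pos_of_pos hN0 _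
    have h7 := (pow_shell hp1 h1 h2).2
    rw [div_le_iff₀ (by rw [h5]; positivity)]
    unfold sh
    rw [← hp]
    have h9 : 0 ≤ 1 + c * κ * N ^ (-(γ + 1)) := by positivity
    calc vc k n * ((N + c * (κ * N ^ (-γ))) ^ p - (N - c * (κ * N ^ (-γ))) ^ p) ≤
        vc k n * (2 * (c * (κ * N ^ (-γ))) * p * (N + c * (κ * N ^ (-γ))) ^ (p - 1)) :=
          mul_le_mul_of_nonneg_left h7 vc_nonneg
      _ = vc k n * (2 * (c * (κ * N ^ (-γ))) * p *
          (N ^ (p - 1) * (1 + c * κ * N ^ (-(γ + 1))) ^ (p - 1))) := by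
          rw [h4, Real.mul_rpow hN0.le h9]
      _ = _ := by
          rw [h5]
          ring

lemma ae_cube (n : ℕ) : ∀ᵐ α ∂(νn n), ∀ i, α i ∈ Set.Icc (0 : ℝ) 1 := by
  have h1 : ∀ᵐ α ∂(νn n), ∀ i, α i ∈ Set.Icc (0 : ℝ) 1 := by
    rw [ae_all_iff]
    intro i
    exact (Measure.quasiMeasurePreserving_eval (fun _ : Fin n => ν1) i).ae ae_ν1
  exact h1

/-- **Bounds in the window.** -/
theorem ae_window {k n : ℕ} (hk : 3 ≤ k) (hn : 2 * k + 1 ≤ n) {κ γ A ε : ℝ} (hκ : 0 < κ)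
    (hγ : 0 ≤ γ) (hγ2 : k * γ < n / 2 - k) (hA : 1 < A) (hε : 0 < ε) (hε1 : ε < 1) :
    ∀ᵐ α ∂(νn n), ∃ C e' : ℝ, e' < n / k - 1 - γ ∧ 0 ≤ C ∧ ∀ᶠ N : ℝ in atTop,
      sh k n N ((1 - ε) * A ^ (-γ) * (κ * N ^ (-γ))) - C * N ^ e' ≤
          ((Lat k n α N (κ * N ^ (-γ))).ncard : ℝ) ∧
        ((Lat k n α N (κ * N ^ (-γ))).ncard : ℝ) ≤
          sh k n N ((1 + ε) * A ^ γ * (κ * N ^ (-γ))) + C * N ^ e' := by
  have hA0 : 0 < A := by linarith
  have hk3 : (3 : ℝ) ≤ k := by exact_mod_cast hk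
  have hk0 : (0 : ℝ) < k := by linarith
  have hk1 : 1 ≤ k := by omega
  have hn' : (2 * (k : ℝ) + 1) ≤ n := by exact_mod_cast hn
  have hn1 : 1 ≤ n := by omega
  have hs := sk_pos hk
  set e : ℝ := n / k - 1 - γ with he
  have h1 : (n : ℝ) / 2 / k < e := by
    rw [he, div_lt_iff₀ hk0]
    have h2 : ((n : ℝ) / k - 1 - γ) * k = n - k - k * γ := by
      field_simp
    rw [h2]
    linarith
  have h2 : e - sk k / 4 / k < e := by
    have : 0 < sk k / 4 / k := by positivity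
    linarith
  obtain ⟨e', he1, he2⟩ := exists_between (max_lt h1 h2)
  have he'0 : 0 < e' := lt_of_lt_of_le (by positivity) ((le_max_left _ _).trans he1.le)
  set a₁ := A ^ (1 / (k : ℝ)) with ha₁
  set ρ := A ^ (-γ) with hρ
  set q := A ^ e' with hq
  have ha₁1 : 1 < a₁ := Real.one_lt_rpow hA (by positivity)
  have ha₁0 : 0 < a₁ := by linarith
  have hρ0 : 0 < ρ := Real.rpow_pos_of_pos hA0 _
  have hρ1 : ρ ≤ 1 := Real.rpow_le_one_of_one_le_of_nonpos hA.le (by linarith)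
  have hq0 : 0 < q := Real.rpow_pos_of_pos hA0 _
  have ha₁k : a₁ ^ k = A := by
    rw [ha₁, one_div]
    exact Real.rpow_inv_natCast_pow hA0.le (by omega)
  have hq1 : a₁ ^ ((n : ℝ) / 2) < q := by
    rw [ha₁, ← Real.rpow_mul hA0.le, hq]
    refine Real.rpow_lt_rpow_of_exponent_lt hA ?_
    calc 1 / (k : ℝ) * (n / 2) = n / 2 / k := by ring
      _ < e' := (le_max_left _ _).trans_lt he1
  have hq2 : ρ * a₁ ^ ((n : ℝ) - k - sk k / 4) < q := by
    rw [ha₁, ← Real.rpow_mul hA0.le, hq, hρ, ← Real.rpow_add hA0]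
    refine Real.rpow_lt_rpow_of_exponent_lt hA ?_
    calc -γ + 1 / (k : ℝ) * ((n : ℝ) - k - sk k / 4) = e - sk k / 4 / k := by
          rw [he]
          field_simp
          ring
      _ < e' := (le_max_right _ _).trans_lt he1
  set B : ℝ := 1 + 2 * κ with hB
  have hB1 : 1 ≤ B := by linarith
  obtain ⟨wu, hwu⟩ := exists_prof (a := 1) (b := 1 + ε) one_pos (by linarith)
  have hερ : 0 < (1 - ε) * ρ := mul_pos (by linarith) hρ0
  obtain ⟨wl, hwl⟩ := exists_prof (a := (1 - ε) * ρ) (b := ρ) hερ (by nlinarith)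
  have hu := ae_ZZ hk hn ha₁1 hρ0 hκ hB1 hwu.toWt hq1 hq2
  have hl := ae_ZZ hk hn ha₁1 hρ0 hκ hB1 hwl.toWt hq1 hq2
  filter_upwards [hu, hl, ae_cube n] with α ⟨Cu, hCu⟩ ⟨Cl, hCl⟩ hα
  refine ⟨(Cu : ℝ) + Cl, e', he2, by positivity, ?_⟩
  have hev : ∀ᶠ N : ℝ in atTop, 1 ≤ N ∧ 2 * κ < N ∧ (1 + ε) * A ^ γ * κ < N :=
    (eventually_ge_atTop 1).and ((eventually_gt_atTop (2 * κ)).and (eventually_gt_atTop _))
  filter_upwards [hev] with N ⟨hN1, hN2, hN3⟩
  have hN0 : 0 < N := by linarith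
  obtain ⟨j, hj1, hj2⟩ := exists_nat_pow_near hN1 hA
  have hη0 : 0 < κ * ρ ^ j := by positivity
  have hAj : 0 < A ^ j := by positivity
  -- comparison of the widths
  have hw1 : N ^ (-γ) ≤ ρ ^ j := by
    have h3 : ρ ^ j = (A ^ j) ^ (-γ) := by
      rw [hρ, ← Real.rpow_mul_natCast hA0.le, ← Real.rpow_natCast A j, ← Real.rpow_mul hA0.le]
      congr 1
      ring
    rw [h3]
    exact Real.rpow_le_rpow_of_nonpos hAj hj1 (by linarith)
  have hw2 : ρ * ρ ^ j ≤ N ^ (-γ) := by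
    have h3 : ρ * ρ ^ j = (A ^ (j + 1)) ^ (-γ) := by
      rw [← pow_succ', hρ, ← Real.rpow_mul_natCast hA0.le, ← Real.rpow_natCast A (j + 1),
        ← Real.rpow_mul hA0.le]
      congr 1
      push_cast
      ring
    rw [h3]
    exact Real.rpow_le_rpow_of_nonpos hN0 hj2.le (by linarith)
  have hw3 : ρ ^ j ≤ A ^ γ * N ^ (-γ) := by
    have h3 : A ^ γ * ρ = 1 := by
      rw [hρ, ← Real.rpow_add hA0]
      simp
    calc ρ ^ j = (A ^ γ * ρ) * ρ ^ j := by rw [h3, one_mul]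
      _ = A ^ γ * (ρ * ρ ^ j) := by ring
      _ ≤ A ^ γ * N ^ (-γ) := mul_le_mul_of_nonneg_left hw2 (by positivity)
  have hηκ : κ * ρ ^ j ≤ κ := by
    have : ρ ^ j ≤ 1 := pow_le_one₀ hρ0.le hρ1
    nlinarith
  have hNg1 : N ^ (-γ) ≤ 1 := Real.rpow_le_one_of_one_le_of_nonpos hN1 (by linarith)
  have hNg0 : 0 < N ^ (-γ) := Real.rpow_pos_of_pos hN0 _
  -- the box
  have hY : N + 2 * κ ≤ (Yj B a₁ j : ℝ) ^ k := by
    have h3 : (B * a₁ ^ (j + 1)) ^ k ≤ (Yj B a₁ j : ℝ) ^ k :=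
      pow_le_pow_left₀ (by positivity) (Yj_ge B a₁ j) k
    have h4 : (B * a₁ ^ (j + 1)) ^ k = B ^ k * A ^ (j + 1) := by
      rw [mul_pow, ← pow_mul, mul_comm (j + 1) k, pow_mul, ha₁k]
    have h5 : B ≤ B ^ k := le_self_pow₀ hB1 (by omega)
    have h6 : 1 ≤ A ^ (j + 1) := one_le_pow₀ hA.le
    have h7 : N + 2 * κ ≤ B * A ^ (j + 1) := by
      rw [hB]
      nlinarith
    calc N + 2 * κ ≤ B * A ^ (j + 1) := h7
      _ ≤ B ^ k * A ^ (j + 1) := mul_le_mul_of_nonneg_right h5 (by positivity)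
      _ = (B * a₁ ^ (j + 1)) ^ k := h4.symm
      _ ≤ _ := h3
  have hqj : q ^ j ≤ N ^ e' := by
    have h3 : q ^ j = (A ^ j) ^ e' := by
      rw [hq, ← Real.rpow_mul_natCast hA0.le, ← Real.rpow_natCast A j, ← Real.rpow_mul hA0.le]
      congr 1
      ring
    rw [h3]
    exact Real.rpow_le_rpow hAj.le hj1 he'0.le
  have hNe : 0 ≤ N ^ e' := by positivity
  constructor
  · -- lower bound
    have l1 := rr_le_Lat (N := N) (Y := Yj B a₁ j) hk1 hα hη0 hwl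
    have l2 : ((Lat k n α N (ρ * (κ * ρ ^ j))).ncard : ℝ) ≤
        ((Lat k n α N (κ * N ^ (-γ))).ncard : ℝ) := by
      have h3 : ρ * (κ * ρ ^ j) ≤ κ * N ^ (-γ) := by
        calc ρ * (κ * ρ ^ j) = κ * (ρ * ρ ^ j) := by ring
          _ ≤ κ * N ^ (-γ) := mul_le_mul_of_nonneg_left hw2 hκ.le
      exact_mod_cast Set.ncard_le_ncard (Lat_mono h3) (finite_Lat hk1 hα N _)
    have l3 := (abs_le.1 (sup_fluct (μ := νn n) (F := boxZ n (Yj B a₁ j)) (s := sz k n)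
      (hwl.toWt.scale hη0) (measurable_sz k n) α N)).1
    have h8 : (1 - ε) * ρ * (κ * ρ ^ j) ≤ κ := by
      have h9 : (1 - ε) * ρ ≤ 1 := by nlinarith
      calc (1 - ε) * ρ * (κ * ρ ^ j) ≤ 1 * (κ * ρ ^ j) :=
            mul_le_mul_of_nonneg_right h9 hη0.le
        _ ≤ κ := by linarith
    have l4 := VV_lower2 (Y := Yj B a₁ j) hk1 hn1 hwl hερ hη0 (N := N) (by linarith) (by linarith)
    have l5 := hCl j
    have l6 : sh k n N ((1 - ε) * A ^ (-γ) * (κ * N ^ (-γ))) ≤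
        sh k n N ((1 - ε) * ρ * (κ * ρ ^ j)) := by
      refine sh_mono ?_ ?_ (by linarith)
      · rw [← hρ]
        positivity
      · rw [← hρ]
        exact mul_le_mul_of_nonneg_left (mul_le_mul_of_nonneg_left hw1 hκ.le) hερ.le
    have l7 : (Cl : ℝ) * q ^ j ≤ ((Cu : ℝ) + Cl) * N ^ e' := by
      calc (Cl : ℝ) * q ^ j ≤ Cl * N ^ e' := mul_le_mul_of_nonneg_left hqj (by positivity)
        _ ≤ _ := mul_le_mul_of_nonneg_right (by linarith [(Nat.cast_nonneg Cu : (0 : ℝ) ≤ Cu)]) hNe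
    linarith
  · -- upper bound
    have l1 := Lat_le_rr (N := N) (Y := Yj B a₁ j) hα hη0 hwu (by linarith)
    have l2 : ((Lat k n α N (κ * N ^ (-γ))).ncard : ℝ) ≤
        ((Lat k n α N (1 * (κ * ρ ^ j))).ncard : ℝ) := by
      have h3 : κ * N ^ (-γ) ≤ 1 * (κ * ρ ^ j) := by
        rw [one_mul]
        exact mul_le_mul_of_nonneg_left hw1 hκ.le
      exact_mod_cast Set.ncard_le_ncard (Lat_mono h3) (finite_Lat hk1 hα N _)
    have l3 := (abs_le.1 (sup_fluct (μ := νn n) (F := boxZ n (Yj B a₁ j)) (s := sz k n)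
      (hwu.toWt.scale hη0) (measurable_sz k n) α N)).2
    have h8 : (1 + ε) * (κ * ρ ^ j) ≤ 2 * κ := by nlinarith
    have l4 := VV_upper (Y := Yj B a₁ j) hk1 hn1 hwu (by linarith) hη0 (N := N) (by linarith)
    have l5 := hCu j
    have l6 : sh k n N ((1 + ε) * (κ * ρ ^ j)) ≤
        sh k n N ((1 + ε) * A ^ γ * (κ * N ^ (-γ))) := by
      refine sh_mono (by positivity) ?_ ?_
      · calc (1 + ε) * (κ * ρ ^ j) ≤ (1 + ε) * (κ * (A ^ γ * N ^ (-γ))) :=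
              mul_le_mul_of_nonneg_left (mul_le_mul_of_nonneg_left hw3 hκ.le) (by linarith)
          _ = _ := by ring
      · calc (1 + ε) * A ^ γ * (κ * N ^ (-γ)) = ((1 + ε) * A ^ γ * κ) * N ^ (-γ) := by ring
          _ ≤ ((1 + ε) * A ^ γ * κ) * 1 := mul_le_mul_of_nonneg_left hNg1 (by positivity)
          _ ≤ N := by linarith
    have l7 : (Cu : ℝ) * q ^ j ≤ ((Cu : ℝ) + Cl) * N ^ e' := by
      calc (Cu : ℝ) * q ^ j ≤ Cu * N ^ e' := mul_le_mul_of_nonneg_left hqj (by positivity)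
        _ ≤ _ := mul_le_mul_of_nonneg_right (by linarith [(Nat.cast_nonneg Cl : (0 : ℝ) ≤ Cl)]) hNe
    linarith

end Pool.Agent.Q154.War
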